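import Mathlib

/-! Definitions for isolation of regular graphs, stars and chromatic graphs. -/

namespace Pool.Agent.IsoDefs

/-- `H` is a regular graph (with at least one vertex) of degree at least `k - 1`. -/
def IsReg (k : ℕ) {W : Type} (H : SimpleGraph W) : Prop :=
  Nonempty W ∧ ∃ d, k - 1 ≤ d ∧ ∀ v, (H.neighborSet v).ncard = d

/-- `H` has chromatic number at least `k`. -/
def IsChr (k : ℕ) {W : Type} (H : SimpleGraph W) : Prop := (k : ℕ∞) ≤ H.chromaticNumber

/-- `H` is isomorphic to the star with `k` leaves. -/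
def IsStarK (k : ℕ) {W : Type} (H : SimpleGraph W) : Prop :=
  Nonempty (H ≃g completeBipartiteGraph (Fin 1) (Fin k))

/-- `H` is an `F_{i,k}`-graph. -/
def InFam (i k : ℕ) {W : Type} (H : SimpleGraph W) : Prop :=
  (i = 1 ∧ IsReg k H) ∨ (i = 2 ∧ IsChr k H) ∨ (i = 3 ∧ (IsStarK k H ∨ IsReg k H ∨ IsChr k H))

/-- The subgraph of `G` induced on `X` has a (not necessarily induced) subgraph that is an
`F_{i,k}`-graph. -/
def HasF (i k : ℕ) {V : Type*} (G : SimpleGraph V) (X : Set V) : Prop :=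
  ∃ (W : Type) (_ : Finite W) (H : SimpleGraph W), InFam i k H ∧ H.IsContained (G.induce X)

/-- The closed neighbourhood `N[D]`. -/
def closedNbhd {V : Type*} (G : SimpleGraph V) (D : Finset V) : Set V :=
  {x | ∃ d ∈ D, x = d ∨ G.Adj d x}

/-- The isolation number: the least size of `D` with `G - N[D]` free of `F_{i,k}`-graphs. -/
noncomputable def iota (i k : ℕ) {V : Type*} (G : SimpleGraph V) : ℕ :=
  sInf {m | ∃ D : Finset V, D.card = m ∧ ¬ HasF i k G (closedNbhd G D)ᶜ}

/-- The marked isolation number: the least size of `D` with `K - M - N[D]` free of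
`F_{i,k}`-graphs. -/
noncomputable def iotaMarked (i k : ℕ) {V : Type*} (K : SimpleGraph V) (M : Set V) : ℕ :=
  sInf {m | ∃ D : Finset V, D.card = m ∧ ¬ HasF i k K (closedNbhd K D ∪ M)ᶜ}

/-- `P` is pendant at `y`: `y` is outside `P`, every edge leaving `P` ends in `y`, and either `P`
is a `k`-clique, or `k = 2` and `P` induces a five-cycle having an edge with neither end adjacent
to `y`. -/
def IsPendant (k : ℕ) {V : Type*} (G : SimpleGraph V) (y : V) (P : Finset V) : Prop :=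
  (G.IsNClique k P ∨ (k = 2 ∧ Nonempty (G.induce (P : Set V) ≃g SimpleGraph.cycleGraph 5) ∧
      ∃ a ∈ P, ∃ b ∈ P, G.Adj a b ∧ ¬ G.Adj y a ∧ ¬ G.Adj y b)) ∧
    y ∉ P ∧ ∀ q ∈ P, ∀ z, G.Adj q z → z ∈ P ∨ z = y

/-- The units `{y} ∪ Q y`, `y ∈ S`, are pairwise disjoint and `Q y` is pendant at `y`. -/
def IsUnitFamily (k : ℕ) {V : Type*} (G : SimpleGraph V) (S : Finset V) (Q : V → Finset V) :
    Prop :=
  (∀ y ∈ S, IsPendant k G y (Q y)) ∧
    ∀ y ∈ S, ∀ y' ∈ S, y ≠ y' → y ∉ Q y' ∧ Disjoint (Q y) (Q y')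

/-- The vertices outside all units. -/
def kernelSet {V : Type*} (S : Finset V) (Q : V → Finset V) : Set V :=
  {x | x ∉ S ∧ ∀ y ∈ S, x ∉ Q y}

/-- The kernel vertices adjacent to a vertex of `S`. -/
def kernelMarks {V : Type*} (G : SimpleGraph V) (S : Finset V) (Q : V → Finset V) :
    Set (kernelSet S Q) :=
  {x | ∃ y ∈ S, G.Adj y x}

end Pool.Agent.IsoDefs
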