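import Mathlib

/-! Two exceptional families of small extremal graphs. -/

namespace Pool.Agent.IsoDefs

/-- The vertex set splits into two parts of `k + 1` vertices, the edges between the parts form a
matching, and deleting an end of such an edge from its part leaves a clique. -/
def IsMatchedPair (k : ℕ) {V : Type*} (G : SimpleGraph V) : Prop :=
  ∃ A : Set V, A.ncard = k + 1 ∧ Aᶜ.ncard = k + 1 ∧ ∀ x ∈ A, ∀ p ∉ A, G.Adj x p →
    G.IsClique (A \ {x}) ∧ G.IsClique (Aᶜ \ {p}) ∧
      (∀ p' ∉ A, G.Adj x p' → p' = p) ∧ ∀ x' ∈ A, G.Adj x' p → x' = x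

/-- `G` contains the complete graph on its vertex set minus a perfect matching. -/
def HasCocktail {V : Type*} (G : SimpleGraph V) : Prop :=
  ∃ σ : V → V, (∀ x, σ x ≠ x ∧ σ (σ x) = x) ∧ ∀ x y, x ≠ y → y ≠ σ x → G.Adj x y

end Pool.Agent.IsoDefs
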