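import Pool.Agent.Work.MP_1346a1_co.Defs
import Pool.Agent.Work.MP_1346a1_co.Defs2

/-! The families of extremal graphs of order divisible by `k + 1`. -/

namespace Pool.Agent.IsoDefs

/-- The vertex set splits into units: `f x` is the centre of the unit of `x`, each unit is its
centre plus a `k`-clique, and an edge between two units joins their centres. -/
def IsPure (k : ℕ) {V : Type*} (G : SimpleGraph V) : Prop :=
  ∃ f : V → V, (∀ x, f (f x) = f x) ∧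
    (∀ y, f y = y → G.IsClique {x | f x = y ∧ x ≠ y} ∧ {x | f x = y ∧ x ≠ y}.ncard = k) ∧
    ∀ x z, G.Adj x z → f x = f z ∨ (f x = x ∧ f z = z)

/-- The five-cycle blown up by cliques, any two consecutive ones having at least `k` vertices
together. -/
def IsPentagon (k : ℕ) {V : Type*} (G : SimpleGraph V) : Prop :=
  ∃ f : V → ZMod 5, (∀ x y, G.Adj x y ↔ x ≠ y ∧ (f x = f y ∨ f x = f y + 1 ∨ f y = f x + 1)) ∧
    ∀ j, k ≤ {x | f x = j ∨ f x = j + 1}.ncard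

/-- `G` is a spanning subgraph of a `k`-regular graph `H` in which the complement of every closed
neighbourhood is a closed neighbourhood, and on each closed neighbourhood of `H` the graph `G` has
a dominating vertex or contains the complete graph minus a perfect matching. -/
def IsTwisted (k : ℕ) {V : Type*} (G : SimpleGraph V) : Prop :=
  ∃ H : SimpleGraph V, G ≤ H ∧ ∀ v, (closedNbhd H {v}).ncard = k + 1 ∧
    (∃ u, closedNbhd H {u} = (closedNbhd H {v})ᶜ) ∧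
    ((∃ c ∈ closedNbhd H {v}, ∀ x ∈ closedNbhd H {v}, x ≠ c → G.Adj c x) ∨
      HasCocktail (G.induce (closedNbhd H {v})))

/-- Two disjoint layers `T`, `U`: `σ` pairs the vertices of `U`, each `u` in `U` owns `s` of the
`k + s` vertices of `T` and is adjacent to all vertices outside `T` except `σ u`, and each `t` in
`T` is adjacent exactly to its owner `w t` and to the vertices of `T` not owned by `σ (w t)`. -/
def IsLayered (k : ℕ) {V : Type*} (G : SimpleGraph V) : Prop :=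
  ∃ (T U : Set V) (w σ : V → V) (s : ℕ), Disjoint T U ∧ T.ncard = k + s ∧
    (∀ u ∈ U, σ u ∈ U ∧ σ u ≠ u ∧ σ (σ u) = u ∧ {t ∈ T | w t = u}.ncard = s ∧
      ∀ x ∉ T, G.Adj u x ↔ x ≠ u ∧ x ≠ σ u) ∧
    ∀ t ∈ T, w t ∈ U ∧ ∀ x, G.Adj t x ↔ x = w t ∨ (x ∈ T ∧ x ≠ t ∧ w x ≠ σ (w t))

/-- A set `A` of `k + 1` vertices dominated by both `x` and `x'`, the complete graph minus the edge
`p p'` outside `A`, and just the edges `x p`, `x' p'` between the two sides. -/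
def IsHubPair (k : ℕ) {V : Type*} (G : SimpleGraph V) : Prop :=
  ∃ (A : Finset V) (x x' p p' : V), A.card = k + 1 ∧ x ∈ A ∧ x' ∈ A ∧ x ≠ x' ∧ p ∉ A ∧ p' ∉ A ∧
    p ≠ p' ∧ (∀ y ∈ A, (y ≠ x → G.Adj x y) ∧ (y ≠ x' → G.Adj x' y)) ∧
    (∀ y ∉ A, ∀ z ∉ A, G.Adj y z ↔ y ≠ z ∧ s(y, z) ≠ s(p, p')) ∧
    ∀ y ∈ A, ∀ z ∉ A, G.Adj y z ↔ (y = x ∧ z = p) ∨ (y = x' ∧ z = p')

/-- Two disjoint `k`-cliques `Q`, `R` joined by a perfect matching from `Q - a` to `R - b`; every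
other vertex has exactly the neighbours `a`, `b` in the cliques. -/
def IsLadder (k : ℕ) {V : Type*} (G : SimpleGraph V) : Prop :=
  ∃ (Q R : Finset V) (a b : V) (m : V → V), G.IsNClique k Q ∧ G.IsNClique k R ∧ Disjoint Q R ∧
    a ∈ Q ∧ b ∈ R ∧ Set.BijOn m ((Q : Set V) \ {a}) ((R : Set V) \ {b}) ∧
    (∀ x ∈ Q, ∀ y ∈ R, G.Adj x y ↔ x ≠ a ∧ y = m x) ∧
    ∀ z ∉ Q, z ∉ R → ∀ x, x ∈ Q ∨ x ∈ R → (G.Adj z x ↔ x = a ∨ x = b)

/-- Three `k`-cliques `Q`, `S`, `T` with `Q` the complement of `S ∪ T`; the only other edges join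
`a` in `Q` to `S - T` and `b` in `Q` to `T - S`. -/
def IsKite (k : ℕ) {V : Type*} (G : SimpleGraph V) : Prop :=
  ∃ (Q S T : Finset V) (a b : V), G.IsNClique k Q ∧ G.IsNClique k S ∧ G.IsNClique k T ∧
    a ∈ Q ∧ b ∈ Q ∧ a ≠ b ∧ (∀ x, x ∈ Q ↔ x ∉ S ∧ x ∉ T) ∧
    (∀ x ∉ T, ∀ y ∉ S, x ∈ S → y ∈ T → ¬ G.Adj x y) ∧
    ∀ x ∈ Q, ∀ y ∉ Q, G.Adj x y ↔ (x = a ∧ y ∉ T) ∨ (x = b ∧ y ∉ S)

/-- Two complete graphs on `k + 1` vertices, minus the edges `x x'` and `p p'`; the four ends of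
these edges are matched to four other vertices of the opposite side. -/
def IsCross (k : ℕ) {V : Type*} (G : SimpleGraph V) : Prop :=
  ∃ (A : Finset V) (x x' y y' p p' q q' : V), A.card = k + 1 ∧
    [x, x', y, y', p, p', q, q'].Nodup ∧ (∀ u ∈ [x, x', y, y'], u ∈ A) ∧
    (∀ u ∈ [p, p', q, q'], u ∉ A) ∧
    (∀ u ∈ A, ∀ v ∈ A, G.Adj u v ↔ u ≠ v ∧ s(u, v) ≠ s(x, x')) ∧
    (∀ u ∉ A, ∀ v ∉ A, G.Adj u v ↔ u ≠ v ∧ s(u, v) ≠ s(p, p')) ∧
    ∀ u ∈ A, ∀ v ∉ A, G.Adj u v ↔ (u, v) ∈ [(x, q), (x', q'), (y, p), (y', p')]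

/-- The square of the eight-cycle minus one of the listed sets of edges (the last one only for
`i ≠ 2`). -/
def IsSquare (i : ℕ) {V : Type*} (G : SimpleGraph V) : Prop :=
  ∃ (e : ZMod 8 ≃ V) (D : List (Sym2 (ZMod 8))),
    (D = [] ∨ D = [s(1, 7), s(2, 4)] ∨ D = [s(1, 7), s(2, 4), s(5, 7)] ∨
      (i ≠ 2 ∧ D = [s(1, 7), s(2, 4), s(5, 6)])) ∧
    ∀ a b, G.Adj (e a) (e b) ↔ b - a ∈ ([1, 2, 6, 7] : List (ZMod 8)) ∧ s(a, b) ∉ D

end Pool.Agent.IsoDefs
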