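import Mathlib

-- merged part: Pool.Agent.Work.MP_1346a1_co.Basic
section
/-! Basic finite-set combinatorics for isolation of stars, regular and chromatic graphs. -/

namespace Pool.Agent.IsoKer

open Finset
open scoped Classical

variable {V : Type*} (G : SimpleGraph V) (k : ℕ)

/-- Neighbours of `v` inside `U`. -/
noncomputable def nb (U : Finset V) (v : V) : Finset V := U.filter (fun x => G.Adj v x)

/-- The vertices of `U` outside the closed neighbourhood of `D`. -/
noncomputable def rem (U D : Finset V) : Finset V :=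
  U.filter (fun x => ∀ d ∈ D, x ≠ d ∧ ¬ G.Adj d x)

/-- Degrees below `k` and no nonempty subset of minimum degree at least `k - 1`. -/
def Free (U : Finset V) : Prop :=
  (∀ v ∈ U, (nb G U v).card < k) ∧ ∀ T ⊆ U, T.Nonempty → ∃ t ∈ T, (nb G T t).card + 1 < k

/-- No edges between `A` and `B`. -/
def NA (A B : Finset V) : Prop := ∀ a ∈ A, ∀ b ∈ B, ¬ G.Adj a b

/-- `C` is a subset of `U` with no edge to the rest of `U`. -/
def Cl (C U : Finset V) : Prop := C ⊆ U ∧ ∀ x ∈ C, ∀ y ∈ U, G.Adj x y → y ∈ C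

/-- `U` has no proper nonempty closed subset. -/
def Conn (U : Finset V) : Prop := ∀ T, Cl G T U → T.Nonempty → T = U

/-- A clique with `k` vertices. -/
def Clq (Q : Finset V) : Prop := Q.card = k ∧ ∀ a ∈ Q, ∀ b ∈ Q, a ≠ b → G.Adj a b

/-- Special sets: at most `k + 1` vertices, all inner degrees `k - 1`. -/
def Sp (C : Finset V) : Prop :=
  C.Nonempty ∧ C.card ≤ min (k + 1) (2 * k - 1) ∧ ∀ x ∈ C, (nb G C x).card + 1 = k

variable {G k}

@[simp] theorem mem_nb {U : Finset V} {v x : V} : x ∈ nb G U v ↔ x ∈ U ∧ G.Adj v x := by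
  simp [nb]

@[simp] theorem mem_rem {U D : Finset V} {x : V} :
    x ∈ rem G U D ↔ x ∈ U ∧ ∀ d ∈ D, x ≠ d ∧ ¬ G.Adj d x := by
  simp [rem]

theorem rem_sub (U D : Finset V) : rem G U D ⊆ U := fun _ hx => (mem_rem.1 hx).1

theorem nb_sub (U : Finset V) (v : V) : nb G U v ⊆ U := fun _ hx => (mem_nb.1 hx).1

theorem nb_mono {A B : Finset V} (h : A ⊆ B) (v : V) : nb G A v ⊆ nb G B v :=
  fun _ hx => mem_nb.2 ⟨h (mem_nb.1 hx).1, (mem_nb.1 hx).2⟩

theorem nb_card_mono {A B : Finset V} (h : A ⊆ B) (v : V) :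
    (nb G A v).card ≤ (nb G B v).card := card_le_card (nb_mono h v)

theorem not_mem_nb_self (U : Finset V) (v : V) : v ∉ nb G U v := by simp

theorem nb_sub_erase (U : Finset V) (v : V) : nb G U v ⊆ U.erase v := by
  intro x hx
  rw [mem_nb] at hx
  exact mem_erase.2 ⟨fun h => G.loopless.irrefl _ (h ▸ hx.2), hx.1⟩

theorem nb_card_lt {U : Finset V} {v : V} (hv : v ∈ U) : (nb G U v).card + 1 ≤ U.card := by
  have := card_le_card (nb_sub_erase (G := G) U v)
  rw [card_erase_of_mem hv] at this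
  have := card_pos.2 ⟨v, hv⟩
  omega

theorem NA.symm {A B : Finset V} (h : NA G A B) : NA G B A :=
  fun b hb a ha hab => h a ha b hb hab.symm

theorem NA.mono {A B A' B' : Finset V} (h : NA G A B) (hA : A' ⊆ A) (hB : B' ⊆ B) :
    NA G A' B' := fun a ha b hb => h a (hA ha) b (hB hb)

theorem NA.union_left {A A' B : Finset V} (h : NA G A B) (h' : NA G A' B) :
    NA G (A ∪ A') B := by
  intro a ha b hb
  rcases mem_union.1 ha with h1 | h1
  exacts [h a h1 b hb, h' a h1 b hb]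

theorem Free.mono {A B : Finset V} (h : Free G k B) (hAB : A ⊆ B) : Free G k A :=
  ⟨fun v hv => lt_of_le_of_lt (nb_card_mono hAB v) (h.1 v (hAB hv)),
    fun T hT hne => h.2 T (hT.trans hAB) hne⟩

theorem free_small {X : Finset V} (h : X.card < k) : Free G k X := by
  refine ⟨fun v hv => ?_, fun T hT ⟨t, ht⟩ => ⟨t, ht, ?_⟩⟩
  · have := nb_card_lt (G := G) hv; omega
  · have := nb_card_lt (G := G) ht
    have := card_le_card hT
    omega

theorem Free.union {A B : Finset V} (hA : Free G k A) (hB : Free G k B) (h : NA G A B) :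
    Free G k (A ∪ B) := by
  have e1 : ∀ T ⊆ A ∪ B, ∀ v ∈ A, nb G T v ⊆ nb G (T ∩ A) v := by
    intro T hT v hv x hx
    rw [mem_nb] at hx ⊢
    refine ⟨mem_inter.2 ⟨hx.1, ?_⟩, hx.2⟩
    rcases mem_union.1 (hT hx.1) with h1 | h1
    · exact h1
    · exact absurd hx.2 (h v hv x h1)
  have e2 : ∀ v ∈ B, nb G (A ∪ B) v ⊆ nb G B v := by
    intro v hv x hx
    rw [mem_nb] at hx ⊢
    refine ⟨?_, hx.2⟩
    rcases mem_union.1 hx.1 with h1 | h1
    · exact absurd hx.2.symm (h x h1 v hv)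
    · exact h1
  refine ⟨fun v hv => ?_, fun T hT hne => ?_⟩
  · rcases mem_union.1 hv with h1 | h1
    · have := card_le_card ((e1 _ subset_rfl v h1).trans (nb_mono inter_subset_right v))
      have := hA.1 v h1
      omega
    · have := card_le_card (e2 v h1)
      have := hB.1 v h1
      omega
  · by_cases hTA : (T ∩ A).Nonempty
    · obtain ⟨t, ht, hlt⟩ := hA.2 (T ∩ A) inter_subset_right hTA
      refine ⟨t, (mem_inter.1 ht).1, ?_⟩
      have := card_le_card (e1 T hT t (mem_inter.1 ht).2)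
      omega
    · refine hB.2 T (fun x hx => ?_) hne
      rcases mem_union.1 (hT hx) with h1 | h1
      · exact absurd ⟨x, mem_inter.2 ⟨hx, h1⟩⟩ hTA
      · exact h1

/-- A set of at most `k` vertices that is not free is a `k`-clique. -/
theorem clq_of_not_free {X : Finset V} (hc : X.card ≤ k) (h : ¬ Free G k X) : Clq G k X := by
  by_contra hq
  apply h
  refine ⟨fun v hv => ?_, fun T hT hne => ?_⟩
  · have := nb_card_lt (G := G) hv; omega
  · by_contra hcon
    push Not at hcon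
    obtain ⟨t, ht⟩ := hne
    have h1 := hcon t ht
    have h2 := nb_card_lt (G := G) ht
    have h3 := card_le_card hT
    have hTX : T = X := eq_of_subset_of_card_le hT (by omega)
    subst hTX
    refine hq ⟨by omega, fun a ha b hb hab => ?_⟩
    have h4 := hcon a ha
    have h5 : nb G T a = T.erase a :=
      eq_of_subset_of_card_le (nb_sub_erase T a) (by rw [card_erase_of_mem ha]; omega)
    have : b ∈ nb G T a := h5 ▸ mem_erase.2 ⟨hab.symm, hb⟩
    exact (mem_nb.1 this).2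

theorem Clq.nb_eq {Q : Finset V} (h : Clq G k Q) {x : V} (hx : x ∈ Q) : nb G Q x = Q.erase x := by
  refine Subset.antisymm (nb_sub_erase Q x) fun y hy => ?_
  rw [mem_erase] at hy
  exact mem_nb.2 ⟨hy.2, h.2 x hx y hy.2 hy.1.symm⟩

theorem Clq.sp {Q : Finset V} (h : Clq G k Q) (hk : 1 ≤ k) : Sp G k Q := by
  refine ⟨card_pos.1 (by rw [h.1]; omega), by rw [h.1]; omega, fun x hx => ?_⟩
  rw [h.nb_eq hx, card_erase_of_mem hx, h.1]; omega

theorem Clq.not_free {Q : Finset V} (h : Clq G k Q) (hk : 1 ≤ k) : ¬ Free G k Q := by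
  intro hf
  obtain ⟨t, ht, hlt⟩ := hf.2 Q subset_rfl (h.sp hk).1
  have := (h.sp hk).2.2 t ht
  omega

theorem Sp.card_ge {C : Finset V} (h : Sp G k C) : k ≤ C.card := by
  obtain ⟨x, hx⟩ := h.1
  have := h.2.2 x hx
  have := nb_card_lt (G := G) hx
  omega

theorem Sp.clq {C : Finset V} (h : Sp G k C) (hc : C.card ≤ k) : Clq G k C := by
  refine clq_of_not_free hc fun hf => ?_
  obtain ⟨t, ht, hlt⟩ := hf.2 C subset_rfl h.1
  have := h.2.2 t ht
  omega

theorem Cl.nb_eq {C U : Finset V} (h : Cl G C U) {x : V} (hx : x ∈ C) : nb G U x = nb G C x := by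
  ext y
  simp only [mem_nb]
  exact ⟨fun hy => ⟨h.2 x hx y hy.1 hy.2, hy.2⟩, fun hy => ⟨h.1 hy.1, hy.2⟩⟩

theorem Cl.trans {A B C : Finset V} (h : Cl G A B) (h' : Cl G B C) : Cl G A C :=
  ⟨h.1.trans h'.1, fun x hx y hy hxy => h.2 x hx y (h'.2 x (h.1 hx) y hy hxy) hxy⟩

theorem Cl.sdiff {C U : Finset V} (h : Cl G C U) : Cl G (U \ C) U := by
  refine ⟨sdiff_subset, fun x hx y hy hxy => mem_sdiff.2 ⟨hy, fun hyC => ?_⟩⟩
  rw [mem_sdiff] at hx
  exact hx.2 (h.2 y hyC x hx.1 hxy.symm)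

theorem Cl.na {C U : Finset V} (h : Cl G C U) : NA G (U \ C) C := by
  intro a ha b hb hab
  rw [mem_sdiff] at ha
  exact ha.2 (h.2 b hb a ha.1 hab.symm)

theorem Cl.restrict {C U U' : Finset V} (h : Cl G C U) (h1 : C ⊆ U') (h2 : U' ⊆ U) :
    Cl G C U' := ⟨h1, fun x hx y hy hxy => h.2 x hx y (h2 hy) hxy⟩

theorem Cl.inter {A B U : Finset V} (hA : Cl G A U) (hB : B ⊆ U) : Cl G (B ∩ A) B :=
  ⟨inter_subset_left, fun x hx y hy hxy =>
    mem_inter.2 ⟨hy, hA.2 x (mem_inter.1 hx).2 y (hB hy) hxy⟩⟩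

/-- A subset whose vertices have all their `U`-neighbours inside is closed. -/
theorem cl_of_card {T U : Finset V} (hT : T ⊆ U)
    (h : ∀ t ∈ T, (nb G U t).card ≤ (nb G T t).card) : Cl G T U := by
  refine ⟨hT, fun x hx y hy hxy => ?_⟩
  have : nb G T x = nb G U x := eq_of_subset_of_card_le (nb_mono hT x) (h x hx)
  have h2 : y ∈ nb G T x := this ▸ mem_nb.2 ⟨hy, hxy⟩
  exact (mem_nb.1 h2).1

/-- In a connected set, a proper subset of low-degree vertices is free. -/
theorem free_low {U X : Finset V} (hU : Conn G U) (hX : X ⊆ U) (hne : X ≠ U)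
    (hd : ∀ x ∈ X, (nb G U x).card < k) : Free G k X := by
  refine ⟨fun v hv => lt_of_le_of_lt (nb_card_mono hX v) (hd v hv), fun T hT hTn => ?_⟩
  by_contra hcon
  push Not at hcon
  have hcl : Cl G T U := cl_of_card (hT.trans hX) fun t ht => by
    have := hcon t ht
    have := hd t (hT ht)
    omega
  have := hU T hcl hTn
  subst this
  exact hne (Subset.antisymm hX hT)

theorem Sp.conn {C : Finset V} (h : Sp G k C) (hk : 1 ≤ k) : Conn G C := by
  intro T hT ⟨t, ht⟩
  by_contra hne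
  obtain ⟨c, hcC, hcT⟩ : ∃ c ∈ C, c ∉ T := by
    by_contra hh
    push Not at hh
    exact hne (Subset.antisymm hT.1 hh)
  have h1 := nb_card_lt (G := G) ht
  rw [← hT.nb_eq ht] at h1
  have hc : c ∈ C \ T := mem_sdiff.2 ⟨hcC, hcT⟩
  have h2 := nb_card_lt (G := G) hc
  rw [← hT.sdiff.nb_eq hc] at h2
  have h3 := h.2.2 t (hT.1 ht)
  have h4 := h.2.2 c hcC
  have h5 := card_sdiff_add_card_eq_card hT.1
  have := h.2.1
  omega

theorem Sp.free_sub {C X : Finset V} (h : Sp G k C) (hk : 1 ≤ k) (hX : X ⊆ C) {w : V}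
    (hw : w ∈ C) (hwX : w ∉ X) : Free G k X :=
  free_low (h.conn hk) hX (fun e => hwX (e ▸ hw)) fun x hx => by
    have := h.2.2 x (hX hx); omega

/-- Two closed special sets that meet are equal. -/
theorem Sp.eq_of_mem {C C' U : Finset V} (h : Sp G k C) (h' : Sp G k C') (hk : 1 ≤ k)
    (hc : Cl G C U) (hc' : Cl G C' U) {x : V} (hx : x ∈ C) (hx' : x ∈ C') : C = C' := by
  have e1 := h.conn hk _ (hc'.inter hc.1) ⟨x, mem_inter.2 ⟨hx, hx'⟩⟩
  have e2 := h'.conn hk _ (hc.inter hc'.1) ⟨x, mem_inter.2 ⟨hx', hx⟩⟩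
  rw [← e1, inter_comm, e2]

/-- A connected set has an edge leaving each proper nonempty subset. -/
theorem Conn.exists_edge {U T : Finset V} (hU : Conn G U) (hT : T ⊆ U) (hne : T.Nonempty)
    {z : V} (hz : z ∈ U) (hzT : z ∉ T) : ∃ x ∈ T, ∃ y ∈ U, y ∉ T ∧ G.Adj x y := by
  by_contra hcon
  push Not at hcon
  have : T = U := hU T ⟨hT, fun x hx y hy hxy => by
    by_contra hyT
    exact hcon x hx y hy hyT hxy⟩ hne
  exact hzT (this ▸ hz)

theorem free_empty (hk : 1 ≤ k) : Free G k (∅ : Finset V) := free_small (by simp; omega)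

/-- Adding one vertex to an isolating set. -/
theorem free_rem_insert {U U' D Y : Finset V} {x : V} (h1 : Free G k (rem G U' D))
    (h2 : Free G k Y) (hna : NA G (rem G U' {x}) Y) (hsub : rem G U {x} ⊆ U' ∪ Y) :
    Free G k (rem G U (insert x D)) := by
  have h3 : Free G k (rem G U' (insert x D)) := h1.mono fun z hz => by
    rw [mem_rem] at hz ⊢
    exact ⟨hz.1, fun d hd => hz.2 d (mem_insert_of_mem hd)⟩
  have h4 : NA G (rem G U' (insert x D)) Y := hna.mono (fun z hz => by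
    rw [mem_rem] at hz ⊢
    exact ⟨hz.1, fun d hd => hz.2 d (by rw [mem_singleton.1 hd]; exact mem_insert_self _ _)⟩)
    subset_rfl
  refine (h3.union h2 h4).mono fun z hz => ?_
  rw [mem_rem] at hz
  have : z ∈ rem G U {x} := mem_rem.2 ⟨hz.1, fun d hd =>
    hz.2 d (by rw [mem_singleton.1 hd]; exact mem_insert_self _ _)⟩
  rcases mem_union.1 (hsub this) with h5 | h5
  · exact mem_union_left _ (mem_rem.2 ⟨h5, hz.2⟩)
  · exact mem_union_right _ h5

/-- Joining isolating sets of two non-adjacent parts. -/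
theorem free_rem_union {U A B D E : Finset V} (h1 : Free G k (rem G A D))
    (h2 : Free G k (rem G B E)) (hna : NA G A B) (hsub : U ⊆ A ∪ B) :
    Free G k (rem G U (D ∪ E)) := by
  refine (h1.union h2 (hna.mono (rem_sub _ _) (rem_sub _ _))).mono fun z hz => ?_
  rw [mem_rem] at hz
  rcases mem_union.1 (hsub hz.1) with h5 | h5
  · exact mem_union_left _ (mem_rem.2 ⟨h5, fun d hd => hz.2 d (mem_union_left _ hd)⟩)
  · exact mem_union_right _ (mem_rem.2 ⟨h5, fun d hd => hz.2 d (mem_union_right _ hd)⟩)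

end Pool.Agent.IsoKer
end

-- merged part: Pool.Agent.Work.MP_1346a1_co.Sys
section
/-! Block systems: isolating sets together with disjoint dominated blocks. -/

namespace Pool.Agent.IsoKer

open Finset
open scoped Classical

variable {V : Type*} (G : SimpleGraph V) (k : ℕ)

/-- An isolating set `D` of `U` with disjoint blocks `B x` inside closed neighbourhoods. -/
structure Sys (U D : Finset V) (B : V → Finset V) : Prop where
  mem : ∀ x ∈ D, x ∈ B x
  sub : ∀ x ∈ D, B x ⊆ U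
  dom : ∀ x ∈ D, ∀ y ∈ B x, y = x ∨ G.Adj x y
  card : ∀ x ∈ D, (B x).card ≤ k + 1
  disj : ∀ x ∈ D, ∀ y ∈ D, x ≠ y → Disjoint (B x) (B y)
  iso : Free G k (rem G U D)
  ineq : 2 * ((k + 1) * D.card) ≤ U.card + ∑ x ∈ D, (B x).card

/-- `U` has a block system. -/
def HasSys (U : Finset V) : Prop := ∃ D B, Sys G k U D B

/-- `U` has no closed special subset. -/
def NoSp (U : Finset V) : Prop := ∀ C, Sp G k C → ¬ Cl G C U

/-- The union of the closed special subsets of `U`. -/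
noncomputable def spU (U : Finset V) : Finset V :=
  U.filter (fun x => ∃ C, Sp G k C ∧ Cl G C U ∧ x ∈ C)

variable {G k}

theorem mem_spU {U : Finset V} {x : V} :
    x ∈ spU G k U ↔ ∃ C, Sp G k C ∧ Cl G C U ∧ x ∈ C := by
  simp only [spU, mem_filter]
  exact ⟨fun h => h.2, fun ⟨C, h1, h2, h3⟩ => ⟨h2.1 h3, C, h1, h2, h3⟩⟩

theorem spU_cl (U : Finset V) : Cl G (spU G k U) U := by
  refine ⟨filter_subset _ _, fun x hx y hy hxy => ?_⟩
  obtain ⟨C, h1, h2, h3⟩ := mem_spU.1 hx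
  exact mem_spU.2 ⟨C, h1, h2, h2.2 x h3 y hy hxy⟩

theorem spU_noSp (U : Finset V) : NoSp G k (U \ spU G k U) := by
  intro C h1 h2
  obtain ⟨x, hx⟩ := h1.1
  exact (mem_sdiff.1 (h2.1 hx)).2 (mem_spU.2 ⟨C, h1, h2.trans (spU_cl U).sdiff, hx⟩)

theorem spU_deg {U : Finset V} {x : V} (hx : x ∈ spU G k U) : (nb G U x).card + 1 = k := by
  obtain ⟨C, h1, h2, h3⟩ := mem_spU.1 hx
  rw [h2.nb_eq h3]; exact h1.2.2 x h3

theorem NoSp.of_cl {U C : Finset V} (h : NoSp G k U) (hC : Cl G C U) : NoSp G k C :=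
  fun C' h1 h2 => h C' h1 (h2.trans hC)

theorem Sys.sum_le {U D : Finset V} {B : V → Finset V} (h : Sys G k U D B) :
    ∑ x ∈ D, (B x).card ≤ U.card := by
  rw [← card_biUnion (fun x hx y hy hxy => h.disj x hx y hy hxy)]
  exact card_le_card (biUnion_subset.2 h.sub)

theorem Sys.bound {U D : Finset V} {B : V → Finset V} (h : Sys G k U D B) :
    (k + 1) * D.card ≤ U.card := by
  have := h.sum_le
  have := h.ineq
  omega

theorem hasSys_of_free {U : Finset V} (h : Free G k U) : HasSys G k U :=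
  ⟨∅, fun _ => ∅, by simp, by simp, by simp, by simp, by simp, h.mono (rem_sub _ _), by simp⟩

theorem HasSys.extend {U U' Bx Y : Finset V} {x : V} (h : HasSys G k U') (hU : U' ⊆ U)
    (hx : x ∈ Bx) (hB : Bx ⊆ U) (hd : Disjoint Bx U') (hdom : ∀ y ∈ Bx, y = x ∨ G.Adj x y)
    (hc : Bx.card ≤ k + 1) (hi : 2 * (k + 1) + U'.card ≤ U.card + Bx.card)
    (h2 : Free G k Y) (hna : NA G (rem G U' {x}) Y) (hsub : rem G U {x} ⊆ U' ∪ Y) :
    HasSys G k U := by
  obtain ⟨D, B, h⟩ := h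
  have hxD : x ∉ D := fun hxD => disjoint_left.1 hd hx (h.sub x hxD (h.mem x hxD))
  have hup : ∀ y ∈ D, Function.update B x Bx y = B y := fun y hy =>
    Function.update_of_ne (fun e : y = x => hxD (e ▸ hy)) _ _
  refine ⟨insert x D, Function.update B x Bx, ?_, ?_, ?_, ?_, ?_,
    free_rem_insert h.iso h2 hna hsub, ?_⟩
  · intro y hy
    rcases mem_insert.1 hy with rfl | hy
    · simpa using hx
    · rw [hup y hy]; exact h.mem y hy
  · intro y hy
    rcases mem_insert.1 hy with rfl | hy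
    · simpa using hB
    · rw [hup y hy]; exact (h.sub y hy).trans hU
  · intro y hy
    rcases mem_insert.1 hy with rfl | hy
    · simpa using hdom
    · rw [hup y hy]; exact h.dom y hy
  · intro y hy
    rcases mem_insert.1 hy with rfl | hy
    · simpa using hc
    · rw [hup y hy]; exact h.card y hy
  · intro y hy z hz hyz
    rcases mem_insert.1 hy with e1 | hy' <;> rcases mem_insert.1 hz with e2 | hz'
    · exact absurd (e1.trans e2.symm) hyz
    · rw [hup z hz', e1, Function.update_self]; exact hd.mono_right (h.sub z hz')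
    · rw [hup y hy', e2, Function.update_self]; exact (hd.mono_right (h.sub y hy')).symm
    · rw [hup y hy', hup z hz']; exact h.disj y hy' z hz' hyz
  · rw [sum_insert hxD, card_insert_of_notMem hxD, Function.update_self,
      sum_congr rfl fun y hy => by rw [hup y hy]]
    have := h.ineq
    nlinarith only [hi, this]

theorem HasSys.extend_block {U Bx : Finset V} {x : V} (hk : 1 ≤ k) (h : HasSys G k (U \ Bx))
    (hx : x ∈ Bx) (hB : Bx ⊆ U) (hdom : ∀ y ∈ Bx, y = x ∨ G.Adj x y)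
    (hc : Bx.card = k + 1) : HasSys G k U := by
  refine h.extend sdiff_subset hx hB disjoint_sdiff hdom hc.le ?_ (free_empty hk)
    (fun _ _ _ hb => absurd hb (notMem_empty _)) fun z hz => ?_
  · have := card_sdiff_add_card_eq_card hB
    omega
  · rw [mem_rem] at hz
    refine mem_union_left _ (mem_sdiff.2 ⟨hz.1, fun hzB => ?_⟩)
    have := hz.2 x (mem_singleton_self x)
    rcases hdom z hzB with h1 | h1
    exacts [this.1 h1, this.2 h1]

theorem hasSys_single {U Bx : Finset V} {x : V} (hk : 1 ≤ k)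
    (hx : x ∈ Bx) (hB : Bx ⊆ U) (hdom : ∀ y ∈ Bx, y = x ∨ G.Adj x y)
    (hc : Bx.card ≤ k + 1) (hi : 2 * (k + 1) ≤ U.card + Bx.card)
    (h2 : Free G k (rem G U {x})) : HasSys G k U :=
  (hasSys_of_free (free_empty hk)).extend (empty_subset _) hx hB (disjoint_empty_right _) hdom hc
    (by simpa using hi) h2 (fun _ ha => absurd (rem_sub _ _ ha) (notMem_empty _))
    subset_union_right

theorem HasSys.union {U C : Finset V} (hC : Cl G C U) (h1 : HasSys G k C)
    (h2 : HasSys G k (U \ C)) : HasSys G k U := by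
  obtain ⟨D, B, h⟩ := h1
  obtain ⟨E, B', h'⟩ := h2
  have hD : ∀ x ∈ D, x ∈ C := fun x hx => h.sub x hx (h.mem x hx)
  have hE : ∀ x ∈ E, x ∉ C := fun x hx => (mem_sdiff.1 (h'.sub x hx (h'.mem x hx))).2
  have hDE : Disjoint D E := disjoint_left.2 fun x hx hx' => hE x hx' (hD x hx)
  refine ⟨D ∪ E, fun x => if x ∈ C then B x else B' x, ?_, ?_, ?_, ?_, ?_,
    free_rem_union h.iso h'.iso hC.na.symm (fun z hz => by
      by_cases hzC : z ∈ C
      · exact mem_union_left _ hzC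
      · exact mem_union_right _ (mem_sdiff.2 ⟨hz, hzC⟩)), ?_⟩
  · intro x hx
    rcases mem_union.1 hx with hx | hx
    · simp only [hD x hx, if_true]; exact h.mem x hx
    · simp only [hE x hx, if_false]; exact h'.mem x hx
  · intro x hx
    rcases mem_union.1 hx with hx | hx
    · simp only [hD x hx, if_true]; exact (h.sub x hx).trans hC.1
    · simp only [hE x hx, if_false]; exact (h'.sub x hx).trans sdiff_subset
  · intro x hx
    rcases mem_union.1 hx with hx | hx
    · simp only [hD x hx, if_true]; exact h.dom x hx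
    · simp only [hE x hx, if_false]; exact h'.dom x hx
  · intro x hx
    rcases mem_union.1 hx with hx | hx
    · simp only [hD x hx, if_true]; exact h.card x hx
    · simp only [hE x hx, if_false]; exact h'.card x hx
  · intro x hx y hy hxy
    rcases mem_union.1 hx with hx | hx <;> rcases mem_union.1 hy with hy | hy
    · simp only [hD x hx, hD y hy, if_true]; exact h.disj x hx y hy hxy
    · simp only [hD x hx, hE y hy, if_true, if_false]
      exact disjoint_sdiff.mono (h.sub x hx) (h'.sub y hy)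
    · simp only [hE x hx, hD y hy, if_true, if_false]
      exact (disjoint_sdiff.mono (h.sub y hy) (h'.sub x hx)).symm
    · simp only [hE x hx, hE y hy, if_false]; exact h'.disj x hx y hy hxy
  · rw [sum_union hDE, card_union_of_disjoint hDE,
      sum_congr rfl fun y hy => by rw [if_pos (hD y hy)],
      sum_congr (s₁ := E) rfl fun y hy => by rw [if_neg (hE y hy)]]
    have := h.ineq
    have := h'.ineq
    have := card_sdiff_add_card_eq_card hC.1
    nlinarith

/-- The block made of a link `y` and the closed neighbourhood of `w` in `C`. -/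
noncomputable def blk (G : SimpleGraph V) (C : Finset V) (w y : V) : Finset V :=
  insert y (insert w (nb G C w))

theorem mem_blk {C : Finset V} {w y z : V} :
    z ∈ blk G C w y ↔ z = y ∨ z = w ∨ (z ∈ C ∧ G.Adj w z) := by
  simp [blk]

theorem blk_card {C : Finset V} {w y : V} (h : Sp G k C) (hw : w ∈ C) (hy : y ∉ C) :
    (blk G C w y).card = k + 1 := by
  have := h.2.2 w hw
  rw [blk, card_insert_of_notMem, card_insert_of_notMem (not_mem_nb_self _ _), this]
  intro hh
  rcases mem_insert.1 hh with rfl | hh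
  exacts [hy hw, hy (mem_nb.1 hh).1]

theorem blk_dom {C : Finset V} {w y : V} (hwy : G.Adj w y) :
    ∀ z ∈ blk G C w y, z = w ∨ G.Adj w z := by
  intro z hz
  rcases mem_blk.1 hz with rfl | rfl | hz
  exacts [Or.inr hwy, Or.inl rfl, Or.inr hz.2]

theorem step_low {U : Finset V} (hk : 1 ≤ k) (hU : Conn G U) (hsp : ¬ Sp G k U)
    (hd : ∀ x ∈ U, (nb G U x).card < k) : HasSys G k U := by
  by_cases hf : Free G k U
  · exact hasSys_of_free hf
  have : ∃ T ⊆ U, T.Nonempty ∧ ∀ t ∈ T, k ≤ (nb G T t).card + 1 := by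
    by_contra hcon
    push Not at hcon
    exact hf ⟨hd, hcon⟩
  obtain ⟨T, hT, hne, hT'⟩ := this
  have hcl : Cl G T U := cl_of_card hT fun t ht => by
    have := hT' t ht
    have := hd t (hT ht)
    omega
  have := hU T hcl hne
  subst this
  have hreg : ∀ x ∈ T, (nb G T x).card + 1 = k := fun x hx => by
    have := hT' x hx
    have := hd x hx
    omega
  have hbig : k + 2 ≤ T.card := by
    by_contra hcon
    refine hsp ⟨hne, ?_, hreg⟩
    by_cases h1 : k = 1
    · obtain ⟨v, hv⟩ := hne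
      have h2 := hU {v} ⟨singleton_subset_iff.2 hv, fun x hx y hy hxy => ?_⟩ (singleton_nonempty v)
      · rw [← h2, card_singleton]; omega
      · have h3 := hreg x (mem_singleton.1 hx ▸ hv)
        have := card_pos.2 ⟨y, mem_nb.2 ⟨hy, hxy⟩⟩
        omega
    · omega
  obtain ⟨v, hv⟩ := hne
  have hc : (insert v (nb G T v)).card = k := by
    rw [card_insert_of_notMem (not_mem_nb_self _ _)]; exact hreg v hv
  refine hasSys_single hk (mem_insert_self v (nb G T v)) (insert_subset hv (nb_sub _ _))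
    (fun y hy => ?_) (by omega) (by omega) (free_low hU (rem_sub _ _) (fun e => ?_)
      fun x hx => hd x (rem_sub _ _ hx))
  · rcases mem_insert.1 hy with h1 | h1
    exacts [Or.inl h1, Or.inr (mem_nb.1 h1).2]
  · have : v ∈ rem G T {v} := e.symm ▸ hv
    simp at this

theorem step_pendant {U C : Finset V} {y : V} (hk : 1 ≤ k) (hU : Conn G U) (hy : y ∈ U)
    (hC : Sp G k C) (hcl : Cl G C (U.erase y))
    (h' : HasSys G k (U.erase y \ spU G k (U.erase y))) : HasSys G k U := by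
  set Z := spU G k (U.erase y) with hZ
  have hZcl : Cl G Z (U.erase y) := spU_cl _
  have hCZ : C ⊆ Z := fun x hx => mem_spU.2 ⟨C, hC, hcl, hx⟩
  have hcard := card_sdiff_add_card_eq_card hZcl.1
  rw [card_erase_of_mem hy] at hcard
  have hpos := card_pos.2 ⟨y, hy⟩
  have hsubU : U.erase y \ Z ⊆ U := sdiff_subset.trans (erase_subset _ _)
  have hyC : y ∉ C := fun h => by simpa using hcl.1 h
  have hCU : C ⊆ U := hcl.1.trans (erase_subset _ _)
  by_cases hZC : Z = C
  · obtain ⟨w, hw, z, hz, hzC, hwz⟩ := hU.exists_edge hCU hC.1 hy hyC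
    have hzy : z = y := by
      by_contra hne
      exact hzC (hcl.2 w hw z (mem_erase.2 ⟨hne, hz⟩) hwz)
    subst hzy
    have hkC := hC.card_ge
    refine h'.extend (Y := rem G C {w}) (Bx := blk G C w z) (x := w) hsubU
      (mem_blk.2 (Or.inr (Or.inl rfl))) ?_ ?_ (blk_dom hwz) (blk_card hC hw hyC).le ?_
      (hC.free_sub hk (rem_sub _ _) hw (by simp)) ?_ ?_
    · intro a ha
      rcases mem_blk.1 ha with rfl | rfl | ha
      exacts [hz, hCU hw, hCU ha.1]
    · refine disjoint_left.2 fun a ha ha' => ?_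
      rw [hZC, mem_sdiff, mem_erase] at ha'
      rcases mem_blk.1 ha with rfl | rfl | ha
      exacts [ha'.1.1 rfl, ha'.2 hw, ha'.2 ha.1]
    · rw [blk_card hC hw hyC]
      rw [hZC] at hcard ⊢
      omega
    · rw [hZC]; exact hcl.na.mono (rem_sub _ _) (rem_sub _ _)
    · intro a ha
      by_cases haC : a ∈ C
      · exact mem_union_right _ (mem_rem.2 ⟨haC, (mem_rem.1 ha).2⟩)
      · refine mem_union_left _ (mem_sdiff.2 ⟨mem_erase.2 ⟨?_, rem_sub _ _ ha⟩, hZC ▸ haC⟩)
        rintro rfl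
        exact ((mem_rem.1 ha).2 w (mem_singleton_self _)).2 hwz
  · obtain ⟨x, hxZ, hxC⟩ : ∃ x ∈ Z, x ∉ C := by
      by_contra hcon
      push Not at hcon
      exact hZC (Subset.antisymm hcon hCZ)
    obtain ⟨C', hC', hcl', hx'⟩ := mem_spU.1 hxZ
    have hdisj : Disjoint C C' := disjoint_left.2 fun a ha ha' =>
      hxC ((hC.eq_of_mem hC' hk hcl hcl' ha ha').symm ▸ hx')
    have hC'Z : C' ⊆ Z := fun x hx => mem_spU.2 ⟨C', hC', hcl', hx⟩
    have h2k : 2 * k ≤ Z.card := by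
      have := card_le_card (union_subset hCZ hC'Z)
      rw [card_union_of_disjoint hdisj] at this
      have := hC.card_ge
      have := hC'.card_ge
      omega
    refine h'.extend (Y := rem G Z {y}) (Bx := {y}) (x := y) hsubU (mem_singleton_self _)
      (singleton_subset_iff.2 hy) (by simp) (by simp) (by simp) (by simp; omega)
      (free_low hU ((rem_sub _ _).trans (hZcl.1.trans (erase_subset _ _))) (fun e => ?_)
        fun a ha => ?_) (hZcl.na.mono (rem_sub _ _) (rem_sub _ _)) fun a ha => ?_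
    · have : y ∈ rem G Z {y} := e.symm ▸ hy
      simp at this
    · have h1 := spU_deg (rem_sub _ _ ha)
      have h2 : nb G U a ⊆ nb G (U.erase y) a := fun b hb => by
        rw [mem_nb] at hb ⊢
        refine ⟨mem_erase.2 ⟨?_, hb.1⟩, hb.2⟩
        rintro rfl
        exact ((mem_rem.1 ha).2 b (mem_singleton_self _)).2 hb.2.symm
      have := card_le_card h2
      omega
    · by_cases haZ : a ∈ Z
      · exact mem_union_right _ (mem_rem.2 ⟨haZ, (mem_rem.1 ha).2⟩)
      · exact mem_union_left _ (mem_sdiff.2 ⟨mem_erase.2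
          ⟨((mem_rem.1 ha).2 y (mem_singleton_self _)).1, rem_sub _ _ ha⟩, haZ⟩)

end Pool.Agent.IsoKer
end

-- merged part: Pool.Agent.Work.MP_1346a1_co.Block
section
/-! The block lemma: a set without closed special subsets has a block system. -/

namespace Pool.Agent.IsoKer

open Finset
open scoped Classical

variable {V : Type*} {G : SimpleGraph V} {k : ℕ}

/-- The situation of the last induction step. -/
structure Top (G : SimpleGraph V) (k : ℕ) (U C : Finset V) (v : V) : Prop where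
  hk : 3 ≤ k
  conn : Conn G U
  pend : ∀ y ∈ U, NoSp G k (U.erase y)
  hv : v ∈ U
  max : ∀ x ∈ U, (nb G U x).card ≤ (nb G U v).card
  big : k ≤ (nb G U v).card
  sp : Sp G k C
  cl : Cl G C (rem G U {v})

namespace Top

variable {U C : Finset V} {v : V}

theorem sub (h : Top G k U C v) : C ⊆ U := h.cl.1.trans (rem_sub _ _)

theorem ne_v (h : Top G k U C v) {x : V} (hx : x ∈ C) : x ≠ v :=
  ((mem_rem.1 (h.cl.1 hx)).2 v (mem_singleton_self _)).1

theorem nadj (h : Top G k U C v) {x : V} (hx : x ∈ C) : ¬ G.Adj v x :=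
  ((mem_rem.1 (h.cl.1 hx)).2 v (mem_singleton_self _)).2

theorem out (h : Top G k U C v) {x z : V} (hx : x ∈ C) (hz : z ∈ U) (hzC : z ∉ C)
    (hxz : G.Adj x z) : G.Adj v z := by
  by_contra hcon
  refine hzC (h.cl.2 x hx z (mem_rem.2 ⟨hz, fun d hd => ?_⟩) hxz)
  rw [mem_singleton.1 hd]
  refine ⟨?_, hcon⟩
  rintro rfl
  exact h.nadj hx hxz.symm

theorem two_links (h : Top G k U C v) : ∃ y y' w w', y ≠ y' ∧ w ∈ C ∧ w' ∈ C ∧ y ∈ U ∧ y' ∈ U ∧
    y ∉ C ∧ y' ∉ C ∧ G.Adj w y ∧ G.Adj w' y' := by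
  obtain ⟨w, hw, y, hy, hyC, hwy⟩ :=
    h.conn.exists_edge h.sub h.sp.1 h.hv (fun hh => h.ne_v hh rfl)
  by_contra hcon
  refine h.pend y hy C h.sp ⟨fun x hx => mem_erase.2 ⟨fun e => hyC (e ▸ hx), h.sub hx⟩,
    fun x hx z hz hxz => ?_⟩
  by_contra hzC
  rw [mem_erase] at hz
  exact hcon ⟨y, z, w, x, hz.1.symm, hw, hx, hy, hz.2, hyC, hzC, hwy, hxz⟩

theorem two_out (h : Top G k U C v) {w y z z' : V} (hw : w ∈ C) (hz : z ∈ C) (hz' : z' ∈ C)
    (h1 : z ∉ blk G C w y) (h2 : z' ∉ blk G C w y) : z = z' := by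
  by_contra hne
  rw [mem_blk] at h1 h2
  push Not at h1 h2
  have hs : insert z (insert z' (insert w (nb G C w))) ⊆ C :=
    insert_subset hz (insert_subset hz' (insert_subset hw (nb_sub _ _)))
  have := card_le_card hs
  rw [card_insert_of_notMem (by simp [hne, h1.2.1, h1.2.2 hz]),
    card_insert_of_notMem (by simp [h2.2.1, h2.2.2 hz']),
    card_insert_of_notMem (not_mem_nb_self _ _)] at this
  have := h.sp.2.2 w hw
  have := h.sp.2.1
  omega

end Top

/-- A link `y` at `w` whose block leaves a closed special set `C'`. -/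
structure Fail (G : SimpleGraph V) (k : ℕ) (U C : Finset V) (w y : V) (C' : Finset V) : Prop where
  hw : w ∈ C
  hy : y ∈ U
  hyC : y ∉ C
  adj : G.Adj w y
  sp : Sp G k C'
  cl : Cl G C' (U \ blk G C w y)

namespace Fail

variable {U C C' : Finset V} {v w y : V}

theorem sub (f : Fail G k U C w y C') : C' ⊆ U := f.cl.1.trans sdiff_subset

theorem nblk (f : Fail G k U C w y C') {x : V} (hx : x ∈ C') : x ∉ blk G C w y :=
  (mem_sdiff.1 (f.cl.1 hx)).2

theorem y_not (f : Fail G k U C w y C') : y ∉ C' :=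
  fun hh => f.nblk hh (mem_blk.2 (Or.inl rfl))

theorem closed (f : Fail G k U C w y C') {x z : V} (hx : x ∈ C') (hz : z ∈ U) (hzC : z ∉ C)
    (hzy : z ≠ y) (hxz : G.Adj x z) : z ∈ C' := by
  refine f.cl.2 x hx z (mem_sdiff.2 ⟨hz, fun hb => ?_⟩) hxz
  rcases mem_blk.1 hb with h1 | h1 | h1
  exacts [hzy h1, hzC (h1 ▸ f.hw), hzC h1.1]

theorem v_mem (h : Top G k U C v) (f : Fail G k U C w y C') : v ∈ C' := by
  by_contra hv
  have hvy : G.Adj v y := h.out f.hw f.hy f.hyC f.adj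
  have hrem : C' ⊆ rem G U {v} := fun z hz => mem_rem.2 ⟨f.sub hz, fun d hd => by
    rw [mem_singleton.1 hd]
    exact ⟨fun e => hv (e ▸ hz), fun hvz =>
      hv (f.closed hz h.hv (fun hh => h.ne_v hh rfl) hvy.ne hvz.symm)⟩⟩
  have hdisj : ∀ z ∈ C', z ∉ C := by
    intro z hz hzC
    have h1 := f.sp.2.2 z hz
    have := h.hk
    obtain ⟨z', hz'⟩ : (nb G C' z).Nonempty := card_pos.1 (by omega)
    rw [mem_nb] at hz'
    have hz'C : z' ∈ C := h.cl.2 z hzC z' (hrem hz'.1) hz'.2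
    exact hz'.2.ne (h.two_out f.hw hzC hz'C (f.nblk hz) (f.nblk hz'.1))
  refine h.pend y f.hy C' f.sp ⟨fun x hx => mem_erase.2 ⟨fun e => f.y_not (e ▸ hx), f.sub hx⟩,
    fun x hx z hz hxz => ?_⟩
  rw [mem_erase] at hz
  exact f.closed hx hz.2 (fun hzC => hdisj x hx (h.cl.2 z hzC x (hrem hx) hxz.symm)) hz.1 hxz

theorem nb_v (h : Top G k U C v) (f : Fail G k U C w y C') {z : V} (hz : z ∈ U)
    (hvz : G.Adj v z) (hzy : z ≠ y) : z ∈ C' :=
  f.closed (f.v_mem h) hz (fun hh => h.nadj hh hvz) hzy hvz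

theorem deg (h : Top G k U C v) (f : Fail G k U C w y C') {x : V} (hx : x ∈ U) :
    (nb G U x).card ≤ k := by
  have hs : nb G U v ⊆ insert y (nb G C' v) := fun z hz => by
    rw [mem_nb] at hz
    by_cases hzy : z = y
    · exact mem_insert.2 (Or.inl hzy)
    · exact mem_insert_of_mem (mem_nb.2 ⟨f.nb_v h hz.1 hz.2 hzy, hz.2⟩)
  have h1 := card_le_card hs
  have h2 := card_insert_le y (nb G C' v)
  have h3 := f.sp.2.2 v (f.v_mem h)
  have := h.max x hx
  omega

theorem disj (h : Top G k U C v) (f : Fail G k U C w y C') {z : V} (hz : z ∈ C') : z ∉ C := by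
  intro hzC
  have hd : Disjoint (nb G C z) (nb G C' z) := disjoint_left.2 fun a ha ha' => by
    rw [mem_nb] at ha ha'
    exact ha.2.ne (h.two_out f.hw hzC ha.1 (f.nblk hz) (f.nblk ha'.1))
  have h1 := card_le_card (union_subset (nb_mono (G := G) h.sub z) (nb_mono f.sub z))
  rw [card_union_of_disjoint hd] at h1
  have := f.deg h (h.sub hzC)
  have := h.sp.2.2 z hzC
  have := f.sp.2.2 z hz
  have := h.hk
  omega

theorem one_out (h : Top G k U C v) (f : Fail G k U C w y C') {x : V} (hx : x ∈ C') :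
    (nb G U x \ C').card ≤ 1 := by
  have h1 : nb G U x \ C' = nb G U x \ nb G C' x := by
    ext a
    simp only [mem_sdiff, mem_nb]
    tauto
  have h2 := card_sdiff_add_card_eq_card (nb_mono (G := G) f.sub x)
  have := f.deg h (f.sub hx)
  have := f.sp.2.2 x hx
  rw [h1]
  omega

theorem link_nadj (h : Top G k U C v) (f : Fail G k U C w y C') {y' w' : V} (hw' : w' ∈ C)
    (hy' : y' ∈ U) (hy'C : y' ∉ C) (hadj : G.Adj w' y') (hne : y' ≠ y) : ¬ G.Adj y' y := by
  intro hyy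
  have hm : y' ∈ C' := f.nb_v h hy' (h.out hw' hy' hy'C hadj) hne
  have := card_le_one.1 (f.one_out h hm) y
    (mem_sdiff.2 ⟨mem_nb.2 ⟨f.hy, hyy⟩, f.y_not⟩) w'
    (mem_sdiff.2 ⟨mem_nb.2 ⟨h.sub hw', hadj.symm⟩, fun hh => f.disj h hh hw'⟩)
  exact f.hyC (this ▸ hw')

theorem cover (h : Top G k U C v) (f : Fail G k U C w y C') {y' w' : V} {C'' : Finset V}
    (f' : Fail G k U C w' y' C'') (hne : y ≠ y') {z : V} (hz : z ∈ U) (hzC : z ∉ C)
    (hzy : z ≠ y) : z ∈ C' := by
  by_contra hzC'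
  have hvy : G.Adj v y := h.out f.hw f.hy f.hyC f.adj
  have hvy' : G.Adj v y' := h.out f'.hw f'.hy f'.hyC f'.adj
  obtain ⟨x, hx, a, ha, haP, hxa⟩ := h.conn.exists_edge
    (T := U.filter fun x => x ∉ C ∧ x ≠ y ∧ x ∉ C') (filter_subset _ _)
    ⟨z, mem_filter.2 ⟨hz, hzC, hzy, hzC'⟩⟩ h.hv (fun hh => (mem_filter.1 hh).2.2.2 (f.v_mem h))
  obtain ⟨hxU, hxC, hxy, hxC'⟩ := mem_filter.1 hx
  have hxv : ¬ G.Adj v x := fun hh => hxC' (f.nb_v h hxU hh hxy)
  have hay : a = y := by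
    by_contra hay
    by_cases haC : a ∈ C
    · exact hxv (h.out haC hxU hxC hxa.symm)
    · by_cases haC' : a ∈ C'
      · exact hxC' (f.closed haC' hxU hxC hxy hxa.symm)
      · exact haP (mem_filter.2 ⟨ha, haC, hay, haC'⟩)
  subst hay
  have hy'C' : y' ∈ C' := f.nb_v h f'.hy hvy' hne.symm
  have hxC'' : x ∈ C'' := f'.closed (f'.nb_v h ha hvy hne) hxU hxC
    (fun e => hxC' (e ▸ hy'C')) hxa.symm
  have hxnv : x ≠ v := fun e => hxC' (e ▸ f.v_mem h)
  have hs : insert x (insert v ((nb G U v).erase y')) ⊆ C'' :=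
    insert_subset hxC'' (insert_subset (f'.v_mem h) fun b hb => by
      rw [mem_erase, mem_nb] at hb
      exact f'.nb_v h hb.2.1 hb.2.2 hb.1)
  have hc : (insert x (insert v ((nb G U v).erase y'))).card = (nb G U v).card + 1 := by
    rw [card_insert_of_notMem (by simp [hxnv, hxv]), card_insert_of_notMem (by simp),
      card_erase_of_mem (mem_nb.2 ⟨f'.hy, hvy'⟩)]
    have := h.big
    have := h.hk
    omega
  have he : insert x (insert v ((nb G U v).erase y')) = C'' :=
    eq_of_subset_of_card_le hs (by rw [hc]; have := h.big; have := f'.sp.2.1; omega)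
  have h2 : 1 < (nb G C'' x).card := by
    have := f'.sp.2.2 x hxC''
    have := h.hk
    omega
  obtain ⟨b, hb, hba⟩ := exists_mem_ne h2 a
  rw [mem_nb] at hb
  have hb1 := hb.1
  rw [← he, mem_insert, mem_insert, mem_erase, mem_nb] at hb1
  rcases hb1 with h3 | h3 | h3
  · exact hb.2.ne h3.symm
  · exact hxv (h3 ▸ hb.2.symm)
  · exact hxC' (f.closed (f.nb_v h h3.2.1 h3.2.2 hba) hxU hxC hxy hb.2.symm)

end Fail

theorem Top.free_link {U C : Finset V} {v : V} (h : Top G k U C v)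
    (hall : ∀ w y, w ∈ C → y ∈ U → y ∉ C → G.Adj w y → ∃ C', Fail G k U C w y C')
    {w y w' y' : V} {C' C'' : Finset V} (f : Fail G k U C w y C') (f' : Fail G k U C w' y' C'')
    (hne : y ≠ y') : Free G k (rem G U {y}) := by
  have hk := h.hk
  have hvy : G.Adj v y := h.out f.hw f.hy f.hyC f.adj
  have hvy' : G.Adj v y' := h.out f'.hw f'.hy f'.hyC f'.adj
  have hX : ∀ x ∈ rem G U {y}, x ∈ U ∧ x ≠ y ∧ ¬ G.Adj y x := fun x hx =>
    ⟨(mem_rem.1 hx).1, (mem_rem.1 hx).2 y (mem_singleton_self _)⟩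
  have hyC'' : y ∈ C'' := f'.nb_v h f.hy hvy hne
  have hEC' : ∀ e ∈ rem G U {y}, e ∉ C → e ∈ C' := fun e he heC =>
    f.cover h f' hne (hX e he).1 heC (hX e he).2.1
  have hEv : ∀ e ∈ rem G U {y}, e ∉ C → G.Adj v e := by
    intro e he heC
    by_cases hey : e = y'
    · exact hey ▸ hvy'
    have heC'' : e ∈ C'' := f'.cover h f hne.symm (hX e he).1 heC hey
    by_contra hve
    have hev : e ≠ v := fun e1 => (hX e he).2.2 (e1 ▸ hvy.symm)
    have hs : nb G C'' e ⊆ ((C''.erase e).erase v).erase y := fun a ha => by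
      rw [mem_nb] at ha
      simp only [mem_erase]
      exact ⟨fun e1 => (hX e he).2.2 (e1 ▸ ha.2.symm), fun e1 => hve (e1 ▸ ha.2.symm),
        ha.2.ne.symm, ha.1⟩
    have h1 := card_le_card hs
    rw [card_erase_of_mem (by simp [hvy.ne.symm, (hX e he).2.1.symm, hyC'']),
      card_erase_of_mem (by simp [hev.symm, f'.v_mem h]), card_erase_of_mem heC''] at h1
    have := f'.sp.2.2 e heC''
    have := f'.sp.2.1
    omega
  have hEcard : (rem G U {y} \ C).card ≤ 2 := by
    have hs : rem G U {y} \ C ⊆ insert y' (C'' \ insert y (nb G C'' y)) := fun e he => by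
      rw [mem_sdiff] at he
      by_cases hey : e = y'
      · exact mem_insert.2 (Or.inl hey)
      · refine mem_insert_of_mem (mem_sdiff.2
          ⟨f'.cover h f hne.symm (hX e he.1).1 he.2 hey, ?_⟩)
        simp [(hX e he.1).2.1, (hX e he.1).2.2]
    have h1 := card_le_card hs
    have h2 := card_insert_le y' (C'' \ insert y (nb G C'' y))
    have h3 := card_sdiff_add_card_eq_card (insert_subset hyC'' (nb_sub (G := G) C'' y))
    rw [card_insert_of_notMem (not_mem_nb_self _ _)] at h3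
    have := f'.sp.2.2 y hyC''
    have := f'.sp.2.1
    omega
  have herase : ∀ t a, t ∈ U → a ∈ U → G.Adj t a → G.Adj y a →
      (nb G (rem G U {y}) t).card < k := by
    intro t a ht ha hta hya
    have hs : nb G (rem G U {y}) t ⊆ (nb G U t).erase a := fun b hb => by
      rw [mem_nb] at hb
      exact mem_erase.2 ⟨fun e1 => (hX b hb.1).2.2 (e1 ▸ hya), mem_nb.2 ⟨(hX b hb.1).1, hb.2⟩⟩
    have h1 := card_le_card hs
    rw [card_erase_of_mem (mem_nb.2 ⟨ha, hta⟩)] at h1
    have := f.deg h ht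
    omega
  refine ⟨fun t ht => ?_, fun T hT hTn => ?_⟩
  · by_cases htC : t ∈ C
    · by_cases htw : G.Adj t w
      · exact herase t w (hX t ht).1 (h.sub f.hw) htw f.adj.symm
      · have hs : nb G (rem G U {y}) t ⊆ nb G C t := fun a ha => by
          rw [mem_nb] at ha ⊢
          refine ⟨?_, ha.2⟩
          by_contra haC
          refine f.disj h (f.cl.2 a (hEC' a ha.1 haC) t (mem_sdiff.2 ⟨(hX t ht).1, fun hb => ?_⟩)
            ha.2.symm) htC
          rcases mem_blk.1 hb with h1 | h1 | h1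
          exacts [(hX t ht).2.1 h1, (hX t ht).2.2 (h1 ▸ f.adj.symm), htw h1.2.symm]
        have := card_le_card hs
        have := h.sp.2.2 t htC
        omega
    · exact herase t v (hX t ht).1 h.hv (hEv t ht htC).symm hvy.symm
  · by_contra hcon
    push Not at hcon
    have key : ∀ e ∈ T, e ∉ C → (∃ e' ∈ T, e' ∉ C ∧ G.Adj e e') ∧ ∃ c ∈ C, G.Adj e c := by
      intro e he heC
      have hd := hcon e he
      constructor
      · by_contra hno
        push Not at hno
        have hs : nb G T e ⊆ nb G U e \ C' := fun a ha => by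
          rw [mem_nb] at ha
          refine mem_sdiff.2 ⟨mem_nb.2 ⟨(hX a (hT ha.1)).1, ha.2⟩, fun haC' => ?_⟩
          exact hno a ha.1 (f.disj h haC') ha.2
        have := card_le_card hs
        have := f.one_out h (hEC' e (hT he) heC)
        omega
      · by_contra hno
        push Not at hno
        have hs : nb G T e ⊆ (rem G U {y} \ C).erase e := fun a ha => by
          rw [mem_nb] at ha
          exact mem_erase.2 ⟨ha.2.ne.symm, mem_sdiff.2 ⟨hT ha.1, fun haC => hno a haC ha.2⟩⟩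
        have h1 := card_le_card hs
        rw [card_erase_of_mem (mem_sdiff.2 ⟨hT he, heC⟩)] at h1
        omega
    by_cases hTC : T ⊆ C
    · obtain ⟨t, ht, hlt⟩ := (h.sp.free_sub (by omega) hTC f.hw
        (fun hh => (hX w (hT hh)).2.2 f.adj.symm)).2 T subset_rfl hTn
      have := hcon t ht
      omega
    · obtain ⟨e, he, heC⟩ := not_subset.1 hTC
      obtain ⟨⟨e', he', he'C, hee'⟩, c, hc, hec⟩ := key e he heC
      obtain ⟨-, c', hc', hec'⟩ := key e' he' he'C
      obtain ⟨C3, f3⟩ := hall c' e' hc' (hX e' (hT he')).1 he'C hec'.symm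
      exact f3.link_nadj h hc (hX e (hT he)).1 heC hec.symm hee'.ne hee'

theorem Top.hasSys {U C : Finset V} {v : V} (h : Top G k U C v)
    (IH : ∀ U', U'.card < U.card → NoSp G k U' → HasSys G k U') : HasSys G k U := by
  have hk := h.hk
  by_cases hall : ∀ w y, w ∈ C → y ∈ U → y ∉ C → G.Adj w y → ∃ C', Fail G k U C w y C'
  · obtain ⟨y, y', w, w', hne, hw, hw', hy, hy', hyC, hy'C, hwy, hwy'⟩ := h.two_links
    obtain ⟨C', f⟩ := hall w y hw hy hyC hwy
    obtain ⟨C'', f'⟩ := hall w' y' hw' hy' hy'C hwy'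
    refine hasSys_single (Bx := {y}) (by omega) (mem_singleton_self y)
      (singleton_subset_iff.2 hy) (by simp) (by simp) ?_ (h.free_link hall f f' hne)
    have hd : Disjoint C (insert v (nb G U v)) := disjoint_left.2 fun a ha ha' => by
      rcases mem_insert.1 ha' with h1 | h1
      exacts [h.ne_v ha h1, h.nadj ha (mem_nb.1 h1).2]
    have h1 := card_le_card (union_subset h.sub (insert_subset h.hv (nb_sub (G := G) U v)))
    rw [card_union_of_disjoint hd, card_insert_of_notMem (not_mem_nb_self _ _)] at h1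
    have := h.big
    have := h.sp.card_ge
    simp only [card_singleton]
    omega
  · push Not at hall
    obtain ⟨w, y, hw, hy, hyC, hwy, hno⟩ := hall
    have hB : blk G C w y ⊆ U := fun a ha => by
      rcases mem_blk.1 ha with rfl | rfl | ha
      exacts [hy, h.sub hw, h.sub ha.1]
    have hc := blk_card h.sp hw hyC
    refine HasSys.extend_block (by omega) (IH _ ?_ fun C' h1 h2 => hno C' ⟨hw, hy, hyC, hwy, h1, h2⟩)
      (mem_blk.2 (Or.inr (Or.inl rfl))) hB (blk_dom hwy) hc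
    have := card_sdiff_add_card_eq_card hB
    omega

/-- The block lemma. -/
theorem hasSys_of_noSp (hk : k = 1 ∨ 3 ≤ k) (U : Finset V) (hU : NoSp G k U) : HasSys G k U := by
  induction hn : U.card using Nat.strong_induction_on generalizing U with
  | _ n ih =>
  have IH : ∀ U', U'.card < U.card → NoSp G k U' → HasSys G k U' :=
    fun U' h1 h2 => ih _ (hn ▸ h1) U' h2 rfl
  by_cases hconn : Conn G U
  swap
  · simp only [Conn, not_forall] at hconn
    obtain ⟨T, hT, hne, hTU⟩ := hconn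
    have h1 := card_lt_card (ssubset_of_subset_of_ne hT.1 hTU)
    have h2 := card_sdiff_add_card_eq_card hT.1
    have h3 := card_pos.2 hne
    exact HasSys.union hT (IH _ h1 (hU.of_cl hT)) (IH _ (by omega) (hU.of_cl hT.sdiff))
  by_cases hlow : ∀ x ∈ U, (nb G U x).card < k
  · exact step_low (by omega) hconn (fun hs => hU U hs ⟨subset_rfl, fun _ _ _ hy _ => hy⟩) hlow
  by_cases hpend : ∀ y ∈ U, NoSp G k (U.erase y)
  swap
  · simp only [NoSp, not_forall, not_not] at hpend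
    obtain ⟨y, hy, C, hC, hcl⟩ := hpend
    exact step_pendant (by omega) hconn hy hC hcl (IH _ (lt_of_le_of_lt
      (card_le_card sdiff_subset) (card_erase_lt_of_mem hy)) (spU_noSp _))
  push Not at hlow
  obtain ⟨x, hx, hxk⟩ := hlow
  obtain ⟨v, hv, hmax⟩ := exists_max_image U (fun x => (nb G U x).card) ⟨x, hx⟩
  have hbig : k ≤ (nb G U v).card := hxk.trans (hmax x hx)
  by_cases hrem : NoSp G k (rem G U {v})
  · obtain ⟨A, hA, hAc⟩ := exists_subset_card_eq hbig
    have hvA : v ∉ A := fun hh => not_mem_nb_self _ _ (hA hh)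
    have hd : Disjoint (insert v (nb G U v)) (rem G U {v}) := disjoint_left.2 fun a ha ha' => by
      have := (mem_rem.1 ha').2 v (mem_singleton_self _)
      rcases mem_insert.1 ha with h1 | h1
      exacts [this.1 h1, this.2 (mem_nb.1 h1).2]
    have h1 := card_le_card
      (union_subset (insert_subset hv (nb_sub (G := G) U v)) (rem_sub (G := G) U {v}))
    rw [card_union_of_disjoint hd, card_insert_of_notMem (not_mem_nb_self _ _)] at h1
    have hc : (insert v A).card = k + 1 := by rw [card_insert_of_notMem hvA, hAc]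
    refine (IH _ (by omega) hrem).extend (Bx := insert v A) (Y := ∅) (rem_sub _ _)
      (mem_insert_self v A) (insert_subset hv (hA.trans (nb_sub _ _)))
      (hd.mono_left (insert_subset_insert _ hA)) (fun y hy => ?_) hc.le (by omega)
      (free_empty (by omega)) (fun _ _ _ hb => absurd hb (notMem_empty _)) subset_union_left
    rcases mem_insert.1 hy with h2 | h2
    exacts [Or.inl h2, Or.inr (mem_nb.1 (hA h2)).2]
  · simp only [NoSp, not_forall, not_not] at hrem
    obtain ⟨C, hC, hcl⟩ := hrem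
    rcases hk with rfl | hk
    swap
    · exact Top.hasSys ⟨hk, hconn, hpend, hv, hmax, hbig, hC, hcl⟩ IH
    have hCU : C ⊆ U := hcl.1.trans (rem_sub _ _)
    have hvC : ∀ z ∈ C, z ≠ v ∧ ¬ G.Adj v z := fun z hz =>
      (mem_rem.1 (hcl.1 hz)).2 v (mem_singleton_self _)
    obtain ⟨w, hw, y, hy, hyC, hwy⟩ := hconn.exists_edge hCU hC.1 hv fun hh => (hvC v hh).1 rfl
    have hB : blk G C w y ⊆ U := fun a ha => by
      rcases mem_blk.1 ha with rfl | rfl | ha
      exacts [hy, hCU hw, hCU ha.1]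
    have hc := blk_card hC hw hyC
    have one : ∀ C', Sp G 1 C' → ∀ a ∈ C', ∀ b ∈ C', a = b := fun C' h' =>
      card_le_one.1 (by have := h'.2.1; omega)
    refine HasSys.extend_block le_rfl (IH _ ?_ fun C' h1 h2 => ?_)
      (mem_blk.2 (Or.inr (Or.inl rfl))) hB (blk_dom hwy) hc
    · have := card_sdiff_add_card_eq_card hB
      omega
    have hn : ∀ a ∈ C', a ∈ U ∧ a ≠ y ∧ a ≠ w := fun a ha => by
      have := mem_sdiff.1 (h2.1 ha)
      rw [mem_blk] at this
      tauto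
    refine hpend y hy C' h1 ⟨fun a ha => mem_erase.2 ⟨(hn a ha).2.1, (hn a ha).1⟩,
      fun a ha b hb hab => ?_⟩
    rw [mem_erase] at hb
    by_cases hbw : b = w
    · exfalso
      have haC : a ∉ C := fun hh => (hn a ha).2.2 (one C hC a hh w hw)
      have hva : G.Adj v a := by
        by_contra hcon
        refine haC (hcl.2 w hw a (mem_rem.2 ⟨(hn a ha).1, fun d hd => ?_⟩) (hbw ▸ hab.symm))
        rw [mem_singleton.1 hd]
        exact ⟨fun e => (hvC w hw).2 (e ▸ hbw ▸ hab), hcon⟩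
      refine hva.ne (one C' h1 v (h2.2 a ha v (mem_sdiff.2 ⟨hv, fun hh => ?_⟩) hva.symm) a ha)
      rcases mem_blk.1 hh with e | e | e
      exacts [(hvC w hw).2 (e ▸ hwy.symm), (hvC w hw).1 e.symm, (hvC v e.1).1 rfl]
    · refine h2.2 a ha b (mem_sdiff.2 ⟨hb.2, fun hh => ?_⟩) hab
      rcases mem_blk.1 hh with e | e | e
      exacts [hb.1 e, hbw e, hbw (one C hC b e.1 w hw)]

end Pool.Agent.IsoKer
end

-- merged part: Pool.Agent.Work.MP_1346a1_co.Link
section
/-! The link lemma: closed cliques with two outside links cost half a vertex per link. -/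

namespace Pool.Agent.IsoKer

open Finset
open scoped Classical

variable {V : Type*} {G : SimpleGraph V} {k : ℕ}

/-- The vertices of `M` with a neighbour in `Q`. -/
noncomputable def lk (G : SimpleGraph V) (M Q : Finset V) : Finset V :=
  M.filter (fun m => ∃ q ∈ Q, G.Adj m q)

theorem mem_lk {M Q : Finset V} {m : V} : m ∈ lk G M Q ↔ m ∈ M ∧ ∃ q ∈ Q, G.Adj m q := by
  simp [lk]

theorem rem_small {Q : Finset V} {y q : V} (hc : Q.card ≤ k) (hq : q ∈ Q)
    (h : q = y ∨ G.Adj y q) : (rem G Q {y}).card < k := by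
  have hs : rem G Q {y} ⊆ Q.erase q := fun a ha => by
    have := (mem_rem.1 ha).2 y (mem_singleton_self _)
    refine mem_erase.2 ⟨fun e => ?_, rem_sub _ _ ha⟩
    rcases h with h | h
    exacts [this.1 (e.trans h), this.2 (e ▸ h)]
  have h1 := card_le_card hs
  rw [card_erase_of_mem hq] at h1
  have := card_pos.2 ⟨q, hq⟩
  omega

theorem free_rem_closed {U C D : Finset V} {x : V} (hC : Cl G C U)
    (h1 : Free G k (rem G (U \ C) D)) (h2 : Free G k (rem G C {x})) :
    Free G k (rem G U (insert x D)) := by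
  refine free_rem_insert h1 h2 (hC.na.mono (rem_sub _ _) (rem_sub _ _)) fun a ha => ?_
  by_cases haC : a ∈ C
  · exact mem_union_right _ (mem_rem.2 ⟨haC, (mem_rem.1 ha).2⟩)
  · exact mem_union_left _ (mem_sdiff.2 ⟨rem_sub _ _ ha, haC⟩)

theorem link (hk : k = 1 ∨ 3 ≤ k) (U M : Finset V)
    (h : ∀ Q, Clq G k Q → Cl G Q U → 2 ≤ (lk G M Q).card) :
    ∃ D : Finset V, Free G k (rem G U D) ∧ 2 * ((k + 1) * D.card) ≤ 2 * U.card + M.card := by
  induction hn : U.card using Nat.strong_induction_on generalizing U M with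
  | _ n ih =>
  subst hn
  by_cases hU : NoSp G k U
  · obtain ⟨D, B, hs⟩ := hasSys_of_noSp hk U hU
    have := hs.bound
    exact ⟨D, hs.iso, by omega⟩
  simp only [NoSp, not_forall, not_not] at hU
  obtain ⟨C, hC, hcl⟩ := hU
  obtain ⟨w, hw⟩ := hC.1
  have hcard := card_sdiff_add_card_eq_card hcl.1
  have hge := hC.card_ge
  have hw' : Free G k (rem G C {w}) := hC.free_sub (by omega) (rem_sub _ _) hw (by simp)
  by_cases hq : C.card ≤ k
  swap
  · obtain ⟨D, hD, hi⟩ := ih _ (by omega) (U \ C) M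
      (fun Q h1 h2 => h Q h1 (h2.trans hcl.sdiff)) rfl
    refine ⟨insert w D, free_rem_closed hcl hD hw', ?_⟩
    have := Nat.mul_le_mul_left (k + 1) (card_insert_le w D)
    rw [mul_add] at this
    omega
  by_cases hy : ∃ y ∈ lk G M C, ∃ Q, Clq G k Q ∧ Cl G Q (U \ C) ∧ y ∈ lk G M Q
  · obtain ⟨y, hy, Q, hQ, hQcl, hyQ⟩ := hy
    have hcard2 := card_sdiff_add_card_eq_card hQcl.1
    have hQc := hQ.1
    obtain ⟨D, hD, hi⟩ := ih _ (by omega) ((U \ C) \ Q) M
      (fun Q' h1 h2 => h Q' h1 ((h2.trans hQcl.sdiff).trans hcl.sdiff)) rfl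
    obtain ⟨-, q, hq1, hq2⟩ := mem_lk.1 hy
    obtain ⟨-, q', hq1', hq2'⟩ := mem_lk.1 hyQ
    have h1 := free_rem_closed hQcl hD (free_small (rem_small hQ.1.le hq1' (Or.inr hq2')))
    have h2 := free_rem_closed hcl h1 (free_small (rem_small hq hq1 (Or.inr hq2)))
    rw [insert_eq_of_mem (mem_insert_self _ _)] at h2
    refine ⟨insert y D, h2, ?_⟩
    have := Nat.mul_le_mul_left (k + 1) (card_insert_le y D)
    rw [mul_add] at this
    omega
  · push Not at hy
    have h2 := h C (hC.clq hq) hcl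
    have hM := card_sdiff_add_card_eq_card (filter_subset (fun m => ∃ q ∈ C, G.Adj m q) M)
    obtain ⟨D, hD, hi⟩ := ih _ (by omega) (U \ C) (M \ lk G M C) (fun Q h1 h3 => by
      refine (h Q h1 (h3.trans hcl.sdiff)).trans (card_le_card fun m hm => ?_)
      exact mem_lk.2 ⟨mem_sdiff.2 ⟨(mem_lk.1 hm).1, fun hh => hy m hh Q h1 h3 hm⟩,
        (mem_lk.1 hm).2⟩) rfl
    refine ⟨insert w D, free_rem_closed hcl hD hw', ?_⟩
    have := Nat.mul_le_mul_left (k + 1) (card_insert_le w D)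
    rw [mul_add] at this
    change (M \ lk G M C).card + (lk G M C).card = M.card at hM
    omega

/-- The bound for sets without closed `k`-cliques. -/
theorem bound_of_noClq (hk : k = 1 ∨ 3 ≤ k) (U : Finset V) (h : ∀ Q, Clq G k Q → ¬ Cl G Q U) :
    ∃ D : Finset V, Free G k (rem G U D) ∧ (k + 1) * D.card ≤ U.card := by
  obtain ⟨D, h1, h2⟩ := link hk U ∅ fun Q h1 h2 => absurd h2 (h Q h1)
  exact ⟨D, h1, by simp at h2; omega⟩

end Pool.Agent.IsoKer
end

-- merged part: Pool.Agent.Work.MP_1346a1_co.Local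
section
/-! Local lemmas on full blocks that cannot be isolated by fewer vertices. -/

namespace Pool.Agent.IsoKer

open Finset
open scoped Classical

variable {V : Type*} (G : SimpleGraph V) (k : ℕ)

/-- A full block with centre `c`. -/
structure Bk (c : V) (B : Finset V) : Prop where
  mem : c ∈ B
  card : B.card = k + 1
  dom : ∀ y ∈ B, y = c ∨ G.Adj c y

/-- No set of fewer than `n` vertices isolates `X`. -/
def Tight (n : ℕ) (X : Finset V) : Prop :=
  ∀ D : Finset V, D.card < n → ¬ Free G k (rem G X D)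

/-- Every `k`-clique `A - y` has a neighbour in `B`. -/
def NP (A B : Finset V) : Prop := ∀ y ∈ A, Clq G k (A.erase y) → ¬ NA G (A.erase y) B

/-- Two blocks made of a clique and a connection vertex, joined only by the edge `y y'`. -/
structure PP (B C : Finset V) (y y' : V) : Prop where
  hy : y ∈ B
  hy' : y' ∈ C
  adj : G.Adj y y'
  q : Clq G k (B.erase y)
  q' : Clq G k (C.erase y')
  na : NA G (B.erase y) C
  na' : NA G (C.erase y') B

variable {G k}

theorem rem_mono {X X' D D' : Finset V} (h : X ⊆ X') (h' : D' ⊆ D) :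
    rem G X D ⊆ rem G X' D' := fun _ ha =>
  mem_rem.2 ⟨h (mem_rem.1 ha).1, fun d hd => (mem_rem.1 ha).2 d (h' hd)⟩

theorem Tight.mono {n : ℕ} {X X' : Finset V} (h : Tight G k n X) (hX : X ⊆ X') :
    Tight G k n X' := fun D hD hf => h D hD (hf.mono (rem_mono hX subset_rfl))

theorem mem_rem1 {U : Finset V} {t x : V} :
    x ∈ rem G U {t} ↔ x ∈ U ∧ x ≠ t ∧ ¬ G.Adj t x := by simp

theorem rem_card {U : Finset V} {t : V} (ht : t ∈ U) :
    (rem G U {t}).card + (nb G U t).card + 1 = U.card := by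
  have hd : Disjoint (rem G U {t}) (insert t (nb G U t)) := disjoint_left.2 fun a ha ha' => by
    rw [mem_rem1] at ha
    rcases mem_insert.1 ha' with h1 | h1
    exacts [ha.2.1 h1, ha.2.2 (mem_nb.1 h1).2]
  have he : rem G U {t} ∪ insert t (nb G U t) = U := by
    ext a
    simp only [mem_union, mem_rem1, mem_insert, mem_nb]
    constructor
    · rintro (h | rfl | h)
      exacts [h.1, ht, h.1]
    · tauto
  have := card_union_of_disjoint hd
  rw [he, card_insert_of_notMem (not_mem_nb_self _ _)] at this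
  omega

theorem Bk.exists_nb {c y : V} {B : Finset V} (h : Bk G k c B) (hk : 1 ≤ k) (hy : y ∈ B) :
    ∃ z ∈ B, G.Adj y z := by
  rcases h.dom y hy with h1 | h1
  · obtain ⟨z, hz, hzc⟩ := exists_mem_ne (s := B) (by rw [h.card]; omega) c
    exact ⟨z, hz, h1 ▸ (h.dom z hz).resolve_left hzc⟩
  · exact ⟨c, h.mem, h1.symm⟩

theorem Bk.erase_card {c y : V} {B : Finset V} (h : Bk G k c B) (hy : y ∈ B) :
    (B.erase y).card = k := by
  rw [card_erase_of_mem hy, h.card]; rfl

theorem Bk.rem_small {c y : V} {B : Finset V} (h : Bk G k c B) (hk : 1 ≤ k) (hy : y ∈ B) :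
    (rem G (B.erase y) {y}).card < k := by
  obtain ⟨z, hz, hyz⟩ := h.exists_nb hk hy
  exact IsoKer.rem_small (h.erase_card hy).le (mem_erase.2 ⟨hyz.ne.symm, hz⟩) (Or.inr hyz)

theorem Bk.not_mem_rem {c y : V} {B X D : Finset V} (h : Bk G k c B) (hc : c ∈ D) (hy : y ∈ B) :
    y ∉ rem G X D := fun hh => by
  have := (mem_rem.1 hh).2 c hc
  rcases h.dom y hy with h1 | h1
  exacts [this.1 h1, this.2 h1]

theorem mark (hk : k = 1 ∨ 3 ≤ k) {a0 a z : V} {A0 A : Finset V} (h0 : Bk G k a0 A0) (h : Bk G k a A)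
    (hd : Disjoint A0 A) (hnp : NP G k A A0) (hz : z ∈ A) :
    ∃ D : Finset V, D.card ≤ 1 ∧ Free G k (rem G ((A0 ∪ A).erase z) D) := by
  have hA0 : A0 ⊆ (A0 ∪ A).erase z := fun x hx =>
    mem_erase.2 ⟨fun e => disjoint_left.1 hd hx (e ▸ hz), mem_union_left _ hx⟩
  obtain ⟨D, h1, h2⟩ := bound_of_noClq (G := G) hk ((A0 ∪ A).erase z) fun Q hQ hcl => by
    have hQ0 : ∀ x ∈ Q, x ∉ A0 := by
      intro x hx hx0
      have ha0 : a0 ∈ Q := by
        rcases h0.dom x hx0 with e | e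
        exacts [e ▸ hx, hcl.2 x hx a0 (hA0 h0.mem) e.symm]
      have hs : A0 ⊆ Q := fun y hy => by
        rcases h0.dom y hy with e | e
        exacts [e ▸ ha0, hcl.2 a0 ha0 y (hA0 hy) e]
      have := card_le_card hs
      rw [h0.card, hQ.1] at this
      omega
    have hs : Q ⊆ A.erase z := fun x hx => by
      have := mem_erase.1 (hcl.1 hx)
      exact mem_erase.2 ⟨this.1, (mem_union.1 this.2).resolve_left (hQ0 x hx)⟩
    have he : Q = A.erase z := eq_of_subset_of_card_le hs (by rw [h.erase_card hz, hQ.1])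
    refine hnp z hz (he ▸ hQ) fun x hx y hy hxy => ?_
    rw [← he] at hx
    exact hQ0 y (hcl.2 x hx y (hA0 hy) hxy) hy
  refine ⟨D, ?_, h1⟩
  rw [card_erase_of_mem (mem_union_right _ hz), card_union_of_disjoint hd, h0.card, h.card] at h2
  by_contra hcon
  have := Nat.mul_le_mul_left (k + 1) (show 2 ≤ D.card by omega)
  omega

theorem centre_closed (hk : k = 1 ∨ 3 ≤ k) {a0 a c : V} {A0 A C : Finset V} (h0 : Bk G k a0 A0)
    (h : Bk G k a A) (hc : Bk G k c C) (hd : Disjoint A0 A) (hnp : NP G k A A0)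
    (ht : Tight G k 3 (C ∪ A ∪ A0)) : ∀ z ∈ A, ¬ G.Adj c z := by
  intro z hz hcz
  obtain ⟨D, h1, h2⟩ := mark hk h0 h hd hnp hz
  refine ht (insert c D) (by have := card_insert_le c D; omega) (h2.mono fun x hx => ?_)
  have hxC : x ∉ C := fun hh => hc.not_mem_rem (mem_insert_self _ _) hh hx
  rw [mem_rem] at hx ⊢
  refine ⟨mem_erase.2 ⟨fun e => (hx.2 c (mem_insert_self _ _)).2 (e ▸ hcz), ?_⟩,
    fun d hd => hx.2 d (mem_insert_of_mem hd)⟩
  have := hx.1
  simp only [mem_union] at this ⊢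
  tauto

theorem two_sided (hk : k = 1 ∨ 3 ≤ k) {a0 a b c c0 : V} {A0 A B C C0 : Finset V} (h0 : Bk G k a0 A0)
    (h : Bk G k a A) (hb : Bk G k b B) (hc : Bk G k c C) (hc0 : Bk G k c0 C0)
    (hd : Disjoint A0 A) (hnp : NP G k A A0) (hd' : Disjoint C0 C) (hnp' : NP G k C C0)
    (hna : NA G (A0 ∪ A) (C0 ∪ C)) (ht : Tight G k 5 (A0 ∪ A ∪ B ∪ C ∪ C0))
    {m z z' : V} (hz : z ∈ A) (hz' : z' ∈ C) (h1 : G.Adj m z) (h2 : G.Adj m z') : False := by
  obtain ⟨D, hD, hf⟩ := mark hk h0 h hd hnp hz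
  obtain ⟨D', hD', hf'⟩ := mark hk hc0 hc hd' hnp' hz'
  have hf2 := free_rem_union hf hf' (hna.mono (erase_subset _ _) (erase_subset _ _)) subset_rfl
  refine ht (insert m (insert b (D ∪ D'))) ?_ (hf2.mono fun x hx => ?_)
  · have := card_insert_le m (insert b (D ∪ D'))
    have := card_insert_le b (D ∪ D')
    have := card_union_le D D'
    omega
  have hxB : x ∉ B := fun hh =>
    hb.not_mem_rem (mem_insert_of_mem (mem_insert_self _ _)) hh hx
  rw [mem_rem] at hx ⊢
  have hm := (hx.2 m (mem_insert_self _ _)).2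
  have e1 : x ≠ z := fun e => hm (e ▸ h1)
  have e2 : x ≠ z' := fun e => hm (e ▸ h2)
  refine ⟨?_, fun d hd => hx.2 d (mem_insert_of_mem (mem_insert_of_mem hd))⟩
  have := hx.1
  simp only [mem_union, mem_erase] at this ⊢
  clear * - this hxB e1 e2; grind

theorem pair_deg {a b t : V} {A B : Finset V} (ha : Bk G k a A) (hb : Bk G k b B)
    (hd : Disjoint A B) (ht : Tight G k 2 (A ∪ B)) (hbA : ∀ x ∈ A, ¬ G.Adj b x) (htA : t ∈ A)
    (hdeg : k + 1 ≤ (nb G (A ∪ B) t).card) :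
    (∀ x ∈ A, x = t ∨ G.Adj t x) ∧ (nb G B t).card ≤ 1 := by
  have h1 := rem_card (G := G) (mem_union_left B htA)
  rw [card_union_of_disjoint hd, ha.card, hb.card] at h1
  have hq := clq_of_not_free (by omega) (ht {t} (by simp))
  have hbY : b ∈ rem G (A ∪ B) {t} := mem_rem1.2 ⟨mem_union_right _ hb.mem,
    fun e => disjoint_left.1 hd htA (e ▸ hb.mem), fun e => hbA t htA e.symm⟩
  have hYA : ∀ y ∈ rem G (A ∪ B) {t}, y ∉ A := fun y hy hyA =>
    hbA y hyA (hq.2 b hbY y hy fun e => disjoint_left.1 hd hyA (e ▸ hb.mem))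
  refine ⟨fun x hx => ?_, ?_⟩
  · by_contra hcon
    push Not at hcon
    exact hYA x (mem_rem1.2 ⟨mem_union_left _ hx, hcon⟩) hx
  · have hdj : Disjoint (rem G (A ∪ B) {t}) (nb G B t) := disjoint_left.2 fun y hy hy' =>
      (mem_rem1.1 hy).2.2 (mem_nb.1 hy').2
    have hs : rem G (A ∪ B) {t} ∪ nb G B t ⊆ B := union_subset (fun y hy =>
      (mem_union.1 (mem_rem1.1 hy).1).resolve_left (hYA y hy)) (nb_sub _ _)
    have := card_le_card hs
    rw [card_union_of_disjoint hdj, hq.1, hb.card] at this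
    omega

theorem free_k1 {Y : Finset V} {a u p p' : V} (hY : Y.card ≤ k + 1) (ha : a ∈ Y) (hu : u ∈ Y)
    (hp : p ∈ Y) (hp' : p' ∈ Y) (n1 : a ≠ p) (n2 : a ≠ p') (n3 : p ≠ p') (n4 : u ≠ a)
    (n5 : u ≠ p') (e1 : ¬ G.Adj a p) (e2 : ¬ G.Adj a p') (e3 : ¬ G.Adj p' u)
    (hs : ∀ s ∈ Y, G.Adj s a → ¬ G.Adj s p') : Free G k Y := by
  refine ⟨fun s hsY => ?_, fun T hT hne => ?_⟩
  · by_contra hcon
    have he : nb G Y s = Y.erase s :=
      eq_of_subset_of_card_le (nb_sub_erase _ _) (by rw [card_erase_of_mem hsY]; omega)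
    have hadj : ∀ x ∈ Y, x ≠ s → G.Adj s x := fun x hx hxs =>
      (mem_nb.1 (he ▸ mem_erase.2 ⟨hxs, hx⟩ : x ∈ nb G Y s)).2
    by_cases h1 : a = s
    · exact e1 (h1 ▸ hadj p hp (h1 ▸ n1.symm))
    by_cases h2 : p' = s
    · exact e2 (h2 ▸ (hadj a ha h1).symm)
    exact hs s hsY (hadj a ha h1) (hadj p' hp' h2)
  · by_contra hcon
    push Not at hcon
    have hq : ∀ x ∈ Y, x ∉ T → ∀ y ∈ Y, ∀ z ∈ Y, y ≠ x → z ≠ x → y ≠ z → G.Adj y z := by
      intro x hx hxT y hy z hz h1 h2 h3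
      have hsub : T ⊆ Y.erase x := fun c hc => mem_erase.2 ⟨fun e => hxT (e ▸ hc), hT hc⟩
      have hc : (Y.erase x).card ≤ k := by rw [card_erase_of_mem hx]; omega
      refine (clq_of_not_free (G := G) hc fun hf => ?_).2 y (mem_erase.2 ⟨h1, hy⟩) z
        (mem_erase.2 ⟨h2, hz⟩) h3
      obtain ⟨t, ht, hlt⟩ := hf.2 T hsub hne
      have := hcon t ht
      omega
    by_cases h1 : a ∈ T
    swap
    · exact e3 (hq a ha h1 p' hp' u hu n2.symm n4 n5.symm)
    by_cases h2 : p ∈ T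
    swap
    · exact e2 (hq p hp h2 a ha p' hp' n1 n3.symm n2)
    by_cases h3 : p' ∈ T
    swap
    · exact e1 (hq p' hp' h3 a ha p hp n2 n3 n1)
    have hsub : nb G T a ⊆ ((T.erase a).erase p).erase p' := fun x hx => by
      rw [mem_nb] at hx
      simp only [mem_erase]
      exact ⟨fun e => e2 (e ▸ hx.2), fun e => e1 (e ▸ hx.2), hx.2.ne.symm, hx.1⟩
    have h4 := card_le_card hsub
    rw [card_erase_of_mem (by simp [n2.symm, n3.symm, h3]),
      card_erase_of_mem (by simp [n1.symm, h2]), card_erase_of_mem h1] at h4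
    have h5 := card_le_card hT
    have h6 := hcon a h1
    have h7 : 3 ≤ T.card := by
      have : ({a, p, p'} : Finset V) ⊆ T := by simp [insert_subset_iff, h1, h2, h3]
      have h8 := card_le_card this
      rwa [card_insert_of_notMem (by simp [n1, n2]), card_pair n3] at h8
    omega

theorem star_side {a b u p p' t : V} {A B N : Finset V} (ha : Bk G k a A) (hb : Bk G k b B)
    (hd : Disjoint A B) (ht : Tight G k 2 (A ∪ B)) (haB : ∀ x ∈ B, ¬ G.Adj a x)
    (hu : u ∈ A) (hp : p ∈ B) (hup : G.Adj u p) (hp' : p' ∈ B) (hpp : p ≠ p')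
    (hp'A : ∀ x ∈ A, ¬ G.Adj p' x) (htB : t ∈ B) (htp : t ≠ p) (htp' : t ≠ p')
    (hN : N ⊆ nb G (A ∪ B) t) (hNc : k ≤ N.card) (m1 : a ∉ N) (m2 : u ∉ N) (m3 : p ∉ N)
    (m4 : p' ∉ N) : False := by
  have hne : ∀ x ∈ A, ∀ y ∈ B, x ≠ y := fun x hx y hy e => disjoint_left.1 hd hx (e ▸ hy)
  by_cases hdeg : k + 1 ≤ (nb G (A ∪ B) t).card
  · have h1 := (pair_deg hb ha hd.symm (by rwa [union_comm]) haB htB (by rwa [union_comm])).2
    have hs : N ⊆ nb G A t ∪ ((B.erase t).erase p).erase p' := fun x hx => by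
      have h2 := mem_nb.1 (hN hx)
      rcases mem_union.1 h2.1 with h3 | h3
      · exact mem_union_left _ (mem_nb.2 ⟨h3, h2.2⟩)
      · refine mem_union_right _ ?_
        simp only [mem_erase]
        exact ⟨fun e => m4 (e ▸ hx), fun e => m3 (e ▸ hx), h2.2.ne.symm, h3⟩
    have h2 := (card_le_card hs).trans (card_union_le _ _)
    rw [card_erase_of_mem (by simp [hpp.symm, htp'.symm, hp']),
      card_erase_of_mem (by simp [htp.symm, hp]), hb.erase_card htB] at h2
    have h7 : 3 ≤ B.card := by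
      have : ({t, p, p'} : Finset V) ⊆ B := by simp [insert_subset_iff, htB, hp, hp']
      have h8 := card_le_card this
      rwa [card_insert_of_notMem (by simp [htp, htp']), card_pair hpp] at h8
    rw [hb.card] at h7
    omega
  · have he : N = nb G (A ∪ B) t := eq_of_subset_of_card_le hN (by omega)
    have h1 := rem_card (G := G) (mem_union_right A htB)
    rw [card_union_of_disjoint hd, ha.card, hb.card, ← he] at h1
    have hm : ∀ x ∈ A ∪ B, x ≠ t → x ∉ N → x ∈ rem G (A ∪ B) {t} := fun x hx h2 h3 =>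
      mem_rem1.2 ⟨hx, h2, fun e => h3 (he ▸ mem_nb.2 ⟨hx, e⟩)⟩
    refine ht {t} (by simp) (free_k1 (a := a) (u := u) (p := p) (p' := p') (by omega)
      (hm a (mem_union_left _ ha.mem) (hne a ha.mem t htB) m1)
      (hm u (mem_union_left _ hu) (hne u hu t htB) m2)
      (hm p (mem_union_right _ hp) htp.symm m3) (hm p' (mem_union_right _ hp') htp'.symm m4)
      (hne a ha.mem p hp) (hne a ha.mem p' hp') hpp (fun e => haB p hp (e ▸ hup))
      (hne u hu p' hp') (haB p hp) (haB p' hp') (hp'A u hu) fun s hs hsa hsp => ?_)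
    rcases mem_union.1 (rem_sub _ _ hs) with h2 | h2
    exacts [hp'A s h2 hsp.symm, haB s h2 hsa.symm]

theorem side_deg {a b u t : V} {A B X : Finset V} (ha : Bk G k a A) (hb : Bk G k b B)
    (hd : Disjoint A B) (ht : Tight G k 2 (A ∪ B)) (hbA : ∀ x ∈ A, ¬ G.Adj b x)
    (hu : u ∈ A) (htA : t ∈ A) (haX : a ∉ X) (htX : t ∈ X) (htu : t ≠ u ∧ ¬ G.Adj u t)
    (hX : ∀ x ∈ X, G.Adj t x → x ∈ A ∪ B) : (nb G X t).card < k := by
  by_contra hcon
  have hta : G.Adj t a := ((ha.dom t htA).resolve_left fun e => haX (e ▸ htX)).symm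
  have hs : insert a (nb G X t) ⊆ nb G (A ∪ B) t :=
    insert_subset (mem_nb.2 ⟨mem_union_left _ ha.mem, hta⟩) fun x hx =>
      mem_nb.2 ⟨hX x (mem_nb.1 hx).1 (mem_nb.1 hx).2, (mem_nb.1 hx).2⟩
  have h1 := card_le_card hs
  rw [card_insert_of_notMem fun hh => haX (mem_nb.1 hh).1] at h1
  rcases (pair_deg ha hb hd ht hbA htA (by omega)).1 u hu with h2 | h2
  exacts [htu.1 h2.symm, htu.2 h2.symm]

theorem side_low {a u t : V} {A T : Finset V} (ha : Bk G k a A) (hu : u ∈ A) (htA : t ∈ A)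
    (hua : u ≠ a) (haT : a ∉ T) (huT : u ∉ T) (htT : t ∈ T)
    (hT : ∀ x ∈ T, G.Adj t x → x ∈ A) : (nb G T t).card + 1 < k := by
  have n1 : t ≠ a := fun e => haT (e ▸ htT)
  have n2 : t ≠ u := fun e => huT (e ▸ htT)
  have hs : nb G T t ⊆ ((A.erase a).erase u).erase t := fun x hx => by
    rw [mem_nb] at hx
    simp only [mem_erase]
    exact ⟨hx.2.ne.symm, fun e => huT (e ▸ hx.1), fun e => haT (e ▸ hx.1), hT x hx.1 hx.2⟩
  have h1 := card_le_card hs
  rw [card_erase_of_mem (by simp [n1, n2, htA]), card_erase_of_mem (by simp [hua, hu]),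
    ha.erase_card ha.mem] at h1
  have h7 : 3 ≤ A.card := by
    have : ({t, u, a} : Finset V) ⊆ A := by simp [insert_subset_iff, htA, hu, ha.mem]
    have h8 := card_le_card this
    rwa [card_insert_of_notMem (by simp [n1, n2]), card_pair hua] at h8
  rw [ha.card] at h7
  omega

theorem triple {a b c : V} {A B C : Finset V} (ha : Bk G k a A) (hb : Bk G k b B)
    (hc : Bk G k c C) (dAB : Disjoint A B) (dCB : Disjoint C B) (hna : NA G A C)
    (haB : ∀ x ∈ B, ¬ G.Adj a x) (hcB : ∀ x ∈ B, ¬ G.Adj c x)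
    (hbA : ∀ x ∈ A, ¬ G.Adj b x) (hbC : ∀ x ∈ C, ¬ G.Adj b x)
    (tAB : Tight G k 2 (A ∪ B)) (tCB : Tight G k 2 (C ∪ B)) (t3 : Tight G k 3 (A ∪ B ∪ C))
    (hone : ∀ m z z', z ∈ A → z' ∈ C → G.Adj m z → ¬ G.Adj m z')
    (eAB : ¬ NA G A B) (eCB : ¬ NA G C B) : False := by
  simp only [NA, not_forall, not_not] at eAB eCB
  obtain ⟨u, hu, p, hp, hup⟩ := eAB
  obtain ⟨w, hw, p', hp', hwp⟩ := eCB
  have hpp : p ≠ p' := fun e => hone p u w hu hw hup.symm (e ▸ hwp.symm)
  have hua : u ≠ a := fun e => haB p hp (e ▸ hup)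
  have hwc : w ≠ c := fun e => hcB p' hp' (e ▸ hwp)
  set X := rem G (A ∪ B ∪ C) {u, w} with hXdef
  have hX : ∀ x ∈ X, (x ∈ A ∨ x ∈ B ∨ x ∈ C) ∧ (x ≠ u ∧ ¬ G.Adj u x) ∧ (x ≠ w ∧ ¬ G.Adj w x) :=
    fun x hx => by simpa [hXdef] using hx
  have haX : a ∉ X := fun hh => (hX a hh).2.1.2 ((ha.dom u hu).resolve_left hua).symm
  have hcX : c ∉ X := fun hh => (hX c hh).2.2.2 ((hc.dom w hw).resolve_left hwc).symm
  have huX : u ∉ X := fun hh => (hX u hh).2.1.1 rfl
  have hwX : w ∉ X := fun hh => (hX w hh).2.2.1 rfl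
  have hpX : p ∉ X := fun hh => (hX p hh).2.1.2 hup
  have hp'X : p' ∉ X := fun hh => (hX p' hh).2.2.2 hwp
  have hdeg : ∀ t ∈ X, (nb G X t).card < k := by
    intro t ht
    rcases (hX t ht).1 with h1 | h1 | h1
    · refine side_deg ha hb dAB tAB hbA hu h1 haX ht (hX t ht).2.1 fun x hx htx => ?_
      rcases (hX x hx).1 with h2 | h2 | h2
      exacts [mem_union_left _ h2, mem_union_right _ h2, absurd htx (hna t h1 x h2)]
    · by_contra hcon
      by_cases htC : ∀ x ∈ C, ¬ G.Adj t x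
      · refine star_side (N := nb G X t) ha hb dAB tAB haB hu hp hup hp' hpp
          (fun x hx e => hone p' x w hx hw e hwp.symm) h1 (fun e => hpX (e ▸ ht))
          (fun e => hp'X (e ▸ ht)) (fun x hx => ?_) (by omega) (fun hh => haX (nb_sub _ _ hh))
          (fun hh => huX (nb_sub _ _ hh)) (fun hh => hpX (nb_sub _ _ hh))
          (fun hh => hp'X (nb_sub _ _ hh))
        rw [mem_nb] at hx ⊢
        refine ⟨?_, hx.2⟩
        rcases (hX x hx.1).1 with h2 | h2 | h2
        exacts [mem_union_left _ h2, mem_union_right _ h2, absurd hx.2 (htC x h2)]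
      · push Not at htC
        obtain ⟨z', hz', htz'⟩ := htC
        refine star_side (N := nb G X t) hc hb dCB tCB hcB hw hp' hwp hp hpp.symm
          (fun x hx e => hone p u x hu hx hup.symm e) h1 (fun e => hp'X (e ▸ ht))
          (fun e => hpX (e ▸ ht)) (fun x hx => ?_) (by omega) (fun hh => hcX (nb_sub _ _ hh))
          (fun hh => hwX (nb_sub _ _ hh)) (fun hh => hp'X (nb_sub _ _ hh))
          (fun hh => hpX (nb_sub _ _ hh))
        rw [mem_nb] at hx ⊢
        refine ⟨?_, hx.2⟩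
        rcases (hX x hx.1).1 with h2 | h2 | h2
        exacts [absurd htz' (hone t x z' h2 hz' hx.2), mem_union_right _ h2, mem_union_left _ h2]
    · refine side_deg hc hb dCB tCB hbC hw h1 hcX ht (hX t ht).2.2 fun x hx htx => ?_
      rcases (hX x hx).1 with h2 | h2 | h2
      exacts [absurd htx.symm (hna x h2 t h1), mem_union_right _ h2, mem_union_left _ h2]
  refine t3 {u, w} (by have := card_le_two (a := u) (b := w); omega) ⟨hdeg, fun T hT hne => ?_⟩
  by_contra hcon
  push Not at hcon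
  have hcl : Cl G T X := cl_of_card hT fun t ht => by
    have := hcon t ht
    have := hdeg t (hT ht)
    omega
  have hbX : b ∈ X := by
    simp only [hXdef, mem_rem, mem_union, mem_insert, mem_singleton, forall_eq_or_imp, forall_eq]
    exact ⟨Or.inl (Or.inr hb.mem), ⟨fun e => disjoint_left.1 dAB hu (e ▸ hb.mem),
      fun e => hbA u hu e.symm⟩, fun e => disjoint_left.1 dCB hw (e ▸ hb.mem),
      fun e => hbC w hw e.symm⟩
  have hbT : b ∉ T := by
    intro hbT
    have hs : nb G T b ⊆ ((B.erase b).erase p).erase p' := fun x hx => by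
      rw [mem_nb] at hx
      simp only [mem_erase]
      refine ⟨fun e => hp'X (e ▸ hT hx.1), fun e => hpX (e ▸ hT hx.1), hx.2.ne.symm, ?_⟩
      rcases (hX x (hT hx.1)).1 with h2 | h2 | h2
      exacts [absurd hx.2 (hbA x h2), h2, absurd hx.2 (hbC x h2)]
    have n1 : p ≠ b := fun e => hpX (e ▸ hbX)
    have n2 : p' ≠ b := fun e => hp'X (e ▸ hbX)
    have h1 := card_le_card hs
    rw [card_erase_of_mem (by simp [hpp.symm, n2, hp']), card_erase_of_mem (by simp [n1, hp]),
      hb.erase_card hb.mem] at h1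
    have h7 : 3 ≤ B.card := by
      have : ({p, p', b} : Finset V) ⊆ B := by simp [insert_subset_iff, hp, hp', hb.mem]
      have h8 := card_le_card this
      rwa [card_insert_of_notMem (by simp [n1, hpp]), card_pair n2] at h8
    rw [hb.card] at h7
    have := hcon b hbT
    omega
  have hTB : ∀ x ∈ T, x ∉ B := fun x hx hxB => by
    rcases hb.dom x hxB with h1 | h1
    exacts [hbT (h1 ▸ hx), hbT (hcl.2 x hx b hbX h1.symm)]
  obtain ⟨t, ht⟩ := hne
  have := hcon t ht
  rcases (hX t (hT ht)).1 with h1 | h1 | h1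
  · have := side_low (G := G) ha hu h1 hua (fun hh => haX (hT hh)) (fun hh => huX (hT hh)) ht
      fun x hx htx => by
        rcases (hX x (hT hx)).1 with h2 | h2 | h2
        exacts [h2, absurd h2 (hTB x hx), absurd htx (hna t h1 x h2)]
    omega
  · exact hTB t ht h1
  · have := side_low (G := G) hc hw h1 hwc (fun hh => hcX (hT hh)) (fun hh => hwX (hT hh)) ht
      fun x hx htx => by
        rcases (hX x (hT hx)).1 with h2 | h2 | h2
        exacts [absurd htx.symm (hna x h2 t h1), absurd h2 (hTB x hx), h2]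
    omega

end Pool.Agent.IsoKer
end

-- merged part: Pool.Agent.Work.MP_1346a1_co.Path
section
/-! Pure pairs and the exclusion of long geodesics of good blocks. -/

namespace Pool.Agent.IsoKer

open Finset
open scoped Classical

variable {V : Type*} {G : SimpleGraph V} {k : ℕ}

theorem PP.symm {B C : Finset V} {y y' : V} (h : PP G k B C y y') : PP G k C B y' y :=
  ⟨h.hy', h.hy, h.adj.symm, h.q', h.q, h.na', h.na⟩

theorem pp_of (hk : 1 ≤ k) {b c y : V} {B C : Finset V} (hb : Bk G k b B) (hc : Bk G k c C)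
    (ht : Tight G k 2 (B ∪ C)) (he : ¬ NA G B C) (hy : y ∈ B) (hq : Clq G k (B.erase y))
    (hna : NA G (B.erase y) C) : ∃ y', PP G k B C y y' := by
  simp only [NA, not_forall, not_not] at he
  obtain ⟨x, hx, y', hy', hxy⟩ := he
  have hxe : x = y := by
    by_contra hne
    exact hna x (mem_erase.2 ⟨hne, hx⟩) y' hy' hxy
  subst hxe
  have hs : rem G C {x} ⊆ C.erase y' := fun a ha =>
    mem_erase.2 ⟨fun e => (mem_rem1.1 ha).2.2 (e ▸ hxy), rem_sub _ _ ha⟩
  have hnf : ¬ Free G k (rem G C {x}) := fun hf => by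
    refine ht {x} (by simp) (((free_small (hb.rem_small hk hx)).union hf
      (hna.mono (rem_sub _ _) (rem_sub _ _))).mono fun a ha => ?_)
    rw [mem_rem1] at ha
    rcases mem_union.1 ha.1 with h1 | h1
    · exact mem_union_left _ (mem_rem1.2 ⟨mem_erase.2 ⟨ha.2.1, h1⟩, ha.2⟩)
    · exact mem_union_right _ (mem_rem1.2 ⟨h1, ha.2⟩)
  have hc1 := hc.erase_card hy'
  have hq' := clq_of_not_free ((card_le_card hs).trans hc1.le) hnf
  have he : rem G C {x} = C.erase y' := eq_of_subset_of_card_le hs (by rw [hc1, hq'.1])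
  refine ⟨y', hx, hy', hxy, hq, he ▸ hq', hna, fun a ha d hd had => ?_⟩
  by_cases hdx : d = x
  · rw [← he] at ha
    exact (mem_rem1.1 ha).2.2 (hdx ▸ had.symm)
  · exact hna d (mem_erase.2 ⟨hdx, hd⟩) a (mem_of_mem_erase ha) had.symm

theorem pp_third (hk : k = 1 ∨ 3 ≤ k) {b c e y y' : V} {B C E : Finset V} (hb : Bk G k b B)
    (hc : Bk G k c C) (hE : Bk G k e E) (h : PP G k B C y y') (ht : Tight G k 3 (E ∪ B ∪ C))
    (hna : NA G E (C.erase y')) : NA G E (B.erase y) := by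
  have H : ∀ d, ¬ Free G k (rem G (E ∪ B.erase y) {d}) := by
    intro d hf
    have hna2 : NA G (E ∪ B.erase y) (C.erase y') :=
      hna.union_left (h.na.mono subset_rfl (erase_subset _ _))
    refine ht {d, y'} (by have := card_le_two (a := d) (b := y'); omega)
      ((hf.union (free_small (hc.rem_small (by omega) h.hy'))
        (hna2.mono (rem_sub _ _) (rem_sub _ _))).mono fun a ha => ?_)
    simp only [mem_rem, mem_union, mem_insert, mem_singleton, forall_eq_or_imp, forall_eq,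
      mem_erase] at ha ⊢
    have : a ≠ y := fun e => ha.2.2.2 (e ▸ h.adj.symm)
    clear * - ha this; grind
  have hQ := hb.erase_card h.hy
  have claim : ∀ x ∈ E, ∀ z ∈ B.erase y, G.Adj x z → Clq G k (E.erase x) := by
    intro x hx z hz hxz
    refine clq_of_not_free (hE.erase_card hx).le fun hf => H z (hf.mono fun a ha => ?_)
    rw [mem_rem1] at ha
    refine mem_erase.2 ⟨fun e1 => ha.2.2 (e1 ▸ hxz.symm), (mem_union.1 ha.1).resolve_right
      fun h1 => ha.2.2 (h.q.2 z hz a h1 ha.2.1.symm)⟩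
  intro x hx z hz hxz
  have hs1 : rem G (E ∪ B.erase y) {x} ⊆ rem G (E.erase x) {x} ∪ rem G (B.erase y) {x} :=
    fun a ha => by
      simp only [mem_rem1, mem_union, mem_erase] at ha ⊢
      clear * - ha; grind
  have hnn : ¬ NA G (rem G (E.erase x) {x}) (rem G (B.erase y) {x}) := fun hn =>
    H x (((free_small (hE.rem_small (by omega) hx)).union
      (free_small (rem_small hQ.le hz (Or.inr hxz))) hn).mono hs1)
  simp only [NA, not_forall, not_not] at hnn
  obtain ⟨x', hx', z', hz', hxz'⟩ := hnn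
  have hk3 : 3 ≤ k := by
    have := hE.rem_small (by omega) hx
    have := card_pos.2 ⟨x', hx'⟩
    omega
  rw [mem_rem1, mem_erase] at hx'
  have q1 := claim x hx z hz hxz
  have q2 := claim x' hx'.1.2 z' (rem_sub _ _ hz') hxz'
  have hs2 : rem G (E ∪ B.erase y) {x} ⊆ insert x' ((B.erase y).erase z) := fun a ha => by
    rw [mem_rem1] at ha
    rcases mem_union.1 ha.1 with h1 | h1
    · refine mem_insert.2 (Or.inl ?_)
      by_contra hne
      exact ha.2.2 (q2.2 x (mem_erase.2 ⟨hx'.2.1.symm, hx⟩) a (mem_erase.2 ⟨hne, h1⟩)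
        ha.2.1.symm)
    · exact mem_insert_of_mem (mem_erase.2 ⟨fun e1 => ha.2.2 (e1 ▸ hxz), h1⟩)
  have hc2 : (insert x' ((B.erase y).erase z)).card ≤ k := by
    have := card_insert_le x' ((B.erase y).erase z)
    rw [card_erase_of_mem hz, hQ] at this
    omega
  have q3 := clq_of_not_free ((card_le_card hs2).trans hc2) (H x)
  have he : rem G (E ∪ B.erase y) {x} = insert x' ((B.erase y).erase z) :=
    eq_of_subset_of_card_le hs2 (by rw [q3.1]; exact hc2)
  rw [he] at q3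
  refine H x' ((free_small (X := {x, z})
    (by have := card_le_two (a := x) (b := z); omega)).mono fun a ha => ?_)
  rw [mem_rem1] at ha
  rw [mem_insert, mem_singleton]
  by_contra hcon
  push Not at hcon
  rcases mem_union.1 ha.1 with h1 | h1
  · exact ha.2.2 (q1.2 x' (mem_erase.2 hx'.1) a (mem_erase.2 ⟨hcon.1, h1⟩) ha.2.1.symm)
  · exact ha.2.2 (q3.2 x' (mem_insert_self _ _) a
      (mem_insert_of_mem (mem_erase.2 ⟨hcon.2, h1⟩)) ha.2.1.symm)

/-- A family of good blocks: full, disjoint, and tight in groups of at most five. -/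
structure Good (G : SimpleGraph V) (k : ℕ) (Gd : Finset V) (B : V → Finset V) : Prop where
  hk : k = 1 ∨ 3 ≤ k
  bk : ∀ x ∈ Gd, Bk G k x (B x)
  disj : ∀ x ∈ Gd, ∀ y ∈ Gd, x ≠ y → Disjoint (B x) (B y)
  tight : ∀ J ⊆ Gd, J.card ≤ 5 → Tight G k J.card (J.biUnion B)

namespace Good

variable {Gd : Finset V} {B : V → Finset V}

theorem t2 (h : Good G k Gd B) {x y : V} (hx : x ∈ Gd) (hy : y ∈ Gd) (n : x ≠ y) :
    Tight G k 2 (B x ∪ B y) := by
  have := h.tight {x, y} (by simp [insert_subset_iff, hx, hy]) (by rw [card_pair n]; omega)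
  rw [card_pair n] at this
  simpa using this

theorem t3 (h : Good G k Gd B) {x y z : V} (hx : x ∈ Gd) (hy : y ∈ Gd) (hz : z ∈ Gd)
    (n1 : x ≠ y) (n2 : x ≠ z) (n3 : y ≠ z) : Tight G k 3 (B x ∪ B y ∪ B z) := by
  have hc : ({x, y, z} : Finset V).card = 3 := by
    rw [card_insert_of_notMem (by simp [n1, n2]), card_pair n3]
  have := h.tight {x, y, z} (by simp [insert_subset_iff, hx, hy, hz]) (by rw [hc]; omega)
  rw [hc] at this
  simpa using this

theorem propagate (h : Good G k Gd B) {x y z : V} (hx : x ∈ Gd) (hy : y ∈ Gd) (hz : z ∈ Gd)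
    (n1 : x ≠ y) (n2 : x ≠ z) (n3 : y ≠ z) {s t : V} (hp : PP G k (B x) (B y) s t)
    (he : ¬ NA G (B y) (B z)) (hn : NA G (B z) (B x)) : ∃ r, PP G k (B y) (B z) t r := by
  have := pp_third h.hk (h.bk y hy) (h.bk x hx) (h.bk z hz) hp.symm
    (h.t3 hz hy hx n3.symm n2.symm n1.symm) (hn.mono subset_rfl (erase_subset _ _))
  exact pp_of (by have := h.hk; omega) (h.bk y hy) (h.bk z hz) (h.t2 hy hz n3) he hp.hy' hp.q'
    this.symm

theorem np4 (h : Good G k Gd B) {x1 x2 x3 x4 : V} (h1 : x1 ∈ Gd) (h2 : x2 ∈ Gd) (h3 : x3 ∈ Gd)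
    (h4 : x4 ∈ Gd) (n12 : x1 ≠ x2) (n13 : x1 ≠ x3) (n23 : x2 ≠ x3) (n24 : x2 ≠ x4)
    (n34 : x3 ≠ x4) (e12 : ¬ NA G (B x1) (B x2)) (e23 : ¬ NA G (B x2) (B x3))
    (e34 : ¬ NA G (B x3) (B x4)) (a13 : NA G (B x1) (B x3)) (a14 : NA G (B x1) (B x4))
    (a24 : NA G (B x2) (B x4))
    (far : ∀ x ∈ Gd, ¬ NA G (B x) (B x1) → x ≠ x1 → NA G (B x) (B x4))
    (out : ∀ y ∈ B x1, Clq G k ((B x1).erase y) →
      ∃ x ∈ Gd, x ≠ x1 ∧ ¬ NA G (B x) ((B x1).erase y)) :
    NP G k (B x1) (B x2) ∧ NP G k (B x2) (B x1) := by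
  have hk := h.hk
  have key : ∀ s t, ¬ PP G k (B x1) (B x2) s t := by
    intro s t p12
    obtain ⟨r, p23⟩ := h.propagate h1 h2 h3 n12 n13 n23 p12 e23 a13.symm
    obtain ⟨r', p34⟩ := h.propagate h2 h3 h4 n23 n24 n34 p23 e34 a24.symm
    obtain ⟨x, hx, m1, hxe⟩ := out s p12.hy p12.q
    have hx1 : ¬ NA G (B x) (B x1) := fun hn => hxe (hn.mono subset_rfl (erase_subset _ _))
    have m2 : x ≠ x2 := fun e => hxe (e ▸ p12.na.symm)
    have m3 : x ≠ x3 := fun e => hx1 (e ▸ a13.symm)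
    have m4 : x ≠ x4 := fun e => hx1 (e ▸ a14.symm)
    have f4 := (far x hx hx1 m1).mono subset_rfl (erase_subset r' _)
    have f3 := pp_third hk (h.bk x3 h3) (h.bk x4 h4) (h.bk x hx) p34
      (h.t3 hx h3 h4 m3 m4 n34) f4
    have f2 := pp_third hk (h.bk x2 h2) (h.bk x3 h3) (h.bk x hx) p23
      (h.t3 hx h2 h3 m2 m3 n23) f3
    exact hxe (pp_third hk (h.bk x1 h1) (h.bk x2 h2) (h.bk x hx) p12
      (h.t3 hx h1 h2 m1 m2 n12) f2)
  refine ⟨fun y hy hq hn => ?_, fun y hy hq hn => ?_⟩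
  · obtain ⟨t, p⟩ := pp_of (by omega) (h.bk x1 h1) (h.bk x2 h2) (h.t2 h1 h2 n12) e12 hy hq hn
    exact key _ _ p
  · obtain ⟨t, p⟩ := pp_of (by omega) (h.bk x2 h2) (h.bk x1 h1) (h.t2 h2 h1 n12.symm)
      (fun hh => e12 hh.symm) hy hq hn
    exact key _ _ p.symm

/-- No geodesic of five good blocks with good neighbours. -/
theorem no_path (h : Good G k Gd B) (lev : V → ℕ)
    (hlev : ∀ x ∈ Gd, ∀ y ∈ Gd, ¬ NA G (B x) (B y) → lev x ≤ lev y + 1)
    {x1 x2 x3 x4 x5 : V} (h1 : x1 ∈ Gd) (h2 : x2 ∈ Gd) (h3 : x3 ∈ Gd) (h4 : x4 ∈ Gd)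
    (h5 : x5 ∈ Gd) (l1 : lev x1 = lev x2 + 1) (l2 : lev x2 = lev x3 + 1)
    (l3 : lev x3 = lev x4 + 1) (l4 : lev x4 = lev x5 + 1)
    (e12 : ¬ NA G (B x1) (B x2)) (e23 : ¬ NA G (B x2) (B x3)) (e34 : ¬ NA G (B x3) (B x4))
    (e45 : ¬ NA G (B x4) (B x5))
    (out : ∀ z ∈ ({x1, x2, x4, x5} : Finset V), ∀ y ∈ B z, Clq G k ((B z).erase y) →
      ∃ x ∈ Gd, x ≠ z ∧ ¬ NA G (B x) ((B z).erase y)) : False := by
  have hk := h.hk
  have ne : ∀ x y, lev x ≠ lev y → x ≠ y := fun x y hh e => hh (e ▸ rfl)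
  have na : ∀ x ∈ Gd, ∀ y ∈ Gd, lev y + 1 < lev x → NA G (B x) (B y) := fun x hx y hy hh => by
    by_contra hcon
    have := hlev x hx y hy hcon
    omega
  have far : ∀ y ∈ Gd, ∀ z ∈ Gd, (lev z + 2 < lev y ∨ lev y + 2 < lev z) →
      ∀ x ∈ Gd, ¬ NA G (B x) (B y) → x ≠ y → NA G (B x) (B z) := by
    intro y hy z hz hh x hx hxy _
    by_contra hcon
    have := hlev x hx y hy hxy
    have := hlev y hy x hx (fun e => hxy e.symm)
    have := hlev x hx z hz hcon
    have := hlev z hz x hx (fun e => hcon e.symm)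
    omega
  have n12 := ne x1 x2 (by omega)
  have n13 := ne x1 x3 (by omega)
  have n14 := ne x1 x4 (by omega)
  have n15 := ne x1 x5 (by omega)
  have n23 := ne x2 x3 (by omega)
  have n24 := ne x2 x4 (by omega)
  have n25 := ne x2 x5 (by omega)
  have n34 := ne x3 x4 (by omega)
  have n35 := ne x3 x5 (by omega)
  have n45 := ne x4 x5 (by omega)
  have a13 := na x1 h1 x3 h3 (by omega)
  have a14 := na x1 h1 x4 h4 (by omega)
  have a15 := na x1 h1 x5 h5 (by omega)
  have a24 := na x2 h2 x4 h4 (by omega)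
  have a25 := na x2 h2 x5 h5 (by omega)
  have a35 := na x3 h3 x5 h5 (by omega)
  have e21 : ¬ NA G (B x2) (B x1) := fun e => e12 e.symm
  have e32 : ¬ NA G (B x3) (B x2) := fun e => e23 e.symm
  have e43 : ¬ NA G (B x4) (B x3) := fun e => e34 e.symm
  have e54 : ¬ NA G (B x5) (B x4) := fun e => e45 e.symm
  have p21 := (h.np4 h1 h2 h3 h4 n12 n13 n23 n24 n34 e12 e23 e34 a13 a14 a24
    (far x1 h1 x4 h4 (by omega)) (out x1 (by simp))).2
  have p32 := (h.np4 h2 h3 h4 h5 n23 n24 n34 n35 n45 e23 e34 e45 a24 a25 a35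
    (far x2 h2 x5 h5 (by omega)) (out x2 (by simp))).2
  have p34 := (h.np4 h4 h3 h2 h1 n34.symm n24.symm n23.symm n13.symm n12.symm e43 e32 e21
    a24.symm a14.symm a13.symm (far x4 h4 x1 h1 (by omega)) (out x4 (by simp))).2
  have p45 := (h.np4 h5 h4 h3 h2 n45.symm n35.symm n34.symm n24.symm n23.symm e54 e43 e32
    a35.symm a25.symm a24.symm (far x5 h5 x2 h2 (by omega)) (out x5 (by simp))).2
  have b1 := h.bk x1 h1
  have b2 := h.bk x2 h2
  have b3 := h.bk x3 h3
  have b4 := h.bk x4 h4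
  have b5 := h.bk x5 h5
  have hc : ({x1, x2, x3, x4, x5} : Finset V).card = 5 := by
    rw [card_insert_of_notMem (by simp [n12, n13, n14, n15]),
      card_insert_of_notMem (by simp [n23, n24, n25]), card_insert_of_notMem (by simp [n34, n35]),
      card_pair n45]
  have t5 := h.tight {x1, x2, x3, x4, x5} (by simp [insert_subset_iff, h1, h2, h3, h4, h5])
    hc.le
  rw [hc] at t5
  refine triple b2 b3 b4 (h.disj _ h2 _ h3 n23) (h.disj _ h4 _ h3 n34.symm) a24
    (centre_closed hk b4 b3 b2 (h.disj _ h4 _ h3 n34.symm) p34 (h.t3 h2 h3 h4 n23 n24 n34))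
    (centre_closed hk b2 b3 b4 (h.disj _ h2 _ h3 n23) p32
      (h.t3 h4 h3 h2 n34.symm n24.symm n23.symm))
    (centre_closed hk b1 b2 b3 (h.disj _ h1 _ h2 n12) p21
      (h.t3 h3 h2 h1 n23.symm n13.symm n12.symm))
    (centre_closed hk b5 b4 b3 (h.disj _ h5 _ h4 n45.symm) p45 (h.t3 h3 h4 h5 n34 n35 n45))
    (h.t2 h2 h3 n23) (h.t2 h4 h3 n34.symm) (h.t3 h2 h3 h4 n23 n24 n34)
    (fun m z z' hz hz' e1 e2 => two_sided hk b1 b2 b3 b4 b5 (h.disj _ h1 _ h2 n12) p21
      (h.disj _ h5 _ h4 n45.symm) p45 ?_ (by simpa using t5) hz hz' e1 e2) e23 e43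
  exact ((a15.symm.union_left a14.symm).symm.union_left (a25.symm.union_left a24.symm).symm)

end Good

end Pool.Agent.IsoKer
end

-- merged part: Pool.Agent.Work.MP_1346a1_co.TwoBasic
section
/-! The case `k = 2`: five-cycles as additional special sets. -/

namespace Pool.Agent.IsoKer

open Finset
open scoped Classical

variable {V : Type*} {G : SimpleGraph V}

theorem free2_iff {X : Finset V} : Free G 2 X ↔ NA G X X := by
  constructor
  · intro h a ha b hb hab
    obtain ⟨t, ht, hlt⟩ := h.2 {a, b} (by simp [insert_subset_iff, ha, hb]) (by simp)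
    have h0 : nb G {a, b} t = ∅ := card_eq_zero.1 (by omega)
    rcases mem_insert.1 ht with rfl | ht
    · exact notMem_empty b (h0 ▸ mem_nb.2 ⟨by simp, hab⟩)
    · rw [mem_singleton.1 ht] at h0
      exact notMem_empty a (h0 ▸ mem_nb.2 ⟨by simp, hab.symm⟩)
  · intro h
    have e : ∀ T ⊆ X, ∀ t ∈ T, nb G T t = ∅ := fun T hT t ht =>
      eq_empty_of_forall_notMem fun x hx =>
        h t (hT ht) x (hT (mem_nb.1 hx).1) (mem_nb.1 hx).2
    exact ⟨fun v hv => by rw [e X subset_rfl v hv]; simp,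
      fun T hT ⟨t, ht⟩ => ⟨t, ht, by rw [e T hT t ht]; simp⟩⟩

/-- A set of five vertices with all inner degrees two. -/
def Cy (G : SimpleGraph V) (C : Finset V) : Prop :=
  C.card = 5 ∧ ∀ x ∈ C, (nb G C x).card = 2

/-- A labelled induced five-cycle with vertex set `C`. -/
structure Pent (G : SimpleGraph V) (C : Finset V) (a b c d e : V) : Prop where
  mem : ∀ x, x ∈ C ↔ x = a ∨ x = b ∨ x = c ∨ x = d ∨ x = e
  ab : G.Adj a b
  bc : G.Adj b c
  cd : G.Adj c d
  de : G.Adj d e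
  ea : G.Adj e a
  ac : ¬ G.Adj a c
  ad : ¬ G.Adj a d
  bd : ¬ G.Adj b d
  be : ¬ G.Adj b e
  ce : ¬ G.Adj c e

theorem two_nb {C : Finset V} {x a b z : V} (h : (nb G C x).card ≤ 2) (ha : a ∈ C) (hb : b ∈ C)
    (hz : z ∈ C) (hab : a ≠ b) (h1 : G.Adj x a) (h2 : G.Adj x b) (h3 : G.Adj x z) :
    z = a ∨ z = b := by
  have hs : ({a, b} : Finset V) ⊆ nb G C x := by simp [insert_subset_iff, ha, hb, h1, h2]
  have he := eq_of_subset_of_card_le hs (by rw [card_pair hab]; exact h)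
  have : z ∈ ({a, b} : Finset V) := he ▸ mem_nb.2 ⟨hz, h3⟩
  simpa using this

theorem Cy.other {C : Finset V} (h : Cy G C) {x : V} (hx : x ∈ C) (a : V) :
    ∃ z ∈ C, z ≠ a ∧ G.Adj x z := by
  obtain ⟨z, hz, hza⟩ := exists_mem_ne (s := nb G C x) (by rw [h.2 x hx]; omega) a
  exact ⟨z, (mem_nb.1 hz).1, hza, (mem_nb.1 hz).2⟩

theorem Cy.cl_card {C T : Finset V} (h : Cy G C) (hT : Cl G T C) (hne : T.Nonempty) :
    3 ≤ T.card := by
  obtain ⟨t, ht⟩ := hne
  have h1 := nb_card_lt (G := G) ht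
  rw [← hT.nb_eq ht, h.2 t (hT.1 ht)] at h1
  exact h1

theorem Cy.conn {C : Finset V} (h : Cy G C) : Conn G C := by
  intro T hT hne
  by_contra hcon
  have h1 := h.cl_card hT hne
  have h2 := h.cl_card hT.sdiff (sdiff_nonempty.2 fun hh => hcon (Subset.antisymm hT.1 hh))
  have h3 := card_sdiff_add_card_eq_card hT.1
  have := h.1
  omega

theorem Cy.no_triangle {C : Finset V} (h : Cy G C) {a b c : V} (ha : a ∈ C) (hb : b ∈ C)
    (hc : c ∈ C) (ab : G.Adj a b) (bc : G.Adj b c) (ca : G.Adj c a) : False := by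
  have hcl : Cl G {a, b, c} C := by
    refine ⟨by simp [insert_subset_iff, ha, hb, hc], fun x hx y hy hxy => ?_⟩
    simp only [mem_insert, mem_singleton] at hx ⊢
    rcases hx with rfl | rfl | rfl
    · have := two_nb (h.2 _ ha).le hb hc hy bc.ne ab ca.symm hxy
      tauto
    · have := two_nb (h.2 _ hb).le ha hc hy ca.ne.symm ab.symm bc hxy
      tauto
    · have := two_nb (h.2 _ hc).le ha hb hy ab.ne ca bc.symm hxy
      tauto
  have h1 := congrArg card (h.conn _ hcl (by simp))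
  have h2 := card_le_three (a := a) (b := b) (c := c)
  have := h.1
  omega

theorem Cy.pent' {C : Finset V} (h : Cy G C) {a b e : V} (ha : a ∈ C) (hb : b ∈ C) (he : e ∈ C)
    (ab : G.Adj a b) (ae : G.Adj a e) (hbe : b ≠ e) : ∃ c d, Pent G C a b c d e := by
  have be : ¬ G.Adj b e := fun hh => h.no_triangle ha hb he ab hh ae.symm
  obtain ⟨c, hc, hca, bc⟩ := h.other hb a
  obtain ⟨d, hd, hda, ed⟩ := h.other he a
  have na : ∀ z ∈ C, G.Adj a z → z = b ∨ z = e := fun z hz =>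
    two_nb (h.2 _ ha).le hb he hz hbe ab ae
  have nb' : ∀ z ∈ C, G.Adj b z → z = a ∨ z = c := fun z hz =>
    two_nb (h.2 _ hb).le ha hc hz hca.symm ab.symm bc
  have ne : ∀ z ∈ C, G.Adj e z → z = a ∨ z = d := fun z hz =>
    two_nb (h.2 _ he).le ha hd hz hda.symm ae.symm ed
  have hce : c ≠ e := fun e1 => be (e1 ▸ bc)
  have hdb : d ≠ b := fun e1 => be (e1 ▸ ed.symm)
  have hcd : c ≠ d := by
    rintro rfl
    have hcl : Cl G {a, b, c, e} C := by
      refine ⟨by simp [insert_subset_iff, ha, hb, hc, he], fun x hx y hy hxy => ?_⟩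
      simp only [mem_insert, mem_singleton] at hx ⊢
      rcases hx with rfl | rfl | rfl | rfl
      · have := na y hy hxy; tauto
      · have := nb' y hy hxy; tauto
      · have := two_nb (h.2 _ hc).le hb he hy hbe bc.symm ed.symm hxy; tauto
      · have := ne y hy hxy; tauto
    have h1 := congrArg card (h.conn _ hcl (by simp))
    have h2 := card_le_four (a := a) (b := b) (c := c) (d := e)
    have := h.1
    omega
  have ac : ¬ G.Adj a c := fun hh => (na c hc hh).elim bc.ne.symm hce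
  have ad : ¬ G.Adj a d := fun hh => (na d hd hh).elim hdb ed.ne.symm
  have bd : ¬ G.Adj b d := fun hh => (nb' d hd hh).elim hda hcd.symm
  have ce : ¬ G.Adj c e := fun hh => (ne c hc hh.symm).elim hca hcd
  have hs : ({a, b, c, d, e} : Finset V) ⊆ C := by simp [insert_subset_iff, ha, hb, hc, hd, he]
  have hcard : ({a, b, c, d, e} : Finset V).card = 5 := by
    rw [card_insert_of_notMem (by simp [ab.ne, hca.symm, hda.symm, ae.ne]),
      card_insert_of_notMem (by simp [bc.ne, hdb.symm, hbe]),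
      card_insert_of_notMem (by simp [hcd, hce]), card_pair ed.ne.symm]
  have heq := eq_of_subset_of_card_le hs (by rw [hcard, h.1])
  have hmem : ∀ x, x ∈ C ↔ x = a ∨ x = b ∨ x = c ∨ x = d ∨ x = e := fun x => by
    rw [← heq]; simp
  obtain ⟨z, hz, hzb, cz⟩ := h.other hc b
  have cd : G.Adj c d := by
    rcases (hmem z).1 hz with rfl | rfl | rfl | rfl | rfl
    exacts [absurd cz.symm ac, absurd rfl hzb, absurd rfl cz.ne, cz, absurd cz ce]
  exact ⟨c, d, hmem, ab, bc, cd, ed.symm, ae.symm, ac, ad, bd, be, ce⟩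

theorem Cy.pent {C : Finset V} (h : Cy G C) {a : V} (ha : a ∈ C) :
    ∃ b c d e, Pent G C a b c d e := by
  obtain ⟨b, hb, -, ab⟩ := h.other ha a
  obtain ⟨e, he, heb, ae⟩ := h.other ha b
  obtain ⟨c, d, p⟩ := h.pent' ha hb he ab ae heb.symm
  exact ⟨b, c, d, e, p⟩

namespace Pent

variable {C : Finset V} {a b c d e : V}

theorem ha (p : Pent G C a b c d e) : a ∈ C := (p.mem _).2 (by simp)
theorem hb (p : Pent G C a b c d e) : b ∈ C := (p.mem _).2 (by simp)
theorem hc (p : Pent G C a b c d e) : c ∈ C := (p.mem _).2 (by simp)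
theorem hd (p : Pent G C a b c d e) : d ∈ C := (p.mem _).2 (by simp)
theorem he (p : Pent G C a b c d e) : e ∈ C := (p.mem _).2 (by simp)
theorem nac (p : Pent G C a b c d e) : a ≠ c := fun h => p.ad (h ▸ p.cd)
theorem nad (p : Pent G C a b c d e) : a ≠ d := fun h => p.ac (h ▸ p.cd.symm)
theorem nbd (p : Pent G C a b c d e) : b ≠ d := fun h => p.be (h ▸ p.de)
theorem nbe (p : Pent G C a b c d e) : b ≠ e := fun h => p.bd (h ▸ p.de.symm)
theorem nce (p : Pent G C a b c d e) : c ≠ e := fun h => p.ac (h ▸ p.ea.symm)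

theorem rot (p : Pent G C a b c d e) : Pent G C b c d e a :=
  ⟨fun x => by rw [p.mem]; tauto, p.bc, p.cd, p.de, p.ea, p.ab, p.bd, p.be, p.ce,
    fun h => p.ac h.symm, fun h => p.ad h.symm⟩

theorem nb_a (p : Pent G C a b c d e) : nb G C a = {b, e} := by
  ext x
  simp only [mem_nb, mem_insert, mem_singleton, p.mem]
  constructor
  · rintro ⟨rfl | rfl | rfl | rfl | rfl, h⟩
    exacts [absurd rfl h.ne, Or.inl rfl, absurd h p.ac, absurd h p.ad, Or.inr rfl]
  · rintro (rfl | rfl)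
    exacts [⟨by simp, p.ab⟩, ⟨by simp, p.ea.symm⟩]

theorem cy (p : Pent G C a b c d e) : Cy G C := by
  constructor
  · have : C = {a, b, c, d, e} := by ext x; simp [p.mem]
    rw [this, card_insert_of_notMem (by simp [p.ab.ne, p.nac, p.nad, p.ea.ne.symm]),
      card_insert_of_notMem (by simp [p.bc.ne, p.nbd, p.nbe]),
      card_insert_of_notMem (by simp [p.cd.ne, p.nce]), card_pair p.de.ne]
  · intro x hx
    rcases (p.mem x).1 hx with rfl | rfl | rfl | rfl | rfl
    · rw [p.nb_a, card_pair p.nbe]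
    · rw [p.rot.nb_a, card_pair p.rot.nbe]
    · rw [p.rot.rot.nb_a, card_pair p.rot.rot.nbe]
    · rw [p.rot.rot.rot.nb_a, card_pair p.rot.rot.rot.nbe]
    · rw [p.rot.rot.rot.rot.nb_a, card_pair p.rot.rot.rot.rot.nbe]

theorem bk (p : Pent G C a b c d e) : Bk G 2 c {b, c, d} :=
  ⟨by simp, by rw [card_insert_of_notMem (by simp [p.bc.ne, p.nbd]), card_pair p.cd.ne], by
    intro y hy
    simp only [mem_insert, mem_singleton] at hy
    rcases hy with rfl | rfl | rfl
    exacts [Or.inr p.bc.symm, Or.inl rfl, Or.inr p.cd]⟩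

end Pent

/-- Special sets for `k = 2`. -/
def Sp2 (G : SimpleGraph V) (C : Finset V) : Prop := Clq G 2 C ∨ Cy G C

/-- No closed special subset for `k = 2`. -/
def NoSp2 (G : SimpleGraph V) (U : Finset V) : Prop := ∀ C, Sp2 G C → ¬ Cl G C U

theorem Sp2.conn {C : Finset V} (h : Sp2 G C) : Conn G C :=
  h.elim (fun h => (h.sp (by omega)).conn (by omega)) Cy.conn

theorem Sp2.card {C : Finset V} (h : Sp2 G C) : C.card = 2 ∨ C.card = 5 :=
  h.imp (fun h => h.1) fun h => h.1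

theorem Sp2.nonempty {C : Finset V} (h : Sp2 G C) : C.Nonempty :=
  card_pos.1 (by have := h.card; omega)

theorem NoSp2.of_cl {U C : Finset V} (h : NoSp2 G U) (hC : Cl G C U) : NoSp2 G C :=
  fun C' h1 h2 => h C' h1 (h2.trans hC)

theorem Sp.clq2 {C : Finset V} (h : Sp G 2 C) : Clq G 2 C := by
  obtain ⟨x, hx⟩ := h.1
  have h1 := h.2.2 x hx
  obtain ⟨y, hy⟩ : (nb G C x).Nonempty := card_pos.1 (by omega)
  have hy' := mem_nb.1 hy
  have h2 := h.2.2 y hy'.1
  have hcl : Cl G {x, y} C := by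
    refine ⟨by simp [insert_subset_iff, hx, hy'.1], fun a ha b hb hab => ?_⟩
    simp only [mem_insert, mem_singleton] at ha ⊢
    rcases ha with rfl | rfl
    · exact Or.inr (card_le_one.1 (by omega) b (mem_nb.2 ⟨hb, hab⟩) y hy)
    · exact Or.inl (card_le_one.1 (by omega) b (mem_nb.2 ⟨hb, hab⟩) x
        (mem_nb.2 ⟨hx, hy'.2.symm⟩))
  have := congrArg card (h.conn (by omega) _ hcl (by simp))
  exact h.clq (by rw [← this]; exact card_le_two)

theorem Clq.pair {C : Finset V} (h : Clq G 2 C) {w : V} (hw : w ∈ C) :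
    ∃ w', G.Adj w w' ∧ ∀ x, x ∈ C ↔ x = w ∨ x = w' := by
  obtain ⟨w', hw', hne⟩ := exists_mem_ne (s := C) (by rw [h.1]; omega) w
  have hs : ({w, w'} : Finset V) ⊆ C := by simp [insert_subset_iff, hw, hw']
  have he := eq_of_subset_of_card_le hs (by rw [card_pair hne.symm, h.1])
  exact ⟨w', h.2 w hw w' hw' hne.symm, fun x => by rw [← he]; simp⟩

theorem Sp2.iso_link {C : Finset V} (h : Sp2 G C) {y q : V} (hq : q ∈ C) (hyq : G.Adj y q) :
    ∃ E ⊆ C, Free G 2 (rem G C (insert y E)) ∧ 3 * E.card + 2 = C.card := by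
  rcases h with h | h
  · exact ⟨∅, empty_subset _, free_small (rem_small h.1.le hq (Or.inr hyq)), by simp [h.1]⟩
  · obtain ⟨b, c, d, e, p⟩ := h.pent hq
    refine ⟨{c}, singleton_subset_iff.2 p.hc, (free_small (X := {e}) (by simp)).mono
      fun x hx => ?_, by simp [h.1]⟩
    simp only [mem_rem, mem_insert, mem_singleton, forall_eq_or_imp, forall_eq, p.mem] at hx ⊢
    rcases hx with ⟨rfl | rfl | rfl | rfl | rfl, h1, h2⟩
    exacts [absurd hyq h1.2, absurd p.bc.symm h2.2, absurd rfl h2.1, absurd p.cd h2.2, rfl]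

theorem Sp2.iso_full {C : Finset V} (h : Sp2 G C) :
    ∃ E : Finset V, Free G 2 (rem G C E) ∧ 3 * E.card ≤ C.card + 1 := by
  obtain ⟨x, hx⟩ := h.nonempty
  obtain ⟨q, hq, hxq⟩ : ∃ q ∈ C, G.Adj x q := by
    rcases h with h | h
    · obtain ⟨w', h1, h2⟩ := h.pair hx
      exact ⟨w', (h2 _).2 (Or.inr rfl), h1⟩
    · obtain ⟨z, h1, -, h2⟩ := h.other hx x
      exact ⟨z, h1, h2⟩
  obtain ⟨E, -, h1, h2⟩ := h.iso_link hq hxq
  exact ⟨insert x E, h1, by have := card_insert_le x E; omega⟩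

end Pool.Agent.IsoKer
end

-- merged part: Pool.Agent.Work.MP_1346a1_co.TwoBlock
section
/-! The block lemma and the link lemma for `k = 2`. -/

namespace Pool.Agent.IsoKer

open Finset
open scoped Classical

variable {V : Type*} {G : SimpleGraph V}

theorem HasSys.bk {k : ℕ} {U Bx : Finset V} {x : V} (hk : 1 ≤ k) (h : HasSys G k (U \ Bx))
    (hb : Bk G k x Bx) (hB : Bx ⊆ U) : HasSys G k U :=
  h.extend_block hk hb.mem hB hb.dom hb.card

theorem bk3 {a b c : V} (h1 : G.Adj b a) (h2 : G.Adj b c) (h : a ≠ c) : Bk G 2 b {a, b, c} :=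
  ⟨by simp, by rw [card_insert_of_notMem (by simp [h1.ne.symm, h]), card_pair h2.ne], by
    intro y hy
    simp only [mem_insert, mem_singleton] at hy
    rcases hy with rfl | rfl | rfl
    exacts [Or.inr h1, Or.inl rfl, Or.inr h2]⟩

theorem three_nb {C : Finset V} {x a b c z : V} (h : (nb G C x).card ≤ 3) (ha : a ∈ C)
    (hb : b ∈ C) (hc : c ∈ C) (hz : z ∈ C) (hab : a ≠ b) (hac : a ≠ c) (hbc : b ≠ c)
    (h1 : G.Adj x a) (h2 : G.Adj x b) (h3 : G.Adj x c) (h4 : G.Adj x z) :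
    z = a ∨ z = b ∨ z = c := by
  have hs : ({a, b, c} : Finset V) ⊆ nb G C x := by
    simp [insert_subset_iff, ha, hb, hc, h1, h2, h3]
  have he := eq_of_subset_of_card_le hs (by
    rw [card_insert_of_notMem (by simp [hab, hac]), card_pair hbc]; exact h)
  have : z ∈ ({a, b, c} : Finset V) := he ▸ mem_nb.2 ⟨hz, h4⟩
  simpa using this

theorem free2_pair {a b : V} (h : ¬ G.Adj a b) : Free G 2 {a, b} := by
  refine free2_iff.2 fun x hx y hy hxy => ?_
  simp only [mem_insert, mem_singleton] at hx hy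
  rcases hx with rfl | rfl <;> rcases hy with rfl | rfl
  exacts [hxy.ne rfl, h hxy, h hxy.symm, hxy.ne rfl]

theorem step_cy {U C : Finset V} {y : V} (hU : Conn G U) (hy : y ∈ U) (hC : Cy G C)
    (hcl : Cl G C (U.erase y))
    (IH : ∀ U', U'.card < U.card → NoSp2 G U' → HasSys G 2 U') : HasSys G 2 U := by
  have hyC : y ∉ C := fun h => by simpa using hcl.1 h
  have hCU : C ⊆ U := hcl.1.trans (erase_subset _ _)
  have hout : ∀ x ∈ C, ∀ z ∈ U, G.Adj x z → z ∈ C ∨ z = y := fun x hx z hz hxz => by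
    by_cases e : z = y
    exacts [Or.inr e, Or.inl (hcl.2 x hx z (mem_erase.2 ⟨e, hz⟩) hxz)]
  obtain ⟨a, ha, z, hz, hzC, haz⟩ := hU.exists_edge hCU (Sp2.nonempty (Or.inr hC)) hy hyC
  have hzy : z = y := (hout a ha z hz haz).resolve_left hzC
  subst hzy
  obtain ⟨b, c, d, e, p⟩ := hC.pent ha
  have hB : ({b, c, d} : Finset V) ⊆ U := by
    simp [insert_subset_iff, hCU p.hb, hCU p.hc, hCU p.hd]
  have hmem : ∀ x ∈ U, x ∉ C ∨ x = a ∨ x = e → x ∈ U \ {b, c, d} := by
    intro x hx h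
    simp only [mem_sdiff, mem_insert, mem_singleton, not_or]
    refine ⟨hx, ?_⟩
    rcases h with h | rfl | rfl
    · exact ⟨fun e1 => h (e1 ▸ p.hb), fun e1 => h (e1 ▸ p.hc), fun e1 => h (e1 ▸ p.hd)⟩
    · exact ⟨p.ab.ne, p.nac, p.nad⟩
    · exact ⟨p.nbe.symm, p.nce.symm, p.de.ne.symm⟩
  have hmem' : ∀ x ∈ U \ {b, c, d}, x ∈ C → x = a ∨ x = e := by
    intro x hx hxC
    simp only [mem_sdiff, mem_insert, mem_singleton, not_or] at hx
    have := (p.mem x).1 hxC
    tauto
  refine HasSys.bk (by omega) (IH _ ?_ fun C' hC' hcl' => ?_) p.bk hB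
  · have := card_sdiff_add_card_eq_card hB
    have := p.bk.card
    omega
  have mz := hmem z hz (Or.inl hzC)
  have ma := hmem a (hCU ha) (Or.inr (Or.inl rfl))
  have me := hmem e (hCU p.he) (Or.inr (Or.inr rfl))
  by_cases hzC' : z ∈ C'
  · have ha' : a ∈ C' := hcl'.2 z hzC' a ma haz.symm
    have he' : e ∈ C' := hcl'.2 a ha' e me p.ea.symm
    have hez : e ≠ z := fun e1 => hzC (e1 ▸ p.he)
    rcases hC' with h | h
    · obtain ⟨w', -, h2⟩ := h.pair ha'
      rcases (h2 z).1 hzC' with h3 | h3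
      · exact haz.ne h3.symm
      · rcases (h2 e).1 he' with h4 | h4
        exacts [p.ea.ne h4, hez (h4.trans h3.symm)]
    · obtain ⟨t, ht, hta, het⟩ := h.other he' a
      rcases hout e p.he t (mem_sdiff.1 (hcl'.1 ht)).1 het with h3 | h3
      · rcases hmem' t (hcl'.1 ht) h3 with h4 | h4
        exacts [hta h4, het.ne h4.symm]
      · exact h.no_triangle ha' hzC' he' haz (h3 ▸ het.symm) p.ea
  · have hd : ∀ x ∈ C', x ∉ C := by
      intro x hx hxC
      have ha' : a ∈ C' := by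
        rcases hmem' x (hcl'.1 hx) hxC with h3 | h3
        exacts [h3 ▸ hx, hcl'.2 x hx a ma (h3 ▸ p.ea)]
      exact hzC' (hcl'.2 a ha' z mz haz)
    have := hU C' ⟨hcl'.1.trans sdiff_subset, fun x hx t ht hxt => ?_⟩ hC'.nonempty
    · exact hzC' (this ▸ hz)
    · refine hcl'.2 x hx t (hmem t ht (Or.inl fun htC => ?_)) hxt
      rcases hout t htC x (mem_sdiff.1 (hcl'.1 hx)).1 hxt.symm with h3 | h3
      exacts [hd x hx h3, hzC' (h3 ▸ hx)]

/-- The last induction step for `k = 2`. -/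
structure Top2 (G : SimpleGraph V) (U C : Finset V) (v : V) : Prop where
  conn : Conn G U
  nosp : NoSp2 G U
  pend : ∀ y ∈ U, NoSp2 G (U.erase y)
  hv : v ∈ U
  max : ∀ x ∈ U, (nb G U x).card ≤ (nb G U v).card
  sp : Sp2 G C
  cl : Cl G C (rem G U {v})

/-- A link whose removal leaves a closed special set, `k = 2`. -/
structure Fail2 (G : SimpleGraph V) (U C : Finset V) (w y : V) (C' : Finset V) : Prop where
  hw : w ∈ C
  hy : y ∈ U
  hyC : y ∉ C
  adj : G.Adj w y
  sp : Sp2 G C'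
  cl : Cl G C' (U \ insert y C)

namespace Top2

variable {U C : Finset V} {v : V}

theorem sub (h : Top2 G U C v) : C ⊆ U := h.cl.1.trans (rem_sub _ _)

theorem ne_v (h : Top2 G U C v) {x : V} (hx : x ∈ C) : x ≠ v := (mem_rem1.1 (h.cl.1 hx)).2.1

theorem nadj (h : Top2 G U C v) {x : V} (hx : x ∈ C) : ¬ G.Adj v x :=
  (mem_rem1.1 (h.cl.1 hx)).2.2

theorem out (h : Top2 G U C v) {x z : V} (hx : x ∈ C) (hz : z ∈ U) (hzC : z ∉ C)
    (hxz : G.Adj x z) : G.Adj v z := by
  by_contra hcon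
  refine hzC (h.cl.2 x hx z (mem_rem1.2 ⟨hz, ?_, hcon⟩) hxz)
  rintro rfl
  exact h.nadj hx hxz.symm

theorem two_links (h : Top2 G U C v) : ∃ y y' w w', y ≠ y' ∧ w ∈ C ∧ w' ∈ C ∧ y ∈ U ∧ y' ∈ U ∧
    y ∉ C ∧ y' ∉ C ∧ G.Adj w y ∧ G.Adj w' y' := by
  obtain ⟨w, hw, y, hy, hyC, hwy⟩ :=
    h.conn.exists_edge h.sub h.sp.nonempty h.hv (fun hh => h.ne_v hh rfl)
  by_contra hcon
  refine h.pend y hy C h.sp ⟨fun x hx => mem_erase.2 ⟨fun e => hyC (e ▸ hx), h.sub hx⟩,
    fun x hx z hz hxz => ?_⟩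
  by_contra hzC
  rw [mem_erase] at hz
  exact hcon ⟨y, z, w, x, hz.1.symm, hw, hx, hy, hz.2, hyC, hzC, hwy, hxz⟩

theorem success (h : Top2 G U C v) {w y : V} (hw : w ∈ C) (hy : y ∈ U) (hyC : y ∉ C)
    (hwy : G.Adj w y) (h' : HasSys G 2 (U \ insert y C)) : HasSys G 2 U := by
  rcases h.sp with hq | hq
  · refine HasSys.bk (x := w) (by omega) h' ⟨mem_insert_of_mem hw,
      by rw [card_insert_of_notMem hyC, hq.1], fun z hz => ?_⟩ (insert_subset hy h.sub)
    rcases mem_insert.1 hz with rfl | hz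
    · exact Or.inr hwy
    · by_cases e : z = w
      exacts [Or.inl e, Or.inr (hq.2 w hw z hz (Ne.symm e))]
  · obtain ⟨b, c, d, e, p⟩ := hq.pent hw
    have n : ∀ x ∈ C, x ≠ y := fun x hx e1 => hyC (e1 ▸ hx)
    refine HasSys.bk (by omega) (HasSys.bk (by omega) ?_ p.bk ?_)
      (bk3 hwy p.ea.symm (n e p.he).symm)
      (by simp [insert_subset_iff, hy, h.sub hw, h.sub p.he])
    · convert h' using 1
      ext x
      simp only [mem_sdiff, mem_insert, mem_singleton, p.mem]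
      grind
    · simp [insert_subset_iff, h.sub p.hb, h.sub p.hc, h.sub p.hd, n b p.hb, n c p.hc, n d p.hd,
        p.ab.ne.symm, p.nac.symm, p.nad.symm, p.nbe, p.nce, p.de.ne]

end Top2

namespace Fail2

variable {U C C' : Finset V} {v w y : V}

theorem sub (f : Fail2 G U C w y C') : C' ⊆ U := f.cl.1.trans sdiff_subset

theorem y_not (f : Fail2 G U C w y C') : y ∉ C' :=
  fun hh => (mem_sdiff.1 (f.cl.1 hh)).2 (mem_insert_self _ _)

theorem disj (f : Fail2 G U C w y C') {x : V} (hx : x ∈ C') : x ∉ C :=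
  fun hh => (mem_sdiff.1 (f.cl.1 hx)).2 (mem_insert_of_mem hh)

theorem closed (f : Fail2 G U C w y C') {x z : V} (hx : x ∈ C') (hz : z ∈ U) (hzC : z ∉ C)
    (hzy : z ≠ y) (hxz : G.Adj x z) : z ∈ C' :=
  f.cl.2 x hx z (mem_sdiff.2 ⟨hz, by simp [hzC, hzy]⟩) hxz

theorem v_mem (h : Top2 G U C v) (f : Fail2 G U C w y C') : v ∈ C' := by
  by_contra hv
  have hvy : G.Adj v y := h.out f.hw f.hy f.hyC f.adj
  refine h.pend y f.hy C' f.sp ⟨fun x hx => mem_erase.2 ⟨fun e => f.y_not (e ▸ hx), f.sub hx⟩,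
    fun x hx z hz hxz => ?_⟩
  rw [mem_erase] at hz
  refine f.closed hx hz.2 (fun hzC => hv ?_) hz.1 hxz
  exact f.closed hx h.hv (fun hh => h.ne_v hh rfl) hvy.ne
    (h.out hzC (f.sub hx) (f.disj hx) hxz.symm).symm

theorem nb_v (h : Top2 G U C v) (f : Fail2 G U C w y C') {z : V} (hz : z ∈ U)
    (hvz : G.Adj v z) (hzy : z ≠ y) : z ∈ C' :=
  f.closed (f.v_mem h) hz (fun hh => h.nadj hh hvz) hzy hvz

theorem deg (h : Top2 G U C v) (f : Fail2 G U C w y C') {x : V} (hx : x ∈ U) :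
    (nb G U x).card ≤ (nb G C' v).card + 1 := by
  have hs : nb G U v ⊆ insert y (nb G C' v) := fun z hz => by
    rw [mem_nb] at hz
    by_cases hzy : z = y
    · exact mem_insert.2 (Or.inl hzy)
    · exact mem_insert_of_mem (mem_nb.2 ⟨f.nb_v h hz.1 hz.2 hzy, hz.2⟩)
  exact (h.max x hx).trans ((card_le_card hs).trans (card_insert_le _ _))

theorem clq_false (h : Top2 G U C v) (f : Fail2 G U C w y C') (hq : Clq G 2 C') {w' y' : V}
    (hw' : w' ∈ C) (hy' : y' ∈ U) (hy'C : y' ∉ C) (adj' : G.Adj w' y') (hne : y ≠ y') :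
    False := by
  have hvy : G.Adj v y := h.out f.hw f.hy f.hyC f.adj
  have hvy' : G.Adj v y' := h.out hw' hy' hy'C adj'
  have hd : ∀ x ∈ U, (nb G U x).card ≤ 2 := fun x hx => by
    have := f.deg h hx
    have := (hq.sp (by omega)).2.2 v (f.v_mem h)
    omega
  have n : ∀ x ∈ C, ∀ z, z ∉ C → x ≠ z := fun x hx z hz e => hz (e ▸ hx)
  rcases h.sp with hC | hC
  · obtain ⟨w2, hw2, hm⟩ := hC.pair f.hw
    have m2 : w2 ∈ C := (hm _).2 (Or.inr rfl)
    have Nw : ∀ z ∈ U, G.Adj w z → z = w2 ∨ z = y := fun z hz =>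
      two_nb (hd w (h.sub f.hw)) (h.sub m2) f.hy hz (n _ m2 _ f.hyC) hw2 f.adj
    have e : w' = w2 := by
      rcases (hm w').1 hw' with e | e
      · rcases Nw y' hy' (e ▸ adj') with e1 | e1
        exacts [absurd e1.symm (n _ m2 _ hy'C), absurd e1.symm hne]
      · exact e
    subst e
    have Nw' : ∀ z ∈ U, G.Adj w' z → z = w ∨ z = y' := fun z hz =>
      two_nb (hd w' (h.sub hw')) (h.sub f.hw) hy' hz (n _ f.hw _ hy'C) hw2.symm adj'
    have Ny : ∀ z ∈ U, G.Adj y z → z = v ∨ z = w := fun z hz =>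
      two_nb (hd y f.hy) h.hv (h.sub f.hw) hz (h.ne_v f.hw).symm hvy.symm f.adj.symm
    have Ny' : ∀ z ∈ U, G.Adj y' z → z = v ∨ z = w' := fun z hz =>
      two_nb (hd y' hy') h.hv (h.sub hw') hz (h.ne_v hw').symm hvy'.symm adj'.symm
    have Nv : ∀ z ∈ U, G.Adj v z → z = y ∨ z = y' := fun z hz =>
      two_nb (hd v h.hv) f.hy hy' hz hne hvy hvy'
    have p : Pent G {v, y, w, w', y'} v y w w' y' :=
      ⟨by simp, hvy, f.adj.symm, hw2, adj', hvy'.symm, h.nadj f.hw, h.nadj hw',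
        fun hh => (Ny w' (h.sub hw') hh).elim (h.ne_v hw') hw2.ne.symm,
        fun hh => (Ny y' hy' hh).elim hvy'.ne.symm (n _ f.hw _ hy'C).symm,
        fun hh => (Nw y' hy' hh).elim (n _ hw' _ hy'C).symm hne.symm⟩
    refine h.nosp _ (Or.inr p.cy) ⟨by
      simp [insert_subset_iff, h.hv, f.hy, hy', h.sub f.hw, h.sub hw'], fun x hx z hz hxz => ?_⟩
    rw [p.mem] at hx ⊢
    rcases hx with rfl | rfl | rfl | rfl | rfl
    · have := Nv z hz hxz; tauto
    · have := Ny z hz hxz; tauto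
    · have := Nw z hz hxz; tauto
    · have := Nw' z hz hxz; tauto
    · have := Ny' z hz hxz; tauto
  · obtain ⟨b, c, d, e, p⟩ := hC.pent f.hw
    rcases two_nb (hd w (h.sub f.hw)) (h.sub p.hb) (h.sub p.he) f.hy p.nbe p.ab p.ea.symm f.adj
      with e1 | e1
    exacts [f.hyC (e1 ▸ p.hb), f.hyC (e1 ▸ p.he)]

theorem cy_sys (h : Top2 G U C v) (f : Fail2 G U C w y C') (hq : Cy G C') {w' y' : V}
    {C'' : Finset V} (f' : Fail2 G U C w' y' C'') (hq' : Cy G C'') (hne : y ≠ y') :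
    HasSys G 2 U := by
  have hvy : G.Adj v y := h.out f.hw f.hy f.hyC f.adj
  have hvy' : G.Adj v y' := h.out f'.hw f'.hy f'.hyC f'.adj
  have hd : ∀ x ∈ U, (nb G U x).card ≤ 3 := fun x hx => by
    have := f.deg h hx
    have := hq.2 v (f.v_mem h)
    omega
  have my' : y' ∈ C' := f.nb_v h f'.hy hvy' hne.symm
  obtain ⟨s, hs, hsy, hvs⟩ := hq.other (f.v_mem h) y'
  obtain ⟨a, b, p⟩ := hq.pent' (f.v_mem h) my' hs hvy' hvs hsy.symm
  have n : ∀ x ∈ C', x ≠ y := fun x hx e => f.y_not (e ▸ hx)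
  have m1 : y ∈ C'' := f'.nb_v h f.hy hvy hne
  have m2 : s ∈ C'' := f'.nb_v h (f.sub hs) hvs hsy
  have m3 : b ∈ C'' := f'.closed m2 (f.sub p.hd) (f.disj p.hd) p.nbd.symm p.de.symm
  have m4 : a ∈ C'' := f'.closed m3 (f.sub p.hc) (f.disj p.hc) p.bc.ne.symm p.cd.symm
  have hya : G.Adj y a := by
    have hsub : ({y, v, a, b, s} : Finset V) ⊆ C'' := by
      simp [insert_subset_iff, m1, m2, m3, m4, f'.v_mem h]
    have hc : ({y, v, a, b, s} : Finset V).card = 5 := by
      rw [card_insert_of_notMem (by simp [hvy.ne.symm, (n _ p.hc).symm, (n _ p.hd).symm,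
        (n _ hs).symm]), card_insert_of_notMem (by simp [p.nac, p.nad, hvs.ne]),
        card_insert_of_notMem (by simp [p.cd.ne, p.nce]), card_pair p.de.ne]
    have he := eq_of_subset_of_card_le hsub (by rw [hc, hq'.1])
    obtain ⟨z, hz, hzv, hyz⟩ := hq'.other m1 v
    have hz' := hz
    rw [← he] at hz'
    simp only [mem_insert, mem_singleton] at hz'
    rcases hz' with rfl | rfl | rfl | rfl | rfl
    · exact absurd rfl hyz.ne
    · exact absurd rfl hzv
    · exact hyz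
    · rcases two_nb (hq'.2 _ m3).le m4 m2 m1 p.nce p.cd.symm p.de hyz.symm with e | e
      exacts [absurd e.symm (n _ p.hc), absurd e.symm (n _ hs)]
    · exact (hq'.no_triangle (f'.v_mem h) m1 m2 hvy hyz hvs.symm).elim
  have nC : ∀ x ∈ C', ∀ z ∈ C, x ≠ z := fun x hx z hz e => f.disj hx (e ▸ hz)
  have hcl : Cl G (C ∪ insert y C') U := by
    refine ⟨union_subset h.sub (insert_subset f.hy f.sub), fun x hx z hz hxz => ?_⟩
    rw [mem_union, mem_insert] at hx ⊢
    by_cases hzC : z ∈ C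
    · exact Or.inl hzC
    by_cases hzy : z = y
    · exact Or.inr (Or.inl hzy)
    refine Or.inr (Or.inr ?_)
    rcases hx with hx | rfl | hx
    · exact f.nb_v h hz (h.out hx hz hzC hxz) hzy
    · rcases three_nb (hd _ f.hy) h.hv (f.sub p.hc) (h.sub f.hw) hz p.nac (h.ne_v f.hw).symm
        (nC _ p.hc _ f.hw) hvy.symm hya f.adj.symm hxz with e | e | e
      exacts [e ▸ p.ha, e ▸ p.hc, absurd (e ▸ f.hw) hzC]
    · exact f.closed hx hz hzC hzy hxz
  have hU := h.conn _ hcl ⟨y, by simp⟩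
  have hb : ∀ z ∈ C, ¬ G.Adj b z := fun z hz hh =>
    p.ad (h.out hz (f.sub p.hd) (f.disj p.hd) hh.symm)
  have hrest : ∀ x ∈ (U \ {a, y, w}) \ {y', v, s}, x = b ∨ (x ∈ C ∧ x ≠ w) := by
    intro x hx
    simp only [mem_sdiff, mem_insert, mem_singleton, not_or] at hx
    have h1 := hx.1.1
    rw [← hU, mem_union, mem_insert, p.mem] at h1
    tauto
  refine HasSys.bk (by omega) (HasSys.bk (by omega) ?_ (bk3 hvy' hvs hsy.symm) ?_)
    (bk3 hya f.adj.symm (nC _ p.hc _ f.hw))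
    (by simp [insert_subset_iff, f.hy, h.sub f.hw, f.sub p.hc])
  swap
  · simp [insert_subset_iff, f'.hy, h.hv, f.sub hs, p.bc.ne, hne.symm, nC _ my' _ f.hw, p.nac,
      hvy.ne, (h.ne_v f.hw).symm, p.nce.symm, n _ hs, nC _ hs _ f.hw]
  rcases h.sp with hC | hC
  · obtain ⟨w2, hw2, hm⟩ := hC.pair f.hw
    refine hasSys_of_free ((free2_pair (hb w2 ((hm _).2 (Or.inr rfl)))).mono fun x hx => ?_)
    have := hrest x hx
    rw [hm] at this
    simp only [mem_insert, mem_singleton]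
    tauto
  · obtain ⟨z2, z3, z4, z5, q⟩ := hC.pent f.hw
    refine HasSys.bk (by omega) (hasSys_of_free ((free2_pair (hb z5 q.he)).mono fun x hx => ?_))
      q.bk fun x hx => ?_
    · have := hrest x (mem_sdiff.1 hx).1
      have h2 := (mem_sdiff.1 hx).2
      rw [q.mem] at this
      simp only [mem_insert, mem_singleton] at h2 ⊢
      tauto
    · have hxC : x ∈ C ∧ x ≠ w := by
        simp only [mem_insert, mem_singleton] at hx
        rcases hx with rfl | rfl | rfl
        exacts [⟨q.hb, q.ab.ne.symm⟩, ⟨q.hc, q.nac.symm⟩, ⟨q.hd, q.nad.symm⟩]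
      simp only [mem_sdiff, mem_insert, mem_singleton, not_or]
      exact ⟨⟨h.sub hxC.1, (nC _ p.hc _ hxC.1).symm, fun e => f.hyC (e ▸ hxC.1), hxC.2⟩,
        (nC _ my' _ hxC.1).symm, h.ne_v hxC.1, (nC _ hs _ hxC.1).symm⟩

end Fail2

theorem Top2.hasSys {U C : Finset V} {v : V} (h : Top2 G U C v)
    (IH : ∀ U', U'.card < U.card → NoSp2 G U' → HasSys G 2 U') : HasSys G 2 U := by
  obtain ⟨y, y', w, w', hne, hw, hw', hy, hy', hyC, hy'C, hwy, hwy'⟩ := h.two_links
  have hlt : ∀ z ∈ U, (U \ insert z C).card < U.card := fun z hz =>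
    card_lt_card ⟨sdiff_subset, fun hh => (mem_sdiff.1 (hh hz)).2 (mem_insert_self _ _)⟩
  by_cases h1 : NoSp2 G (U \ insert y C)
  · exact h.success hw hy hyC hwy (IH _ (hlt y hy) h1)
  by_cases h2 : NoSp2 G (U \ insert y' C)
  · exact h.success hw' hy' hy'C hwy' (IH _ (hlt y' hy') h2)
  simp only [NoSp2, not_forall, not_not] at h1 h2
  obtain ⟨C', s1, c1⟩ := h1
  obtain ⟨C'', s2, c2⟩ := h2
  have f : Fail2 G U C w y C' := ⟨hw, hy, hyC, hwy, s1, c1⟩
  have f' : Fail2 G U C w' y' C'' := ⟨hw', hy', hy'C, hwy', s2, c2⟩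
  rcases s1 with s1 | s1
  · exact (f.clq_false h s1 hw' hy' hy'C hwy' hne).elim
  rcases s2 with s2 | s2
  · exact (f'.clq_false h s2 hw hy hyC hwy hne.symm).elim
  exact f.cy_sys h s1 f' s2 hne

/-- The block lemma for `k = 2`. -/
theorem hasSys2 (U : Finset V) (hU : NoSp2 G U) : HasSys G 2 U := by
  induction hn : U.card using Nat.strong_induction_on generalizing U with
  | _ n ih =>
  have IH : ∀ U', U'.card < U.card → NoSp2 G U' → HasSys G 2 U' :=
    fun U' h1 h2 => ih _ (hn ▸ h1) U' h2 rfl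
  by_cases hconn : Conn G U
  swap
  · simp only [Conn, not_forall] at hconn
    obtain ⟨T, hT, hne, hTU⟩ := hconn
    have h1 := card_lt_card (ssubset_of_subset_of_ne hT.1 hTU)
    have h2 := card_sdiff_add_card_eq_card hT.1
    have h3 := card_pos.2 hne
    exact HasSys.union hT (IH _ h1 (hU.of_cl hT)) (IH _ (by omega) (hU.of_cl hT.sdiff))
  by_cases hlow : ∀ x ∈ U, (nb G U x).card < 2
  · exact step_low (by omega) hconn
      (fun hs => hU U (Or.inl hs.clq2) ⟨subset_rfl, fun _ _ _ hy _ => hy⟩) hlow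
  by_cases hcy : ∃ y ∈ U, ∃ C, Cy G C ∧ Cl G C (U.erase y)
  · obtain ⟨y, hy, C, h1, h2⟩ := hcy
    exact step_cy hconn hy h1 h2 IH
  by_cases hpend : ∀ y ∈ U, NoSp2 G (U.erase y)
  swap
  · simp only [NoSp2, not_forall, not_not] at hpend
    obtain ⟨y, hy, C, hC, hcl⟩ := hpend
    rcases hC with hC | hC
    swap
    · exact absurd ⟨y, hy, C, hC, hcl⟩ hcy
    refine step_pendant (by omega) hconn hy (hC.sp (by omega)) hcl (IH _ (lt_of_le_of_lt
      (card_le_card sdiff_subset) (card_erase_lt_of_mem hy)) fun C' h1 h2 => ?_)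
    rcases h1 with h1 | h1
    · exact spU_noSp _ C' (h1.sp (by omega)) h2
    · exact hcy ⟨y, hy, C', h1, h2.trans (spU_cl _).sdiff⟩
  push Not at hlow
  obtain ⟨x, hx, hxk⟩ := hlow
  obtain ⟨v, hv, hmax⟩ := exists_max_image U (fun x => (nb G U x).card) ⟨x, hx⟩
  have hbig : 2 ≤ (nb G U v).card := hxk.trans (hmax x hx)
  by_cases hrem : NoSp2 G (rem G U {v})
  · obtain ⟨A, hA, hAc⟩ := exists_subset_card_eq hbig
    have hvA : v ∉ A := fun hh => not_mem_nb_self _ _ (hA hh)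
    have h1 := rem_card (G := G) hv
    have hc : (insert v A).card = 2 + 1 := by rw [card_insert_of_notMem hvA, hAc]
    have hdom : ∀ y ∈ insert v A, y = v ∨ G.Adj v y := fun y hy => by
      rcases mem_insert.1 hy with h2 | h2
      exacts [Or.inl h2, Or.inr (mem_nb.1 (hA h2)).2]
    refine (IH _ (by omega) hrem).extend (Bx := insert v A) (Y := ∅) (rem_sub _ _)
      (mem_insert_self v A) (insert_subset hv (hA.trans (nb_sub _ _)))
      (disjoint_left.2 fun a ha ha' => ?_) hdom hc.le (by omega)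
      (free_empty (by omega)) (fun _ _ _ hb => absurd hb (notMem_empty _)) subset_union_left
    rw [mem_rem1] at ha'
    exact (hdom a ha).elim ha'.2.1 ha'.2.2
  · simp only [NoSp2, not_forall, not_not] at hrem
    obtain ⟨C, hC, hcl⟩ := hrem
    exact Top2.hasSys ⟨hconn, hU, hpend, hv, hmax, hC, hcl⟩ IH

theorem bound2 (U : Finset V) (hU : NoSp2 G U) :
    ∃ D : Finset V, Free G 2 (rem G U D) ∧ 3 * D.card ≤ U.card := by
  obtain ⟨D, B, h⟩ := hasSys2 U hU
  exact ⟨D, h.iso, h.bound⟩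

theorem free_rem_cl {k : ℕ} {U C D E : Finset V} (hC : Cl G C U)
    (h1 : Free G k (rem G (U \ C) D)) (h2 : Free G k (rem G C E)) :
    Free G k (rem G U (D ∪ E)) :=
  free_rem_union h1 h2 hC.na (by rw [sdiff_union_of_subset hC.1])

/-- The link lemma for `k = 2`. -/
theorem link2 (U M : Finset V)
    (h : ∀ Q, Sp2 G Q → Cl G Q U → 2 ≤ (lk G M Q).card ∨
      (Q.card = 5 ∧ ∃ y, Free G 2 (rem G Q {y}))) :
    ∃ D : Finset V, Free G 2 (rem G U D) ∧ 2 * (3 * D.card) ≤ 2 * U.card + M.card := by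
  induction hn : U.card using Nat.strong_induction_on generalizing U M with
  | _ n ih =>
  subst hn
  by_cases hU : NoSp2 G U
  · obtain ⟨D, h1, h2⟩ := bound2 U hU
    exact ⟨D, h1, by omega⟩
  simp only [NoSp2, not_forall, not_not] at hU
  obtain ⟨C, hC, hcl⟩ := hU
  have hcard := card_sdiff_add_card_eq_card hcl.1
  have hge := hC.card
  rcases h C hC hcl with h2 | ⟨h2, y, hy⟩
  swap
  · obtain ⟨D, hD, hi⟩ := ih _ (by omega) (U \ C) M
      (fun Q h1 h2 => h Q h1 (h2.trans hcl.sdiff)) rfl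
    refine ⟨D ∪ {y}, free_rem_cl hcl hD hy, ?_⟩
    have := card_union_le D {y}
    rw [card_singleton] at this
    omega
  by_cases hy : ∃ y ∈ lk G M C, ∃ Q, Sp2 G Q ∧ Cl G Q (U \ C) ∧ y ∈ lk G M Q
  · obtain ⟨y, hy, Q, hQ, hQcl, hyQ⟩ := hy
    have hcard2 := card_sdiff_add_card_eq_card hQcl.1
    obtain ⟨D, hD, hi⟩ := ih _ (by omega) ((U \ C) \ Q) M
      (fun Q' h1 h2 => h Q' h1 ((h2.trans hQcl.sdiff).trans hcl.sdiff)) rfl
    obtain ⟨-, q, hq1, hq2⟩ := mem_lk.1 hy
    obtain ⟨-, q', hq1', hq2'⟩ := mem_lk.1 hyQ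
    obtain ⟨E, -, e1, e2⟩ := hC.iso_link hq1 hq2
    obtain ⟨E', -, e1', e2'⟩ := hQ.iso_link hq1' hq2'
    refine ⟨insert y (D ∪ E' ∪ E), (free_rem_cl hcl (free_rem_cl hQcl hD e1') e1).mono
      (rem_mono subset_rfl fun x hx => ?_), ?_⟩
    · simp only [mem_union, mem_insert] at hx ⊢
      clear * - hx; grind
    · have := card_insert_le y (D ∪ E' ∪ E)
      have := card_union_le (D ∪ E') E
      have := card_union_le D E'
      omega
  · push Not at hy
    have hM := card_sdiff_add_card_eq_card (filter_subset (fun m => ∃ q ∈ C, G.Adj m q) M)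
    obtain ⟨D, hD, hi⟩ := ih _ (by omega) (U \ C) (M \ lk G M C) (fun Q h1 h3 => by
      refine (h Q h1 (h3.trans hcl.sdiff)).imp_left fun h4 =>
        h4.trans (card_le_card fun m hm => ?_)
      exact mem_lk.2 ⟨mem_sdiff.2 ⟨(mem_lk.1 hm).1, fun hh => hy m hh Q h1 h3 hm⟩,
        (mem_lk.1 hm).2⟩) rfl
    obtain ⟨E, e1, e2⟩ := hC.iso_full
    refine ⟨D ∪ E, free_rem_cl hcl hD e1, ?_⟩
    have := card_union_le D E
    change (M \ lk G M C).card + (lk G M C).card = M.card at hM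
    omega

end Pool.Agent.IsoKer
end

-- merged part: Pool.Agent.Work.MP_1346a1_co.TwoLocal
section
/-! Exclusion of long geodesics of good blocks for `k = 2`. -/

namespace Pool.Agent.IsoKer

open Finset
open scoped Classical

variable {V : Type*} {G : SimpleGraph V}

theorem Bk.conn {k : ℕ} {c : V} {B : Finset V} (h : Bk G k c B) : Conn G B := by
  intro T hT ⟨x, hx⟩
  have hc : c ∈ T := by
    rcases h.dom x (hT.1 hx) with e | e
    exacts [e ▸ hx, hT.2 x hx c h.mem e.symm]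
  refine Subset.antisymm hT.1 fun y hy => ?_
  rcases h.dom y hy with e | e
  exacts [e ▸ hc, hT.2 c hc y hy e]

theorem Conn.union {A B : Finset V} (hA : Conn G A) (hB : Conn G B) (h : ¬ NA G A B) :
    Conn G (A ∪ B) := by
  simp only [NA, not_forall, not_not] at h
  obtain ⟨a, ha, b, hb, hab⟩ := h
  intro T hT ⟨x, hx⟩
  have e1 : ∀ z ∈ T, z ∈ A → A ⊆ T := fun z hz hzA =>
    inter_eq_left.1 (hA _ (hT.inter subset_union_left) ⟨z, mem_inter.2 ⟨hzA, hz⟩⟩)
  have e2 : ∀ z ∈ T, z ∈ B → B ⊆ T := fun z hz hzB =>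
    inter_eq_left.1 (hB _ (hT.inter subset_union_right) ⟨z, mem_inter.2 ⟨hzB, hz⟩⟩)
  refine Subset.antisymm hT.1 ?_
  rcases mem_union.1 (hT.1 hx) with h1 | h1
  · have := e1 x hx h1
    exact union_subset this (e2 b (hT.2 a (this ha) b (mem_union_right _ hb) hab) hb)
  · have := e2 x hx h1
    exact union_subset (e1 a (hT.2 b (this hb) a (mem_union_left _ ha) hab.symm) ha) this

theorem mark3 {a1 a0 a z : V} {A1 A0 A : Finset V} (h1 : Bk G 2 a1 A1) (h0 : Bk G 2 a0 A0)
    (h : Bk G 2 a A) (d10 : Disjoint A1 A0) (d1 : Disjoint A1 A) (d0 : Disjoint A0 A)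
    (e : ¬ NA G A1 A0) (hnp : NP G 2 A A0) (hz : z ∈ A) :
    ∃ D : Finset V, D.card ≤ 2 ∧ Free G 2 (rem G ((A1 ∪ A0 ∪ A).erase z) D) := by
  have dd : Disjoint (A1 ∪ A0) A := disjoint_union_left.2 ⟨d1, d0⟩
  have hs0 : A1 ∪ A0 ⊆ (A1 ∪ A0 ∪ A).erase z := fun x hx =>
    mem_erase.2 ⟨fun e => disjoint_left.1 dd hx (e ▸ hz), mem_union_left _ hx⟩
  have hc : (A1 ∪ A0).card = 6 := by rw [card_union_of_disjoint d10, h1.card, h0.card]
  obtain ⟨D, f1, f2⟩ := bound2 (G := G) ((A1 ∪ A0 ∪ A).erase z) fun Q hQ hcl => by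
    have hQ0 : ∀ x ∈ Q, x ∉ A1 ∪ A0 := by
      intro x hx hx0
      have := card_le_card (inter_eq_left.1 ((h1.conn.union h0.conn e) _ (hcl.inter hs0)
        ⟨x, mem_inter.2 ⟨hx0, hx⟩⟩))
      have := hQ.card
      omega
    have hs : Q ⊆ A.erase z := fun x hx => by
      have := mem_erase.1 (hcl.1 hx)
      exact mem_erase.2 ⟨this.1, (mem_union.1 this.2).resolve_left (hQ0 x hx)⟩
    have h2 := card_le_card hs
    have h3 := h.erase_card hz
    have h4 := hQ.card
    have he : Q = A.erase z := eq_of_subset_of_card_le hs (by omega)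
    rcases hQ with hQ | hQ
    · refine hnp z hz (he ▸ hQ) fun x hx y hy hxy => ?_
      rw [← he] at hx
      exact hQ0 y (hcl.2 x hx y (hs0 (mem_union_right _ hy)) hxy) (mem_union_right _ hy)
    · have := hQ.1
      omega
  refine ⟨D, ?_, f1⟩
  rw [card_erase_of_mem (mem_union_right _ hz), card_union_of_disjoint dd, hc, h.card] at f2
  omega

theorem pp_sp {c y y' : V} {B C X : Finset V} {j : ℕ} (hc : Bk G 2 c C) (h : PP G 2 B C y y')
    (ht : Tight G 2 (j + 2) (X ∪ B ∪ C)) (hna : NA G X (C.erase y'))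
    (hX : (X ∪ B.erase y).card ≤ 3 * j + 2) (hconn : Conn G (X ∪ B.erase y)) :
    Sp2 G (X ∪ B.erase y) := by
  by_contra hcon
  obtain ⟨D, f1, f2⟩ := bound2 (G := G) (X ∪ B.erase y) fun Q hQ hcl =>
    hcon (hconn Q hcl hQ.nonempty ▸ hQ)
  have hna2 : NA G (X ∪ B.erase y) (C.erase y') :=
    hna.union_left (h.na.mono subset_rfl (erase_subset _ _))
  refine ht (insert y' D) (by have := card_insert_le y' D; omega)
    ((f1.union (free_small (hc.rem_small (by omega) h.hy'))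
      (hna2.mono (rem_sub _ _) (rem_sub _ _))).mono fun a ha => ?_)
  simp only [mem_rem, mem_union, mem_insert, mem_singleton, forall_eq_or_imp, forall_eq,
    mem_erase] at ha ⊢
  have : a ≠ y := fun e => ha.2.1.2 (e ▸ h.adj.symm)
  clear * - ha this; grind

/-- A family of good blocks for `k = 2`, tight in groups of at most seven. -/
structure Good2 (G : SimpleGraph V) (Gd : Finset V) (B : V → Finset V) : Prop where
  bk : ∀ x ∈ Gd, Bk G 2 x (B x)
  disj : ∀ x ∈ Gd, ∀ y ∈ Gd, x ≠ y → Disjoint (B x) (B y)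
  tight : ∀ J ⊆ Gd, J.card ≤ 7 → Tight G 2 J.card (J.biUnion B)

/-- A geodesic `x 0, ..., x n` in the block graph. -/
structure Geo (G : SimpleGraph V) (Gd : Finset V) (B : V → Finset V) (x : ℕ → V) (n : ℕ) :
    Prop where
  mem : ∀ i ≤ n, x i ∈ Gd
  adj : ∀ i < n, ¬ NA G (B (x i)) (B (x (i + 1)))
  ne : ∀ i j, i < j → j ≤ n → x i ≠ x j
  na : ∀ i j, i + 2 ≤ j → j ≤ n → NA G (B (x i)) (B (x j))
  far : ∀ a ∈ Gd, ∀ i j, i + 3 ≤ j → j ≤ n → NA G (B a) (B (x i)) ∨ NA G (B a) (B (x j))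

theorem Geo.shift {Gd : Finset V} {B : V → Finset V} {x : ℕ → V} {n : ℕ} (h : Geo G Gd B x n)
    (s m : ℕ) (hm : s + m ≤ n) : Geo G Gd B (fun i => x (s + i)) m :=
  ⟨fun i hi => h.mem _ (by omega), fun i hi => h.adj _ (by omega),
    fun i j h1 h2 => h.ne _ _ (by omega) (by omega),
    fun i j h1 h2 => h.na _ _ (by omega) (by omega),
    fun a ha i j h1 h2 => h.far a ha _ _ (by omega) (by omega)⟩

theorem Geo.rev {Gd : Finset V} {B : V → Finset V} {x : ℕ → V} {n : ℕ} (h : Geo G Gd B x n) :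
    Geo G Gd B (fun i => x (n - i)) n :=
  ⟨fun i hi => h.mem _ (by omega), fun i hi e => by
      have := h.adj (n - (i + 1)) (by omega)
      rw [show n - (i + 1) + 1 = n - i by omega] at this
      exact this e.symm,
    fun i j h1 h2 => (h.ne _ _ (by omega) (by omega)).symm,
    fun i j h1 h2 => (h.na _ _ (by omega) (by omega)).symm,
    fun a ha i j h1 h2 => (h.far a ha _ _ (by omega) (by omega)).symm⟩

/-- The block of `z` yields no pendant unit. -/
def Out2 (G : SimpleGraph V) (Gd : Finset V) (B : V → Finset V) (z : V) : Prop :=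
  ∀ y ∈ B z, Clq G 2 ((B z).erase y) → ∃ e ∈ Gd, e ≠ z ∧ ¬ NA G (B e) ((B z).erase y) ∧
    (Cy G (B e ∪ (B z).erase y) → ¬ Free G 2 (rem G (B e ∪ (B z).erase y) {y}) →
      ∃ f ∈ Gd, f ≠ e ∧ f ≠ z ∧ ¬ NA G (B f) (B e ∪ (B z).erase y))

namespace Good2

variable {Gd : Finset V} {B : V → Finset V}

theorem tl (h : Good2 G Gd B) (l : List V) (h1 : ∀ x ∈ l, x ∈ Gd) (h2 : l.Nodup)
    (h3 : l.length ≤ 7) {X : Finset V} (h4 : ∀ x ∈ l, B x ⊆ X) : Tight G 2 l.length X := by
  have := h.tight l.toFinset (fun x hx => h1 x (List.mem_toFinset.1 hx))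
    (by rw [List.toFinset_card_of_nodup h2]; exact h3)
  rw [List.toFinset_card_of_nodup h2] at this
  exact this.mono (biUnion_subset.2 fun x hx => h4 x (List.mem_toFinset.1 hx))

theorem t2 (h : Good2 G Gd B) {x y : V} (hx : x ∈ Gd) (hy : y ∈ Gd) (n : x ≠ y) :
    Tight G 2 2 (B x ∪ B y) :=
  h.tl [x, y] (by simp [hx, hy]) (by simp [n]) (by simp) (by simp)

theorem t3 (h : Good2 G Gd B) {x y z : V} (hx : x ∈ Gd) (hy : y ∈ Gd) (hz : z ∈ Gd)
    (n1 : x ≠ y) (n2 : x ≠ z) (n3 : y ≠ z) : Tight G 2 3 (B x ∪ B y ∪ B z) :=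
  h.tl [x, y, z] (by simp [hx, hy, hz]) (by simp [n1, n2, n3]) (by simp) (by
    simp only [List.mem_cons, List.not_mem_nil, or_false, forall_eq_or_imp, forall_eq]
    refine ⟨?_, ?_, ?_⟩ <;> intro a ha <;> simp [ha])

theorem t4 (h : Good2 G Gd B) {x y z w : V} (hx : x ∈ Gd) (hy : y ∈ Gd) (hz : z ∈ Gd)
    (hw : w ∈ Gd) (n1 : x ≠ y) (n2 : x ≠ z) (n3 : y ≠ z) (n4 : x ≠ w) (n5 : y ≠ w)
    (n6 : z ≠ w) : Tight G 2 4 (B x ∪ B y ∪ B z ∪ B w) :=
  h.tl [x, y, z, w] (by simp [hx, hy, hz, hw]) (by simp [n1, n2, n3, n4, n5, n6]) (by simp) (by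
    simp only [List.mem_cons, List.not_mem_nil, or_false, forall_eq_or_imp, forall_eq]
    refine ⟨?_, ?_, ?_, ?_⟩ <;> intro a ha <;> simp [ha])

theorem two_off (h : Good2 G Gd B) {a b f g : V} (ha : a ∈ Gd) (hb : b ∈ Gd) (hf : f ∈ Gd)
    (hg : g ∈ Gd) (n1 : f ≠ g) (n2 : f ≠ a) (n3 : g ≠ a) (n4 : f ≠ b) (n5 : g ≠ b) (n6 : a ≠ b)
    {s t : V} (p : PP G 2 (B a) (B b) s t) (hc : Conn G (B f ∪ B g ∪ (B a).erase s))
    (q1 : NA G (B f) ((B b).erase t)) (q2 : NA G (B g) ((B b).erase t)) : False := by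
  have d : Disjoint (B f ∪ B g) ((B a).erase s) := disjoint_union_left.2
    ⟨(h.disj f hf a ha n2).mono_right (erase_subset _ _),
      (h.disj g hg a ha n3).mono_right (erase_subset _ _)⟩
  have hc8 : (B f ∪ B g ∪ (B a).erase s).card = 8 := by
    rw [card_union_of_disjoint d, card_union_of_disjoint (h.disj f hf g hg n1), (h.bk f hf).card,
      (h.bk g hg).card, p.q.1]
  have := (pp_sp (j := 2) (h.bk b hb) p (h.t4 hf hg ha hb n1 n2 n3 n4 n5 n6)
    (q1.union_left q2) hc8.le hc).card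
  omega

theorem back (h : Good2 G Gd B) {a b f g : V} (ha : a ∈ Gd) (hb : b ∈ Gd) (hf : f ∈ Gd)
    (hg : g ∈ Gd) (n1 : f ≠ g) (n2 : f ≠ a) (n3 : g ≠ a) (n4 : f ≠ b) (n5 : g ≠ b) (n6 : a ≠ b)
    {s t : V} (p : PP G 2 (B a) (B b) s t) (e : ¬ NA G (B f) (B g))
    (q1 : NA G (B f) ((B b).erase t)) (q2 : NA G (B g) ((B b).erase t)) :
    NA G (B f) ((B a).erase s) := by
  by_contra hcon
  exact h.two_off ha hb hf hg n1 n2 n3 n4 n5 n6 p
    (((h.bk f hf).conn.union (h.bk g hg).conn e).union (Sp2.conn (Or.inl p.q))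
      fun hn => hcon (hn.mono subset_union_left subset_rfl)) q1 q2

theorem propagate (h : Good2 G Gd B) {x : ℕ → V} {n : ℕ} (g : Geo G Gd B x n) (i : ℕ)
    (hi : i + 3 ≤ n) {s t : V} (p : PP G 2 (B (x i)) (B (x (i + 1))) s t) :
    ∃ r, PP G 2 (B (x (i + 1))) (B (x (i + 2))) t r := by
  have m := g.mem
  have := h.back (m (i + 1) (by omega)) (m i (by omega)) (m (i + 2) (by omega)) (m (i + 3) hi)
    (g.ne _ _ (by omega) hi) (g.ne _ _ (by omega) (by omega)).symm (g.ne _ _ (by omega) hi).symm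
    (g.ne _ _ (by omega) (by omega)).symm (g.ne _ _ (by omega) hi).symm
    (g.ne _ _ (by omega) (by omega)).symm p.symm (g.adj (i + 2) (by omega))
    ((g.na i (i + 2) le_rfl (by omega)).symm.mono subset_rfl (erase_subset _ _))
    ((g.na i (i + 3) (by omega) hi).symm.mono subset_rfl (erase_subset _ _))
  exact pp_of (by omega) (h.bk _ (m (i + 1) (by omega))) (h.bk _ (m (i + 2) (by omega)))
    (h.t2 (m _ (by omega)) (m _ (by omega)) (g.ne _ _ (by omega) (by omega)))
    (g.adj (i + 1) (by omega)) p.hy' p.q' this.symm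

theorem no_pure (h : Good2 G Gd B) {x : ℕ → V} (g : Geo G Gd B x 5) (o : Out2 G Gd B (x 0))
    {y0 y1 : V} (p0 : PP G 2 (B (x 0)) (B (x 1)) y0 y1) : False := by
  obtain ⟨y2, p1⟩ := h.propagate g 0 (by omega) p0
  obtain ⟨y3, p2⟩ := h.propagate g 1 (by omega) p1
  obtain ⟨y4, p3⟩ := h.propagate g 2 (by omega) p2
  have m0 := g.mem 0 (by omega)
  have m1 := g.mem 1 (by omega)
  have m2 := g.mem 2 (by omega)
  have m3 := g.mem 3 (by omega)
  have m4 := g.mem 4 (by omega)
  have n01 := g.ne 0 1 (by omega) (by omega)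
  have n02 := g.ne 0 2 (by omega) (by omega)
  have n03 := g.ne 0 3 (by omega) (by omega)
  have n04 := g.ne 0 4 (by omega) (by omega)
  have n12 := g.ne 1 2 (by omega) (by omega)
  have n23 := g.ne 2 3 (by omega) (by omega)
  have n34 := g.ne 3 4 (by omega) (by omega)
  have er : ∀ {X Y : Finset V} (t : V), NA G X Y → NA G X (Y.erase t) :=
    fun t hn => hn.mono subset_rfl (erase_subset _ _)
  have a02 := g.na 0 2 (by omega) (by omega)
  have a03 := g.na 0 3 (by omega) (by omega)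
  have a04 := g.na 0 4 (by omega) (by omega)
  obtain ⟨e, he, e0, eQ, o2⟩ := o y0 p0.hy p0.q
  have eB : ¬ NA G (B e) (B (x 0)) := fun hn => eQ (er _ hn)
  have e1 : e ≠ x 1 := fun e1 => eQ (e1 ▸ p0.na.symm)
  have e2 : e ≠ x 2 := fun e1 => eB (e1 ▸ a02.symm)
  have e3 : e ≠ x 3 := fun e1 => eB (e1 ▸ a03.symm)
  have e4 : e ≠ x 4 := fun e1 => eB (e1 ▸ a04.symm)
  have E4 := er y4 ((g.far e he 0 4 (by omega) (by omega)).resolve_left eB)
  have E3 := er y3 ((g.far e he 0 3 (by omega) (by omega)).resolve_left eB)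
  have E2 := h.back m2 m3 he m0 e0 e2 n02 e3 n03 n23 p2 eB E3 (er _ a03)
  have E1 := h.back m1 m2 he m0 e0 e1 n01 e2 n02 n12 p1 eB E2 (er _ a02)
  have cZ := (h.bk e he).conn.union (Sp2.conn (Or.inl p0.q)) eQ
  have c5 : (B e ∪ (B (x 0)).erase y0).card = 5 := by
    rw [card_union_of_disjoint ((h.disj e he _ m0 e0).mono_right (erase_subset _ _)),
      (h.bk e he).card, p0.q.1]
  have sZ := pp_sp (j := 1) (h.bk _ m1) p0 (h.t3 he m0 m1 e0 e1 n01) E1 c5.le cZ
  obtain ⟨f, hf, fe, f0, fZ⟩ := o2 (sZ.resolve_left fun hq => by have := hq.1; omega)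
    fun hfr => h.t2 he m0 e0 {y0} (by simp) (hfr.mono fun a ha => by
      simp only [mem_rem1, mem_union, mem_erase] at ha ⊢
      clear * - ha; grind)
  have ZQ : NA G (B e ∪ (B (x 0)).erase y0) ((B (x 1)).erase y1) := E1.union_left (er _ p0.na)
  have f1 : f ≠ x 1 := by
    rintro rfl
    simp only [NA, not_forall, not_not] at fZ
    obtain ⟨v, hv, u, hu, hvu⟩ := fZ
    have hv1 : v = y1 := by
      by_contra hne
      exact ZQ u hu v (mem_erase.2 ⟨hne, hv⟩) hvu.symm
    subst hv1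
    obtain ⟨E, -, i1, i2⟩ := sZ.iso_link hu hvu
    refine h.t3 he m0 m1 e0 e1 n01 (insert v E) (by have := card_insert_le v E; omega)
      ((i1.union (free_small ((h.bk _ m1).rem_small (by omega) hv))
        (ZQ.mono (rem_sub _ _) (rem_sub _ _))).mono fun a ha => ?_)
    simp only [mem_rem, mem_union, mem_insert, mem_singleton, forall_eq_or_imp, forall_eq,
      mem_erase] at ha ⊢
    have : a ≠ y0 := fun e => ha.2.1.2 (e ▸ p0.adj.symm)
    clear * - ha this; grind
  have fQ : ¬ NA G (B f) ((B (x 1)).erase y1) := fun hn =>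
    h.two_off m0 m1 hf he fe f0 e0 f1 e1 n01 p0
      (by rw [union_assoc]; exact (h.bk f hf).conn.union cZ fZ) hn E1
  have fB : ¬ NA G (B f) (B (x 1)) := fun hn => fQ (er _ hn)
  have f2 : f ≠ x 2 := fun e1 => fQ (e1 ▸ p1.na.symm)
  have f3 : f ≠ x 3 := fun e1 => fB (e1 ▸ (g.na 1 3 (by omega) (by omega)).symm)
  have f4 : f ≠ x 4 := fun e1 => fB (e1 ▸ (g.na 1 4 (by omega) (by omega)).symm)
  have F4 := er y4 ((g.far f hf 1 4 (by omega) (by omega)).resolve_left fB)
  by_cases hfe : NA G (B f) (B e)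
  · have f0' : ¬ NA G (B f) (B (x 0)) := fun hn => fZ (hfe.symm.union_left (er _ hn).symm).symm
    have F3 := h.back m3 m4 hf m0 f0 f3 n03 f4 n04 n34 p3 f0' F4 (er _ a04)
    have F2 := h.back m2 m3 hf m0 f0 f2 n02 f3 n03 n23 p2 f0' F3 (er _ a03)
    exact fQ (h.back m1 m2 hf m0 f0 f1 n01 f2 n02 n12 p1 f0' F2 (er _ a02))
  · have F3 := h.back m3 m4 hf he fe f3 e3 f4 e4 n34 p3 hfe F4 E4
    have F2 := h.back m2 m3 hf he fe f2 e2 f3 e3 n23 p2 hfe F3 E3
    exact fQ (h.back m1 m2 hf he fe f1 e1 f2 e2 n12 p1 hfe F2 E2)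

theorem np (h : Good2 G Gd B) {x : ℕ → V} (g : Geo G Gd B x 5) (o : Out2 G Gd B (x 0)) :
    NP G 2 (B (x 1)) (B (x 0)) := by
  intro y hy hq hn
  have m0 := g.mem 0 (by omega)
  have m1 := g.mem 1 (by omega)
  obtain ⟨t, p⟩ := pp_of (by omega) (h.bk _ m1) (h.bk _ m0)
    (h.t2 m1 m0 (g.ne 0 1 (by omega) (by omega)).symm) (fun hh => g.adj 0 (by omega) hh.symm)
    hy hq hn
  exact h.no_pure g o p.symm

theorem side (h : Good2 G Gd B) {x : ℕ → V} (g : Geo G Gd B x 3)
    (hnp : NP G 2 (B (x 2)) (B (x 1))) {z : V} (hz : z ∈ B (x 2)) :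
    ∃ D : Finset V, D.card ≤ 2 ∧
      Free G 2 (rem G ((B (x 0) ∪ B (x 1) ∪ B (x 2)).erase z) D) :=
  have m0 := g.mem 0 (by omega)
  have m1 := g.mem 1 (by omega)
  have m2 := g.mem 2 (by omega)
  mark3 (h.bk _ m0) (h.bk _ m1) (h.bk _ m2) (h.disj _ m0 _ m1 (g.ne 0 1 (by omega) (by omega)))
    (h.disj _ m0 _ m2 (g.ne 0 2 (by omega) (by omega)))
    (h.disj _ m1 _ m2 (g.ne 1 2 (by omega) (by omega))) (g.adj 0 (by omega)) hnp hz

theorem closed (h : Good2 G Gd B) {x : ℕ → V} (g : Geo G Gd B x 3)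
    (hnp : NP G 2 (B (x 2)) (B (x 1))) : ∀ z ∈ B (x 2), ¬ G.Adj (x 3) z := by
  intro z hz hcz
  obtain ⟨D, h1, h2⟩ := h.side g hnp hz
  refine h.t4 (g.mem 0 (by omega)) (g.mem 1 (by omega)) (g.mem 2 (by omega)) (g.mem 3 le_rfl)
    (g.ne _ _ (by omega) (by omega)) (g.ne _ _ (by omega) (by omega))
    (g.ne _ _ (by omega) (by omega)) (g.ne _ _ (by omega) (by omega))
    (g.ne _ _ (by omega) (by omega)) (g.ne _ _ (by omega) (by omega)) (insert (x 3) D)
    (by have := card_insert_le (x 3) D; omega) (h2.mono fun a ha => ?_)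
  have hxC : a ∉ B (x 3) := fun hh =>
    (h.bk _ (g.mem 3 le_rfl)).not_mem_rem (mem_insert_self _ _) hh ha
  rw [mem_rem] at ha ⊢
  exact ⟨mem_erase.2 ⟨fun e => (ha.2 _ (mem_insert_self _ _)).2 (e ▸ hcz),
    (mem_union.1 ha.1).resolve_right hxC⟩, fun d hd => ha.2 d (mem_insert_of_mem hd)⟩

/-- No geodesic of nine good blocks. -/
theorem no_path (h : Good2 G Gd B) {x : ℕ → V} (g : Geo G Gd B x 8) (o2 : Out2 G Gd B (x 2))
    (o3 : Out2 G Gd B (x 3)) (o5 : Out2 G Gd B (x 5)) (o6 : Out2 G Gd B (x 6)) : False := by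
  have p32 : NP G 2 (B (x 3)) (B (x 2)) := h.np (g.shift 2 5 (by omega)) o2
  have p43 : NP G 2 (B (x 4)) (B (x 3)) := h.np (g.shift 3 5 (by omega)) o3
  have p45 : NP G 2 (B (x 4)) (B (x 5)) := h.np (g.rev.shift 3 5 (by omega)) o5
  have p56 : NP G 2 (B (x 5)) (B (x 6)) := h.np (g.rev.shift 2 5 (by omega)) o6
  have m := g.mem
  have n := g.ne
  refine triple (h.bk _ (m 3 (by omega))) (h.bk _ (m 4 (by omega))) (h.bk _ (m 5 (by omega)))
    (h.disj _ (m 3 (by omega)) _ (m 4 (by omega)) (n _ _ (by omega) (by omega)))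
    (h.disj _ (m 5 (by omega)) _ (m 4 (by omega)) (n _ _ (by omega) (by omega)).symm)
    (g.na 3 5 (by omega) (by omega)) (h.closed (g.rev.shift 2 3 (by omega)) p45)
    (h.closed (g.shift 2 3 (by omega)) p43) (h.closed (g.shift 1 3 (by omega)) p32)
    (h.closed (g.rev.shift 1 3 (by omega)) p56)
    (h.t2 (m 3 (by omega)) (m 4 (by omega)) (n _ _ (by omega) (by omega)))
    (h.t2 (m 5 (by omega)) (m 4 (by omega)) (n _ _ (by omega) (by omega)).symm)
    (h.t3 (m 3 (by omega)) (m 4 (by omega)) (m 5 (by omega)) (n _ _ (by omega) (by omega))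
      (n _ _ (by omega) (by omega)) (n _ _ (by omega) (by omega)))
    (fun a z z' hz hz' e1 e2 => ?_) (g.adj 3 (by omega)) (fun hn => g.adj 4 (by omega) hn.symm)
  obtain ⟨D, hD, hf⟩ := h.side (g.shift 1 3 (by omega)) p32 hz
  obtain ⟨D', hD', hf'⟩ := h.side (g.rev.shift 1 3 (by omega)) p56 hz'
  change Free G 2 (rem G ((B (x 1) ∪ B (x 2) ∪ B (x 3)).erase z) D) at hf
  change Free G 2 (rem G ((B (x 7) ∪ B (x 6) ∪ B (x 5)).erase z') D') at hf'
  have a' : ∀ i ≤ 3, NA G (B (x i)) (B (x 7) ∪ B (x 6) ∪ B (x 5)) := fun i hi =>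
    (((g.na i 7 (by omega) (by omega)).symm.union_left
      (g.na i 6 (by omega) (by omega)).symm).union_left (g.na i 5 (by omega) (by omega)).symm).symm
  have hf2 := free_rem_union hf hf' ((((a' 1 (by omega)).union_left (a' 2 (by omega))).union_left
    (a' 3 le_rfl)).mono (erase_subset _ _) (erase_subset _ _)) subset_rfl
  have t7 := h.tl [x 1, x 2, x 3, x 4, x 5, x 6, x 7] (by
      simp only [List.mem_cons, List.not_mem_nil, or_false, forall_eq_or_imp, forall_eq]
      refine ⟨?_, ?_, ?_, ?_, ?_, ?_, ?_⟩ <;> exact m _ (by omega))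
    (by
      simp only [List.nodup_cons, List.mem_cons, List.not_mem_nil, or_false, not_or,
        not_false_eq_true, List.nodup_nil, and_true]
      refine ⟨⟨?_, ?_, ?_, ?_, ?_, ?_⟩, ⟨?_, ?_, ?_, ?_, ?_⟩, ⟨?_, ?_, ?_, ?_⟩, ⟨?_, ?_, ?_⟩,
        ⟨?_, ?_⟩, ?_⟩ <;> exact n _ _ (by omega) (by omega)) (by simp)
    (X := B (x 1) ∪ B (x 2) ∪ B (x 3) ∪ (B (x 7) ∪ B (x 6) ∪ B (x 5)) ∪ B (x 4)) (by
      simp only [List.mem_cons, List.not_mem_nil, or_false, forall_eq_or_imp, forall_eq]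
      refine ⟨?_, ?_, ?_, ?_, ?_, ?_, ?_⟩ <;> intro a ha <;> simp [ha])
  refine t7 (insert a (insert (x 4) (D ∪ D'))) ?_ (hf2.mono fun v hv => ?_)
  · have := card_insert_le a (insert (x 4) (D ∪ D'))
    have := card_insert_le (x 4) (D ∪ D')
    have := card_union_le D D'
    simp only [List.length_cons, List.length_nil]
    omega
  have hxB : v ∉ B (x 4) := fun hh =>
    (h.bk _ (m 4 (by omega))).not_mem_rem (mem_insert_of_mem (mem_insert_self _ _)) hh hv
  rw [mem_rem] at hv ⊢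
  have hm := (hv.2 a (mem_insert_self _ _)).2
  refine ⟨?_, fun d hd => hv.2 d (mem_insert_of_mem (mem_insert_of_mem hd))⟩
  rcases mem_union.1 ((mem_union.1 hv.1).resolve_right hxB) with h1 | h1
  exacts [mem_union_left _ (mem_erase.2 ⟨fun e => hm (e ▸ e1), h1⟩),
    mem_union_right _ (mem_erase.2 ⟨fun e => hm (e ▸ e2), h1⟩)]

end Good2

end Pool.Agent.IsoKer
end

-- merged part: Pool.Agent.Work.MP_1346a1_co.Core
section
/-! Counting the blocks of a bounded-degree set with small gain and no pendant clique. -/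

namespace Pool.Agent.IsoKer

open Finset
open scoped Classical

variable {V : Type*} {G : SimpleGraph V} {k : ℕ}

/-- `Q` is a `k`-clique all of whose outgoing edges end in `y`. -/
def Pend (G : SimpleGraph V) (k : ℕ) (y : V) (Q : Finset V) : Prop :=
  Clq G k Q ∧ y ∉ Q ∧ ∀ q ∈ Q, ∀ z, G.Adj q z → z ∈ Q ∨ z = y

theorem nbs_card {U X : Finset V} {d : ℕ} (hdeg : ∀ v, (nb G U v).card ≤ d) :
    (X.biUnion (nb G U)).card ≤ d * X.card := by
  have := card_biUnion_le_card_mul X (nb G U) d fun v _ => hdeg v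
  rwa [mul_comm] at this

theorem Sys.adj_card {U D X : Finset V} {B : V → Finset V} {d : ℕ} (h : Sys G k U D B)
    (hdeg : ∀ v, (nb G U v).card ≤ d) :
    (D.filter fun x => ¬ NA G X (B x)).card ≤ d * X.card := by
  refine le_trans ?_ (nbs_card (X := X) hdeg)
  have hex : ∀ x ∈ D.filter fun x => ¬ NA G X (B x), ∃ z ∈ B x, z ∈ X.biUnion (nb G U) := by
    intro x hx
    rw [mem_filter] at hx
    have h2 := hx.2
    simp only [NA, not_forall, not_not] at h2
    obtain ⟨a, ha, z, hz, haz⟩ := h2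
    exact ⟨z, hz, mem_biUnion.2 ⟨a, ha, mem_nb.2 ⟨h.sub x hx.1 hz, haz⟩⟩⟩
  choose! f hf1 hf2 using hex
  refine card_le_card_of_injOn f (fun x hx => hf2 x hx) fun x hx y hy e => ?_
  by_contra hne
  exact disjoint_left.1 (h.disj x (mem_filter.1 hx).1 y (mem_filter.1 hy).1 hne) (hf1 x hx)
    (e ▸ hf1 y hy)

theorem Sys.union_card {U D T : Finset V} {B : V → Finset V} (h : Sys G k U D B) (hT : T ⊆ D) :
    (T.biUnion B).card ≤ (k + 1) * T.card := by
  have := card_biUnion_le_card_mul T B (k + 1) fun v hv => h.card v (hT hv)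
  rwa [mul_comm] at this

theorem Sys.nonfull {U D : Finset V} {B : V → Finset V} (h : Sys G k U D B) :
    ∑ x ∈ D, (B x).card + (D.filter fun x => (B x).card ≠ k + 1).card ≤ (k + 1) * D.card := by
  rw [card_filter, ← sum_add_distrib, mul_comm]
  refine sum_le_card_nsmul D _ (k + 1) fun x hx => ?_
  have := h.card x hx
  split_ifs <;> omega

theorem Sys.exchange {U D T E : Finset V} {B : V → Finset V} (h : Sys G k U D B)
    (hW : ∀ x ∈ T, NA G (U \ D.biUnion B) (B x)) (hE : Free G k (rem G (T.biUnion B) E)) :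
    Free G k (rem G U (D \ T ∪ E)) := by
  have hna : NA G (rem G U D ∩ (U \ D.biUnion B)) (rem G (T.biUnion B) E) := by
    intro a ha z hz
    obtain ⟨x, hx, hzx⟩ := mem_biUnion.1 (rem_sub _ _ hz)
    exact hW x hx a (mem_inter.1 ha).2 z hzx
  refine ((h.iso.mono inter_subset_left).union hE hna).mono fun a ha => ?_
  rw [mem_rem] at ha
  by_cases haB : a ∈ D.biUnion B
  · obtain ⟨x, hx, hax⟩ := mem_biUnion.1 haB
    by_cases hxT : x ∈ T
    · exact mem_union_right _ (mem_rem.2 ⟨mem_biUnion.2 ⟨x, hxT, hax⟩,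
        fun d hd => ha.2 d (mem_union_right _ hd)⟩)
    · have := ha.2 x (mem_union_left _ (mem_sdiff.2 ⟨hx, hxT⟩))
      rcases h.dom x hx a hax with h1 | h1
      exacts [absurd h1 this.1, absurd h1 this.2]
  · have haW : a ∈ U \ D.biUnion B := mem_sdiff.2 ⟨ha.1, haB⟩
    refine mem_union_left _ (mem_inter.2 ⟨mem_rem.2 ⟨ha.1, fun d hd => ?_⟩, haW⟩)
    by_cases hdT : d ∈ T
    · exact ⟨fun e => haB (mem_biUnion.2 ⟨d, hd, e ▸ h.mem d hd⟩),
        fun e => hW d hdT a haW d (h.mem d hd) e.symm⟩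
    · exact ha.2 d (mem_union_left _ (mem_sdiff.2 ⟨hd, hdT⟩))

/-- Few blocks are bad. -/
theorem Sys.exists_good (hk : k = 1 ∨ 3 ≤ k) {U D M : Finset V} {B : V → Finset V} {d g : ℕ}
    (h : Sys G k U D B) (hdeg : ∀ v, (nb G U v).card ≤ d)
    (hout : ∀ x ∈ U, ∀ z, G.Adj x z → z ∈ U ∨ z ∈ M)
    (hg : ∀ E : Finset V, Free G k (rem G U E) → U.card ≤ (k + 1) * E.card + g) :
    ∃ Gd ⊆ D, Good G k Gd B ∧ (D \ Gd).card ≤ 6 * g + 7 * d * g + d * M.card ∧
      ∀ x ∈ Gd, ∀ v ∈ B x, ∀ z, G.Adj v z → ∃ x' ∈ D, z ∈ B x' := by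
  set W := U \ D.biUnion B with hW
  have hb : (D.biUnion B).card = ∑ x ∈ D, (B x).card :=
    card_biUnion fun x hx y hy hxy => h.disj x hx y hy hxy
  have hWc := card_sdiff_add_card_eq_card (biUnion_subset.2 h.sub)
  have h1 := hg D h.iso
  have h2 := h.ineq
  have h3 := h.nonfull
  have h4 := h.bound
  have hW2 : W.card ≤ 2 * g := by rw [hW]; omega
  have hNF : (D.filter fun x => (B x).card ≠ k + 1).card ≤ g := by omega
  obtain ⟨T, hT, hmax⟩ := exists_max_image
    (D.powerset.filter fun T => (∀ x ∈ T, NA G W (B x)) ∧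
      ∃ E : Finset V, Free G k (rem G (T.biUnion B) E) ∧ 5 * E.card ≤ 4 * T.card) Finset.card
    ⟨∅, mem_filter.2 ⟨empty_mem_powerset _, by simp, ∅,
      (free_empty (by omega)).mono (by rw [biUnion_empty]; exact rem_sub _ _), by simp⟩⟩
  obtain ⟨hTD, hTW, E, hE, hEc⟩ := mem_filter.1 hT
  rw [mem_powerset] at hTD
  have h5 := hg _ (h.exchange hTW hE)
  have h6 := Nat.mul_le_mul_left (k + 1) (card_union_le (D \ T) E)
  have h7 := congrArg ((k + 1) * ·) (card_sdiff_add_card_eq_card hTD)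
  have h8 := Nat.mul_le_mul_left (k + 1) hEc
  simp only [mul_add] at h6 h7
  have hKT : (k + 1) * T.card ≤ 5 * g := by nlinarith only [hb, hWc, h2, h5, h8, h6, h7]
  have hTc : T.card ≤ 5 * g := by nlinarith only [hb, hWc, h2, h5, h8, h6, h7]
  have hUT : (T.biUnion B).card ≤ 5 * g := (h.union_card hTD).trans hKT
  refine ⟨D.filter fun x => (B x).card = k + 1 ∧ NA G W (B x) ∧ NA G M (B x) ∧ x ∉ T ∧
    NA G (T.biUnion B) (B x), filter_subset _ _, ⟨hk, fun x hx => ?_, fun x hx y hy hxy => ?_,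
      fun J hJ hJ5 E' hE' hf => ?_⟩, ?_, fun x hx v hv z hvz => ?_⟩
  · rw [mem_filter] at hx
    exact ⟨h.mem x hx.1, hx.2.1, h.dom x hx.1⟩
  · exact h.disj x (mem_filter.1 hx).1 y (mem_filter.1 hy).1 hxy
  · have hd : Disjoint T J := disjoint_left.2 fun x hx hx' => (mem_filter.1 (hJ hx')).2.2.2.2.1 hx
    have hna : NA G (T.biUnion B) (J.biUnion B) := fun a ha z hz => by
      obtain ⟨x, hx, hzx⟩ := mem_biUnion.1 hz
      exact (mem_filter.1 (hJ hx)).2.2.2.2.2 a ha z hzx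
    have := hmax (T ∪ J) (mem_filter.2 ⟨mem_powerset.2
      (union_subset hTD (hJ.trans (filter_subset _ _))), fun x hx => ?_, E ∪ E',
      free_rem_union hE hf hna (by rw [union_biUnion]), ?_⟩)
    · rw [card_union_of_disjoint hd] at this
      omega
    · rcases mem_union.1 hx with h9 | h9
      exacts [hTW x h9, (mem_filter.1 (hJ h9)).2.2.1]
    · have := card_union_le E E'
      rw [card_union_of_disjoint hd]
      omega
  · have hs : D \ (D.filter fun x => (B x).card = k + 1 ∧ NA G W (B x) ∧ NA G M (B x) ∧ x ∉ T ∧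
        NA G (T.biUnion B) (B x)) ⊆ (D.filter fun x => (B x).card ≠ k + 1) ∪
        (D.filter fun x => ¬ NA G W (B x)) ∪ (D.filter fun x => ¬ NA G M (B x)) ∪ T ∪
        (D.filter fun x => ¬ NA G (T.biUnion B) (B x)) := fun x hx => by
      simp only [mem_sdiff, mem_filter, mem_union] at hx ⊢
      clear * - hx; grind
    have a1 := h.adj_card (X := W) hdeg
    have a2 := h.adj_card (X := M) hdeg
    have a3 := h.adj_card (X := T.biUnion B) hdeg
    have a4 := Nat.mul_le_mul_left d hW2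
    have a5 := Nat.mul_le_mul_left d hUT
    refine (card_le_card hs).trans ((card_union_le _ _).trans ?_)
    refine (Nat.add_le_add_right ((card_union_le _ _).trans (Nat.add_le_add_right
      ((card_union_le _ _).trans (Nat.add_le_add_right (card_union_le _ _) _)) _)) _).trans ?_
    nlinarith only [h1, h2, h3, hTc, a1, a2, a3, a4, a5]
  · rw [mem_filter] at hx
    rcases hout v (h.sub x hx.1 hv) z hvz with h9 | h9
    · by_contra hcon
      exact hx.2.2.1 z (mem_sdiff.2 ⟨h9, fun hh => hcon (mem_biUnion.1 hh)⟩) v hv hvz.symm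
    · exact absurd hvz.symm (hx.2.2.2.1 z h9 v hv)

/-- Blocks within `j` steps of the root set in the block graph. -/
noncomputable def layer (G : SimpleGraph V) (D : Finset V) (B : V → Finset V) (A0 : Finset V) :
    ℕ → Finset V
  | 0 => A0
  | j + 1 => layer G D B A0 j ∪ D.filter fun x => ¬ NA G ((layer G D B A0 j).biUnion B) (B x)

theorem layer_sub {D A0 : Finset V} {B : V → Finset V} (h : A0 ⊆ D) (j : ℕ) :
    layer G D B A0 j ⊆ D := by
  induction j with
  | zero => exact h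
  | succ j ih => exact union_subset ih (filter_subset _ _)

theorem layer_mono {D A0 : Finset V} {B : V → Finset V} {i j : ℕ} (h : i ≤ j) :
    layer G D B A0 i ⊆ layer G D B A0 j := by
  induction h with
  | refl => exact subset_rfl
  | step _ ih => exact ih.trans subset_union_left

theorem layer_step {D A0 : Finset V} {B : V → Finset V} {j : ℕ} {x y : V} (hx : x ∈ D)
    (hy : y ∈ layer G D B A0 j) (h : ¬ NA G (B x) (B y)) : x ∈ layer G D B A0 (j + 1) :=
  mem_union_right _ (mem_filter.2 ⟨hx, fun hn =>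
    h (hn.mono (subset_biUnion_of_mem B hy) subset_rfl).symm⟩)

theorem Sys.layer_card {U D A0 : Finset V} {B : V → Finset V} {d : ℕ} (h : Sys G k U D B)
    (hdeg : ∀ v, (nb G U v).card ≤ d) (hA : A0 ⊆ D) (j : ℕ) :
    (layer G D B A0 j).card ≤ (1 + d * (k + 1)) ^ j * A0.card := by
  induction j with
  | zero => simp [layer]
  | succ j ih =>
    have h1 := h.adj_card (X := (layer G D B A0 j).biUnion B) hdeg
    have h2 := Nat.mul_le_mul_left d (h.union_card (layer_sub (G := G) (B := B) hA j))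
    have h3 := Nat.mul_le_mul_left (1 + d * (k + 1)) ih
    refine (card_union_le _ _).trans ?_
    rw [pow_succ]
    nlinarith only [h1, h2, h3]

theorem core1 [Fintype V] (hk : k = 1 ∨ 3 ≤ k) (hG : Conn G univ) {U M : Finset V} {d g : ℕ}
    (hU : NoSp G k U) (hdeg : ∀ v, (nb G U v).card ≤ d)
    (hout : ∀ x ∈ U, ∀ z, G.Adj x z → z ∈ U ∨ z ∈ M)
    (hg : ∀ E : Finset V, Free G k (rem G U E) → U.card ≤ (k + 1) * E.card + g)
    (hp : ∀ y ∈ U, ∀ Q ⊆ U, ¬ Pend G k y Q) :
    U.card ≤ (k + 1) * ((1 + d * (k + 1)) ^ 5 * (6 * g + 7 * d * g + d * M.card + 1)) + g := by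
  obtain ⟨D, B, h⟩ := hasSys_of_noSp hk U hU
  refine (hg D h.iso).trans (Nat.add_le_add_right (Nat.mul_le_mul_left _ ?_) _)
  rcases D.eq_empty_or_nonempty with rfl | ⟨x0, hx0⟩
  · simp
  obtain ⟨Gd, hGd, hgood, hbad, hnb⟩ := h.exists_good hk hdeg hout hg
  have hA : insert x0 (D \ Gd) ⊆ D := insert_subset hx0 sdiff_subset
  set A := layer G D B (insert x0 (D \ Gd)) with hAdef
  have hgd : ∀ x ∈ D, x ∉ A 0 → x ∈ Gd := fun x hx h0 => by
    by_contra hcon
    exact h0 (mem_insert_of_mem (mem_sdiff.2 ⟨hx, hcon⟩))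
  have hall : ∀ x ∈ D, ∃ j, x ∈ A j := by
    by_contra hcon
    push Not at hcon
    obtain ⟨x, hx, hxj⟩ := hcon
    have hcl : Cl G ((D.filter fun x => ∀ j, x ∉ A j).biUnion B) univ := by
      refine ⟨subset_univ _, fun v hv z _ hvz => ?_⟩
      obtain ⟨y, hy, hvy⟩ := mem_biUnion.1 hv
      rw [mem_filter] at hy
      obtain ⟨x', hx', hz⟩ := hnb y (hgd y hy.1 (hy.2 0)) v hvy z hvz
      exact mem_biUnion.2 ⟨x', mem_filter.2 ⟨hx', fun j hj =>
        hy.2 (j + 1) (layer_step hy.1 hj fun hn => hn v hvy z hz hvz)⟩, hz⟩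
    have he := hG _ hcl ⟨x, mem_biUnion.2 ⟨x, mem_filter.2 ⟨hx, hxj⟩, h.mem x hx⟩⟩
    obtain ⟨y, hy, hxy⟩ := mem_biUnion.1 (he ▸ mem_univ x0 : x0 ∈ _)
    rw [mem_filter] at hy
    have : y = x0 := by
      by_contra hne
      exact disjoint_left.1 (h.disj y hy.1 x0 hx0 hne) hxy (h.mem x0 hx0)
    exact hy.2 0 (this ▸ mem_insert_self _ _)
  let lev : V → ℕ := fun x => sInf {j | x ∈ A j}
  have hl1 : ∀ x ∈ D, x ∈ A (lev x) := fun x hx => Nat.sInf_mem (s := {j | x ∈ A j}) (hall x hx)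
  have hl2 : ∀ x j, x ∈ A j → lev x ≤ j := fun x j hj => Nat.sInf_le hj
  have hlev : ∀ x ∈ D, ∀ y ∈ D, ¬ NA G (B x) (B y) → lev x ≤ lev y + 1 :=
    fun x hx y hy hxy => hl2 x _ (layer_step hx (hl1 y hy) hxy)
  have hdown : ∀ x ∈ D, 1 ≤ lev x → ∃ y ∈ D, lev x = lev y + 1 ∧ ¬ NA G (B x) (B y) := by
    intro x hx h1
    obtain ⟨j, hj⟩ : ∃ j, lev x = j + 1 := ⟨lev x - 1, by omega⟩
    have h2 := hl1 x hx
    rw [hj] at h2
    rcases mem_union.1 h2 with h3 | h3
    · have := hl2 x j h3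
      omega
    · have h4 := (mem_filter.1 h3).2
      simp only [NA, not_forall, not_not] at h4
      obtain ⟨a, ha, z, hz, haz⟩ := h4
      obtain ⟨y, hy, hay⟩ := mem_biUnion.1 ha
      have h5 : ¬ NA G (B x) (B y) := fun hn => hn z hz a hay haz.symm
      have h6 := hl2 y j hy
      have h7 := hlev x hx y (layer_sub hA j hy) h5
      exact ⟨y, layer_sub hA j hy, by omega, h5⟩
  have hgl : ∀ x ∈ D, 1 ≤ lev x → x ∈ Gd := fun x hx h1 => hgd x hx fun h0 => by
    have := hl2 x 0 h0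
    omega
  have hout' : ∀ z ∈ D, 2 ≤ lev z → ∀ y ∈ B z, Clq G k ((B z).erase y) →
      ∃ x ∈ Gd, x ≠ z ∧ ¬ NA G (B x) ((B z).erase y) := by
    intro z hz h2 y hy hq
    have := hp y (h.sub z hz hy) _ ((erase_subset y _).trans (h.sub z hz))
    simp only [Pend, not_and, not_forall, not_or] at this
    obtain ⟨q, hq1, v, hqv, hv1, hv2⟩ := this hq (notMem_erase _ _)
    obtain ⟨x, hx, hvx⟩ := hnb z (hgl z hz (by omega)) q (mem_of_mem_erase hq1) v hqv
    have h3 := hlev z hz x hx fun hn => hn q (mem_of_mem_erase hq1) v hvx hqv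
    exact ⟨x, hgl x hx (by omega), fun e => hv1 (mem_erase.2 ⟨hv2, e ▸ hvx⟩),
      fun hn => hn v hvx q hq1 hqv.symm⟩
  have h5 : D ⊆ A 5 := by
    intro x1 h1
    refine layer_mono (i := lev x1) ?_ (hl1 x1 h1)
    by_contra hcon
    obtain ⟨x2, h2, l1, e12⟩ := hdown x1 h1 (by omega)
    obtain ⟨x3, h3, l2, e23⟩ := hdown x2 h2 (by omega)
    obtain ⟨x4, h4, l3, e34⟩ := hdown x3 h3 (by omega)
    obtain ⟨x5, h5, l4, e45⟩ := hdown x4 h4 (by omega)
    refine hgood.no_path lev (fun x hx y hy => hlev x (hGd hx) y (hGd hy))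
      (hgl _ h1 (by omega)) (hgl _ h2 (by omega)) (hgl _ h3 (by omega)) (hgl _ h4 (by omega))
      (hgl _ h5 (by omega)) l1 l2 l3 l4 e12 e23 e34 e45 fun z hz => ?_
    simp only [mem_insert, mem_singleton] at hz
    rcases hz with rfl | rfl | rfl | rfl
    exacts [hout' _ h1 (by omega), hout' _ h2 (by omega), hout' _ h4 (by omega),
      hout' _ h5 (by omega)]
  refine (card_le_card h5).trans ((h.layer_card hdeg hA 5).trans (Nat.mul_le_mul_left _ ?_))
  have := card_insert_le x0 (D \ Gd)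
  omega

end Pool.Agent.IsoKer
end

-- merged part: Pool.Agent.Work.MP_1346a1_co.Global
section
/-! The kernel bound for a maximal family of pendant units. -/

namespace Pool.Agent.IsoKer

open Finset
open scoped Classical

variable {V : Type*} [Fintype V] {G : SimpleGraph V} {k : ℕ}

theorem core2 (hk : k = 1 ∨ 3 ≤ k) (hG : Conn G univ) (hsp : ¬ Sp G k univ) {U M : Finset V} {d g : ℕ}
    (hdeg : ∀ v, (nb G U v).card ≤ d)
    (hout : ∀ x ∈ U, ∀ z, G.Adj x z → z ∈ U ∨ z ∈ M)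
    (hg : ∀ E : Finset V, Free G k (rem G U E) → U.card ≤ (k + 1) * E.card + g)
    (hp : ∀ y ∈ U, ∀ Q ⊆ U, ¬ Pend G k y Q) {g1 : ℕ} (hg1 : g + (k + 1) * (d * M.card) ≤ g1) :
    U.card ≤ (k + 1) * ((1 + d * (k + 1)) ^ 5 * (6 * g1 + 7 * d * g1 + d * M.card + 1)) +
      2 * g1 := by
  set Z := spU G k U with hZ
  have hZcl : Cl G Z U := spU_cl U
  set N := M.biUnion (nb G U) with hN
  have hNc : N.card ≤ d * M.card := nbs_card hdeg
  have hZN : Free G k (rem G Z N) := by
    have hin : ∀ x ∈ rem G Z N, ∀ z, G.Adj x z → z ∈ U := fun x hx z hxz => by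
      have hxU := hZcl.1 (rem_sub _ _ hx)
      refine (hout x hxU z hxz).resolve_right fun hz => ?_
      exact ((mem_rem.1 hx).2 x (mem_biUnion.2 ⟨z, hz, mem_nb.2 ⟨hxU, hxz.symm⟩⟩)).1 rfl
    rcases (rem G Z N).eq_empty_or_nonempty with he | ⟨x, hx⟩
    · rw [he]; exact free_empty (by omega)
    refine free_low hG (subset_univ _) (fun e => ?_) fun x hx => ?_
    · obtain ⟨C, h1, h2, h3⟩ := mem_spU.1 (rem_sub _ _ hx)
      have hU : ∀ z, z ∈ U := fun z => hZcl.1 (rem_sub _ _ (e ▸ mem_univ z : z ∈ rem G Z N))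
      exact hsp (hG C ⟨subset_univ _, fun a ha b _ hab => h2.2 a ha b (hU b) hab⟩ h1.1 ▸ h1)
    · have h1 := spU_deg (rem_sub _ _ hx)
      have h2 : nb G univ x ⊆ nb G U x := fun z hz =>
        mem_nb.2 ⟨hin x hx z (mem_nb.1 hz).2, (mem_nb.1 hz).2⟩
      have := card_le_card h2
      omega
  have hg2 : ∀ E : Finset V, Free G k (rem G (U \ Z) E) → U.card ≤ (k + 1) * E.card + g1 := by
    intro E hE
    have h1 := hg _ (free_rem_union (U := U) hE hZN hZcl.na (by rw [sdiff_union_of_subset hZcl.1]))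
    have h2 := Nat.mul_le_mul_left (k + 1) ((card_union_le E N).trans (Nat.add_le_add_left hNc _))
    rw [mul_add] at h2
    omega
  have hc := card_sdiff_add_card_eq_card hZcl.1
  obtain ⟨D, B, hs⟩ := hasSys_of_noSp hk (U \ Z) (spU_noSp U)
  have h1 := hg2 D hs.iso
  have h2 := hs.bound
  have h3 := core1 (M := M) (d := d) (g := g1) hk hG (spU_noSp U)
    (fun v => (nb_card_mono sdiff_subset v).trans (hdeg v))
    (fun x hx z hxz => (hout x (mem_sdiff.1 hx).1 z hxz).imp_left fun hz =>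
      hZcl.sdiff.2 x hx z hz hxz)
    (fun E hE => (card_le_card sdiff_subset).trans (hg2 E hE))
    (fun y hy Q hQ => hp y (mem_sdiff.1 hy).1 Q (hQ.trans sdiff_subset))
  rw [← hZ] at h3
  omega

/-- A family of pairwise disjoint pendant units. -/
structure Units (G : SimpleGraph V) (k : ℕ) (S : Finset V) (Q : V → Finset V) : Prop where
  pend : ∀ y ∈ S, Pend G k y (Q y)
  out : ∀ y ∈ S, ∀ y' ∈ S, y ∉ Q y'
  disj : ∀ y ∈ S, ∀ y' ∈ S, y ≠ y' → Disjoint (Q y) (Q y')

/-- The vertices outside all units. -/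
noncomputable def rest (S : Finset V) (Q : V → Finset V) : Finset V :=
  univ.filter fun x => x ∉ S ∧ ∀ y ∈ S, x ∉ Q y

theorem mem_rest {S : Finset V} {Q : V → Finset V} {x : V} :
    x ∈ rest S Q ↔ x ∉ S ∧ ∀ y ∈ S, x ∉ Q y := by simp [rest]

namespace Units

variable {S : Finset V} {Q : V → Finset V}

theorem card_eq (h : Units G k S Q) :
    Fintype.card V = (k + 1) * S.card + (rest S Q).card := by
  have h1 : (S.biUnion Q).card = k * S.card := by
    rw [card_biUnion fun x hx y hy hxy => h.disj x hx y hy hxy,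
      sum_congr rfl fun y hy => (h.pend y hy).1.1]
    simp [mul_comm]
  have h2 : Disjoint S (S.biUnion Q) := disjoint_left.2 fun x hx hx' => by
    obtain ⟨y, hy, hxy⟩ := mem_biUnion.1 hx'
    exact h.out x hx y hy hxy
  have h3 : rest S Q = univ \ (S ∪ S.biUnion Q) := by
    ext x
    simp [mem_rest]
  have h4 := card_sdiff_add_card_eq_card (subset_univ (S ∪ S.biUnion Q))
  rw [card_union_of_disjoint h2, h1, card_univ, ← h3] at h4
  nlinarith only [h4]

theorem nb_rest (h : Units G k S Q) {x z : V} (hx : x ∈ rest S Q) (hxz : G.Adj x z) :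
    z ∈ S ∨ z ∈ rest S Q := by
  by_contra hcon
  rw [mem_rest] at hcon hx
  push Not at hcon
  obtain ⟨y, hy, hz⟩ := hcon.2 hcon.1
  rcases (h.pend y hy).2.2 z hz x hxz.symm with h1 | h1
  exacts [hx.2 y hy h1, hx.1 (h1 ▸ hy)]

/-- The undominated parts of the pendant cliques. -/
noncomputable def low (G : SimpleGraph V) (S : Finset V) (Q : V → Finset V) : Finset V :=
  univ.filter fun x => ∃ y ∈ S, x ∈ Q y ∧ ¬ G.Adj y x

theorem low_free (h : Units G k S Q) (hk : 1 ≤ k) (hG : Conn G univ) :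
    Free G k (low G S Q) := by
  rcases (low G S Q).eq_empty_or_nonempty with he | ⟨x, hx⟩
  · rw [he]; exact free_empty hk
  refine free_low hG (subset_univ _) (fun e => ?_) fun x hx => ?_
  · obtain ⟨y, hy, -⟩ := (mem_filter.1 hx).2
    obtain ⟨y', hy', h1, -⟩ := (mem_filter.1 (e ▸ mem_univ y : y ∈ low G S Q)).2
    exact h.out y hy y' hy' h1
  · obtain ⟨y, hy, h1, h2⟩ := (mem_filter.1 hx).2
    have hs : nb G univ x ⊆ nb G (Q y) x := fun z hz => by
      rw [mem_nb] at hz ⊢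
      exact ⟨((h.pend y hy).2.2 x h1 z hz.2).resolve_right fun e => h2 (e ▸ hz.2.symm), hz.2⟩
    have := card_le_card hs
    have := ((h.pend y hy).1.sp hk).2.2 x h1
    omega

theorem low_na (h : Units G k S Q) : NA G (rest S Q) (low G S Q) := by
  intro x hx z hz hxz
  obtain ⟨y, hy, h1, -⟩ := (mem_filter.1 hz).2
  rw [mem_rest] at hx
  rcases (h.pend y hy).2.2 z h1 x hxz.symm with h2 | h2
  exacts [hx.2 y hy h2, hx.1 (h2 ▸ hy)]

theorem rem_sub_low {D : Finset V} (hD : S ⊆ D) :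
    rem G univ D ⊆ rem G (rest S Q) D ∪ low G S Q := by
  intro x hx
  rw [mem_rem] at hx
  by_cases hr : x ∈ rest S Q
  · exact mem_union_left _ (mem_rem.2 ⟨hr, hx.2⟩)
  · rw [mem_rest] at hr
    push Not at hr
    obtain ⟨y, hy, hxy⟩ := hr fun hxS => (hx.2 x (hD hxS)).1 rfl
    exact mem_union_right _ (mem_filter.2 ⟨mem_univ _, y, hy, hxy, (hx.2 y (hD hy)).2⟩)

theorem lift (h : Units G k S Q) (hk : 1 ≤ k) (hG : Conn G univ) {D0 D : Finset V}
    (hf : Free G k (rem G (rem G (rest S Q) (S ∪ D0)) D)) :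
    Free G k (rem G univ (S ∪ D0 ∪ D)) := by
  refine (hf.union (h.low_free hk hG) (h.low_na.mono ((rem_sub _ _).trans (rem_sub _ _))
    subset_rfl)).mono ((rem_sub_low (Q := Q) (S := S)
      (subset_union_left.trans subset_union_left)).trans (union_subset_union_left fun x hx => ?_))
  rw [mem_rem] at hx
  exact mem_rem.2 ⟨mem_rem.2 ⟨hx.1, fun d hd => hx.2 d (mem_union_left _ hd)⟩,
    fun d hd => hx.2 d (mem_union_right _ hd)⟩

theorem out_rem (h : Units G k S Q) {D0 : Finset V} {x z : V}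
    (hx : x ∈ rem G (rest S Q) (S ∪ D0)) (hxz : G.Adj x z) :
    z ∈ rem G (rest S Q) (S ∪ D0) ∨ z ∈ rest S Q \ rem G (rest S Q) (S ∪ D0) := by
  rcases h.nb_rest (rem_sub _ _ hx) hxz with h1 | h1
  · exact absurd hxz.symm ((mem_rem.1 hx).2 z (mem_union_left _ h1)).2
  · rw [mem_sdiff]; tauto

end Units

theorem kernel_bound (hk : k = 1 ∨ 3 ≤ k) (hG : Conn G univ) {S : Finset V} {Q : V → Finset V}
    (h : Units G k S Q) (hmax : ∀ y ∈ rest S Q, ∀ P ⊆ rest S Q, ¬ Pend G k y P) {g : ℕ}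
    (hg : ∀ E : Finset V, Free G k (rem G univ E) → Fintype.card V ≤ (k + 1) * E.card + g) :
    (rest S Q).card ≤ 2000000 * (k + 1) ^ 14 * (g + 1) := by
  have hK : 2 ≤ k + 1 := by omega
  by_cases hsp : Sp G k univ
  · have h1 := card_le_card (subset_univ (rest S Q))
    have h2 : (univ : Finset V).card ≤ k + 1 := hsp.2.1.trans (min_le_left _ _)
    have h3 : k + 1 ≤ (k + 1) ^ 14 := Nat.le_self_pow (by omega) _
    nlinarith only [hK, h1, h2, h3]
  set R := rest S Q with hR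
  have hn := h.card_eq
  have gain : ∀ D0 D : Finset V, Free G k (rem G (rem G R (S ∪ D0)) D) →
      R.card ≤ (k + 1) * D0.card + (k + 1) * D.card + g := by
    intro D0 D hf
    have h1 := hg _ (h.lift (by omega) hG hf)
    have h2 := Nat.mul_le_mul_left (k + 1) ((card_union_le (S ∪ D0) D).trans
      (Nat.add_le_add_right (card_union_le S D0) _))
    rw [mul_add, mul_add] at h2
    rw [← hR] at hn
    omega
  have marks : ∀ D0 : Finset V,
      (R \ rem G R (S ∪ D0)).card ≤ 2 * ((k + 1) * D0.card) + 2 * g := by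
    intro D0
    obtain ⟨D, hf, hi⟩ := link (G := G) hk (rem G R (S ∪ D0)) (R \ rem G R (S ∪ D0))
      fun P hP hcl => by
        by_contra hcon
        have hlk : ∀ q ∈ P, ∀ z, G.Adj q z → z ∈ P ∨ z ∈ lk G (R \ rem G R (S ∪ D0)) P :=
          fun q hq z hqz => (h.out_rem (hcl.1 hq) hqz).imp (fun hz => hcl.2 q hq z hz hqz)
            fun hz => mem_lk.2 ⟨hz, q, hq, hqz.symm⟩
        rcases (lk G (R \ rem G R (S ∪ D0)) P).eq_empty_or_nonempty with he | ⟨m, hm⟩
        · refine hsp (hG P ⟨subset_univ _, fun q hq z _ hqz => (hlk q hq z hqz).resolve_right ?_⟩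
            (hP.sp (by omega)).1 ▸ hP.sp (by omega))
          rw [he]; exact notMem_empty _
        · have hm' := mem_sdiff.1 (mem_lk.1 hm).1
          exact hmax m hm'.1 P (hcl.1.trans (rem_sub _ _)) ⟨hP, fun hh => hm'.2 (hcl.1 hh),
            fun q hq z hqz => (hlk q hq z hqz).imp_right fun hz =>
              card_le_one.1 (by omega) z hz m hm⟩
    have h1 := gain D0 D hf
    have h2 := card_sdiff_add_card_eq_card (rem_sub (G := G) R (S ∪ D0))
    omega
  obtain ⟨D0, hD0, hmaxD⟩ := exists_max_image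
    ((univ : Finset V).powerset.filter fun D0 =>
      4 * ((k + 1) * D0.card) ≤ (R \ rem G R (S ∪ D0)).card) Finset.card
    ⟨∅, by simp⟩
  have h4 := (mem_filter.1 hD0).2
  have h5 := marks D0
  have h6 := card_sdiff_add_card_eq_card (rem_sub (G := G) R (S ∪ D0))
  set U := rem G R (S ∪ D0) with hU
  have hdeg : ∀ v, (nb G U v).card ≤ 4 * (k + 1) := by
    intro v
    by_contra hcon
    obtain ⟨z, hz⟩ : (nb G U v).Nonempty := card_pos.1 (by omega)
    have hv : v ∉ D0 := fun hv =>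
      ((mem_rem.1 (mem_nb.1 hz).1).2 v (mem_union_right _ hv)).2 (mem_nb.1 hz).2
    have hd : Disjoint (R \ U) (nb G U v) :=
      disjoint_left.2 fun a ha ha' => (mem_sdiff.1 ha).2 (mem_nb.1 ha').1
    have hs : R \ U ∪ nb G U v ⊆ R \ rem G R (S ∪ insert v D0) := union_subset
      (sdiff_subset_sdiff subset_rfl (rem_mono subset_rfl
        (union_subset_union_right (subset_insert _ _)))) fun a ha => by
        rw [mem_nb] at ha
        exact mem_sdiff.2 ⟨rem_sub _ _ ha.1, fun hh =>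
          ((mem_rem.1 hh).2 v (mem_union_right _ (mem_insert_self _ _))).2 ha.2⟩
    have h7 := card_le_card hs
    rw [card_union_of_disjoint hd] at h7
    have := hmaxD (insert v D0) (mem_filter.2 ⟨mem_powerset.2 (subset_univ _), by
      rw [card_insert_of_notMem hv, mul_add]; omega⟩)
    rw [card_insert_of_notMem hv] at this
    omega
  have hM : (R \ U).card ≤ 4 * g := by omega
  set K := k + 1 with hKdef
  have hKK : 4 ≤ K * K := by nlinarith only [hK]
  have h7 := core2 (M := R \ U) (d := 4 * K) (g := g) (g1 := 17 * (K * K) * g) hk hG hsp hdeg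
    (fun x hx z hxz => h.out_rem hx hxz)
    (fun E hE => by have := gain D0 E hE; rw [← hKdef]; omega)
    (fun y hy P hP => hmax y (rem_sub _ _ hy) P (hP.trans (rem_sub _ _)))
    (by
      have := Nat.mul_le_mul_left (K * (4 * K)) hM
      have := Nat.mul_le_mul_right g (show 1 ≤ K * K by omega)
      nlinarith)
  rw [← hKdef] at h7
  have e1 : (1 + 4 * K * K) ^ 5 ≤ (5 * (K * K)) ^ 5 := Nat.pow_le_pow_left (by nlinarith only [hKK]) 5
  have e2 : 6 * (17 * (K * K) * g) + 7 * (4 * K) * (17 * (K * K) * g) + 4 * K * (R \ U).card + 1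
      ≤ 532 * (K * K * K) * (g + 1) := by
    have a1 := Nat.mul_le_mul_left (4 * K) hM
    have a2 : K * K * g * 2 ≤ K * K * g * K := Nat.mul_le_mul_left _ hK
    have a3 : K * g * 4 ≤ K * g * (K * K) := Nat.mul_le_mul_left _ hKK
    have a4 : 1 ≤ K * K * K := by nlinarith only [hKK, hK]
    nlinarith only [a1, a2, a3, a4]
  have e3 := Nat.mul_le_mul_left K (Nat.mul_le_mul e1 e2)
  have e4 : K * ((5 * (K * K)) ^ 5 * (532 * (K * K * K) * (g + 1))) =
      1662500 * (K ^ 14 * (g + 1)) := by ring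
  have e5 : K * K * g ≤ K ^ 14 * (g + 1) := by
    refine Nat.mul_le_mul ?_ (Nat.le_succ g)
    rw [← pow_two]
    exact Nat.pow_le_pow_right (by omega) (by omega)
  have e6 : g ≤ K * K * g := Nat.le_mul_of_pos_left g (by omega)
  rw [mul_assoc]
  nlinarith only [h6, hM, h7, e3, e5, e6]

theorem exists_units (G : SimpleGraph V) (k : ℕ) : ∃ S Q, Units G k S Q ∧
    ∀ y ∈ rest S Q, ∀ P ⊆ rest S Q, ¬ Pend G k y P := by
  obtain ⟨S, hS, hmax⟩ := exists_max_image
    ((univ : Finset V).powerset.filter fun S => ∃ Q, Units G k S Q) Finset.card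
    ⟨∅, mem_filter.2 ⟨empty_mem_powerset _, fun _ => ∅, by simp, by simp, by simp⟩⟩
  obtain ⟨Q, h⟩ := (mem_filter.1 hS).2
  refine ⟨S, Q, h, fun y hy P hP hp => ?_⟩
  rw [mem_rest] at hy
  have hup : ∀ z ∈ S, Function.update Q y P z = Q z := fun z hz =>
    Function.update_of_ne (fun e : z = y => hy.1 (e ▸ hz)) _ _
  have := hmax (insert y S) (mem_filter.2 ⟨mem_powerset.2 (subset_univ _),
    Function.update Q y P, fun a ha => ?_, fun a ha b hb => ?_, fun a ha b hb hab => ?_⟩)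
  · rw [card_insert_of_notMem hy.1] at this
    omega
  · rcases mem_insert.1 ha with e | ha
    · rw [e, Function.update_self]; exact hp
    · rw [hup a ha]; exact h.pend a ha
  · rcases mem_insert.1 ha with e1 | ha' <;> rcases mem_insert.1 hb with e2 | hb'
    · rw [e1, e2, Function.update_self]; exact hp.2.1
    · rw [e1, hup b hb']; exact hy.2 b hb'
    · rw [e2, Function.update_self]; exact fun hh => (mem_rest.1 (hP hh)).1 ha'
    · rw [hup b hb']; exact h.out a ha' b hb'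
  · rcases mem_insert.1 ha with e1 | ha' <;> rcases mem_insert.1 hb with e2 | hb'
    · exact absurd (e1.trans e2.symm) hab
    · rw [e1, Function.update_self, hup b hb']
      exact disjoint_left.2 fun x hx => (mem_rest.1 (hP hx)).2 b hb'
    · rw [e2, Function.update_self, hup a ha']
      exact disjoint_right.2 fun x hx => (mem_rest.1 (hP hx)).2 a ha'
    · rw [hup a ha', hup b hb']; exact h.disj a ha' b hb' hab

end Pool.Agent.IsoKer
end
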