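import Pool.Agent.Work.MP_1346a1_co.Global
import Pool.Agent.Work.MP_1346a1_co.Defs

-- merged part: Pool.Agent.Work.MP_1346a1_co.TwoCore
section
/-! Counting blocks: general versions and the case `k = 2`. -/

namespace Pool.Agent.IsoKer

open Finset
open scoped Classical

variable {V : Type*} {G : SimpleGraph V} {k : ℕ}

theorem Sys.exists_good' (hk : 1 ≤ k) (t : ℕ) {U D M : Finset V} {B : V → Finset V} {d g : ℕ}
    (h : Sys G k U D B) (hdeg : ∀ v, (nb G U v).card ≤ d)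
    (hout : ∀ x ∈ U, ∀ z, G.Adj x z → z ∈ U ∨ z ∈ M)
    (hg : ∀ E : Finset V, Free G k (rem G U E) → U.card ≤ (k + 1) * E.card + g) :
    ∃ Gd ⊆ D, (∀ x ∈ Gd, Bk G k x (B x)) ∧
      (∀ J ⊆ Gd, J.card ≤ t → Tight G k J.card (J.biUnion B)) ∧
      (D \ Gd).card ≤ (t + 1) * g + (t + 2) * d * g + d * M.card ∧
      ∀ x ∈ Gd, ∀ v ∈ B x, ∀ z, G.Adj v z → ∃ x' ∈ D, z ∈ B x' := by
  set W := U \ D.biUnion B with hW
  have hb : (D.biUnion B).card = ∑ x ∈ D, (B x).card :=
    card_biUnion fun x hx y hy hxy => h.disj x hx y hy hxy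
  have hWc := card_sdiff_add_card_eq_card (biUnion_subset.2 h.sub)
  have h1 := hg D h.iso
  have h2 := h.ineq
  have h3 := h.nonfull
  have h4 := h.bound
  have hW2 : W.card ≤ 2 * g := by rw [hW]; omega
  have hNF : (D.filter fun x => (B x).card ≠ k + 1).card ≤ g := by omega
  obtain ⟨T, hT, hmax⟩ := exists_max_image
    (D.powerset.filter fun T => (∀ x ∈ T, NA G W (B x)) ∧
      ∃ E : Finset V, Free G k (rem G (T.biUnion B) E) ∧ t * E.card + T.card ≤ t * T.card)
    Finset.card ⟨∅, mem_filter.2 ⟨empty_mem_powerset _, by simp, ∅,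
      (free_empty hk).mono (by rw [biUnion_empty]; exact rem_sub _ _), by simp⟩⟩
  obtain ⟨hTD, hTW, E, hE, hEc⟩ := mem_filter.1 hT
  rw [mem_powerset] at hTD
  have h5 := hg _ (h.exchange hTW hE)
  have h6 := Nat.mul_le_mul_left (k + 1) (card_union_le (D \ T) E)
  have h7 := congrArg ((k + 1) * ·) (card_sdiff_add_card_eq_card hTD)
  have h8 := Nat.mul_le_mul_left (k + 1) hEc
  simp only [mul_add] at h6 h7
  have h9 : (k + 1) * T.card ≤ (k + 1) * E.card + g := by omega
  have h10 := Nat.mul_le_mul_left t h9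
  have hKT : (k + 1) * T.card ≤ t * g := by nlinarith only [h8, h10]
  have hTc : T.card ≤ t * g := by nlinarith only [h8, h10]
  have hUT : (T.biUnion B).card ≤ t * g := (h.union_card hTD).trans hKT
  refine ⟨D.filter fun x => (B x).card = k + 1 ∧ NA G W (B x) ∧ NA G M (B x) ∧ x ∉ T ∧
    NA G (T.biUnion B) (B x), filter_subset _ _, fun x hx => ?_,
      fun J hJ hJ5 E' hE' hf => ?_, ?_, fun x hx v hv z hvz => ?_⟩
  · rw [mem_filter] at hx
    exact ⟨h.mem x hx.1, hx.2.1, h.dom x hx.1⟩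
  · have hd : Disjoint T J := disjoint_left.2 fun x hx hx' => (mem_filter.1 (hJ hx')).2.2.2.2.1 hx
    have hna : NA G (T.biUnion B) (J.biUnion B) := fun a ha z hz => by
      obtain ⟨x, hx, hzx⟩ := mem_biUnion.1 hz
      exact (mem_filter.1 (hJ hx)).2.2.2.2.2 a ha z hzx
    have := hmax (T ∪ J) (mem_filter.2 ⟨mem_powerset.2
      (union_subset hTD (hJ.trans (filter_subset _ _))), fun x hx => ?_, E ∪ E',
      free_rem_union hE hf hna (by rw [union_biUnion]), ?_⟩)
    · rw [card_union_of_disjoint hd] at this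
      omega
    · rcases mem_union.1 hx with h9 | h9
      exacts [hTW x h9, (mem_filter.1 (hJ h9)).2.2.1]
    · have b1 := Nat.mul_le_mul_left t (card_union_le E E')
      have b2 := Nat.mul_le_mul_left t (show E'.card + 1 ≤ J.card by omega)
      rw [card_union_of_disjoint hd]
      simp only [mul_add] at b1 b2 ⊢
      omega
  · have hs : D \ (D.filter fun x => (B x).card = k + 1 ∧ NA G W (B x) ∧ NA G M (B x) ∧ x ∉ T ∧
        NA G (T.biUnion B) (B x)) ⊆ (D.filter fun x => (B x).card ≠ k + 1) ∪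
        (D.filter fun x => ¬ NA G W (B x)) ∪ (D.filter fun x => ¬ NA G M (B x)) ∪ T ∪
        (D.filter fun x => ¬ NA G (T.biUnion B) (B x)) := fun x hx => by
      simp only [mem_sdiff, mem_filter, mem_union] at hx ⊢
      clear * - hx; grind
    have a1 := h.adj_card (X := W) hdeg
    have a2 := h.adj_card (X := M) hdeg
    have a3 := h.adj_card (X := T.biUnion B) hdeg
    have a4 := Nat.mul_le_mul_left d hW2
    have a5 := Nat.mul_le_mul_left d hUT
    refine (card_le_card hs).trans ((card_union_le _ _).trans ?_)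
    refine (Nat.add_le_add_right ((card_union_le _ _).trans (Nat.add_le_add_right
      ((card_union_le _ _).trans (Nat.add_le_add_right (card_union_le _ _) _)) _)) _).trans ?_
    nlinarith only [h1, h2, h3, hTc, a1, a2, a3, a4, a5]
  · rw [mem_filter] at hx
    rcases hout v (h.sub x hx.1 hv) z hvz with h9 | h9
    · by_contra hcon
      exact hx.2.2.1 z (mem_sdiff.2 ⟨h9, fun hh => hcon (mem_biUnion.1 hh)⟩) v hv hvz.symm
    · exact absurd hvz.symm (hx.2.2.2.1 z h9 v hv)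

theorem Sys.levels [Fintype V] (hG : Conn G univ) {U D Gd : Finset V} {B : V → Finset V} {d : ℕ}
    (h : Sys G k U D B) (hdeg : ∀ v, (nb G U v).card ≤ d)
    (hnb : ∀ x ∈ Gd, ∀ v ∈ B x, ∀ z, G.Adj v z → ∃ x' ∈ D, z ∈ B x') :
    ∃ lev : V → ℕ, (∀ x ∈ D, ∀ y ∈ D, ¬ NA G (B x) (B y) → lev x ≤ lev y + 1) ∧
      (∀ x ∈ D, 1 ≤ lev x → ∃ y ∈ D, lev x = lev y + 1 ∧ ¬ NA G (B x) (B y)) ∧
      (∀ x ∈ D, 1 ≤ lev x → x ∈ Gd) ∧
      ∀ L, (∀ x ∈ D, lev x ≤ L) → D.card ≤ (1 + d * (k + 1)) ^ L * ((D \ Gd).card + 1) := by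
  rcases D.eq_empty_or_nonempty with rfl | ⟨x0, hx0⟩
  · exact ⟨fun _ => 0, by simp, by simp, by simp, by simp⟩
  have hA : insert x0 (D \ Gd) ⊆ D := insert_subset hx0 sdiff_subset
  set A := layer G D B (insert x0 (D \ Gd)) with hAdef
  have hgd : ∀ x ∈ D, x ∉ A 0 → x ∈ Gd := fun x hx h0 => by
    by_contra hcon
    exact h0 (mem_insert_of_mem (mem_sdiff.2 ⟨hx, hcon⟩))
  have hall : ∀ x ∈ D, ∃ j, x ∈ A j := by
    by_contra hcon
    push Not at hcon
    obtain ⟨x, hx, hxj⟩ := hcon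
    have hcl : Cl G ((D.filter fun x => ∀ j, x ∉ A j).biUnion B) univ := by
      refine ⟨subset_univ _, fun v hv z _ hvz => ?_⟩
      obtain ⟨y, hy, hvy⟩ := mem_biUnion.1 hv
      rw [mem_filter] at hy
      obtain ⟨x', hx', hz⟩ := hnb y (hgd y hy.1 (hy.2 0)) v hvy z hvz
      exact mem_biUnion.2 ⟨x', mem_filter.2 ⟨hx', fun j hj =>
        hy.2 (j + 1) (layer_step hy.1 hj fun hn => hn v hvy z hz hvz)⟩, hz⟩
    have he := hG _ hcl ⟨x, mem_biUnion.2 ⟨x, mem_filter.2 ⟨hx, hxj⟩, h.mem x hx⟩⟩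
    obtain ⟨y, hy, hxy⟩ := mem_biUnion.1 (he ▸ mem_univ x0 : x0 ∈ _)
    rw [mem_filter] at hy
    have : y = x0 := by
      by_contra hne
      exact disjoint_left.1 (h.disj y hy.1 x0 hx0 hne) hxy (h.mem x0 hx0)
    exact hy.2 0 (this ▸ mem_insert_self _ _)
  let lev : V → ℕ := fun x => sInf {j | x ∈ A j}
  have hl1 : ∀ x ∈ D, x ∈ A (lev x) := fun x hx => Nat.sInf_mem (s := {j | x ∈ A j}) (hall x hx)
  have hl2 : ∀ x j, x ∈ A j → lev x ≤ j := fun x j hj => Nat.sInf_le hj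
  have hlev : ∀ x ∈ D, ∀ y ∈ D, ¬ NA G (B x) (B y) → lev x ≤ lev y + 1 :=
    fun x hx y hy hxy => hl2 x _ (layer_step hx (hl1 y hy) hxy)
  refine ⟨lev, hlev, fun x hx h1 => ?_, fun x hx h1 => hgd x hx fun h0 => ?_, fun L hL => ?_⟩
  · obtain ⟨j, hj⟩ : ∃ j, lev x = j + 1 := ⟨lev x - 1, by omega⟩
    have h2 := hl1 x hx
    rw [hj] at h2
    rcases mem_union.1 h2 with h3 | h3
    · have := hl2 x j h3
      omega
    · have h4 := (mem_filter.1 h3).2
      simp only [NA, not_forall, not_not] at h4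
      obtain ⟨a, ha, z, hz, haz⟩ := h4
      obtain ⟨y, hy, hay⟩ := mem_biUnion.1 ha
      have h5 : ¬ NA G (B x) (B y) := fun hn => hn z hz a hay haz.symm
      have h6 := hl2 y j hy
      have h7 := hlev x hx y (layer_sub hA j hy) h5
      exact ⟨y, layer_sub hA j hy, by omega, h5⟩
  · have := hl2 x 0 h0
    omega
  · have h5 : D ⊆ A L := fun x hx => layer_mono (hL x hx) (hl1 x hx)
    exact (card_le_card h5).trans ((h.layer_card hdeg hA L).trans
      (Nat.mul_le_mul_left _ (card_insert_le _ _)))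

theorem exists_geo {D Gd : Finset V} {B : V → Finset V} (hGd : Gd ⊆ D) {lev : V → ℕ}
    (hlev : ∀ x ∈ D, ∀ y ∈ D, ¬ NA G (B x) (B y) → lev x ≤ lev y + 1)
    (hdown : ∀ x ∈ D, 1 ≤ lev x → ∃ y ∈ D, lev x = lev y + 1 ∧ ¬ NA G (B x) (B y))
    (hgl : ∀ x ∈ D, 1 ≤ lev x → x ∈ Gd) {x0 : V} (h0 : x0 ∈ D) {n : ℕ} (hn : n < lev x0) :
    ∃ x : ℕ → V, Geo G Gd B x n ∧ ∀ i ≤ n, x i ∈ D ∧ lev (x i) + i = lev x0 := by
  choose! nx n1 n2 n3 using hdown
  have key : ∀ i ≤ n, nx^[i] x0 ∈ D ∧ lev (nx^[i] x0) + i = lev x0 := by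
    intro i
    induction i with
    | zero => exact fun _ => ⟨h0, rfl⟩
    | succ i ih =>
      intro hi
      obtain ⟨a1, a2⟩ := ih (by omega)
      rw [Function.iterate_succ_apply']
      have := n2 _ a1 (by omega)
      exact ⟨n1 _ a1 (by omega), by omega⟩
  refine ⟨fun i => nx^[i] x0, ⟨fun i hi => hgl _ (key i hi).1 (by have := (key i hi).2; omega),
    fun i hi => ?_, fun i j h1 h2 e => ?_, fun i j h1 h2 => ?_, fun a ha i j h1 h2 => ?_⟩, key⟩
  · rw [Function.iterate_succ_apply']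
    have := key i (by omega)
    exact n3 _ this.1 (by omega)
  · have a1 := (key i (by omega)).2
    have a2 := (key j h2).2
    rw [e] at a1
    omega
  · by_contra hcon
    have a1 := key i (by omega)
    have a2 := key j h2
    have := hlev _ a1.1 _ a2.1 hcon
    omega
  · by_contra hcon
    rw [not_or] at hcon
    have a1 := key i (by omega)
    have a2 := key j h2
    have := hlev _ a1.1 _ (hGd ha) fun e => hcon.1 e.symm
    have := hlev _ (hGd ha) _ a2.1 hcon.2
    omega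

/-- Pendant units for `k = 2`. -/
def Pend2 (G : SimpleGraph V) (y : V) (P : Finset V) : Prop :=
  (Clq G 2 P ∨ (Cy G P ∧ ¬ Free G 2 (rem G P {y}))) ∧ y ∉ P ∧
    ∀ q ∈ P, ∀ z, G.Adj q z → z ∈ P ∨ z = y

theorem Pend2.sp {y : V} {P : Finset V} (h : Pend2 G y P) : Sp2 G P := h.1.imp_right And.left

theorem two_core1 [Fintype V] (hG : Conn G univ) {U M : Finset V} {d g : ℕ}
    (hU : NoSp2 G U) (hdeg : ∀ v, (nb G U v).card ≤ d)
    (hout : ∀ x ∈ U, ∀ z, G.Adj x z → z ∈ U ∨ z ∈ M)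
    (hg : ∀ E : Finset V, Free G 2 (rem G U E) → U.card ≤ (2 + 1) * E.card + g)
    (hp : ∀ y ∈ U, ∀ Q ⊆ U, ¬ Pend2 G y Q) :
    U.card ≤ 3 * ((1 + d * 3) ^ 8 * (8 * g + 9 * d * g + d * M.card + 1)) + g := by
  obtain ⟨D, B, h⟩ := hasSys2 U hU
  refine (hg D h.iso).trans (Nat.add_le_add_right (Nat.mul_le_mul_left _ ?_) _)
  obtain ⟨Gd, hGd, hbk, htight, hbad, hnb⟩ := h.exists_good' (by omega) 7 hdeg hout hg
  obtain ⟨lev, hlev, hdown, hgl, hL⟩ := h.levels hG hdeg hnb
  refine (hL 8 fun x0 h0 => ?_).trans (Nat.mul_le_mul_left _ (Nat.add_le_add_right hbad 1))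
  by_contra hcon
  have good : Good2 G Gd B := ⟨hbk, fun x hx y hy => h.disj x (hGd hx) y (hGd hy), htight⟩
  obtain ⟨x, geo, hx⟩ := exists_geo hGd hlev hdown hgl h0 (n := 8) (by omega)
  have hout' : ∀ z ∈ D, 3 ≤ lev z → Out2 G Gd B z := by
    intro z hz h3 y hy hq
    have hz' := hgl z hz (by omega)
    have := hp y (h.sub z hz hy) _ ((erase_subset y _).trans (h.sub z hz))
    simp only [Pend2, not_and, not_forall, not_or] at this
    obtain ⟨q, hq1, v, hqv, hv1, hv2⟩ := this (Or.inl hq) (notMem_erase _ _)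
    obtain ⟨e, he, hve⟩ := hnb z hz' q (mem_of_mem_erase hq1) v hqv
    have h4 := hlev z hz e he fun hn => hn q (mem_of_mem_erase hq1) v hve hqv
    have hez : e ≠ z := fun e1 => hv1 (mem_erase.2 ⟨hv2, e1 ▸ hve⟩)
    have he' := hgl e he (by omega)
    refine ⟨e, he', hez, fun hn => hn v hve q hq1 hqv.symm, fun c1 c2 => ?_⟩
    have := hp y (h.sub z hz hy) _ (union_subset (h.sub e he)
      ((erase_subset y _).trans (h.sub z hz)))
    simp only [Pend2, not_and, not_forall, not_or] at this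
    obtain ⟨u, hu, w, huw, hw1, hw2⟩ := this (Or.inr ⟨c1, c2⟩) fun hh =>
      (mem_union.1 hh).elim (fun h5 => disjoint_left.1 (h.disj e he z hz hez) h5 hy)
        (notMem_erase _ _)
    have : ∃ f ∈ D, w ∈ B f ∧ 1 ≤ lev f := by
      rcases mem_union.1 hu with h5 | h5
      · obtain ⟨f, hf, hwf⟩ := hnb e he' u h5 w huw
        have := hlev e he f hf fun hn => hn u h5 w hwf huw
        exact ⟨f, hf, hwf, by omega⟩
      · obtain ⟨f, hf, hwf⟩ := hnb z hz' u (mem_of_mem_erase h5) w huw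
        have := hlev z hz f hf fun hn => hn u (mem_of_mem_erase h5) w hwf huw
        exact ⟨f, hf, hwf, by omega⟩
    obtain ⟨f, hf, hwf, h6⟩ := this
    exact ⟨f, hgl f hf h6, fun e1 => hw1 (mem_union_left _ (e1 ▸ hwf)),
      fun e1 => hw1 (mem_union_right _ (mem_erase.2 ⟨hw2, e1 ▸ hwf⟩)),
      fun hn => hn w hwf u hu huw.symm⟩
  have o : ∀ i ≤ 6, Out2 G Gd B (x i) := fun i hi =>
    hout' _ (hx i (by omega)).1 (by have := (hx i (by omega)).2; omega)
  exact good.no_path geo (o 2 (by omega)) (o 3 (by omega)) (o 5 (by omega)) (o 6 le_rfl)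

theorem two_core2 [Fintype V] (hG : Conn G univ) (hsp : ¬ Sp2 G univ) {U M : Finset V}
    {d g : ℕ} (hdeg : ∀ v, (nb G U v).card ≤ d)
    (hout : ∀ x ∈ U, ∀ z, G.Adj x z → z ∈ U ∨ z ∈ M)
    (hg : ∀ E : Finset V, Free G 2 (rem G U E) → U.card ≤ (2 + 1) * E.card + g)
    (hp : ∀ y ∈ U, ∀ Q ⊆ U, ¬ Pend2 G y Q) {g1 : ℕ}
    (hg1 : g + 3 * (d * M.card + d * (d * M.card)) ≤ g1) :
    U.card ≤ 3 * ((1 + d * 3) ^ 8 * (8 * g1 + 9 * d * g1 + d * M.card + 1)) + 2 * g1 := by
  set Z := U.filter fun x => ∃ C, Sp2 G C ∧ Cl G C U ∧ x ∈ C with hZ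
  have hZcl : Cl G Z U := ⟨filter_subset _ _, fun x hx y hy hxy => by
    obtain ⟨C, h1, h2, h3⟩ := (mem_filter.1 hx).2
    exact mem_filter.2 ⟨hy, C, h1, h2, h2.2 x h3 y hy hxy⟩⟩
  have hno : NoSp2 G (U \ Z) := fun C h1 h2 => by
    obtain ⟨x, hx⟩ := h1.nonempty
    have := mem_sdiff.1 (h2.1 hx)
    exact this.2 (mem_filter.2 ⟨this.1, C, h1, h2.trans hZcl.sdiff, hx⟩)
  set N := M.biUnion (nb G U) with hN
  have hNc : N.card ≤ d * M.card := nbs_card hdeg
  have hN2 : (N.biUnion (nb G U)).card ≤ d * (d * M.card) :=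
    (nbs_card hdeg).trans (Nat.mul_le_mul_left _ hNc)
  have hZN : Free G 2 (rem G Z (N ∪ N.biUnion (nb G U))) := by
    refine (free_empty (by omega)).mono fun x hx => ?_
    exfalso
    rw [mem_rem] at hx
    obtain ⟨C, h1, h2, h3⟩ := (mem_filter.1 hx.1).2
    obtain ⟨q, hq, hqN⟩ : ∃ q ∈ C, q ∈ N := by
      by_contra hcon
      push Not at hcon
      refine hsp (hG C ⟨subset_univ _, fun a ha b _ hab => ?_⟩ h1.nonempty ▸ h1)
      rcases hout a (h2.1 ha) b hab with h4 | h4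
      · exact h2.2 a ha b h4 hab
      · exact absurd (mem_biUnion.2 ⟨b, h4, mem_nb.2 ⟨h2.1 ha, hab.symm⟩⟩) (hcon a ha)
    have k1 := hx.2 q (mem_union_left _ hqN)
    have k2 : ∀ b ∈ C, G.Adj q b → ¬ G.Adj b x := fun b hb hqb =>
      (hx.2 b (mem_union_right _ (mem_biUnion.2 ⟨q, hqN, mem_nb.2 ⟨h2.1 hb, hqb⟩⟩))).2
    rcases h1 with h1 | h1
    · exact k1.2 (h1.2 q hq x h3 k1.1.symm)
    · obtain ⟨b, c, d, e, p⟩ := h1.pent hq
      rcases (p.mem x).1 h3 with rfl | rfl | rfl | rfl | rfl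
      exacts [k1.1 rfl, k1.2 p.ab, k2 b p.hb p.ab p.bc, k2 e p.he p.ea.symm p.de.symm,
        k1.2 p.ea.symm]
  have hg2 : ∀ E : Finset V, Free G 2 (rem G (U \ Z) E) → U.card ≤ (2 + 1) * E.card + g1 := by
    intro E hE
    have h1 := hg _ (free_rem_cl hZcl hE hZN)
    have h2 := card_union_le E (N ∪ N.biUnion (nb G U))
    have h3 := card_union_le N (N.biUnion (nb G U))
    omega
  have hc := card_sdiff_add_card_eq_card hZcl.1
  obtain ⟨D, f1, f2⟩ := bound2 (U \ Z) hno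
  have h1 := hg2 D f1
  have h3 := two_core1 (M := M) (d := d) (g := g1) hG hno
    (fun v => (nb_card_mono sdiff_subset v).trans (hdeg v))
    (fun x hx z hxz => (hout x (mem_sdiff.1 hx).1 z hxz).imp_left fun hz =>
      hZcl.sdiff.2 x hx z hz hxz)
    (fun E hE => (card_le_card sdiff_subset).trans (hg2 E hE))
    (fun y hy Q hQ => hp y (mem_sdiff.1 hy).1 Q (hQ.trans sdiff_subset))
  omega

theorem clean [Fintype V] {R S : Finset V} {g : ℕ}
    (gain : ∀ D0 D : Finset V, Free G k (rem G (rem G R (S ∪ D0)) D) →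
      R.card ≤ (k + 1) * D0.card + (k + 1) * D.card + g)
    (marks : ∀ D0 : Finset V,
      (R \ rem G R (S ∪ D0)).card ≤ 2 * ((k + 1) * D0.card) + 2 * g) :
    ∃ D0 : Finset V, (∀ v, (nb G (rem G R (S ∪ D0)) v).card ≤ 4 * (k + 1)) ∧
      (R \ rem G R (S ∪ D0)).card ≤ 4 * g ∧ ∀ E : Finset V,
        Free G k (rem G (rem G R (S ∪ D0)) E) →
          (rem G R (S ∪ D0)).card ≤ (k + 1) * E.card + g := by
  obtain ⟨D0, hD0, hmaxD⟩ := exists_max_image
    ((univ : Finset V).powerset.filter fun D0 =>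
      4 * ((k + 1) * D0.card) ≤ (R \ rem G R (S ∪ D0)).card) Finset.card
    ⟨∅, by simp⟩
  have h4 := (mem_filter.1 hD0).2
  have h5 := marks D0
  have h6 := card_sdiff_add_card_eq_card (rem_sub (G := G) R (S ∪ D0))
  refine ⟨D0, fun v => ?_, by omega, fun E hE => by have := gain D0 E hE; omega⟩
  set U := rem G R (S ∪ D0) with hU
  by_contra hcon
  obtain ⟨z, hz⟩ : (nb G U v).Nonempty := card_pos.1 (by omega)
  have hv : v ∉ D0 := fun hv =>
    ((mem_rem.1 (mem_nb.1 hz).1).2 v (mem_union_right _ hv)).2 (mem_nb.1 hz).2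
  have hd : Disjoint (R \ U) (nb G U v) :=
    disjoint_left.2 fun a ha ha' => (mem_sdiff.1 ha).2 (mem_nb.1 ha').1
  have hs : R \ U ∪ nb G U v ⊆ R \ rem G R (S ∪ insert v D0) := union_subset
    (sdiff_subset_sdiff subset_rfl (rem_mono subset_rfl
      (union_subset_union_right (subset_insert _ _)))) fun a ha => by
      rw [mem_nb] at ha
      exact mem_sdiff.2 ⟨rem_sub _ _ ha.1, fun hh =>
        ((mem_rem.1 hh).2 v (mem_union_right _ (mem_insert_self _ _))).2 ha.2⟩
  have h7 := card_le_card hs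
  rw [card_union_of_disjoint hd] at h7
  have := hmaxD (insert v D0) (mem_filter.2 ⟨mem_powerset.2 (subset_univ _), by
    rw [card_insert_of_notMem hv, mul_add]; omega⟩)
  rw [card_insert_of_notMem hv] at this
  omega

end Pool.Agent.IsoKer
end

-- merged part: Pool.Agent.Work.MP_1346a1_co.Bridge
section
/-! From the finite-set notion of freeness to the families of the problem. -/

namespace Pool.Agent.IsoKer

open Finset Pool.Agent.IsoDefs
open scoped Classical

variable {V : Type*} {G : SimpleGraph V} {i k : ℕ}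

theorem hasF_iff {X : Set V} : HasF i k G X ↔
    ∃ (W : Type) (_ : Finite W) (H : SimpleGraph W) (f : W → V), InFam i k H ∧
      Function.Injective f ∧ (∀ a, f a ∈ X) ∧ ∀ a b, H.Adj a b → G.Adj (f a) (f b) := by
  constructor
  · rintro ⟨W, hW, H, hH, ⟨c⟩⟩
    exact ⟨W, hW, H, fun a => (c a : V), hH, Subtype.val_injective.comp c.injective,
      fun a => (c a).2, fun a b hab => c.toHom.map_adj hab⟩
  · rintro ⟨W, hW, H, f, hH, h1, h2, h3⟩
    exact ⟨W, hW, H, hH, ⟨⟨⟨fun a => ⟨f a, h2 a⟩, fun {a b} hab => h3 a b hab⟩,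
      fun a b e => h1 (congrArg Subtype.val e)⟩⟩⟩

theorem hasF_mono {X Y : Set V} (h : HasF i k G X) (hXY : X ⊆ Y) : HasF i k G Y := by
  rw [hasF_iff] at h ⊢
  obtain ⟨W, hW, H, f, hH, h1, h2, h3⟩ := h
  exact ⟨W, hW, H, f, hH, h1, fun a => hXY (h2 a), h3⟩

theorem hasF_induce {R : Set V} {Z : Set R} :
    HasF i k (G.induce R) Z ↔ HasF i k G (Subtype.val '' Z) := by
  rw [hasF_iff, hasF_iff]
  constructor
  · rintro ⟨W, hW, H, f, hH, h1, h2, h3⟩
    exact ⟨W, hW, H, fun a => (f a : V), hH, Subtype.val_injective.comp h1,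
      fun a => ⟨f a, h2 a, rfl⟩, h3⟩
  · rintro ⟨W, hW, H, f, hH, h1, h2, h3⟩
    choose g hg1 hg2 using h2
    refine ⟨W, hW, H, g, hH, fun a b e => h1 (by rw [← hg2 a, ← hg2 b, e]), hg1, fun a b hab => ?_⟩
    have := h3 a b hab
    rwa [← hg2 a, ← hg2 b] at this

theorem free_color {U : Finset V} (h : Free G k U) : ∀ T ⊆ U, ∃ c : V → ℕ,
    (∀ x ∈ T, c x + 1 < k) ∧ ∀ x ∈ T, ∀ y ∈ T, G.Adj x y → c x ≠ c y := by
  intro T
  induction hn : T.card using Nat.strong_induction_on generalizing T with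
  | _ n ih =>
  intro hT
  rcases T.eq_empty_or_nonempty with rfl | hne
  · exact ⟨fun _ => 0, by simp, by simp⟩
  obtain ⟨t, ht, hlt⟩ := h.2 T hT hne
  obtain ⟨c, h1, h2⟩ := ih _ (hn ▸ card_erase_lt_of_mem ht) (T.erase t) rfl
    ((erase_subset _ _).trans hT)
  obtain ⟨j, hj, hj'⟩ : ∃ j ∈ range (k - 1), j ∉ (nb G T t).image c := by
    refine exists_mem_notMem_of_card_lt_card ?_
    have := card_image_le (s := nb G T t) (f := c)
    rw [card_range]
    omega
  rw [mem_range] at hj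
  have hv : ∀ y ∈ T, G.Adj t y → j ≠ c y := fun y hy hty e =>
    hj' (mem_image.2 ⟨y, mem_nb.2 ⟨hy, hty⟩, e.symm⟩)
  refine ⟨Function.update c t j, fun x hx => ?_, fun x hx y hy hxy => ?_⟩
  · by_cases e : x = t
    · rw [e, Function.update_self]; omega
    · rw [Function.update_of_ne e]; exact h1 x (mem_erase.2 ⟨e, hx⟩)
  · by_cases e : x = t
    · subst e
      rw [Function.update_self, Function.update_of_ne hxy.ne.symm]
      exact hv y hy hxy
    · by_cases e' : y = t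
      · subst e'
        rw [Function.update_self, Function.update_of_ne e]
        exact (hv x hx hxy.symm).symm
      · rw [Function.update_of_ne e, Function.update_of_ne e']
        exact h2 x (mem_erase.2 ⟨e, hx⟩) y (mem_erase.2 ⟨e', hy⟩) hxy

theorem not_chr_iff {W : Type} {H : SimpleGraph W} (hk : 1 ≤ k) :
    ¬ IsChr k H ↔ H.Colorable (k - 1) := by
  rw [IsChr, not_le, ← SimpleGraph.chromaticNumber_le_iff_colorable]
  obtain ⟨m, rfl⟩ : ∃ m, k = m + 1 := ⟨k - 1, by omega⟩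
  rw [Nat.add_sub_cancel, Nat.cast_add, Nat.cast_one]
  exact ENat.lt_add_one_iff (ENat.natCast_ne_top m)

theorem Free.not_hasF (hk : 1 ≤ k) {U : Finset V} (h : Free G k U) : ¬ HasF i k G U := by
  rw [hasF_iff]
  rintro ⟨W, hW, H, f, hH, h1, h2, h3⟩
  have := Fintype.ofFinite W
  have hreg : ¬ IsReg k H := by
    rintro ⟨⟨a0⟩, d, hd, hreg⟩
    obtain ⟨t, ht, hlt⟩ := h.2 (univ.image f) (fun x hx => by
      obtain ⟨a, -, rfl⟩ := mem_image.1 hx
      exact h2 a) ⟨f a0, mem_image_of_mem f (mem_univ _)⟩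
    obtain ⟨a, -, rfl⟩ := mem_image.1 ht
    have hs : f '' H.neighborSet a ⊆ (nb G (univ.image f) (f a) : Set V) := by
      rintro _ ⟨b, hb, rfl⟩
      exact mem_coe.2 (mem_nb.2 ⟨mem_image_of_mem f (mem_univ _), h3 a b hb⟩)
    have := Set.ncard_le_ncard hs (finite_toSet _)
    rw [Set.ncard_image_of_injective _ h1, hreg, Set.ncard_coe_finset] at this
    omega
  have hchr : ¬ IsChr k H := by
    rw [not_chr_iff hk]
    obtain ⟨c, c1, c2⟩ := free_color h U subset_rfl
    exact ⟨SimpleGraph.Coloring.mk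
      (fun a => (⟨c (f a), by have := c1 _ (h2 a); omega⟩ : Fin (k - 1)))
      fun {a b} hab e => c2 _ (h2 a) _ (h2 b) (h3 a b hab) (congrArg Fin.val e)⟩
  have hstar : ¬ IsStarK k H := by
    rintro ⟨e⟩
    have hs : (univ : Finset (Fin k)).image (fun j => f (e.symm (Sum.inr j))) ⊆
        nb G U (f (e.symm (Sum.inl 0))) := fun x hx => by
      obtain ⟨j, -, rfl⟩ := mem_image.1 hx
      exact mem_nb.2 ⟨h2 _, h3 _ _ (e.symm.map_adj_iff.2 (by simp))⟩
    have h4 := card_le_card hs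
    rw [card_image_of_injective _ fun a b hab =>
      Sum.inr_injective (e.symm.injective (h1 hab)), card_univ, Fintype.card_fin] at h4
    have := h.1 _ (h2 (e.symm (Sum.inl 0)))
    omega
  rcases hH with h4 | h4 | ⟨-, h4 | h4 | h4⟩
  exacts [hreg h4.2, hchr h4.2, hstar h4, hreg h4, hchr h4]

theorem Clq.hasF (hi : i = 1 ∨ i = 2 ∨ i = 3) (hk : 1 ≤ k) {Q : Finset V} (h : Clq G k Q) :
    HasF i k G Q := by
  rw [hasF_iff]
  have e : Fin k ≃ Q := (Finset.equivFinOfCardEq h.1).symm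
  have hreg : IsReg k (⊤ : SimpleGraph (Fin k)) := by
    refine ⟨⟨⟨0, hk⟩⟩, k - 1, le_rfl, fun v => ?_⟩
    have : (⊤ : SimpleGraph (Fin k)).neighborSet v = (univ.erase v : Finset (Fin k)) := by
      ext w
      simp [eq_comm]
    rw [this, Set.ncard_coe_finset, card_erase_of_mem (mem_univ v), card_univ, Fintype.card_fin]
  have hchr : IsChr k (⊤ : SimpleGraph (Fin k)) := by
    rw [IsChr, SimpleGraph.chromaticNumber_top, Fintype.card_fin]
  refine ⟨Fin k, inferInstance, ⊤, fun a => (e a : V), ?_,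
    Subtype.val_injective.comp e.injective, fun a => (e a).2, fun a b hab =>
      h.2 _ (e a).2 _ (e b).2 fun e1 => hab.ne (e.injective (Subtype.val_injective e1))⟩
  rcases hi with h1 | h1 | h1
  exacts [Or.inl ⟨h1, hreg⟩, Or.inr (Or.inl ⟨h1, hchr⟩), Or.inr (Or.inr ⟨h1, Or.inr (Or.inl hreg)⟩)]

theorem reg_induce {W : Type} {H : SimpleGraph W} {P : Set W} {d : ℕ}
    (hP : ∀ a ∈ P, ∀ b, H.Adj a b → b ∈ P) (hreg : ∀ v, (H.neighborSet v).ncard = d) (v : P) :
    ((H.induce P).neighborSet v).ncard = d := by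
  rw [← hreg v, ← Set.ncard_image_of_injective _ Subtype.val_injective]
  congr 1
  ext b
  constructor
  · rintro ⟨c, hc, rfl⟩
    exact hc
  · exact fun hb => ⟨⟨b, hP v v.2 b hb⟩, hb, rfl⟩

theorem hasF_union (hk : 1 ≤ k) {X Y : Set V} (hna : ∀ x ∈ X, ∀ y ∈ Y, ¬ G.Adj x y)
    (h : HasF i k G (X ∪ Y)) : HasF i k G X ∨ HasF i k G Y := by
  rw [hasF_iff] at h
  obtain ⟨W, hW, H, f, hH, h1, h2, h3⟩ := h
  set P : Set W := {a | f a ∈ X} with hPdef
  have hP : ∀ a ∈ P, ∀ b, H.Adj a b → b ∈ P := fun a ha b hab =>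
    (h2 b).resolve_right fun hb => hna _ ha _ hb (h3 a b hab)
  have hP' : ∀ a ∈ Pᶜ, ∀ b, H.Adj a b → b ∈ Pᶜ := fun a ha b hab hb => ha (hP b hb a hab.symm)
  have fin1 : InFam i k (H.induce P) → HasF i k G X := fun hh => hasF_iff.2
    ⟨P, inferInstance, _, fun a => f a, hh, h1.comp Subtype.val_injective, fun a => a.2,
      fun a b hab => h3 _ _ hab⟩
  have fin2 : InFam i k (H.induce Pᶜ) → HasF i k G Y := fun hh => hasF_iff.2
    ⟨(Pᶜ : Set W), inferInstance, _, fun a => f a, hh, h1.comp Subtype.val_injective,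
      fun a => (h2 a).resolve_left a.2, fun a b hab => h3 _ _ hab⟩
  have hreg : IsReg k H → IsReg k (H.induce P) ∨ IsReg k (H.induce Pᶜ) := by
    rintro ⟨⟨a⟩, d, hd, hr⟩
    by_cases ha : a ∈ P
    exacts [Or.inl ⟨⟨⟨a, ha⟩⟩, d, hd, reg_induce hP hr⟩,
      Or.inr ⟨⟨⟨a, ha⟩⟩, d, hd, reg_induce hP' hr⟩]
  have hchr : IsChr k H → IsChr k (H.induce P) ∨ IsChr k (H.induce Pᶜ) := by
    intro hc
    by_contra hcon
    rw [not_or, not_chr_iff hk, not_chr_iff hk] at hcon
    obtain ⟨⟨c1⟩, ⟨c2⟩⟩ := hcon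
    refine (not_chr_iff hk).2 ⟨SimpleGraph.Coloring.mk
      (fun a => if ha : a ∈ P then c1 ⟨a, ha⟩ else c2 ⟨a, ha⟩) fun {a b} hab => ?_⟩ hc
    by_cases ha : a ∈ P
    · rw [dif_pos ha, dif_pos (hP a ha b hab)]
      exact c1.valid hab
    · rw [dif_neg ha, dif_neg (hP' a ha b hab)]
      exact c2.valid hab
  rcases hH with h4 | h4 | ⟨h4, h5 | h5 | h5⟩
  · exact (hreg h4.2).imp (fun hh => fin1 (Or.inl ⟨h4.1, hh⟩)) fun hh => fin2 (Or.inl ⟨h4.1, hh⟩)
  · exact (hchr h4.2).imp (fun hh => fin1 (Or.inr (Or.inl ⟨h4.1, hh⟩)))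
      fun hh => fin2 (Or.inr (Or.inl ⟨h4.1, hh⟩))
  · obtain ⟨e⟩ := id h5
    have hall : ∀ P' : Set W, (∀ a ∈ P', ∀ b, H.Adj a b → b ∈ P') → e.symm (Sum.inl 0) ∈ P' →
        ∀ a, a ∈ P' := by
      intro P' hc h0 a
      rw [← e.symm_apply_apply a]
      rcases e a with j | j
      · rwa [Subsingleton.elim j 0]
      · exact hc _ h0 _ (e.symm.map_adj_iff.2 (by simp))
    by_cases h0 : e.symm (Sum.inl 0) ∈ P
    · exact Or.inl (hasF_iff.2 ⟨W, hW, H, f, Or.inr (Or.inr ⟨h4, Or.inl h5⟩), h1,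
        hall P hP h0, h3⟩)
    · exact Or.inr (hasF_iff.2 ⟨W, hW, H, f, Or.inr (Or.inr ⟨h4, Or.inl h5⟩), h1,
        fun a => (h2 a).resolve_left (hall Pᶜ hP' h0 a), h3⟩)
  · exact (hreg h5).imp (fun hh => fin1 (Or.inr (Or.inr ⟨h4, Or.inr (Or.inl hh)⟩)))
      fun hh => fin2 (Or.inr (Or.inr ⟨h4, Or.inr (Or.inl hh)⟩))
  · exact (hchr h5).imp (fun hh => fin1 (Or.inr (Or.inr ⟨h4, Or.inr (Or.inr hh)⟩)))
      fun hh => fin2 (Or.inr (Or.inr ⟨h4, Or.inr (Or.inr hh)⟩))

end Pool.Agent.IsoKer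
end

-- merged part: Pool.Agent.Work.MP_1346a1_co.Final
section
/-! The isolation number splits along a family of pendant units. -/

namespace Pool.Agent.IsoKer

open Finset Pool.Agent.IsoDefs
open scoped Classical

variable {V : Type*} {G : SimpleGraph V} {i k : ℕ}

theorem conn_of_connected [Fintype V] (h : G.Connected) : Conn G univ := by
  intro T hT ⟨t, ht⟩
  refine eq_univ_of_forall fun x => ?_
  obtain ⟨w⟩ := h.preconnected t x
  induction w with
  | nil => exact ht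
  | cons hab _ ih => exact ih (hT.2 _ ht _ (mem_univ _) hab)

theorem coe_rem_univ [Fintype V] (D : Finset V) :
    (rem G univ D : Set V) = (closedNbhd G D)ᶜ := by
  ext x
  simp [closedNbhd]

theorem clq_iff {Q : Finset V} : Clq G k Q ↔ G.IsNClique k Q :=
  ⟨fun h => ⟨fun a ha b hb hab => h.2 a ha b hb hab, h.1⟩,
    fun h => ⟨h.2, fun _ ha _ hb hab => h.1 ha hb hab⟩⟩

theorem coe_rest [Fintype V] (S : Finset V) (Q : V → Finset V) :
    (rest S Q : Set V) = kernelSet S Q := by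
  ext x
  simp [mem_rest, kernelSet]

theorem not_hasF_empty (hk : 1 ≤ k) : ¬ HasF i k G ∅ := by
  simpa using (free_empty (G := G) hk).not_hasF (i := i) hk

theorem iota_le {D : Finset V} (h : ¬ HasF i k G (closedNbhd G D)ᶜ) : iota i k G ≤ D.card :=
  Nat.sInf_le ⟨D, rfl, h⟩

theorem iota_le_free [Fintype V] (hk : 1 ≤ k) {D : Finset V} (h : Free G k (rem G univ D)) :
    iota i k G ≤ D.card := iota_le (coe_rem_univ (G := G) D ▸ h.not_hasF hk)

theorem exists_iota [Fintype V] (hk : 1 ≤ k) :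
    ∃ D : Finset V, D.card = iota i k G ∧ ¬ HasF i k G (closedNbhd G D)ᶜ := by
  refine Nat.sInf_mem (s := {m | ∃ D : Finset V, D.card = m ∧ ¬ HasF i k G (closedNbhd G D)ᶜ})
    ⟨_, univ, rfl, fun h => not_hasF_empty hk (hasF_mono h fun x hx => ?_)⟩
  exact hx ⟨x, mem_univ _, Or.inl rfl⟩

theorem exists_iotaMarked [Finite V] (hk : 1 ≤ k) (M : Set V) :
    ∃ D : Finset V, D.card = iotaMarked i k G M ∧ ¬ HasF i k G (closedNbhd G D ∪ M)ᶜ := by
  have := Fintype.ofFinite V
  refine Nat.sInf_mem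
    (s := {m | ∃ D : Finset V, D.card = m ∧ ¬ HasF i k G (closedNbhd G D ∪ M)ᶜ})
    ⟨_, univ, rfl, fun h => not_hasF_empty hk (hasF_mono h fun x hx => ?_)⟩
  exact hx (Or.inl ⟨x, mem_univ _, Or.inl rfl⟩)

end Pool.Agent.IsoKer
end

-- merged part: Pool.Agent.Work.MP_1346a1_co.AllK
section
/-! Units for every `k` and the kernel theorem. -/

namespace Pool.Agent.IsoKer

open Finset Pool.Agent.IsoDefs
open scoped Classical

variable {V : Type*} {G : SimpleGraph V} {i k : ℕ}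

theorem free_biUnion (hk : 1 ≤ k) {S : Finset V} {X : V → Finset V}
    (h1 : ∀ y ∈ S, Free G k (X y)) (h2 : ∀ y ∈ S, ∀ y' ∈ S, y ≠ y' → NA G (X y) (X y')) :
    Free G k (S.biUnion X) := by
  induction S using Finset.induction_on with
  | empty => simpa using free_empty hk
  | insert a S ha ih =>
    rw [biUnion_insert]
    refine (h1 a (mem_insert_self _ _)).union (ih (fun y hy => h1 y (mem_insert_of_mem hy))
      fun y hy y' hy' => h2 y (mem_insert_of_mem hy) y' (mem_insert_of_mem hy'))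
      fun x hx z hz => ?_
    obtain ⟨y, hy, hzy⟩ := mem_biUnion.1 hz
    exact h2 a (mem_insert_self _ _) y (mem_insert_of_mem hy) (fun e => ha (e ▸ hy)) x hx z hzy

/-- Pendant units for every `k`. -/
def PendA (G : SimpleGraph V) (k : ℕ) (y : V) (P : Finset V) : Prop :=
  (Clq G k P ∨ (k = 2 ∧ Cy G P ∧ ¬ Free G 2 (rem G P {y}))) ∧ y ∉ P ∧
    ∀ q ∈ P, ∀ z, G.Adj q z → z ∈ P ∨ z = y

/-- A family of pairwise disjoint units. -/
structure Fam (G : SimpleGraph V) (k : ℕ) (S : Finset V) (Q : V → Finset V) : Prop where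
  pend : ∀ y ∈ S, PendA G k y (Q y)
  out : ∀ y ∈ S, ∀ y' ∈ S, y ∉ Q y'
  disj : ∀ y ∈ S, ∀ y' ∈ S, y ≠ y' → Disjoint (Q y) (Q y')

theorem clq2_of_not_free {X : Finset V} (h : ¬ Free G 2 X) : ∃ P ⊆ X, Clq G 2 P := by
  rw [free2_iff] at h
  simp only [NA, not_forall, not_not] at h
  obtain ⟨a, ha, b, hb, hab⟩ := h
  refine ⟨{a, b}, by simp [insert_subset_iff, ha, hb], card_pair hab.ne, fun x hx y hy hxy => ?_⟩
  simp only [mem_insert, mem_singleton] at hx hy
  rcases hx with rfl | rfl <;> rcases hy with rfl | rfl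
  exacts [absurd rfl hxy, hab, hab.symm, absurd rfl hxy]

theorem PendA.weight [Fintype V] (hk : 1 ≤ k) (hG : Conn G univ) {y : V} {P : Finset V}
    (h : PendA G k y P) : ∃ T : Finset V, Free G k (rem G P (insert y T)) ∧
      (k + 1) * (T.card + 1) = P.card + 1 ∧
      ∀ D : Finset V, (D ∩ insert y P).card ≤ T.card → ∃ P' ⊆ rem G P D, Clq G k P' := by
  have hne : P.Nonempty := by
    rcases h.1 with h1 | h1
    exacts [(h1.sp hk).1, Sp2.nonempty (Or.inr h1.2.1)]
  obtain ⟨q, hq, z, -, hzP, hqz⟩ := hG.exists_edge (subset_univ P) hne (mem_univ y) h.2.1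
  have hzy : z = y := (h.2.2 q hq z hqz).resolve_left hzP
  subst hzy
  have hrem : ∀ D : Finset V, rem G P (D ∩ insert z P) ⊆ rem G P D := fun D x hx => by
    rw [mem_rem] at hx ⊢
    refine ⟨hx.1, fun d hd => ?_⟩
    by_cases hdP : d ∈ insert z P
    · exact hx.2 d (mem_inter.2 ⟨hd, hdP⟩)
    · rw [mem_insert, not_or] at hdP
      exact ⟨fun e => hdP.2 (e ▸ hx.1), fun e => (h.2.2 x hx.1 d e.symm).elim hdP.2 hdP.1⟩
  rcases h.1 with h1 | ⟨rfl, h1, h2⟩
  · refine ⟨∅, free_small (rem_small h1.1.le hq (Or.inr hqz.symm)), by simp [h1.1],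
      fun D hD => ⟨P, fun x hx => hrem D ?_, h1⟩⟩
    rw [card_empty, Nat.le_zero, card_eq_zero] at hD
    simp [hD, hx]
  · obtain ⟨E, -, e1, e2⟩ := Sp2.iso_link (Or.inr h1) hq hqz.symm
    have h5 := h1.1
    refine ⟨E, e1, by omega, fun D hD => ?_⟩
    have : Nonempty V := ⟨q⟩
    obtain ⟨d, hd⟩ := card_le_one_iff_subset_singleton.1 (show (D ∩ insert z P).card ≤ 1 by omega)
    have hnf : ¬ Free G 2 (rem G P {d}) := by
      by_cases e : d = z
      · exact e ▸ h2
      rw [free2_iff]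
      by_cases hdP : d ∈ P
      · obtain ⟨b, c, e', f, p⟩ := h1.pent hdP
        exact fun hn => hn c (mem_rem1.2 ⟨p.hc, p.nac.symm, p.ac⟩) e'
          (mem_rem1.2 ⟨p.hd, p.nad.symm, p.ad⟩) p.cd
      · obtain ⟨b, hb, -, hqb⟩ := h1.other hq q
        have : ∀ x ∈ P, x ∈ rem G P {d} := fun x hx => mem_rem1.2 ⟨hx, fun e1 => hdP (e1 ▸ hx),
          fun e1 => (h.2.2 x hx d e1.symm).elim hdP e⟩
        exact fun hn => hn q (this q hq) b (this b hb) hqb
    obtain ⟨P', s1, s2⟩ := clq2_of_not_free hnf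
    exact ⟨P', (s1.trans (rem_mono subset_rfl hd)).trans (hrem D), s2⟩

/-- A unit family with its weights. -/
structure WFam (G : SimpleGraph V) (k : ℕ) (S : Finset V) (Q T : V → Finset V) : Prop
    extends Fam G k S Q where
  free : ∀ y ∈ S, Free G k (rem G (Q y) (insert y (T y)))
  wt : ∀ y ∈ S, (k + 1) * ((T y).card + 1) = (Q y).card + 1
  low : ∀ y ∈ S, ∀ D : Finset V, (D ∩ insert y (Q y)).card ≤ (T y).card →
    ∃ P' ⊆ rem G (Q y) D, Clq G k P'

theorem Fam.weights [Fintype V] (hk : 1 ≤ k) (hG : Conn G univ) {S : Finset V}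
    {Q : V → Finset V} (h : Fam G k S Q) : ∃ T, WFam G k S Q T := by
  choose! T h1 h2 h3 using fun y hy => (h.pend y hy).weight hk hG
  exact ⟨T, h, h1, h2, h3⟩

variable [Fintype V] {S : Finset V} {Q T : V → Finset V}

theorem Fam.nb_rest (h : Fam G k S Q) {x z : V} (hx : x ∈ rest S Q) (hxz : G.Adj x z) :
    z ∈ S ∨ z ∈ rest S Q := by
  by_contra hcon
  rw [mem_rest] at hcon hx
  push Not at hcon
  obtain ⟨y, hy, hz⟩ := hcon.2 hcon.1
  rcases (h.pend y hy).2.2 z hz x hxz.symm with h1 | h1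
  exacts [hx.2 y hy h1, hx.1 (h1 ▸ hy)]

theorem Fam.out_rem (h : Fam G k S Q) {D0 : Finset V} {x z : V}
    (hx : x ∈ rem G (rest S Q) (S ∪ D0)) (hxz : G.Adj x z) :
    z ∈ rem G (rest S Q) (S ∪ D0) ∨ z ∈ rest S Q \ rem G (rest S Q) (S ∪ D0) := by
  rcases h.nb_rest (rem_sub _ _ hx) hxz with h1 | h1
  · exact absurd hxz.symm ((mem_rem.1 hx).2 z (mem_union_left _ h1)).2
  · rw [mem_sdiff]; tauto

namespace WFam

theorem card_eq (h : WFam G k S Q T) :
    Fintype.card V = (k + 1) * ∑ y ∈ S, ((T y).card + 1) + (rest S Q).card := by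
  have h1 : (S.biUnion Q).card = ∑ y ∈ S, (Q y).card :=
    card_biUnion fun x hx y hy hxy => h.disj x hx y hy hxy
  have h2 : Disjoint S (S.biUnion Q) := disjoint_left.2 fun x hx hx' => by
    obtain ⟨y, hy, hxy⟩ := mem_biUnion.1 hx'
    exact h.out x hx y hy hxy
  have h3 : rest S Q = univ \ (S ∪ S.biUnion Q) := by
    ext x
    simp [mem_rest]
  have h4 := card_sdiff_add_card_eq_card (subset_univ (S ∪ S.biUnion Q))
  rw [card_union_of_disjoint h2, h1, card_univ, ← h3] at h4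
  rw [mul_sum, sum_congr rfl h.wt, sum_add_distrib]
  simp only [sum_const, smul_eq_mul, mul_one]
  omega

omit [Fintype V] in
theorem star_card (S : Finset V) (T : V → Finset V) :
    (S ∪ S.biUnion T).card ≤ ∑ y ∈ S, ((T y).card + 1) := by
  have h1 := card_union_le S (S.biUnion T)
  have h2 := card_biUnion_le (s := S) (t := T)
  rw [sum_add_distrib]
  simp only [sum_const, smul_eq_mul, mul_one]
  omega

omit [Fintype V] in
theorem low_free (h : WFam G k S Q T) (hk : 1 ≤ k) :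
    Free G k (S.biUnion fun y => rem G (Q y) (insert y (T y))) :=
  free_biUnion hk h.free fun y hy y' hy' hne a ha b hb hab => by
    rcases (h.pend y hy).2.2 a (rem_sub _ _ ha) b hab with h1 | h1
    exacts [disjoint_left.1 (h.disj y hy y' hy' hne) h1 (rem_sub _ _ hb),
      h.out y hy y' hy' (h1 ▸ rem_sub _ _ hb)]

theorem low_na (h : WFam G k S Q T) :
    NA G (rest S Q) (S.biUnion fun y => rem G (Q y) (insert y (T y))) := by
  intro x hx z hz hxz
  obtain ⟨y, hy, h1⟩ := mem_biUnion.1 hz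
  rw [mem_rest] at hx
  rcases (h.pend y hy).2.2 z (rem_sub _ _ h1) x hxz.symm with h2 | h2
  exacts [hx.2 y hy h2, hx.1 (h2 ▸ hy)]

theorem rem_sub_low {D : Finset V} (hD : S ∪ S.biUnion T ⊆ D) :
    rem G univ D ⊆ rem G (rest S Q) D ∪ S.biUnion fun y => rem G (Q y) (insert y (T y)) := by
  intro x hx
  rw [mem_rem] at hx
  by_cases hr : x ∈ rest S Q
  · exact mem_union_left _ (mem_rem.2 ⟨hr, hx.2⟩)
  · rw [mem_rest] at hr
    push Not at hr
    obtain ⟨y, hy, hxy⟩ := hr fun hxS => (hx.2 x (hD (mem_union_left _ hxS))).1 rfl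
    refine mem_union_right _ (mem_biUnion.2 ⟨y, hy, mem_rem.2 ⟨hxy, fun d hd => hx.2 d (hD ?_)⟩⟩)
    rcases mem_insert.1 hd with e | e
    exacts [mem_union_left _ (e ▸ hy), mem_union_right _ (mem_biUnion.2 ⟨y, hy, e⟩)]

theorem gain (h : WFam G k S Q T) (hk : 1 ≤ k) {g : ℕ}
    (hg : ∀ E : Finset V, Free G k (rem G univ E) → Fintype.card V ≤ (k + 1) * E.card + g)
    (D0 D : Finset V) (hf : Free G k (rem G (rem G (rest S Q) (S ∪ D0)) D)) :
    (rest S Q).card ≤ (k + 1) * D0.card + (k + 1) * D.card + g := by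
  have h1 := hg (S ∪ S.biUnion T ∪ D0 ∪ D) ((hf.union (h.low_free hk) (h.low_na.mono
    ((rem_sub _ _).trans (rem_sub _ _)) subset_rfl)).mono ((rem_sub_low (Q := Q)
      (subset_union_left.trans subset_union_left)).trans (union_subset_union_left fun x hx => by
        rw [mem_rem] at hx
        refine mem_rem.2 ⟨mem_rem.2 ⟨hx.1, fun d hd => hx.2 d ?_⟩,
          fun d hd => hx.2 d (mem_union_right _ hd)⟩
        simp only [mem_union] at hd ⊢
        tauto)))
  have h2 := Nat.mul_le_mul_left (k + 1) ((card_union_le (S ∪ S.biUnion T ∪ D0) D).trans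
    (Nat.add_le_add_right ((card_union_le _ D0).trans
      (Nat.add_le_add_right (star_card S T) _)) _))
  have h3 := h.card_eq
  rw [mul_add, mul_add] at h2
  omega

theorem iota_eq (hi : i = 1 ∨ i = 2 ∨ i = 3) (hk : 1 ≤ k) (h : WFam G k S Q T) :
    iota i k G = ∑ y ∈ S, ((T y).card + 1) +
      iotaMarked i k (G.induce (kernelSet S Q)) (kernelMarks G S Q) := by
  refine le_antisymm ?_ ?_
  · obtain ⟨D, hD, hf⟩ := exists_iotaMarked (G := G.induce (kernelSet S Q)) (i := i) hk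
      (kernelMarks G S Q)
    rw [hasF_induce] at hf
    refine (iota_le (D := S ∪ S.biUnion T ∪ D.image Subtype.val) fun hh => ?_).trans
      ((card_union_le _ _).trans (Nat.add_le_add (star_card S T) (hD ▸ card_image_le)))
    rw [← coe_rem_univ] at hh
    have hs : (rem G univ (S ∪ S.biUnion T ∪ D.image Subtype.val) : Set V) ⊆
        Subtype.val '' (closedNbhd (G.induce (kernelSet S Q)) D ∪ kernelMarks G S Q)ᶜ ∪
          ((S.biUnion fun y => rem G (Q y) (insert y (T y)) : Finset V) : Set V) := by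
      intro x hx
      rcases mem_union.1 (rem_sub_low (Q := Q) subset_union_left hx) with h1 | h1
      · rw [mem_rem, mem_rest] at h1
        refine Or.inl ⟨⟨x, h1.1⟩, ?_, rfl⟩
        rintro (⟨d, hd, h2⟩ | ⟨y, hy, h2⟩)
        · have := h1.2 d (mem_union_right _ (mem_image_of_mem _ hd))
          rcases h2 with h2 | h2
          exacts [this.1 (congrArg Subtype.val h2), this.2 h2]
        · exact (h1.2 y (mem_union_left _ (mem_union_left _ hy))).2 h2
      · exact Or.inr h1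
    refine (hasF_union hk (fun x hx z hz => ?_) (hasF_mono hh hs)).elim hf
      ((h.low_free hk).not_hasF hk)
    obtain ⟨a, -, rfl⟩ := hx
    exact h.low_na a (mem_rest.2 a.2) z hz
  · obtain ⟨D, hD, hf⟩ := exists_iota (G := G) (i := i) hk
    have h1 : iotaMarked i k (G.induce (kernelSet S Q)) (kernelMarks G S Q) ≤
        (D.filter (· ∈ kernelSet S Q)).card := by
      refine Nat.sInf_le ⟨D.subtype (· ∈ kernelSet S Q), card_subtype _ _, fun hh => hf ?_⟩
      rw [hasF_induce] at hh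
      refine hasF_mono hh ?_
      rintro _ ⟨x, hx, rfl⟩ ⟨d, hd, h2⟩
      by_cases hdR : d ∈ kernelSet S Q
      · exact hx (Or.inl ⟨⟨d, hdR⟩, mem_subtype.2 hd, h2.imp Subtype.ext id⟩)
      · rcases h2 with h2 | h2
        · exact hdR (h2 ▸ x.2)
        · rcases h.toFam.nb_rest (mem_rest.2 x.2) h2.symm with h3 | h3
          exacts [hx (Or.inr ⟨d, h3, h2⟩), hdR (mem_rest.1 h3)]
    have hex : ∀ y ∈ S, (T y).card + 1 ≤ (D ∩ insert y (Q y)).card := by
      intro y hy
      by_contra hcon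
      obtain ⟨P, s1, s2⟩ := h.low y hy D (by omega)
      refine hf (hasF_mono (s2.hasF hi hk) ?_)
      rintro x hx ⟨d, hd, h2⟩
      have := (mem_rem.1 (s1 hx)).2 d hd
      exact h2.elim this.1 this.2
    have h2 : ∑ y ∈ S, ((T y).card + 1) ≤ (D.filter (· ∉ kernelSet S Q)).card := by
      refine (sum_le_sum hex).trans ?_
      rw [← card_biUnion]
      · refine card_le_card fun d hd => ?_
        obtain ⟨y, hy, h3⟩ := mem_biUnion.1 hd
        rw [mem_inter, mem_insert] at h3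
        refine mem_filter.2 ⟨h3.1, fun hh => ?_⟩
        rcases h3.2 with h4 | h4
        exacts [hh.1 (h4 ▸ hy), hh.2 y hy h4]
      · intro y hy y' hy' hne
        refine disjoint_left.2 fun d h3 h4 => ?_
        rcases mem_insert.1 (mem_inter.1 h3).2 with h5 | h5 <;>
          rcases mem_insert.1 (mem_inter.1 h4).2 with h6 | h6
        exacts [hne (h5.symm.trans h6), h.out y hy y' hy' (h5 ▸ h6), h.out y' hy' y hy (h6 ▸ h5),
          disjoint_left.1 (h.disj y hy y' hy' hne) h5 h6]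
    have h3 := card_filter_add_card_filter_not (s := D) (· ∈ kernelSet S Q)
    omega

end WFam

theorem WFam.marks (h : WFam G k S Q T) (hk : 1 ≤ k) (hG : Conn G univ)
    (hne : (rest S Q \ rem G (rest S Q) S).Nonempty)
    (hmax : ∀ y ∈ rest S Q, ∀ P ⊆ rest S Q, ¬ PendA G k y P) {g : ℕ}
    (hg : ∀ E : Finset V, Free G k (rem G univ E) → Fintype.card V ≤ (k + 1) * E.card + g) :
    (rest S Q \ rem G (rest S Q) S).card ≤ 2 * g := by
  have gain := h.gain hk hg ∅
  have hout := fun x z => h.toFam.out_rem (D0 := ∅) (x := x) (z := z)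
  rw [union_empty] at gain hout
  set R := rest S Q with hR
  have one : ∀ P, P.Nonempty → Cl G P (rem G R S) → ¬ 2 ≤ (lk G (R \ rem G R S) P).card →
      ∃ m ∈ R, m ∉ P ∧ ∀ q ∈ P, ∀ z, G.Adj q z → z ∈ P ∨ z = m := by
    intro P hP hcl hcon
    have hlk : ∀ q ∈ P, ∀ z, G.Adj q z → z ∈ P ∨ z ∈ lk G (R \ rem G R S) P :=
      fun q hq z hqz => (hout q z (hcl.1 hq) hqz).imp (fun hz => hcl.2 q hq z hz hqz)
        fun hz => mem_lk.2 ⟨hz, q, hq, hqz.symm⟩
    rcases (lk G (R \ rem G R S) P).eq_empty_or_nonempty with he | ⟨m, hm⟩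
    · obtain ⟨m, hm⟩ := hne
      have := hG P ⟨subset_univ _, fun q hq z _ hqz => (hlk q hq z hqz).resolve_right
        (by rw [he]; exact notMem_empty _)⟩ hP
      exact absurd (hcl.1 (this ▸ mem_univ m)) (mem_sdiff.1 hm).2
    · have hm' := mem_sdiff.1 (mem_lk.1 hm).1
      exact ⟨m, hm'.1, fun hh => hm'.2 (hcl.1 hh), fun q hq z hqz =>
        (hlk q hq z hqz).imp_right fun hz => card_le_one.1 (by omega) z hz m hm⟩
  have h2 := card_sdiff_add_card_eq_card (rem_sub (G := G) R S)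
  by_cases hk2 : k = 2
  · subst hk2
    obtain ⟨D, hf, hi⟩ := link2 (G := G) (rem G R S) (R \ rem G R S) fun P hP hcl => by
      by_contra hcon
      rw [not_or] at hcon
      obtain ⟨m, h1, h3⟩ := one P hP.nonempty hcl hcon.1
      exact hmax m h1 P (hcl.1.trans (rem_sub _ _)) ⟨hP.imp_right fun h1 =>
        ⟨rfl, h1, fun h2 => hcon.2 ⟨h1.1, m, h2⟩⟩, h3⟩
    have := gain D hf
    simp only [card_empty] at this
    omega
  · obtain ⟨D, hf, hi⟩ := link (G := G) (k := k) (by omega) (rem G R S) (R \ rem G R S)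
      fun P hP hcl => by
        by_contra hcon
        obtain ⟨m, h1, h3⟩ := one P (hP.sp hk).1 hcl hcon
        exact hmax m h1 P (hcl.1.trans (rem_sub _ _)) ⟨Or.inl hP, h3⟩
    have := gain D hf
    simp only [card_empty] at this
    omega

theorem kernel_bound2 (hG : Conn G univ) (h : WFam G 2 S Q T)
    (hmax : ∀ y ∈ rest S Q, ∀ P ⊆ rest S Q, ¬ Pend2 G y P) {g : ℕ}
    (hg : ∀ E : Finset V, Free G 2 (rem G univ E) → Fintype.card V ≤ (2 + 1) * E.card + g) :
    (rest S Q).card ≤ 10 ^ 12 * (2 + 1) ^ 14 * (g + 1) := by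
  by_cases hsp : Sp2 G univ
  · have h1 := card_le_card (subset_univ (rest S Q))
    have h2 := hsp.card
    omega
  have gain := h.gain (by omega) hg
  set R := rest S Q with hR
  have marks : ∀ D0 : Finset V,
      (R \ rem G R (S ∪ D0)).card ≤ 2 * ((2 + 1) * D0.card) + 2 * g := by
    intro D0
    obtain ⟨D, hf, hi⟩ := link2 (G := G) (rem G R (S ∪ D0)) (R \ rem G R (S ∪ D0))
      fun P hP hcl => by
        by_contra hcon
        rw [not_or] at hcon
        have hlk : ∀ q ∈ P, ∀ z, G.Adj q z → z ∈ P ∨ z ∈ lk G (R \ rem G R (S ∪ D0)) P :=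
          fun q hq z hqz => (h.toFam.out_rem (hcl.1 hq) hqz).imp (fun hz => hcl.2 q hq z hz hqz)
            fun hz => mem_lk.2 ⟨hz, q, hq, hqz.symm⟩
        rcases (lk G (R \ rem G R (S ∪ D0)) P).eq_empty_or_nonempty with he | ⟨m, hm⟩
        · refine hsp (hG P ⟨subset_univ _, fun q hq z _ hqz => (hlk q hq z hqz).resolve_right ?_⟩
            hP.nonempty ▸ hP)
          rw [he]; exact notMem_empty _
        · have hm' := mem_sdiff.1 (mem_lk.1 hm).1
          exact hmax m hm'.1 P (hcl.1.trans (rem_sub _ _)) ⟨hP.imp_right fun h1 =>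
            ⟨h1, fun h2 => hcon.2 ⟨h1.1, m, h2⟩⟩, fun hh => hm'.2 (hcl.1 hh),
            fun q hq z hqz => (hlk q hq z hqz).imp_right fun hz =>
              card_le_one.1 (by omega) z hz m hm⟩
    have h1 := gain D0 D hf
    have h2 := card_sdiff_add_card_eq_card (rem_sub (G := G) R (S ∪ D0))
    omega
  obtain ⟨D0, hdeg, hM, hg'⟩ := clean gain marks
  have h6 := card_sdiff_add_card_eq_card (rem_sub (G := G) R (S ∪ D0))
  have h7 := two_core2 (M := R \ rem G R (S ∪ D0)) (g1 := 1873 * g) hG hsp hdeg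
    (fun x hx z hxz => h.toFam.out_rem hx hxz) hg'
    (fun y hy P hP => hmax y (rem_sub _ _ hy) P (hP.trans (rem_sub _ _))) (by omega)
  norm_num at h7 ⊢
  omega

theorem exists_fam (G : SimpleGraph V) (k : ℕ) : ∃ S Q, Fam G k S Q ∧
    ∀ y ∈ rest S Q, ∀ P ⊆ rest S Q, ¬ PendA G k y P := by
  obtain ⟨S, hS, hmax⟩ := exists_max_image
    ((univ : Finset V).powerset.filter fun S => ∃ Q, Fam G k S Q) Finset.card
    ⟨∅, mem_filter.2 ⟨empty_mem_powerset _, fun _ => ∅, by simp, by simp, by simp⟩⟩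
  obtain ⟨Q, h⟩ := (mem_filter.1 hS).2
  refine ⟨S, Q, h, fun y hy P hP hp => ?_⟩
  rw [mem_rest] at hy
  have hup : ∀ z ∈ S, Function.update Q y P z = Q z := fun z hz =>
    Function.update_of_ne (fun e : z = y => hy.1 (e ▸ hz)) _ _
  have := hmax (insert y S) (mem_filter.2 ⟨mem_powerset.2 (subset_univ _),
    Function.update Q y P, fun a ha => ?_, fun a ha b hb => ?_, fun a ha b hb hab => ?_⟩)
  · rw [card_insert_of_notMem hy.1] at this
    omega
  · rcases mem_insert.1 ha with e | ha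
    · rw [e, Function.update_self]; exact hp
    · rw [hup a ha]; exact h.pend a ha
  · rcases mem_insert.1 ha with e1 | ha' <;> rcases mem_insert.1 hb with e2 | hb'
    · rw [e1, e2, Function.update_self]; exact hp.2.1
    · rw [e1, hup b hb']; exact hy.2 b hb'
    · rw [e2, Function.update_self]; exact fun hh => (mem_rest.1 (hP hh)).1 ha'
    · rw [hup b hb']; exact h.out a ha' b hb'
  · rcases mem_insert.1 ha with e1 | ha' <;> rcases mem_insert.1 hb with e2 | hb'
    · exact absurd (e1.trans e2.symm) hab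
    · rw [e1, Function.update_self, hup b hb']
      exact disjoint_left.2 fun x hx => (mem_rest.1 (hP hx)).2 b hb'
    · rw [e2, Function.update_self, hup a ha']
      exact disjoint_right.2 fun x hx => (mem_rest.1 (hP hx)).2 a ha'
    · rw [hup a ha', hup b hb']; exact h.disj a ha' b hb' hab

theorem kernel_all (hk : 1 ≤ k) (hG : Conn G univ) (h : Fam G k S Q)
    (hmax : ∀ y ∈ rest S Q, ∀ P ⊆ rest S Q, ¬ PendA G k y P) {g : ℕ}
    (hg : ∀ E : Finset V, Free G k (rem G univ E) → Fintype.card V ≤ (k + 1) * E.card + g) :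
    (rest S Q).card ≤ 10 ^ 12 * (k + 1) ^ 14 * (g + 1) := by
  by_cases h2 : k = 2
  · subst h2
    obtain ⟨T, w⟩ := h.weights hk hG
    exact kernel_bound2 hG w (fun y hy P hP hp =>
      hmax y hy P hP ⟨hp.1.imp_right fun h1 => ⟨rfl, h1⟩, hp.2⟩) hg
  · refine (kernel_bound (by omega) hG ⟨fun y hy => ⟨(h.pend y hy).1.resolve_right
      fun h1 => h2 h1.1, (h.pend y hy).2⟩, h.out, h.disj⟩
      (fun y hy P hP hp => hmax y hy P hP ⟨Or.inl hp.1, hp.2⟩) hg).trans ?_
    exact Nat.mul_le_mul_right _ (Nat.mul_le_mul_right _ (by norm_num))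

end Pool.Agent.IsoKer
end

-- merged part: Pool.Agent.Work.MP_1346a1_co.Main
section
/-! The kernel theorem for every `k`. -/

namespace Pool.Agent.IsoKer

open Finset Pool.Agent.IsoDefs
open scoped Classical

variable {V : Type*} {G : SimpleGraph V} {i k : ℕ}

theorem cy_iff {P : Finset V} :
    Cy G P ↔ Nonempty (G.induce (P : Set V) ≃g SimpleGraph.cycleGraph 5) := by
  constructor
  · intro h
    obtain ⟨a, ha⟩ := Sp2.nonempty (Or.inr h)
    obtain ⟨b, c, d, e, p⟩ := h.pent ha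
    let f : Fin 5 → (P : Set V) := ![⟨a, p.ha⟩, ⟨b, p.hb⟩, ⟨c, p.hc⟩, ⟨d, p.hd⟩, ⟨e, p.he⟩]
    have hs : Function.Surjective f := by
      rintro ⟨x, hx⟩
      rcases (p.mem x).1 hx with rfl | rfl | rfl | rfl | rfl
      exacts [⟨0, rfl⟩, ⟨1, rfl⟩, ⟨2, rfl⟩, ⟨3, rfl⟩, ⟨4, rfl⟩]
    have hb : Function.Bijective f :=
      (Fintype.bijective_iff_surjective_and_card f).2 ⟨hs, by simp [h.1]⟩
    have ba := p.ab.symm
    have cb := p.bc.symm
    have dc := p.cd.symm
    have ed := p.de.symm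
    have ae := p.ea.symm
    have ca : ¬ G.Adj c a := fun h => p.ac h.symm
    have da : ¬ G.Adj d a := fun h => p.ad h.symm
    have db : ¬ G.Adj d b := fun h => p.bd h.symm
    have eb : ¬ G.Adj e b := fun h => p.be h.symm
    have ec : ¬ G.Adj e c := fun h => p.ce h.symm
    refine ⟨SimpleGraph.Iso.symm ⟨Equiv.ofBijective f hb, fun {x y} => ?_⟩⟩
    fin_cases x <;> fin_cases y <;>
      simp [f, p.ab, p.bc, p.cd, p.de, p.ea, p.ac, p.ad, p.bd, p.be, p.ce, ba, cb, dc, ed, ae,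
        ca, da, db, eb, ec] <;> decide
  · rintro ⟨e⟩
    have a : ∀ x y : Fin 5, G.Adj (e.symm x : V) (e.symm y : V) ↔
        (SimpleGraph.cycleGraph 5).Adj x y := fun x y => e.symm.map_adj_iff
    refine Pent.cy (a := e.symm 0) (b := e.symm 1) (c := e.symm 2) (d := e.symm 3)
      (e := e.symm 4) ⟨fun x => ⟨fun hx => ?_, ?_⟩, (a _ _).2 (by decide), (a _ _).2 (by decide),
        (a _ _).2 (by decide), (a _ _).2 (by decide), (a _ _).2 (by decide),
        fun h => absurd ((a _ _).1 h) (by decide), fun h => absurd ((a _ _).1 h) (by decide),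
        fun h => absurd ((a _ _).1 h) (by decide), fun h => absurd ((a _ _).1 h) (by decide),
        fun h => absurd ((a _ _).1 h) (by decide)⟩
    · obtain ⟨j, hj⟩ := e.symm.surjective ⟨x, hx⟩
      have : x = (e.symm j : V) := by rw [hj]
      fin_cases j <;> simp [this]
    · rintro (rfl | rfl | rfl | rfl | rfl) <;> exact (e.symm _).2

theorem pendA_iff {y : V} {P : Finset V} : PendA G k y P ↔ IsPendant k G y P := by
  rw [PendA, IsPendant, clq_iff, cy_iff, free2_iff]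
  refine and_congr_left fun h => or_congr_right (and_congr_right fun _ =>
    and_congr_right fun _ => ?_)
  simp only [NA, not_forall, not_not, mem_rem1]
  constructor
  · rintro ⟨a, ha, b, hb, hab⟩
    exact ⟨a, ha.1, b, hb.1, hab, ha.2.2, hb.2.2⟩
  · rintro ⟨a, ha, b, hb, hab, h1, h2⟩
    exact ⟨a, ⟨ha, fun e => h.1 (e ▸ ha), h1⟩, b, ⟨hb, fun e => h.1 (e ▸ hb), h2⟩, hab⟩

theorem fam_iff {S : Finset V} {Q : V → Finset V} : Fam G k S Q ↔ IsUnitFamily k G S Q := by
  constructor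
  · exact fun h => ⟨fun y hy => pendA_iff.1 (h.pend y hy),
      fun y hy y' hy' e => ⟨h.out y hy y' hy', h.disj y hy y' hy' e⟩⟩
  · refine fun h => ⟨fun y hy => pendA_iff.2 (h.1 y hy), fun y hy y' hy' => ?_,
      fun y hy y' hy' e => (h.2 y hy y' hy' e).2⟩
    by_cases e : y = y'
    exacts [e ▸ (h.1 y hy).2.1, (h.2 y hy y' hy' e).1]

theorem marks_ncard [Fintype V] (S : Finset V) (Q : V → Finset V) :
    (kernelMarks G S Q).ncard = (rest S Q \ rem G (rest S Q) S).card := by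
  rw [← Set.ncard_image_of_injective _ Subtype.val_injective, ← Set.ncard_coe_finset]
  congr 1
  ext x
  simp only [Set.mem_image, mem_coe, mem_sdiff, mem_rem, mem_rest, kernelMarks, Set.mem_ofPred_eq]
  constructor
  · rintro ⟨a, ⟨y, hy, h⟩, rfl⟩
    exact ⟨a.2, fun hh => (hh.2 y hy).2 h⟩
  · rintro ⟨h1, h2⟩
    refine ⟨⟨x, h1⟩, ?_, rfl⟩
    by_contra hcon
    push Not at hcon
    exact h2 ⟨h1, fun d hd => ⟨fun e => h1.1 (e ▸ hd), hcon d hd⟩⟩

theorem kernel_main [Fintype V] (hi : i = 1 ∨ i = 2 ∨ i = 3) (hk : 1 ≤ k) (hG : G.Connected) :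
    iota i k G = Fintype.card V / (k + 1) ↔
      ∃ (S : Finset V) (Q : V → Finset V), IsUnitFamily k G S Q ∧
        (∀ y ∈ kernelSet S Q, ∀ P : Finset V, (P : Set V) ⊆ kernelSet S Q → ¬ IsPendant k G y P) ∧
        (kernelSet S Q).ncard ≤ 10 ^ 12 * (k + 1) ^ 14 * (Fintype.card V % (k + 1) + 1) ∧
        (kernelMarks G S Q).ncard ≤ 2 * (Fintype.card V % (k + 1)) ∧
        iotaMarked i k (G.induce (kernelSet S Q)) (kernelMarks G S Q) =
          (kernelSet S Q).ncard / (k + 1) := by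
  have hc := conn_of_connected hG
  have key : ∀ S Q, Fam G k S Q → (iota i k G = Fintype.card V / (k + 1) ↔
      iotaMarked i k (G.induce (kernelSet S Q)) (kernelMarks G S Q) =
        (kernelSet S Q).ncard / (k + 1)) := by
    intro S Q h
    obtain ⟨T, w⟩ := h.weights hk hc
    have e : (kernelSet S Q).ncard = (rest S Q).card := by rw [← coe_rest, Set.ncard_coe_finset]
    rw [w.iota_eq hi hk, w.card_eq, e, add_comm _ (rest S Q).card,
      Nat.add_mul_div_left _ _ (by omega)]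
    omega
  constructor
  · intro he
    obtain ⟨S, Q, h, hmax⟩ := exists_fam G k
    have hg : ∀ E : Finset V, Free G k (rem G univ E) →
        Fintype.card V ≤ (k + 1) * E.card + Fintype.card V % (k + 1) := fun E hE => by
      have h1 := Nat.mul_le_mul_left (k + 1) (he ▸ iota_le_free (i := i) hk hE)
      have h2 := Nat.div_add_mod (Fintype.card V) (k + 1)
      omega
    refine ⟨S, Q, fam_iff.1 h, fun y hy P hP hp => ?_, ?_, ?_, (key S Q h).1 he⟩
    · rw [← coe_rest] at hy hP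
      exact hmax y hy P hP (pendA_iff.2 hp)
    · rw [← coe_rest, Set.ncard_coe_finset]
      exact kernel_all hk hc h hmax hg
    · rw [marks_ncard]
      rcases (rest S Q \ rem G (rest S Q) S).eq_empty_or_nonempty with e | hne
      · rw [e]; simp
      · obtain ⟨T, w⟩ := h.weights hk hc
        exact w.marks hk hc hne hmax hg
  · rintro ⟨S, Q, h, -, -, -, he⟩
    exact (key S Q (fam_iff.2 h)).2 he

end Pool.Agent.IsoKer
end
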