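import Pool.Agent.Work.MP_1346a1_co.Zero

-- merged part: Pool.Agent.Work.MP_1346a1_co.OneA
section
/-! Connected sets without slack, and marked sets with slack at most one. -/

namespace Pool.Agent.IsoKer

open Finset
open scoped Classical

variable {V : Type*} {G : SimpleGraph V} {k : ℕ}

theorem exists_blocks' (hk : 3 ≤ k) {Z : Finset V} (hZ : Conn G Z) (hn : k + 1 < Z.card)
    (hg : ∀ E : Finset V, Free G k (rem G Z E) → Z.card ≤ (k + 1) * E.card) :
    ∃ (D : Finset V) (B : V → Finset V), Good G k D B ∧ (∀ z ∈ Z, ∃ x ∈ D, z ∈ B x) ∧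
      (∀ x ∈ D, B x ⊆ Z) ∧ (k + 1) * D.card = Z.card := by
  obtain ⟨D, B, h⟩ := hasSys_of_noSp (G := G) (Or.inr hk) Z fun C h1 h2 => by
    have := h1.2.1
    rw [hZ C h2 h1.1] at this
    omega
  have h1 := hg D h.iso
  have h2 := h.ineq
  have h3 := h.nonfull
  have h4 := h.bound
  have hb : (D.biUnion B).card = ∑ x ∈ D, (B x).card :=
    card_biUnion fun x hx y hy hxy => h.disj x hx y hy hxy
  have hu : D.biUnion B = Z := eq_of_subset_of_card_le (biUnion_subset.2 h.sub) (by omega)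
  have hf : (D.filter fun x => (B x).card ≠ k + 1) = ∅ := card_eq_zero.1 (by
    have := h.sum_le
    omega)
  refine ⟨D, B, ⟨Or.inr hk, fun x hx => ⟨h.mem x hx, ?_, h.dom x hx⟩, h.disj,
    fun J hJ _ E hE hf => ?_⟩, fun z hz => mem_biUnion.1 (hu ▸ hz), h.sub, by omega⟩
  · by_contra hh
    exact notMem_empty x (hf ▸ mem_filter.2 ⟨hx, hh⟩)
  · have h5 := hg _ (h.exchange (fun x _ a ha => by simp [hu] at ha) hf)
    have h6 := card_union_le (D \ J) E
    have h7 := card_sdiff_add_card_eq_card hJ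
    have := Nat.mul_le_mul_left (k + 1) (show (D \ J ∪ E).card + 1 ≤ D.card by omega)
    rw [mul_add] at this
    omega

theorem exists_pend' (hk : 3 ≤ k) {Z : Finset V} (hZ : Conn G Z) (hn : 3 * (k + 1) ≤ Z.card)
    (hg : ∀ E : Finset V, Free G k (rem G Z E) → Z.card ≤ (k + 1) * E.card) :
    ∃ y ∈ Z, ∃ Q ⊆ Z, Clq G k Q ∧ y ∉ Q ∧ ∀ q ∈ Q, ∀ z ∈ Z, G.Adj q z → z ∈ Q ∨ z = y := by
  obtain ⟨D, B, h, hcov, hsub, hD⟩ := exists_blocks' hk hZ (by omega) hg
  have hD3 : 3 ≤ D.card := by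
    by_contra hh
    have := Nat.mul_le_mul_left (k + 1) (show D.card ≤ 2 by omega)
    omega
  have step : ∀ X ⊆ Z, X.Nonempty → X.card < Z.card →
      ∃ x ∈ D, ∃ p ∈ X, ∃ z ∈ B x, z ∉ X ∧ G.Adj p z := by
    intro X hXZ hX hc
    obtain ⟨w, hwZ, hw⟩ := exists_mem_notMem_of_card_lt_card hc
    obtain ⟨p, hp, z, hzZ, hz, a⟩ := hZ.exists_edge hXZ hX hwZ hw
    obtain ⟨x, hx, hzx⟩ := hcov z hzZ
    exact ⟨x, hx, p, hp, z, hzx, hz, a⟩
  obtain ⟨x1, h1⟩ : D.Nonempty := card_pos.1 (by omega)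
  have b1 := h.bk x1 h1
  obtain ⟨x2, h2, p, hp, z, hz, hzx, a⟩ := step (B x1) (hsub x1 h1) ⟨x1, b1.mem⟩
    (by rw [b1.card]; omega)
  have n12 : x1 ≠ x2 := fun e => hzx (e ▸ hz)
  have e12 : ¬ NA G (B x1) (B x2) := fun hh => hh p hp z hz a
  obtain ⟨x3, h3, p', hp', z', hz', hzx', a'⟩ := step (B x1 ∪ B x2)
    (union_subset (hsub x1 h1) (hsub x2 h2)) ⟨x1, mem_union_left _ b1.mem⟩ (by
      have := card_union_le (B x1) (B x2)
      rw [b1.card, (h.bk x2 h2).card] at this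
      omega)
  obtain ⟨y, hy, q, m1, -⟩ := h.pure3 hk h1 h2 h3 n12 (fun e => hzx' (mem_union_left _ (e ▸ hz')))
    (fun e => hzx' (mem_union_right _ (e ▸ hz'))) e12 ((mem_union.1 hp').imp
      (fun e hh => hh z' hz' p' e a'.symm) fun e hh => hh z' hz' p' e a'.symm)
  have py : ∀ s, NA G ((B x1).erase s) (B x2) → p = s := fun s hs =>
    by_contra fun e => hs p (mem_erase.2 ⟨e, hp⟩) z hz a
  refine ⟨y, hsub x1 h1 hy, (B x1).erase y, (erase_subset _ _).trans (hsub x1 h1), q,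
    notMem_erase _ _, fun r hr w hwZ hrw => ?_⟩
  obtain ⟨x, hx, hw⟩ := hcov w hwZ
  by_cases e1 : x1 = x
  · by_cases e : w = y
    exacts [Or.inr e, Or.inl (mem_erase.2 ⟨e, e1 ▸ hw⟩)]
  by_cases e2 : x2 = x
  · exact absurd hrw (m1 r hr w (e2 ▸ hw))
  obtain ⟨s, -, -, m2, m3⟩ := h.pure3 hk h1 h2 hx n12 e1 e2 e12
    (Or.inl fun hh => hh w hw r (mem_of_mem_erase hr) hrw.symm)
  exact absurd hrw (m3 r (by rwa [← py s m2, py y m1]) w hw)

/-- Every nonempty closed set contains a connected closed set. -/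
theorem exists_conn {U T : Finset V} (hT : Cl G T U) (hne : T.Nonempty) :
    ∃ Z ⊆ T, Z.Nonempty ∧ Cl G Z U ∧ Conn G Z := by
  obtain ⟨Z, hZ, hmin⟩ := exists_min_image
    (T.powerset.filter fun Z => Z.Nonempty ∧ Cl G Z U) Finset.card
    ⟨T, mem_filter.2 ⟨mem_powerset_self _, hne, hT⟩⟩
  rw [mem_filter, mem_powerset] at hZ
  refine ⟨Z, hZ.1, hZ.2.1, hZ.2.2, fun X hX hXn => eq_of_subset_of_card_le hX.1 ?_⟩
  exact hmin X (mem_filter.2 ⟨mem_powerset.2 (hX.1.trans hZ.1), hXn, hX.trans hZ.2.2⟩)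

/-- An unmarked clique of `U` hanging on one vertex of `U`. -/
def CU (G : SimpleGraph V) (k : ℕ) (U M : Finset V) (y : V) (Q : Finset V) : Prop :=
  y ∈ U ∧ Q ⊆ U \ M ∧ Clq G k Q ∧ y ∉ Q ∧ ∀ q ∈ Q, ∀ z ∈ U, G.Adj q z → z ∈ Q ∨ z = y

/-- A marked set: all components are marked, no clique hangs on one vertex, slack at most `g`. -/
structure Mk (G : SimpleGraph V) (k : ℕ) (U M : Finset V) (g : ℕ) : Prop where
  sub : M ⊆ U
  hit : ∀ T, Cl G T U → T.Nonempty → ∃ m ∈ M, m ∈ T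
  nou : ∀ y Q, ¬ CU G k U M y Q
  slack : ∀ D, Free G k (rem G (U \ M) D) → U.card ≤ (k + 1) * D.card + g

namespace Mk

variable {U M : Finset V} {g : ℕ}

theorem marks (hk : 3 ≤ k) (h : Mk G k U M g) : M.card ≤ 2 * g := by
  obtain ⟨D, h1, h2⟩ := link (G := G) (Or.inr hk) (U \ M) M fun Q hQ hcl => by
    by_contra hcon
    have hlk : ∀ q ∈ Q, ∀ z ∈ U, G.Adj q z → z ∈ Q ∨ z ∈ lk G M Q := fun q hq z hz a => by
      by_cases e : z ∈ M
      exacts [Or.inr (mem_lk.2 ⟨e, q, hq, a.symm⟩), Or.inl (hcl.2 q hq z (mem_sdiff.2 ⟨hz, e⟩) a)]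
    rcases (lk G M Q).eq_empty_or_nonempty with he | ⟨m, hm⟩
    · obtain ⟨m, hm, hmQ⟩ := h.hit Q ⟨hcl.1.trans sdiff_subset, fun q hq z hz a =>
        (hlk q hq z hz a).resolve_right (by rw [he]; exact notMem_empty _)⟩ (hQ.sp (by omega)).1
      exact (mem_sdiff.1 (hcl.1 hmQ)).2 hm
    · have hm' := (mem_lk.1 hm).1
      exact h.nou m Q ⟨h.sub hm', hcl.1, hQ, fun hh => (mem_sdiff.1 (hcl.1 hh)).2 hm',
        fun q hq z hz a => (hlk q hq z hz a).imp_right fun hz =>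
          card_le_one.1 (by omega) z hz m hm⟩
  have h3 := h.slack D h1
  have h4 := card_sdiff_add_card_eq_card h.sub
  omega

theorem empty (hk : 3 ≤ k) (h : Mk G k U M 0) : U = ∅ := by
  by_contra hne
  obtain ⟨m, hm, -⟩ := h.hit U ⟨subset_rfl, fun _ _ _ hy _ => hy⟩ (nonempty_iff_ne_empty.2 hne)
  have := h.marks hk
  have := card_pos.2 ⟨m, hm⟩
  omega

/-- Removing a set all of whose outside neighbours become marked. -/
theorem cut (h : Mk G k U M g) {U' M' : Finset V} {g' : ℕ} (h1 : U' ⊆ U) (h2 : M' ⊆ U')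
    (h3 : ∀ x ∈ U', x ∈ M → x ∈ M') (h4 : ∀ x ∈ U', x ∉ M' → ∀ z ∈ U, G.Adj x z → z ∈ U')
    (h5 : ∀ D, Free G k (rem G (U' \ M') D) → U'.card ≤ (k + 1) * D.card + g') :
    Mk G k U' M' g' := by
  refine ⟨h2, fun T hT hne => ?_, fun y Q hQ => h.nou y Q ⟨h1 hQ.1, fun q hq => ?_, hQ.2.2.1,
    hQ.2.2.2.1, fun q hq z hz a => ?_⟩, h5⟩
  · by_contra hcon
    push Not at hcon
    obtain ⟨m, hm, hmT⟩ := h.hit T ⟨hT.1.trans h1, fun x hx z hz a =>
      hT.2 x hx z (h4 x (hT.1 hx) (fun e => hcon x e hx) z hz a) a⟩ hne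
    exact hcon m (h3 m (hT.1 hmT) hm) hmT
  · have := mem_sdiff.1 (hQ.2.1 hq)
    exact mem_sdiff.2 ⟨h1 this.1, fun e => this.2 (h3 q this.1 e)⟩
  · have := mem_sdiff.1 (hQ.2.1 hq)
    exact hQ.2.2.2.2 q hq z (h4 q this.1 this.2 z hz a) a

end Mk

end Pool.Agent.IsoKer
end

-- merged part: Pool.Agent.Work.MP_1346a1_co.OneB
section
/-! Marked sets with slack one are isolated by two vertices containing all marks. -/

namespace Pool.Agent.IsoKer

open Finset
open scoped Classical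

variable {V : Type*} {G : SimpleGraph V} {k : ℕ}

namespace Mk

variable {U M : Finset V}

theorem one_unit (hk : 3 ≤ k) (h : Mk G k U M 1) {m y : V} {Q : Finset V} (hm : m ∈ M)
    (hc : CU G k (U.erase m) (M.erase m) y Q)
    (ih : ∀ U' M' : Finset V, U'.card < U.card → Mk G k U' M' 1 →
      ∃ D, M' ⊆ D ∧ D.card ≤ 2 ∧ Free G k (rem G (U' \ M') D)) :
    ∃ D, M ⊆ D ∧ D.card ≤ 2 ∧ Free G k (rem G (U \ M) D) := by
  obtain ⟨hy, hQ, hq, hyQ, hout⟩ := hc
  rw [mem_erase] at hy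
  have hQ' : Q ⊆ U \ M := fun x hx => by
    have := hQ hx
    simp only [mem_sdiff, mem_erase] at this ⊢
    tauto
  have hQU : Q ⊆ U := hQ'.trans sdiff_subset
  have hmQ : m ∉ Q := fun e => (mem_sdiff.1 (hQ' e)).2 hm
  have out : ∀ q ∈ Q, ∀ z ∈ U, G.Adj q z → z ∈ Q ∨ z = y ∨ z = m := fun q hq z hz a => by
    by_cases e : z = m
    exacts [Or.inr (Or.inr e), (hout q hq z (mem_erase.2 ⟨e, hz⟩) a).imp_right Or.inl]
  obtain ⟨t, ht, hmt⟩ : ∃ t ∈ Q, G.Adj m t := by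
    by_contra hcon
    push Not at hcon
    exact h.nou y Q ⟨hy.2, hQ', hq, hyQ, fun q hq z hz a => (out q hq z hz a).imp_right
      fun e => e.resolve_right fun e => hcon q hq (e ▸ a.symm)⟩
  obtain ⟨s, hs, hys⟩ : ∃ s ∈ Q, G.Adj y s := by
    by_contra hcon
    push Not at hcon
    exact h.nou m Q ⟨h.sub hm, hQ', hq, hmQ, fun q hq z hz a => (out q hq z hz a).imp_right
      fun e => e.resolve_left fun e => hcon q hq (e ▸ a.symm)⟩
  set U' := (U \ Q).erase y with hU'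
  set M' := U'.filter (fun x => x ∈ M ∨ G.Adj y x) with hM'
  have mU : ∀ x, x ∈ U' ↔ x ∈ U ∧ x ∉ Q ∧ x ≠ y := fun x => by
    simp only [hU', mem_erase, mem_sdiff]; tauto
  have mM : ∀ x, x ∈ M' ↔ x ∈ U' ∧ (x ∈ M ∨ G.Adj y x) := fun x => mem_filter
  have c1 := card_sdiff_add_card_eq_card hQU
  have c2 : U'.card + 1 = (U \ Q).card := card_erase_add_one (mem_sdiff.2 ⟨hy.2, hyQ⟩)
  have c3 := hq.1
  have na : NA G (U' \ M') (insert y Q) := fun x hx z hz a => by
    rw [mem_sdiff, mM, mU] at hx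
    rcases mem_insert.1 hz with e | e
    · exact hx.2 ⟨hx.1, Or.inr (e ▸ a.symm)⟩
    · rcases out z e x hx.1.1 a.symm with e1 | e1 | e1
      exacts [hx.1.2.1 e1, hx.1.2.2 e1, hx.2 ⟨hx.1, Or.inl (e1 ▸ hm)⟩]
  have mk : Mk G k U' M' 1 := by
    refine h.cut (fun x hx => ((mU x).1 hx).1) (filter_subset _ _)
      (fun x hx e => (mM x).2 ⟨hx, Or.inl e⟩) (fun x hx e z hz a => ?_) fun D hD => ?_
    · have := na x (mem_sdiff.2 ⟨hx, e⟩) z
      rw [mem_insert] at this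
      exact (mU z).2 ⟨hz, fun e => this (Or.inr e) a, fun e => this (Or.inl e) a⟩
    · have := h.slack (insert y D) (free_rem_insert hD
        (free_small (rem_small c3.le hs (Or.inr hys))) (na.mono (rem_sub _ _)
          ((rem_sub _ _).trans (subset_insert _ _))) fun x hx => by
          rw [mem_rem1, mem_sdiff] at hx
          by_cases e : x ∈ Q
          · exact mem_union_right _ (mem_rem1.2 ⟨e, hx.2⟩)
          · exact mem_union_left _ (mem_sdiff.2 ⟨(mU x).2 ⟨hx.1.1, e, hx.2.1⟩,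
              fun e1 => ((mM x).1 e1).2.elim hx.1.2 hx.2.2⟩))
      have := Nat.mul_le_mul_left (k + 1) (card_insert_le y D)
      rw [mul_add] at this
      omega
  obtain ⟨D, d1, d2, d3⟩ := ih U' M' (by omega) mk
  have hmU : m ∈ U' := (mU m).2 ⟨h.sub hm, hmQ, Ne.symm hy.1⟩
  have hmD : m ∈ D := d1 ((mM m).2 ⟨hmU, Or.inl hm⟩)
  have split : ∀ Y, Free G k Y → Y ⊆ insert y Q →
      (∀ x ∈ rem G (U \ M) D, x ∈ insert y Q → x ∈ Y) → Free G k (rem G (U \ M) D) := by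
    intro Y h1 h2 h3
    refine (d3.union h1 (na.mono (rem_sub _ _) h2)).mono fun x hx => ?_
    by_cases e : x ∈ insert y Q
    · exact mem_union_right _ (h3 x hx e)
    · rw [mem_rem, mem_sdiff] at hx
      rw [mem_insert, not_or] at e
      exact mem_union_left _ (mem_rem.2 ⟨mem_sdiff.2 ⟨(mU x).2 ⟨hx.1.1, e.2, e.1⟩,
        fun e1 => (hx.2 x (d1 e1)).1 rfl⟩, hx.2⟩)
  by_cases hyM : y ∈ M
  · have f1 := h.slack D (split (rem G Q {m}) (free_small (rem_small c3.le ht (Or.inr hmt)))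
      ((rem_sub _ _).trans (subset_insert _ _)) fun x hx e => by
        rw [mem_rem, mem_sdiff] at hx
        exact mem_rem1.2 ⟨(mem_insert.1 e).resolve_left fun e1 => hx.1.2 (e1 ▸ hyM), hx.2 m hmD⟩)
    have f2 := Nat.mul_le_mul_left (k + 1) d2
    have f3 : U'.card = (U'.erase m).card + 1 := (card_erase_add_one hmU).symm
    have hM : M ⊆ {m, y} := fun x hx => by
      by_contra e
      simp only [mem_insert, mem_singleton, not_or] at e
      have := card_add_three_le (empty_subset M) hm hyM hx (Ne.symm hy.1) (Ne.symm e.1)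
        (Ne.symm e.2) (notMem_empty _) (notMem_empty _) (notMem_empty _)
      have := h.marks hk
      omega
    have mX : ∀ x, x ∈ U'.erase m ↔ x ∈ U ∧ x ∉ Q ∧ x ≠ y ∧ x ≠ m := fun x => by
      rw [mem_erase, mU]; tauto
    have nX : NA G (U'.erase m) Q := fun x hx z hz a => by
      rw [mX] at hx
      rcases out z hz x hx.1 a.symm with e | e | e
      exacts [hx.2.1 e, hx.2.2.1 e, hx.2.2.2 e]
    have nM : ∀ x ∈ U'.erase m, x ∉ M := fun x hx e => by
      rw [mX] at hx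
      rcases mem_insert.1 (hM e) with e1 | e1
      exacts [hx.2.2.2 e1, hx.2.2.1 (mem_singleton.1 e1)]
    have fY : Free G k (rem G (U'.erase m) {m, y}) := by
      by_contra hf
      obtain ⟨x, hx, hxY⟩ : ∃ x ∈ U'.erase m, x ∉ rem G (U'.erase m) {m, y} := by
        by_contra hcon
        push Not at hcon
        obtain ⟨x, hx, hxX⟩ := h.hit (U'.erase m) ⟨fun x hx => ((mX x).1 hx).1,
          fun x hx z hz a => (mX z).2 ⟨hz, fun e => nX x hx z e a,
            fun e => (mem_rem2.1 (hcon x hx)).2.2.2 (e ▸ a.symm),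
            fun e => (mem_rem2.1 (hcon x hx)).2.1.2 (e ▸ a.symm)⟩⟩
          (nonempty_iff_ne_empty.2 fun e => hf ((free_empty (by omega)).mono (e ▸ rem_sub _ _)))
        exact nM x hxX hx
      have c4 := card_add_one_le (rem_sub _ _) hx hxY
      have hK := clq_of_not_free (by omega) hf
      have c5 := hK.1
      refine h.nou x _ ⟨((mX x).1 hx).1, fun z hz => mem_sdiff.2
        ⟨((mX z).1 (rem_sub _ _ hz)).1, nM z (rem_sub _ _ hz)⟩, hK, hxY, fun q hq z hz a => ?_⟩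
      by_contra hcon
      rw [not_or] at hcon
      have h1 := mem_rem2.1 hq
      have := card_add_two_le (rem_sub _ _) hx ((mX z).2 ⟨hz, fun e => nX q h1.1 z e a,
        fun e => h1.2.2.2 (e ▸ a.symm), fun e => h1.2.1.2 (e ▸ a.symm)⟩) (Ne.symm hcon.2) hxY hcon.1
      omega
    refine ⟨{m, y}, hM, card_le_two, (fY.union (free_small (rem_small c3.le ht (Or.inr hmt)))
      (nX.mono (rem_sub _ _) (rem_sub _ _))).mono fun x hx => ?_⟩
    rw [mem_rem2, mem_sdiff] at hx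
    by_cases e : x ∈ Q
    exacts [mem_union_right _ (mem_rem1.2 ⟨e, hx.2.1⟩), mem_union_left _
      (mem_rem2.2 ⟨(mX x).2 ⟨hx.1.1, e, hx.2.2.1, hx.2.1.1⟩, hx.2⟩)]
  · refine ⟨D, fun x hx => d1 ((mM x).2 ⟨(mU x).2 ⟨h.sub hx,
      fun e => (mem_sdiff.1 (hQ' e)).2 hx, fun e => hyM (e ▸ hx)⟩, Or.inl hx⟩), d2,
      split (rem G (insert y Q) D) ?_ (rem_sub _ _) fun x hx e => mem_rem.2 ⟨e, (mem_rem.1 hx).2⟩⟩
    by_contra hf
    have htY : t ∉ rem G (insert y Q) D := fun e => ((mem_rem.1 e).2 m hmD).2 hmt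
    have c4 := card_add_one_le (rem_sub _ _) (mem_insert_of_mem ht) htY
    have c6 := card_insert_of_notMem hyQ
    have hK := clq_of_not_free (by omega) hf
    have c5 := hK.1
    refine h.nou t _ ⟨hQU ht, fun z hz => ?_, hK, htY, fun q hq z hz a => ?_⟩
    · rcases mem_insert.1 (rem_sub _ _ hz) with e | e
      exacts [e ▸ mem_sdiff.2 ⟨hy.2, hyM⟩, hQ' e]
    · by_contra hcon
      rw [not_or] at hcon
      rw [mem_rem] at hq
      have hz' : z ∈ insert y Q := by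
        by_contra e
        rw [mem_insert, not_or] at e
        rcases mem_insert.1 hq.1 with e1 | e1
        · exact (hq.2 z (d1 ((mM z).2 ⟨(mU z).2 ⟨hz, e.2, e.1⟩, Or.inr (e1 ▸ a)⟩))).2 a.symm
        · rcases out q e1 z hz a with e2 | e2 | e2
          exacts [e.2 e2, e.1 e2, (hq.2 m hmD).2 (e2 ▸ a.symm)]
      have := card_add_two_le (rem_sub _ _) (mem_insert_of_mem ht) hz' (Ne.symm hcon.2) htY hcon.1
      omega

theorem one_comp (hk : 3 ≤ k) (h : Mk G k U M 1) {m : V} {Z : Finset V} (hm : m ∈ M)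
    (hc : ∀ y Q, ¬ CU G k (U.erase m) (M.erase m) y Q) (hne : Z.Nonempty)
    (hcl : Cl G Z (U.erase m)) (hZ : Conn G Z) (hZM : ∀ x ∈ Z, x ∉ M) :
    ∃ D, M ⊆ D ∧ D.card ≤ 2 ∧ Free G k (rem G (U \ M) D) := by
  have hZU : Z ⊆ U := hcl.1.trans (erase_subset _ _)
  have out : ∀ x ∈ Z, ∀ z ∈ U, G.Adj x z → z ∈ Z ∨ z = m := fun x hx z hz a => by
    by_cases e : z = m
    exacts [Or.inr e, Or.inl (hcl.2 x hx z (mem_erase.2 ⟨e, hz⟩) a)]
  obtain ⟨t, ht, hmt⟩ : ∃ t ∈ Z, G.Adj m t := by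
    by_contra hcon
    push Not at hcon
    obtain ⟨x, h1, h2⟩ := h.hit Z ⟨hZU, fun x hx z hz a =>
      (out x hx z hz a).resolve_right fun e => hcon x hx (e ▸ a.symm)⟩ hne
    exact hZM x h2 h1
  have unit : ∀ y ∈ Z, ∀ Q ⊆ Z, Clq G k Q → y ∉ Q →
      ¬ ∀ q ∈ Q, ∀ z ∈ Z, G.Adj q z → z ∈ Q ∨ z = y := fun y hy Q hQ h1 h2 h3 =>
    hc y Q ⟨hcl.1 hy, fun x hx => mem_sdiff.2 ⟨hcl.1 (hQ hx),
      fun e => hZM x (hQ hx) (mem_of_mem_erase e)⟩, h1, h2,
      fun q hq z hz a => h3 q hq z (hcl.2 q (hQ hq) z hz a) a⟩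
  have c1 := card_sdiff_add_card_eq_card hZU
  have na : NA G ((U \ Z) \ M) Z := fun x hx z hz a => by
    rw [mem_sdiff, mem_sdiff] at hx
    exact (out z hz x hx.1.1 a.symm).elim hx.1.2 fun e => hx.2 (e ▸ hm)
  have hmZ : m ∈ U \ Z := mem_sdiff.2 ⟨h.sub hm, fun e => hZM m e hm⟩
  have zero : ∀ E, Free G k (rem G Z E) → Z.card ≤ (k + 1) * E.card := by
    intro E hE
    by_contra hcon
    have := (h.cut (U' := U \ Z) (M' := M) (g' := 0) sdiff_subset
      (fun x hx => mem_sdiff.2 ⟨h.sub hx, fun e => hZM x e hx⟩) (fun _ _ e => e)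
      (fun x hx e z hz a => mem_sdiff.2 ⟨hz, fun e1 => na x (mem_sdiff.2 ⟨hx, e⟩) z e1 a⟩)
      fun D hD => by
        have := h.slack (D ∪ E) (free_rem_union hD hE na fun x hx => by
          simp only [mem_union, mem_sdiff] at hx ⊢
          tauto)
        have := Nat.mul_le_mul_left (k + 1) (card_union_le D E)
        rw [mul_add] at this
        omega).empty hk
    exact notMem_empty m (this ▸ hmZ)
  obtain ⟨E, e1, e2⟩ := bound_of_noClq (G := G) (Or.inr hk) Z fun Q hQ hQZ => by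
    have := hZ Q hQZ (hQ.sp (by omega)).1
    subst this
    exact h.nou m Q ⟨h.sub hm, fun x hx => mem_sdiff.2 ⟨hZU hx, hZM x hx⟩, hQ,
      (mem_sdiff.1 hmZ).2, out⟩
  have e3 := zero E e1
  have e4 : E.card ≤ 2 := by
    by_contra hcon
    have := Nat.mul_le_mul_left (k + 1) (show 3 ≤ E.card by omega)
    obtain ⟨y, hy, Q, hQ, h1, h2, h3⟩ := exists_pend' hk hZ (by omega) zero
    exact unit y hy Q hQ h1 h2 h3
  obtain ⟨E', e5, e6⟩ := bound_of_noClq (G := G) (Or.inr hk) (Z.erase t) fun Q hQ hQZ =>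
    unit t ht Q (hQZ.1.trans (erase_subset _ _)) hQ (fun e => notMem_erase t Z (hQZ.1 e))
      fun q hq z hz a => by
        by_cases e : z = t
        exacts [Or.inr e, Or.inl (hQZ.2 q hq z (mem_erase.2 ⟨e, hz⟩) a)]
  have c2 := card_erase_add_one ht
  have e7 : E'.card + 1 ≤ E.card := by
    by_contra hcon
    have := Nat.mul_le_mul_left (k + 1) (show E.card ≤ E'.card by omega)
    omega
  have e8 := Nat.mul_le_mul_left (k + 1) e7
  rw [mul_add] at e8
  set U' := (U \ Z).erase m with hU'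
  set M' := U'.filter (fun x => x ∈ M ∨ G.Adj m x) with hM'
  have mU : ∀ x, x ∈ U' ↔ x ∈ U ∧ x ∉ Z ∧ x ≠ m := fun x => by
    simp only [hU', mem_erase, mem_sdiff]; tauto
  have mM : ∀ x, x ∈ M' ↔ x ∈ U' ∧ (x ∈ M ∨ G.Adj m x) := fun x => mem_filter
  have c3 : U'.card + 1 = (U \ Z).card := card_erase_add_one hmZ
  have na' : NA G U' Z := fun x hx z hz a => by
    rw [mU] at hx
    exact (out z hz x hx.1 a.symm).elim hx.2.1 hx.2.2
  have fr : ∀ D, Free G k (rem G (U' \ M') D) →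
      Free G k (rem G (U \ M) (insert m (D ∪ E'))) := fun D hD =>
    (free_rem_union hD e5 (na'.mono sdiff_subset (erase_subset _ _)) subset_rfl).mono
      fun x hx => by
        rw [mem_rem, mem_sdiff] at hx
        have h1 := hx.2 m (mem_insert_self _ _)
        refine mem_rem.2 ⟨?_, fun d hd => hx.2 d (mem_insert_of_mem hd)⟩
        by_cases e : x ∈ Z
        · exact mem_union_right _ (mem_erase.2 ⟨fun e1 => h1.2 (e1 ▸ hmt), e⟩)
        · exact mem_union_left _ (mem_sdiff.2 ⟨(mU x).2 ⟨hx.1.1, e, h1.1⟩,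
            fun e1 => ((mM x).1 e1).2.elim hx.1.2 h1.2⟩)
  have he := (h.cut (U' := U') (M' := M') (g' := 0) (fun x hx => ((mU x).1 hx).1)
    (filter_subset _ _) (fun x hx e => (mM x).2 ⟨hx, Or.inl e⟩)
    (fun x hx e z hz a => (mU z).2 ⟨hz, fun e1 => na' x hx z e1 a,
      fun e1 => e ((mM x).2 ⟨hx, Or.inr (e1 ▸ a.symm)⟩)⟩) fun D hD => by
      have := h.slack _ (fr D hD)
      have := Nat.mul_le_mul_left (k + 1) ((card_insert_le m (D ∪ E')).trans
        (Nat.add_le_add_right (card_union_le D E') 1))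
      rw [mul_add, mul_add] at this
      omega).empty hk
  refine ⟨insert m (∅ ∪ E'), fun x hx => ?_, ?_,
    fr ∅ ((free_empty (by omega)).mono (he ▸ (rem_sub _ _).trans sdiff_subset))⟩
  · by_cases e : x = m
    · exact e ▸ mem_insert_self _ _
    · exact absurd (he ▸ (mU x).2 ⟨h.sub hx, fun e1 => hZM x e1 hx, e⟩) (notMem_empty x)
  · have := card_insert_le m (∅ ∪ E')
    rw [empty_union] at this ⊢
    omega

theorem one (hk : 3 ≤ k) (h : Mk G k U M 1) :
    ∃ D, M ⊆ D ∧ D.card ≤ 2 ∧ Free G k (rem G (U \ M) D) := by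
  induction hn : U.card using Nat.strong_induction_on generalizing U M with
  | _ n ih =>
  subst hn
  rcases U.eq_empty_or_nonempty with rfl | hne
  · exact ⟨∅, h.sub, by simp, (free_empty (by omega)).mono ((rem_sub _ _).trans sdiff_subset)⟩
  obtain ⟨m, hm, -⟩ := h.hit U ⟨subset_rfl, fun _ _ _ hy _ => hy⟩ hne
  by_cases hc : ∃ y Q, CU G k (U.erase m) (M.erase m) y Q
  · obtain ⟨y, Q, hc⟩ := hc
    exact h.one_unit hk hm hc fun U' M' h1 h2 => ih _ h1 h2 rfl
  push Not at hc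
  by_cases hh : ∃ T, Cl G T (U.erase m) ∧ T.Nonempty ∧ ∀ x ∈ M.erase m, x ∉ T
  · obtain ⟨T, h1, h2, h3⟩ := hh
    obtain ⟨Z, z1, z2, z3, z4⟩ := exists_conn h1 h2
    exact h.one_comp hk hm hc z2 z3 z4 fun x hx e =>
      h3 x (mem_erase.2 ⟨(mem_erase.1 (z3.1 hx)).1, e⟩) (z1 hx)
  push Not at hh
  have e : U.erase m \ M.erase m = U \ M := by
    ext x
    simp only [mem_sdiff, mem_erase]
    exact ⟨by tauto, fun hx => ⟨⟨fun e => hx.2 (e ▸ hm), hx.1⟩, fun hx' => hx.2 hx'.2⟩⟩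
  have he := Mk.empty hk (G := G) (U := U.erase m) (M := M.erase m)
    ⟨erase_subset_erase m h.sub, hh, hc, fun D hD => by
      have := h.slack D (e ▸ hD)
      have := card_erase_add_one (h.sub hm)
      omega⟩
  refine ⟨{m}, fun x hx => mem_singleton.2 ?_, by simp,
    (free_empty (by omega)).mono ((rem_sub _ _).trans (by rw [← e, he]; exact sdiff_subset))⟩
  by_contra e1
  exact notMem_empty x (he ▸ mem_erase.2 ⟨e1, h.sub hx⟩)

theorem one_card (hk : 3 ≤ k) (h : Mk G k U M 1) : U.card ≤ 2 * k + 3 := by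
  obtain ⟨D, -, h1, h2⟩ := h.one hk
  have := h.slack D h2
  have := Nat.mul_le_mul_left (k + 1) h1
  omega

end Mk

end Pool.Agent.IsoKer
end

-- merged part: Pool.Agent.Work.MP_1346a1_co.OneMain
section
/-! Extremal graphs of order one more than a multiple of `k + 1`. -/

namespace Pool.Agent.IsoKer

open Finset Pool.Agent.IsoDefs
open scoped Classical

variable {V : Type*} {G : SimpleGraph V} {i k : ℕ}

theorem hasF_marked {S : Finset V} {Q : V → Finset V} (D : Finset (kernelSet S Q)) :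
    HasF i k (G.induce (kernelSet S Q))
        (closedNbhd (G.induce (kernelSet S Q)) D ∪ kernelMarks G S Q)ᶜ ↔
      HasF i k G (kernelSet S Q \ (closedNbhd G S ∪ closedNbhd G (D.image Subtype.val))) := by
  rw [hasF_induce]
  refine iff_of_eq (congrArg _ (Set.ext fun x => ⟨?_, fun hx => ⟨⟨x, hx.1⟩, ?_, rfl⟩⟩))
  · rintro ⟨a, ha, rfl⟩
    refine ⟨a.2, ?_⟩
    rintro (⟨d, hd, e | e⟩ | ⟨d, hd, e⟩)
    · exact a.2.1 (e ▸ hd)
    · exact ha (Or.inr ⟨d, hd, e⟩)
    · obtain ⟨b, hb, rfl⟩ := mem_image.1 hd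
      exact ha (Or.inl ⟨b, hb, e.imp Subtype.ext id⟩)
  · rintro (⟨d, hd, e⟩ | ⟨d, hd, e⟩)
    · exact hx.2 (Or.inr ⟨d, mem_image_of_mem _ hd, e.imp (congrArg Subtype.val) id⟩)
    · exact hx.2 (Or.inl ⟨d, hd, Or.inr e⟩)

theorem WFam.marked [Fintype V] {S : Finset V} {Q T : V → Finset V} (h : WFam G k S Q T) (hk : 1 ≤ k)
    (hG : Conn G univ) (hS : S.Nonempty)
    (hmax : ∀ y ∈ rest S Q, ∀ P ⊆ rest S Q, ¬ PendA G k y P) {g : ℕ}
    (hg : ∀ E : Finset V, Free G k (rem G univ E) → Fintype.card V ≤ (k + 1) * E.card + g) :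
    Mk G k (rest S Q) (rest S Q \ rem G (rest S Q) S) g := by
  have key : ∀ x ∈ rest S Q, x ∉ rest S Q \ rem G (rest S Q) S → ∀ z, G.Adj x z → z ∈ rest S Q :=
    fun x hx e z a => (h.toFam.nb_rest hx a).resolve_left fun hz =>
      e (mem_sdiff.2 ⟨hx, fun hh => ((mem_rem.1 hh).2 z hz).2 a.symm⟩)
  refine ⟨sdiff_subset, fun X hX hne => ?_, fun y P hP => ?_, fun D hD => ?_⟩
  · by_contra hcon
    push Not at hcon
    obtain ⟨s, hs⟩ := hS
    have := hG X ⟨subset_univ _, fun x hx z _ a =>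
      hX.2 x hx z (key x (hX.1 hx) (fun e => hcon x e hx) z a) a⟩ hne
    exact (mem_rest.1 (hX.1 (this ▸ mem_univ s))).1 hs
  · refine hmax y hP.1 P (hP.2.1.trans sdiff_subset) ⟨Or.inl hP.2.2.1, hP.2.2.2.1,
      fun q hq z a => ?_⟩
    have := mem_sdiff.1 (hP.2.1 hq)
    exact hP.2.2.2.2 q hq z (key q this.1 this.2 z a) a
  · have := h.gain hk hg ∅ D (by
      rw [union_empty]
      rwa [Finset.sdiff_sdiff_eq_self (rem_sub _ _)] at hD)
    simpa using this

theorem one_main [Fintype V] (hi : i = 1 ∨ i = 2 ∨ i = 3) (hk : 3 ≤ k) (hG : G.Connected)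
    (hn : Fintype.card V % (k + 1) = 1)
    (hp : 2 * 10 ^ 12 * (k + 1) ^ 14 < Fintype.card V ∨ ∃ y P, IsPendant k G y P) :
    iota i k G = Fintype.card V / (k + 1) ↔
      ∃ (S : Finset V) (Q : V → Finset V), IsUnitFamily k G S Q ∧
        ((kernelSet S Q).ncard = 1 ∨
          ((kernelSet S Q).ncard = k + 2 ∧ HasF i k G (kernelSet S Q \ closedNbhd G S)) ∨
          ((kernelSet S Q).ncard = 2 * k + 3 ∧ ∀ d ∈ kernelSet S Q,
            HasF i k G (kernelSet S Q \ (closedNbhd G S ∪ closedNbhd G {d})))) := by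
  have hc := conn_of_connected hG
  have hk1 : 1 ≤ k := by omega
  have d1 : (k + 2) / (k + 1) = 1 := by
    rw [Nat.div_eq_iff (by omega)]; omega
  have d2 : (2 * k + 3) / (k + 1) = 2 := by
    rw [Nat.div_eq_iff (by omega)]; omega
  have key : ∀ S Q, Fam G k S Q → ∃ s, Fintype.card V = (k + 1) * s + (kernelSet S Q).ncard ∧
      iota i k G = s + iotaMarked i k (G.induce (kernelSet S Q)) (kernelMarks G S Q) ∧
      Fintype.card V / (k + 1) = s + (kernelSet S Q).ncard / (k + 1) := by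
    intro S Q h
    obtain ⟨T, w⟩ := h.weights hk1 hc
    have e : (kernelSet S Q).ncard = (rest S Q).card := by rw [← coe_rest, Set.ncard_coe_finset]
    refine ⟨_, e ▸ w.card_eq, w.iota_eq hi hk1, ?_⟩
    rw [w.card_eq, e, add_comm _ (rest S Q).card, Nat.add_mul_div_left _ _ (by omega), add_comm]
  constructor
  · intro he
    obtain ⟨S, Q, h, hmax⟩ := exists_fam G k
    have hg : ∀ E : Finset V, Free G k (rem G univ E) →
        Fintype.card V ≤ (k + 1) * E.card + 1 := fun E hE => by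
      have h1 := Nat.mul_le_mul_left (k + 1) (he ▸ iota_le_free (i := i) hk1 hE)
      have h2 := Nat.div_add_mod (Fintype.card V) (k + 1)
      omega
    have hS : S.Nonempty := by
      by_contra hS
      rw [not_nonempty_iff_eq_empty] at hS
      have hu : rest S Q = univ := eq_univ_of_forall fun x => by simp [mem_rest, hS]
      rcases hp with hp | ⟨y, P, hp⟩
      · have := kernel_all hk1 hc h hmax hg
        rw [hu, card_univ] at this
        omega
      · exact hmax y (hu ▸ mem_univ y) P (hu ▸ subset_univ P) (pendA_iff.2 hp)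
    obtain ⟨T, w⟩ := h.weights hk1 hc
    have h1 := (w.marked hk1 hc hS hmax hg).one_card hk
    rw [← Set.ncard_coe_finset, coe_rest] at h1
    obtain ⟨s, e1, e2, e3⟩ := key S Q h
    have h2 : (kernelSet S Q).ncard % (k + 1) = 1 := by rwa [e1, Nat.mul_add_mod] at hn
    have h3 := Nat.div_add_mod (kernelSet S Q).ncard (k + 1)
    have low : ∀ D : Finset (kernelSet S Q), D.card < (kernelSet S Q).ncard / (k + 1) →
        HasF i k G (kernelSet S Q \ (closedNbhd G S ∪ closedNbhd G (D.image Subtype.val))) := by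
      intro D hD
      by_contra hf
      have : iotaMarked i k (G.induce (kernelSet S Q)) (kernelMarks G S Q) ≤ D.card :=
        Nat.sInf_le ⟨D, rfl, fun hh => hf ((hasF_marked D).1 hh)⟩
      omega
    refine ⟨S, Q, fam_iff.1 h, ?_⟩
    obtain ⟨j, hj⟩ : ∃ j, (kernelSet S Q).ncard / (k + 1) = j := ⟨_, rfl⟩
    rw [hj] at h3 low
    rcases j with _ | _ | _ | j
    · exact Or.inl (by omega)
    · exact Or.inr (Or.inl ⟨by omega, hasF_mono (low ∅ (by simp))
        fun x hx => ⟨hx.1, fun e => hx.2 (Or.inl e)⟩⟩)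
    · refine Or.inr (Or.inr ⟨by omega, fun d hd => ?_⟩)
      simpa using low {⟨d, hd⟩} (by simp)
    · have := Nat.mul_le_mul_left (k + 1) (show 3 ≤ j + 1 + 1 + 1 by omega)
      omega
  · rintro ⟨S, Q, h, hR⟩
    obtain ⟨s, e1, e2, e3⟩ := key S Q (fam_iff.2 h)
    obtain ⟨E, f1, f2⟩ := bound_of_noClq (G := G) (Or.inr hk) univ fun P hP hcl => by
      have := hP.1
      rw [hc P hcl (hP.sp hk1).1, card_univ] at this
      rw [this, Nat.mod_eq_of_lt (by omega)] at hn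
      omega
    have f3 : E.card ≤ Fintype.card V / (k + 1) := by
      rw [Nat.le_div_iff_mul_le (by omega), mul_comm]
      exact f2
    refine le_antisymm ((iota_le_free hk1 f1).trans f3) ?_
    obtain ⟨D, g1, g2⟩ := exists_iotaMarked (G := G.induce (kernelSet S Q)) (i := i) hk1
      (kernelMarks G S Q)
    rw [hasF_marked] at g2
    rw [e2, e3, ← g1]
    refine Nat.add_le_add_left ?_ s
    by_contra hcon
    rcases hR with hR | ⟨hR, hF⟩ | ⟨hR, hF⟩
    · rw [hR, Nat.div_eq_of_lt (by omega)] at hcon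
      omega
    · rw [hR, d1] at hcon
      rw [card_eq_zero.1 (show D.card = 0 by omega)] at g2
      exact g2 (hasF_mono hF fun x hx => ⟨hx.1, by simpa [closedNbhd] using hx.2⟩)
    · rw [hR, d2] at hcon
      obtain ⟨d0, hd0⟩ := Set.nonempty_of_ncard_ne_zero (show (kernelSet S Q).ncard ≠ 0 by omega)
      have : Nonempty (kernelSet S Q) := ⟨⟨d0, hd0⟩⟩
      obtain ⟨d, hd⟩ := card_le_one_iff_subset_singleton.1 (show D.card ≤ 1 by omega)
      refine g2 (hasF_mono (hF d d.2) fun x hx => ⟨hx.1, fun e => hx.2 (e.imp_right ?_)⟩)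
      rintro ⟨a, ha, e⟩
      obtain ⟨b, hb, rfl⟩ := mem_image.1 ha
      exact ⟨d, mem_singleton_self _, mem_singleton.1 (hd hb) ▸ e⟩

end Pool.Agent.IsoKer
end
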