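import Pool.Agent.Work.MP_1346a1_co.Zero
import Pool.Agent.Work.MP_1346a1_co.Defs2

-- merged part: Pool.Agent.Work.MP_1346a1_co.Pair
section
/-! Graphs of order `2 (k + 1)` in which every vertex misses a dense set. -/

namespace Pool.Agent.IsoKer

open Finset
open scoped Classical

variable {V : Type*} {G : SimpleGraph V} {k : ℕ}

/-- A nonempty set of minimum inner degree at least `k - 1` outside the closed neighbourhood
of `v`. -/
structure Cr (G : SimpleGraph V) (k : ℕ) (v : V) (T : Finset V) : Prop where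
  ne : T.Nonempty
  out : ∀ t ∈ T, t ≠ v ∧ ¬ G.Adj v t
  deg : ∀ t ∈ T, k ≤ (nb G T t).card + 1

/-- A partition into two halves of a graph in which every vertex misses a dense set. -/
structure P2 (G : SimpleGraph V) (k : ℕ) (A B : Finset V) : Prop where
  hk : 5 ≤ k
  disj : Disjoint A B
  cov : ∀ z, z ∈ A ∨ z ∈ B
  cA : A.card = k + 1
  cB : B.card = k + 1
  cr : ∀ v, ∃ T, Cr G k v T

/-- Every edge `x p` from `A` to `B` leaves a clique `B - p` and is the only one at `x`. -/
def Hf (G : SimpleGraph V) (k : ℕ) (A B : Finset V) : Prop :=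
  ∀ x ∈ A, ∀ p ∈ B, G.Adj x p → Clq G k (B.erase p) ∧ ∀ p' ∈ B, G.Adj x p' → p' = p

theorem nb_split {T A B : Finset V} (h : T ⊆ A ∪ B) (v : V) :
    (nb G T v).card ≤ (nb G A v).card + (nb G B v).card := by
  refine le_trans (card_le_card fun x hx => ?_) (card_union_le (nb G A v) (nb G B v))
  rw [mem_nb] at hx
  exact mem_union.2 ((mem_union.1 (h hx.1)).imp (fun e => mem_nb.2 ⟨e, hx.2⟩)
    fun e => mem_nb.2 ⟨e, hx.2⟩)

theorem Clq.star {A : Finset V} {y x : V} (h : Clq G k (A.erase y)) (hx : x ∈ A) (n : x ≠ y) :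
    k ≤ (nb G A x).card + 1 := by
  have h1 := mem_erase.2 ⟨n, hx⟩
  have h2 := nb_card_mono (G := G) (erase_subset y A) x
  rw [h.nb_eq h1, card_erase_of_mem h1, h.1] at h2
  omega

namespace P2

variable {A B : Finset V}

theorem symm (h : P2 G k A B) : P2 G k B A :=
  ⟨h.hk, h.disj.symm, fun z => (h.cov z).symm, h.cB, h.cA, h.cr⟩

theorem deg (h : P2 G k A B) (v : V) : (nb G A v).card + (nb G B v).card ≤ k + 1 := by
  obtain ⟨T, hT⟩ := h.cr v
  have h1 := core_card hT.ne hT.deg
  have hv : v ∈ A ∪ B := mem_union.2 (h.cov v)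
  have h2 := rem_card (G := G) hv
  have h3 : T.card ≤ (rem G (A ∪ B) {v}).card :=
    card_le_card fun t ht => mem_rem1.2 ⟨mem_union.2 (h.cov t), hT.out t ht⟩
  have h4 : (nb G A v ∪ nb G B v).card ≤ (nb G (A ∪ B) v).card := card_le_card
    (union_subset (nb_mono subset_union_left v) (nb_mono subset_union_right v))
  rw [card_union_of_disjoint (h.disj.mono (nb_sub _ _) (nb_sub _ _))] at h4
  rw [card_union_of_disjoint h.disj, h.cA, h.cB] at h2
  omega

theorem inB (h : P2 G k A B) {T : Finset V} {v p : V} (hT : Cr G k v T) (hTB : T ⊆ B)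
    (hp : p ∈ B) (hpT : p ∉ T) : T = B.erase p ∧ Clq G k (B.erase p) := by
  have h1 := core_card hT.ne hT.deg
  have h2 : (B.erase p).card = k := by rw [card_erase_of_mem hp, h.cB]; rfl
  have e : T = B.erase p := eq_of_subset_of_card_le
    (fun t ht => mem_erase.2 ⟨fun e => hpT (e ▸ ht), hTB ht⟩) (by omega)
  exact ⟨e, e ▸ clq_of_core hT.ne hT.deg (by rw [e]; omega)⟩

theorem one (h : P2 G k A B) {T : Finset V} {x p : V} (hT : Cr G k x T) (hTB : T ⊆ B)
    (hp : p ∈ B) (a : G.Adj x p) : Clq G k (B.erase p) ∧ ∀ p' ∈ B, G.Adj x p' → p' = p := by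
  obtain ⟨e, q⟩ := h.inB hT hTB hp fun hh => (hT.out p hh).2 a
  exact ⟨q, fun p' hp' a' => by_contra fun n => (hT.out p' (e ▸ mem_erase.2 ⟨n, hp'⟩)).2 a'⟩

theorem step (h : P2 G k A B) (H : ∀ y ∈ A, (nb G B y).card + 1 < k) {x p : V} (hx : x ∈ A)
    (hs : k ≤ (nb G A x).card + 1) (hp : p ∈ B) (a : G.Adj x p) :
    Clq G k (B.erase p) ∧ ∀ p' ∈ B, G.Adj x p' → p' = p := by
  obtain ⟨T, hT⟩ := h.cr x
  refine h.one hT (fun t ht => (h.cov t).resolve_left fun htA => ?_) hp a
  have h1 := rem_card (G := G) hx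
  have h2 : (nb G T t).card ≤ (nb G (rem G A {x}) t).card + (nb G B t).card :=
    nb_split (fun s hs => mem_union.2 ((h.cov s).imp_left
      fun e => mem_rem1.2 ⟨e, hT.out s hs⟩)) t
  have h3 := nb_card_lt (G := G) (mem_rem1.2 ⟨htA, hT.out t ht⟩)
  have := hT.deg t ht
  have := H t htA
  have := h.cA
  omega

theorem allstar (h : P2 G k A B) (hs : ∀ x ∈ A, k ≤ (nb G A x).card + 1) : Hf G k A B :=
  fun x hx p hp a => h.step (fun y hy => by
    have := hs y hy
    have := h.deg y
    have := h.hk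
    omega) hx (hs x hx) hp a

theorem low (h : P2 G k A B) (H : ∀ y ∈ A, (nb G B y).card + 1 < k)
    (H' : ∀ y ∈ B, (nb G A y).card + 1 < k)
    (St : ∀ x ∈ A, (nb G A x).card + 1 < k → Clq G k (A.erase x))
    (hnb : ∀ x ∈ A, ∃ a ∈ A, G.Adj x a) : Hf G k A B := by
  intro x hx p hp a
  by_cases hs : k ≤ (nb G A x).card + 1
  · exact h.step H hx hs hp a
  have hK := St x hx (by omega)
  obtain ⟨c, hc, hxc⟩ := hnb x hx
  obtain ⟨T, hT⟩ := h.cr x
  refine h.one hT (fun t ht => (h.cov t).resolve_left fun htA => ?_) hp a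
  have hcK : c ∈ A.erase x := mem_erase.2 ⟨hxc.ne.symm, hc⟩
  have hL : ((A.erase x).erase c).card + 1 = k := by
    rw [card_erase_of_mem hcK, hK.1]; have := h.hk; omega
  have hTA : ∀ s ∈ T, s ∈ A → s ∈ (A.erase x).erase c := fun s hs hsA =>
    mem_erase.2 ⟨fun e => (hT.out s hs).2 (e ▸ hxc), mem_erase.2 ⟨(hT.out s hs).1, hsA⟩⟩
  have key : ∀ s ∈ T, s ∈ A → ∃ u ∈ B, G.Adj s u ∧ (nb G B u).card + 1 < k ∧
      Clq G k (B.erase u) ∧ k ≤ (T ∩ A).card + 1 := by
    intro s hs hsA
    have h2 : (nb G T s).card ≤ (nb G (T ∩ A) s).card + (nb G B s).card :=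
      nb_split (fun r hr => mem_union.2 ((h.cov r).imp_left fun e => mem_inter.2 ⟨hr, e⟩)) s
    have h3 := nb_card_lt (G := G) (mem_inter.2 ⟨hs, hsA⟩)
    have h4 : (T ∩ A).card ≤ ((A.erase x).erase c).card :=
      card_le_card fun r hr => hTA r (mem_inter.1 hr).1 (mem_inter.1 hr).2
    have h5 := hT.deg s hs
    obtain ⟨u, hu⟩ : (nb G B s).Nonempty := card_pos.1 (by omega)
    rw [mem_nb] at hu
    have hn := (hT.out s hs).1
    obtain ⟨q, uq⟩ := h.step H hsA (hK.star hsA hn) hu.1 hu.2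
    have h6 : (nb G B s).card ≤ 1 := card_le_one.2 fun y hy z hz =>
      (uq y (mem_nb.1 hy).1 (mem_nb.1 hy).2).trans (uq z (mem_nb.1 hz).1 (mem_nb.1 hz).2).symm
    refine ⟨u, hu.1, hu.2, ?_, q, by omega⟩
    by_contra hh
    have := (h.symm.step H' hu.1 (by omega) hsA hu.2.symm).1.star hx hn.symm
    omega
  obtain ⟨u, hu, -, hul, q, hcard⟩ := key t ht htA
  have : (T ∩ A).card ≤ (nb G A u).card := card_le_card fun s hs => by
    obtain ⟨u', hu', a', hl', -⟩ := key s (mem_inter.1 hs).1 (mem_inter.1 hs).2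
    have e : u' = u := by
      by_contra n
      have := q.star hu' n
      omega
    exact mem_nb.2 ⟨(mem_inter.1 hs).2, (e ▸ a').symm⟩
  have := H' u hu
  omega

theorem reblock (h : P2 G k A B) {y : V} (hy : y ∈ A) (H : k ≤ (nb G B y).card + 1)
    (St : ∀ x ∈ A, (nb G A x).card + 1 < k → Clq G k (A.erase x))
    (St' : ∀ x ∈ B, (nb G B x).card + 1 < k → Clq G k (B.erase x))
    (hnb : ∀ x ∈ A, ∃ a ∈ A, G.Adj x a) :
    ∃ A' B', P2 G k A' B' ∧ Hf G k A' B' ∧ Hf G k B' A' := by
  have hk := h.hk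
  have hK := St y hy (by have := h.deg y; omega)
  obtain ⟨c, hc, hyc⟩ := hnb y hy
  obtain ⟨T, hT⟩ := h.cr y
  have hcK : c ∈ A.erase y := mem_erase.2 ⟨hyc.ne.symm, hc⟩
  have hL : ((A.erase y).erase c).card + 1 = k := by
    rw [card_erase_of_mem hcK, hK.1]; omega
  have hTA : ∀ s ∈ T, s ∈ A → s ∈ (A.erase y).erase c := fun s hs hsA =>
    mem_erase.2 ⟨fun e => (hT.out s hs).2 (e ▸ hyc), mem_erase.2 ⟨(hT.out s hs).1, hsA⟩⟩
  have hTB : (T ∩ B).card ≤ 2 := by
    have hd : Disjoint (T ∩ B) (nb G B y) := disjoint_left.2 fun s hs hs' =>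
      (hT.out s (mem_inter.1 hs).1).2 (mem_nb.1 hs').2
    have := card_le_card (union_subset (inter_subset_right (s₁ := T)) (nb_sub (G := G) B y))
    rw [card_union_of_disjoint hd, h.cB] at this
    omega
  have lowB : ∀ u ∈ T, u ∈ B → (nb G B u).card + 1 < k := fun u hu huB => by
    have h2 : (nb G T u).card ≤ (nb G A u).card + (nb G (T ∩ B) u).card :=
      nb_split (fun r hr => mem_union.2 ((h.cov r).imp_right fun e => mem_inter.2 ⟨hr, e⟩)) u
    have h3 := nb_card_lt (G := G) (mem_inter.2 ⟨hu, huB⟩)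
    have := hT.deg u hu
    have := h.deg u
    omega
  obtain ⟨u, hu, huB⟩ : ∃ u ∈ T, u ∈ B := by
    by_contra hh
    push Not at hh
    have := card_le_card fun s hs => hTA s hs ((h.cov s).resolve_right (hh s hs))
    have := core_card hT.ne hT.deg
    omega
  have hK' := St' u huB (lowB u hu huB)
  have huA : u ∉ A := disjoint_right.1 h.disj huB
  have hyB : y ∉ B := disjoint_left.1 h.disj hy
  have n1 : u ∉ A.erase y := fun e => huA (mem_of_mem_erase e)
  have n2 : y ∉ B.erase u := fun e => hyB (mem_of_mem_erase e)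
  have P : P2 G k (insert u (A.erase y)) (insert y (B.erase u)) := by
    refine ⟨hk, disjoint_left.2 fun z hz hz' => ?_, fun z => ?_,
      by rw [card_insert_of_notMem n1, hK.1], by rw [card_insert_of_notMem n2, hK'.1], h.cr⟩
    · simp only [mem_insert, mem_erase] at hz hz'
      rcases hz with e | e <;> rcases hz' with e' | e'
      exacts [huA (e ▸ e' ▸ hy), e'.1 e, e.1 e', disjoint_left.1 h.disj e.2 e'.2]
    · simp only [mem_insert, mem_erase]
      have := h.cov z
      tauto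
  refine ⟨_, _, P, P.allstar fun x hx => ?_, P.symm.allstar fun x hx => ?_⟩
  · by_cases e : x = u
    · refine le_trans (hT.deg u hu) (Nat.add_le_add_right (card_le_card fun s hs => ?_) 1)
      rw [mem_nb] at hs
      refine mem_nb.2 ⟨mem_insert_of_mem (mem_of_mem_erase (hTA s hs.1 ((h.cov s).resolve_right
        fun hsB => ?_))), e ▸ hs.2⟩
      have := hK'.star hsB hs.2.ne.symm
      have := lowB s hs.1 hsB
      omega
    · exact Clq.star (y := u) (by rwa [erase_insert n1]) hx e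
  · by_cases e : x = y
    · refine le_trans H (Nat.add_le_add_right (card_le_card fun s hs => ?_) 1)
      rw [mem_nb] at hs
      exact mem_nb.2 ⟨mem_insert_of_mem (mem_erase.2 ⟨fun e' => (hT.out u hu).2 (e' ▸ hs.2), hs.1⟩),
        e ▸ hs.2⟩
    · exact Clq.star (y := y) (by rwa [erase_insert n2]) hx e

theorem st (h : P2 G k A B) {b : V} (hb : Bk G k b B) :
    ∀ x ∈ A, (nb G A x).card + 1 < k → Clq G k (A.erase x) := by
  intro x hx hl
  obtain ⟨T, hT⟩ := h.cr b
  have hTA : T ⊆ A := fun t ht => (h.cov t).resolve_right fun e =>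
    (hb.dom t e).elim (hT.out t ht).1 (hT.out t ht).2
  refine (h.symm.inB hT hTA hx fun hh => ?_).2
  have := hT.deg x hh
  have := nb_card_mono (G := G) hTA x
  omega

theorem matched (h : P2 G k A B) {a b : V} (ha : Bk G k a A) (hb : Bk G k b B) :
    ∃ A' B', P2 G k A' B' ∧ Hf G k A' B' ∧ Hf G k B' A' := by
  have hk := h.hk
  have nA := fun x hx => ha.exists_nb (y := x) (by omega) hx
  have nB := fun x hx => hb.exists_nb (y := x) (by omega) hx
  by_cases H : ∀ y ∈ A, (nb G B y).card + 1 < k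
  · by_cases H' : ∀ y ∈ B, (nb G A y).card + 1 < k
    · exact ⟨A, B, h, h.low H H' (h.st hb) nA, h.symm.low H' H (h.symm.st ha) nB⟩
    · push Not at H'
      obtain ⟨y, hy, H'⟩ := H'
      exact h.symm.reblock hy H' (h.symm.st ha) (h.st hb) nB
  · push Not at H
    obtain ⟨y, hy, H⟩ := H
    exact h.reblock hy H (h.st hb) (h.symm.st ha) nA

end P2

end Pool.Agent.IsoKer
end

-- merged part: Pool.Agent.Work.MP_1346a1_co.PairMain
section
/-! Extremal graphs of order divisible by `k + 1`, small orders included. -/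

namespace Pool.Agent.IsoKer

open Finset Pool.Agent.IsoDefs
open scoped Classical

variable {V : Type*} {G : SimpleGraph V} {i k : ℕ}

theorem core_color {U : Finset V}
    (h : ∀ T ⊆ U, T.Nonempty → ∃ t ∈ T, (nb G T t).card + 1 < k) : ∀ T ⊆ U, ∃ c : V → ℕ,
    (∀ x ∈ T, c x + 1 < k) ∧ ∀ x ∈ T, ∀ y ∈ T, G.Adj x y → c x ≠ c y := by
  intro T
  induction hn : T.card using Nat.strong_induction_on generalizing T with
  | _ n ih =>
  intro hT
  rcases T.eq_empty_or_nonempty with rfl | hne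
  · exact ⟨fun _ => 0, by simp, by simp⟩
  obtain ⟨t, ht, hlt⟩ := h T hT hne
  obtain ⟨c, h1, h2⟩ := ih _ (hn ▸ card_erase_lt_of_mem ht) (T.erase t) rfl
    ((erase_subset _ _).trans hT)
  obtain ⟨j, hj, hj'⟩ : ∃ j ∈ range (k - 1), j ∉ (nb G T t).image c := by
    refine exists_mem_notMem_of_card_lt_card ?_
    have := card_image_le (s := nb G T t) (f := c)
    rw [card_range]
    omega
  rw [mem_range] at hj
  have hv : ∀ y ∈ T, G.Adj t y → j ≠ c y := fun y hy hty e =>
    hj' (mem_image.2 ⟨y, mem_nb.2 ⟨hy, hty⟩, e.symm⟩)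
  refine ⟨Function.update c t j, fun x hx => ?_, fun x hx y hy hxy => ?_⟩
  · by_cases e : x = t
    · rw [e, Function.update_self]; omega
    · rw [Function.update_of_ne e]; exact h1 x (mem_erase.2 ⟨e, hx⟩)
  · by_cases e : x = t
    · subst e
      rw [Function.update_self, Function.update_of_ne hxy.ne.symm]
      exact hv y hy hxy
    · by_cases e' : y = t
      · subst e'
        rw [Function.update_self, Function.update_of_ne e]
        exact (hv x hx hxy.symm).symm
      · rw [Function.update_of_ne e, Function.update_of_ne e']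
        exact h2 x (mem_erase.2 ⟨e, hx⟩) y (mem_erase.2 ⟨e', hy⟩) hxy

theorem reg_core {W : Type} [Fintype W] {H : SimpleGraph W} {f : W → V} {d : ℕ}
    (h1 : Function.Injective f) (h3 : ∀ a b, H.Adj a b → G.Adj (f a) (f b)) (hd : k - 1 ≤ d)
    (hreg : ∀ v, (H.neighborSet v).ncard = d) :
    ∀ t ∈ univ.image f, k ≤ (nb G (univ.image f) t).card + 1 := by
  intro t ht
  obtain ⟨a, -, rfl⟩ := mem_image.1 ht
  have hs : f '' H.neighborSet a ⊆ (nb G (univ.image f) (f a) : Set V) := by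
    rintro _ ⟨b, hb, rfl⟩
    exact mem_coe.2 (mem_nb.2 ⟨mem_image_of_mem f (mem_univ _), h3 a b hb⟩)
  have := Set.ncard_le_ncard hs (finite_toSet _)
  rw [Set.ncard_image_of_injective _ h1, hreg, Set.ncard_coe_finset] at this
  omega

theorem core_of_hasF (hi : i ≠ 3) (hk : 1 ≤ k) {U : Finset V} (h : HasF i k G U) :
    ∃ T ⊆ U, T.Nonempty ∧ ∀ t ∈ T, k ≤ (nb G T t).card + 1 := by
  rw [hasF_iff] at h
  obtain ⟨W, hW, H, f, hH, h1, h2, h3⟩ := h
  have := Fintype.ofFinite W
  rcases hH with ⟨-, ⟨a0⟩, d, hd, hreg⟩ | ⟨-, h4⟩ | h4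
  · exact ⟨univ.image f, fun x hx => by
      obtain ⟨a, -, rfl⟩ := mem_image.1 hx
      exact h2 a, ⟨f a0, mem_image_of_mem f (mem_univ _)⟩, reg_core h1 h3 hd hreg⟩
  · by_contra hcon
    push Not at hcon
    obtain ⟨c, c1, c2⟩ := core_color hcon U subset_rfl
    exact (not_chr_iff hk).2 ⟨SimpleGraph.Coloring.mk
      (fun a => (⟨c (f a), by have := c1 _ (h2 a); omega⟩ : Fin (k - 1)))
      fun {a b} hab e => c2 _ (h2 a) _ (h2 b) (h3 a b hab) (congrArg Fin.val e)⟩ h4
  · exact absurd h4.1 hi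

theorem hasF_of_lt [Fintype V] {D : Finset V} (h : D.card < iota i k G) :
    HasF i k G (rem G univ D) := by
  rw [coe_rem_univ]
  by_contra hh
  exact absurd (iota_le hh) (by omega)

theorem le_iota [Fintype V] (hk : 1 ≤ k) {m : ℕ}
    (h : ∀ D : Finset V, D.card < m → HasF i k G (rem G univ D)) : m ≤ iota i k G := by
  obtain ⟨D, h1, h2⟩ := exists_iota (G := G) (i := i) hk
  by_contra hh
  exact h2 (coe_rem_univ (G := G) D ▸ h D (by omega))

theorem clq_set [Fintype V] {A : Set V} {x : V} (hA : A.ncard = k + 1) (hx : x ∈ A)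
    (h : G.IsClique (A \ {x})) : ∃ K, Clq G k K ∧ ∀ t, t ∈ K ↔ t ≠ x ∧ t ∈ A := by
  refine ⟨A.toFinset.erase x, ⟨?_, fun a ha b hb n => h ?_ ?_ n⟩, by simp⟩
  · rw [card_erase_of_mem (Set.mem_toFinset.2 hx), ← Set.ncard_eq_toFinset_card', hA]; rfl
  · simpa [and_comm] using ha
  · simpa [and_comm] using hb

theorem two_main [Fintype V] (hi : i = 1 ∨ i = 2) (hk : 5 ≤ k) (hc : Conn G univ)
    (hn : Fintype.card V = 2 * (k + 1)) : iota i k G = 2 ↔ IsMatchedPair k G := by
  constructor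
  · intro he
    obtain ⟨D, B, h, hcov, hD⟩ := exists_blocks (G := G) (k := k) (by omega) hc (by omega)
      fun E hE => by
        have := iota_le_free (i := i) (by omega) hE
        have := Nat.mul_le_mul_left (k + 1) (show 2 ≤ E.card by omega)
        omega
    obtain ⟨a, b, n, rfl⟩ := card_eq_two.1
      (Nat.eq_of_mul_eq_mul_left (show 0 < k + 1 by omega) (show (k + 1) * D.card = (k + 1) * 2 by omega))
    have ha := h.bk a (by simp)
    have hb := h.bk b (by simp)
    have P : P2 G k (B a) (B b) := by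
      refine ⟨hk, h.disj a (by simp) b (by simp) n, fun z => by simpa using hcov z, ha.card, hb.card,
        fun v => ?_⟩
      obtain ⟨T, h1, h2, h3⟩ := core_of_hasF (i := i) (k := k) (by omega) (by omega)
        (hasF_of_lt (G := G) (D := {v}) (by simp [he]))
      exact ⟨T, h2, fun t ht => (mem_rem1.1 (h1 ht)).2, h3⟩
    obtain ⟨A, C, P, h1, h2⟩ := P.matched ha hb
    have e : (A : Set V)ᶜ = C := by
      ext z
      exact ⟨fun hz => (P.cov z).resolve_left hz, fun hz => disjoint_right.1 P.disj hz⟩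
    have mc : ∀ p, p ∉ (A : Set V) → p ∈ C := fun p hp => (P.cov p).resolve_left hp
    refine ⟨A, by rw [Set.ncard_coe_finset, P.cA], by rw [e, Set.ncard_coe_finset, P.cB],
      fun x hx p hp a => ⟨?_, ?_, fun p' hp' => (h1 x hx p (mc p hp) a).2 p' (mc p' hp'),
        fun x' hx' a' => (h2 p (mc p hp) x hx a.symm).2 x' hx' a'.symm⟩⟩
    · rw [← coe_erase]
      exact (clq_iff.1 (h2 p (mc p hp) x hx a.symm).1).1
    · rw [e, ← coe_erase]
      exact (clq_iff.1 (h1 x hx p (mc p hp) a).1).1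
  · rintro ⟨A, cA, cB, h⟩
    have hi3 : i = 1 ∨ i = 2 ∨ i = 3 := by omega
    obtain ⟨x0, hx0⟩ : A.Nonempty := Set.nonempty_of_ncard_ne_zero (by omega)
    obtain ⟨p0, hp0⟩ : Aᶜ.Nonempty := Set.nonempty_of_ncard_ne_zero (by omega)
    obtain ⟨x, hx, p, -, hp, a⟩ := hc.exists_edge (subset_univ A.toFinset)
      ⟨x0, Set.mem_toFinset.2 hx0⟩ (mem_univ p0) (fun e => hp0 (Set.mem_toFinset.1 e))
    rw [Set.mem_toFinset] at hx hp
    obtain ⟨KA, qA, mA⟩ := clq_set cA hx (h x hx p hp a).1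
    obtain ⟨KB, qB, mB⟩ := clq_set cB hp (h x hx p hp a).2.1
    refine le_antisymm ?_ (le_iota (by omega) fun D hD => ?_)
    · obtain ⟨c, hc⟩ := (qA.sp (by omega)).1
      obtain ⟨d, hd⟩ := (qB.sp (by omega)).1
      refine le_trans (iota_le_free (D := {c, d}) (by omega) (free_small (lt_of_le_of_lt
        (card_le_card (t := {x, p}) fun z hz => ?_) ?_))) card_le_two
      · rw [mem_rem2] at hz
        by_contra hh
        simp only [mem_insert, mem_singleton, not_or] at hh
        by_cases hzA : z ∈ A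
        · exact hz.2.1.2 (qA.2 c hc z ((mA z).2 ⟨hh.1, hzA⟩) hz.2.1.1.symm)
        · exact hz.2.2.2 (qB.2 d hd z ((mB z).2 ⟨hh.2, hzA⟩) hz.2.2.1.symm)
      · have := card_le_two (a := x) (b := p)
        omega
    · have : Nonempty V := ⟨x⟩
      obtain ⟨z, hz⟩ := card_le_one_iff_subset_singleton.1 (show D.card ≤ 1 by omega)
      suffices ∃ K, Clq G k K ∧ K ⊆ rem G univ {z} by
        obtain ⟨K, h1, h2⟩ := this
        exact hasF_mono (h1.hasF hi3 (by omega)) (coe_subset.2 (h2.trans (rem_mono subset_rfl hz)))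
      by_cases hzA : z ∈ A
      · by_cases e : ∃ r ∉ A, G.Adj z r
        · obtain ⟨r, hr, a'⟩ := e
          obtain ⟨K, q, m⟩ := clq_set cB hr (h z hzA r hr a').2.1
          refine ⟨K, q, fun t ht => ?_⟩
          rw [m] at ht
          exact mem_rem1.2 ⟨mem_univ _, fun e => ht.2 (e ▸ hzA),
            fun e => ht.1 ((h z hzA r hr a').2.2.1 t ht.2 e)⟩
        · refine ⟨_, qB, fun t ht => ?_⟩
          rw [mB] at ht
          exact mem_rem1.2 ⟨mem_univ _, fun e => ht.2 (e ▸ hzA), fun e' => e ⟨t, ht.2, e'⟩⟩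
      · by_cases e : ∃ r ∈ A, G.Adj r z
        · obtain ⟨r, hr, a'⟩ := e
          obtain ⟨K, q, m⟩ := clq_set cA hr (h r hr z hzA a').1
          refine ⟨K, q, fun t ht => ?_⟩
          rw [m] at ht
          exact mem_rem1.2 ⟨mem_univ _, fun e => hzA (e ▸ ht.2),
            fun e => ht.1 ((h r hr z hzA a').2.2.2 t ht.2 e.symm)⟩
        · refine ⟨_, qA, fun t ht => ?_⟩
          rw [mA] at ht
          exact mem_rem1.2 ⟨mem_univ _, fun e => hzA (e ▸ ht.2), fun e' => e ⟨t, ht.2, e'.symm⟩⟩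

theorem cock_of_deg [Fintype V] (hn : Fintype.card V = k + 1)
    (h : ∀ x, (nb G univ x).card + 1 = k) : HasCocktail G := by
  have : ∀ x, ∃ y, rem G univ {x} = {y} := fun x => card_eq_one.1 (by
    have := rem_card (G := G) (mem_univ x)
    have := h x
    rw [card_univ] at *
    omega)
  choose σ hσ using this
  have key : ∀ x y, y = σ x ↔ y ≠ x ∧ ¬ G.Adj x y := fun x y => by
    rw [← mem_singleton, ← hσ, mem_rem1]; simp
  refine ⟨σ, fun x => ?_, fun x y n e => by_contra fun a => e ((key x y).2 ⟨n.symm, a⟩)⟩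
  have := (key x _).1 rfl
  exact ⟨this.1, ((key (σ x) x).2 ⟨this.1.symm, fun a => this.2 a.symm⟩).symm⟩

theorem cock_map {W : Type*} {H : SimpleGraph W} (e : W ≃ V)
    (h3 : ∀ a b, H.Adj a b → G.Adj (e a) (e b)) (h : HasCocktail H) : HasCocktail G := by
  obtain ⟨σ, h1, h2⟩ := h
  refine ⟨fun x => e (σ (e.symm x)), fun x => ⟨fun hh => (h1 (e.symm x)).1
    (e.eq_symm_apply.2 hh), by simp [(h1 _).2]⟩, fun x y n hy => ?_⟩
  have := h3 _ _ (h2 (e.symm x) (e.symm y) (fun hh => n (e.symm.injective hh))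
    fun hh => hy (e.symm_apply_eq.1 hh))
  simpa using this

theorem HasCocktail.hasF [Fintype V] (hi : i = 1 ∨ i = 3) (hn : Fintype.card V = k + 1)
    (h : HasCocktail G) : HasF i k G Set.univ := by
  obtain ⟨σ, h1, h2⟩ := h
  have e : Fin (k + 1) ≃ V := (Fintype.equivFinOfCardEq hn).symm
  let H : SimpleGraph (Fin (k + 1)) := ⟨fun a b => a ≠ b ∧ e b ≠ σ (e a),
    ⟨fun a b hab => ⟨hab.1.symm, fun hh => hab.2 (by rw [hh, (h1 _).2])⟩⟩, ⟨fun a hh => hh.1 rfl⟩⟩
  have hreg : IsReg k H := by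
    refine ⟨⟨0⟩, k - 1, le_rfl, fun v => ?_⟩
    have : H.neighborSet v = ((univ.erase v).erase (e.symm (σ (e v))) : Finset (Fin (k + 1))) := by
      ext w
      simp only [SimpleGraph.mem_neighborSet, H, coe_erase, coe_univ, Set.mem_sdiff, Set.mem_univ,
        Set.mem_singleton_iff, true_and, Equiv.eq_symm_apply, ne_eq, eq_comm (a := v)]
    rw [this, Set.ncard_coe_finset, card_erase_of_mem (mem_erase.2 ⟨fun hh => (h1 (e v)).1
      (e.symm_apply_eq.1 hh), mem_univ _⟩),
      card_erase_of_mem (mem_univ v), card_univ, Fintype.card_fin]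
    rfl
  refine hasF_iff.2 ⟨_, inferInstance, H, e, ?_, e.injective, fun _ => trivial,
    fun a b hab => h2 _ _ (fun hh => hab.1 (e.injective hh)) hab.2⟩
  exact hi.elim (fun hh => Or.inl ⟨hh, hreg⟩) fun hh => Or.inr (Or.inr ⟨hh, Or.inr (Or.inl hreg)⟩)

theorem star_hasF [Fintype V] (hn : Fintype.card V = k + 1) {c : V}
    (h : ∀ x, x ≠ c → G.Adj c x) : HasF 3 k G Set.univ := by
  have e : Fin k ≃ (univ.erase c : Finset V) := (Finset.equivFinOfCardEq (by
    rw [card_erase_of_mem (mem_univ c), card_univ, hn]; rfl)).symm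
  have hne : ∀ j, (e j : V) ≠ c := fun j => (mem_erase.1 (e j).2).1
  refine hasF_iff.2 ⟨Fin 1 ⊕ Fin k, inferInstance, completeBipartiteGraph (Fin 1) (Fin k),
    Sum.elim (fun _ => c) fun j => (e j : V), Or.inr (Or.inr ⟨rfl, Or.inl ⟨.refl⟩⟩), ?_,
    fun _ => trivial, ?_⟩
  · rintro (a | a) (b | b) hab
    exacts [by rw [Subsingleton.elim a b], absurd hab.symm (hne b), absurd hab (hne a),
      by rw [e.injective (Subtype.val_injective hab)]]
  · rintro (a | a) (b | b) hab
    exacts [by simp at hab, h _ (hne b), (h _ (hne a)).symm, by simp at hab]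

theorem one_cases [Fintype V] (hk : 1 ≤ k) (hn : Fintype.card V = k + 1)
    (h : HasF i k G (univ : Finset V)) (hq : ∀ K, ¬ Clq G k K) :
    (i ≠ 2 ∧ HasCocktail G) ∨ (i = 3 ∧ ∃ c, ∀ x, x ≠ c → G.Adj c x) := by
  have ce : ∀ y : V, (univ.erase y).card = k := fun y => by
    rw [card_erase_of_mem (mem_univ y), card_univ, hn]; rfl
  by_cases h3 : i = 3
  · rcases small_cases (G := G) (k := k) (Y := univ) (by rw [card_univ, hn])
      (fun hf => hf.not_hasF hk h) with ⟨c, hc⟩ | ⟨K, hK, -⟩ | hd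
    exacts [Or.inr ⟨h3, c, fun x n => (hc.dom x (mem_univ x)).resolve_left n⟩, absurd hK (hq K),
      Or.inl ⟨by omega, cock_of_deg hn fun x => hd.2 x (mem_univ x)⟩]
  obtain ⟨T, -, hne, hT⟩ := core_of_hasF h3 hk h
  have hTu : T = univ := eq_univ_of_card _ (by
    have := card_le_univ T
    by_contra hh
    exact hq T (clq_of_core hne hT (by omega)))
  subst hTu
  rw [hasF_iff] at h
  obtain ⟨W, hW, H, f, hH, h1, -, h4⟩ := h
  have := Fintype.ofFinite W
  rcases hH with ⟨e1, ⟨a0⟩, d, hd, hreg⟩ | ⟨-, h5⟩ | h5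
  · have hc : Fintype.card W = k + 1 := by
      have h6 := Fintype.card_le_of_injective f h1
      by_contra hh
      refine hq _ (clq_of_core ⟨f a0, mem_image_of_mem f (mem_univ _)⟩ (reg_core h1 h4 hd hreg) ?_)
      rw [card_image_of_injective _ h1, card_univ]
      omega
    have hb : Function.Bijective f := (Fintype.bijective_iff_injective_and_card f).2
      ⟨h1, hc.trans hn.symm⟩
    have hdeg : ∀ a, (nb H univ a).card = d := fun a => by
      rw [← hreg a, ← Set.ncard_coe_finset]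
      congr 1
      ext b
      simp
    refine Or.inl ⟨by omega, cock_map (Equiv.ofBijective f hb) h4 (cock_of_deg hc fun a => ?_)⟩
    rw [hdeg]
    by_contra hh
    refine hq (univ.erase (f a0)) ⟨ce _, fun x _ y _ n => ?_⟩
    obtain ⟨x, rfl⟩ := hb.2 x
    obtain ⟨y, rfl⟩ := hb.2 y
    exact h4 _ _ ((dom_of_card (G := H) (mem_univ x) (by rw [hdeg, card_univ]; omega) y
      (mem_univ y)).resolve_left fun e => n (e ▸ rfl))
  · exfalso
    have pair : ∀ y : V, ∃ w w', w ≠ y ∧ w' ≠ y ∧ w ≠ w' ∧ ¬ G.Adj w w' := fun y => by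
      by_contra hh
      push Not at hh
      exact hq (univ.erase y) ⟨ce y, fun a ha b hb => hh a b (mem_erase.1 ha).1 (mem_erase.1 hb).1⟩
    have uniq : ∀ x y z, y ≠ x → z ≠ x → ¬ G.Adj x y → ¬ G.Adj x z → y = z :=
      fun x y z n1 n2 a1 a2 => by
        have := rem_card (G := G) (mem_univ x)
        have := hT x (mem_univ x)
        rw [card_univ] at *
        exact card_le_one.1 (show (rem G univ {x}).card ≤ 1 by omega) y
          (mem_rem1.2 ⟨mem_univ _, n1, a1⟩) z (mem_rem1.2 ⟨mem_univ _, n2, a2⟩)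
    obtain ⟨y⟩ : Nonempty V := Fintype.card_pos_iff.1 (by omega)
    obtain ⟨u, u', -, -, nu, au⟩ := pair y
    obtain ⟨w, w', n1, n2, nw, aw⟩ := pair u
    have n3 : w ≠ u' := fun e => n2 (uniq w w' u nw.symm n1.symm aw fun a => au (e ▸ a.symm))
    have n4 : w' ≠ u' := fun e => n1 (uniq w' w u nw n2.symm (fun a => aw a.symm)
      fun a => au (e ▸ a.symm))
    let c : V → V := fun x => if x = u' then u else if x = w' then w else x
    have hc : ∀ x, c x ∈ (univ.erase u').erase w' := fun x => by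
      simp only [c, mem_erase, mem_univ, and_true]
      split_ifs with e1 e2
      exacts [⟨n2.symm, nu⟩, ⟨nw, n3⟩, ⟨e2, e1⟩]
    have hv : ∀ x y, G.Adj x y → c x ≠ c y := fun x y a => by
      have := a.ne
      simp only [c]
      split_ifs with e1 e2 e3 e4 e5 e6 e7 e8 <;> intro e
      exacts [this (e1.trans e2.symm), n1 e.symm, au (e ▸ e1 ▸ a.symm), n1 e,
        this (e4.trans e6.symm), aw (e ▸ e4 ▸ a.symm), au (e ▸ e7 ▸ a), aw (e ▸ e8 ▸ a), this e]
    refine (not_chr_iff hk).2 ?_ h5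
    have := (SimpleGraph.Coloring.mk (G := H)
      (fun a => (⟨c (f a), hc _⟩ : ((univ.erase u').erase w' : Finset V)))
      fun {a b} hab e => hv _ _ (h4 a b hab) (congrArg Subtype.val e)).colorable
    rwa [Fintype.card_coe, card_erase_of_mem (mem_erase.2 ⟨n4, mem_univ _⟩), ce] at this
  · exact absurd h5.1 h3

theorem exact_main [Fintype V] (hi : i = 1 ∨ i = 2 ∨ i = 3) (hk : 3 ≤ k) (hG : G.Connected)
    {q : ℕ} (h2 : q = 2 → i ≠ 3 ∧ 5 ≤ k) (hn : Fintype.card V = q * (k + 1)) :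
    iota i k G = q ↔
      (∃ (S : Finset V) (Q : V → Finset V), IsUnitFamily k G S Q ∧ kernelSet S Q = ∅) ∨
        (q = 2 ∧ IsMatchedPair k G) ∨
        (q = 1 ∧ ((i ≠ 2 ∧ HasCocktail G) ∨ (i = 3 ∧ ∃ c, ∀ x, x ≠ c → G.Adj c x))) := by
  have hc := conn_of_connected hG
  obtain ⟨v⟩ := hG.nonempty
  have hq : q = 1 ∨ q = 2 ∨ 3 ≤ q := by
    have : 0 < Fintype.card V := Fintype.card_pos_iff.2 ⟨v⟩
    have : q ≠ 0 := fun e => by simp [e] at hn; omega
    omega
  have pure : (∃ (S : Finset V) (Q : V → Finset V), IsUnitFamily k G S Q ∧ kernelSet S Q = ∅) →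
      iota i k G = q := by
    rintro ⟨S, Q, h, e⟩
    have := pure_iota hi (by omega) hc (fam_iff.2 h) (by
      rw [← coe_rest] at e
      exact coe_eq_empty.1 e)
    rw [hn, mul_comm q] at this
    exact Nat.eq_of_mul_eq_mul_left (by omega) this
  rcases hq with rfl | rfl | hq
  · rw [one_mul] at hn
    constructor
    · intro he
      by_cases hK : ∃ K, Clq G k K
      · obtain ⟨K, hK⟩ := hK
        obtain ⟨y, -, hy⟩ := exists_mem_notMem_of_card_lt_card (s := K) (t := univ)
          (by rw [card_univ, hK.1]; omega)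
        have hu : insert y K = univ := eq_univ_of_card _ (by
          rw [card_insert_of_notMem hy, hK.1, hn])
        have hz : ∀ z, z = y ∨ z ∈ K := fun z => mem_insert.1 (hu ▸ mem_univ z)
        refine Or.inl ⟨{y}, fun _ => K, ⟨fun y' hy' => ?_, fun a ha b hb n => ?_⟩, ?_⟩
        · rw [mem_singleton.1 hy']
          exact ⟨Or.inl (clq_iff.1 hK), hy, fun _ _ z _ => (hz z).symm⟩
        · exact absurd ((mem_singleton.1 ha).trans (mem_singleton.1 hb).symm) n
        · refine Set.eq_empty_of_forall_notMem fun z hh => ?_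
          exact (hz z).elim (fun e => hh.1 (mem_singleton.2 e)) (hh.2 y (mem_singleton_self y))
      · push Not at hK
        refine Or.inr (Or.inr ⟨rfl, one_cases (by omega) hn ?_ hK⟩)
        exact hasF_mono (hasF_of_lt (D := ∅) (by simp [he])) (coe_subset.2 (subset_univ _))
    · have fin : HasF i k G Set.univ → iota i k G = 1 := fun h => by
        refine le_antisymm ?_ (le_iota (by omega) fun D hD => hasF_mono h fun x _ => ?_)
        · obtain ⟨w, -, hw⟩ := exists_mem_notMem_of_card_lt_card (s := {v}) (t := univ)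
            (by rw [card_univ, card_singleton]; omega)
          obtain ⟨x, -, z, -, -, a⟩ := hc.exists_edge (subset_univ {v}) (singleton_nonempty v)
            (mem_univ w) hw
          refine iota_le_free (D := {x}) (by omega) (free_small ?_)
          have := rem_card (G := G) (mem_univ x)
          have : 0 < (nb G univ x).card := card_pos.2 ⟨z, mem_nb.2 ⟨mem_univ _, a⟩⟩
          rw [card_univ] at *
          omega
        · rw [card_eq_zero.1 (show D.card = 0 by omega)]
          simp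
      rintro (h | h | ⟨-, h | ⟨rfl, c, h⟩⟩)
      exacts [pure h, absurd h.1 (by omega), fin (HasCocktail.hasF (by omega) hn h.2),
        fin (star_hasF hn h)]
  · have := two_main (G := G) (i := i) (by have := (h2 rfl).1; omega) (h2 rfl).2 hc hn
    refine ⟨fun he => Or.inr (Or.inl ⟨rfl, this.1 he⟩), ?_⟩
    rintro (h | h | h)
    exacts [pure h, this.2 h.2, absurd h.1 (by omega)]
  · refine ⟨fun he => Or.inl ((zero_main hi hk hG hq hn).1 he), ?_⟩
    rintro (h | h | h)
    exacts [pure h, absurd h.1 (by omega), absurd h.1 (by omega)]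

end Pool.Agent.IsoKer
end
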