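import Pool.Agent.Work.MP_1346a1_co.OneMain
import Pool.Agent.Work.MP_1346a1_co.PairMain

/-! Cores, pendant cliques and critical components: basic facts. -/

namespace Pool.Agent.IsoSharp

open Finset Pool.Agent.IsoKer
open scoped Classical

variable {V : Type*} (G : SimpleGraph V) (k : ℕ)

/-- A nonempty set of minimum inner degree at least `k - 1`. -/
def Core (T : Finset V) : Prop := T.Nonempty ∧ ∀ t ∈ T, k ≤ (nb G T t).card + 1

/-- No core inside `U`. -/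
def CF (U : Finset V) : Prop := ∀ T ⊆ U, ¬ Core G k T

/-- A `k`-clique of `R` hanging on the vertex `y` of `R`. -/
structure Pd (R : Finset V) (y : V) (Q : Finset V) : Prop where
  clq : Clq G k Q
  sub : Q ⊆ R
  mem : y ∈ R
  out : y ∉ Q
  cl : ∀ q ∈ Q, ∀ z ∈ R, G.Adj q z → z ∈ Q ∨ z = y
  adj : ∃ q ∈ Q, G.Adj y q

/-- No pendant clique. -/
def UF (R : Finset V) : Prop := ∀ y Q, ¬ Pd G k R y Q

/-- A connected set without pendant clique that needs many isolating vertices. -/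
structure Ob (O : Finset V) : Prop where
  ne : O.Nonempty
  conn : Conn G O
  uf : UF G k O
  crit : ∀ D : Finset V, CF G k (rem G O D) → 2 * O.card < (2 * k + 3) * D.card

/-- The bound for `Z`. -/
def BB (Z : Finset V) : Prop := Conn G Z → UF G k Z → ¬ Clq G k Z →
  ∃ D : Finset V, CF G k (rem G Z D) ∧ (2 * k + 3) * D.card ≤ 2 * Z.card + 2

variable {G k}

theorem CF.mono {A B : Finset V} (h : CF G k B) (hAB : A ⊆ B) : CF G k A :=
  fun T hT => h T (hT.trans hAB)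

theorem Core.card_ge {T : Finset V} (h : Core G k T) : k ≤ T.card := by
  obtain ⟨t, ht⟩ := h.1
  have := h.2 t ht
  have := nb_card_lt (G := G) ht
  omega

theorem cf_small {X : Finset V} (h : X.card < k) : CF G k X := fun T hT hc => by
  have := hc.card_ge
  have := card_le_card hT
  omega

theorem cf_of_free {X : Finset V} (h : Free G k X) : CF G k X := fun T hT hc => by
  obtain ⟨t, ht, h1⟩ := h.2 T hT hc.1
  have := hc.2 t ht
  omega

theorem Core.clq {T : Finset V} (h : Core G k T) (hc : T.card ≤ k) : Clq G k T :=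
  clq_of_core h.1 h.2 hc

theorem clq_ne (hk : 1 ≤ k) {Q : Finset V} (h : Clq G k Q) : Q.Nonempty :=
  card_pos.1 (by rw [h.1]; omega)

theorem clq_core (hk : 1 ≤ k) {Q : Finset V} (h : Clq G k Q) : Core G k Q :=
  ⟨clq_ne hk h, fun t ht => by rw [h.nb_eq ht, card_erase_of_mem ht, h.1]; omega⟩

/-- The part of a core that has no neighbours in the rest of the core is a core. -/
theorem Core.inter {T A : Finset V} (h : Core G k T) {x : V} (hx : x ∈ T) (hxA : x ∈ A)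
    (hcl : ∀ a ∈ T, a ∈ A → ∀ z ∈ T, G.Adj a z → z ∈ A) : Core G k (T ∩ A) := by
  refine ⟨⟨x, mem_inter.2 ⟨hx, hxA⟩⟩, fun t ht => ?_⟩
  rw [mem_inter] at ht
  refine (h.2 t ht.1).trans (Nat.succ_le_succ (card_le_card fun z hz => ?_))
  rw [mem_nb] at hz ⊢
  exact ⟨mem_inter.2 ⟨hz.1, hcl t ht.1 ht.2 z hz.1 hz.2⟩, hz.2⟩

/-- A vertex whose neighbours in the core lie in a small set is impossible. -/
theorem Core.not_small {T A : Finset V} (h : Core G k T) {x : V} (hx : x ∈ T)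
    (hA : ∀ z ∈ T, G.Adj x z → z ∈ A) (hc : A.card + 2 ≤ k) : False := by
  have h1 := h.2 x hx
  have : nb G T x ⊆ A := fun z hz => hA z (mem_nb.1 hz).1 (mem_nb.1 hz).2
  have := card_le_card this
  omega

/-- Cores of `X` avoid `Y`. -/
def Av (G : SimpleGraph V) (k : ℕ) (X Y : Finset V) : Prop :=
  ∀ T ⊆ X, Core G k T → ∀ x ∈ T, x ∉ Y

theorem Av.mono {X X' Y Y' : Finset V} (h : Av G k X Y) (hX : X' ⊆ X) (hY : Y' ⊆ Y) :
    Av G k X' Y' := fun T hT hc x hx hy => h T (hT.trans hX) hc x hx (hY hy)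

theorem Av.union {X Y Y' : Finset V} (h : Av G k X Y) (h' : Av G k X Y') :
    Av G k X (Y ∪ Y') := fun T hT hc x hx hy =>
  (mem_union.1 hy).elim (h T hT hc x hx) (h' T hT hc x hx)

theorem Av.insert {X Y : Finset V} {a : V} (h : Av G k X Y) (ha : a ∉ X) :
    Av G k X (insert a Y) := fun T hT hc x hx hy =>
  (mem_insert.1 hy).elim (fun e => ha (e ▸ hT hx)) (h T hT hc x hx)

theorem av_of_disj {X Y : Finset V} (h : ∀ y ∈ Y, y ∉ X) : Av G k X Y :=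
  fun _ hT _ x hx hy => h x hy (hT hx)

/-- A part `A` closed inside `X` whose trace on `X` is core-free is avoided. -/
theorem av_of_cl {X A B : Finset V} (hcl : ∀ a ∈ X, a ∈ A → ∀ z ∈ X, G.Adj a z → z ∈ A)
    (hB : CF G k B) (hs : ∀ a ∈ X, a ∈ A → a ∈ B) : Av G k X A := by
  intro T hT hc x hx hxA
  exact hB (T ∩ A) (fun a ha => hs a (hT (mem_inter.1 ha).1) (mem_inter.1 ha).2)
    (hc.inter hx hxA fun a ha haA z hz => hcl a (hT ha) haA z (hT hz))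

theorem Av.cf {X Y B : Finset V} (h : Av G k X Y) (hB : CF G k B)
    (hs : ∀ a ∈ X, a ∉ Y → a ∈ B) : CF G k X :=
  fun T hT hc => hB T (fun a ha => hs a (hT ha) (h T hT hc a ha)) hc

theorem cf_join {U Y D1 D' : Finset V} (hav : Av G k (rem G U D1) Y)
    (h : CF G k (rem G (rem G (U \ Y) D1) D')) : CF G k (rem G U (D1 ∪ D')) := by
  refine (hav.mono (rem_mono subset_rfl subset_union_left) subset_rfl).cf h fun a ha haY => ?_
  rw [mem_rem] at ha
  exact mem_rem.2 ⟨mem_rem.2 ⟨mem_sdiff.2 ⟨ha.1, haY⟩, fun d hd => ha.2 d (mem_union_left _ hd)⟩,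
    fun d hd => ha.2 d (mem_union_right _ hd)⟩

theorem Pd.up {R Y Q : Finset V} {y : V} (h : Pd G k (R \ Y) y Q)
    (hn : ∀ q ∈ Q, ∀ a ∈ Y, ¬ G.Adj q a) : Pd G k R y Q :=
  ⟨h.clq, h.sub.trans sdiff_subset, (mem_sdiff.1 h.mem).1, h.out, fun q hq z hz a =>
    h.cl q hq z (mem_sdiff.2 ⟨hz, fun hh => hn q hq z hh a⟩) a, h.adj⟩

theorem cl_up {R Y O : Finset V} (h : Cl G O (R \ Y))
    (hn : ∀ q ∈ O, ∀ a ∈ Y, ¬ G.Adj q a) : Cl G O R :=
  ⟨h.1.trans sdiff_subset, fun q hq z hz a =>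
    h.2 q hq z (mem_sdiff.2 ⟨hz, fun hh => hn q hq z hh a⟩) a⟩

theorem Pd.of_cl {R C Q : Finset V} {y : V} (h : Pd G k C y Q) (hC : Cl G C R) : Pd G k R y Q :=
  ⟨h.clq, h.sub.trans hC.1, hC.1 h.mem, h.out, fun q hq z hz a =>
    h.cl q hq z (hC.2 q (h.sub hq) z hz a) a, h.adj⟩

theorem Pd.down {R R' Q : Finset V} {y : V} (h : Pd G k R y Q) (h1 : R' ⊆ R) (h2 : Q ⊆ R')
    (h3 : y ∈ R') : Pd G k R' y Q :=
  ⟨h.clq, h2, h3, h.out, fun q hq z hz a => h.cl q hq z (h1 hz) a, h.adj⟩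

theorem Pd.card {R Q : Finset V} {y : V} (h : Pd G k R y Q) : (insert y Q).card = k + 1 := by
  rw [card_insert_of_notMem h.out, h.clq.1]

theorem Pd.ins_sub {R Q : Finset V} {y : V} (h : Pd G k R y Q) : insert y Q ⊆ R :=
  insert_subset h.mem h.sub

/-- A clique through a vertex of a pendant clique lies in the unit. -/
theorem Pd.clq_sub {R Q K : Finset V} {y x : V} (h : Pd G k R y Q)
    (hK : ∀ a ∈ K, ∀ b ∈ K, a ≠ b → G.Adj a b) (hKR : K ⊆ R) (hx : x ∈ K) (hxQ : x ∈ Q) :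
    K ⊆ insert y Q := fun z hz => by
  by_cases e : x = z
  · exact mem_insert_of_mem (e ▸ hxQ)
  · exact mem_insert.2 (h.cl x hxQ z (hKR hz) (hK x hx z hz e)).symm

theorem conn_sub_cl {A C U : Finset V} (hA : Conn G A) (hAU : A ⊆ U) (hC : Cl G C U) {x : V}
    (hx : x ∈ A) (hxC : x ∈ C) : A ⊆ C := by
  have := hA _ (hC.inter hAU) ⟨x, mem_inter.2 ⟨hx, hxC⟩⟩
  exact this ▸ inter_subset_right

theorem conn_eq_cl {A C U : Finset V} (hA : Conn G A) (hC : Conn G C) (hAU : Cl G A U)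
    (hCU : Cl G C U) {x : V} (hx : x ∈ A) (hxC : x ∈ C) : A = C :=
  Subset.antisymm (conn_sub_cl hA hAU.1 hCU hx hxC) (conn_sub_cl hC hCU.1 hAU hxC hx)

theorem conn_single (x : V) : Conn G {x} := fun _ hT hne =>
  (subset_singleton_iff.1 hT.1).resolve_left hne.ne_empty

theorem clq_conn {Q : Finset V} (h : ∀ a ∈ Q, ∀ b ∈ Q, a ≠ b → G.Adj a b) : Conn G Q := by
  intro T hT ⟨t, ht⟩
  refine Subset.antisymm hT.1 fun z hz => ?_
  by_cases e : t = z
  exacts [e ▸ ht, hT.2 t ht z hz (h t (hT.1 ht) z hz e)]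

theorem conn_insert {A : Finset V} (hA : Conn G A) {y a : V} (ha : a ∈ A) (hy : G.Adj y a) :
    Conn G (insert y A) := by
  rw [insert_eq]
  exact (conn_single y).union hA fun hn => hn y (mem_singleton_self y) a ha hy

theorem Pd.conn {R Q : Finset V} {y : V} (h : Pd G k R y Q) : Conn G (insert y Q) := by
  obtain ⟨q, hq, a⟩ := h.adj
  exact conn_insert (clq_conn h.clq.2) hq a

/-- The component of a vertex. -/
theorem exists_comp {U : Finset V} {x : V} (hx : x ∈ U) : ∃ C, x ∈ C ∧ Cl G C U ∧ Conn G C := by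
  obtain ⟨Z, hZ, hmin⟩ := exists_min_image
    (U.powerset.filter fun Z => x ∈ Z ∧ Cl G Z U) Finset.card
    ⟨U, mem_filter.2 ⟨mem_powerset_self _, hx, subset_rfl, fun _ _ _ h _ => h⟩⟩
  rw [mem_filter, mem_powerset] at hZ
  refine ⟨Z, hZ.2.1, hZ.2.2, fun X hX ⟨t, ht⟩ => ?_⟩
  by_cases e : x ∈ X
  · exact eq_of_subset_of_card_le hX.1
      (hmin X (mem_filter.2 ⟨mem_powerset.2 (hX.1.trans hZ.1), e, hX.trans hZ.2.2⟩))
  · have := hmin (Z \ X) (mem_filter.2 ⟨mem_powerset.2 (sdiff_subset.trans hZ.1),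
      mem_sdiff.2 ⟨hZ.2.1, e⟩, hX.sdiff.trans hZ.2.2⟩)
    have h2 := card_sdiff_add_card_eq_card hX.1
    have := card_pos.2 ⟨t, ht⟩
    omega

theorem clq_ob (hk : 1 ≤ k) {Q : Finset V} (h : Clq G k Q) : Ob G k Q := by
  refine ⟨clq_ne hk h, clq_conn h.2, fun y P hP => ?_, fun D hD => ?_⟩
  · have := card_le_card hP.ins_sub
    rw [hP.card, h.1] at this
    omega
  · rcases D.eq_empty_or_nonempty with rfl | hne
    · exact absurd (clq_core hk h) (hD Q fun x hx => by simpa using hx)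
    · have := Nat.mul_le_mul_left (2 * k + 3) (card_pos.2 hne)
      rw [h.1]
      omega

theorem cf_clq_rem {Q : Finset V} (h : Clq G k Q) {q d : V} (hq : q ∈ Q) {D : Finset V}
    (hd : d ∈ D) (a : q = d ∨ G.Adj d q) : CF G k (rem G Q D) :=
  (cf_small (rem_small h.1.le hq a)).mono (rem_mono subset_rfl (singleton_subset_iff.2 hd))

/-- The weighted bound for a marked set: `U` is the unmarked part of `R`. -/
def St (G : SimpleGraph V) (k : ℕ) (R U : Finset V) (w : V → ℕ) : Prop :=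
  U ⊆ R → (∀ Z ⊆ U, BB G k Z) →
  (∀ y Q, Pd G k R y Q → Q ⊆ U → 1 ≤ ∑ x ∈ insert y Q, w x) →
  (∀ O, Cl G O R → Ob G k O → O ⊆ U →
    2 ≤ ∑ x ∈ O, w x ∧ (Clq G k O → 3 ≤ ∑ x ∈ O, w x)) →
  ∃ D : Finset V, CF G k (rem G U D) ∧
    (2 * k + 3) * D.card + ((R \ U) \ D).card ≤ 2 * R.card + ∑ x ∈ R, w x

/-- One step of the induction: remove a sealed part `Y`. -/
theorem step {R U Y : Finset V} (D1 : Finset V) {w : V → ℕ}
    (ih : ∀ R' U' w', R'.card < R.card → St G k R' U' w') (hU : U ⊆ R)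
    (hB : ∀ Z ⊆ U, BB G k Z)
    (h1 : ∀ y Q, Pd G k R y Q → Q ⊆ U → 1 ≤ ∑ x ∈ insert y Q, w x)
    (h2 : ∀ O, Cl G O R → Ob G k O → O ⊆ U →
      2 ≤ ∑ x ∈ O, w x ∧ (Clq G k O → 3 ≤ ∑ x ∈ O, w x))
    (hY : Y ⊆ R) (hne : Y.Nonempty)
    (hs : ∀ x ∈ rem G (U \ Y) D1, ∀ a ∈ Y, ¬ G.Adj x a) :
    ∃ D' : Finset V, CF G k (rem G (rem G (U \ Y) D1) D') ∧
      (2 * k + 3) * D'.card + (((R \ Y) \ rem G (U \ Y) D1) \ D').card + 2 * Y.card +
        ∑ x ∈ Y, w x ≤ 2 * R.card + ∑ x ∈ R, w x := by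
  have hc := card_sdiff_add_card_eq_card hY
  have := card_pos.2 hne
  have hsub : rem G (U \ Y) D1 ⊆ U := (rem_sub _ _).trans sdiff_subset
  obtain ⟨D', e1, e2⟩ := ih (R \ Y) (rem G (U \ Y) D1) w (by omega)
    ((rem_sub _ _).trans (sdiff_subset_sdiff hU subset_rfl)) (fun Z hZ => hB Z (hZ.trans hsub))
    (fun y Q hP hQ => h1 y Q (hP.up fun q hq => hs q (hQ hq)) (hQ.trans hsub))
    (fun O hO ho hQ => h2 O (cl_up hO fun q hq => hs q (hQ hq)) ho (hQ.trans hsub))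
  refine ⟨D', e1, ?_⟩
  have := sum_sdiff (f := w) hY
  omega

theorem marks_sub {R U Y D1 D' D : Finset V} (hD : D' ⊆ D) (hY : ∀ y ∈ Y, y ∈ U ∨ y ∈ D) :
    (R \ U) \ D ⊆ ((R \ Y) \ rem G (U \ Y) D1) \ D' := fun x hx => by
  simp only [mem_sdiff] at hx ⊢
  exact ⟨⟨⟨hx.1.1, fun hy => (hY x hy).elim hx.1.2 hx.2⟩,
    fun hh => hx.1.2 (mem_sdiff.1 (rem_sub _ _ hh)).1⟩, fun hh => hx.2 (hD hh)⟩

theorem mul_union (c : ℕ) (A B : Finset V) : c * (A ∪ B).card ≤ c * A.card + c * B.card := by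
  rw [← mul_add]
  exact Nat.mul_le_mul_left c (card_union_le A B)

theorem mul_insert (c : ℕ) (a : V) (B : Finset V) : c * (insert a B).card ≤ c + c * B.card := by
  have := Nat.mul_le_mul_left c (card_insert_le a B)
  rw [mul_add] at this
  omega

/-- The step together with the isolating set. -/
theorem step2 {R U Y : Finset V} (D1 : Finset V) {w : V → ℕ}
    (ih : ∀ R' U' w', R'.card < R.card → St G k R' U' w') (hU : U ⊆ R)
    (hB : ∀ Z ⊆ U, BB G k Z)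
    (h1 : ∀ y Q, Pd G k R y Q → Q ⊆ U → 1 ≤ ∑ x ∈ insert y Q, w x)
    (h2 : ∀ O, Cl G O R → Ob G k O → O ⊆ U →
      2 ≤ ∑ x ∈ O, w x ∧ (Clq G k O → 3 ≤ ∑ x ∈ O, w x))
    (hY : Y ⊆ R) (hne : Y.Nonempty)
    (hs : ∀ x ∈ rem G (U \ Y) D1, ∀ a ∈ Y, ¬ G.Adj x a) (hav : Av G k (rem G U D1) Y)
    (hm : ∀ y ∈ Y, y ∈ U ∨ y ∈ D1)
    (hc : (2 * k + 3) * D1.card ≤ 2 * Y.card + ∑ x ∈ Y, w x) :
    ∃ D : Finset V, CF G k (rem G U D) ∧
      (2 * k + 3) * D.card + ((R \ U) \ D).card ≤ 2 * R.card + ∑ x ∈ R, w x := by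
  obtain ⟨D', e1, e2⟩ := step D1 ih hU hB h1 h2 hY hne hs
  refine ⟨D1 ∪ D', cf_join hav e1, ?_⟩
  have := card_le_card (marks_sub (G := G) (R := R) (D1 := D1) (subset_union_right (s₁ := D1) (s₂ := D'))
    fun y hy => (hm y hy).imp_right (mem_union_left _))
  have := mul_union (2 * k + 3) D1 D'
  omega

/-- The hit property of a critical component. -/
theorem hit_of {O : Finset V} (h : Ob G k O) (hq : ¬ Clq G k O) (hB : ∀ Z ⊆ O, BB G k Z) {p : V}
    (hp : p ∈ O) (hs : St G k O (O.erase p) fun _ => 0) :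
    ∃ D : Finset V, CF G k (rem G (O.erase p) D) ∧
      (2 * k + 3) * (D.card + 1) ≤ 2 * O.card + 2 := by
  obtain ⟨D, e1, e2⟩ := hs (erase_subset _ _) (fun Z hZ => hB Z (hZ.trans (erase_subset _ _)))
    (fun y Q hP => absurd hP (h.uf y Q))
    (fun C hC hc hs => absurd (hs (h.conn C hC hc.ne ▸ hp)) (notMem_erase _ _))
  obtain ⟨E, f1, f2⟩ := hB O subset_rfl h.conn h.uf hq
  have f3 := h.crit E f1
  simp only [sum_const_zero, add_zero] at e2
  have : D.card < E.card := Nat.lt_of_mul_lt_mul_left (a := 2 * k + 3) (by omega)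
  exact ⟨D, e1, (Nat.mul_le_mul_left _ this).trans f2⟩

end Pool.Agent.IsoSharp

/-! The weighted bound for marked sets. -/

namespace Pool.Agent.IsoSharp

open Finset Pool.Agent.IsoKer
open scoped Classical

variable {V : Type*} {G : SimpleGraph V} {k : ℕ}

/-- The state of the induction once no unmarked unit or component is left. -/
structure Bare (G : SimpleGraph V) (k : ℕ) (R U : Finset V) : Prop where
  ih : ∀ R' U' w', R'.card < R.card → St G k R' U' w'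
  sub : U ⊆ R
  bb : ∀ Z ⊆ U, BB G k Z
  n1 : ∀ y Q, Pd G k R y Q → ¬ Q ⊆ U
  n2 : ∀ C, Cl G C R → C.Nonempty → ¬ C ⊆ U

/-- The goal without weights. -/
def Goal (G : SimpleGraph V) (k : ℕ) (R U : Finset V) : Prop :=
  ∃ D : Finset V, CF G k (rem G U D) ∧ (2 * k + 3) * D.card + ((R \ U) \ D).card ≤ 2 * R.card

/-- An unmarked clique hanging on `y` once the mark `m` is removed. -/
structure TC (G : SimpleGraph V) (k : ℕ) (R U : Finset V) (m y : V) (Q : Finset V) : Prop where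
  mR : m ∈ R
  mU : m ∉ U
  pd : Pd G k (R \ {m}) y Q
  sub : Q ⊆ U

variable {R U : Finset V}

theorem TC.cl {m y : V} {Q : Finset V} (h : TC G k R U m y Q) {q z : V} (hq : q ∈ Q) (hz : z ∈ R)
    (a : G.Adj q z) : z ∈ Q ∨ z = y ∨ z = m := by
  by_cases e : z = m
  · exact Or.inr (Or.inr e)
  · exact (h.pd.cl q hq z (mem_sdiff.2 ⟨hz, by simpa using e⟩) a).imp_right Or.inl

theorem Bare.adj (b : Bare G k R U) {m y : V} {Q : Finset V} (h : TC G k R U m y Q) :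
    ∃ q ∈ Q, G.Adj m q := by
  by_contra hc
  push Not at hc
  exact b.n1 y Q (h.pd.up fun q hq a ha e => hc q hq (mem_singleton.1 ha ▸ e.symm)) h.sub

theorem Bare.step (b : Bare G k R U) {Y : Finset V} (D1 : Finset V) (hY : Y ⊆ R)
    (hne : Y.Nonempty) (hs : ∀ x ∈ rem G (U \ Y) D1, ∀ a ∈ Y, ¬ G.Adj x a) :
    ∃ D' : Finset V, CF G k (rem G (rem G (U \ Y) D1) D') ∧
      (2 * k + 3) * D'.card + (((R \ Y) \ rem G (U \ Y) D1) \ D').card + 2 * Y.card ≤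
        2 * R.card := by
  simpa using IsoSharp.step D1 (w := fun _ => 0) b.ih b.sub b.bb
    (fun y Q h1 h2 => absurd h2 (b.n1 y Q h1)) (fun O h1 h2 h3 => absurd h3 (b.n2 O h1 h2.ne))
    hY hne hs

theorem Bare.step2 (b : Bare G k R U) {Y : Finset V} (D1 : Finset V) (hY : Y ⊆ R)
    (hne : Y.Nonempty) (hs : ∀ x ∈ rem G (U \ Y) D1, ∀ a ∈ Y, ¬ G.Adj x a)
    (hav : Av G k (rem G U D1) Y) (hm : ∀ y ∈ Y, y ∈ U ∨ y ∈ D1)
    (hc : (2 * k + 3) * D1.card ≤ 2 * Y.card) : Goal G k R U := by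
  simpa [Goal] using IsoSharp.step2 D1 (w := fun _ => 0) b.ih b.sub b.bb
    (fun y Q h1 h2 => absurd h2 (b.n1 y Q h1)) (fun O h1 h2 h3 => absurd h3 (b.n2 O h1 h2.ne))
    hY hne hs hav hm (by simpa using hc)

theorem Bare.obj (b : Bare G k R U) {m : V} (hm : m ∈ R) (hmU : m ∉ U) {O : Finset V}
    (hO : Cl G O (R \ {m})) (ho : Ob G k O) (hs : O ⊆ U) : Goal G k R U := by
  have hmO : m ∉ O := fun h => hmU (hs h)
  have hcl : ∀ x ∈ O, ∀ z ∈ R, G.Adj x z → z ∈ O ∨ z = m := fun x hx z hz a => by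
    by_cases e : z = m
    exacts [Or.inr e, Or.inl (hO.2 x hx z (mem_sdiff.2 ⟨hz, by simpa using e⟩) a)]
  obtain ⟨p, hp, a⟩ : ∃ p ∈ O, G.Adj m p := by
    by_contra hc
    push Not at hc
    exact b.n2 O (cl_up hO fun q hq a ha e => hc q hq (mem_singleton.1 ha ▸ e.symm)) ho.ne hs
  have hq : ¬ Clq G k O := fun hq => b.n1 m O ⟨hq, hs.trans b.sub, hm, hmO, hcl, p, hp, a⟩ hs
  have hY : insert m O ⊆ R := insert_subset hm (hs.trans b.sub)
  have hc := card_le_card hY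
  rw [card_insert_of_notMem hmO] at hc
  obtain ⟨D, e1, e2⟩ := hit_of ho hq (fun Z hZ => b.bb Z (hZ.trans hs)) hp
    (b.ih _ _ _ (by omega))
  refine b.step2 (insert m D) hY (insert_nonempty _ _) (fun x hx c hc e => ?_) ?_
    (fun y hy => ?_) ?_
  · rw [mem_rem, mem_sdiff] at hx
    rcases mem_insert.1 hc with e1 | hc
    · exact (hx.2 m (mem_insert_self _ _)).2 (e1 ▸ e.symm)
    · exact hx.1.2 (mem_insert.2 (hcl c hc x (b.sub hx.1.1) e.symm).symm)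
  · refine Av.insert (av_of_cl (fun x _ hx z hz a => ?_) e1 fun x hx hxO => ?_)
      fun h => hmU (rem_sub _ _ h)
    · exact (hcl x hx z (b.sub (rem_sub _ _ hz)) a).resolve_right
        fun e => hmU (e ▸ rem_sub _ _ hz)
    · rw [mem_rem] at hx ⊢
      exact ⟨mem_erase.2 ⟨fun e => (hx.2 m (mem_insert_self _ _)).2 (e ▸ a), hxO⟩,
        fun d hd => hx.2 d (mem_insert_of_mem hd)⟩
  · exact (mem_insert.1 hy).symm.imp (fun h => hs h) fun e => mem_insert.2 (Or.inl e)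
  · have := mul_insert (2 * k + 3) m D
    rw [card_insert_of_notMem hmO]
    rw [mul_add] at e2
    omega

theorem Bare.mark (b : Bare G k R U) {m : V} (hm : m ∈ R) (hmU : m ∉ U) :
    Goal G k R U ∨ ∃ y1 Q1 y2 Q2, TC G k R U m y1 Q1 ∧ TC G k R U m y2 Q2 ∧
      y1 ∉ insert y2 Q2 := by
  by_cases hO : ∃ O, Cl G O (R \ {m}) ∧ Ob G k O ∧ O ⊆ U
  · obtain ⟨O, h1, h2, h3⟩ := hO
    exact Or.inl (b.obj hm hmU h1 h2 h3)
  by_contra hc
  rw [not_or] at hc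
  obtain ⟨c, hc1⟩ : ∃ c, ∀ y Q, Pd G k (R \ {m}) y Q → Q ⊆ U → c ∈ insert y Q := by
    by_cases h : ∃ y Q, Pd G k (R \ {m}) y Q ∧ Q ⊆ U
    · obtain ⟨y1, Q1, h1, h2⟩ := h
      exact ⟨y1, fun y Q h3 h4 => by_contra fun h5 =>
        hc.2 ⟨y1, Q1, y, Q, ⟨hm, hmU, h1, h2⟩, ⟨hm, hmU, h3, h4⟩, h5⟩⟩
    · exact ⟨m, fun y Q h3 h4 => absurd ⟨y, Q, h3, h4⟩ h⟩
  have h1 := card_sdiff_add_card_eq_card (singleton_subset_iff.2 hm)
  rw [card_singleton] at h1
  obtain ⟨D, e1, e2⟩ := b.ih (R \ {m}) U (fun x => if x = c then 1 else 0) (by omega)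
    (fun x hx => mem_sdiff.2 ⟨b.sub hx, fun e => hmU (mem_singleton.1 e ▸ hx)⟩) b.bb
    (fun y Q h3 h4 => by simp [hc1 y Q h3 h4]) fun O h3 h4 h5 => absurd ⟨O, h3, h4, h5⟩ hO
  refine hc.1 ⟨D, e1, ?_⟩
  have h2 : (R \ U) \ D ⊆ insert m (((R \ {m}) \ U) \ D) := fun x hx => by
    simp only [mem_sdiff, mem_insert, mem_singleton] at hx ⊢
    tauto
  have h3 := (card_le_card h2).trans (card_insert_le _ _)
  have h4 : ∑ x ∈ R \ {m}, (if x = c then 1 else 0) ≤ 1 := by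
    rw [sum_ite_eq']
    split_ifs <;> omega
  beta_reduce at e2
  omega

theorem TC.av (b : Bare G k R U) {m y : V} {Q D : Finset V} (h : TC G k R U m y Q)
    (hy : y ∉ rem G U D) {q d : V} (hq : q ∈ Q) (hd : d ∈ D) (a : G.Adj d q) :
    Av G k (rem G U D) Q :=
  av_of_cl (fun x _ hx z hz e => by
    rcases h.cl hx (b.sub (rem_sub _ _ hz)) e with h1 | h1 | h1
    exacts [h1, absurd (h1 ▸ hz) hy, absurd (h1 ▸ rem_sub _ _ hz) h.mU])
    (cf_clq_rem h.pd.clq hq hd (Or.inr a)) fun x hx hxQ => mem_rem.2 ⟨hxQ, (mem_rem.1 hx).2⟩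

theorem Bare.two_c (b : Bare G k R U) {m y z : V} {Q : Finset V} (h : TC G k R U m y Q)
    (hy : y ∈ U) (hz : z ∈ U) (hzQ : z ∉ Q) (a : G.Adj y z) : Goal G k R U := by
  have hY : insert y Q ⊆ R := h.pd.ins_sub.trans sdiff_subset
  obtain ⟨D, e1, e2⟩ := b.step {y} hY (insert_nonempty _ _) fun x hx c hc e => by
    rw [mem_rem1, mem_sdiff] at hx
    rcases mem_insert.1 hc with rfl | hc
    · exact hx.2.2 e.symm
    · rcases h.cl hc (b.sub hx.1.1) e.symm with h1 | h1 | h1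
      exacts [hx.1.2 (mem_insert_of_mem h1), hx.2.1 h1, h.mU (h1 ▸ hx.1.1)]
  rw [h.pd.card] at e2
  set M' := ((R \ insert y Q) \ rem G (U \ insert y Q) {y}) \ D with hM'
  have hmk : ∀ x ∈ U, x ∉ Q → G.Adj y x → x ∉ D → x ∈ M' := fun x h1 h2 h3 h4 => by
    simp only [hM', mem_sdiff, mem_rem1, mem_insert, not_or]
    exact ⟨⟨⟨b.sub h1, h3.ne.symm, h2⟩, fun hh => hh.2.2 h3⟩, h4⟩
  have hsub : ∀ E, D ⊆ E → (R \ U) \ E ⊆ M' := fun E hE => marks_sub hE fun x hx =>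
    Or.inl ((mem_insert.1 hx).elim (fun e => e ▸ hy) fun e => h.sub e)
  by_cases hc : ∃ x ∈ U, x ∉ Q ∧ G.Adj y x ∧ x ∉ D
  · obtain ⟨x, h1, h2, h3, h4⟩ := hc
    obtain ⟨q, hq, aq⟩ := h.pd.adj
    have hy' : y ∉ rem G U {y} := by simp
    refine ⟨{y} ∪ D, cf_join ((h.av b hy' hq (mem_singleton_self y) aq).insert hy') e1, ?_⟩
    have h5 := mul_union (2 * k + 3) {y} D
    have h6 : ((R \ U) \ ({y} ∪ D)).card < M'.card := card_lt_card
      ⟨hsub _ subset_union_right, fun hh => by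
        have := hh (hmk x h1 h2 h3 h4)
        simp only [mem_sdiff] at this
        exact this.1.2 h1⟩
    rw [card_singleton] at h5
    omega
  · push Not at hc
    obtain ⟨q, hq, aq⟩ := b.adj h
    have hy' : y ∉ rem G U (insert m D) := fun hh =>
      ((mem_rem.1 hh).2 z (mem_insert_of_mem (hc z hz hzQ a))).2 a.symm
    refine ⟨insert m D, ((h.av b hy' hq (mem_insert_self _ _) aq).insert hy').cf e1
      fun x hx hxY => ?_, ?_⟩
    · rw [mem_rem] at hx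
      refine mem_rem.2 ⟨mem_rem1.2 ⟨mem_sdiff.2 ⟨hx.1, hxY⟩, fun e => hxY (e ▸ mem_insert_self _ _),
        fun e => (hx.2 x (mem_insert_of_mem (hc x hx.1 (fun hh => hxY (mem_insert_of_mem hh))
          e))).1 rfl⟩, fun d hd => hx.2 d (mem_insert_of_mem hd)⟩
    · by_cases hm : m ∈ D
      · rw [insert_eq_of_mem hm]
        have := card_le_card (hsub D subset_rfl)
        omega
      · have h5 := mul_insert (2 * k + 3) m D
        have h6 : ((R \ U) \ insert m D).card < M'.card := card_lt_card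
          ⟨hsub _ (subset_insert _ _), fun hh => by
            have := hh (hsub D subset_rfl (mem_sdiff.2 ⟨mem_sdiff.2 ⟨h.mR, h.mU⟩, hm⟩))
            simp at this⟩
        omega

theorem TC.disj {m y1 y2 : V} {Q1 Q2 : Finset V} (h1 : TC G k R U m y1 Q1)
    (h2 : TC G k R U m y2 Q2) (h : y1 ∉ insert y2 Q2) : Disjoint Q1 Q2 ∧ y2 ∉ Q1 := by
  have hd : Disjoint Q1 Q2 := disjoint_left.2 fun x hx1 hx2 => by
    have s := h1.pd.clq_sub h2.pd.clq.2 h2.pd.sub hx2 hx1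
    have : Q2 = Q1 := eq_of_subset_of_card_le (fun z hz => (mem_insert.1 (s hz)).resolve_left
      fun e => h (mem_insert_of_mem (e ▸ hz))) (by rw [h1.pd.clq.1, h2.pd.clq.1])
    obtain ⟨q, hq, a⟩ := h1.pd.adj
    exact h (mem_insert.2 (h2.pd.cl q (this ▸ hq) y1 h1.pd.mem a.symm).symm)
  refine ⟨hd, fun hy => ?_⟩
  obtain ⟨q, hq, a⟩ := h2.pd.adj
  rcases h1.pd.cl y2 hy q (h2.pd.sub hq) a with e | e
  exacts [disjoint_left.1 hd e hq, h (mem_insert_of_mem (e ▸ hq))]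

theorem Bare.two_d (hk : 1 ≤ k) (b : Bare G k R U) {m y1 y2 : V} {Q1 Q2 : Finset V}
    (h1 : TC G k R U m y1 Q1) (h2 : TC G k R U m y2 Q2) (hd : Disjoint Q1 Q2) (hy1 : y1 ∉ U)
    (hy2 : y2 ∉ U) : Goal G k R U := by
  have hm : m ∉ Q1 ∪ Q2 := fun hh => h1.mU (union_subset h1.sub h2.sub hh)
  obtain ⟨q1, hq1, a1⟩ := b.adj h1
  obtain ⟨q2, hq2, a2⟩ := b.adj h2
  refine b.step2 (Y := insert m (Q1 ∪ Q2)) {m}
    (insert_subset h1.mR ((union_subset h1.sub h2.sub).trans b.sub)) (insert_nonempty _ _)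
    (fun x hx c hc e => ?_) (Av.insert (Av.union
      (h1.av b (fun hh => hy1 (rem_sub _ _ hh)) hq1 (mem_singleton_self m) a1)
      (h2.av b (fun hh => hy2 (rem_sub _ _ hh)) hq2 (mem_singleton_self m) a2)) (by simp))
    (fun y hy => (mem_insert.1 hy).symm.imp (fun hh => union_subset h1.sub h2.sub hh)
      mem_singleton.2) ?_
  · simp only [mem_rem1, mem_sdiff, mem_insert, mem_union, not_or] at hx hc
    rcases hc with rfl | hc | hc
    · exact hx.2.2 e.symm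
    · rcases h1.cl hc (b.sub hx.1.1) e.symm with h | h | h
      exacts [hx.1.2.2.1 h, hy1 (h ▸ hx.1.1), hx.2.1 h]
    · rcases h2.cl hc (b.sub hx.1.1) e.symm with h | h | h
      exacts [hx.1.2.2.2 h, hy2 (h ▸ hx.1.1), hx.2.1 h]
  · rw [card_insert_of_notMem hm, card_union_of_disjoint hd, h1.pd.clq.1, h2.pd.clq.1,
      card_singleton]
    omega

theorem Bare.two_e (hk : 2 ≤ k) (b : Bare G k R U) : Goal G k R U := by
  by_contra hg
  have hcl : ∀ m y Q, TC G k R U m y Q → Cl G (insert y Q ∩ U) U := fun m y Q h =>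
    ⟨inter_subset_right, fun x hx z hz a => mem_inter.2 ⟨by
      rw [mem_inter, mem_insert] at hx
      rcases hx.1 with e | e
      · exact mem_insert_of_mem (by_contra fun hh => hg (b.two_c h (e ▸ hx.2) hz hh (e ▸ a)))
      · rcases h.cl e (b.sub hz) a with h1 | h1 | h1
        exacts [mem_insert_of_mem h1, h1 ▸ mem_insert_self _ _, absurd (h1 ▸ hz) h.mU], hz⟩⟩
  have hQ : ∀ m y Q, TC G k R U m y Q → Q ⊆ insert y Q ∩ U := fun m y Q h =>
    subset_inter (subset_insert _ _) h.sub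
  have hin : ∀ m y Q, TC G k R U m y Q → y ∈ U → insert y Q ∩ U = insert y Q := fun m y Q h hy =>
    inter_eq_left.2 (insert_subset hy h.sub)
  have hout : ∀ m y Q, TC G k R U m y Q → y ∉ U → insert y Q ∩ U = Q := fun m y Q h hy => by
    rw [insert_inter_of_notMem hy, inter_eq_left.2 h.sub]
  have hcon : ∀ m y Q, TC G k R U m y Q → Conn G (insert y Q ∩ U) := fun m y Q h => by
    by_cases hy : y ∈ U
    · rw [hin m y Q h hy]; exact h.pd.conn
    · rw [hout m y Q h hy]; exact clq_conn h.pd.clq.2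
  set M := R \ U with hM
  let r : V → V → Prop := fun m x => ∃ y Q, TC G k R U m y Q ∧ x ∈ insert y Q ∩ U
  set A := U.filter fun x => ∃ m, r m x with hA
  have hAm : ∀ m x, r m x → x ∈ A := fun m x h => mem_filter.2 ⟨by
    obtain ⟨y, Q, -, h⟩ := h
    exact (mem_inter.1 h).2, m, h⟩
  have hcount : M.card * (2 * k + 1) ≤ A.card * 2 := by
    refine card_mul_le_card_mul r (fun m hm => ?_) fun x _ => ?_
    · obtain ⟨y1, Q1, y2, Q2, h1, h2, h3⟩ :=
        (b.mark (mem_sdiff.1 hm).1 (mem_sdiff.1 hm).2).resolve_left hg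
      obtain ⟨h4, h5⟩ := h1.disj h2 h3
      have hd : Disjoint (insert y1 Q1 ∩ U) (insert y2 Q2 ∩ U) := by
        refine Disjoint.mono inter_subset_left inter_subset_left ?_
        rw [disjoint_insert_left, disjoint_insert_right]
        exact ⟨h3, h5, h4⟩
      have hs : insert y1 Q1 ∩ U ∪ insert y2 Q2 ∩ U ⊆ A.bipartiteAbove r m := fun x hx => by
        have : r m x := (mem_union.1 hx).elim (fun e => ⟨y1, Q1, h1, e⟩) fun e => ⟨y2, Q2, h2, e⟩
        exact (mem_bipartiteAbove r).2 ⟨hAm m x this, this⟩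
      have h6 := card_le_card hs
      have h7 := card_le_card (hQ _ _ _ h1)
      have h8 := card_le_card (hQ _ _ _ h2)
      rw [card_union_of_disjoint hd] at h6
      rw [h1.pd.clq.1] at h7
      rw [h2.pd.clq.1] at h8
      by_cases hy1 : y1 ∈ U
      · rw [hin _ _ _ h1 hy1, h1.pd.card] at h6
        omega
      by_cases hy2 : y2 ∈ U
      · rw [hin _ _ _ h2 hy2, h2.pd.card] at h6
        omega
      exact absurd (b.two_d (by omega) h1 h2 h4 hy1 hy2) hg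
    · by_contra hc
      obtain ⟨m1, m2, m3, a1, a2, a3, n12, n13, n23⟩ := two_lt_card_iff.1 (not_le.1 hc)
      obtain ⟨-, y1, Q1, h1, x1⟩ := (mem_bipartiteBelow r).1 a1
      obtain ⟨-, y2, Q2, h2, x2⟩ := (mem_bipartiteBelow r).1 a2
      obtain ⟨-, y3, Q3, h3, x3⟩ := (mem_bipartiteBelow r).1 a3
      have key : ∀ m y Q m' y' Q', TC G k R U m y Q → TC G k R U m' y' Q' →
          x ∈ insert y Q ∩ U → x ∈ insert y' Q' ∩ U → m ≠ m' → ∀ q ∈ Q, G.Adj m q →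
          m = y' ∨ (q = y' ∧ y' ∈ U) := by
        intro m y Q m' y' Q' h h' e e' n q hq a
        have := conn_sub_cl (hcon _ _ _ h) inter_subset_right (hcl _ _ _ h') e e' (hQ _ _ _ h hq)
        rw [mem_inter, mem_insert] at this
        rcases this.1 with e1 | e1
        · exact Or.inr ⟨e1, e1 ▸ this.2⟩
        · rcases h'.cl e1 h.mR a.symm with e2 | e2 | e2
          exacts [absurd (h'.sub e2) h.mU, Or.inl e2, absurd e2 n]
      obtain ⟨q1, hq1, b1⟩ := b.adj h1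
      obtain ⟨q2, hq2, b2⟩ := b.adj h2
      obtain ⟨q3, hq3, b3⟩ := b.adj h3
      have k12 := key _ _ _ _ _ _ h1 h2 x1 x2 n12 q1 hq1 b1
      have k32 := key _ _ _ _ _ _ h3 h2 x3 x2 n23.symm q3 hq3 b3
      have k21 := key _ _ _ _ _ _ h2 h1 x2 x1 n12.symm q2 hq2 b2
      have k31 := key _ _ _ _ _ _ h3 h1 x3 x1 n13.symm q3 hq3 b3
      have u1 := h1.mU
      have u2 := h2.mU
      have u3 := h3.mU
      rcases k12 with e1 | e1 <;> rcases k32 with e2 | e2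
      · exact n13 (e1.trans e2.symm)
      · exact u1 (e1 ▸ e2.2)
      · exact u3 (e2 ▸ e1.2)
      rcases k21 with e3 | e3 <;> rcases k31 with e4 | e4
      · exact n23 (e3.trans e4.symm)
      · exact u2 (e3 ▸ e4.2)
      · exact u3 (e4 ▸ e3.2)
      · exact h1.pd.out (e4.1 ▸ e2.1.symm ▸ e1.1 ▸ hq1)
  rcases M.eq_empty_or_nonempty with he | hne
  · have hR : R ⊆ U := sdiff_eq_empty_iff_subset.1 he
    rcases R.eq_empty_or_nonempty with e | hne
    · refine hg ⟨∅, cf_small ?_, by rw [← hM, he]; simp⟩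
      have := card_le_card ((rem_sub (G := G) U ∅).trans b.sub)
      rw [e, card_empty] at this
      omega
    · exact b.n2 R ⟨subset_rfl, fun _ _ _ h _ => h⟩ hne hR
  have hd : Disjoint M A := disjoint_left.2 fun x hx hx' => (mem_sdiff.1 hx).2 (mem_filter.1 hx').1
  refine hg (b.step2 (Y := M ∪ A) M (union_subset sdiff_subset ((filter_subset _ _).trans b.sub))
    (hne.mono subset_union_left) (fun x hx c hc e => ?_)
    ((av_of_disj fun y hy hh => (mem_sdiff.1 hy).2 (rem_sub _ _ hh)).union fun T hT hc x hx hxA => ?_)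
    (fun y hy => (mem_union.1 hy).symm.imp_left fun hh => (mem_filter.1 hh).1) ?_)
  · rw [mem_rem, mem_sdiff] at hx
    rcases mem_union.1 hc with hc | hc
    · exact (hx.2 c hc).2 e.symm
    · obtain ⟨-, m, y, Q, h, hc⟩ := mem_filter.1 hc
      exact hx.1.2 (mem_union_right _ (hAm m x ⟨y, Q, h, (hcl _ _ _ h).2 c hc x hx.1.1 e.symm⟩))
  · obtain ⟨-, m, y, Q, h, hxI⟩ := mem_filter.1 hxA
    have hI := hcl _ _ _ h
    have hTU : T ⊆ U := hT.trans (rem_sub _ _)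
    have hc' := hc.inter hx hxI fun a _ ha z hz => hI.2 a ha z (hTU hz)
    obtain ⟨q, hq, a⟩ := b.adj h
    have hnM : ∀ t ∈ T, ∀ d ∈ R, d ∉ U → ¬ G.Adj d t := fun t ht d h1 h2 =>
      ((mem_rem.1 (hT ht)).2 d (mem_sdiff.2 ⟨h1, h2⟩)).2
    have hs : T ∩ (insert y Q ∩ U) ⊆ (insert y Q).erase q := fun z hz => mem_erase.2
      ⟨fun e => hnM z (mem_inter.1 hz).1 m h.mR h.mU (e ▸ a), (mem_inter.1 (mem_inter.1 hz).2).1⟩
    have h1 := hc'.card_ge
    have h2 : ((insert y Q).erase q).card = k := by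
      rw [card_erase_of_mem (mem_insert_of_mem hq), h.pd.card]; rfl
    have he := eq_of_subset_of_card_le hs (by omega)
    obtain ⟨q', hq', n⟩ := exists_mem_ne (s := Q) (by rw [h.pd.clq.1]; omega) q
    refine b.n1 q _ ⟨hc'.clq (by rw [he, h2]), (inter_subset_left.trans hTU).trans b.sub,
      b.sub (h.sub hq), by rw [he]; exact notMem_erase _ _, fun t ht z hz e => ?_, q',
      by rw [he]; exact mem_erase.2 ⟨n, mem_insert_of_mem hq'⟩, h.pd.clq.2 q hq q' hq' n.symm⟩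
      (inter_subset_left.trans hTU)
    have hzU : z ∈ U := by_contra fun hh => hnM t (mem_inter.1 ht).1 z hz hh e.symm
    have := hI.2 t (mem_inter.1 ht).2 z hzU e
    by_cases e1 : z = q
    exacts [Or.inr e1, Or.inl (by rw [he]; exact mem_erase.2 ⟨e1, (mem_inter.1 this).1⟩)]
  · rw [card_union_of_disjoint hd]
    nlinarith

theorem star (hk : 2 ≤ k) (R U : Finset V) (w : V → ℕ) : St G k R U w := by
  induction hn : R.card using Nat.strong_induction_on generalizing R U w with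
  | _ n ih =>
  subst hn
  have ih' : ∀ R' U' w', R'.card < R.card → St G k R' U' w' :=
    fun R' U' w' h => ih _ h R' U' w' rfl
  intro hU hB h1 h2
  by_cases hA : ∃ y Q, Pd G k R y Q ∧ Q ⊆ U
  · obtain ⟨y, Q, h, hQ⟩ := hA
    obtain ⟨q, hq, a⟩ := h.adj
    refine step2 {y} ih' hU hB h1 h2 h.ins_sub (insert_nonempty _ _) (fun x hx c hc e => ?_)
      (Av.insert (av_of_cl (fun x _ hx z hz e => ?_)
        (cf_clq_rem h.clq hq (mem_singleton_self y) (Or.inr a))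
        fun x hx hxQ => mem_rem.2 ⟨hxQ, (mem_rem.1 hx).2⟩) (by simp))
      (fun x hx => (mem_insert.1 hx).symm.imp (fun e => hQ e) mem_singleton.2) ?_
    · rw [mem_rem1, mem_sdiff] at hx
      rcases mem_insert.1 hc with rfl | hc
      · exact hx.2.2 e.symm
      · exact hx.1.2 (mem_insert.2 (h.cl c hc x (hU hx.1.1) e.symm).symm)
    · rw [mem_rem1] at hz
      exact (h.cl x hx z (hU hz.1) e).resolve_right hz.2.1
    · have := h1 y Q h hQ
      rw [h.card, card_singleton]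
      omega
  by_cases hC : ∃ C, Cl G C R ∧ C.Nonempty ∧ C ⊆ U
  · obtain ⟨C', c1, c2, c3⟩ := hC
    obtain ⟨C, s, hne, hcl, hcon⟩ := exists_conn c1 c2
    have hs := s.trans c3
    have huf : UF G k C := fun y Q h => hA ⟨y, Q, h.of_cl hcl, h.sub.trans hs⟩
    obtain ⟨D, e1, e2⟩ : ∃ D : Finset V, CF G k (rem G C D) ∧
        (2 * k + 3) * D.card ≤ 2 * C.card + ∑ x ∈ C, w x := by
      by_cases hq : Clq G k C
      · obtain ⟨q, hq'⟩ := hne
        have := (h2 C hcl (clq_ob (by omega) hq) hs).2 hq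
        exact ⟨{q}, cf_clq_rem hq hq' (mem_singleton_self q) (Or.inl rfl), by
          rw [card_singleton, hq.1]; omega⟩
      by_cases hcr : ∀ D : Finset V, CF G k (rem G C D) → 2 * C.card < (2 * k + 3) * D.card
      · obtain ⟨D, e1, e2⟩ := hB C hs hcon huf hq
        have := (h2 C hcl ⟨hne, hcon, huf, hcr⟩ hs).1
        exact ⟨D, e1, by omega⟩
      · push Not at hcr
        obtain ⟨D, e1, e2⟩ := hcr
        exact ⟨D, e1, by omega⟩
    refine step2 D ih' hU hB h1 h2 hcl.1 hne (fun x hx c hc e => ?_)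
      (av_of_cl (fun x _ hx z hz e => hcl.2 x hx z (hU (rem_sub _ _ hz)) e) e1
        fun x hx hxQ => mem_rem.2 ⟨hxQ, (mem_rem.1 hx).2⟩) (fun x hx => Or.inl (hs hx)) e2
    have := mem_sdiff.1 (rem_sub _ _ hx)
    exact this.2 (hcl.2 c hc x (hU this.1) e.symm)
  obtain ⟨D, e1, e2⟩ := Bare.two_e hk ⟨ih', hU, hB, fun y Q h h' => hA ⟨y, Q, h, h'⟩,
    fun C c1 c2 c3 => hC ⟨C, c1, c2, c3⟩⟩
  exact ⟨D, e1, by omega⟩

end Pool.Agent.IsoSharp

/-! Local reductions in a smallest counterexample. -/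

namespace Pool.Agent.IsoSharp

open Finset Pool.Agent.IsoKer
open scoped Classical

variable {V : Type*} {G : SimpleGraph V} {k : ℕ}

/-- A smallest counterexample to the bound. -/
structure CE (G : SimpleGraph V) (k : ℕ) (Z : Finset V) : Prop where
  hk : 11 ≤ k
  conn : Conn G Z
  uf : UF G k Z
  nclq : ¬ Clq G k Z
  big : ∀ D : Finset V, CF G k (rem G Z D) → 2 * Z.card + 3 ≤ (2 * k + 3) * D.card
  bb : ∀ Z' ⊆ Z, Z' ≠ Z → BB G k Z'

theorem sum_ind (R P : Finset V) (c : ℕ) : ∑ x ∈ R, (if x ∈ P then c else 0) ≤ c * P.card := by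
  rw [sum_ite_mem, sum_const, smul_eq_mul, mul_comm]
  exact Nat.mul_le_mul_left c (card_le_card inter_subset_right)

theorem low_deg (hk : 2 ≤ k) {O : Finset V} (h1 : Conn G O) (h2 : UF G k O) {x : V} (hx : x ∈ O)
    (hB : ∀ Z ⊆ O.erase x, BB G k Z) (hd : (nb G O x).card + 2 ≤ k) :
    ∃ D : Finset V, CF G k (rem G O D) ∧ (2 * k + 3) * D.card ≤ 2 * O.card := by
  obtain ⟨D, e1, e2⟩ := star hk O (O.erase x) (fun _ => 0) (erase_subset _ _) hB
    (fun y Q hP => absurd hP (h2 y Q))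
    (fun C hC hc hs => absurd (hs (h1 C hC hc.ne ▸ hx)) (notMem_erase _ _))
  refine ⟨D, Av.cf (Y := {x}) (fun T hT hc a ha e => ?_) e1 fun a ha e => ?_, by
    simp only [sum_const_zero, add_zero] at e2; omega⟩
  · rw [mem_singleton.1 e] at ha
    exact hc.not_small ha (fun z hz a => mem_nb.2 ⟨rem_sub _ _ (hT hz), a⟩) hd
  · rw [mem_rem] at ha ⊢
    exact ⟨mem_erase.2 ⟨by simpa using e, ha.1⟩, ha.2⟩

theorem core_clq {T Q : Finset V} (hT : Core G k T) (hQ : Clq G k Q) {q x y : V} (hq : q ∈ Q)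
    (hqT : q ∉ T) (hx : x ∈ T) (hxQ : x ∈ Q) (h : ∀ z ∈ T, G.Adj x z → z ∈ Q ∨ z = y) :
    (∀ a ∈ Q, a ≠ q → a ∈ T) ∧ y ∈ T ∧ y ∉ Q ∧ G.Adj x y := by
  have n : x ≠ q := fun e => hqT (e ▸ hx)
  have hs : nb G T x ⊆ insert y ((Q.erase q).erase x) := fun z hz => by
    rw [mem_nb] at hz
    exact mem_insert.2 ((h z hz.1 hz.2).symm.imp_right fun e => mem_erase.2 ⟨hz.2.ne.symm,
      mem_erase.2 ⟨fun e1 => hqT (e1 ▸ hz.1), e⟩⟩)
  have h1 := hT.2 x hx
  have h2 : ((Q.erase q).erase x).card + 2 = k := by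
    have := card_erase_add_one (mem_erase.2 ⟨n, hxQ⟩)
    have := card_erase_add_one hq
    have := hQ.1
    omega
  have h3 := card_insert_le y ((Q.erase q).erase x)
  have he := eq_of_subset_of_card_le hs (by omega)
  have hy := mem_nb.1 (he ▸ mem_insert_self y _ : y ∈ nb G T x)
  refine ⟨fun a ha e => ?_, hy.1, fun hh => ?_, hy.2⟩
  · by_cases e1 : a = x
    · exact e1 ▸ hx
    · exact (mem_nb.1 (he ▸ mem_insert_of_mem (mem_erase.2 ⟨e1, mem_erase.2 ⟨e, ha⟩⟩) :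
        a ∈ nb G T x)).1
  · rw [insert_eq_of_mem (mem_erase.2 ⟨hy.2.ne.symm,
      mem_erase.2 ⟨fun e : y = q => hqT (e ▸ hy.1), hh⟩⟩)] at he
    rw [he] at h1
    omega

theorem Pd.disj {R Q1 Q2 : Finset V} {y1 y2 : V} (h1 : Pd G k R y1 Q1) (h2 : Pd G k R y2 Q2)
    (h : y1 ∉ insert y2 Q2) : Disjoint Q1 Q2 := disjoint_left.2 fun x hx1 hx2 => by
  have s := h1.clq_sub h2.clq.2 h2.sub hx2 hx1
  have : Q2 = Q1 := eq_of_subset_of_card_le (fun z hz => (mem_insert.1 (s hz)).resolve_left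
    fun e => h (mem_insert_of_mem (e ▸ hz))) (by rw [h1.clq.1, h2.clq.1])
  obtain ⟨q, hq, a⟩ := h1.adj
  exact h (mem_insert.2 (h2.cl q (this ▸ hq) y1 h1.mem a.symm).symm)

namespace CE

variable {Z : Finset V} (h : CE G k Z)
include h

theorem fin (D1 Y P1 P2 P3 : Finset V) (hY : Y ⊆ Z) (hne : Y.Nonempty)
    (hav : Av G k (rem G Z D1) Y)
    (h1 : ∀ y Q, Pd G k (Z \ Y) y Q → Q ⊆ rem G Z D1 → (∃ q ∈ Q, ∃ a ∈ Y, G.Adj q a) →
      ∃ p ∈ insert y Q, p ∈ P1 ∨ p ∈ P2 ∨ p ∈ P3)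
    (h2 : ∀ O, Cl G O (Z \ Y) → Ob G k O → O ⊆ rem G Z D1 → (∃ q ∈ O, ∃ a ∈ Y, G.Adj q a) →
      (∃ p ∈ O, p ∈ P3) ∨ (¬ Clq G k O ∧ ∃ p ∈ O, p ∈ P2)) :
    ∃ D' : Finset V, CF G k (rem G (rem G (Z \ Y) D1) D') ∧
      2 * Z.card + 3 ≤ (2 * k + 3) * D1.card + (2 * k + 3) * D'.card ∧
      (2 * k + 3) * D'.card + (((Z \ Y) \ rem G (Z \ Y) D1) \ D').card + 2 * Y.card ≤
        2 * Z.card + P1.card + 2 * P2.card + 3 * P3.card := by
  have hk := h.hk
  obtain ⟨y0, hy0⟩ := hne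
  have hs : rem G (Z \ Y) D1 ⊆ rem G Z D1 := rem_mono sdiff_subset subset_rfl
  let w : V → ℕ := fun x =>
    (if x ∈ P1 then 1 else 0) + (if x ∈ P2 then 2 else 0) + (if x ∈ P3 then 3 else 0)
  have hw : ∀ A : Finset V, ∀ p ∈ A, w p ≤ ∑ x ∈ A, w x := fun A p hp =>
    single_le_sum (f := w) (fun _ _ => Nat.zero_le _) hp
  obtain ⟨D', e1, e2⟩ := star (G := G) (k := k) (by omega) (Z \ Y) (rem G (Z \ Y) D1) w
    (rem_sub _ _) (fun Z' hZ' => h.bb Z' (hZ'.trans ((rem_sub _ _).trans sdiff_subset)) fun e =>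
      (mem_sdiff.1 (rem_sub _ _ (hZ' (e ▸ hY hy0)))).2 hy0)
    (fun y Q hP hQ => by
      obtain ⟨p, hp, h3⟩ := h1 y Q hP (hQ.trans hs) (by
        by_contra hc
        push Not at hc
        exact h.uf y Q (hP.up hc))
      refine le_trans ?_ (hw _ p hp)
      simp only [w]
      rcases h3 with e | e | e <;> rw [if_pos e] <;> omega)
    (fun O hO ho hQ => by
      rcases h2 O hO ho (hQ.trans hs) (by
        by_contra hc
        push Not at hc
        exact (mem_sdiff.1 (hO.1 (h.conn O (cl_up hO hc) ho.ne ▸ hY hy0))).2 hy0) with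
        ⟨p, hp, e⟩ | ⟨hq, p, hp, e⟩
      · have := hw _ p hp
        simp only [w, if_pos e] at this ⊢
        omega
      · have := hw _ p hp
        simp only [w, if_pos e] at this ⊢
        exact ⟨by omega, fun hh => absurd hh hq⟩)
  refine ⟨D', e1, (h.big _ (cf_join hav e1)).trans (mul_union _ _ _), ?_⟩
  have := card_sdiff_add_card_eq_card hY
  simp only [w, sum_add_distrib] at e2
  have := sum_ind (Z \ Y) P1 1
  have := sum_ind (Z \ Y) P2 2
  have := sum_ind (Z \ Y) P3 3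
  omega

theorem fin0 (D1 Y P1 P2 P3 : Finset V) (hY : Y ⊆ Z) (hne : Y.Nonempty)
    (hav : Av G k (rem G Z D1) Y)
    (h1 : ∀ y Q, Pd G k (Z \ Y) y Q → Q ⊆ rem G Z D1 → (∃ q ∈ Q, ∃ a ∈ Y, G.Adj q a) →
      ∃ p ∈ insert y Q, p ∈ P1 ∨ p ∈ P2 ∨ p ∈ P3)
    (h2 : ∀ O, Cl G O (Z \ Y) → Ob G k O → O ⊆ rem G Z D1 → (∃ q ∈ O, ∃ a ∈ Y, G.Adj q a) →
      (∃ p ∈ O, p ∈ P3) ∨ (¬ Clq G k O ∧ ∃ p ∈ O, p ∈ P2)) :
    2 * Y.card + 3 ≤ (2 * k + 3) * D1.card + P1.card + 2 * P2.card + 3 * P3.card := by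
  obtain ⟨D', -, e1, e2⟩ := h.fin D1 Y P1 P2 P3 hY hne hav h1 h2
  omega

theorem finS (D1 Y P : Finset V) (hY : Y ⊆ Z) (hne : Y.Nonempty) (hav : Av G k (rem G Z D1) Y)
    (hs : ∀ x ∈ rem G Z D1, x ∉ Y → ∀ a ∈ Y, G.Adj x a → x ∈ P) :
    2 * Y.card + 3 ≤ (2 * k + 3) * D1.card + 3 * P.card := by
  simpa using h.fin0 D1 Y ∅ ∅ P hY hne hav
    (fun y Q hP hQ ⟨q, hq, a, ha, e⟩ => ⟨q, mem_insert_of_mem hq, Or.inr (Or.inr
      (hs q (hQ hq) (mem_sdiff.1 (hP.sub hq)).2 a ha e))⟩)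
    fun O hO _ hQ ⟨q, hq, a, ha, e⟩ =>
      Or.inl ⟨q, hq, hs q (hQ hq) (mem_sdiff.1 (hO.1 hq)).2 a ha e⟩

theorem deg {x : V} (hx : x ∈ Z) : k ≤ (nb G Z x).card + 1 := by
  by_contra hc
  have hk := h.hk
  obtain ⟨D, e1, e2⟩ := low_deg (by omega) h.conn h.uf hx (fun Z' hZ' => h.bb Z'
    (hZ'.trans (erase_subset _ _)) fun e => notMem_erase x Z (hZ' (e ▸ hx))) (by omega)
  have := h.big D e1
  omega

theorem ob_deg {O : Finset V} (ho : Ob G k O) (hO : O ⊆ Z) {x : V} (hx : x ∈ O) :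
    k ≤ (nb G O x).card + 1 := by
  by_contra hc
  have hk := h.hk
  obtain ⟨D, e1, e2⟩ := low_deg (by omega) ho.conn ho.uf hx (fun Z' hZ' => h.bb Z'
    (hZ'.trans ((erase_subset _ _).trans hO)) fun e => notMem_erase x O (hZ' (e ▸ hO hx)))
    (by omega)
  have := ho.crit D e1
  omega

theorem hit2 {O : Finset V} (ho : Ob G k O) (hq : ¬ Clq G k O) (hO : O ⊆ Z) {d : V} (hd : d ∈ Z)
    (hdO : d ∉ O) {p : V} (hp : p ∈ O) : ∃ D : Finset V, CF G k (rem G (O.erase p) D) ∧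
      (2 * k + 3) * D.card + (2 * k + 3) ≤ 2 * O.card + 2 := by
  have hk := h.hk
  simpa only [mul_add, mul_one] using hit_of ho hq (fun Z' hZ' => h.bb Z' (hZ'.trans hO)
    fun e => hdO (hZ' (e ▸ hd))) hp (star (by omega) _ _ _)

theorem hit3 {O : Finset V} (ho : Ob G k O) (hO : O ⊆ Z) {d : V} (hd : d ∈ Z)
    (hdO : d ∉ O) {p : V} (hp : p ∈ O) : ∃ D : Finset V, CF G k (rem G (O.erase p) D) ∧
      (2 * k + 3) * D.card + (2 * k + 3) ≤ 2 * O.card + 3 := by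
  by_cases hq : Clq G k O
  · refine ⟨∅, cf_small ?_, by rw [hq.1]; simp⟩
    have := card_le_card (rem_sub (G := G) (O.erase p) ∅)
    have := card_erase_add_one hp
    have := hq.1
    omega
  · obtain ⟨D, e1, e2⟩ := h.hit2 ho hq hO hd hdO hp
    exact ⟨D, e1, by omega⟩

omit h in
/-- A part whose outside neighbours are all dominated is avoided once it is hit. -/
theorem av_hit {O D D1 : Finset V} {p d : V} (e : CF G k (rem G (O.erase p) D)) (hD : D ⊆ D1)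
    (hd : d ∈ D1) (a : G.Adj d p)
    (hcl : ∀ x ∈ O, ∀ z ∈ rem G Z D1, G.Adj x z → z ∈ O) : Av G k (rem G Z D1) O :=
  av_of_cl (fun x _ hx z hz => hcl x hx z hz) e fun _ hx hxO => mem_rem.2
    ⟨mem_erase.2 ⟨fun e1 => ((mem_rem.1 hx).2 d hd).2 (e1 ▸ a), hxO⟩,
      fun c hc => (mem_rem.1 hx).2 c (hD hc)⟩

theorem g0 {O : Finset V} (ho : Ob G k O) (hO : O ⊆ Z) {d p : V} (hd : d ∈ Z) (hdO : d ∉ O)
    (hp : p ∈ O) (a : G.Adj d p)
    (hcl : ∀ x ∈ O, ∀ z ∈ Z, G.Adj x z → z ∈ O ∨ z = d ∨ G.Adj d z) : False := by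
  obtain ⟨D, e1, e2⟩ := h.hit3 ho hO hd hdO hp
  have hc : ∀ x ∈ O, ∀ z ∈ rem G Z (insert d D), G.Adj x z → z ∈ O := fun x hx z hz e => by
    have := (mem_rem.1 hz).2 d (mem_insert_self _ _)
    exact (hcl x hx z (rem_sub _ _ hz) e).resolve_right fun hh => hh.elim this.1 this.2
  have := h.finS (insert d D) (insert d O) ∅ (insert_subset hd hO) (insert_nonempty _ _)
    ((av_hit e1 (subset_insert _ _) (mem_insert_self _ _) a hc).insert (by simp))
    fun x hx hxY c hc' e => by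
      rcases mem_insert.1 hc' with e1 | e1
      · exact absurd (e1 ▸ e.symm) ((mem_rem.1 hx).2 d (mem_insert_self _ _)).2
      · exact absurd (mem_insert_of_mem (hc c e1 x hx e.symm)) hxY
  have h3 := mul_insert (2 * k + 3) d D
  rw [card_insert_of_notMem hdO, card_empty] at this
  omega

theorem wb {Q O : Finset V} (hQ : ∀ a ∈ Q, ∀ b ∈ Q, a ≠ b → G.Adj a b) (hQZ : Q ⊆ Z)
    (hne : Q.Nonempty) (hO : Cl G O (Z \ Q)) (ho : Ob G k O) : False := by
  obtain ⟨q, hq⟩ := hne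
  have hl : ∀ x ∈ O, ∀ z ∈ Z, G.Adj x z → z ∈ O ∨ z ∈ Q := fun x hx z hz a => by
    by_cases e : z ∈ Q
    exacts [Or.inr e, Or.inl (hO.2 x hx z (mem_sdiff.2 ⟨hz, e⟩) a)]
  obtain ⟨p, hp, d, hd, hdO, a⟩ := h.conn.exists_edge (hO.1.trans sdiff_subset) ho.ne (hQZ hq)
    fun e => (mem_sdiff.1 (hO.1 e)).2 hq
  have hdQ := (hl p hp d hd a).resolve_left hdO
  refine h.g0 ho (hO.1.trans sdiff_subset) hd hdO hp a.symm fun x hx z hz e =>
    (hl x hx z hz e).imp_right fun e1 => ?_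
  by_cases e2 : z = d
  exacts [Or.inl e2, Or.inr (hQ d hdQ z e1 (Ne.symm e2))]

theorem sat {O : Finset V} {d : V} (hd : d ∈ Z) (hO : O ⊆ Z) (hdO : d ∉ O) (ho : Ob G k O)
    (hcl : ∀ x ∈ O, ∀ z ∈ Z, G.Adj x z → z ∈ O ∨ z = d) : False :=
  h.wb (Q := {d}) (by simp) (singleton_subset_iff.2 hd) (singleton_nonempty d)
    ⟨fun x hx => mem_sdiff.2 ⟨hO hx, fun e => hdO (mem_singleton.1 e ▸ hx)⟩, fun x hx z hz a =>
      (hcl x hx z (mem_sdiff.1 hz).1 a).resolve_right (by simpa using (mem_sdiff.1 hz).2)⟩ ho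

theorem t1 {Q : Finset V} (hQ : Clq G k Q) (hQZ : Q ⊆ Z) {d : V} (hd : d ∈ Z) (hdQ : d ∉ Q)
    (hav : Av G k (rem G Z {d}) Q) (c : V)
    (hc : ∀ y P, Pd G k (Z \ insert d Q) y P → ∀ x ∈ P, x ∈ rem G Z {d} → ∀ a ∈ Q, G.Adj x a →
      c ∈ insert y P) : False := by
  have hk := h.hk
  have := h.fin0 {d} (insert d Q) {c} ∅ ∅ (insert_subset hd hQZ) (insert_nonempty _ _)
    (hav.insert (by simp)) (fun y P hP hs ⟨x, hx, a, ha, e⟩ => ⟨c, hc y P hP x hx (hs hx) a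
      ((mem_insert.1 ha).resolve_left fun e1 => (mem_rem1.1 (hs hx)).2.2 (e1 ▸ e.symm)) e,
      Or.inl (mem_singleton_self c)⟩)
    fun O hO ho hs _ => (h.wb hQ.2 hQZ (clq_ne (by omega) hQ) ⟨hO.1.trans
      (sdiff_subset_sdiff subset_rfl (subset_insert _ _)), fun x hx z hz a => hO.2 x hx z
        (mem_sdiff.2 ⟨(mem_sdiff.1 hz).1, fun e => (mem_insert.1 e).elim
          (fun e1 => (mem_rem1.1 (hs hx)).2.2 (e1 ▸ a.symm)) (mem_sdiff.1 hz).2⟩) a⟩ ho).elim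
  rw [card_insert_of_notMem hdQ, hQ.1] at this
  simp at this
  omega

theorem g1 {Q : Finset V} (hQ : Clq G k Q) (hQZ : Q ⊆ Z) {d q y : V} (hd : d ∈ Z) (hdQ : d ∉ Q)
    (hq : q ∈ Q) (a : G.Adj d q)
    (hl : ∀ x ∈ Q, ∀ z ∈ Z, G.Adj x z → z ∈ Q ∨ z = y ∨ z = d ∨ G.Adj d z) :
    ∀ x ∈ Q, x ≠ q → ¬ G.Adj d x ∧ G.Adj x y := by
  have hl' : ∀ x ∈ Q, ∀ z ∈ rem G Z {d}, G.Adj x z → z ∈ Q ∨ z = y := fun x hx z hz e => by
    rw [mem_rem1] at hz
    rcases hl x hx z hz.1 e with e | e | e | e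
    exacts [Or.inl e, Or.inr e, absurd e hz.2.1, absurd e hz.2.2]
  by_contra hc
  refine h.t1 hQ hQZ hd hdQ (fun T hT ht x hx hxQ => hc fun x' hx' n => ?_) y
    fun y' P hP x hx hr c hc' e => ?_
  · have hqT : q ∉ T := fun e => (mem_rem1.1 (hT e)).2.2 a
    have h1 := (core_clq ht hQ hq hqT hx hxQ fun z hz => hl' x hxQ z (hT hz)).1 x' hx' n
    exact ⟨(mem_rem1.1 (hT h1)).2.2,
      (core_clq ht hQ hq hqT h1 hx' fun z hz => hl' x' hx' z (hT hz)).2.2.2⟩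
  · rcases hl' c hc' x hr e.symm with e1 | e1
    exacts [absurd (mem_insert_of_mem e1) (mem_sdiff.1 (hP.sub hx)).2,
      mem_insert_of_mem (e1 ▸ hx)]

theorem link {Q : Finset V} (hQ : Clq G k Q) (hQZ : Q ⊆ Z) :
    ∃ q ∈ Q, ∃ m ∈ Z, m ∉ Q ∧ G.Adj q m := by
  have hk := h.hk
  obtain ⟨z, hz, hzQ⟩ : ∃ z ∈ Z, z ∉ Q := by
    by_contra hc
    push Not at hc
    exact h.nclq (Subset.antisymm hQZ hc ▸ hQ)
  exact h.conn.exists_edge hQZ (clq_ne (by omega) hQ) hz hzQ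

theorem k2 {Q : Finset V} (hQ : Clq G k Q) (hQZ : Q ⊆ Z) (a b : V)
    (hl : ∀ x ∈ Q, ∀ z ∈ Z, G.Adj x z → z ∈ Q ∨ z = a ∨ z = b) : False := by
  have hk := h.hk
  obtain ⟨q, hq, m, hm, hmQ, e⟩ := h.link hQ hQZ
  wlog hma : m = a generalizing a b
  · exact this b a (fun x hx z hz e => (hl x hx z hz e).imp_right Or.symm)
      (((hl q hq m hm e).resolve_left hmQ).resolve_left hma)
  subst hma
  by_cases hb : b ∈ Z ∧ b ∉ Q ∧ ∃ q' ∈ Q, G.Adj b q'
  · obtain ⟨h1, h2, q', h3, h4⟩ := hb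
    have g1 := h.g1 (y := b) hQ hQZ hm hmQ hq e.symm fun x hx z hz e => by
      have := hl x hx z hz e
      tauto
    have g2 := h.g1 (y := m) hQ hQZ h1 h2 h3 h4 fun x hx z hz e => by
      have := hl x hx z hz e
      tauto
    obtain ⟨x, hx, n⟩ := exists_mem_notMem_of_card_lt_card (s := {q, q'}) (t := Q)
      (by have := card_le_two (a := q) (b := q'); rw [hQ.1]; omega)
    simp only [mem_insert, mem_singleton, not_or] at n
    exact (g2 x hx n.2).1 (g1 x hx n.1).2.symm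
  · refine h.uf m Q ⟨hQ, hQZ, hm, hmQ, fun x hx z hz e => ?_, q, hq, e.symm⟩
    rcases hl x hx z hz e with e1 | e1 | e1
    exacts [Or.inl e1, Or.inr e1, Or.inl (by_contra fun e2 => hb (e1 ▸ ⟨hz, e2, x, hx, e.symm⟩))]

theorem eb {Q : Finset V} (hQ : Clq G k Q) (hQZ : Q ⊆ Z) {x : V} (hx : x ∈ Q) (x' : V)
    (hl : ∀ q ∈ Q, q ≠ x → ∀ z ∈ Z, G.Adj q z → z ∈ Q ∨ z = x') : False := by
  have hk := h.hk
  have two : ∀ b, ∃ p ∈ Z, p ∉ Q ∧ p ≠ x' ∧ p ≠ b ∧ G.Adj x p := fun b => by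
    by_contra hc
    push Not at hc
    refine h.k2 hQ hQZ x' b fun q hq z hz e => ?_
    by_cases e1 : q = x
    · by_contra hh
      push Not at hh
      exact hc z hz hh.1 hh.2.1 hh.2.2 (e1 ▸ e)
    · exact (hl q hq e1 z hz e).imp_right Or.inl
  obtain ⟨p1, a1, b1, c1, -, d1⟩ := two x'
  obtain ⟨p2, a2, b2, c2, n, d2⟩ := two p1
  have hl' : ∀ u ∈ rem G Z {x}, u ≠ x' → ∀ q ∈ Q, ¬ G.Adj u q := fun u hu n q hq e => by
    rw [mem_rem1] at hu
    by_cases e1 : q = x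
    · exact hu.2.2 (e1 ▸ e.symm)
    · rcases hl q hq e1 u hu.1 e.symm with e2 | e2
      exacts [hu.2.2 (hQ.2 x hx u e2 hu.2.1.symm), n e2]
  have key : ∀ p ∈ Z, p ∉ Q → G.Adj x p →
      ∃ O, Cl G O (Z \ insert p Q) ∧ Ob G k O ∧ O ⊆ rem G Z {x} ∧ x' ∈ O := by
    intro p a b d
    by_contra hc
    push Not at hc
    have hl2 : ∀ A ⊆ rem G Z {x}, x' ∉ A → ∀ u ∈ A, ∀ z ∈ Z, G.Adj u z → z ≠ p →
        z ∈ Z \ insert p Q := fun A hA hx' u hu z hz e n => mem_sdiff.2 ⟨hz, fun hh =>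
      hl' u (hA hu) (fun e1 => hx' (e1 ▸ hu)) z ((mem_insert.1 hh).resolve_left n) e⟩
    have := h.fin0 {x} (insert p Q) {x'} ∅ ∅ (insert_subset a hQZ) (insert_nonempty _ _)
      (av_of_disj fun y hy hh => by
        rw [mem_rem1] at hh
        rcases mem_insert.1 hy with e | e
        exacts [hh.2.2 (e ▸ d), hh.2.2 (hQ.2 x hx y e hh.2.1.symm)])
      (fun y P hP hs _ => ⟨x', mem_insert_of_mem (by_contra fun hh => h.k2 hP.clq
        (hP.sub.trans sdiff_subset) y p fun u hu z hz e => by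
          by_cases e1 : z = p
          exacts [Or.inr (Or.inr e1),
            (hP.cl u hu z (hl2 P hs hh u hu z hz e e1) e).imp_right Or.inl]),
        Or.inl (mem_singleton_self _)⟩)
      fun O hO ho hs _ => (h.sat a (hO.1.trans sdiff_subset)
        (fun e => (mem_sdiff.1 (hO.1 e)).2 (mem_insert_self _ _)) ho fun u hu z hz e => by
          by_cases e1 : z = p
          exacts [Or.inr e1, Or.inl (hO.2 u hu z (hl2 O hs (hc O hO ho hs) u hu z hz e e1) e)]).elim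
    rw [card_insert_of_notMem b, hQ.1] at this
    simp at this
    omega
  obtain ⟨O1, e1, f1, g1, i1⟩ := key p1 a1 b1 d1
  obtain ⟨O2, e2, f2, g2, i2⟩ := key p2 a2 b2 d2
  have s : O1 ⊆ O2 := conn_sub_cl f1.conn (fun u hu => by
    have := mem_sdiff.1 (e1.1 hu)
    exact mem_sdiff.2 ⟨this.1, fun hh => (mem_insert.1 hh).elim
      (fun e => (mem_rem1.1 (g1 hu)).2.2 (e ▸ d2)) fun e => this.2 (mem_insert_of_mem e)⟩) e2 i1 i2
  refine h.wb hQ.2 hQZ ⟨x, hx⟩ ⟨e1.1.trans (sdiff_subset_sdiff subset_rfl (subset_insert _ _)),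
    fun u hu z hz e => e1.2 u hu z (mem_sdiff.2 ⟨(mem_sdiff.1 hz).1, fun hh => ?_⟩) e⟩ f1
  rcases mem_insert.1 hh with e3 | e3
  · subst e3
    exact (mem_rem1.1 (g2 (e2.2 u (s hu) z (mem_sdiff.2 ⟨a1, fun hh =>
      (mem_insert.1 hh).elim n.symm b1⟩) e))).2.2 d1
  · exact (mem_sdiff.1 hz).2 e3

theorem wa {Q P : Finset V} {y : V} (hQ : Clq G k Q) (hQZ : Q ⊆ Z) (hP : Pd G k (Z \ Q) y P) :
    False := by
  have hk := h.hk
  have hPZ : P ⊆ Z := hP.sub.trans sdiff_subset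
  have hl : ∀ x ∈ P, ∀ z ∈ Z, G.Adj x z → z ∈ P ∨ z = y ∨ z ∈ Q := fun x hx z hz e => by
    by_cases e1 : z ∈ Q
    exacts [Or.inr (Or.inr e1), (hP.cl x hx z (mem_sdiff.2 ⟨hz, e1⟩) e).imp_right Or.inl]
  have key : ∀ d ∈ Q, ∀ q ∈ P, G.Adj q d → ∀ x ∈ P, x ≠ q → G.Adj x y := fun d hd q hq e x hx n =>
    (h.g1 (y := y) hP.clq hPZ (hQZ hd) (fun hh => (mem_sdiff.1 (hP.sub hh)).2 hd) hq e.symm
      (fun u hu z hz e => by
        rcases hl u hu z hz e with e1 | e1 | e1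
        · exact Or.inl e1
        · exact Or.inr (Or.inl e1)
        · by_cases e2 : z = d
          exacts [Or.inr (Or.inr (Or.inl e2)),
            Or.inr (Or.inr (Or.inr (hQ.2 d hd z e1 (Ne.symm e2))))]) x hx n).2
  have one : ∀ x ∈ P, ∃ q ∈ P, q ≠ x ∧ ∃ d ∈ Q, G.Adj q d := fun x hx => by
    by_contra hc
    push Not at hc
    refine h.eb hP.clq hPZ hx y fun q hq n z hz e => ?_
    rcases hl q hq z hz e with e1 | e1 | e1
    exacts [Or.inl e1, Or.inr e1, absurd e (hc q hq n z e1)]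
  obtain ⟨c, hc⟩ := clq_ne (by omega) hQ
  refine h.t1 hP.clq hPZ (mem_sdiff.1 hP.mem).1 hP.out (av_of_disj fun x hx hh => ?_) c
    fun y' P' hP' x hx _ a ha e => ?_
  · obtain ⟨q, hq, n, d, hd, e⟩ := one x hx
    exact (mem_rem1.1 hh).2.2 (key d hd q hq e x hx n.symm).symm
  · have := mem_sdiff.1 (hP'.sub hx)
    rw [mem_insert, not_or] at this
    refine hP'.clq_sub hQ.2 (fun u hu => mem_sdiff.2 ⟨hQZ hu, fun hh => ?_⟩)
      (((hl a ha x this.1 e.symm).resolve_left this.2.2).resolve_left this.2.1) hx hc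
    exact (mem_sdiff.1 (hP.ins_sub hh)).2 hu

theorem finW {Q : Finset V} (hQ : Clq G k Q) (hQZ : Q ⊆ Z) (D1 Y P : Finset V) (hY : Y ⊆ Z)
    (hne : Y.Nonempty) (hav : Av G k (rem G Z D1) Y) (hQY : ∀ q ∈ Q, q ∈ Y ∨ q ∈ P)
    (hs : ∀ x ∈ rem G Z D1, x ∉ Y → x ∉ P → ∀ a ∈ Y, a ∉ Q → ¬ G.Adj x a) :
    ∃ D' : Finset V, CF G k (rem G (rem G (Z \ Y) D1) D') ∧
      2 * Z.card + 3 ≤ (2 * k + 3) * D1.card + (2 * k + 3) * D'.card ∧
      (2 * k + 3) * D'.card + (((Z \ Y) \ rem G (Z \ Y) D1) \ D').card + 2 * Y.card ≤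
        2 * Z.card + 3 * P.card := by
  have hk := h.hk
  have h1 : ∀ x ∈ Z \ Y, x ∉ P → x ∈ Z \ Q := fun x hx e => mem_sdiff.2 ⟨(mem_sdiff.1 hx).1,
    fun hh => (hQY x hh).elim (mem_sdiff.1 hx).2 e⟩
  have h2 : ∀ x ∈ rem G Z D1, x ∈ Z \ Y → x ∉ P → ∀ z ∈ Z \ Q, G.Adj x z → z ∈ Z \ Y :=
    fun x a b c z hz e => mem_sdiff.2 ⟨(mem_sdiff.1 hz).1, fun hh =>
      hs x a (mem_sdiff.1 b).2 c z hh (mem_sdiff.1 hz).2 e⟩
  simpa using h.fin D1 Y ∅ ∅ P hY hne hav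
    (fun y A hA hs _ => by
      by_contra hc
      simp only [notMem_empty, false_or, not_exists, not_and] at hc
      exact h.wa hQ hQZ ⟨hA.clq, fun x hx => h1 x (hA.sub hx) (hc x (mem_insert_of_mem hx)),
        h1 y hA.mem (hc y (mem_insert_self _ _)), hA.out, fun x hx z hz e => hA.cl x hx z
          (h2 x (hs hx) (hA.sub hx) (hc x (mem_insert_of_mem hx)) z hz e) e, hA.adj⟩)
    fun O hO ho hs _ => Or.inl (by
      by_contra hc
      push Not at hc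
      exact h.wb hQ.2 hQZ (clq_ne (by omega) hQ) ⟨fun x hx => h1 x (hO.1 hx) (hc x hx),
        fun x hx z hz e => hO.2 x hx z (h2 x (hs hx) (hO.1 hx) (hc x hx) z hz e) e⟩ ho)

end CE

end Pool.Agent.IsoSharp

/-! In a smallest counterexample every clique is matched to independent links. -/

namespace Pool.Agent.IsoSharp

open Finset Pool.Agent.IsoKer
open scoped Classical

variable {V : Type*} {G : SimpleGraph V} {k : ℕ}

/-- Peeling with one spare unit on a clique. -/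
theorem peel {P A : Finset V} (hP : CF G k P) (hA : A ⊆ P) (hne : A.Nonempty)
    (hc : ∀ a ∈ A, ∀ b ∈ A, a ≠ b → G.Adj a b) : ∃ q ∈ A, ∀ T ⊆ P.erase q, T.Nonempty →
      ∃ x ∈ T, (nb G T x).card + 2 ≤ k ∧ (x ∈ A → (nb G T x).card + 3 ≤ k) := by
  induction hn : P.card using Nat.strong_induction_on generalizing P A with
  | _ n ih =>
  subst hn
  have low : ∀ T ⊆ P, T.Nonempty → ∃ x ∈ T, (nb G T x).card + 2 ≤ k := fun T hT h1 => by
    by_contra hh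
    push Not at hh
    exact hP T hT ⟨h1, fun t ht => by have := hh t ht; omega⟩
  obtain ⟨x, hx, hd⟩ := low P subset_rfl (hne.mono hA)
  rcases (A.erase x).eq_empty_or_nonempty with e | hne'
  · obtain ⟨q, hq⟩ := hne
    have hAq : ∀ a ∈ A, a = x := fun a ha => by_contra fun n =>
      notMem_empty a (e ▸ mem_erase.2 ⟨n, ha⟩)
    refine ⟨q, hq, fun T hT h1 => ?_⟩
    obtain ⟨y, hy, h2⟩ := low T (hT.trans (erase_subset _ _)) h1
    exact ⟨y, hy, h2, fun hh => absurd ((hAq y hh).trans (hAq q hq).symm)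
      (mem_erase.1 (hT hy)).1⟩
  · obtain ⟨q, hq, h1⟩ := ih _ (card_erase_lt_of_mem hx) (hP.mono (erase_subset x P))
      (erase_subset_erase x hA) hne'
      (fun a ha b hb => hc a (mem_of_mem_erase ha) b (mem_of_mem_erase hb)) rfl
    rw [mem_erase] at hq
    refine ⟨q, hq.2, fun T hT h2 => ?_⟩
    by_cases hxT : x ∈ T
    · have s : nb G T x ⊆ nb G P x := nb_mono (hT.trans (erase_subset _ _)) x
      refine ⟨x, hxT, by have := card_le_card s; omega, fun hxA => ?_⟩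
      have : (nb G T x).card < (nb G P x).card := card_lt_card ⟨s, fun hh =>
        notMem_erase q P (hT (mem_nb.1 (hh (mem_nb.2 ⟨hA hq.2, hc x hxA q hq.2 hq.1.symm⟩))).1)⟩
      omega
    · obtain ⟨y, hy, h3, h4⟩ := h1 T (fun t ht => mem_erase.2 ⟨(mem_erase.1 (hT ht)).1,
        mem_erase.2 ⟨fun e => hxT (e ▸ ht), (mem_erase.1 (hT ht)).2⟩⟩) h2
      exact ⟨y, hy, h3, fun hh => h4 (mem_erase.2 ⟨fun e => hxT (e ▸ hy), hh⟩)⟩

/-- The component of a link. -/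
structure Lk (G : SimpleGraph V) (k : ℕ) (Z Q : Finset V) (q m : V) (O : Finset V) : Prop where
  ob : Ob G k O
  nclq : ¬ Clq G k O
  out : m ∉ O
  sub : O ⊆ rem G Z {q}
  cl : Cl G (insert m O) (Z \ Q)
  adj : ∃ p ∈ O, G.Adj m p

theorem Lk.conn {Z Q O : Finset V} {q m : V} (l : Lk G k Z Q q m O) : Conn G (insert m O) := by
  obtain ⟨p, hp, a⟩ := l.adj
  exact conn_insert l.ob.conn hp a

namespace CE

variable {Z : Finset V} (h : CE G k Z)
include h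

theorem av_two {Q P : Finset V} (hQ : Clq G k Q) (hQZ : Q ⊆ Z) {q m y : V} (hq : q ∈ Q)
    (hqm : G.Adj q m) (hP : Pd G k (Z \ insert m Q) y P) :
    Av G k (rem G Z {q, m}) P := by
  have hk := h.hk
  have hPZ : P ⊆ Z := hP.sub.trans sdiff_subset
  have hout : ∀ x ∈ insert y P, x ∈ Z ∧ x ≠ m ∧ x ∉ Q := fun x hx => by
    simpa [not_or] using hP.ins_sub hx
  have hl : ∀ x ∈ P, ∀ z ∈ Z, G.Adj x z → z ∈ P ∨ z = y ∨ z = m ∨ z ∈ Q := fun x hx z hz e => by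
    by_cases e1 : z ∈ insert m Q
    exacts [Or.inr (Or.inr (mem_insert.1 e1)),
      (hP.cl x hx z (mem_sdiff.2 ⟨hz, e1⟩) e).imp_right Or.inl]
  obtain ⟨a, ha, ham⟩ : ∃ a ∈ P, G.Adj m a := by
    by_contra hc
    push Not at hc
    refine h.wa (y := y) hQ hQZ ⟨hP.clq, fun x hx => ?_, ?_, hP.out, fun x hx z hz e => ?_, hP.adj⟩
    · have := hout x (mem_insert_of_mem hx)
      exact mem_sdiff.2 ⟨this.1, this.2.2⟩
    · have := hout y (mem_insert_self _ _)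
      exact mem_sdiff.2 ⟨this.1, this.2.2⟩
    · rcases hl x hx z (mem_sdiff.1 hz).1 e with e1 | e1 | e1 | e1
      exacts [Or.inl e1, Or.inr e1, absurd (e1 ▸ e.symm) (hc x hx), absurd e1 (mem_sdiff.1 hz).2]
  have dq : ∀ z ∈ Q, z = q ∨ G.Adj q z := fun z hz => by
    by_cases e : z = q
    exacts [Or.inl e, Or.inr (hQ.2 q hq z hz (Ne.symm e))]
  intro T hT ht x hx hxP
  have hT' : ∀ z ∈ T, z ∈ Z ∧ (z ≠ q ∧ ¬ G.Adj q z) ∧ z ≠ m ∧ ¬ G.Adj m z := fun z hz => by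
    simpa using hT hz
  have haT : a ∉ T := fun e => (hT' a e).2.2.2 ham
  have hl' : ∀ u ∈ P, ∀ z ∈ T, G.Adj u z → z ∈ P ∨ z = y := fun u hu z hz e => by
    have := hT' z hz
    rcases hl u hu z this.1 e with e1 | e1 | e1 | e1
    exacts [Or.inl e1, Or.inr e1, absurd e1 this.2.2.1,
      ((dq z e1).elim this.2.1.1 this.2.1.2).elim]
  have hy : ∀ u ∈ P, u ≠ a → G.Adj u y := fun u hu n =>
    (core_clq ht hP.clq ha haT ((core_clq ht hP.clq ha haT hx hxP (hl' x hxP)).1 u hu n) hu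
      (hl' u hu)).2.2.2
  by_cases hc : (nb G Q a).card + 3 ≤ k
  · refine h.t1 hP.clq hPZ (hout y (mem_insert_self _ _)).1 hP.out
      (fun T' hT' ht' u hu huP => ?_) q fun y' P' hP' u hu _ c hc e => ?_
    · have one : ∀ z ∈ T', z ∈ P → z = a := fun z hz hzP => by_contra fun n =>
        (mem_rem1.1 (hT' hz)).2.2 (hy z hzP n).symm
      have e := one u hu huP
      subst e
      refine ht'.not_small (A := insert m (nb G Q u)) hu (fun z hz e => ?_)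
        (by have := card_insert_le m (nb G Q u); omega)
      rcases hl u huP z (rem_sub _ _ (hT' hz)) e with e1 | e1 | e1 | e1
      exacts [absurd (one z hz e1) e.ne.symm, absurd e1 (mem_rem1.1 (hT' hz)).2.1,
        mem_insert.2 (Or.inl e1), mem_insert_of_mem (mem_nb.2 ⟨e1, e⟩)]
    · have h1 := mem_sdiff.1 (hP'.sub hu)
      rw [mem_insert, not_or] at h1
      have hq' : q ∈ Z \ insert y P := mem_sdiff.2 ⟨hQZ hq, fun hh => (hout q hh).2.2 hq⟩
      have : u = q ∨ G.Adj q u := by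
        rcases hl c hc u h1.1 e.symm with e1 | e1 | e1 | e1
        exacts [absurd e1 h1.2.2, absurd e1 h1.2.1, Or.inr (e1 ▸ hqm), dq u e1]
      rcases this with e1 | e1
      exacts [mem_insert_of_mem (e1 ▸ hu), mem_insert.2 (hP'.cl u hu q hq' e1.symm).symm]
  · have hd : Disjoint P (nb G Q a) := disjoint_left.2 fun u hu hh =>
      (hout u (mem_insert_of_mem hu)).2.2 (mem_nb.1 hh).1
    obtain ⟨D', -, e1, e2⟩ := h.finW hQ hQZ {a} (P ∪ nb G Q a) (insert y (Q \ nb G Q a))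
      (union_subset hPZ ((nb_sub _ _).trans hQZ)) ⟨a, mem_union_left _ ha⟩
      (av_of_disj fun u hu hh => by
        rw [mem_rem1] at hh
        rcases mem_union.1 hu with e | e
        exacts [hh.2.2 (hP.clq.2 a ha u e hh.2.1.symm), hh.2.2 (mem_nb.1 e).2])
      (fun u hu => by
        by_cases e : u ∈ nb G Q a
        exacts [Or.inl (mem_union_right _ e), Or.inr (mem_insert_of_mem (mem_sdiff.2 ⟨hu, e⟩))])
      fun u hu h1 h2 c hc h3 e => by
        simp only [mem_union, mem_insert, mem_sdiff, not_or, not_and, not_not] at h1 h2 hc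
        rcases hl c (hc.resolve_right fun hh => h3 (mem_nb.1 hh).1) u (rem_sub _ _ hu) e.symm with
          e1 | e1 | e1 | e1
        exacts [h1.1 e1, h2.1 e1, (mem_rem1.1 hu).2.2 (e1 ▸ ham.symm), h1.2 (h2.2 e1)]
    have h1 := card_insert_le y (Q \ nb G Q a)
    have h2 := card_sdiff_add_card_eq_card (nb_sub (G := G) Q a)
    rw [card_union_of_disjoint hd, hP.clq.1] at e2
    rw [card_singleton] at e1
    have := hQ.1
    omega

theorem lk_ob {Q : Finset V} (hQ : Clq G k Q) (hQZ : Q ⊆ Z) {q m : V} (hq : q ∈ Q) (hm : m ∈ Z)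
    (hmQ : m ∉ Q) (hqm : G.Adj q m) :
    ∃ O, Cl G O (Z \ insert m Q) ∧ Ob G k O ∧ O ⊆ rem G Z {q} := by
  have hk := h.hk
  by_contra hO
  have hY : insert m Q ⊆ Z := insert_subset hm hQZ
  have hdom : ∀ D, q ∈ D → ∀ y ∈ insert m Q, y ∉ rem G Z D := fun D hD y hy hh => by
    have := (mem_rem.1 hh).2 q hD
    rcases mem_insert.1 hy with e | e
    exacts [this.2 (e ▸ hqm), this.2 (hQ.2 q hq y e this.1.symm)]
  obtain ⟨y1, Q1, y2, Q2, h1, s1, h2, s2, n⟩ : ∃ y1 Q1 y2 Q2, Pd G k (Z \ insert m Q) y1 Q1 ∧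
      Q1 ⊆ rem G Z {q} ∧ Pd G k (Z \ insert m Q) y2 Q2 ∧ Q2 ⊆ rem G Z {q} ∧
      y1 ∉ insert y2 Q2 := by
    by_contra hc
    obtain ⟨c, hc1⟩ : ∃ c, ∀ y P, Pd G k (Z \ insert m Q) y P → P ⊆ rem G Z {q} →
        c ∈ insert y P := by
      by_cases h : ∃ y P, Pd G k (Z \ insert m Q) y P ∧ P ⊆ rem G Z {q}
      · obtain ⟨y1, Q1, h1, h2⟩ := h
        exact ⟨y1, fun y Q h3 h4 => by_contra fun h5 => hc ⟨y1, Q1, y, Q, h1, h2, h3, h4, h5⟩⟩
      · exact ⟨m, fun y Q h3 h4 => absurd ⟨y, Q, h3, h4⟩ h⟩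
    have := h.fin0 {q} (insert m Q) {c} ∅ ∅ hY (insert_nonempty _ _)
      (av_of_disj (hdom _ (mem_singleton_self q)))
      (fun y P h1 h2 _ => ⟨c, hc1 y P h1 h2, Or.inl (mem_singleton_self c)⟩)
      fun O h1 h2 h3 _ => absurd ⟨O, h1, h2, h3⟩ hO
    rw [card_insert_of_notMem hmQ, hQ.1] at this
    simp at this
    omega
  have hd : Disjoint (insert m Q) (Q1 ∪ Q2) := disjoint_right.2 fun x hx =>
    (mem_sdiff.1 (union_subset h1.sub h2.sub hx)).2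
  obtain ⟨D', -, e1, e2⟩ := h.finW hQ hQZ {q, m} (insert m Q ∪ (Q1 ∪ Q2)) {y1, y2}
    (union_subset hY ((union_subset h1.sub h2.sub).trans sdiff_subset))
    ((insert_nonempty _ _).mono subset_union_left)
    ((av_of_disj (hdom _ (mem_insert_self _ _))).union
      ((h.av_two hQ hQZ hq hqm h1).union (h.av_two hQ hQZ hq hqm h2)))
    (fun x hx => Or.inl (mem_union_left _ (mem_insert_of_mem hx)))
    fun u hu a1 a2 c hc a3 e => by
      have hu' : u ∈ Z \ insert m Q :=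
        mem_sdiff.2 ⟨rem_sub _ _ hu, fun hh => a1 (mem_union_left _ hh)⟩
      simp only [mem_union, mem_insert, mem_singleton, not_or] at a1 a2 hc
      rcases hc with (hc | hc) | hc | hc
      exacts [((mem_rem.1 hu).2 m (by simp)).2 (hc ▸ e.symm), a3 hc,
        (h1.cl c hc u hu' e.symm).elim a1.2.1 a2.1, (h2.cl c hc u hu' e.symm).elim a1.2.2 a2.2]
  rw [card_union_of_disjoint hd, card_union_of_disjoint (h1.disj h2 n), card_insert_of_notMem hmQ,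
    hQ.1, h1.clq.1, h2.clq.1] at e2
  have := Nat.mul_le_mul_left (2 * k + 3) (card_le_two (a := q) (b := m))
  have := card_le_two (a := y1) (b := y2)
  omega

theorem lk {Q : Finset V} (hQ : Clq G k Q) (hQZ : Q ⊆ Z) {q m : V} (hq : q ∈ Q) (hm : m ∈ Z)
    (hmQ : m ∉ Q) (hqm : G.Adj q m) : ∃ O, Lk G k Z Q q m O := by
  have hk := h.hk
  obtain ⟨O, hO, ho, hs⟩ := h.lk_ob hQ hQZ hq hm hmQ hqm
  have hout : ∀ x ∈ O, x ∈ Z ∧ x ≠ m ∧ x ∉ Q := fun x hx => by simpa [not_or] using hO.1 hx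
  have hmO : m ∉ O := fun e => (hout m e).2.1 rfl
  have hOZ : O ⊆ Z := fun x hx => (hout x hx).1
  have hl : ∀ x ∈ O, ∀ z ∈ Z, G.Adj x z → z ∈ O ∨ z = m ∨ z ∈ Q := fun x hx z hz e => by
    by_cases e1 : z ∈ insert m Q
    exacts [Or.inr (mem_insert.1 e1), Or.inl (hO.2 x hx z (mem_sdiff.2 ⟨hz, e1⟩) e)]
  have hOW : O ⊆ Z \ Q := fun x hx => mem_sdiff.2 ⟨(hout x hx).1, (hout x hx).2.2⟩
  have hl' : ∀ x ∈ O, ∀ z ∈ Z \ Q, G.Adj x z → z ∈ O ∨ z = m := fun x hx z hz e => by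
    have := hl x hx z (mem_sdiff.1 hz).1 e
    have := (mem_sdiff.1 hz).2
    tauto
  obtain ⟨p, hp, a⟩ : ∃ p ∈ O, G.Adj m p := by
    by_contra hc
    push Not at hc
    exact h.wb hQ.2 hQZ ⟨q, hq⟩ ⟨hOW, fun x hx z hz e => (hl' x hx z hz e).resolve_right
      fun e1 => hc x hx (e1 ▸ e.symm)⟩ ho
  have nq : ¬ Clq G k O := fun hc =>
    h.wa hQ hQZ ⟨hc, hOW, mem_sdiff.2 ⟨hm, hmQ⟩, hmO, hl', p, hp, a⟩
  refine ⟨O, ho, nq, hmO, hs, ⟨insert_subset (mem_sdiff.2 ⟨hm, hmQ⟩) hOW, fun x hx z hz e => ?_⟩,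
    p, hp, a⟩
  rcases mem_insert.1 hx with e1 | e1
  swap
  · exact mem_insert.2 (hl' x e1 z hz e).symm
  subst e1
  by_contra hzO
  obtain ⟨D, d1, d2⟩ := h.hit2 ho nq hOZ hm hmO hp
  have hd : Disjoint (insert x Q) O := disjoint_right.2 fun u hu => (mem_sdiff.1 (hO.1 hu)).2
  have hdom : ∀ D c, c ∈ Q → c ∈ D → ∀ y ∈ Q, y ∉ rem G Z D := fun D c hc hD y hy hh => by
    have := (mem_rem.1 hh).2 c hD
    exact this.2 (hQ.2 c hc y hy this.1.symm)
  obtain ⟨D', e1, e2, e3⟩ := h.finW hQ hQZ (insert q (insert x D)) (insert x Q ∪ O) ∅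
    (union_subset (insert_subset hm hQZ) hOZ) ((insert_nonempty _ _).mono subset_union_left)
    (((av_of_disj (hdom _ q hq (mem_insert_self _ _))).insert (by simp)).union
      (av_hit d1 ((subset_insert _ _).trans (subset_insert _ _))
        (mem_insert_of_mem (mem_insert_self _ _)) a fun u hu w hw e => by
          rcases hl u hu w (rem_sub _ _ hw) e with e1 | e1 | e1
          exacts [e1, absurd e1 ((mem_rem.1 hw).2 x (by simp)).1,
            absurd hw (hdom _ q hq (mem_insert_self _ _) w e1)]))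
    (fun u hu => Or.inl (mem_union_left _ (mem_insert_of_mem hu)))
    fun u hu a1 _ c hc a3 e => by
      simp only [mem_union, mem_insert, not_or] at a1 hc
      rcases hc with (hc | hc) | hc
      · exact ((mem_rem.1 hu).2 x (by simp)).2 (hc ▸ e.symm)
      · exact a3 hc
      · have := hl c hc u (rem_sub _ _ hu) e.symm
        tauto
  have f1 := mul_insert (2 * k + 3) q (insert x D)
  have f2 := mul_insert (2 * k + 3) x D
  rw [card_union_of_disjoint hd, card_insert_of_notMem hmQ, hQ.1, card_empty] at e3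
  have hM : ∀ u ∈ Z, u ∉ insert x Q ∪ O → u ∉ D' →
      u ∈ rem G (Z \ (insert x Q ∪ O)) (insert q (insert x D)) := fun u h1 h2 h3 => by
    by_contra h4
    have := card_pos.2 ⟨u, mem_sdiff.2 ⟨mem_sdiff.2 ⟨mem_sdiff.2 ⟨h1, h2⟩, h4⟩, h3⟩⟩
    omega
  have hzD : z ∈ D' := by_contra fun hh => ((mem_rem.1 (hM z (mem_sdiff.1 hz).1 (by
    have := (mem_sdiff.1 hz).2
    simp only [mem_union, mem_insert, not_or] at hzO ⊢
    tauto) hh)).2 x (by simp)).2 e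
  obtain ⟨p', hp', l, hlQ, a'⟩ : ∃ p' ∈ O, ∃ l ∈ Q, G.Adj p' l := by
    by_contra hc
    push Not at hc
    exact h.sat hm hOZ hmO ho fun u hu w hw e => by
      rcases hl u hu w hw e with e1 | e1 | e1
      exacts [Or.inl e1, Or.inr e1, absurd e (hc u hu w e1)]
  obtain ⟨E, g1, g2⟩ := h.hit2 ho nq hOZ hm hmO hp'
  have hx' : x ∉ rem G Z (insert l E ∪ D') := fun hh =>
    ((mem_rem.1 hh).2 z (mem_union_right _ hzD)).2 e.symm
  have hl0 : l ∈ insert l E ∪ D' := mem_union_left _ (mem_insert_self _ _)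
  have := h.big (insert l E ∪ D') (Av.cf (Y := insert x Q ∪ O)
    (((av_of_disj (hdom _ l hlQ hl0)).insert hx').union
      (av_hit g1 ((subset_insert _ _).trans subset_union_left) hl0 a'.symm fun u hu w hw e => by
        rcases hl u hu w (rem_sub _ _ hw) e with e1 | e1 | e1
        exacts [e1, absurd (e1 ▸ hw) hx', absurd hw (hdom _ l hlQ hl0 w e1)])) e1
    fun u hu hY => mem_rem.2 ⟨hM u (rem_sub _ _ hu) hY fun hh =>
      ((mem_rem.1 hu).2 u (mem_union_right _ hh)).1 rfl,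
      fun d hd => (mem_rem.1 hu).2 d (mem_union_right _ hd)⟩)
  have f3 := mul_union (2 * k + 3) (insert l E) D'
  have f4 := mul_insert (2 * k + 3) l E
  omega

theorem lk_all {Q O : Finset V} (hQ : Clq G k Q) (hQZ : Q ⊆ Z) {q m : V} (hq : q ∈ Q)
    (hqm : G.Adj q m) (l : Lk G k Z Q q m O) : insert m O = Z \ Q := by
  have hk := h.hk
  by_contra hne
  set W := insert m O with hW
  have hWZ : W ⊆ Z := l.cl.1.trans sdiff_subset
  have hQW : ∀ x ∈ Q, x ∉ W := fun x hx hh => (mem_sdiff.1 (l.cl.1 hh)).2 hx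
  have hQ' : Q ⊆ Z \ W := fun x hx => mem_sdiff.2 ⟨hQZ hx, hQW x hx⟩
  have hna : ∀ x ∈ Z \ W, x ∉ Q → ∀ w ∈ W, ¬ G.Adj x w := fun x hx n w hw e =>
    (mem_sdiff.1 hx).2 (l.cl.2 w hw x (mem_sdiff.2 ⟨(mem_sdiff.1 hx).1, n⟩) e.symm)
  have hmW : m ∈ W := mem_insert_self _ _
  have c0 : ∀ T, Cl G T (Z \ W) → (∀ x ∈ T, x ∉ Q) → T = ∅ := fun T hT hn => by
    by_contra hh
    have := h.conn T (cl_up hT fun x hx => hna x (hT.1 hx) (hn x hx)) (nonempty_iff_ne_empty.2 hh)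
    exact hn q (this ▸ hQZ hq) hq
  have c1 : Conn G (Z \ W) := fun T hT hne => by
    obtain ⟨x, hx, hxQ⟩ : ∃ x ∈ T, x ∈ Q := by
      by_contra hh
      push Not at hh
      exact hne.ne_empty (c0 T hT hh)
    have s := conn_sub_cl (clq_conn hQ.2) hQ' hT hxQ hx
    exact Subset.antisymm hT.1 (sdiff_eq_empty_iff_subset.1
      (c0 _ hT.sdiff fun y hy hh => (mem_sdiff.1 hy).2 (s hh)))
  obtain ⟨z, hz, hzW⟩ : ∃ z ∈ Z \ Q, z ∉ W := by
    by_contra hh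
    push Not at hh
    exact hne (Subset.antisymm l.cl.1 hh)
  have hz' : z ∈ Z \ W := mem_sdiff.2 ⟨(mem_sdiff.1 hz).1, hzW⟩
  have c2 : ¬ Clq G k (Z \ W) := fun hc => (mem_sdiff.1 hz).2
    (eq_of_subset_of_card_le hQ' (by rw [hc.1, hQ.1]) ▸ hz')
  have c3 : UF G k (Z \ W) := fun y P hP => by
    obtain ⟨x, hx, hxQ⟩ : ∃ x ∈ P, x ∈ Q := by
      by_contra hh
      push Not at hh
      exact h.uf y P (hP.up fun x hx => hna x (hP.sub hx) (hh x hx))
    have s := hP.clq_sub hQ.2 hQ' hxQ hx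
    obtain ⟨q1, h1, m1, h2, h3, a1⟩ := c1.exists_edge hQ' ⟨q, hq⟩ hz' (mem_sdiff.1 hz).2
    obtain ⟨O1, l1⟩ := h.lk hQ hQZ h1 (mem_sdiff.1 h2).1 h3 a1
    have hO1 : ∀ u ∈ insert m1 O1, u ∈ Z \ W ∧ u ∉ Q := fun u hu => by
      have := mem_sdiff.1 (l1.cl.1 hu)
      exact ⟨mem_sdiff.2 ⟨this.1, fun hh => (mem_sdiff.1 h2).2
        (conn_sub_cl l1.conn l1.cl.1 l.cl hu hh (mem_insert_self _ _))⟩, this.2⟩
    have hO1Z : O1 ⊆ Z := l1.sub.trans (rem_sub _ _)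
    obtain ⟨p1, hp1, q2, h4, a2⟩ : ∃ p ∈ O1, ∃ c ∈ Q, G.Adj p c := by
      by_contra hc
      push Not at hc
      exact h.sat (mem_sdiff.1 h2).1 hO1Z l1.out l1.ob fun u hu w hw e => (mem_insert.1
        (l1.cl.2 u (mem_insert_of_mem hu) w (mem_sdiff.2 ⟨hw, fun hh => hc u hu w hh e⟩) e)).symm
    have uq : ∀ u ∈ insert y P, ∀ u' ∈ insert y P, u ∉ Q → u' ∉ Q → u = u' := by
      intro u hu u' hu' n n'
      have := card_sdiff_add_card_eq_card s
      rw [hP.card, hQ.1] at this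
      exact card_le_one.1 (show (insert y P \ Q).card ≤ 1 by omega) u (mem_sdiff.2 ⟨hu, n⟩) u'
        (mem_sdiff.2 ⟨hu', n'⟩)
    have up : ∀ c ∈ P, ∀ u ∈ insert m1 O1, G.Adj c u → u ∈ insert y P := fun c hc u hu e =>
      mem_insert.2 (hP.cl c hc u (hO1 u hu).1 e).symm
    have key : y ∈ Q → ∀ c ∈ Q, c ≠ y → ∀ u ∈ insert m1 O1, ∀ u' ∈ insert m1 O1, G.Adj c u →
        G.Adj u u' → False := fun hy c hc n u hu u' hu' e e' => by
      have h5 := up c ((mem_insert.1 (s hc)).resolve_left n) u hu e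
      exact e'.ne (uq u h5 u' (up u ((mem_insert.1 h5).resolve_left
        fun e1 => (hO1 u hu).2 (e1 ▸ hy)) u' hu' e') (hO1 u hu).2 (hO1 u' hu').2)
    have m0 : m1 ∈ insert m1 O1 := mem_insert_self _ _
    by_cases hy : y ∈ Q
    · obtain ⟨p0, hp0, a0⟩ := l1.adj
      obtain ⟨p2, hp2⟩ : (nb G O1 p1).Nonempty :=
        card_pos.1 (by have := h.ob_deg l1.ob hO1Z hp1; omega)
      rw [mem_nb] at hp2
      have e1 : q1 = y := by_contra fun n => key hy q1 h1 n m1 m0 p0 (mem_insert_of_mem hp0) a1 a0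
      have e2 : q2 = y := by_contra fun n => key hy q2 h4 n p1 (mem_insert_of_mem hp1) p2
        (mem_insert_of_mem hp2.1) a2.symm hp2.2
      exact (mem_rem1.1 (l1.sub hp1)).2.2 (e1 ▸ e2 ▸ a2.symm)
    · have sP : ∀ c ∈ Q, c ∈ P := fun c hc => (mem_insert.1 (s hc)).resolve_left
        fun e => hy (e ▸ hc)
      exact l1.out (uq p1 (up q2 (sP q2 h4) p1 (mem_insert_of_mem hp1) a2.symm) m1
        (up q1 (sP q1 h1) m1 m0 a1) (hO1 p1 (mem_insert_of_mem hp1)).2 h3 ▸ hp1)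
  obtain ⟨D', d1, d2⟩ := h.bb (Z \ W) sdiff_subset
    (fun e => (mem_sdiff.1 (e.symm ▸ hWZ hmW : m ∈ Z \ W)).2 hmW) c1 c3 c2
  have same : ∀ a ∈ Q, ∀ w ∈ W, G.Adj a w → ∃ O', Lk G k Z Q a w O' ∧ W = insert w O' :=
    fun a ha w hw e => by
      have := mem_sdiff.1 (l.cl.1 hw)
      obtain ⟨O', l'⟩ := h.lk hQ hQZ ha this.1 this.2 e
      exact ⟨O', l', conn_eq_cl l.conn l'.conn l.cl l'.cl hw (mem_insert_self _ _)⟩
  set A := (rem G (Z \ W) D').filter fun a => a ∈ Q ∧ ∃ w ∈ W, G.Adj a w with hA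
  obtain ⟨q0, m0, O0, a0, l0, e0, hp⟩ : ∃ q0 m0 O0, G.Adj q0 m0 ∧ Lk G k Z Q q0 m0 O0 ∧
      W = insert m0 O0 ∧ ∀ T ⊆ (rem G (Z \ W) D').erase q0, T.Nonempty →
        ∃ x ∈ T, (nb G T x).card + 2 ≤ k ∧ (x ∈ A → (nb G T x).card + 3 ≤ k) := by
    rcases A.eq_empty_or_nonempty with e | hne
    · refine ⟨q, m, O, hqm, l, rfl, fun T hT h1 => ?_⟩
      by_contra hh
      push Not at hh
      refine d1 T (hT.trans (erase_subset _ _)) ⟨h1, fun t ht => by_contra fun h2 => ?_⟩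
      exact notMem_empty t (e ▸ (hh t ht (by omega)).1)
    · obtain ⟨q0, h0, hp⟩ := peel d1 (filter_subset _ _) hne fun a ha b hb =>
        hQ.2 a (mem_filter.1 ha).2.1 b (mem_filter.1 hb).2.1
      obtain ⟨-, h1, w, hw, e⟩ := mem_filter.1 h0
      obtain ⟨O', l', e'⟩ := same q0 h1 w hw e
      exact ⟨q0, w, O', e, l', e', hp⟩
  obtain ⟨p, hp0, a1⟩ := l0.adj
  obtain ⟨E, g1, g2⟩ := h.hit2 l0.ob l0.nclq (l0.sub.trans (rem_sub _ _))
    (hWZ (e0 ▸ mem_insert_self _ _)) l0.out hp0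
  have hm0 : m0 ∈ D' ∪ insert m0 E := mem_union_right _ (mem_insert_self _ _)
  have := h.big (D' ∪ insert m0 E) fun T hT ht => by
    have hT' : ∀ x ∈ T, x ∈ Z ∧ ∀ d ∈ D' ∪ insert m0 E, x ≠ d ∧ ¬ G.Adj d x :=
      fun x hx => mem_rem.1 (hT hx)
    rcases (T \ W).eq_empty_or_nonempty with e | hne
    · refine g1 T (fun x hx => mem_rem.2 ⟨mem_erase.2 ⟨fun e1 => ((hT' x hx).2 m0 hm0).2 (e1 ▸ a1),
        (mem_insert.1 (e0 ▸ sdiff_eq_empty_iff_subset.1 e hx)).resolve_left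
          ((hT' x hx).2 m0 hm0).1⟩, fun d hd =>
          (hT' x hx).2 d (mem_union_right _ (mem_insert_of_mem hd))⟩) ht
    · have s : T \ W ⊆ rem G (Z \ W) D' := fun x hx => by
        rw [mem_sdiff] at hx
        exact mem_rem.2 ⟨mem_sdiff.2 ⟨(hT' x hx.1).1, hx.2⟩,
          fun d hd => (hT' x hx.1).2 d (mem_union_left _ hd)⟩
      obtain ⟨x, hx, i1, i2⟩ := hp (T \ W) (fun x hx => mem_erase.2 ⟨fun e1 =>
        ((hT' x (mem_sdiff.1 hx).1).2 m0 hm0).2 (e1 ▸ a0.symm), s hx⟩) hne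
      by_cases hw : ∃ w ∈ W, G.Adj x w
      · obtain ⟨w, hw, e⟩ := hw
        have hxQ : x ∈ Q := by_contra fun n => hna x (rem_sub _ _ (s hx)) n w hw e
        obtain ⟨O', l', e'⟩ := same x hxQ w hw e
        have := i2 (mem_filter.2 ⟨s hx, hxQ, w, hw, e⟩)
        refine ht.not_small (A := insert w (nb G (T \ W) x)) (mem_sdiff.1 hx).1 (fun u hu e1 => ?_)
          (by have := card_insert_le w (nb G (T \ W) x); omega)
        by_cases e2 : u ∈ W
        · exact mem_insert.2 (Or.inl ((mem_insert.1 (e' ▸ e2)).resolve_right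
            fun hh => (mem_rem1.1 (l'.sub hh)).2.2 e1))
        · exact mem_insert_of_mem (mem_nb.2 ⟨mem_sdiff.2 ⟨hu, e2⟩, e1⟩)
      · exact ht.not_small (mem_sdiff.1 hx).1 (fun u hu e1 =>
          mem_nb.2 ⟨mem_sdiff.2 ⟨hu, fun hh => hw ⟨u, hh, e1⟩⟩, e1⟩) i1
  have f1 := mul_union (2 * k + 3) D' (insert m0 E)
  have f2 := mul_insert (2 * k + 3) m0 E
  have f3 := card_sdiff_add_card_eq_card hWZ
  have f4 : W.card = O0.card + 1 := by rw [e0, card_insert_of_notMem l0.out]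
  omega

end CE

end Pool.Agent.IsoSharp

/-! The matching of cliques to links, and sets without a move. -/

namespace Pool.Agent.IsoSharp

open Finset Pool.Agent.IsoKer
open scoped Classical

variable {V : Type*} {G : SimpleGraph V} {k : ℕ}

/-- Every vertex `q` of a clique has the single outside neighbour `F q`. -/
structure PM (G : SimpleGraph V) (k : ℕ) (Z Q : Finset V) (F : V → V) : Prop where
  mem : ∀ q ∈ Q, F q ∈ Z
  out : ∀ q ∈ Q, F q ∉ Q
  adj : ∀ q ∈ Q, G.Adj q (F q)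
  uniq : ∀ q ∈ Q, ∀ z ∈ Z, G.Adj q z → z ∈ Q ∨ z = F q
  inj : ∀ q ∈ Q, ∀ q' ∈ Q, F q = F q' → q = q'
  ind : ∀ q ∈ Q, ∀ q' ∈ Q, ¬ G.Adj (F q) (F q')
  deg : ∀ q ∈ Q, k ≤ (nb G Z (F q)).card
  com : ∀ q ∈ Q, ∀ q' ∈ Q, q ≠ q' → k ≤ (nb G Z (F q') \ nb G Z (F q)).card + 1

namespace CE

variable {Z : Finset V} (h : CE G k Z)
include h

theorem pm1 {Q : Finset V} (hQ : Clq G k Q) (hQZ : Q ⊆ Z) : ∃ F, PM G k Z Q F := by
  have hk := h.hk
  have st : ∀ q ∈ Q, ∀ m ∈ Z, m ∉ Q → G.Adj q m →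
      ∃ O, Lk G k Z Q q m O ∧ insert m O = Z \ Q := fun q hq m hm n a => by
    obtain ⟨O, l⟩ := h.lk hQ hQZ hq hm n a
    exact ⟨O, l, h.lk_all hQ hQZ hq a l⟩
  have uniq : ∀ q ∈ Q, ∀ m ∈ Z, m ∉ Q → G.Adj q m → ∀ z ∈ Z, G.Adj q z → z ∈ Q ∨ z = m :=
    fun q hq m hm n a z hz e => by
      obtain ⟨O, l, e1⟩ := st q hq m hm n a
      by_cases e2 : z ∈ Q
      · exact Or.inl e2
      · exact Or.inr ((mem_insert.1 (e1.symm ▸ mem_sdiff.2 ⟨hz, e2⟩)).resolve_right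
          fun hh => (mem_rem1.1 (l.sub hh)).2.2 e)
  have core : ∀ q ∈ Q, ∀ m ∈ Z, m ∉ Q → G.Adj q m → ∃ T ⊆ rem G Z {m}, Core G k T ∧
      ∀ x ∈ Q, x ≠ q → x ∈ T ∧ ∃ y ∈ T, y ∉ Q ∧ G.Adj x y := fun q hq m hm n a => by
    obtain ⟨O, l, e1⟩ := st q hq m hm n a
    obtain ⟨p, hp, a1⟩ := l.adj
    obtain ⟨E, g1, g2⟩ := h.hit2 l.ob l.nclq (l.sub.trans (rem_sub _ _)) hm l.out hp
    obtain ⟨T, hT, ht⟩ : ∃ T ⊆ rem G Z (insert m E), Core G k T := by
      by_contra hc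
      push Not at hc
      have := h.big _ hc
      have := mul_insert (2 * k + 3) m E
      have := card_le_card (l.sub.trans (rem_sub _ _))
      omega
    have hT' : ∀ x ∈ T, x ∈ Z ∧ x ≠ m ∧ ¬ G.Adj m x := fun x hx =>
      ⟨rem_sub _ _ (hT hx), (mem_rem.1 (hT hx)).2 m (mem_insert_self _ _)⟩
    obtain ⟨x0, h0, h1⟩ : ∃ x ∈ T, x ∈ Q := by
      by_contra hc
      push Not at hc
      exact g1 T (fun x hx => mem_rem.2 ⟨mem_erase.2 ⟨fun e => (hT' x hx).2.2 (e ▸ a1),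
        (mem_insert.1 (e1.symm ▸ mem_sdiff.2 ⟨(hT' x hx).1, hc x hx⟩)).resolve_left
          (hT' x hx).2.1⟩, fun d hd => (mem_rem.1 (hT hx)).2 d (mem_insert_of_mem hd)⟩) ht
    have hqT : q ∉ T := fun e => (hT' q e).2.2 a.symm
    have ex : ∀ x ∈ Q, ∃ y, ∀ z ∈ T, G.Adj x z → z ∈ Q ∨ z = y := fun x hx => by
      by_cases hc : ∃ y ∈ Z, y ∉ Q ∧ G.Adj x y
      · obtain ⟨y, h2, h3, h4⟩ := hc
        exact ⟨y, fun z hz => uniq x hx y h2 h3 h4 z (hT' z hz).1⟩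
      · exact ⟨x, fun z hz e => Or.inl (by_contra fun n => hc ⟨z, (hT' z hz).1, n, e⟩)⟩
    obtain ⟨y0, h2⟩ := ex x0 h1
    refine ⟨T, fun x hx => mem_rem1.2 (hT' x hx), ht, fun x hx n => ?_⟩
    have h3 := (core_clq ht hQ hq hqT h0 h1 h2).1 x hx n
    obtain ⟨y, h4⟩ := ex x hx
    exact ⟨h3, y, (core_clq ht hQ hq hqT h3 hx h4).2⟩
  have ex : ∀ x ∈ Q, ∃ y ∈ Z, y ∉ Q ∧ G.Adj x y := fun x hx => by
    obtain ⟨q, hq, m, hm, n, a⟩ := h.link hQ hQZ
    by_cases e : x = q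
    · exact ⟨m, hm, n, e ▸ a⟩
    · obtain ⟨T, hT, -, h1⟩ := core q hq m hm n a
      obtain ⟨-, y, h2, h3⟩ := h1 x hx e
      exact ⟨y, rem_sub _ _ (hT h2), h3⟩
  choose! F f1 f2 f3 using ex
  have core' : ∀ q ∈ Q, ∃ T ⊆ rem G Z {F q}, Core G k T ∧ ∀ x ∈ Q, x ≠ q → x ∈ T ∧ F x ∈ T :=
    fun q hq => by
      obtain ⟨T, hT, ht, h1⟩ := core q hq _ (f1 q hq) (f2 q hq) (f3 q hq)
      refine ⟨T, hT, ht, fun x hx n => ?_⟩
      obtain ⟨h2, y, h3, h4, h5⟩ := h1 x hx n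
      exact ⟨h2, (uniq x hx _ (f1 x hx) (f2 x hx) (f3 x hx) y (rem_sub _ _ (hT h3))
        h5).resolve_left h4 ▸ h3⟩
  have inj : ∀ q ∈ Q, ∀ q' ∈ Q, F q = F q' → q = q' := fun q hq q' hq' e => by_contra fun n => by
    obtain ⟨T, hT, -, h1⟩ := core' q hq
    exact (mem_rem1.1 (hT (h1 q' hq' (Ne.symm n)).2)).2.1 e.symm
  refine ⟨F, f1, f2, f3, fun q hq => uniq q hq _ (f1 q hq) (f2 q hq) (f3 q hq), inj,
    fun q hq q' hq' a => ?_, fun q hq => ?_, fun q hq q' hq' n => ?_⟩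
  · obtain ⟨T, hT, -, h1⟩ := core' q hq
    exact (mem_rem1.1 (hT (h1 q' hq' fun e => a.ne (by rw [e])).2)).2.2 a
  · obtain ⟨q', hq', n⟩ := exists_mem_ne (s := Q) (by rw [hQ.1]; omega) q
    obtain ⟨O, l, e1⟩ := st q' hq' _ (f1 q' hq') (f2 q' hq') (f3 q' hq')
    have h1 : F q ∈ O := (mem_insert.1 (e1.symm ▸ mem_sdiff.2 ⟨f1 q hq, f2 q hq⟩)).resolve_left
      fun e => n (inj q hq q' hq' e).symm
    have hO := l.sub.trans (rem_sub _ _)
    have h2 := h.ob_deg l.ob hO h1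
    have : (nb G O (F q)).card < (nb G Z (F q)).card := card_lt_card ⟨nb_mono hO _, fun hh =>
      (mem_sdiff.1 (e1 ▸ mem_insert_of_mem (mem_nb.1 (hh (mem_nb.2
        ⟨hQZ hq, (f3 q hq).symm⟩))).1 : q ∈ Z \ Q)).2 hq⟩
    omega
  · obtain ⟨T, hT, ht, h1⟩ := core' q hq
    refine (ht.2 _ (h1 q' hq' n.symm).2).trans (Nat.succ_le_succ (card_le_card fun z hz => ?_))
    rw [mem_nb] at hz
    have := mem_rem1.1 (hT hz.1)
    exact mem_sdiff.2 ⟨mem_nb.2 ⟨this.1, hz.2⟩, fun hh => this.2.2 (mem_nb.1 hh).2⟩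

theorem clq_eq {Q Q' : Finset V} (hQ : Clq G k Q) (hQZ : Q ⊆ Z) (hQ' : Clq G k Q') (hQZ' : Q' ⊆ Z)
    {x : V} (hx : x ∈ Q) (hx' : x ∈ Q') : Q' = Q := by
  have hk := h.hk
  obtain ⟨F, p⟩ := h.pm1 hQ hQZ
  refine eq_of_subset_of_card_le (fun z hz => by_contra fun n => ?_) (by rw [hQ.1, hQ'.1])
  have nx : x ≠ z := fun e => n (e ▸ hx)
  have e1 := (p.uniq x hx z (hQZ' hz) (hQ'.2 x hx' z hz nx)).resolve_left n
  obtain ⟨u, hu, h1⟩ := exists_mem_notMem_of_card_lt_card (s := {x, z}) (t := Q')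
    (by have := card_le_two (a := x) (b := z); rw [hQ'.1]; omega)
  simp only [mem_insert, mem_singleton, not_or] at h1
  have h2 := (p.uniq x hx u (hQZ' hu) (hQ'.2 x hx' u hu (Ne.symm h1.1))).resolve_right
    fun e => h1.2 (e.trans e1.symm)
  exact h1.1 (p.inj u h2 x hx (((p.uniq u h2 z (hQZ' hz) (hQ'.2 u hu z hz h1.2)).resolve_left
    n).symm.trans e1))

theorem pm : ∃ F, ∀ Q, Clq G k Q → Q ⊆ Z → PM G k Z Q F := by
  have := fun Q (h1 : Clq G k Q ∧ Q ⊆ Z) => h.pm1 h1.1 h1.2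
  choose F0 hF using this
  let F : V → V := fun x =>
    if e : ∃ Q, (Clq G k Q ∧ Q ⊆ Z) ∧ x ∈ Q then F0 e.choose e.choose_spec.1 x else x
  refine ⟨F, fun Q h1 h2 => ?_⟩
  have e : ∀ x ∈ Q, F x = F0 Q ⟨h1, h2⟩ x := fun x hx => by
    have e : ∃ Q, (Clq G k Q ∧ Q ⊆ Z) ∧ x ∈ Q := ⟨Q, ⟨h1, h2⟩, hx⟩
    have e1 := h.clq_eq h1 h2 e.choose_spec.1.1 e.choose_spec.1.2 hx e.choose_spec.2
    simp only [F, dif_pos e]
    congr 1
  have p := hF Q ⟨h1, h2⟩
  exact ⟨fun q hq => e q hq ▸ p.mem q hq, fun q hq => e q hq ▸ p.out q hq,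
    fun q hq => e q hq ▸ p.adj q hq, fun q hq => e q hq ▸ p.uniq q hq,
    fun q hq q' hq' => e q hq ▸ e q' hq' ▸ p.inj q hq q' hq',
    fun q hq q' hq' => e q hq ▸ e q' hq' ▸ p.ind q hq q' hq', fun q hq => e q hq ▸ p.deg q hq,
    fun q hq q' hq' => e q hq ▸ e q' hq' ▸ p.com q hq q' hq'⟩

end CE

end Pool.Agent.IsoSharp

/-! Moves: cheap ways of removing many vertices, and sets without a move. -/

namespace Pool.Agent.IsoSharp

open Finset Pool.Agent.IsoKer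
open scoped Classical

variable {V : Type*} {G : SimpleGraph V} {k : ℕ}

/-- The closed neighbourhood inside `Z`. -/
noncomputable def cn (G : SimpleGraph V) (Z : Finset V) (v : V) : Finset V :=
  insert v (nb G Z v)

theorem mem_cn {Z : Finset V} {v x : V} : x ∈ cn G Z v ↔ x = v ∨ (x ∈ Z ∧ G.Adj v x) := by
  simp [cn]

theorem cn_card (Z : Finset V) (v : V) : (cn G Z v).card = (nb G Z v).card + 1 :=
  card_insert_of_notMem (not_mem_nb_self Z v)

theorem cn_sub {Z : Finset V} {v : V} (hv : v ∈ Z) : cn G Z v ⊆ Z :=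
  insert_subset hv (nb_sub _ _)

theorem mem_rem2 {U : Finset V} {a b x : V} : x ∈ rem G U {a, b} ↔
    x ∈ U ∧ (x ≠ a ∧ ¬ G.Adj a x) ∧ x ≠ b ∧ ¬ G.Adj b x := by simp

/-- One vertex removes `k + 2` vertices. -/
structure J1 (G : SimpleGraph V) (k : ℕ) (Z : Finset V) (v : V) (Y : Finset V) : Prop where
  sub : Y ⊆ Z
  mem : v ∈ Y
  card : Y.card = k + 2
  av : Av G k (rem G Z {v}) Y
  dom : ∃ t, ∀ y ∈ Y, y = v ∨ y = t ∨ G.Adj v y

/-- Two vertices remove `2 k + 3` vertices. -/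
structure J2 (G : SimpleGraph V) (k : ℕ) (Z : Finset V) (v v' : V) (T : Finset V) : Prop where
  hv : v ∈ Z
  hv' : v' ∈ Z
  dv : (nb G Z v).card = k
  dv' : (nb G Z v').card = k
  ne : v ≠ v'
  na : ¬ G.Adj v v'
  sub : T ⊆ rem G Z {v, v'}
  c1 : (nb G Z v ∩ nb G Z v').card ≤ 1
  cT : T.card = (nb G Z v ∩ nb G Z v').card + 1
  dT : ∀ t ∈ T, (nb G Z t).card ≤ k
  pT : ∀ t ∈ T, (nb G (rem G Z {v, v'}) t).card + 2 ≤ k

/-- A move removing `Y`, of the first kind if `j = 1`. -/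
def Mv (G : SimpleGraph V) (k : ℕ) (Z Y : Finset V) (j : ℕ) : Prop :=
  (j = 1 ∧ ∃ v, J1 G k Z v Y) ∨
    (j = 0 ∧ ∃ v v' T, J2 G k Z v v' T ∧ Y = cn G Z v ∪ cn G Z v' ∪ T)

variable {Z : Finset V}

theorem two_out {X : Finset V} {t a b : V} (hd : (nb G Z t).card ≤ k) (hX : X ⊆ Z) (ha : a ∈ Z)
    (hb : b ∈ Z) (n : a ≠ b) (a1 : G.Adj t a) (a2 : G.Adj t b) (h1 : a ∉ X) (h2 : b ∉ X) :
    (nb G X t).card + 2 ≤ k := by
  have s : insert a (insert b (nb G X t)) ⊆ nb G Z t :=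
    insert_subset (mem_nb.2 ⟨ha, a1⟩) (insert_subset (mem_nb.2 ⟨hb, a2⟩) (nb_mono hX t))
  have := card_le_card s
  rw [card_insert_of_notMem (by simp [n, h1]), card_insert_of_notMem (by simp [h2])] at this
  omega

theorem j1_big {a : V} (ha : a ∈ Z) (hd : k + 1 ≤ (nb G Z a).card) :
    ∃ Y ⊆ cn G Z a, J1 G k Z a Y := by
  obtain ⟨B, h1, h2⟩ := exists_subset_card_eq hd
  have s : insert a B ⊆ cn G Z a := insert_subset_insert a h1
  refine ⟨insert a B, s, s.trans (cn_sub ha), mem_insert_self _ _, by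
    rw [card_insert_of_notMem fun e => not_mem_nb_self Z a (h1 e), h2], av_of_disj fun y hy hh => ?_,
    a, fun y hy => ?_⟩
  · rw [mem_rem1] at hh
    exact (mem_cn.1 (s hy)).elim hh.2.1 fun e => hh.2.2 e.2
  · exact (mem_cn.1 (s hy)).imp_right fun e => Or.inr e.2

theorem j1_peel {v t : V} (hv : v ∈ Z) (hd : (nb G Z v).card = k) (ht : t ∈ rem G Z {v})
    (hp : (nb G (rem G Z {v}) t).card + 2 ≤ k) : J1 G k Z v (insert t (cn G Z v)) := by
  have hn : ∀ y ∈ cn G Z v, y ∉ rem G Z {v} := fun y hy hh => by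
    rw [mem_rem1] at hh
    exact (mem_cn.1 hy).elim hh.2.1 fun e => hh.2.2 e.2
  refine ⟨insert_subset (rem_sub _ _ ht) (cn_sub hv), mem_insert_of_mem (mem_insert_self _ _), by
    rw [card_insert_of_notMem fun e => hn t e ht, cn_card, hd], fun T hT hc x hx hy => ?_, t,
    fun y hy => ?_⟩
  · rcases mem_insert.1 hy with e | e
    · exact hc.not_small hx (fun z hz a => mem_nb.2 ⟨hT hz, a⟩) (e ▸ hp)
    · exact hn x e (hT hx)
  · rcases mem_insert.1 hy with e | e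
    exacts [Or.inr (Or.inl e), (mem_cn.1 e).imp_right fun e => Or.inr e.2]

theorem J2.symm {v v' : V} {T : Finset V} (h : J2 G k Z v v' T) : J2 G k Z v' v T :=
  ⟨h.hv', h.hv, h.dv', h.dv, h.ne.symm, fun e => h.na e.symm, pair_comm v v' ▸ h.sub,
    inter_comm (nb G Z v) _ ▸ h.c1, inter_comm (nb G Z v) _ ▸ h.cT, h.dT, pair_comm v v' ▸ h.pT⟩

theorem J2.card {v v' : V} {T : Finset V} (h : J2 G k Z v v' T) :
    (cn G Z v ∪ cn G Z v' ∪ T).card = 2 * k + 3 := by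
  have e : cn G Z v ∩ cn G Z v' = nb G Z v ∩ nb G Z v' := by
    ext x
    simp only [mem_inter, mem_cn, mem_nb]
    refine ⟨fun ⟨h1, h2⟩ => ⟨h1.resolve_left fun e => ?_, h2.resolve_left fun e => ?_⟩,
      fun hh => ⟨Or.inr hh.1, Or.inr hh.2⟩⟩
    · exact h2.elim (fun e1 => h.ne (e ▸ e1)) fun e1 => h.na (e ▸ e1.2.symm)
    · exact h1.elim (fun e1 => h.ne (e1 ▸ e)) fun e1 => h.na (e ▸ e1.2)
  have h1 := card_union_add_card_inter (cn G Z v) (cn G Z v')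
  have hd : Disjoint (cn G Z v ∪ cn G Z v') T := disjoint_right.2 fun t ht hh => by
    have := mem_rem2.1 (h.sub ht)
    simp only [mem_union, mem_cn] at hh
    tauto
  rw [e, cn_card, cn_card, h.dv, h.dv'] at h1
  rw [card_union_of_disjoint hd, h.cT]
  omega

theorem J2.av {v v' : V} {T : Finset V} (h : J2 G k Z v v' T) :
    Av G k (rem G Z {v, v'}) (cn G Z v ∪ cn G Z v' ∪ T) := by
  refine Av.union (av_of_disj fun y hy hh => ?_) fun S hS hc x hx hy =>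
    hc.not_small hx (fun z hz a => mem_nb.2 ⟨hS hz, a⟩) (h.pT x hy)
  have := mem_rem2.1 hh
  simp only [mem_union, mem_cn] at hy
  tauto

theorem J2.subY {v v' : V} {T : Finset V} (h : J2 G k Z v v' T) :
    cn G Z v ∪ cn G Z v' ∪ T ⊆ Z :=
  union_subset (union_subset (cn_sub h.hv) (cn_sub h.hv')) (h.sub.trans (rem_sub _ _))

theorem Mv.basic {Y : Finset V} {j : ℕ} (h : Mv G k Z Y j) : Y ⊆ Z ∧ Y.Nonempty ∧
    Y.card ≤ 2 * k + 3 ∧ j ≤ 1 ∧ ∃ D : Finset V, Av G k (rem G Z D) Y ∧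
      (2 * k + 3) * D.card ≤ 2 * Y.card := by
  rcases h with ⟨e, v, h⟩ | ⟨e, v, v', T, h, rfl⟩
  · exact ⟨h.sub, ⟨v, h.mem⟩, by rw [h.card]; omega, e.le, {v}, h.av, by
      rw [h.card, card_singleton]; omega⟩
  · refine ⟨h.subY, card_pos.1 (by rw [h.card]; omega), h.card.le, by omega, {v, v'}, h.av, ?_⟩
    rw [h.card, card_pair h.ne]
    omega

/-- No move inside `O`. -/
structure NM (G : SimpleGraph V) (k : ℕ) (Z O : Finset V) : Prop where
  hk : 5 ≤ k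
  sub : O ⊆ Z
  conn : Conn G O
  uf : UF G k O
  lo : ∀ x ∈ O, k ≤ (nb G O x).card + 1
  d : ∀ x ∈ O, (nb G Z x).card ≤ k
  n1 : ∀ v ∈ O, (nb G Z v).card = k → ∀ t ∈ O, t ∈ rem G Z {v} →
    k ≤ (nb G (rem G Z {v}) t).card + 1
  n2 : ∀ v ∈ O, ∀ v' ∈ O, ∀ T ⊆ O, ¬ J2 G k Z v v' T

namespace NM

variable {O : Finset V} (h : NM G k Z O)
include h

theorem c1 {v t a b : V} (hv : v ∈ O) (dv : (nb G Z v).card = k) (ht : t ∈ rem G O {v})
    (ha : a ∈ Z) (hb : b ∈ Z) (a1 : G.Adj v a) (a2 : G.Adj t a) (b1 : G.Adj v b)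
    (b2 : G.Adj t b) : a = b := by
  by_contra n
  have h1 := h.n1 v hv dv t (rem_sub _ _ ht) (rem_mono h.sub subset_rfl ht)
  have := two_out (X := rem G Z {v}) (h.d t (rem_sub _ _ ht)) (rem_sub _ _) ha hb n a2 b2
    (by simp [a1]) (by simp [b1])
  omega

theorem hi {v t a : V} (hv : v ∈ O) (dv : (nb G Z v).card = k) (ht : t ∈ rem G O {v})
    (ha : a ∈ Z) (a1 : G.Adj v a) (a2 : G.Adj t a) : (nb G Z t).card = k := by
  have h1 := h.n1 v hv dv t (rem_sub _ _ ht) (rem_mono h.sub subset_rfl ht)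
  have : (nb G (rem G Z {v}) t).card < (nb G Z t).card := card_lt_card ⟨nb_mono (rem_sub _ _) t,
    fun hh => by simpa [a1] using hh (mem_nb.2 ⟨ha, a2⟩)⟩
  have := h.d t (rem_sub _ _ ht)
  omega

theorem mk2 {v v' : V} (hv : v ∈ O) (dv : (nb G Z v).card = k) (hv' : v' ∈ rem G O {v})
    (dv' : (nb G Z v').card = k) {T : Finset V} (hT : T ⊆ rem G O {v, v'})
    (hg : ∀ t ∈ T, ∃ a ∈ Z, ∃ b ∈ Z, a ≠ b ∧ G.Adj t a ∧ G.Adj t b ∧ G.Adj v a ∧ G.Adj v' b) :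
    T.card ≤ 1 ∧ (T.Nonempty → ∃ a ∈ Z, G.Adj v a ∧ G.Adj v' a) := by
  have hc : (nb G Z v ∩ nb G Z v').card ≤ 1 := card_le_one.2 fun a ha b hb => by
    simp only [mem_inter, mem_nb] at ha hb
    exact h.c1 hv dv hv' ha.1.1 hb.1.1 ha.1.2 ha.2.2 hb.1.2 hb.2.2
  have : T.card ≤ (nb G Z v ∩ nb G Z v').card := by
    by_contra hh
    obtain ⟨T', h1, h2⟩ := exists_subset_card_eq (s := T)
      (show (nb G Z v ∩ nb G Z v').card + 1 ≤ T.card by omega)
    have s := h1.trans hT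
    rw [mem_rem1] at hv'
    refine h.n2 v hv v' hv'.1 T' (s.trans (rem_sub _ _)) ⟨h.sub hv, h.sub hv'.1, dv, dv',
      hv'.2.1.symm, hv'.2.2, s.trans (rem_mono h.sub subset_rfl), hc, h2,
      fun t ht => h.d t (rem_sub _ _ (s ht)), fun t ht => ?_⟩
    obtain ⟨a, ha, b, hb, n, a1, a2, a3, a4⟩ := hg t (h1 ht)
    exact two_out (h.d t (rem_sub _ _ (s ht))) (rem_sub _ _) ha hb n a1 a2 (by simp [a3])
      (by simp [a4])
  refine ⟨by omega, fun hne => ?_⟩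
  obtain ⟨a, ha⟩ := card_pos.1 (lt_of_lt_of_le (card_pos.2 hne) this)
  simp only [mem_inter, mem_nb] at ha
  exact ⟨a, ha.1.1, ha.1.2, ha.2.2⟩

theorem degR {x b : V} (hx : x ∈ O) (dx : (nb G Z x).card = k) (hb : b ∈ rem G O {x}) :
    k ≤ (nb G (rem G O {x}) b).card + 2 := by
  have h1 := h.lo b (rem_sub _ _ hb)
  have h2 : (nb G O b \ nb G (rem G O {x}) b).card ≤ 1 := card_le_one.2 fun a ha c hc => by
    simp only [mem_sdiff, mem_nb, mem_rem1] at ha hc hb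
    have e : ∀ a, G.Adj b a → a ≠ x := fun a e e1 => hb.2.2 (e1 ▸ e.symm)
    refine h.c1 hx dx (mem_rem1.2 hb) (h.sub ha.1.1) (h.sub hc.1.1) ?_ ha.1.2 ?_ hc.1.2
    · have := e a ha.1.2
      tauto
    · have := e c hc.1.2
      tauto
  have := le_card_sdiff (nb G (rem G O {x}) b) (nb G O b)
  omega

theorem n1' {x t a v b : V} (hx : x ∈ O) (dx : (nb G Z x).card = k) (ht : t ∈ rem G O {x})
    (ha : a ∈ Z) (a1 : G.Adj x a) (a2 : G.Adj t a) (hv : v ∈ rem G O {x}) (hb : b ∈ rem G O {x})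
    (b1 : G.Adj t b) (b2 : G.Adj v b) : v = t ∨ G.Adj t v := by
  have hk := h.hk
  by_contra hc
  rw [not_or] at hc
  set R := rem G O {x} with hR
  have hRZ : R ⊆ Z := (rem_sub _ _).trans h.sub
  have A : ∀ t ∈ R, ∀ a ∈ Z, G.Adj x a → G.Adj t a → ∀ v ∈ R, v ≠ t → ¬ G.Adj t v → ∀ b ∈ R,
      G.Adj t b → G.Adj v b → (nb G Z v).card = k ∧ t ∈ rem G O {x, v} ∧
        (∃ a ∈ Z, ∃ b ∈ Z, a ≠ b ∧ G.Adj t a ∧ G.Adj t b ∧ G.Adj x a ∧ G.Adj v b) ∧
        ∃ a ∈ Z, G.Adj x a ∧ G.Adj v a := by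
    intro t ht a ha a1 a2 v hv n na b hb b1 b2
    have d1 := h.hi (rem_sub _ _ ht) (h.hi hx dx ht ha a1 a2)
      (mem_rem1.2 ⟨rem_sub _ _ hv, n, na⟩) (hRZ hb) b1 b2
    have m : t ∈ rem G O {x, v} := by
      have := mem_rem1.1 ht
      exact mem_rem2.2 ⟨this.1, this.2, n.symm, fun e => na e.symm⟩
    have g : ∃ a ∈ Z, ∃ b ∈ Z, a ≠ b ∧ G.Adj t a ∧ G.Adj t b ∧ G.Adj x a ∧ G.Adj v b :=
      ⟨a, ha, b, hRZ hb, fun e => (mem_rem1.1 hb).2.2 (e ▸ a1), a2, b1, a1, b2⟩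
    exact ⟨d1, m, g, (h.mk2 hx dx hv d1 (T := {t}) (singleton_subset_iff.2 m)
      (by simpa only [mem_singleton, forall_eq] using g)).2 (singleton_nonempty t)⟩
  have U : ∀ v ∈ R, ∀ a ∈ Z, G.Adj x a → G.Adj v a → ∀ t1 ∈ R, ∀ t2 ∈ R, t1 ≠ v → t2 ≠ v →
      ¬ G.Adj v t1 → ¬ G.Adj v t2 → G.Adj v b → G.Adj t1 b → G.Adj t2 b → t1 = t2 := by
    intro v hv a ha a1 a2 t1 h1 t2 h2 n1 n2 m1 m2 e e1 e2
    obtain ⟨-, -, -, c1, f1, g1, i1⟩ := A v hv a ha a1 a2 t1 h1 n1 m1 b hb e e1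
    obtain ⟨-, -, -, c2, f2, g2, i2⟩ := A v hv a ha a1 a2 t2 h2 n2 m2 b hb e e2
    obtain ⟨d, p1, q1, -⟩ := A t1 h1 c1 f1 g1 i1 v hv n1.symm (fun e => m1 e.symm) b hb e1 e
    obtain ⟨-, p2, q2, -⟩ := A t2 h2 c2 f2 g2 i2 v hv n2.symm (fun e => m2 e.symm) b hb e2 e
    exact card_le_one.1 (h.mk2 hx dx hv d (T := {t1, t2}) (insert_subset p1
      (singleton_subset_iff.2 p2)) (by
        simpa only [mem_insert, mem_singleton, forall_eq_or_imp, forall_eq] using ⟨q1, q2⟩)).1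
      t1 (by simp) t2 (by simp)
  obtain ⟨-, -, -, c, f, g, i⟩ := A t ht a ha a1 a2 v hv hc.1 hc.2 b hb b1 b2
  obtain ⟨u, hu, n⟩ := exists_mem_notMem_of_card_lt_card (s := {t, v}) (t := nb G R b)
    (by have := card_le_two (a := t) (b := v); have := h.degR hx dx hb; rw [← hR] at this; omega)
  simp only [mem_insert, mem_singleton, not_or, mem_nb] at n hu
  have e1 : G.Adj t u := by_contra fun e =>
    n.2 (U t ht a ha a1 a2 u hu.1 v hv n.1 hc.1 e hc.2 b1 hu.2.symm b2)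
  have e2 : G.Adj v u := by_contra fun e =>
    n.1 (U v hv c f g i u hu.1 t ht n.2 (Ne.symm hc.1) e (fun e => hc.2 e.symm) b2 hu.2.symm b1)
  exact hu.2.ne (h.c1 (rem_sub _ _ ht) (h.hi hx dx ht ha a1 a2)
    (mem_rem1.2 ⟨rem_sub _ _ hv, hc.1, hc.2⟩) (hRZ hb) (hRZ hu.1) b1 b2 e1 e2)

theorem size {x : V} (hx : x ∈ O) (dx : (nb G Z x).card = k) :
    O.card = (nb G O x).card + 1 ∨ (2 * k ≤ O.card + 1 ∧ O.card ≤ 2 * k + 1) := by
  have hk := h.hk
  have hc := rem_card (G := G) hx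
  set R := rem G O {x} with hR
  rcases R.eq_empty_or_nonempty with e | hne
  · rw [e, card_empty] at hc
    exact Or.inl (by omega)
  have hRO : R ⊆ O := rem_sub _ _
  have hxR : x ∉ R := by simp [hR]
  have out : ∀ u ∈ R, ∀ w ∈ O, w ∉ R → G.Adj u w → G.Adj x w := fun u hu w hw n e => by
    by_contra hh
    exact n (mem_rem1.2 ⟨hw, fun e1 => (mem_rem1.1 hu).2.2 (e1 ▸ e.symm), hh⟩)
  obtain ⟨u, hu, w, hw, hwR, a⟩ := h.conn.exists_edge hRO hne hx hxR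
  have xw := out u hu w hw hwR a
  have du := h.hi hx dx hu (h.sub hw) xw a
  have lt : ∀ t ∈ R, G.Adj t w → (nb G R t).card < k := fun t ht e => lt_of_lt_of_le
    (card_lt_card ⟨nb_mono (hRO.trans h.sub) t, fun hh =>
      hwR (mem_nb.1 (hh (mem_nb.2 ⟨h.sub hw, e⟩))).1⟩) (h.d t (hRO ht))
  have s : R ⊆ cn G R u := by
    by_contra hs
    have N2 : ∀ t ∈ R, t ∉ cn G R u → ∀ c ∈ O, c ∉ R → G.Adj t c → c = w := by
      intro t ht n c hc nc e
      rw [mem_cn, not_or, not_and] at n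
      have xc := out t ht c hc nc e
      by_contra n'
      have hu' := mem_rem1.1 hu
      have ht' := mem_rem1.1 ht
      have := h.n1' (hRO hu) du (mem_rem1.2 ⟨hx, fun e => hxR (e ▸ hu), fun e => hu'.2.2 e.symm⟩)
        (h.sub hw) a xw (mem_rem1.2 ⟨hRO ht, n.1, n.2 ht⟩) (mem_rem1.2 ⟨hc, fun e => nc (e ▸ hu),
          fun e => n' (h.c1 hx dx hu (h.sub hc) (h.sub hw) xc e xw a)⟩) xc e
      tauto
    have cl : ∀ t ∈ R, G.Adj t w → ∀ z ∈ cn G R t, ∀ y ∈ R, G.Adj z y → y ∈ cn G R t := by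
      intro t ht e z hz y hy e1
      rcases mem_cn.1 hz with e2 | e2
      · exact mem_cn.2 (Or.inr ⟨hy, e2 ▸ e1⟩)
      · exact mem_cn.2 ((h.n1' hx dx ht (h.sub hw) xw e hy e2.1 e2.2 e1.symm).imp_right
          fun e3 => ⟨hy, e3⟩)
    obtain ⟨t, ht, c, hc', n, e⟩ := h.conn.exists_edge (sdiff_subset.trans hRO)
      (sdiff_nonempty.2 hs) hx fun hh => hxR (mem_sdiff.1 hh).1
    rw [mem_sdiff] at ht
    have hcR : c ∉ R := fun hh => ht.2 (cl u hu a c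
      (by_contra fun h1 => n (mem_sdiff.2 ⟨hh, h1⟩)) t ht.1 e.symm)
    have tw : G.Adj t w := N2 t ht.1 ht.2 c hc' hcR e ▸ e
    set C := cn G R t with hC
    have hCR : C ⊆ R := cn_sub ht.1
    have nu : ∀ z ∈ C, z ∉ cn G R u := fun z hz hh => (mem_cn.1 hz).elim
      (fun e => ht.2 (e ▸ hh)) fun e => ht.2 (cl u hu a z hh t ht.1 e.2.symm)
    have lk : ∀ z ∈ C, ∀ y ∈ O, G.Adj z y → y ∈ C ∨ y = w := fun z hz y hy e => by
      by_cases e1 : y ∈ R
      exacts [Or.inl (cl t ht.1 tw z hz y e1 e), Or.inr (N2 z (hCR hz) (nu z hz) y hy e1 e)]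
    have cC : C.card ≤ k := by
      have := lt t ht.1 tw
      rw [hC, cn_card]
      omega
    have tC : t ∈ C := mem_cn.2 (Or.inl rfl)
    have zw : ∀ z ∈ C, (nb G C z).card + 2 ≤ k → G.Adj z w ∧ k ≤ (nb G C z).card + 2 :=
      fun z hz hd => by
        have h1 := h.lo z (hRO (hCR hz))
        have s : nb G O z ⊆ insert w (nb G C z) := fun y hy => by
          rw [mem_nb] at hy
          exact mem_insert.2 ((lk z hz y hy.1 hy.2).symm.imp_right fun e => mem_nb.2 ⟨e, hy.2⟩)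
        have h2 := card_insert_le w (nb G C z)
        have h3 := eq_of_subset_of_card_le s (by omega)
        have := card_le_card s
        exact ⟨(mem_nb.1 (h3 ▸ mem_insert_self _ _ : w ∈ nb G O z)).2, by omega⟩
    by_cases hcore : Core G k C
    · exact h.uf w C ⟨hcore.clq cC, hCR.trans hRO, hw, fun e => hwR (hCR e), lk, t, tC, tw.symm⟩
    obtain ⟨z, hz, hd⟩ : ∃ z ∈ C, (nb G C z).card + 2 ≤ k := by
      by_contra hh
      push Not at hh
      exact hcore ⟨⟨t, tC⟩, fun z hz => by have := hh z hz; omega⟩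
    have s2 : C ⊆ cn G C z := fun y hy => by
      have h1 : t ∈ cn G R z := (mem_cn.1 hz).elim (fun e => mem_cn.2 (Or.inl e.symm))
        fun e => mem_cn.2 (Or.inr ⟨ht.1, e.2.symm⟩)
      have h2 : y ∈ cn G R z := (mem_cn.1 hy).elim (fun e => e ▸ h1)
        fun e => cl z (hCR hz) (zw z hz hd).1 t h1 y e.1 e.2
      exact mem_cn.2 ((mem_cn.1 h2).imp_right fun e => ⟨hy, e.2⟩)
    have h1 := card_le_card s2
    rw [cn_card C z] at h1
    have s3 : insert x (insert u C) ⊆ nb G Z w :=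
      insert_subset (mem_nb.2 ⟨h.sub hx, xw.symm⟩) (insert_subset
        (mem_nb.2 ⟨h.sub (hRO hu), a.symm⟩) fun y hy => mem_nb.2 ⟨h.sub (hRO (hCR hy)),
          (zw y hy (by have := nb_card_lt (G := G) hy; omega)).1.symm⟩)
    have h2 := card_le_card s3
    rw [card_insert_of_notMem fun hh => hxR (insert_subset hu hCR hh),
      card_insert_of_notMem fun hh => nu u hh (mem_cn.2 (Or.inl rfl))] at h2
    have := h.d w hw
    have := (zw z hz hd).2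
    have := nb_card_lt (G := G) hz
    omega
  have h1 := card_le_card s
  rw [cn_card] at h1
  have := lt u hu a
  have := h.degR hx dx hu
  have := nb_card_lt (G := G) hu
  have := h.lo x hx
  have := nb_card_mono (G := G) h.sub x
  exact Or.inr (by rw [← hR] at *; omega)

end NM

theorem small_iso (hk : 3 ≤ k) {O : Finset V} (h1 : Conn G O) (h2 : ¬ Clq G k O)
    (h3 : O.card ≤ 2 * k + 1) : ∃ D : Finset V, CF G k (rem G O D) ∧
      (2 * k + 3) * D.card ≤ 2 * k + 3 := by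
  obtain ⟨D, e1, e2⟩ := bound_of_noClq (G := G) (Or.inr hk) O fun Q hQ hc =>
    h2 (h1 Q hc (clq_ne (by omega) hQ) ▸ hQ)
  refine ⟨D, cf_of_free e1, ?_⟩
  have : D.card ≤ 1 := by
    by_contra hh
    have := Nat.mul_le_mul_left (k + 1) (show 2 ≤ D.card by omega)
    omega
  simpa using Nat.mul_le_mul_left (2 * k + 3) this

namespace CE

variable (h : CE G k Z)
include h

theorem nm {O : Finset V} (hO : O ⊆ Z) (h1 : Conn G O) (h2 : UF G k O)
    (h3 : ∀ x ∈ O, k ≤ (nb G O x).card + 1)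
    (hm : ∀ Y j, Mv G k Z Y j → ¬ ∀ y ∈ Y, y ∈ O ∨ ∃ x ∈ O, G.Adj x y) : NM G k Z O := by
  have hk := h.hk
  have c : ∀ x ∈ O, ∀ y ∈ cn G Z x, y ∈ O ∨ ∃ x ∈ O, G.Adj x y := fun x hx y hy =>
    (mem_cn.1 hy).imp (fun e : y = x => e ▸ hx) fun e => ⟨x, hx, e.2⟩
  refine ⟨by omega, hO, h1, h2, h3, fun x hx => by_contra fun hh => ?_,
    fun v hv dv t ht ht' => by_contra fun hh => ?_, fun v hv v' hv' T hT j => ?_⟩
  · obtain ⟨Y, s, j⟩ := j1_big (G := G) (k := k) (hO hx) (by omega)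
    exact hm Y 1 (Or.inl ⟨rfl, x, j⟩) fun y hy => c x hx y (s hy)
  · exact hm _ 1 (Or.inl ⟨rfl, v, j1_peel (hO hv) dv ht' (by omega)⟩) fun y hy =>
      (mem_insert.1 hy).elim (fun e => Or.inl (e ▸ ht)) (c v hv y)
  · refine hm _ 0 (Or.inr ⟨rfl, v, v', T, j, rfl⟩) fun y hy => ?_
    simp only [mem_union] at hy
    rcases hy with (hy | hy) | hy
    exacts [c v hv y hy, c v' hv' y hy, Or.inl (hT hy)]

theorem ne : Z.Nonempty := by
  by_contra hc
  rw [not_nonempty_iff_eq_empty] at hc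
  have hk := h.hk
  have := h.big ∅ (cf_small (by rw [hc]; simp [rem]; omega))
  simp at this

theorem exists_mv : ∃ Y j, Mv G k Z Y j := by
  have hk := h.hk
  by_contra hc
  have n := h.nm subset_rfl h.conn h.uf (fun _ => h.deg) fun Y j m _ => hc ⟨Y, j, m⟩
  by_cases hx : ∃ x ∈ Z, (nb G Z x).card = k
  · obtain ⟨x, hx, dx⟩ := hx
    have := n.size hx dx
    obtain ⟨D, e1, e2⟩ := small_iso (k := k) (by omega) h.conn h.nclq (by omega)
    have := h.big D e1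
    omega
  · push Not at hx
    obtain ⟨v, hv⟩ := h.ne
    have := h.big {v} fun T hT ht => by
      have := h.conn T (cl_of_card (hT.trans (rem_sub _ _)) fun t h1 => by
        have := ht.2 t h1
        have := n.d t (rem_sub _ _ (hT h1))
        have := hx t (rem_sub _ _ (hT h1))
        omega) ht.1
      exact (mem_rem1.1 (hT (this ▸ hv))).2.1 rfl
    rw [card_singleton] at this
    exact h.nclq (Core.clq ⟨⟨v, hv⟩, fun _ => h.deg⟩ (by omega))

theorem ob_mv {O : Finset V} (ho : Ob G k O) (hq : ¬ Clq G k O) (hO : O ⊆ Z) {d : V} (hd : d ∈ Z)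
    (hdO : d ∉ O) : ∃ Y j, Mv G k Z Y j ∧ ∀ y ∈ Y, y ∈ O ∨ ∃ x ∈ O, G.Adj x y := by
  have hk := h.hk
  by_contra hc
  have n := h.nm hO ho.conn ho.uf (fun _ => h.ob_deg ho hO) fun Y j m e => hc ⟨Y, j, m, e⟩
  obtain ⟨x, hx, l, hl, hlO, a⟩ := h.conn.exists_edge hO ho.ne hd hdO
  have h1 : (nb G O x).card < (nb G Z x).card := card_lt_card ⟨nb_mono hO x, fun hh =>
    hlO (mem_nb.1 (hh (mem_nb.2 ⟨hl, a⟩))).1⟩
  have h2 := n.lo x hx
  have h3 := n.d x hx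
  rcases n.size hx (by omega) with e | e
  · exact hq (Core.clq ⟨ho.ne, n.lo⟩ (by omega))
  · obtain ⟨D, e1, e2⟩ := small_iso (k := k) (by omega) ho.conn hq e.2
    have := ho.crit D e1
    omega

end CE

end Pool.Agent.IsoSharp

/-! Accounting after an extremal move. -/

namespace Pool.Agent.IsoSharp

open Finset Pool.Agent.IsoKer
open scoped Classical

variable {V : Type*} {G : SimpleGraph V} {k : ℕ}

/-- A clique of `U` with at most one further neighbour in `U`. -/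
def CO (G : SimpleGraph V) (k : ℕ) (U Q : Finset V) : Prop :=
  Clq G k Q ∧ Q ⊆ U ∧ ∃ y, ∀ q ∈ Q, ∀ z ∈ U, G.Adj q z → z ∈ Q ∨ z = y

/-- A critical component of `U` other than a clique. -/
def NO (G : SimpleGraph V) (k : ℕ) (U O : Finset V) : Prop :=
  Cl G O U ∧ Ob G k O ∧ ¬ Clq G k O

theorem co_of_cl {U Q : Finset V} (hk : 1 ≤ k) (h : Clq G k Q) (hc : Cl G Q U) : CO G k U Q :=
  ⟨h, hc.1, (clq_ne hk h).choose, fun q hq z hz e => Or.inl (hc.2 q hq z hz e)⟩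

theorem NO.disj {U O Q : Finset V} (h : NO G k U O) (hQ : CO G k U Q) : Disjoint O Q := by
  refine disjoint_left.2 fun x hx hx' => ?_
  have s := conn_sub_cl (clq_conn hQ.1.2) hQ.2.1 h.1 hx' hx
  obtain ⟨y, hy⟩ := hQ.2.2
  obtain ⟨z, hz, n⟩ : ∃ z ∈ O, z ∉ Q := by
    by_contra hc
    push Not at hc
    exact h.2.2 (Subset.antisymm s hc ▸ hQ.1)
  obtain ⟨q, hq, m, hm, hmQ, a⟩ := h.2.1.conn.exists_edge s ⟨x, hx'⟩ hz n
  have e := (hy q hq m (h.1.1 hm) a).resolve_left hmQ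
  exact h.2.1.uf m Q ⟨hQ.1, s, hm, hmQ, fun q hq z hz a => e ▸ hy q hq z (h.1.1 hz) a, q, hq, a.symm⟩

theorem PM.mem_nb {Z Q : Finset V} {F : V → V} (p : PM G k Z Q F) (hQ : Clq G k Q) (hQZ : Q ⊆ Z)
    {s : V} (hs : s ∈ Q) : nb G Z s = insert (F s) (Q.erase s) := by
  ext x
  simp only [IsoKer.mem_nb, mem_insert, mem_erase]
  refine ⟨fun h => (p.uniq s hs x h.1 h.2).symm.imp_right fun e => ⟨h.2.ne.symm, e⟩, ?_⟩
  rintro (e | e)
  exacts [e ▸ ⟨p.mem s hs, p.adj s hs⟩, ⟨hQZ e.2, hQ.2 s hs x e.2 e.1.symm⟩]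

theorem PM.dg {Z Q : Finset V} {F : V → V} (p : PM G k Z Q F) (hQ : Clq G k Q) (hQZ : Q ⊆ Z)
    {s : V} (hs : s ∈ Q) : (nb G Z s).card = k := by
  rw [p.mem_nb hQ hQZ hs, card_insert_of_notMem fun e => p.out s hs (mem_of_mem_erase e),
    card_erase_add_one hs, hQ.1]

theorem PM.cn {Z Q : Finset V} {F : V → V} (p : PM G k Z Q F) {s x : V} (hs : s ∈ Q)
    (hx : x ∈ cn G Z s) : x ∈ Q ∨ x = F s :=
  (mem_cn.1 hx).elim (fun e => Or.inl (e ▸ hs)) fun e => p.uniq s hs x e.1 e.2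

theorem PM.card_le {Z Q S A : Finset V} {F : V → V} (p : PM G k Z Q F) (hS : S ⊆ Q)
    (h : ∀ q ∈ S, F q ∈ A) : S.card ≤ A.card :=
  card_le_card_of_injOn F h fun a ha b hb => p.inj a (hS ha) b (hS hb)

theorem PM.core {Z Q T : Finset V} {F : V → V} (p : PM G k Z Q F) (hQ : Clq G k Q) (hT : T ⊆ Z)
    (ht : Core G k T) {q x : V} (hq : q ∈ Q) (hqT : q ∉ T) (hx : x ∈ T) (hxQ : x ∈ Q) :
    ∀ a ∈ Q, a ≠ q → F a ∈ T := fun a ha n =>
  (core_clq ht hQ hq hqT ((core_clq ht hQ hq hqT hx hxQ fun z hz =>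
    p.uniq x hxQ z (hT hz)).1 a ha n) ha fun z hz => p.uniq a ha z (hT hz)).2.1

/-- A move with a largest remaining connected part. -/
structure Ex (G : SimpleGraph V) (k : ℕ) (Z : Finset V) (F : V → V) (Y : Finset V) (j : ℕ)
    (C : Finset V) : Prop where
  ce : CE G k Z
  pm : ∀ Q, Clq G k Q → Q ⊆ Z → PM G k Z Q F
  mv : Mv G k Z Y j
  sub : C ⊆ Z \ Y
  conn : Conn G C
  max : ∀ Y' j' C', Mv G k Z Y' j' → C' ⊆ Z \ Y' → Conn G C' → 2 * C'.card + j' ≤ 2 * C.card + j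

theorem CE.exists_ex {Z : Finset V} (h : CE G k Z) : ∃ F Y j C, Ex G k Z F Y j C := by
  obtain ⟨F, hF⟩ := h.pm
  obtain ⟨Y0, j0, h0⟩ := h.exists_mv
  let P : ℕ → Prop := fun n => ∃ Y j C, Mv G k Z Y j ∧ C ⊆ Z \ Y ∧ Conn G C ∧ 2 * C.card + j = n
  have hb : ∀ n, P n → n ≤ 2 * Z.card + 1 := by
    rintro n ⟨Y, j, C, h1, h2, -, rfl⟩
    have := card_le_card (h2.trans sdiff_subset)
    have := h1.basic.2.2.2.1
    omega
  have h1 : P (2 * (∅ : Finset V).card + j0) := ⟨Y0, j0, ∅, h0, empty_subset _,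
    fun T hT hne => absurd (subset_empty.1 hT.1) hne.ne_empty, rfl⟩
  obtain ⟨Y, j, C, a1, a2, a3, a4⟩ := Nat.findGreatest_spec (hb _ h1) h1
  exact ⟨F, Y, j, C, h, hF, a1, a2, a3, fun Y' j' C' b1 b2 b3 => a4 ▸
    Nat.le_findGreatest (hb _ ⟨Y', j', C', b1, b2, b3, rfl⟩) ⟨Y', j', C', b1, b2, b3, rfl⟩⟩

namespace Ex

variable {Z Y C : Finset V} {F : V → V} {j : ℕ} (h : Ex G k Z F Y j C)
include h

theorem le {C' : Finset V} (h1 : C' ⊆ Z \ Y) (h2 : Conn G C') : C'.card ≤ C.card := by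
  have := h.max Y j C' h.mv h1 h2
  omega

theorem ne : C.Nonempty := by
  obtain ⟨h1, -, -, -, D, h2, h3⟩ := h.mv.basic
  have hk := h.ce.hk
  rcases (Z \ Y).eq_empty_or_nonempty with e | ⟨x, hx⟩
  · have := h.ce.big D (h2.cf (cf_small (X := ∅) (by simp; omega)) fun a ha n =>
      e ▸ mem_sdiff.2 ⟨rem_sub _ _ ha, n⟩)
    have := card_le_card h1
    have := card_le_card (sdiff_eq_empty_iff_subset.1 e)
    omega
  · exact card_pos.1 (h.le (singleton_subset_iff.2 hx) (conn_single x))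

theorem cl : Cl G C (Z \ Y) := ⟨h.sub, fun x hx y hy a => by_contra fun n => by
  have := h.le (insert_subset hy h.sub) (conn_insert h.conn hx a.symm)
  rw [card_insert_of_notMem n] at this
  omega⟩

theorem nY {x : V} (hx : x ∈ Y) : x ∉ C := fun e => (mem_sdiff.1 (h.sub e)).2 hx

theorem lam : ∃ m ∈ Y, ∃ c ∈ C, G.Adj m c := by
  obtain ⟨h1, ⟨y, hy⟩, -⟩ := h.mv.basic
  obtain ⟨c, hc, m, hm, n, a⟩ := h.ce.conn.exists_edge (h.sub.trans sdiff_subset) h.ne (h1 hy)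
    (h.nY hy)
  exact ⟨m, by_contra fun e => n (h.cl.2 c hc m (mem_sdiff.2 ⟨hm, e⟩) a), c, hc, a.symm⟩

theorem ext1 {Y' : Finset V} {j' : ℕ} (hm : Mv G k Z Y' j') (hC : ∀ y ∈ Y', y ∉ C) {m c : V}
    (h1 : m ∈ Y) (h2 : c ∈ C) (a : G.Adj m c) : m ∈ Y' := by_contra fun n => by
  have := h.max Y' j' (insert m C) hm (insert_subset (mem_sdiff.2 ⟨h.mv.basic.1 h1, n⟩)
    fun x hx => mem_sdiff.2 ⟨(mem_sdiff.1 (h.sub hx)).1, fun e => hC x e hx⟩)
    (conn_insert h.conn h2 a)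
  rw [card_insert_of_notMem (h.nY h1)] at this
  have := h.mv.basic.2.2.2.1
  omega

theorem factA {O : Finset V} (hO : NO G k (Z \ Y) O) {m c : V} (h1 : m ∈ Y) (h2 : c ∈ C)
    (a : G.Adj m c) : ∃ p ∈ O, G.Adj m p := by
  have hmO : m ∉ O := fun e => (mem_sdiff.1 (hO.1.1 e)).2 h1
  by_cases hc : ∃ x ∈ O, x ∈ C
  · obtain ⟨x, h3, h4⟩ := hc
    exact ⟨c, conn_sub_cl h.conn h.sub hO.1 h4 h3 h2, a⟩
  · obtain ⟨Y', j', hm, hY⟩ := h.ce.ob_mv hO.2.1 hO.2.2 (hO.1.1.trans sdiff_subset)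
      (h.mv.basic.1 h1) hmO
    obtain ⟨x, h3, h4⟩ := (hY m (h.ext1 hm (fun y hy e => hc ⟨y, (hY y hy).elim id
      fun ⟨x, h3, h4⟩ => hO.1.2 x h3 y (h.sub e) h4, e⟩) h1 h2 a)).resolve_left hmO
    exact ⟨x, h3, h4.symm⟩

theorem co_pm {Q : Finset V} (hQ : CO G k (Z \ Y) Q) : PM G k Z Q F :=
  h.pm Q hQ.1 (hQ.2.1.trans sdiff_subset)

theorem co_one {Q : Finset V} (hQ : CO G k (Z \ Y) Q) {a b : V} (ha : a ∈ Q) (hb : b ∈ Q)
    (h1 : F a ∉ Y) (h2 : F b ∉ Y) : a = b := by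
  obtain ⟨y, hy⟩ := hQ.2.2
  have p := h.co_pm hQ
  have e : ∀ a ∈ Q, F a ∉ Y → F a = y := fun a ha n =>
    (hy a ha _ (mem_sdiff.2 ⟨p.mem a ha, n⟩) (p.adj a ha)).resolve_left (p.out a ha)
  exact p.inj a ha b hb ((e a ha h1).trans (e b hb h2).symm)

theorem co_card {Q : Finset V} (hQ : CO G k (Z \ Y) Q) : k ≤ (Q.filter (F · ∈ Y)).card + 1 := by
  have h1 := card_filter_add_card_filter_not (s := Q) (F · ∈ Y)
  have h2 : (Q.filter fun x => ¬ F x ∈ Y).card ≤ 1 := card_le_one.2 fun a ha b hb =>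
    h.co_one hQ (mem_filter.1 ha).1 (mem_filter.1 hb).1 (mem_filter.1 ha).2 (mem_filter.1 hb).2
  have := hQ.1.1
  omega

theorem av_co {Q D : Finset V} (hQ : CO G k (Z \ Y) Q) (hav : Av G k (rem G Z D) Y) {m q : V}
    (hm : m ∈ D) (hq : q ∈ Q) (a : G.Adj m q) : Av G k (rem G Z D) Q := by
  intro T hT ht x hx hxQ
  have hk := h.ce.hk
  have key := (h.co_pm hQ).core hQ.1 (hT.trans (rem_sub _ _)) ht hq
    (fun e => ((mem_rem.1 (hT e)).2 m hm).2 a) hx hxQ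
  obtain ⟨a, ha, b, hb, n⟩ := one_lt_card.1 (show 1 < (Q.erase q).card by
    rw [card_erase_of_mem hq, hQ.1.1]; omega)
  rw [mem_erase] at ha hb
  exact n (h.co_one hQ ha.2 hb.2 (hav T hT ht _ (key a ha.2 ha.1)) (hav T hT ht _ (key b hb.2 hb.1)))

omit h in
theorem av_no {O D E : Finset V} (hO : Cl G O (Z \ Y)) (hav : Av G k (rem G Z D) Y) {m p : V}
    (hm : m ∈ D) (a : G.Adj m p) (hE : E ⊆ D) (e : CF G k (rem G (O.erase p) E)) :
    Av G k (rem G Z D) O := by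
  intro T hT ht x hx hxO
  refine e (T ∩ O) (fun u hu => ?_) (ht.inter hx hxO fun u _ hu z hz =>
    hO.2 u hu z (mem_sdiff.2 ⟨rem_sub _ _ (hT hz), hav T hT ht z hz⟩))
  rw [mem_inter] at hu
  have := (mem_rem.1 (hT hu.1)).2
  exact mem_rem.2 ⟨mem_erase.2 ⟨fun e1 => (this m hm).2 (e1 ▸ a), hu.2⟩,
    fun d hd => this d (hE hd)⟩

theorem acct (D B N P : Finset V) (hav : Av G k (rem G Z D) Y) (hB : B ⊆ Z \ Y)
    (hne : B.Nonempty) (hav' : Av G k (rem G Z D) B) (hN : N ⊆ Y) (hNP : N ⊆ P)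
    (h1 : ∀ x ∈ Z \ Y, x ∉ B → ∀ b ∈ B, G.Adj b x → x ∈ P)
    (h2 : ∀ Q, CO G k (Z \ Y) Q → Disjoint Q B → ∃ p ∈ Q, p ∈ P)
    (h3 : ∀ O, NO G k (Z \ Y) O → O ⊆ rem G Z D → Disjoint O B → ∃ p ∈ O, ∃ n ∈ N, G.Adj p n) :
    2 * Y.card + 2 * B.card + 3 ≤ (2 * k + 3) * D.card + 2 * N.card + 3 * P.card := by
  have hk := h.ce.hk
  have e1 : ∀ x ∈ Z \ (Y \ N ∪ B), x ∉ P → x ∈ Z \ Y ∧ x ∉ B := fun x hx n => by
    have : x ∉ N := fun e => n (hNP e)
    simp only [mem_sdiff, mem_union] at hx ⊢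
    tauto
  have e2 : ∀ x ∈ Z \ (Y \ N ∪ B), x ∉ P → ∀ z ∈ Z \ Y, G.Adj x z → z ∈ Z \ (Y \ N ∪ B) :=
    fun x hx n z hz a => by
      have : z ∉ B := fun e => n (h1 x (e1 x hx n).1 (e1 x hx n).2 z e a.symm)
      simp only [mem_sdiff, mem_union] at hz ⊢
      tauto
  have := h.ce.fin0 D (Y \ N ∪ B) ∅ ∅ P
    (union_subset (sdiff_subset.trans h.mv.basic.1) (hB.trans sdiff_subset))
    (hne.mono subset_union_right) ((hav.mono subset_rfl sdiff_subset).union hav')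
    (fun y Q hP _ _ => by
      by_contra hc
      simp only [notMem_empty, false_or, not_exists, not_and] at hc
      have hc' : ∀ x ∈ Q, x ∉ P := fun x hx => hc x (mem_insert_of_mem hx)
      obtain ⟨p, h4, h5⟩ := h2 Q ⟨hP.clq, fun x hx => (e1 x (hP.sub hx) (hc' x hx)).1, y,
        fun q hq z hz a => hP.cl q hq z (e2 q (hP.sub hq) (hc' q hq) z hz a) a⟩
        (disjoint_left.2 fun x hx => (e1 x (hP.sub hx) (hc' x hx)).2)
      exact hc' p h4 h5)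
    fun O hO ho hs _ => Or.inl (by
      by_contra hc
      push Not at hc
      have c : Cl G O (Z \ Y) := ⟨fun x hx => (e1 x (hO.1 hx) (hc x hx)).1,
        fun q hq z hz a => hO.2 q hq z (e2 q (hO.1 hq) (hc q hq) z hz a) a⟩
      have d : Disjoint O B := disjoint_left.2 fun x hx => (e1 x (hO.1 hx) (hc x hx)).2
      by_cases hq : Clq G k O
      · obtain ⟨p, h4, h5⟩ := h2 O (co_of_cl (by omega) hq c) d
        exact hc p h4 h5
      · obtain ⟨p, h4, n, h5, a⟩ := h3 O ⟨c, ho, hq⟩ hs d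
        refine hc n (hO.2 p h4 n (mem_sdiff.2 ⟨h.mv.basic.1 (hN h5), fun e => ?_⟩) a) (hNP h5)
        exact (mem_union.1 e).elim (fun e => (mem_sdiff.1 e).2 h5)
          fun e => (mem_sdiff.1 (hB e)).2 (hN h5))
  rw [card_union_of_disjoint (disjoint_left.2 fun x hx e =>
    (mem_sdiff.1 (hB e)).2 (mem_sdiff.1 hx).1), card_empty] at this
  have := card_sdiff_add_card_eq_card hN
  omega

theorem acct0 (D P1 P2 P3 : Finset V) (hav : Av G k (rem G Z D) Y)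
    (h1 : ∀ Q, CO G k (Z \ Y) Q → ∃ p ∈ Q, p ∈ P1 ∨ p ∈ P3)
    (h2 : ∀ Q, Clq G k Q → Cl G Q (Z \ Y) → ∃ p ∈ Q, p ∈ P3)
    (h3 : ∀ O, NO G k (Z \ Y) O → O ⊆ rem G Z D → ∃ p ∈ O, p ∈ P2) :
    2 * Y.card + 3 ≤ (2 * k + 3) * D.card + P1.card + 2 * P2.card + 3 * P3.card := by
  refine h.ce.fin0 D Y P1 P2 P3 h.mv.basic.1 h.mv.basic.2.1 hav (fun y Q hP _ _ => ?_)
    fun O hO ho hs _ => ?_
  · obtain ⟨p, h4, h5⟩ := h1 Q ⟨hP.clq, hP.sub, y, hP.cl⟩
    exact ⟨p, mem_insert_of_mem h4, h5.imp_right Or.inr⟩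
  · by_cases hq : Clq G k O
    exacts [Or.inl (h2 O hq hO), Or.inr ⟨hq, h3 O ⟨hO, ho, hq⟩ hs⟩]

theorem co_eq {Q Q' : Finset V} (hQ : CO G k (Z \ Y) Q) (hQ' : CO G k (Z \ Y) Q') {x : V}
    (hx : x ∈ Q) (hx' : x ∈ Q') : Q' = Q :=
  h.ce.clq_eq hQ.1 (hQ.2.1.trans sdiff_subset) hQ'.1 (hQ'.2.1.trans sdiff_subset) hx hx'

theorem share {Q1 Q2 : Finset V} (h1 : CO G k (Z \ Y) Q1) (h2 : CO G k (Z \ Y) Q2) {q1 q2 : V}
    (a1 : q1 ∈ Q1) (a2 : q2 ∈ Q2) (e : F q1 = F q2) (hY : F q1 ∈ Y) : Q1 = Q2 := by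
  have hk := h.ce.hk
  by_contra n
  obtain ⟨-, hne, hc, -, D, hav, hD⟩ := h.mv.basic
  set A := (Z \ Y).powerset.filter (CO G k (Z \ Y)) with hA
  have mA : ∀ Q, Q ∈ A ↔ CO G k (Z \ Y) Q := fun Q => by
    rw [hA, mem_filter, mem_powerset]
    exact ⟨fun h => h.2, fun h => ⟨h.2.1, h⟩⟩
  let r : Finset V → V → Prop := fun Q m => ∃ q ∈ Q, F q = m
  obtain ⟨m, hm, hmax⟩ := exists_max_image Y (fun m => (A.bipartiteBelow r m).card) hne
  set S := A.bipartiteBelow r m with hS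
  have mS : ∀ Q, Q ∈ S ↔ CO G k (Z \ Y) Q ∧ r Q m := fun Q => by
    rw [hS, mem_bipartiteBelow, mA]
  have s2 : 2 ≤ S.card := le_trans (one_lt_card.2 ⟨Q1, (mem_bipartiteBelow r).2
    ⟨(mA _).2 h1, q1, a1, rfl⟩, Q2, (mem_bipartiteBelow r).2 ⟨(mA _).2 h2, q2, a2, e.symm⟩, n⟩)
    (hmax _ hY)
  have cnt : A.card * (k - 1) ≤ Y.card * S.card := by
    refine card_mul_le_card_mul r (fun Q hQ => ?_) hmax
    have hQ' := (mA Q).1 hQ
    have := h.co_card hQ'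
    have := (h.co_pm hQ').card_le (A := Y.bipartiteAbove r Q) (filter_subset (F · ∈ Y) Q)
      fun q hq => (mem_bipartiteAbove r).2 ⟨(mem_filter.1 hq).2, q, (mem_filter.1 hq).1, rfl⟩
    omega
  have cB : (S.biUnion id).card = S.card * k := by
    rw [card_biUnion (t := id) fun Q hQ Q' hQ' n => disjoint_left.2 fun x hx hx' =>
      n (h.co_eq ((mS _).1 hQ').1 ((mS _).1 hQ).1 hx' hx)]
    exact (sum_congr rfl fun Q hQ => ((mS Q).1 hQ).1.1.1).trans (by rw [sum_const, smul_eq_mul])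
  have ex : ∀ Q, CO G k (Z \ Y) Q → ∃ g, (Q ∈ S → ∀ q ∈ Q, ∀ z ∈ Z \ Y, G.Adj q z → z ∈ Q ∨ z = g) ∧
      (Q ∉ S → g ∈ Q) := fun Q hQ => by
    by_cases e : Q ∈ S
    · obtain ⟨y, hy⟩ := hQ.2.2
      exact ⟨y, fun _ => hy, fun n => absurd e n⟩
    · obtain ⟨y, hy⟩ := clq_ne (by omega) hQ.1
      exact ⟨y, fun n => absurd n e, fun _ => hy⟩
  have : Nonempty V := ⟨m⟩
  choose! g g1 g2 using ex
  obtain ⟨m0, hm0, c0, hc0, a0⟩ := h.lam
  have hav' : Av G k (rem G Z (insert m D)) Y :=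
    hav.mono (rem_mono subset_rfl (subset_insert _ _)) subset_rfl
  have := h.acct (insert m D) (S.biUnion id) {m0} (insert m0 (A.image g)) hav'
    (biUnion_subset.2 fun Q hQ => ((mS Q).1 hQ).1.2.1) (card_pos.1 (by rw [cB]; positivity))
    (fun T hT ht x hx hB => by
      obtain ⟨Q, hQ, hxQ⟩ := mem_biUnion.1 hB
      obtain ⟨hQ', q, hq, e⟩ := (mS Q).1 hQ
      exact h.av_co hQ' hav' (mem_insert_self _ _) hq (e ▸ ((h.co_pm hQ').adj q hq).symm) T hT ht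
        x hx hxQ)
    (singleton_subset_iff.2 hm0) (by simp)
    (fun x hx n b hb a => by
      obtain ⟨Q, hQ, hbQ⟩ := mem_biUnion.1 hb
      have hQ' := ((mS Q).1 hQ).1
      exact mem_insert_of_mem (mem_image.2 ⟨Q, (mA Q).2 hQ', ((g1 Q hQ' hQ b hbQ x hx a).resolve_left
        fun e => n (mem_biUnion.2 ⟨Q, hQ, e⟩)).symm⟩))
    (fun Q hQ d => ⟨g Q, g2 Q hQ fun e => by
      obtain ⟨y, hy⟩ := clq_ne (by omega) hQ.1
      exact disjoint_left.1 d hy (mem_biUnion.2 ⟨Q, e, hy⟩),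
      mem_insert_of_mem (mem_image_of_mem g ((mA Q).2 hQ))⟩)
    fun O hO _ _ => by
      obtain ⟨p, hp, a⟩ := h.factA hO hm0 hc0 a0
      exact ⟨p, hp, m0, mem_singleton_self _, a.symm⟩
  have f1 := mul_insert (2 * k + 3) m D
  have f2 := card_insert_le m0 (A.image g)
  have f3 := card_image_le (s := A) (f := g)
  rw [cB, card_singleton] at this
  obtain ⟨l, rfl⟩ : ∃ l, k = l + 11 := ⟨k - 11, by omega⟩
  have f4 : A.card * (l + 10) ≤ (2 * l + 25) * S.card :=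
    cnt.trans (Nat.mul_le_mul_right _ (by omega))
  have f5 : 2 * A.card ≤ 5 * S.card := by
    by_contra hh
    nlinarith
  nlinarith

theorem co_sum (A : Finset (Finset V)) (hA : ∀ Q ∈ A, CO G k (Z \ Y) Q) :
    A.card * (k - 1) ≤ Y.card := by
  let r : Finset V → V → Prop := fun Q m => ∃ q ∈ Q, F q = m
  have := card_mul_le_card_mul (s := A) (t := Y) (m := k - 1) (n := 1) r (fun Q hQ => by
    have hQ' := hA Q hQ
    have := h.co_card hQ'
    have := (h.co_pm hQ').card_le (A := Y.bipartiteAbove r Q) (filter_subset (F · ∈ Y) Q)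
      fun q hq => (mem_bipartiteAbove r).2 ⟨(mem_filter.1 hq).2, q, (mem_filter.1 hq).1, rfl⟩
    omega) fun m hm => card_le_one.2 fun Q hQ Q' hQ' => by
      obtain ⟨h1, q, hq, e⟩ := (mem_bipartiteBelow r).1 hQ
      obtain ⟨h2, q', hq', e'⟩ := (mem_bipartiteBelow r).1 hQ'
      exact h.share (hA Q h1) (hA Q' h2) hq hq' (e.trans e'.symm) (e ▸ hm)
  omega

theorem three {Q1 Q2 Q3 : Finset V} (h1 : CO G k (Z \ Y) Q1) (h2 : CO G k (Z \ Y) Q2)
    (h3 : CO G k (Z \ Y) Q3) (n1 : Q1 ≠ Q2) (n2 : Q1 ≠ Q3) : Q2 = Q3 := by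
  by_contra n3
  have := h.co_sum {Q1, Q2, Q3} (by simp [h1, h2, h3])
  rw [card_eq_three.2 ⟨Q1, Q2, Q3, n1, n2, n3, rfl⟩] at this
  have := h.mv.basic.2.2.1
  have := h.ce.hk
  omega

theorem oth {Q0 : Finset V} (h0 : CO G k (Z \ Y) Q0) :
    ∃ b, ∀ Q, CO G k (Z \ Y) Q → Q = Q0 ∨ b ∈ Q := by
  have hk := h.ce.hk
  by_cases hc : ∃ Q, CO G k (Z \ Y) Q ∧ Q ≠ Q0
  · obtain ⟨Q1, h1, n⟩ := hc
    obtain ⟨b, hb⟩ := clq_ne (by omega) h1.1
    refine ⟨b, fun Q hQ => ?_⟩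
    by_cases e : Q = Q0
    exacts [Or.inl e, Or.inr (h.three h0 h1 hQ n.symm (Ne.symm e) ▸ hb)]
  · push Not at hc
    exact ⟨h.ne.choose, fun Q hQ => Or.inl (hc Q hQ)⟩

theorem two : ∃ a b, ∀ Q, CO G k (Z \ Y) Q → ∃ p ∈ Q, p ∈ ({a, b} : Finset V) := by
  have hk := h.ce.hk
  by_cases hc : ∃ Q, CO G k (Z \ Y) Q
  · obtain ⟨Q0, h0⟩ := hc
    obtain ⟨a, ha⟩ := clq_ne (by omega) h0.1
    obtain ⟨b, hb⟩ := h.oth h0
    exact ⟨a, b, fun Q hQ => (hb Q hQ).elim (fun e => ⟨a, e ▸ ha, by simp⟩) fun e => ⟨b, e, by simp⟩⟩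
  · exact ⟨h.ne.choose, h.ne.choose, fun Q hQ => absurd ⟨Q, hQ⟩ hc⟩

theorem no_eq {O1 O2 : Finset V} (h1 : NO G k (Z \ Y) O1) (h2 : NO G k (Z \ Y) O2) : O1 = O2 := by
  have hk := h.ce.hk
  by_contra n
  have d : Disjoint O1 O2 := disjoint_left.2 fun x a b =>
    n (conn_eq_cl h1.2.1.conn h2.2.1.conn h1.1 h2.1 a b)
  obtain ⟨hYZ, -, -, -, D, hav, hD⟩ := h.mv.basic
  obtain ⟨m, hm, c, hc, a⟩ := h.lam
  obtain ⟨p1, hp1, a1⟩ := h.factA h1 hm hc a
  obtain ⟨p2, hp2, a2⟩ := h.factA h2 hm hc a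
  obtain ⟨E1, e1, f1⟩ := h.ce.hit2 h1.2.1 h1.2.2 (h1.1.1.trans sdiff_subset) (hYZ hm)
    (fun e => (mem_sdiff.1 (h1.1.1 e)).2 hm) hp1
  obtain ⟨E2, e2, f2⟩ := h.ce.hit2 h2.2.1 h2.2.2 (h2.1.1.trans sdiff_subset) (hYZ hm)
    (fun e => (mem_sdiff.1 (h2.1.1 e)).2 hm) hp2
  obtain ⟨x, y, hxy⟩ := h.two
  have hav' : Av G k (rem G Z (insert m (D ∪ (E1 ∪ E2)))) Y :=
    hav.mono (rem_mono subset_rfl (subset_union_left.trans (subset_insert _ _))) subset_rfl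
  have s : E1 ∪ E2 ⊆ insert m (D ∪ (E1 ∪ E2)) := subset_union_right.trans (subset_insert _ _)
  have := h.acct (insert m (D ∪ (E1 ∪ E2))) (O1 ∪ O2) ∅ {x, y} hav' (union_subset h1.1.1 h2.1.1)
    (h1.2.1.ne.mono subset_union_left)
    ((av_no h1.1 hav' (mem_insert_self _ _) a1 (subset_union_left.trans s) e1).union
      (av_no h2.1 hav' (mem_insert_self _ _) a2 (subset_union_right.trans s) e2))
    (empty_subset _) (empty_subset _)
    (fun u hu n b hb e => absurd ((mem_union.1 hb).elim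
      (fun e1 => mem_union_left _ (h1.1.2 b e1 u hu e))
      fun e1 => mem_union_right _ (h2.1.2 b e1 u hu e)) n)
    (fun Q hQ _ => hxy Q hQ) fun O hO hs _ => by
      obtain ⟨p, hp, e⟩ := h.factA hO hm hc a
      exact absurd e ((mem_rem.1 (hs hp)).2 m (mem_insert_self _ _)).2
  have := mul_insert (2 * k + 3) m (D ∪ (E1 ∪ E2))
  have := mul_union (2 * k + 3) D (E1 ∪ E2)
  have := mul_union (2 * k + 3) E1 E2
  have := card_le_two (a := x) (b := y)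
  have := card_union_of_disjoint d
  have := card_empty (α := V)
  omega

theorem no_co {O Q : Finset V} (hO : NO G k (Z \ Y) O) (hQ : CO G k (Z \ Y) Q) {q p : V}
    (hq : q ∈ Q) (hY : F q ∈ Y) (hp : p ∈ O) (a : G.Adj (F q) p) : False := by
  have hk := h.ce.hk
  obtain ⟨hYZ, -, -, -, D, hav, hD⟩ := h.mv.basic
  obtain ⟨E, e1, f1⟩ := h.ce.hit2 hO.2.1 hO.2.2 (hO.1.1.trans sdiff_subset) (hYZ hY)
    (fun e => (mem_sdiff.1 (hO.1.1 e)).2 hY) hp
  obtain ⟨b, hb⟩ := h.oth hQ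
  obtain ⟨y, hy⟩ := hQ.2.2
  have hav' : Av G k (rem G Z (insert (F q) (D ∪ E))) Y :=
    hav.mono (rem_mono subset_rfl (subset_union_left.trans (subset_insert _ _))) subset_rfl
  have := h.acct (insert (F q) (D ∪ E)) (O ∪ Q) ∅ {y, b} hav' (union_subset hO.1.1 hQ.2.1)
    (hO.2.1.ne.mono subset_union_left)
    ((av_no hO.1 hav' (mem_insert_self _ _) a (subset_union_right.trans (subset_insert _ _))
      e1).union (h.av_co hQ hav' (mem_insert_self _ _) hq ((h.co_pm hQ).adj q hq).symm))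
    (empty_subset _) (empty_subset _)
    (fun u hu n c hc e => by
      rw [mem_union, not_or] at n
      rcases mem_union.1 hc with e1 | e1
      exacts [absurd (hO.1.2 c e1 u hu e) n.1,
        mem_insert.2 (Or.inl ((hy c e1 u hu e).resolve_left n.2))])
    (fun Q' hQ' d => ⟨b, (hb Q' hQ').resolve_left fun e =>
      disjoint_left.1 d (e ▸ hq) (mem_union_right _ hq), by simp⟩)
    fun O' hO' _ d => absurd (mem_union_left _ hp) (disjoint_left.1 d (h.no_eq hO hO' ▸ hp))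
  have := mul_insert (2 * k + 3) (F q) (D ∪ E)
  have := mul_union (2 * k + 3) D E
  have := card_le_two (a := y) (b := b)
  have := card_union_of_disjoint (hO.disj hQ)
  have := card_empty (α := V)
  have := hQ.1.1
  omega

theorem no_pt : ∃ b, ∀ O, NO G k (Z \ Y) O → b ∈ O := by
  by_cases hc : ∃ O, NO G k (Z \ Y) O
  · obtain ⟨O0, h0⟩ := hc
    obtain ⟨b, hb⟩ := h0.2.1.ne
    exact ⟨b, fun O hO => h.no_eq h0 hO ▸ hb⟩
  · exact ⟨h.ne.choose, fun O hO => absurd ⟨O, hO⟩ hc⟩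

theorem j1 {v : V} (m : J1 G k Z v Y) : False := by
  have hk := h.ce.hk
  obtain ⟨a, ha⟩ : ∃ a, ∀ Q, CO G k (Z \ Y) Q → a ∈ Q := by
    by_cases hc : ∃ Q, CO G k (Z \ Y) Q
    · obtain ⟨Q0, h0⟩ := hc
      obtain ⟨a, ha⟩ := clq_ne (by omega) h0.1
      refine ⟨a, fun Q hQ => by_contra fun n => ?_⟩
      have := h.co_sum {Q0, Q} (by simp [h0, hQ])
      rw [card_pair fun e : Q0 = Q => n (e ▸ ha), m.card] at this
      omega
    · exact ⟨v, fun Q hQ => absurd ⟨Q, hQ⟩ hc⟩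
  obtain ⟨b, hb⟩ := h.no_pt
  by_cases hc : ∃ Q, Clq G k Q ∧ Cl G Q (Z \ Y)
  swap
  · have := h.acct0 {v} {a} {b} ∅ m.av (fun Q hQ => ⟨a, ha Q hQ, by simp⟩)
      (fun Q h1 h2 => absurd ⟨Q, h1, h2⟩ hc) fun O hO _ => ⟨b, hb O hO, by simp⟩
    simp [m.card] at this
    omega
  obtain ⟨Q, h1, h2⟩ := hc
  have hQ := co_of_cl (by omega) h1 h2
  have p := h.co_pm hQ
  have := h.acct0 {v} ∅ ∅ {a} m.av (fun Q hQ => ⟨a, ha Q hQ, by simp⟩)
    (fun Q h1 h2 => ⟨a, ha Q (co_of_cl (by omega) h1 h2), by simp⟩) fun O hO hs => by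
      exfalso
      have fY : ∀ q ∈ Q, F q ∈ Y := fun q hq => by_contra fun n =>
        p.out q hq (h2.2 q hq _ (mem_sdiff.2 ⟨p.mem q hq, n⟩) (p.adj q hq))
      have hv : v ∉ Q.image F := fun e => by
        obtain ⟨q, hq, e⟩ := mem_image.1 e
        obtain ⟨t, ht⟩ := m.dom
        have := p.card_le (A := {v, t}) subset_rfl fun q' hq' => by
          rcases ht _ (fY q' hq') with e1 | e1 | e1
          exacts [by simp [e1], by simp [e1], absurd (e ▸ e1) (p.ind q hq q' hq')]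
        have := card_le_two (a := v) (b := t)
        have := h1.1
        omega
      have s : insert v (Q.image F) ⊆ Y := insert_subset m.mem (image_subset_iff.2 fY)
      have c := card_sdiff_add_card_eq_card s
      rw [card_insert_of_notMem hv, card_image_of_injOn p.inj, h1.1, m.card] at c
      obtain ⟨d, hd⟩ := card_eq_one.1 (show (Y \ insert v (Q.image F)).card = 1 by omega)
      have hdY := (mem_sdiff.1 (hd ▸ mem_singleton_self d : d ∈ Y \ insert v (Q.image F))).1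
      refine h.ce.sat (m.sub hdY) (hO.1.1.trans sdiff_subset)
        (fun e => (mem_sdiff.1 (hO.1.1 e)).2 hdY) hO.2.1 fun x hx z hz e => ?_
      by_cases e1 : z ∈ Y
      · refine Or.inr (mem_singleton.1 (hd ▸ mem_sdiff.2 ⟨e1, fun e2 => ?_⟩))
        rcases mem_insert.1 e2 with e3 | e3
        · exact (mem_rem1.1 (hs hx)).2.2 (e3 ▸ e.symm)
        · obtain ⟨q, hq, rfl⟩ := mem_image.1 e3
          exact h.no_co hO hQ hq e1 hx e.symm
      · exact Or.inl (hO.1.2 x hx z (mem_sdiff.2 ⟨hz, e1⟩) e)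
  simp [m.card] at this
  omega

end Ex

end Pool.Agent.IsoSharp

/-! The extremal move with two vertices, and the bound. -/

namespace Pool.Agent.IsoSharp

open Finset Pool.Agent.IsoKer
open scoped Classical

variable {V : Type*} {G : SimpleGraph V} {k : ℕ}

/-- An extremal move of the second kind. -/
structure X2 (G : SimpleGraph V) (k : ℕ) (Z : Finset V) (F : V → V) (Y C : Finset V) (v v' : V)
    (T : Finset V) : Prop where
  ex : Ex G k Z F Y 0 C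
  j : J2 G k Z v v' T
  eq : Y = cn G Z v ∪ cn G Z v' ∪ T

namespace X2

variable {Z Y C T : Finset V} {F : V → V} {v v' : V} (h : X2 G k Z F Y C v v' T)
include h

theorem symm : X2 G k Z F Y C v' v T :=
  ⟨h.ex, h.j.symm, by rw [h.eq, union_comm (cn G Z v)]⟩

theorem mem {y : V} : y ∈ Y ↔
    y = v ∨ y = v' ∨ (y ∈ Z ∧ G.Adj v y) ∨ (y ∈ Z ∧ G.Adj v' y) ∨ y ∈ T := by
  rw [h.eq]
  simp only [mem_union, mem_cn]
  tauto

theorem vY : v ∈ Y := h.mem.2 (Or.inl rfl)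

theorem nY {y : V} (hy : y ∈ Z) (a : G.Adj v y) : y ∈ Y := h.mem.2 (by tauto)

theorem tY {y : V} (hy : y ∈ T) : y ∈ Y := h.mem.2 (by tauto)

theorem cnY {y : V} (hy : y ∈ cn G Z v) : y ∈ Y :=
  (mem_cn.1 hy).elim (fun e => e ▸ h.vY) fun e => h.nY e.1 e.2

theorem ext2 {u : V} {Y' : Finset V} (m : J1 G k Z u Y') (hC : ∀ y ∈ Y', y ∉ C) : False := by
  have := h.ex.max Y' 1 C (Or.inl ⟨rfl, u, m⟩) (fun x hx => mem_sdiff.2
    ⟨(mem_sdiff.1 (h.ex.sub hx)).1, fun e => hC x e hx⟩) h.ex.conn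
  omega

theorem low {a : V} (ha : a ∈ Y) (n : ∀ c ∈ C, ¬ G.Adj a c) : (nb G Z a).card ≤ k := by
  by_contra hc
  obtain ⟨Y', s, m⟩ := j1_big (G := G) (k := k) (h.ex.mv.basic.1 ha) (by omega)
  exact h.ext2 m fun y hy e => (mem_cn.1 (s hy)).elim (fun e1 => h.ex.nY ha (e1 ▸ e))
    fun e1 => n y e e1.2

theorem tw {t : V} (ht : t ∈ T) : ∃ w ∈ Z, G.Adj v w ∧ ¬ G.Adj v' w ∧ w ≠ v' ∧ G.Adj t w := by
  have h0 := mem_rem2.1 (h.j.sub ht)
  have h1 : k ≤ (nb G (rem G Z {v'}) t).card + 1 := by_contra fun hc =>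
    h.ext2 (j1_peel h.j.hv' h.j.dv' (mem_rem1.2 ⟨h0.1, h0.2.2⟩) (by omega)) fun y hy =>
      h.ex.nY ((mem_insert.1 hy).elim (fun e => e ▸ h.tY ht) h.symm.cnY)
  have h2 := h.j.pT t ht
  obtain ⟨w, h3, h4⟩ := exists_mem_notMem_of_card_lt_card (s := nb G (rem G Z {v, v'}) t)
    (t := nb G (rem G Z {v'}) t) (by omega)
  rw [mem_nb, mem_rem1] at h3
  rw [mem_nb, mem_rem2] at h4
  have : w ≠ v := fun e => h0.2.1.2 (e ▸ h3.2.symm)
  exact ⟨w, h3.1.1, by tauto, h3.1.2.2, h3.1.2.1, h3.2⟩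

theorem p3 {Q : Finset V} (hQ : CO G k (Z \ Y) Q) (hC : ∀ q ∈ Q, q ∉ C ∧ F q ∉ C) :
    (Q.filter fun q => G.Adj v (F q) ∧ ∀ c ∈ C, ¬ G.Adj (F q) c).card ≤ 2 := by
  have hk := h.ex.ce.hk
  have p := h.ex.co_pm hQ
  have hQZ : Q ⊆ Z := hQ.2.1.trans sdiff_subset
  obtain ⟨m, hm, c0, hc0, a0⟩ := h.ex.lam
  set A := Q.filter fun q => G.Adj v (F q) ∧ ∀ c ∈ C, ¬ G.Adj (F q) c with hA
  have mA : ∀ q ∈ A, q ∈ Q ∧ G.Adj v (F q) ∧ (∀ c ∈ C, ¬ G.Adj (F q) c) ∧ F q ∈ Y ∧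
      (nb G Z (F q)).card ≤ k ∧ m ≠ F q := fun q hq => by
    obtain ⟨h1, h2, h3⟩ := mem_filter.1 hq
    have := h.nY (p.mem q h1) h2
    exact ⟨h1, h2, h3, this, h.low this h3, fun e => h3 c0 hc0 (e ▸ a0)⟩
  have key : ∀ a ∈ A, ∀ b ∈ A, ∀ c ∈ A, a ≠ b → a ≠ c → b ≠ c → G.Adj (F a) m := by
    intro a ha b hb c hc n1 n2 n3
    obtain ⟨a1, a2, a3, a4, a5, a6⟩ := mA a ha
    obtain ⟨s, hs, n⟩ := exists_mem_notMem_of_card_lt_card
      (s := {a, b, c} ∪ Q.filter (F · = m)) (t := Q) (by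
        have := card_union_le {a, b, c} (Q.filter (F · = m))
        have := card_le_three (a := a) (b := b) (c := c)
        have := p.card_le (A := {m}) (filter_subset (F · = m) Q) (by simp)
        have := hQ.1.1
        rw [card_singleton] at *
        omega)
    simp only [mem_union, mem_insert, mem_singleton, mem_filter, not_or, not_and] at n
    have na : ∀ b ∈ Q, s ≠ b → ¬ G.Adj s (F b) := fun b hb n e =>
      n (p.inj s hs b hb ((p.uniq s hs _ (p.mem b hb) e).resolve_left (p.out b hb)).symm)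
    have good : ∀ b ∈ A, a ≠ b → s ≠ b → F b ∈ rem G Z {s, F a} ∧ (nb G Z (F b)).card ≤ k ∧
        (nb G (rem G Z {s, F a}) (F b)).card + 2 ≤ k := fun b hb n n' => by
      obtain ⟨b1, b2, b3, b4, b5, -⟩ := mA b hb
      refine ⟨mem_rem2.2 ⟨p.mem b b1, ⟨fun e => p.out b b1 (e ▸ hs), na b b1 n'⟩,
        fun e => n (p.inj a a1 b b1 e.symm), p.ind a a1 b b1⟩, b5,
        two_out b5 (rem_sub _ _) (hQZ b1) h.j.hv (fun e => (mem_sdiff.1 (hQ.2.1 b1)).2 (e ▸ h.vY))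
          (p.adj b b1).symm b2.symm (by simp [hQ.1.2 s hs b b1 n']) (by simp [a2.symm])⟩
    have e : nb G Z s ∩ nb G Z (F a) = {a} := by
      refine eq_singleton_iff_unique_mem.2 ⟨mem_inter.2 ⟨mem_nb.2 ⟨hQZ a1, hQ.1.2 s hs a a1 n.1.1⟩,
        mem_nb.2 ⟨hQZ a1, (p.adj a a1).symm⟩⟩, fun x hx => ?_⟩
      simp only [mem_inter, mem_nb] at hx
      have hxQ := (p.uniq s hs x hx.1.1 hx.1.2).resolve_right fun e => p.ind a a1 s hs (e ▸ hx.2.2)
      exact p.inj x hxQ a a1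
        ((p.uniq x hxQ _ (p.mem a a1) hx.2.2.symm).resolve_left (p.out a a1)).symm
    have gb := good b hb n1 n.1.2.1
    have gc := good c hc n2 n.1.2.2
    have j : J2 G k Z s (F a) {F b, F c} := ⟨hQZ hs, p.mem a a1, p.dg hQ.1 hQZ hs,
      le_antisymm a5 (p.deg a a1), fun e => p.out a a1 (e ▸ hs), na a a1 n.1.1,
      insert_subset gb.1 (singleton_subset_iff.2 gc.1), by rw [e]; simp, by
        rw [e, card_pair fun e => n3 (p.inj b (mA b hb).1 c (mA c hc).1 e)]; simp,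
      by simp [gb.2.1, gc.2.1], by
        simp only [mem_insert, mem_singleton, forall_eq_or_imp, forall_eq]
        exact ⟨gb.2.2, gc.2.2⟩⟩
    have := h.ex.ext1 (Or.inr ⟨rfl, _, _, _, j, rfl⟩) (fun y hy => by
      simp only [mem_union, mem_insert, mem_singleton] at hy
      rcases hy with (hy | hy) | hy | hy
      · exact (p.cn hs hy).elim (fun e => (hC y e).1) fun e => e ▸ (hC s hs).2
      · exact (mem_cn.1 hy).elim (fun e => e ▸ h.ex.nY a4) fun e e1 => a3 y e1 e.2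
      · exact hy ▸ (hC b (mA b hb).1).2
      · exact hy ▸ (hC c (mA c hc).1).2) hm hc0 a0
    simp only [mem_union, mem_insert, mem_singleton] at this
    rcases this with (e1 | e1) | e1 | e1
    · exact ((p.cn hs e1).elim (fun e => (mem_sdiff.1 (hQ.2.1 e)).2 hm)
        fun e => n.2 hs e.symm).elim
    · exact ((mem_cn.1 e1).resolve_left a6).2
    · exact absurd e1 (mA b hb).2.2.2.2.2
    · exact absurd e1 (mA c hc).2.2.2.2.2
  by_contra hc
  obtain ⟨a, b, c, ha, hb, hc, n1, n2, n3⟩ := two_lt_card_iff.1 (not_le.1 hc)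
  have e1 := key a ha b hb c hc n1 n2 n3
  have e2 := key b hb a ha c hc n1.symm n3 n2
  have hmZ := h.ex.mv.basic.1 hm
  have := two_out (X := Z \ nb G Z (F a)) (mA b hb).2.2.2.2.1 sdiff_subset hmZ h.j.hv
    (fun e => h.ex.nY (h.nY (mem_sdiff.1 (h.ex.sub hc0)).1 (e ▸ a0)) hc0) e2 (mA b hb).2.1.symm
    (by simp [hmZ, e1]) (by simp [h.j.hv, (mA a ha).2.1.symm])
  have h2 := p.com a (mA a ha).1 b (mA b hb).1 n1
  have : (nb G Z (F b) \ nb G Z (F a)).card ≤ (nb G (Z \ nb G Z (F a)) (F b)).card :=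
    card_le_card fun x hx => by
      simp only [mem_sdiff, mem_nb] at hx ⊢
      tauto
  omega

theorem nv {Q : Finset V} (hQ : CO G k (Z \ Y) Q) {q : V} (hq : q ∈ Q) : F q ≠ v := fun e =>
  (mem_sdiff.1 (hQ.2.1 hq)).2 (h.nY (mem_sdiff.1 (hQ.2.1 hq)).1
    (e ▸ ((h.ex.co_pm hQ).adj q hq).symm))

theorem many {Q : Finset V} (hQ : CO G k (Z \ Y) Q) (hC : ∀ q ∈ Q, q ∉ C ∧ F q ∉ C) :
    4 ≤ (Q.filter fun q => F q ∈ Y ∧ ∃ c ∈ C, G.Adj (F q) c).card := by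
  have hk := h.ex.ce.hk
  have p := h.ex.co_pm hQ
  have h1 := h.p3 hQ hC
  have h2 := h.symm.p3 hQ hC
  have h3 := h.ex.co_card hQ
  have h4 := p.card_le (A := T) (filter_subset (F · ∈ T) Q) fun q hq => (mem_filter.1 hq).2
  have h5 := h.j.cT
  have h6 := h.j.c1
  have s : Q.filter (F · ∈ Y) ⊆ (Q.filter fun q => F q ∈ Y ∧ ∃ c ∈ C, G.Adj (F q) c) ∪
      ((Q.filter fun q => G.Adj v (F q) ∧ ∀ c ∈ C, ¬ G.Adj (F q) c) ∪
      ((Q.filter fun q => G.Adj v' (F q) ∧ ∀ c ∈ C, ¬ G.Adj (F q) c) ∪ Q.filter (F · ∈ T))) := by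
    intro q hq
    simp only [mem_union, mem_filter] at hq ⊢
    by_cases e : ∃ c ∈ C, G.Adj (F q) c
    · exact Or.inl ⟨hq.1, hq.2, e⟩
    · push Not at e
      rcases h.mem.1 hq.2 with e1 | e1 | e1 | e1 | e1
      exacts [absurd e1 (h.nv hQ hq.1), absurd e1 (h.symm.nv hQ hq.1),
        Or.inr (Or.inl ⟨hq.1, e1.2, e⟩), Or.inr (Or.inr (Or.inl ⟨hq.1, e1.2, e⟩)),
        Or.inr (Or.inr (Or.inr ⟨hq.1, e1⟩))]
  have := (card_le_card s).trans ((card_union_le _ _).trans (Nat.add_le_add_left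
    ((card_union_le _ _).trans (Nat.add_le_add_left (card_union_le _ _) _)) _))
  omega

/-- A move avoiding `C` cannot contain only three links of a far clique. -/
theorem few {Q A Y' : Finset V} (hQ : CO G k (Z \ Y) Q) (hC : ∀ q ∈ Q, q ∉ C ∧ F q ∉ C)
    (hm : Mv G k Z Y' 0) (hY : ∀ y ∈ Y', y ∉ C) (hA : A.card ≤ 3)
    (hs : ∀ q ∈ Q, F q ∈ Y' → F q ∈ A) : False := by
  have h1 := h.many hQ hC
  have := (h.ex.co_pm hQ).card_le (A := A)
    (filter_subset (fun q => F q ∈ Y ∧ ∃ c ∈ C, G.Adj (F q) c) Q) fun q hq => by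
      obtain ⟨h2, h3, c, h4, h5⟩ := mem_filter.1 hq
      exact hs q h2 (h.ex.ext1 hm hY h3 h4 h5)
  omega

theorem no_no {O Q : Finset V} (hO : NO G k (Z \ Y) O) (hQ : CO G k (Z \ Y) Q) : False := by
  have hk := h.ex.ce.hk
  have p := h.ex.co_pm hQ
  obtain ⟨q, hq, h1, c, hc, a⟩ : ∃ q ∈ Q, F q ∈ Y ∧ ∃ c ∈ C, G.Adj (F q) c := by
    by_cases hC : ∀ q ∈ Q, q ∉ C ∧ F q ∉ C
    · obtain ⟨q, hq⟩ := card_pos.1 (lt_of_lt_of_le (by omega) (h.many hQ hC))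
      exact ⟨q, mem_filter.1 hq⟩
    · obtain ⟨x, hx, hxC⟩ : ∃ x ∈ Q, x ∈ C := by
        by_contra hc
        push Not at hc
        exact hC fun q hq => ⟨hc q hq, fun e =>
          hc q hq (h.ex.cl.2 _ e q (hQ.2.1 hq) (p.adj q hq).symm)⟩
      obtain ⟨q, hq⟩ := card_pos.1 (show 0 < (Q.filter (F · ∈ Y)).card by
        have := h.ex.co_card hQ; omega)
      rw [mem_filter] at hq
      exact ⟨q, hq.1, hq.2, q, conn_sub_cl (clq_conn hQ.1.2) hQ.2.1 h.ex.cl hx hxC hq.1,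
        (p.adj q hq.1).symm⟩
  obtain ⟨x, hx, e⟩ := h.ex.factA hO h1 hc a
  exact h.ex.no_co hO hQ hq h1 hx e

omit h in
theorem clF {Q : Finset V} (p : PM G k Z Q F) (h2 : Cl G Q (Z \ Y)) {q : V} (hq : q ∈ Q) :
    F q ∈ Y := by_contra fun n =>
  p.out q hq (h2.2 q hq _ (mem_sdiff.2 ⟨p.mem q hq, n⟩) (p.adj q hq))

theorem one_side {Q : Finset V} (h1 : Clq G k Q) (h2 : Cl G Q (Z \ Y)) (hC : ∀ q ∈ Q, q ∉ C) :
    ∃ q ∈ Q, G.Adj v' (F q) ∧ ¬ G.Adj v (F q) := by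
  have hk := h.ex.ce.hk
  have hQ := co_of_cl (by omega) h1 h2
  have p := h.ex.co_pm hQ
  have hQZ : Q ⊆ Z := h2.1.trans sdiff_subset
  have hQY : ∀ q ∈ Q, q ∉ Y := fun q hq => (mem_sdiff.1 (h2.1 hq)).2
  by_contra hc
  push Not at hc
  have fv : ∀ q ∈ Q, F q ∈ T ∨ G.Adj v (F q) := fun q hq => by
    rcases h.mem.1 (clF p h2 hq) with e | e | e | e | e
    exacts [absurd e (h.nv hQ hq), absurd e (h.symm.nv hQ hq), Or.inr e.2, Or.inr (hc q hq e.2),
      Or.inl e]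
  have fI : ∀ q ∈ Q, G.Adj v' (F q) → F q ∈ nb G Z v ∩ nb G Z v' := fun q hq e =>
    mem_inter.2 ⟨mem_nb.2 ⟨p.mem q hq, hc q hq e⟩, mem_nb.2 ⟨p.mem q hq, e⟩⟩
  have c1 := h.j.c1
  obtain ⟨t, ht, s, hs, n1, n2, b, hb, b1, b2⟩ : ∃ t ∈ T, ∃ s ∈ Q, ¬ G.Adj v' (F s) ∧ t ≠ F s ∧
      ∃ b ∈ Z, G.Adj s b ∧ G.Adj t b := by
    by_cases e : ∃ q ∈ Q, F q ∈ T
    · obtain ⟨q, hq, e⟩ := e
      obtain ⟨s, hs, n⟩ := exists_mem_notMem_of_card_lt_card
        (s := insert q (Q.filter fun x => G.Adj v' (F x))) (t := Q) (by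
          have := card_insert_le q (Q.filter fun x => G.Adj v' (F x))
          have := p.card_le (filter_subset (fun x => G.Adj v' (F x)) Q) fun x hx =>
            fI x (mem_filter.1 hx).1 (mem_filter.1 hx).2
          have := h1.1
          omega)
      simp only [mem_insert, mem_filter, not_or, not_and] at n
      exact ⟨F q, e, s, hs, n.2 hs, fun e => n.1 (p.inj s hs q hq e.symm), q, hQZ hq,
        h1.2 s hs q hq n.1, (p.adj q hq).symm⟩
    · push Not at e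
      have e1 : Q.image F = nb G Z v := eq_of_subset_of_card_le (image_subset_iff.2 fun q hq =>
        mem_nb.2 ⟨p.mem q hq, (fv q hq).resolve_left (e q hq)⟩)
        (by rw [card_image_of_injOn p.inj, h1.1, h.j.dv])
      obtain ⟨t, ht⟩ : T.Nonempty := card_pos.1 (by rw [h.j.cT]; omega)
      obtain ⟨w, a1, a2, a3, -, a4⟩ := h.tw ht
      obtain ⟨s, hs, rfl⟩ := mem_image.1 (e1 ▸ mem_nb.2 ⟨a1, a2⟩ : w ∈ Q.image F)
      exact ⟨t, ht, s, hs, a3, a4.ne, F s, a1, p.adj s hs, a4⟩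
  obtain ⟨w, a1, a2, -, -, a4⟩ := h.symm.tw ht
  have e0 : ∀ x ∈ Z, G.Adj v' x → ¬ G.Adj s x := fun x hx e e' =>
    (p.uniq s hs x hx e').elim (fun e1 => hQY x e1 (h.symm.nY hx e)) fun e1 => n1 (e1 ▸ e)
  have e : nb G Z v' ∩ nb G Z s = ∅ := eq_empty_of_forall_notMem fun x hx => by
    simp only [mem_inter, mem_nb] at hx
    exact e0 x hx.1.1 hx.1.2 hx.2.2
  have t0 := mem_rem2.1 (h.j.sub ht)
  have j : J2 G k Z v' s {t} := ⟨h.j.hv', hQZ hs, h.j.dv', p.dg h1 hQZ hs,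
    fun e => hQY s hs (e ▸ h.symm.vY), fun e => hQY s hs (h.symm.nY (hQZ hs) e),
    singleton_subset_iff.2 (mem_rem2.2 ⟨t0.1, t0.2.2, fun e => hQY s hs (e ▸ h.tY ht), fun e =>
      (p.uniq s hs t t0.1 e).elim (fun e1 => hQY t e1 (h.tY ht)) n2⟩), by rw [e]; simp,
    by rw [e]; simp, by simp [h.j.dT t ht], by
      simp only [mem_singleton, forall_eq]
      exact two_out (h.j.dT t ht) (rem_sub _ _) a1 hb (fun e => e0 w a1 a2 (e ▸ b1)) a4 b2
        (by simp [a2]) (by simp [b1])⟩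
  refine h.few (A := insert t (insert (F s) (nb G Z v ∩ nb G Z v'))) hQ
    (fun q hq => ⟨hC q hq, h.ex.nY (clF p h2 hq)⟩) (Or.inr ⟨rfl, _, _, _, j, rfl⟩) (fun y hy => ?_)
    (by
      have := card_insert_le t (insert (F s) (nb G Z v ∩ nb G Z v'))
      have := card_insert_le (F s) (nb G Z v ∩ nb G Z v')
      omega) fun q hq hy => ?_
  · simp only [mem_union, mem_singleton] at hy
    rcases hy with (hy | hy) | hy
    exacts [h.ex.nY (h.symm.cnY hy), (p.cn hs hy).elim (hC y) fun e => e ▸ h.ex.nY (clF p h2 hs),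
      hy ▸ h.ex.nY (h.tY ht)]
  · simp only [mem_union, mem_singleton] at hy
    simp only [mem_insert]
    rcases hy with (hy | hy) | hy
    exacts [Or.inr (Or.inr (fI q hq ((mem_cn.1 hy).resolve_left (h.symm.nv hQ hq)).2)),
      Or.inr (Or.inl ((p.cn hs hy).resolve_left (p.out q hq))), Or.inl hy]

theorem two_side {Q : Finset V} (h1 : Clq G k Q) (h2 : Cl G Q (Z \ Y)) (hC : ∀ q ∈ Q, q ∉ C)
    (hO : ∀ O, ¬ NO G k (Z \ Y) O) :
    ∃ P, CO G k (Z \ Y) P ∧ P ⊆ C ∧ k ≤ (P.filter fun q => G.Adj v (F q)).card + 1 := by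
  have hk := h.ex.ce.hk
  have hQ := co_of_cl (by omega) h1 h2
  have p := h.ex.co_pm hQ
  have hQZ : Q ⊆ Z := h2.1.trans sdiff_subset
  have hQY : ∀ q ∈ Q, q ∉ Y := fun q hq => (mem_sdiff.1 (h2.1 hq)).2
  obtain ⟨q1, hq1, a1, b1⟩ := h.one_side h1 h2 hC
  obtain ⟨q2, hq2, a2, -⟩ := h.symm.one_side h1 h2 hC
  set Y1 := cn G Z v ∪ insert (F q1) Q with hY1
  have mR : ∀ x, x ∈ Z \ Y1 ↔ x ∈ Z ∧ x ≠ v ∧ ¬ G.Adj v x ∧ x ≠ F q1 ∧ x ∉ Q := fun x => by
    simp only [hY1, mem_sdiff, mem_union, mem_cn, mem_insert]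
    tauto
  have uR : ∀ x ∈ Z \ Y, x ∉ Q → x ∈ Z \ Y1 := fun x hx n => by
    rw [mem_sdiff] at hx
    exact (mR x).2 ⟨hx.1, fun e => hx.2 (e ▸ h.vY), fun e => hx.2 (h.nY hx.1 e),
      fun e => hx.2 (e ▸ clF p h2 hq1), n⟩
  have nQ : ∀ x ∈ Z \ Y, x ∉ Q → ∀ z ∈ Z \ Y, G.Adj x z → z ∈ Z \ Y1 := fun x hx n z hz e =>
    uR z hz fun e1 => n (h2.2 z e1 x hx e.symm)
  have vR : v' ∈ Z \ Y1 := (mR _).2 ⟨h.j.hv', h.j.ne.symm, h.j.na, a1.ne,
    fun e => hQY _ e h.symm.vY⟩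
  have vD : v' ∉ rem G Z {v, F q1} := fun e => (mem_rem2.1 e).2.2.2 a1.symm
  have tR : ∀ t ∈ T, t ∈ rem G Z {v, F q1} → ∃ w ∈ Z \ Y1, G.Adj v' w ∧ G.Adj t w ∧ ¬ G.Adj v w :=
    fun t ht hr => by
      obtain ⟨w, c1, c2, c3, c4, c5⟩ := h.symm.tw ht
      exact ⟨w, (mR w).2 ⟨c1, c4, c3, fun e => (mem_rem2.1 hr).2.2.2 (e ▸ c5.symm),
        fun e => hQY w e (h.symm.nY c1 c2)⟩, c2, c5, c3⟩
  have yR : ∀ x ∈ rem G Z {v, F q1}, x ∈ Y → G.Adj v' x ∨ x ∈ T := fun x hx hy => by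
    have := mem_rem2.1 hx
    rcases h.mem.1 hy with e | e | e | e | e
    exacts [absurd e this.2.1.1, absurd (e ▸ hx) vD, absurd e.2 this.2.1.2, Or.inl e.2, Or.inr e]
  obtain ⟨P, hP, s1, s2, y, hy⟩ : ∃ P, Clq G k P ∧ P ⊆ Z \ Y1 ∧ P ⊆ rem G Z {v, F q1} ∧
      ∃ y, ∀ q ∈ P, ∀ z ∈ Z \ Y1, G.Adj q z → z ∈ P ∨ z = y := by
    by_contra hc
    have hd : Disjoint (cn G Z v) (insert (F q1) Q) := by
      rw [disjoint_insert_right]
      exact ⟨fun e => (mem_cn.1 e).elim (h.nv hQ hq1) fun e => b1 e.2,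
        disjoint_right.2 fun x hx e => hQY x hx (h.cnY e)⟩
    have := h.ex.ce.fin0 {v, F q1} Y1 ∅ ∅ ∅
      (union_subset (cn_sub h.j.hv) (insert_subset (p.mem q1 hq1) hQZ))
      ⟨v, mem_union_left _ (mem_cn.2 (Or.inl rfl))⟩
      ((av_of_disj fun x hx e => by
          have := mem_rem2.1 e
          exact (mem_cn.1 hx).elim this.2.1.1 fun e => this.2.1.2 e.2).union
        (Av.insert (fun S hS hs x hx hxQ => (mem_rem2.1 (hS (p.core h1 (hS.trans (rem_sub _ _)) hs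
          hq1 (fun e => (mem_rem2.1 (hS e)).2.2.2 (p.adj q1 hq1).symm) hx hxQ q2 hq2
          fun e => b1 (e ▸ a2)))).2.1.2 a2) (by simp)))
      (fun y P hP hs _ => absurd ⟨P, hP.clq, hP.sub, hs, y, hP.cl⟩ hc)
      fun O c1 c2 c3 _ => by
        exfalso
        by_cases hq : Clq G k O
        · exact hc ⟨O, hq, c1.1, c3, v, fun q hq z hz e => Or.inl (c1.2 q hq z hz e)⟩
        have n1 : ∀ x ∈ O, ¬ G.Adj v' x := fun x hx e => vD (c3 (c1.2 x hx v' vR e.symm))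
        have s : O ⊆ Z \ Y := fun x hx => mem_sdiff.2 ⟨rem_sub _ _ (c3 hx), fun e => by
          obtain ⟨w, d1, d2, d3, -⟩ := tR x ((yR x (c3 hx) e).resolve_left (n1 x hx)) (c3 hx)
          exact n1 w (c1.2 x hx w d1 d3) d2⟩
        exact hO O ⟨⟨s, fun x hx z hz e => c1.2 x hx z
          (nQ x (s hx) ((mR x).1 (c1.1 hx)).2.2.2.2 z hz e) e⟩, c2, hq⟩
    rw [hY1, card_union_of_disjoint hd, cn_card, h.j.dv, card_insert_of_notMem (p.out q1 hq1), h1.1,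
      card_empty] at this
    have := Nat.mul_le_mul_left (2 * k + 3) (card_le_two (a := v) (b := F q1))
    omega
  have hPZ : P ⊆ Z := s1.trans sdiff_subset
  have p' := h.ex.pm P hP hPZ
  have PQ : ∀ x ∈ P, x ∉ Q := fun x hx => ((mR x).1 (s1 hx)).2.2.2.2
  have nv : ∀ x ∈ P, ¬ G.Adj v x := fun x hx => ((mR x).1 (s1 hx)).2.2.1
  have fP : ∀ q ∈ P, G.Adj v (F q) ∨ F q ∈ Q ∨ F q = y := fun q hq => by
    by_contra hc
    push Not at hc
    exact (hy q hq _ ((mR _).2 ⟨p'.mem q hq, fun e => nv q hq (e ▸ (p'.adj q hq).symm), hc.1,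
      fun e => (mem_rem2.1 (s2 hq)).2.2.2 (e ▸ (p'.adj q hq).symm), hc.2.1⟩) (p'.adj q hq)).elim
      (p'.out q hq) hc.2.2
  have cy := p'.card_le (A := {y}) (filter_subset (F · = y) P) (by simp)
  rw [card_singleton] at cy
  have lP : ∀ x ∈ P, ∀ x' ∈ P, ∀ q ∈ Q, ∀ q' ∈ Q, x = F q → x' = F q' → x = x' :=
    fun x hx x' hx' q hq q' hq' e e' => by_contra fun n =>
      p.ind q hq q' hq' (e ▸ e' ▸ hP.2 x hx x' hx' n)
  by_cases hPC : ∀ x ∈ P, x ∉ C
  · exfalso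
    have cq : (P.filter (F · ∈ Q)).card ≤ 1 := card_le_one.2 fun a ha b hb => by
      rw [mem_filter] at ha hb
      exact lP a ha.1 b hb.1 _ ha.2 _ hb.2
        ((p.uniq _ ha.2 a (hPZ ha.1) (p'.adj a ha.1).symm).resolve_left (PQ a ha.1))
        ((p.uniq _ hb.2 b (hPZ hb.1) (p'.adj b hb.1).symm).resolve_left (PQ b hb.1))
    obtain ⟨s, hs, n⟩ := exists_mem_notMem_of_card_lt_card (t := P)
      (s := P.filter (F · ∈ Q) ∪ (P.filter (F · = y) ∪ P.filter (F · = F q2))) (by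
        have := p'.card_le (A := {F q2}) (filter_subset (F · = F q2) P) (by simp)
        have := (card_union_le _ _).trans (Nat.add_le_add cq ((card_union_le _ _).trans
          (Nat.add_le_add cy this)))
        rw [card_singleton] at this
        have := hP.1
        omega)
    simp only [mem_union, mem_filter, not_or, not_and] at n
    have a3 : G.Adj v (F s) := ((fP s hs).resolve_right fun e => e.elim (n.1 hs) (n.2.1 hs))
    have e0 : ∀ x ∈ cn G Z s, x ∉ cn G Z q2 := fun x hx hx' => by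
      rcases p'.cn hs hx with e | e <;> rcases p.cn hq2 hx' with e' | e'
      exacts [PQ x e e', nv x e (e' ▸ a2), n.1 hs (e ▸ e'), n.2.2 hs (e ▸ e')]
    have e : nb G Z s ∩ nb G Z q2 = ∅ := eq_empty_of_forall_notMem fun x hx =>
      e0 x (mem_insert_of_mem (mem_inter.1 hx).1) (mem_insert_of_mem (mem_inter.1 hx).2)
    have j : J2 G k Z s q2 {v} := ⟨hPZ hs, hQZ hq2, p'.dg hP hPZ hs, p.dg h1 hQZ hq2,
      fun e => PQ s hs (e ▸ hq2), fun e => e0 q2 (mem_cn.2 (Or.inr ⟨hQZ hq2, e⟩))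
        (mem_cn.2 (Or.inl rfl)), singleton_subset_iff.2 (mem_rem2.2 ⟨h.j.hv,
        ⟨((mR s).1 (s1 hs)).2.1.symm, fun e => nv s hs e.symm⟩, fun e => hQY q2 hq2 (e ▸ h.vY),
        fun e => hQY q2 hq2 (h.nY (hQZ hq2) e.symm)⟩), by rw [e]; simp, by rw [e]; simp,
      by simp [h.j.dv], by
        simp only [mem_singleton, forall_eq]
        exact two_out h.j.dv.le (rem_sub _ _) (p'.mem s hs) (p.mem q2 hq2) (n.2.2 hs) a3 a2
          (by simp [p'.adj s hs]) (by simp [p.adj q2 hq2])⟩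
    have c3 : (P ∩ Q.image F).card ≤ 1 := card_le_one.2 fun a ha b hb => by
      obtain ⟨q, hq, e⟩ := mem_image.1 (mem_inter.1 ha).2
      obtain ⟨q', hq', e'⟩ := mem_image.1 (mem_inter.1 hb).2
      exact lP a (mem_inter.1 ha).1 b (mem_inter.1 hb).1 q hq q' hq' e.symm e'.symm
    refine h.few (A := insert (F s) (insert (F q2) (P ∩ Q.image F))) hQ
      (fun q hq => ⟨hC q hq, h.ex.nY (clF p h2 hq)⟩) (Or.inr ⟨rfl, _, _, _, j, rfl⟩)
      (fun y hy => ?_) (by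
        have := card_insert_le (F s) (insert (F q2) (P ∩ Q.image F))
        have := card_insert_le (F q2) (P ∩ Q.image F)
        omega) fun q hq hy => ?_
    · simp only [mem_union, mem_singleton] at hy
      rcases hy with (hy | hy) | hy
      exacts [(p'.cn hs hy).elim (hPC y) fun e => e ▸ h.ex.nY (h.nY (p'.mem s hs) a3),
        (p.cn hq2 hy).elim (hC y) fun e => e ▸ h.ex.nY (clF p h2 hq2), hy ▸ h.ex.nY h.vY]
    · simp only [mem_union, mem_singleton] at hy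
      simp only [mem_insert]
      rcases hy with (hy | hy) | hy
      exacts [(p'.cn hs hy).elim (fun e => Or.inr (Or.inr (mem_inter.2
          ⟨e, mem_image_of_mem F hq⟩))) Or.inl,
        Or.inr (Or.inl ((p.cn hq2 hy).resolve_left (p.out q hq))), absurd hy (h.nv hQ hq)]
  push Not at hPC
  obtain ⟨x0, hx0, hx0C⟩ := hPC
  have sU : P ⊆ Z \ Y := fun x hx => mem_sdiff.2 ⟨hPZ hx, fun hxY => by
    obtain ⟨a, ha, e⟩ : ∃ a ∈ P, G.Adj v' a := by
      rcases yR x (s2 hx) hxY with e | e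
      · exact ⟨x, hx, e⟩
      · obtain ⟨w, d1, d2, d3, d4⟩ := tR x e (s2 hx)
        obtain ⟨w', c1, c2, -, -, c5⟩ := h.tw e
        have e1 := (p'.uniq x hx w' c1 c5).resolve_left fun e => nv w' e c2
        exact ⟨w, (p'.uniq x hx w (mem_sdiff.1 d1).1 d3).resolve_right
          fun e2 => d4 (e2 ▸ e1 ▸ c2), d2⟩
    have e1 : v' = y := (hy a ha v' vR e.symm).resolve_left fun e => vD (s2 e)
    have c : Cl G (P ∩ (Z \ Y)) (Z \ Y) := ⟨inter_subset_right, fun u hu z hz e => by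
      rw [mem_inter] at hu
      exact mem_inter.2 ⟨(hy u hu.1 z (nQ u hu.2 (PQ u hu.1) z hz e) e).resolve_right
        fun e2 => (mem_sdiff.1 hz).2 (e2 ▸ e1 ▸ h.symm.vY), hz⟩⟩
    have s := conn_sub_cl h.ex.conn h.ex.sub c hx0C (mem_inter.2 ⟨hx0, h.ex.sub hx0C⟩)
    have := card_lt_card (show C ⊂ P from ⟨s.trans inter_subset_left, fun hh => h.ex.nY hxY (hh hx)⟩)
    have := h.ex.le h2.1 (clq_conn h1.2)
    have := h1.1
    have := hP.1
    omega⟩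
  refine ⟨P, ⟨hP, sU, y, fun q hq z hz e => hy q hq z (nQ q (sU hq) (PQ q hq) z hz e) e⟩,
    conn_sub_cl (clq_conn hP.2) sU h.ex.cl hx0 hx0C, ?_⟩
  have s : P ⊆ (P.filter fun q => G.Adj v (F q)) ∪ P.filter (F · = y) := fun q hq => by
    simp only [mem_union, mem_filter]
    rcases fP q hq with e | e | e
    exacts [Or.inl ⟨hq, e⟩, absurd (h2.2 _ e q (sU hq) (p'.adj q hq).symm) (PQ q hq), Or.inr ⟨hq, e⟩]
  have := (card_le_card s).trans (card_union_le _ _)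
  have := hP.1
  omega

theorem false : False := by
  have hk := h.ex.ce.hk
  have hav : Av G k (rem G Z {v, v'}) Y := h.eq ▸ h.j.av
  have cY : Y.card = 2 * k + 3 := h.eq ▸ h.j.card
  have c2 : ({v, v'} : Finset V).card = 2 := card_pair h.j.ne
  have hO : ∀ O, ¬ NO G k (Z \ Y) O := fun O hO => by
    obtain ⟨b, hb⟩ := h.ex.no_pt
    have := h.ex.acct0 {v, v'} ∅ {b} ∅ hav (fun Q hQ => (h.no_no hO hQ).elim)
      (fun Q h1 h2 => (h.no_no hO (co_of_cl (by omega) h1 h2)).elim)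
      fun O hO _ => ⟨b, hb O hO, by simp⟩
    rw [cY, c2, card_empty, card_singleton] at this
    omega
  obtain ⟨Q, h1, h2⟩ : ∃ Q, Clq G k Q ∧ Cl G Q (Z \ Y) := by
    by_contra hc
    obtain ⟨a, b, hab⟩ := h.ex.two
    have := h.ex.acct0 {v, v'} {a, b} ∅ ∅ hav (fun Q hQ => by simpa using hab Q hQ)
      (fun Q h1 h2 => absurd ⟨Q, h1, h2⟩ hc) fun O h1 => absurd h1 (hO O)
    rw [cY, c2, card_empty] at this
    have := card_le_two (a := a) (b := b)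
    omega
  by_cases hc : ∃ Q, Clq G k Q ∧ Cl G Q (Z \ Y) ∧ ∀ q ∈ Q, q ∉ C
  · obtain ⟨Q, h1, h2, h3⟩ := hc
    obtain ⟨P, a1, a2, a3⟩ := h.two_side h1 h2 h3 hO
    obtain ⟨P', b1, b2, b3⟩ := h.symm.two_side h1 h2 h3 hO
    obtain ⟨q, hq⟩ := clq_ne (by omega) h1
    have e := h.ex.three (co_of_cl (by omega) h1 h2) a1 b1 (fun e => h3 q hq (a2 (e ▸ hq)))
      fun e => h3 q hq (b2 (e ▸ hq))
    subst e
    have p := h.ex.co_pm a1
    have c := card_union_add_card_inter (P.filter fun q => G.Adj v (F q))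
      (P.filter fun q => G.Adj v' (F q))
    have := card_le_card (union_subset (filter_subset (fun q => G.Adj v (F q)) P)
      (filter_subset (fun q => G.Adj v' (F q)) P))
    have := p.card_le (A := nb G Z v ∩ nb G Z v') (inter_subset_left.trans
      (filter_subset (fun q => G.Adj v (F q)) P) : _ ∩ P.filter (fun q => G.Adj v' (F q)) ⊆ P)
      fun q hq => by
        simp only [mem_inter, mem_filter, mem_nb] at hq ⊢
        exact ⟨⟨p.mem q hq.1.1, hq.1.2⟩, p.mem q hq.1.1, hq.2.2⟩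
    have := h.j.c1
    have := a1.1.1
    omega
  have eC : ∀ Q, Clq G k Q → Cl G Q (Z \ Y) → Q = C := fun Q h1 h2 => by
    by_contra n
    exact hc ⟨Q, h1, h2, fun q a b => n (conn_eq_cl (clq_conn h1.2) h.ex.conn h2 h.ex.cl a b)⟩
  have e := eC Q h1 h2
  subst e
  obtain ⟨q, hq⟩ := clq_ne (by omega) h1
  have b1 := h.ex.ce.big (insert q {v, v'}) fun S hS hs => by
    have sU : S ⊆ Z \ Y := fun x hx => mem_sdiff.2 ⟨rem_sub _ _ (hS hx),
      hav S (hS.trans (rem_mono subset_rfl (subset_insert _ _))) hs x hx⟩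
    obtain ⟨S', s, ⟨x, hx⟩, c1, c2⟩ := exists_conn (G := G) (U := S) (T := S)
      ⟨subset_rfl, fun _ _ _ h _ => h⟩ hs.1
    have c3 := hs.inter (s hx) hx fun a _ ha z hz => c1.2 a ha z hz
    rw [inter_eq_right.2 s] at c3
    have c4 := h.ex.le (s.trans sU) c2
    have c5 := c3.card_ge
    rw [h1.1] at c4
    have := eC S' (c3.clq c4) ⟨s.trans sU, fun a ha z hz e => by_contra fun n => by
      have := h.ex.le (insert_subset hz (s.trans sU)) (conn_insert c2 ha e.symm)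
      rw [card_insert_of_notMem n, h1.1] at this
      omega⟩
    exact ((mem_rem.1 (hS (s (this ▸ hq)))).2 q (mem_insert_self _ _)).1 rfl
  have b2 := mul_insert (2 * k + 3) q {v, v'}
  have b3 := card_le_card h2.1
  have b4 := card_sdiff_add_card_eq_card h.ex.mv.basic.1
  rw [c2] at b2
  rw [h1.1] at b3
  obtain ⟨y, -, P, a1, a2, -, a3⟩ := exists_pend' (k := k) (by omega) h.ex.ce.conn (by omega)
    fun E hE => by
      have h3 := h.ex.ce.big E (cf_of_free hE)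
      have : 3 ≤ E.card := by
        by_contra hh
        have := Nat.mul_le_mul_left (2 * k + 3) (show E.card ≤ 2 by omega)
        omega
      have := Nat.mul_le_mul_left (k + 1) this
      omega
  exact h.ex.ce.k2 a2 a1 y y fun x hx z hz e => (a3 x hx z hz e).imp_right Or.inl

end X2

/-- The bound for connected sets without pendant clique. -/
theorem bound (hk : 11 ≤ k) (Z : Finset V) : BB G k Z := by
  induction hn : Z.card using Nat.strong_induction_on generalizing Z with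
  | _ n ih =>
  subst hn
  intro h1 h2 h3
  by_contra hc
  push Not at hc
  obtain ⟨F, Y, j, C, h⟩ := CE.exists_ex (G := G) ⟨hk, h1, h2, h3, fun D hD => hc D hD,
    fun Z' s n => ih _ (card_lt_card (ssubset_of_subset_of_ne s n)) Z' rfl⟩
  rcases h.mv with ⟨-, v, m⟩ | ⟨rfl, v, v', T, m, e⟩
  exacts [h.j1 m, X2.false ⟨h, m, e⟩]

end Pool.Agent.IsoSharp

/-! The linear bound for the kernel of an extremal graph. -/

namespace Pool.Agent.IsoSharp

open Finset Pool.Agent.IsoKer Pool.Agent.IsoDefs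
open scoped Classical

variable {V : Type*} {G : SimpleGraph V} {i k : ℕ}

theorem iota_le_cf [Fintype V] (hi : i ≠ 3) (hk : 1 ≤ k) {D : Finset V}
    (h : CF G k (rem G univ D)) : iota i k G ≤ D.card := by
  refine iota_le fun hh => ?_
  rw [← coe_rem_univ] at hh
  obtain ⟨T, h1, h2⟩ := core_of_hasF hi hk hh
  exact h T h1 h2

theorem kernel_lin [Fintype V] (hk : 11 ≤ k) (hG : Conn G univ) {S : Finset V}
    {Q : V → Finset V} (h : Fam G k S Q)
    (hmax : ∀ y ∈ rest S Q, ∀ P ⊆ rest S Q, ¬ PendA G k y P) {g : ℕ}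
    (hg : ∀ E : Finset V, CF G k (rem G univ E) → Fintype.card V ≤ (k + 1) * E.card + g) :
    (rest S Q).card ≤ (2 * k + 3) * g + if S = ∅ then 2 * k + 2 else 0 := by
  split_ifs with hS
  · have hu : rest S Q = univ := eq_univ_of_forall fun x => by simp [mem_rest, hS]
    rw [hu] at hmax ⊢
    by_cases hq : Clq G k (univ : Finset V)
    · rw [hq.1]; omega
    obtain ⟨D, e1, e2⟩ := bound hk univ hG (fun y P hP => hmax y (mem_univ y) P (subset_univ P)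
      ⟨Or.inl hP.clq, hP.out, fun q hq z => hP.cl q hq z (mem_univ z)⟩) hq
    have := Nat.mul_le_mul_left (2 * k + 3) (hg D e1)
    have := Nat.mul_le_mul_left (k + 1) e2
    rw [card_univ] at *
    nlinarith
  · obtain ⟨T, w⟩ := h.weights (by omega) hG
    have hq : ∀ y ∈ S, Clq G k (Q y) := fun y hy =>
      (h.pend y hy).1.resolve_right fun e => by omega
    have hT : ∀ y ∈ S, (T y).card = 0 := fun y hy => by
      have h1 := w.wt y hy
      rw [(hq y hy).1, mul_add, mul_one, Nat.add_eq_right, mul_eq_zero] at h1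
      omega
    have hn := w.card_eq
    rw [sum_congr rfl fun y hy => by rw [hT y hy], sum_const, smul_eq_mul] at hn
    have key : ∀ x ∈ rem G (rest S Q) S, ∀ z, G.Adj x z → z ∈ rest S Q := fun x hx z a =>
      (h.nb_rest (rem_sub _ _ hx) a).resolve_left fun hz => ((mem_rem.1 hx).2 z hz).2 a.symm
    obtain ⟨D, e1, e2⟩ := star (G := G) (k := k) (by omega) (rest S Q) (rem G (rest S Q) S)
      (fun _ => 0) (rem_sub _ _) (fun Z _ => bound hk Z)
      (fun y P hP hs => absurd ⟨Or.inl hP.clq, hP.out, fun q hq z a =>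
        hP.cl q hq z (key q (hs hq) z a) a⟩ (hmax y hP.mem P hP.sub))
      fun O hO ho hs => by
        obtain ⟨s, hs'⟩ := nonempty_iff_ne_empty.2 hS
        have := hG O ⟨subset_univ _, fun x hx z _ a => hO.2 x hx z (key x (hs hx) z a) a⟩ ho.ne
        exact absurd hs' (mem_rest.1 (hO.1 (this ▸ mem_univ s))).1
    have h1 := hg (S ∪ D) fun X hX hc => by
      refine e1 X (fun x hx => ?_) hc
      have h2 := (mem_rem.1 (hX hx)).2
      refine mem_rem.2 ⟨mem_rem.2 ⟨mem_rest.2 ⟨fun e => (h2 x (mem_union_left _ e)).1 rfl,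
        fun y hy hxy => ?_⟩, fun d hd => h2 d (mem_union_left _ hd)⟩,
        fun d hd => h2 d (mem_union_right _ hd)⟩
      refine cf_of_free (w.free y hy) (X ∩ Q y) (fun u hu => ?_) (hc.inter hx hxy
        fun a _ ha z hz e => ((h.pend y hy).2.2 a ha z e).resolve_right
          ((mem_rem.1 (hX hz)).2 y (mem_union_left _ hy)).1)
      rw [card_eq_zero.1 (hT y hy)]
      exact mem_rem.2 ⟨(mem_inter.1 hu).2, fun d hd => (mem_rem.1 (hX (mem_inter.1 hu).1)).2 d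
        (mem_union_left _ ((show d = y by simpa using hd) ▸ hy))⟩
    have h2 := mul_union (k + 1) S D
    simp only [sum_const_zero, add_zero, zero_add, mul_one] at e2 hn ⊢
    have h3 : (rest S Q).card ≤ (k + 1) * D.card + g := by omega
    have := Nat.mul_le_mul_left (2 * k + 3) h3
    have := Nat.mul_le_mul_left (k + 1) (show (2 * k + 3) * D.card ≤ 2 * (rest S Q).card by omega)
    nlinarith

theorem sharp_main [Fintype V] (hi : i = 1 ∨ i = 2) (hk : 11 ≤ k) (hG : G.Connected) :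
    iota i k G = Fintype.card V / (k + 1) ↔
      ∃ (S : Finset V) (Q : V → Finset V), IsUnitFamily k G S Q ∧
        (∀ y ∈ kernelSet S Q, ∀ P : Finset V, (P : Set V) ⊆ kernelSet S Q → ¬ IsPendant k G y P) ∧
        (S.Nonempty → (kernelSet S Q).ncard ≤ (2 * k + 3) * (Fintype.card V % (k + 1))) ∧
        (kernelSet S Q).ncard ≤ (2 * k + 3) * (Fintype.card V % (k + 1)) + (2 * k + 2) ∧
        (kernelMarks G S Q).ncard ≤ 2 * (Fintype.card V % (k + 1)) ∧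
        iotaMarked i k (G.induce (kernelSet S Q)) (kernelMarks G S Q) =
          (kernelSet S Q).ncard / (k + 1) := by
  have hm := kernel_main (G := G) (i := i) (k := k) (by omega) (by omega) hG
  constructor
  · intro he
    obtain ⟨S, Q, h1, h2, -, h3, h4⟩ := hm.1 he
    have := kernel_lin hk (conn_of_connected hG) (fam_iff.2 h1) (fun y hy P hP hp =>
      h2 y (coe_rest S Q ▸ hy) P (coe_rest S Q ▸ hP) (pendA_iff.1 hp))
      (g := Fintype.card V % (k + 1)) fun E hE => by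
        have h1 := Nat.mul_le_mul_left (k + 1)
          (he ▸ iota_le_cf (i := i) (by omega) (by omega) hE)
        have h2 := Nat.div_add_mod (Fintype.card V) (k + 1)
        omega
    rw [← Set.ncard_coe_finset, coe_rest] at this
    refine ⟨S, Q, h1, h2, fun hS => ?_, ?_, h3, h4⟩
    · rwa [if_neg hS.ne_empty] at this
    · split_ifs at this <;> omega
  · rintro ⟨S, Q, h1, h2, -, h3, h4, h5⟩
    refine hm.2 ⟨S, Q, h1, h2, h3.trans ?_, h4, h5⟩
    have h6 := Nat.le_self_pow (n := 14) (by omega) (k + 1)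
    have := Nat.mul_le_mul_right (Fintype.card V % (k + 1) + 1)
      (show 2 * k + 3 ≤ 10 ^ 12 * (k + 1) ^ 14 by omega)
    rw [mul_add] at this
    omega

end Pool.Agent.IsoSharp
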