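import Pool.Agent.Work.MP_1346a1_co.PairMain
import Pool.Agent.Work.MP_1346a1_co.Defs3

/-! Graphs of order `2 (k + 1)` in which no vertex isolates: basic facts. -/

namespace Pool.Agent.IsoTwo

open Finset Pool.Agent.IsoKer Pool.Agent.IsoDefs
open scoped Classical

variable {V : Type*} [Fintype V] {G : SimpleGraph V} {k : ℕ}

/-- The degree of `v`. -/
noncomputable abbrev dg (G : SimpleGraph V) (v : V) : ℕ := (nb G univ v).card

/-- The vertices outside the closed neighbourhood of `v`. -/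
noncomputable abbrev Yv (G : SimpleGraph V) (v : V) : Finset V := rem G univ {v}

theorem mem_Y {v x : V} : x ∈ Yv G v ↔ x ≠ v ∧ ¬ G.Adj v x := by simp

theorem mem_nbu {v x : V} : x ∈ nb G univ v ↔ G.Adj v x := by simp

theorem clq_deg {Q S : Finset V} {q : V} (hQ : Clq G k Q) (hq : q ∈ Q)
    (hS : ∀ s ∈ S, s ∉ Q ∧ G.Adj q s) : k + S.card ≤ dg G q + 1 := by
  have hd : Disjoint (Q.erase q) S := disjoint_left.2 fun x hx hx' =>
    (hS x hx').1 (mem_of_mem_erase hx)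
  have h1 := card_le_card (s := Q.erase q ∪ S) (t := nb G univ q) fun x hx => by
    rcases mem_union.1 hx with e | e
    · exact mem_nbu.2 (hQ.2 q hq x (mem_of_mem_erase e) (mem_erase.1 e).1.symm)
    · exact mem_nbu.2 (hS x e).2
  rw [card_union_of_disjoint hd] at h1
  have := card_erase_add_one hq
  have := hQ.1
  unfold dg
  omega

/-- The standing assumptions. -/
structure Tw (G : SimpleGraph V) (k : ℕ) : Prop where
  hk : 3 ≤ k
  card : Fintype.card V = 2 * (k + 1)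
  nf : ∀ v, ¬ Free G k (Yv G v)
  np : NoPend G k univ
  conn : Conn G univ

namespace Tw

theorem Yc (h : Tw G k) (v : V) : (Yv G v).card + dg G v + 1 = 2 * (k + 1) := by
  have := rem_card (G := G) (mem_univ v)
  rwa [card_univ, h.card] at this

theorem deg_le (h : Tw G k) (v : V) : dg G v ≤ k + 1 := by
  have := h.Yc v
  by_contra hh
  exact h.nf v (free_small (by omega))

theorem big (h : Tw G k) {v : V} (hv : k + 1 ≤ dg G v) : Clq G k (Yv G v) :=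
  clq_of_not_free (by have := h.Yc v; omega) (h.nf v)

theorem compl_card (h : Tw G k) (X : Finset V) : (univ \ X).card + X.card = 2 * (k + 1) := by
  rw [card_sdiff_add_card_eq_card (subset_univ X), card_univ, h.card]

/-- At most two neighbours outside a clique. -/
theorem three (h : Tw G k) {Q : Finset V} {q a b c : V} (hQ : Clq G k Q) (hq : q ∈ Q)
    (ha : a ∉ Q) (hb : b ∉ Q) (hc : c ∉ Q) (n : a ≠ b) (e1 : G.Adj q a) (e2 : G.Adj q b)
    (e3 : G.Adj q c) : c = a ∨ c = b := by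
  by_contra hh
  push Not at hh
  have := clq_deg (S := {a, b, c}) hQ hq (by simp [*])
  rw [card_eq_three.2 ⟨a, b, c, n, hh.1.symm, hh.2.symm, rfl⟩] at this
  have := h.deg_le q
  omega

/-- A clique vertex with two outer neighbours misses a clique. -/
theorem two (h : Tw G k) {Q : Finset V} {q a b : V} (hQ : Clq G k Q) (hq : q ∈ Q)
    (ha : a ∉ Q) (hb : b ∉ Q) (n : a ≠ b) (e1 : G.Adj q a) (e2 : G.Adj q b) :
    Clq G k (Yv G q) ∧ ∀ x, x ∈ Yv G q ↔ x ∉ Q ∧ x ≠ a ∧ x ≠ b := by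
  have := clq_deg (S := {a, b}) hQ hq (by simp [*])
  rw [card_pair n] at this
  refine ⟨h.big (by omega), fun x => mem_Y.trans ⟨fun hx => ⟨fun e => hx.2 (hQ.2 q hq x e hx.1.symm),
    fun e => hx.2 (e ▸ e1), fun e => hx.2 (e ▸ e2)⟩, fun hx => ⟨fun e => hx.1 (e ▸ hq),
    fun e => ?_⟩⟩⟩
  rcases h.three hQ hq ha hb hx.1 n e1 e2 e with e' | e'
  exacts [hx.2.1 e', hx.2.2 e']

theorem out (h : Tw G k) {Q : Finset V} (hQ : Clq G k Q) {y : V} (hy : y ∉ Q) :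
    ∃ q ∈ Q, ∃ z, G.Adj q z ∧ z ∉ Q ∧ z ≠ y := by
  obtain ⟨q, hq, z, -, hz⟩ := h.np Q (subset_univ _) hQ y (mem_univ _) hy
  exact ⟨q, hq, z, hz⟩

/-- A vertex with just one neighbour in a missed set of `k + 1` vertices hangs on a dominating
vertex. -/
theorem hang1 (h : Tw G k) {u w v : V} (hu : (Yv G u).card ≤ k + 1) (hw : w ∈ Yv G u)
    (hv : v ∈ Yv G u) (a : G.Adj w v) (h1 : ∀ x ∈ Yv G u, G.Adj w x → x = v) :
    ∀ x ∈ Yv G u, x = v ∨ G.Adj v x := by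
  have hk := h.hk
  have h2 : ∀ T ⊆ Yv G u, (nb G T w).card ≤ 1 := fun T hT =>
    le_trans (card_le_card (t := {v}) fun x hx =>
      mem_singleton.2 (h1 x (hT (mem_nb.1 hx).1) (mem_nb.1 hx).2)) (by simp)
  rcases small_cases hu (h.nf u) with ⟨c, hc⟩ | ⟨K, hK, hcl⟩ | hd
  · rcases hc.dom w hw with e | e
    · subst e
      have h3 := card_le_card (s := (Yv G u).erase w) (t := nb G (Yv G u) w) fun x hx =>
        mem_nb.2 ⟨mem_of_mem_erase hx,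
          (hc.dom x (mem_of_mem_erase hx)).resolve_left (mem_erase.1 hx).1⟩
      rw [hc.erase_card hw] at h3
      have := h2 _ subset_rfl
      omega
    · exact h1 c hc.mem e.symm ▸ hc.dom
  · exfalso
    by_cases e : w ∈ K
    · have := (hK.sp (by omega)).2.2 w e
      have := h2 K hcl.1
      omega
    · have := card_add_two_le hcl.1 hw hv a.ne e fun hh => e (hcl.2 v hh w hw a.symm)
      have := hK.1
      omega
  · have := hd.2 w hw
    have := h2 _ subset_rfl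
    omega

end Tw

/-- A clique seen from `v` only through its outer neighbours, each vertex having at most one. -/
structure Uq (G : SimpleGraph V) (k : ℕ) (Q : Finset V) (v : V) : Prop where
  tw : Tw G k
  q : Clq G k Q
  hv : v ∉ Q
  na : ∀ t ∈ Q, ¬ G.Adj v t
  cl : ∀ t ∈ Q, ∀ z ∉ Q, G.Adj t z → G.Adj v z
  one : ∀ t ∈ Q, ∀ z ∉ Q, ∀ z' ∉ Q, G.Adj t z → G.Adj t z' → z = z'

namespace Uq

variable {Q : Finset V} {v : V}

theorem nb_le (h : Uq G k Q v) {t : V} (ht : t ∈ Q) (T : Finset V) :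
    (nb G T t).card ≤ ((T ∩ Q).erase t).card + 1 := by
  have h1 : ((nb G T t) \ Q).card ≤ 1 := card_le_one.2 fun a ha b hb =>
    h.one t ht a (mem_sdiff.1 ha).2 b (mem_sdiff.1 hb).2 (mem_nb.1 (mem_sdiff.1 ha).1).2
      (mem_nb.1 (mem_sdiff.1 hb).1).2
  have h2 : ((nb G T t) ∩ Q).card ≤ ((T ∩ Q).erase t).card := card_le_card fun x hx =>
    mem_erase.2 ⟨(mem_nb.1 (mem_inter.1 hx).1).2.ne.symm,
      mem_inter.2 ⟨(mem_nb.1 (mem_inter.1 hx).1).1, (mem_inter.1 hx).2⟩⟩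
  have := card_sdiff_add_card_inter (nb G T t) Q
  omega

theorem star (h : Uq G k Q v) {t w f : V} (ht : t ∈ Q) (hw : w ∉ Q) (a : G.Adj t w)
    (hf : f ∈ Yv G w) (hd : k ≤ (nb G (Yv G w) f).card) : IsHubPair k G ∧ k + 1 ≤ dg G f := by
  have hk := h.tw.hk
  have vw : G.Adj v w := h.cl t ht w hw a
  have tY : t ∉ Yv G w := fun e => (mem_Y.1 e).2 a.symm
  have vY : v ∉ Yv G w := fun e => (mem_Y.1 e).2 vw.symm
  have wY : w ∉ Yv G w := fun e => (mem_Y.1 e).1 rfl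
  have fQ : f ∉ Q := fun e => by
    have h1 := h.nb_le e (Yv G w)
    have := card_add_two_le (T := (Yv G w ∩ Q).erase f) (A := Q)
      ((erase_subset _ _).trans inter_subset_right) e ht (fun e1 => tY (e1 ▸ hf))
      (notMem_erase _ _) fun e1 => tY (mem_inter.1 (mem_of_mem_erase e1)).1
    have := h.q.1
    omega
  have cR := h.tw.compl_card Q
  rw [h.q.1] at cR
  have mR : ∀ x, x ∉ Q → x ∈ univ \ Q := fun x hx => mem_sdiff.2 ⟨mem_univ _, hx⟩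
  have fv : f ≠ v := fun e => vY (e ▸ hf)
  have fw : f ≠ w := (mem_Y.1 hf).1
  have vf : G.Adj v f := by
    by_contra n
    have := card_add_three_le (T := nb G (Yv G w) f) (A := univ \ Q)
      (fun x hx => mR x fun e => n (h.cl x e f fQ (mem_nb.1 hx).2.symm)) (mR f fQ) (mR v h.hv)
      (mR w hw) fv fw vw.ne (not_mem_nb_self _ _) (fun e => vY (mem_nb.1 e).1)
      fun e => wY (mem_nb.1 e).1
    omega
  have hs : insert v (nb G (Yv G w) f) ⊆ nb G univ f :=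
    insert_subset (mem_nbu.2 vf.symm) (nb_mono (subset_univ _) f)
  have hc : (insert v (nb G (Yv G w) f)).card = (nb G (Yv G w) f).card + 1 :=
    card_insert_of_notMem fun e => vY (mem_nb.1 e).1
  have h1 := card_le_card hs
  have h2 := h.tw.deg_le f
  have hb : k + 1 ≤ dg G f := by unfold dg; omega
  have he := eq_of_subset_of_card_le hs (by unfold dg at h2; omega)
  have nf : ∀ x, G.Adj f x → x = v ∨ x ∈ Yv G w := fun x e =>
    (mem_insert.1 (he ▸ mem_nbu.2 e : x ∈ insert v (nb G (Yv G w) f))).imp_right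
      fun e1 => (mem_nb.1 e1).1
  have qf := h.tw.big hb
  have wf : w ∈ Yv G f := mem_Y.2 ⟨fw.symm, fun e => (mem_Y.1 hf).2 e.symm⟩
  have tf : t ∈ Yv G f := mem_Y.2 ⟨fun e => fQ (e ▸ ht), fun e =>
    (nf t e).elim (fun e1 => h.hv (e1 ▸ ht)) tY⟩
  have sub : ∀ x ∈ Yv G f, x ∉ Q → x = w := fun x hx e =>
    h.one t ht x e w hw (qf.2 t tf x hx fun e1 => e (e1 ▸ ht)) a
  obtain ⟨u, hu, uf⟩ : ∃ u ∈ Q, u ∉ Yv G f := by
    by_contra hh
    push Not at hh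
    have := card_add_one_le (T := Q) (A := Yv G f) hh wf hw
    have := h.q.1
    have := qf.1
    omega
  have eY : Yv G f = insert w (Q.erase u) := eq_of_subset_of_card_le (fun x hx => by
      by_cases e : x ∈ Q
      exacts [mem_insert_of_mem (mem_erase.2 ⟨fun e1 => uf (e1 ▸ hx), e⟩),
        mem_insert.2 (Or.inl (sub x hx e))])
    (by
      have := card_insert_le w (Q.erase u)
      have := card_erase_add_one hu
      have := h.q.1
      have := qf.1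
      omega)
  have inY : ∀ x ∈ Q, x ≠ u → x ∈ Yv G f := fun x hx n =>
    eY ▸ mem_insert_of_mem (mem_erase.2 ⟨n, hx⟩)
  have fu : G.Adj f u := by
    by_contra n
    exact uf (mem_Y.2 ⟨fun e => fQ (e ▸ hu), n⟩)
  have wu : ¬ G.Adj w u := (mem_Y.1 ((nf u fu).resolve_left fun e => h.hv (e ▸ hu))).2
  have wq : ∀ x ∈ Q, x ≠ u → G.Adj w x := fun x hx n =>
    qf.2 w wf x (inY x hx n) fun e => hw (e ▸ hx)
  have nw : ∀ x ∉ Q, G.Adj w x → x = v := fun x hx e => by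
    by_contra n
    have : x ∈ Yv G f := mem_Y.2 ⟨fun e1 => (mem_Y.1 hf).2 (e1 ▸ e), fun e1 =>
      (mem_Y.1 ((nf x e1).resolve_left n)).2 e⟩
    exact e.ne (sub x this hx).symm
  have mu : ∀ x, x ∈ Yv G u ↔ x ∉ Q ∧ x ≠ f := fun x => mem_Y.trans
    ⟨fun hx => ⟨fun e => hx.2 (h.q.2 u hu x e hx.1.symm), fun e => hx.2 (e ▸ fu.symm)⟩,
      fun hx => ⟨fun e => hx.1 (e ▸ hu), fun e => hx.2 (h.one u hu x hx.1 f fQ e fu.symm)⟩⟩
  have cu : (Yv G u).card ≤ k + 1 := by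
    have := card_add_one_le (T := Yv G u) (A := univ \ Q) (fun x hx => mR x ((mu x).1 hx).1)
      (mR f fQ) fun e => ((mu f).1 e).2 rfl
    omega
  have dv := h.tw.hang1 cu ((mu w).2 ⟨hw, fw.symm⟩) ((mu v).2 ⟨h.hv, fv.symm⟩) vw.symm
    fun x hx e => nw x ((mu x).1 hx).1 e
  have mA : ∀ x, x ∈ (univ \ Q).erase w ↔ x ≠ w ∧ x ∉ Q := by simp
  have nA : ∀ x, x ∉ (univ \ Q).erase w → x = w ∨ x ∈ Q := fun x hx => by
    rw [mA] at hx; clear * - hx; grind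
  refine ⟨⟨(univ \ Q).erase w, v, f, w, u, ?_, (mA v).2 ⟨vw.ne, h.hv⟩, (mA f).2 ⟨fw, fQ⟩, fv.symm,
    notMem_erase _ _, fun e => ((mA u).1 e).2 hu, fun e => hw (e ▸ hu),
    fun y hy => ⟨fun n => ?_, fun n => ?_⟩, fun y hy z hz => ?_, fun y hy z hz => ?_⟩, hb⟩
  · have := card_erase_add_one (mR w hw)
    omega
  · by_cases e : y = f
    exacts [e ▸ vf, (dv y ((mu y).2 ⟨((mA y).1 hy).2, e⟩)).resolve_left n]
  · by_contra e
    exact ((mA y).1 hy).1 (sub y (mem_Y.2 ⟨n, e⟩) ((mA y).1 hy).2)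
  · have uw : u ≠ w := fun e => hw (e ▸ hu)
    rw [Ne, Ne, Sym2.eq_iff]
    rcases nA y hy with e | e <;> rcases nA z hz with e' | e'
    · simp [e, e']
    · subst e
      refine ⟨fun a => ⟨a.ne, ?_⟩, fun hh => wq z e' fun e1 => hh.2 (Or.inl ⟨rfl, e1⟩)⟩
      rintro (e1 | e1)
      exacts [wu (e1.2 ▸ a), uw e1.1.symm]
    · subst e'
      refine ⟨fun a => ⟨a.ne, ?_⟩, fun hh => (wq y e fun e1 => hh.2 (Or.inr ⟨e1, rfl⟩)).symm⟩
      rintro (e1 | e1)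
      exacts [uw e1.2.symm, wu (e1.1 ▸ a.symm)]
    · refine ⟨fun a => ⟨a.ne, ?_⟩, fun hh => h.q.2 y e z e' hh.1⟩
      rintro (e1 | e1)
      exacts [hw (e1.1 ▸ e), hw (e1.2 ▸ e')]
  · rw [mA] at hy
    refine ⟨fun a => ?_, ?_⟩
    · rcases nA z hz with e | e
      · exact Or.inl ⟨nw y hy.2 (e ▸ a.symm), e⟩
      · by_cases e1 : z = u
        · exact Or.inr ⟨h.one z e y hy.2 f fQ a.symm (e1 ▸ fu.symm), e1⟩
        · exact absurd (h.one z e y hy.2 w hw a.symm (wq z e e1).symm) hy.1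
    · rintro (⟨rfl, rfl⟩ | ⟨rfl, rfl⟩)
      exacts [vw, fu]

theorem core (h : Uq G k Q v) {t w : V} (ht : t ∈ Q) (hw : w ∉ Q) (a : G.Adj t w)
    {T : Finset V} (hne : T.Nonempty) (hcl : Cl G T (Yv G w))
    (hd : ∀ x ∈ T, k ≤ (nb G T x).card + 1) :
    ∀ x ∈ Q, x ≠ t → ∃ z ∈ T, z ∉ Q ∧ G.Adj x z := by
  have hk := h.tw.hk
  have vw : G.Adj v w := h.cl t ht w hw a
  have tY : t ∉ Yv G w := fun e => (mem_Y.1 e).2 a.symm
  have vY : v ∉ Yv G w := fun e => (mem_Y.1 e).2 vw.symm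
  have wY : w ∉ Yv G w := fun e => (mem_Y.1 e).1 rfl
  have cR := h.tw.compl_card Q
  rw [h.q.1] at cR
  have mR : ∀ x, x ∉ Q → x ∈ univ \ Q := fun x hx => mem_sdiff.2 ⟨mem_univ _, hx⟩
  have hT := core_card hne hd
  obtain ⟨s, hs, sQ⟩ : ∃ s ∈ T, s ∈ Q := by
    by_contra hh
    push Not at hh
    obtain ⟨t', ht', w', a', hw', n⟩ := h.tw.out h.q hw
    have : w' ∈ T := by
      by_contra e
      have := card_add_three_le (T := T) (A := univ \ Q) (fun x hx => mR x (hh x hx)) (mR w' hw')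
        (mR v h.hv) (mR w hw) (fun e1 => h.na t' ht' (e1 ▸ a'.symm)) n vw.ne e
        (fun e => vY (hcl.1 e)) fun e => wY (hcl.1 e)
      omega
    exact hh t' (hcl.2 w' this t' (mem_Y.2 ⟨fun e => hw (e ▸ ht'),
      fun e => n (h.one t' ht' w' hw' w hw a' e.symm)⟩) a'.symm) ht'
  have c1 := h.nb_le sQ T
  have c2 := hd s hs
  have c3 := card_erase_add_one (mem_inter.2 ⟨hs, sQ⟩)
  have e : T ∩ Q = Q.erase t := eq_of_subset_of_card_le (fun x hx =>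
    mem_erase.2 ⟨fun e1 => tY (e1 ▸ hcl.1 (mem_inter.1 hx).1), (mem_inter.1 hx).2⟩) (by
      have := card_erase_add_one ht
      have := h.q.1
      omega)
  intro x hx n
  have xT : x ∈ T ∩ Q := e ▸ mem_erase.2 ⟨n, hx⟩
  by_contra hh
  push Not at hh
  have c4 := card_le_card (s := nb G T x) (t := (T ∩ Q).erase x) fun y hy => by
    rw [mem_nb] at hy
    exact mem_erase.2 ⟨hy.2.ne.symm, mem_inter.2 ⟨hy.1, by_contra fun e1 => hh y hy.1 e1 hy.2⟩⟩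
  have := card_erase_add_one xT
  have := hd x (mem_inter.1 xT).1
  have := card_erase_add_one ht
  have := h.q.1
  rw [e] at *
  omega

theorem hub (h : Uq G k Q v) : IsHubPair k G ∧ ∃ f, k + 1 ≤ dg G f := by
  have hk := h.tw.hk
  by_contra hcon
  have key : ∀ t ∈ Q, ∀ w ∉ Q, G.Adj t w → ∃ T, T ⊆ Yv G w ∧
      (∀ x ∈ T, k ≤ (nb G T x).card + 1) ∧ ∀ x ∈ Q, x ≠ t → ∃ z ∈ T, z ∉ Q ∧ G.Adj x z := by
    intro t ht w hw a
    rcases obs (h.tw.nf w) with ⟨f, hf, hd⟩ | ⟨T, h1, h2, h3, -⟩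
    · exact absurd ((h.star ht hw a hf hd).imp_right fun e => ⟨f, e⟩) hcon
    · exact ⟨T, h2.1, h3, h.core ht hw a h1 h2 h3⟩
  obtain ⟨t1, ht1, w1, a1, hw1, -⟩ := h.tw.out h.q h.hv
  obtain ⟨t2, ht2, w2, a2, hw2, n⟩ := h.tw.out h.q hw1
  have n' : t2 ≠ t1 := fun e => n (h.one t1 ht1 w2 hw2 w1 hw1 (e ▸ a2) a1)
  have all : ∀ x, ∃ z, x ∈ Q → z ∉ Q ∧ G.Adj x z := fun x => by
    by_cases e : x = t1
    · exact ⟨w1, fun _ => ⟨hw1, e ▸ a1⟩⟩
    by_cases hx : x ∈ Q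
    · obtain ⟨T, -, -, h3⟩ := key t1 ht1 w1 hw1 a1
      obtain ⟨z, -, hz⟩ := h3 x hx e
      exact ⟨z, fun _ => hz⟩
    · exact ⟨x, fun e => absurd e hx⟩
  choose ω hω using all
  have far : ∀ t ∈ Q, ∀ x ∈ Q, x ≠ t → ∃ T, T ⊆ Yv G (ω t) ∧
      (∀ x ∈ T, k ≤ (nb G T x).card + 1) ∧ ω x ∈ T := fun t ht x hx n => by
    obtain ⟨T, h1, h2, h3⟩ := key t ht _ (hω t ht).1 (hω t ht).2
    obtain ⟨z, h4, h5, h6⟩ := h3 x hx n
    exact ⟨T, h1, h2, h.one x hx z h5 _ (hω x hx).1 h6 (hω x hx).2 ▸ h4⟩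
  have farY : ∀ t ∈ Q, ∀ x ∈ Q, x ≠ t → ω x ∈ Yv G (ω t) := fun t ht x hx n =>
    let ⟨_, h1, _, h3⟩ := far t ht x hx n
    h1 h3
  have inj : Set.InjOn ω Q := fun x hx y hy e => by
    by_contra n
    exact (mem_Y.1 (farY y hy x hx n)).1 e
  have third : ∀ t ∈ Q, ∀ x ∈ Q, x ≠ t → ∃ z ∈ Yv G (ω t), G.Adj (ω x) z ∧ z ∉ Q ∧ z ≠ v ∧
      z ∉ Q.image ω := fun t ht x hx n => by
    obtain ⟨T, h1, h2, h3⟩ := far t ht x hx n
    obtain ⟨z, hz, zx⟩ := exists_mem_ne (s := nb G T (ω x)) (by have := h2 _ h3; omega) x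
    rw [mem_nb] at hz
    refine ⟨z, h1 hz.1, hz.2, fun e => zx (inj e hx ?_), fun e => (mem_Y.1 (h1 hz.1)).2
      (e ▸ (h.cl t ht _ (hω t ht).1 (hω t ht).2).symm), fun e => ?_⟩
    · exact h.one z e _ (hω z e).1 _ (hω x hx).1 (hω z e).2 hz.2.symm
    · obtain ⟨y, hy, rfl⟩ := mem_image.1 e
      exact (mem_Y.1 (farY x hx y hy fun e1 => hz.2.ne (e1 ▸ rfl))).2 hz.2
  obtain ⟨z, z1, z2, z3, z4, z5⟩ := third t1 ht1 t2 ht2 n'
  obtain ⟨y, y1, y2, y3, y4, y5⟩ := third t2 ht2 t1 ht1 n'.symm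
  have cR := h.tw.compl_card Q
  have mR : ∀ x, x ∉ Q → x ∈ univ \ Q := fun x hx => mem_sdiff.2 ⟨mem_univ _, hx⟩
  have := card_add_three_le (T := Q.image ω) (A := univ \ Q) (fun x hx => by
      obtain ⟨y, hy, rfl⟩ := mem_image.1 hx
      exact mR _ (hω y hy).1) (mR z z3) (mR y y3) (mR v h.hv)
    (fun e => (mem_Y.1 z1).2 (e ▸ y2)) z4 y4 z5 y5 fun e => by
      obtain ⟨y, hy, e1⟩ := mem_image.1 e
      exact h.na y hy (e1 ▸ (hω y hy).2.symm)
  rw [card_image_of_injOn inj, h.q.1] at *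
  omega

end Uq

end Pool.Agent.IsoTwo

/-! All degrees at most `k`. -/

namespace Pool.Agent.IsoTwo

open Finset Pool.Agent.IsoKer Pool.Agent.IsoDefs
open scoped Classical

variable {V : Type*} [Fintype V] {G : SimpleGraph V} {k : ℕ}

/-- The standing assumptions with all degrees at most `k`. -/
structure Lo (G : SimpleGraph V) (k : ℕ) : Prop where
  tw : Tw G k
  low : ∀ v, dg G v ≤ k

/-- A set of `k + 1` vertices with all inner degrees `k - 1`. -/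
def Ck (G : SimpleGraph V) (k : ℕ) (X : Finset V) : Prop :=
  X.card = k + 1 ∧ ∀ x ∈ X, (nb G X x).card + 1 = k

omit [Fintype V] in
theorem Ck.uniq {X : Finset V} (h : Ck G k X) {x y z : V} (hx : x ∈ X) (hy : y ∈ X) (hz : z ∈ X)
    (n1 : ¬ Nr G x y) (n2 : ¬ Nr G x z) : y = z := by
  have := rem_card (G := G) hx
  have := h.1
  have := h.2 x hx
  exact card_le_one.1 (show (rem G X {x}).card ≤ 1 by omega) y
    (mem_rem1.2 ⟨hy, not_or.1 n1⟩) z (mem_rem1.2 ⟨hz, not_or.1 n2⟩)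

omit [Fintype V] in
theorem Ck.partner {X : Finset V} (h : Ck G k X) {x : V} (hx : x ∈ X) :
    ∃ y ∈ X, ¬ Nr G x y := by
  have := rem_card (G := G) hx
  have := h.1
  have := h.2 x hx
  obtain ⟨y, hy⟩ : (rem G X {x}).Nonempty := card_pos.1 (by omega)
  exact ⟨y, (mem_rem1.1 hy).1, not_or.2 (mem_rem1.1 hy).2⟩

theorem mem_Y' {v x : V} : x ∈ Yv G v ↔ ¬ Nr G v x := by rw [mem_Y, Nr, not_or]

/-- A member: `k + 1` vertices containing the neighbourhood of the centre `c`. -/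
structure Mb (G : SimpleGraph V) (k : ℕ) (X : Finset V) (c : V) : Prop where
  card : X.card = k + 1
  sub : ∀ x, Nr G c x → x ∈ X
  ty : (∀ x ∈ X, Nr G c x) ∨ (Ck G k X ∧ ∃ d ∈ X, ¬ Nr G c d ∧ ∀ x, Nr G d x → x ∈ X)

omit [Fintype V] in
theorem Mb.mem {X : Finset V} {c : V} (h : Mb G k X c) : c ∈ X := h.sub c Nr.rfl

theorem Mb.iso {X : Finset V} {c : V} (m : Mb G k X c) :
    ∀ x ∈ Yv G c, ∀ y ∈ Yv G c, G.Adj x y → x ∈ univ \ X := fun x hx y hy a => by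
  refine mem_sdiff.2 ⟨mem_univ _, fun e => ?_⟩
  rcases m.ty with e1 | ⟨e1, d, hd, n, e2⟩
  · exact mem_Y'.1 hx (e1 x e)
  · obtain rfl := e1.uniq m.mem e hd (mem_Y'.1 hx) n
    exact a.ne (e1.uniq m.mem hd (e2 y (Nr.of a)) n (mem_Y'.1 hy))

namespace Lo

theorem noK (h : Lo G k) {v : V} {K : Finset V} (hK : Clq G k K) (hcl : Cl G K (Yv G v)) :
    False := by
  have U : Uq G k K v := by
    refine ⟨h.tw, hK, fun e => (mem_Y.1 (hcl.1 e)).1 rfl, fun t ht => (mem_Y.1 (hcl.1 ht)).2,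
      fun t ht z hz a => ?_, fun t ht z hz z' hz' a a' => ?_⟩
    · by_contra n
      exact hz (hcl.2 t ht z (mem_Y.2 ⟨fun e => (mem_Y.1 (hcl.1 ht)).2 (e ▸ a.symm), n⟩) a)
    · by_contra n
      have := clq_deg (S := {z, z'}) hK ht (by simp [*])
      rw [card_pair n] at this
      have := h.low t
      omega
  obtain ⟨f, hf⟩ := U.hub.2
  have := h.low f
  omega

/-- A vertex with `k` neighbours in `X` has its closed neighbourhood in `X`. -/
theorem sub_of (h : Lo G k) {X : Finset V} {c : V} (hc : c ∈ X) (hd : k ≤ (nb G X c).card) :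
    ∀ x, Nr G c x → x ∈ X := by
  have e : nb G X c = nb G univ c :=
    eq_of_subset_of_card_le (nb_mono (subset_univ _) c) ((h.low c).trans hd)
  rintro x (rfl | a)
  exacts [hc, (mem_nb.1 (e ▸ mem_nbu.2 a : x ∈ nb G X c)).1]

theorem bk (h : Lo G k) {X : Finset V} {c : V} (hc : Bk G k c X) : Mb G k X c := by
  have h3 := card_le_card (s := X.erase c) (t := nb G X c) fun x hx =>
    mem_nb.2 ⟨mem_of_mem_erase hx, (hc.dom x (mem_of_mem_erase hx)).resolve_left (mem_erase.1 hx).1⟩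
  rw [hc.erase_card hc.mem] at h3
  exact ⟨hc.card, h.sub_of hc.mem h3, Or.inl hc.dom⟩

theorem full (h : Lo G k) {f : V} (hf : k ≤ dg G f) :
    (∃ c, ∀ x, Nr G c x ↔ ¬ Nr G f x) ∨ Ck G k (Yv G f) := by
  have := h.tw.Yc f
  rcases small_cases (show (Yv G f).card ≤ k + 1 by omega) (h.tw.nf f) with
    ⟨c, hc⟩ | ⟨K, hK, hcl⟩ | hd
  · exact Or.inl ⟨c, fun x => ⟨fun e => mem_Y'.1 ((h.bk hc).sub x e),
      fun e => hc.dom x (mem_Y'.2 e)⟩⟩
  · exact (h.noK hK hcl).elim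
  · exact Or.inr hd

/-- A vertex of inner degree `k - 1` has at most one outer neighbour, and is then full. -/
theorem outer (h : Lo G k) {T : Finset V} {t w : V} (hd : k ≤ (nb G T t).card + 1) (hw : w ∉ T)
    (a : G.Adj t w) : k ≤ dg G t ∧ ∀ x, G.Adj t x → x ∈ T ∨ x = w := by
  have h1 := card_add_one_le (nb_mono (G := G) (subset_univ T) t) (mem_nbu.2 a)
    fun e => hw (mem_nb.1 e).1
  refine ⟨by unfold dg; omega, fun x e => ?_⟩
  by_contra hh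
  push Not at hh
  have := card_add_two_le (nb_mono (G := G) (subset_univ T) t) (mem_nbu.2 a) (mem_nbu.2 e)
    hh.2.symm (fun e => hw (mem_nb.1 e).1) fun e => hh.1 (mem_nb.1 e).1
  have := h.low t
  unfold dg at this
  omega

theorem flip (h : Lo G k) {X : Finset V} (hX : Ck G k X) {t w p : V} (ht : t ∈ X) (hw : w ∉ X)
    (a : G.Adj t w) (hp : p ∈ X) (n : ¬ Nr G t p) :
    ∃ c ∉ X, G.Adj c p ∧ ∀ x, Nr G c x ↔ ¬ Nr G t x := by
  have hk := h.tw.hk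
  obtain ⟨h1, h2⟩ := h.outer (hX.2 t ht).ge hw a
  have h3 : (nb G (Yv G t) p).card ≤ 1 := card_le_one.2 fun x hx y hy => by
    rw [mem_nb] at hx hy
    have k1 : ∀ z ∈ Yv G t, G.Adj p z → z ∉ X := fun z hz e e1 =>
      e.ne (hX.uniq ht hp e1 n (mem_Y'.1 hz))
    exact (((h.outer (hX.2 p hp).ge (k1 y hy.1 hy.2) hy.2).2 x hx.2).resolve_left
      (k1 x hx.1 hx.2))
  rcases h.full h1 with ⟨c, hc⟩ | hd
  · have cp : c ≠ p := fun e => by
      subst e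
      have h4 := card_le_card (s := (Yv G t).erase c) (t := nb G (Yv G t) c) fun x hx =>
        mem_nb.2 ⟨mem_of_mem_erase hx, ((hc x).2 (mem_Y'.1 (mem_of_mem_erase hx))).adj
          (mem_erase.1 hx).1.symm⟩
      have := card_erase_add_one (mem_Y'.2 n)
      have := h.tw.Yc t
      have := h.low t
      omega
    exact ⟨c, fun e => cp (hX.uniq ht e hp ((hc c).1 Nr.rfl) n), ((hc p).2 n).adj cp, hc⟩
  · have := hd.2 p (mem_Y'.2 n)
    omega

theorem centre (h : Lo G k) {X : Finset V} (hX : Ck G k X) {v : V}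
    (hv : ∀ x ∈ X, ¬ Nr G v x) : ∃ c, Mb G k X c := by
  by_cases hh : ∃ u ∈ X, ∀ x, G.Adj u x → x ∈ X
  · obtain ⟨u, hu, h1⟩ := hh
    obtain ⟨d, hd, n⟩ := hX.partner hu
    refine ⟨u, hX.1, fun x e => e.elim (· ▸ hu) (h1 x), Or.inr ⟨hX, d, hd, n, fun x e => ?_⟩⟩
    by_contra hx
    obtain ⟨c, hc, a, -⟩ := h.flip hX hd hx (e.adj fun e1 => hx (e1 ▸ hd)) hu fun e => n e.symm
    exact hc (h1 c a.symm)
  exfalso
  push Not at hh
  have all : ∀ p, ∃ c, p ∈ X → c ∉ X ∧ G.Adj c p ∧ c ≠ v ∧ ∀ x ∈ X, G.Adj c x → x = p := by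
    intro p
    by_cases hp : p ∈ X
    swap
    · exact ⟨p, fun e => absurd e hp⟩
    obtain ⟨t, ht, n⟩ := hX.partner hp
    obtain ⟨w, a, hw⟩ := hh t ht
    obtain ⟨c, h1, h2, h3⟩ := h.flip hX ht hw a hp fun e => n e.symm
    exact ⟨c, fun _ => ⟨h1, h2, fun e => hv p hp (e ▸ Nr.of h2), fun x hx e =>
      hX.uniq ht hx hp ((h3 x).1 (Nr.of e)) fun e => n e.symm⟩⟩
  choose c hc using all
  have inj : Set.InjOn c X := fun x hx y hy e => (hc y hy).2.2.2 x hx (e ▸ (hc x hx).2.1)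
  have := card_add_one_le (T := X.image c) (A := univ \ X) (a := v) (fun x hx => by
      obtain ⟨y, hy, rfl⟩ := mem_image.1 hx
      exact mem_sdiff.2 ⟨mem_univ _, (hc y hy).1⟩)
    (mem_sdiff.2 ⟨mem_univ _, fun e => hv v e Nr.rfl⟩) fun e => by
      obtain ⟨y, hy, e1⟩ := mem_image.1 e
      exact (hc y hy).2.2.1 e1
  rw [card_image_of_injOn inj] at this
  have := h.tw.compl_card X
  have := hX.1
  omega

theorem compl (h : Lo G k) {X : Finset V} {c : V} (m : Mb G k X c) :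
    ∃ d, Mb G k (univ \ X) d := by
  have hk := h.tw.hk
  have cc := h.tw.compl_card X
  rw [m.card] at cc
  have far : ∀ x ∈ univ \ X, ¬ Nr G c x := fun x hx e => (mem_sdiff.1 hx).2 (m.sub x e)
  have iso := m.iso
  rcases obs (h.tw.nf c) with ⟨f, hf, hd⟩ | ⟨T, h1, h2, h3, h4⟩
  · obtain ⟨y, hy⟩ : (nb G (Yv G c) f).Nonempty := card_pos.1 (by omega)
    have fX := iso f hf y (mem_nb.1 hy).1 (mem_nb.1 hy).2
    have := card_le_card (s := nb G (Yv G c) f) (t := nb G (univ \ X) f) fun x hx =>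
      mem_nb.2 ⟨iso x (mem_nb.1 hx).1 f hf (mem_nb.1 hx).2.symm, (mem_nb.1 hx).2⟩
    exact ⟨f, h.bk ⟨fX, by omega, dom_of_card fX (by omega)⟩⟩
  · have hT : T ⊆ univ \ X := fun t ht => by
      obtain ⟨y, hy⟩ : (nb G T t).Nonempty := card_pos.1 (by have := h3 t ht; omega)
      exact iso t (h2.1 ht) y (h2.1 (mem_nb.1 hy).1) (mem_nb.1 hy).2
    by_cases hc : T.card ≤ k
    · exact (h.noK (clq_of_core h1 h3 hc) h2).elim
    obtain rfl : T = univ \ X := eq_of_subset_of_card_le hT (by omega)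
    refine h.centre ⟨by omega, fun x hx => ?_⟩ far
    have := h3 x hx
    have := h4 x (h2.1 hx)
    have := nb_card_mono (G := G) h2.1 x
    omega

theorem same (h : Lo G k) {X X' : Finset V} {c d c' : V} (hX : Ck G k X)
    (s1 : ∀ x, Nr G c x → x ∈ X) (hd : d ∈ X) (n : ¬ Nr G c d) (m : Mb G k X' c')
    (s2 : ∀ x, Nr G c x → x ∈ X') : X = X' := by
  have hk := h.tw.hk
  have hc := s1 c Nr.rfl
  have sub : ∀ x ∈ X, x ≠ d → x ∈ X' := fun x hx e =>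
    s2 x (by_contra fun e1 => e (hX.uniq hc hx hd e1 n))
  by_cases e : d ∈ X'
  · refine eq_of_subset_of_card_le (fun x hx => ?_) (by rw [hX.1, m.card])
    by_cases e1 : x = d
    exacts [e1 ▸ e, sub x hx e1]
  exfalso
  have nd : ∀ x ∈ X, x ≠ c → Nr G x d := fun x hx e1 =>
    by_contra fun e2 => e1 (hX.uniq hd hx hc (fun e3 => e2 e3.symm) fun e3 => n e3.symm)
  have c1 := card_erase_add_one hd
  obtain ⟨z, hz, zX⟩ := exists_mem_notMem_of_card_lt_card (s := X.erase d) (t := X')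
    (by rw [m.card]; have := hX.1; omega)
  have zX' : z ∉ X := fun e1 => zX (mem_erase.2 ⟨fun e2 => e (e2 ▸ hz), e1⟩)
  have eX : insert z (X.erase d) = X' := eq_of_subset_of_card_le
    (insert_subset hz fun x hx => sub x (mem_of_mem_erase hx) (mem_erase.1 hx).1)
    (by rw [card_insert_of_notMem zX, m.card]; have := hX.1; omega)
  have cz : ¬ Nr G c z := fun e1 => zX' (s1 z e1)
  rcases m.ty with e1 | ⟨e1, -⟩
  · have gX : c' ∈ X := s1 c' (e1 c (s2 c Nr.rfl)).symm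
    exact e (m.sub d (nd c' gX fun e2 => cz (e2 ▸ e1 z hz)))
  have xz : ∀ x ∈ X, x ≠ c → x ≠ d → G.Adj x z := fun x hx n1 n2 => by
    by_contra a
    have := card_add_one_le (T := nb G X' x) (A := nb G X x) (a := d) (fun y hy => by
        rw [mem_nb] at hy ⊢
        rcases mem_insert.1 (eX ▸ hy.1 : y ∈ insert z (X.erase d)) with e2 | e2
        exacts [absurd (e2 ▸ hy.2) a, ⟨mem_of_mem_erase e2, hy.2⟩])
      (mem_nb.2 ⟨hd, (nd x hx n1).adj n2⟩) fun e2 => e (mem_nb.1 e2).1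
    have := hX.2 x hx
    have := e1.2 x (sub x hx n2)
    omega
  obtain ⟨x, hx, hx'⟩ := exists_mem_notMem_of_card_lt_card (s := {c, d}) (t := X)
    (by have := card_le_two (a := c) (b := d); have := hX.1; omega)
  simp only [mem_insert, mem_singleton, not_or] at hx'
  obtain ⟨p, hp, np⟩ := hX.partner hx
  obtain ⟨g, g1, g2, g3⟩ := h.flip hX hx zX' (xz x hx hx'.1 hx'.2) hp np
  have pc : p ≠ c := fun e2 => hx'.2 (hX.uniq hc hx hd (fun e3 => np (e2 ▸ e3.symm)) n)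
  have pd : p ≠ d := fun e2 => np (e2 ▸ nd x hx hx'.1)
  have := ((h.outer (hX.2 p hp).ge zX' (xz p hp pc pd)).2 g g2.symm).resolve_left g1
  exact (g3 g).1 Nr.rfl (this ▸ Nr.of (xz x hx hx'.1 hx'.2))

theorem sym (h : Lo G k) {X X' : Finset V} {c c' : V} (m : Mb G k X c) (m' : Mb G k X' c')
    (e : c ∈ X') : c' ∈ X := by
  by_cases n : Nr G c' c
  · exact m.sub c' n.symm
  rcases m'.ty with e1 | ⟨e1, d, hd, n1, e2⟩
  · exact absurd (e1 c e) n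
  · obtain rfl := e1.uniq m'.mem e hd n n1
    exact h.same e1 e2 m'.mem (fun e3 => n e3.symm) m m.sub ▸ m'.mem

theorem mem (h : Lo G k) {X X' : Finset V} {c c' v : V} (m : Mb G k X c) (m' : Mb G k X' c')
    (s : ∀ x, Nr G v x → x ∈ X) (e : v ∈ X') : c ∈ X' := by
  by_cases n : Nr G c' v
  · exact h.sym m' m (s c' n.symm)
  rcases m'.ty with e1 | ⟨e1, d, hd, n1, e2⟩
  · exact absurd (e1 v e) n
  · obtain rfl := e1.uniq m'.mem e hd n n1
    exact h.same e1 e2 m'.mem (fun e3 => n e3.symm) m s ▸ m.mem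

theorem twisted (h : Lo G k) (all : ∀ v, ∃ X c, Mb G k X c ∧ ∀ x, Nr G v x → x ∈ X) :
    IsTwisted k G := by
  choose X c m s using all
  have iff1 : ∀ {Z : Finset V} {d : V}, Mb G k Z d → ∀ v, v ∈ Z ↔ c v ∈ Z := fun mz v => by
    refine ⟨h.mem (m v) mz (s v), fun e => by_contra fun n => ?_⟩
    obtain ⟨d', md⟩ := h.compl mz
    exact (mem_sdiff.1 (h.mem (m v) md (s v) (mem_sdiff.2 ⟨mem_univ _, n⟩))).2 e
  have symm : ∀ v w, w ∈ X v → v ∈ X w := fun v w e =>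
    (iff1 (m w) v).2 (h.sym (m w) (m v) ((iff1 (m v) w).1 e))
  let H : SimpleGraph V := ⟨fun v w => v ≠ w ∧ w ∈ X v, ⟨fun v w e => ⟨e.1.symm, symm v w e.2⟩⟩,
    ⟨fun v e => e.1 rfl⟩⟩
  have hN : ∀ v, closedNbhd H {v} = (X v : Set V) := fun v => by
    ext x
    simp only [closedNbhd, mem_singleton, exists_eq_left, Set.mem_ofPred_eq, mem_coe, H]
    refine ⟨fun e => e.elim (· ▸ s v v Nr.rfl) (·.2), fun e => ?_⟩
    by_cases e1 : x = v
    exacts [Or.inl e1, Or.inr ⟨Ne.symm e1, e⟩]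
  refine ⟨H, fun v w a => ⟨a.ne, s v w (Nr.of a)⟩, fun v => ⟨?_, ?_, ?_⟩⟩
  · rw [hN, Set.ncard_coe_finset, (m v).card]
  · obtain ⟨u, mu⟩ := h.compl (m v)
    refine ⟨u, ?_⟩
    rw [hN, hN]
    ext w
    have : w ∈ X u ↔ w ∈ univ \ X v :=
      ⟨fun e => (iff1 mu w).2 (h.sym mu (m w) (symm u w e)),
        fun e => symm w u (h.sym (m w) mu ((iff1 mu w).1 e))⟩
    simpa using this
  · rw [hN]
    rcases (m v).ty with e | ⟨e, -⟩
    · exact Or.inl ⟨c v, (m v).mem, fun x hx n => (e x hx).adj (Ne.symm n)⟩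
    · refine Or.inr (cock_of_deg (k := k) (by simpa using e.1) fun x => ?_)
      rw [← e.2 x x.2, ← card_image_of_injective _ Subtype.val_injective]
      congr 2
      ext y
      simp only [mem_image, mem_nb, mem_univ, true_and, SimpleGraph.comap_adj]
      exact ⟨fun ⟨a, h1, h2⟩ => h2 ▸ ⟨a.2, h1⟩, fun hy => ⟨⟨y, hy.1⟩, hy.2, rfl⟩⟩

end Lo

end Pool.Agent.IsoTwo

/-! All degrees at most `k`: large cores and the conclusion. -/

namespace Pool.Agent.IsoTwo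

open Finset Pool.Agent.IsoKer Pool.Agent.IsoDefs
open scoped Classical

variable {V : Type*} [Fintype V] {G : SimpleGraph V} {k : ℕ}

namespace Lo

theorem layered (h : Lo G k) {v : V} {T : Finset V} (hcl : Cl G T (Yv G v))
    (hd : ∀ t ∈ T, (nb G T t).card + 1 = k) (hc : k + 2 ≤ T.card) : IsLayered k G := by
  have hk := h.tw.hk
  have vT : ∀ t ∈ T, ¬ Nr G v t := fun t ht => mem_Y'.1 (hcl.1 ht)
  have rc : ∀ t ∈ T, (rem G T {t}).card + k = T.card := fun t ht => by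
    have := rem_card (G := G) ht
    have := hd t ht
    omega
  have mr : ∀ t x, x ∈ rem G T {t} ↔ x ∈ T ∧ ¬ Nr G t x := fun t x => by
    rw [mem_rem1, Nr, not_or]
  have pol : ∀ t ∈ T, ∀ w ∉ T, G.Adj t w → ∃ c ∉ T, ∀ x, Nr G c x ↔ ¬ Nr G t x := by
    intro t ht w hw a
    have vt : ¬ Nr G t v := fun e => vT t ht e.symm
    rcases h.full (h.outer (hd t ht).ge hw a).1 with ⟨c, h1⟩ | h1
    · exact ⟨c, fun e => vT c e ((h1 v).2 vt).symm, h1⟩
    · exfalso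
      obtain ⟨p, hp, p', hp', n⟩ := one_lt_card.1 (show 1 < (rem G T {t}).card by
        have := rc t ht; omega)
      rw [mr] at hp hp'
      exact n (h1.uniq (mem_Y'.2 vt) (mem_Y'.2 hp.2) (mem_Y'.2 hp'.2) (vT p hp.1) (vT p' hp'.1))
  have vnT : v ∉ T := fun e => vT v e Nr.rfl
  obtain ⟨t0, ht0, w0, -, hw0, a0⟩ := h.tw.conn.exists_edge (subset_univ T)
    (card_pos.1 (by omega)) (mem_univ v) vnT
  have all : ∀ u, ∃ w, u ∈ T → w ∉ T ∧ G.Adj u w := by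
    intro u
    by_cases hu : u ∈ T
    swap
    · exact ⟨u, fun e => absurd e hu⟩
    by_contra hh
    push Not at hh
    replace hh : ∀ w ∉ T, ¬ G.Adj u w := fun w => (hh w).2
    have na : ∀ x ∈ rem G T {u}, ∀ y ∉ T, ¬ G.Adj x y := fun x hx y hy a => by
      rw [mr] at hx
      obtain ⟨c, h1, h2⟩ := pol x hx.1 y hy a
      exact hh c h1 (((h2 u).2 fun e => hx.2 e.symm).symm.adj fun e => h1 (e ▸ hu))
    obtain ⟨c0, h1, h2⟩ := pol t0 ht0 w0 hw0 a0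
    have n0 : ¬ Nr G c0 w0 := fun e => (h2 w0).1 e (Nr.of a0)
    have cc := h.tw.compl_card T
    have mR : ∀ x, x ∉ T → x ∈ univ \ T := fun x hx => mem_sdiff.2 ⟨mem_univ _, hx⟩
    have c3 := card_add_three_le (T := ∅) (A := univ \ T) (empty_subset _) (mR v vnT) (mR w0 hw0)
      (mR c0 h1) (fun e => vT t0 ht0 (e ▸ Nr.of a0.symm)) (fun e => by
        obtain ⟨p, hp⟩ : (rem G T {t0}).Nonempty := card_pos.1 (by have := rc t0 ht0; omega)
        rw [mr] at hp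
        exact vT p hp.1 (e ▸ (h2 p).2 hp.2))
      (fun e => n0 (e ▸ Nr.rfl)) (notMem_empty _) (notMem_empty _) (notMem_empty _)
    have f1 : Free G k (rem G T {u}) := free_small (by have := rc u hu; omega)
    have f2 : Free G k (univ \ T) := by
      by_contra e
      exact n0 (Nr.of ((clq_of_not_free (by omega) e).2 c0 (mR c0 h1) w0 (mR w0 hw0)
        fun e => n0 (e ▸ Nr.rfl)))
    refine h.tw.nf u ((f1.union f2 fun x hx y hy => na x hx y (mem_sdiff.1 hy).2).mono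
      fun x hx => ?_)
    by_cases e : x ∈ T
    exacts [mem_union_left _ ((mr u x).2 ⟨e, mem_Y'.1 hx⟩), mem_union_right _ (mR x e)]
  choose w hw using all
  have pol' : ∀ t, ∃ c, t ∈ T → c ∉ T ∧ ∀ x, Nr G c x ↔ ¬ Nr G t x := fun t => by
    by_cases ht : t ∈ T
    · obtain ⟨c, h1⟩ := pol t ht _ (hw t ht).1 (hw t ht).2
      exact ⟨c, fun _ => h1⟩
    · exact ⟨t, fun e => absurd e ht⟩
  choose c hc' using pol'
  have wu : ∀ t ∈ T, ∀ x ∉ T, Nr G t x ↔ x = w t := fun t ht x hx =>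
    ⟨fun e => ((h.outer (hd t ht).ge (hw t ht).1 (hw t ht).2).2 x
      (e.adj fun e1 => hx (e1 ▸ ht))).resolve_left hx, fun e => e ▸ Nr.of (hw t ht).2⟩
  have wc : ∀ t ∈ T, ∀ p ∈ T, ¬ Nr G t p ↔ w p = c t := fun t ht p hp => by
    rw [← (hc' t ht).2 p]
    exact ⟨fun e => ((wu p hp _ (hc' t ht).1).1 e.symm).symm,
      fun e => ((wu p hp _ (hc' t ht).1).2 e.symm).symm⟩
  have ex : ∀ t ∈ T, ∃ p ∈ T, ¬ Nr G t p := fun t ht => by
    obtain ⟨p, hp⟩ : (rem G T {t}).Nonempty := card_pos.1 (by have := rc t ht; omega)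
    exact ⟨p, (mr t p).1 hp⟩
  have nw : ∀ t ∈ T, ∀ x ∉ T, Nr G (w t) x ↔ x ≠ c t := fun t ht x hx => by
    obtain ⟨p, hp, n⟩ := ex t ht
    rw [(wc p hp t ht).1 fun e => n e.symm, (hc' p hp).2 x, wu p hp x hx, (wc t ht p hp).1 n]
  have sg : ∀ u, ∃ y, ∀ t ∈ T, w t = u → c t = y := fun u => by
    by_cases e : ∃ t ∈ T, w t = u
    · obtain ⟨t, ht, rfl⟩ := e
      refine ⟨c t, fun t' ht' e => by_contra fun n => ?_⟩
      exact (nw t' ht' _ (hc' t' ht').1).1 (e ▸ (nw t ht _ (hc' t' ht').1).2 n) rfl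
    · exact ⟨u, fun t ht e1 => absurd ⟨t, ht, e1⟩ e⟩
  choose σ hσ using sg
  have sw : ∀ t ∈ T, σ (w t) = c t := fun t ht => (hσ _ t ht rfl).symm
  refine ⟨T, w '' T, w, σ, T.card - k, ?_, by rw [Set.ncard_coe_finset]; omega, ?_,
    fun t ht => ⟨⟨t, ht, rfl⟩, fun x => ?_⟩⟩
  · refine Set.disjoint_left.2 ?_
    rintro x hx ⟨t, ht, rfl⟩
    exact (hw t ht).1 hx
  · rintro u ⟨t, ht, rfl⟩
    obtain ⟨p, hp, n⟩ := ex t ht
    have e1 := (wc t ht p hp).1 n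
    have e2 := (wc p hp t ht).1 fun e => n e.symm
    rw [sw t ht]
    refine ⟨⟨p, hp, e1⟩, fun e => (nw t ht _ (hw t ht).1).1 Nr.rfl e.symm,
      by rw [← e1, sw p hp, e2], ?_, fun x hx => ?_⟩
    · have : {x ∈ (T : Set V) | w x = w t} = (rem G T {p} : Finset V) := by
        ext x
        simp only [Set.mem_ofPred_eq, mem_coe, mr, e2]
        exact and_congr_right fun hx => (wc p hp x hx).symm
      rw [this, Set.ncard_coe_finset]
      have := rc p hp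
      omega
    · rw [← nw t ht x hx]
      exact ⟨fun a => ⟨a.ne.symm, Nr.of a⟩, fun e => e.2.adj e.1.symm⟩
  · rw [sw t ht]
    by_cases hx : x ∈ T
    · have e0 : w x ≠ c t ↔ Nr G t x := by rw [Ne, ← wc t ht x hx, not_not]
      rw [e0]
      exact ⟨fun a => Or.inr ⟨hx, a.ne.symm, Nr.of a⟩, fun e => e.elim
        (fun e => absurd (e ▸ hx) (hw t ht).1) fun e => e.2.2.adj e.2.1.symm⟩
    · exact ⟨fun a => Or.inl ((wu t ht x hx).1 (Nr.of a)), fun e => e.elim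
        (fun e => e ▸ (hw t ht).2) fun e => absurd e.1 hx⟩

theorem main (h : Lo G k) : IsTwisted k G ∨ IsLayered k G := by
  by_cases hl : IsLayered k G
  · exact Or.inr hl
  refine Or.inl (h.twisted fun v => ?_)
  have fin : ∀ {X : Finset V} {c : V}, Mb G k X c → X ⊆ Yv G v →
      ∃ X c, Mb G k X c ∧ ∀ x, Nr G v x → x ∈ X := fun m s =>
    let ⟨d, md⟩ := h.compl m
    ⟨_, d, md, fun x e => mem_sdiff.2 ⟨mem_univ _, fun e1 => mem_Y'.1 (s e1) e⟩⟩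
  rcases obs (h.tw.nf v) with ⟨f, hf, hd⟩ | ⟨T, h1, h2, h3, h4⟩
  · have h1 := cn_card (G := G) (mem_univ f)
    have h2 := nb_card_mono (G := G) (subset_univ (Yv G v)) f
    have h3 := h.low f
    exact fin (h.bk (X := cn G univ f) (c := f) ⟨mem_cn.2 ⟨mem_univ _, Nr.rfl⟩,
      by unfold dg at h3; omega, fun y hy => (mem_cn.1 hy).2⟩)
      fun x hx => h.sub_of hf hd x (mem_cn.1 hx).2
  · have hd : ∀ t ∈ T, (nb G T t).card + 1 = k := fun x hx => by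
      have := h3 x hx
      have := h4 x (h2.1 hx)
      have := nb_card_mono (G := G) h2.1 x
      omega
    by_cases hc : T.card ≤ k
    · exact (h.noK (clq_of_core h1 h3 hc) h2).elim
    by_cases hc' : k + 2 ≤ T.card
    · exact absurd (h.layered h2 hd hc') hl
    obtain ⟨c, m⟩ := h.centre (X := T) ⟨by omega, hd⟩ fun x hx => mem_Y'.1 (h2.1 hx)
    exact fin m h2.1

end Lo

end Pool.Agent.IsoTwo

/-! All degrees at most `k` and every vertex misses a dense set. -/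

namespace Pool.Agent.IsoTwo

open Finset Pool.Agent.IsoKer Pool.Agent.IsoDefs
open scoped Classical

variable {V : Type*} [Fintype V] {G : SimpleGraph V} {k : ℕ}

omit [Fintype V] in
theorem cr_out {v x : V} {T : Finset V} (hk : 3 ≤ k) (hT : Cr G k v T) {z : V}
    (h : ∀ y ∈ T, G.Adj x y → y = z) : x ∉ T := fun e => by
  have := card_le_card (s := nb G T x) (t := {z}) fun y hy =>
    mem_singleton.2 (h y (mem_nb.1 hy).1 (mem_nb.1 hy).2)
  have := hT.deg x e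
  rw [card_singleton] at *
  omega

omit [Fintype V] in
theorem cr_eq {v : V} {T Z : Finset V} (hT : Cr G k v T) (h : T ⊆ Z) (hZ : Z.card ≤ k) :
    T = Z ∧ Clq G k Z := by
  have h1 := core_card hT.ne hT.deg
  have e := eq_of_subset_of_card_le h (hZ.trans h1)
  exact ⟨e, e ▸ clq_of_core hT.ne hT.deg (e ▸ hZ)⟩

namespace Lo

theorem half (h : Lo G k) (cr : ∀ v, ∃ T, Cr G k v T) {A B : Finset V} (cA : A.card = k + 1)
    (cB : B.card = k + 1) (cov : ∀ x, x ∉ A ↔ x ∈ B) (dA : ∀ x ∈ A, k ≤ (nb G A x).card + 1)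
    {x p : V} (hx : x ∈ A) (hp : p ∉ A) (a : G.Adj x p) :
    Clq G k (B.erase p) ∧ ∀ p' ∉ A, G.Adj x p' → p' = p := by
  refine ⟨?_, fun p' hp' e => ((h.outer (dA x hx) hp a).2 p' e).resolve_left hp'⟩
  obtain ⟨T, hT⟩ := cr x
  have c1 := card_erase_add_one ((cov p).1 hp)
  refine (cr_eq hT (fun t ht => mem_erase.2 ⟨fun e => (hT.out t ht).2 (e ▸ a),
    (cov t).1 fun tA => ?_⟩) (by omega)).2
  have c2 := rem_card (G := G) hx
  have c3 := dA x hx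
  have u : ∀ y ∈ T, G.Adj t y → y ∉ A := fun y hy e yA =>
    e.ne (card_le_one.1 (show (rem G A {x}).card ≤ 1 by omega) t (mem_rem1.2 ⟨tA, hT.out t ht⟩) y
      (mem_rem1.2 ⟨yA, hT.out y hy⟩))
  obtain ⟨z, hz⟩ : (nb G T t).Nonempty :=
    card_pos.1 (by have := hT.deg t ht; have := h.tw.hk; omega)
  rw [mem_nb] at hz
  exact cr_out h.tw.hk hT (fun y hy e => ((h.outer (dA t tA) (u z hz.1 hz.2) hz.2).2 y
    e).resolve_left (u y hy e)) ht

theorem dense (h : Lo G k) (cr : ∀ v, ∃ T, Cr G k v T) {A B : Finset V} (cA : A.card = k + 1)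
    (cB : B.card = k + 1) (cov : ∀ x, x ∉ A ↔ x ∈ B) (dA : ∀ x ∈ A, k ≤ (nb G A x).card + 1)
    (dB : ∀ x ∈ B, k ≤ (nb G B x).card + 1) : IsMatchedPair k G := by
  have e : (A : Set V)ᶜ = B := Set.ext cov
  have cov' : ∀ x, x ∉ B ↔ x ∈ A := fun x => by rw [← cov, not_not]
  refine ⟨A, by rw [Set.ncard_coe_finset, cA], by rw [e, Set.ncard_coe_finset, cB],
    fun x hx p hp a => ?_⟩
  have h1 := h.half cr cA cB cov dA hx hp a
  have h2 := h.half cr cB cA cov' dB ((cov p).1 hp) ((cov' x).2 hx) a.symm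
  refine ⟨?_, ?_, h1.2, fun x' hx' a' => h2.2 x' ((cov' x').2 hx') a'.symm⟩
  · rw [← coe_erase]
    exact (clq_iff.1 h2.1).1
  · rw [e, ← coe_erase]
    exact (clq_iff.1 h1.1).1

theorem cdeg (h : Lo G k) {K : Finset V} (hK : Clq G k K) {t : V} (ht : t ∈ K) :
    k ≤ (nb G K t).card + 1 := ((hK.sp (by have := h.tw.hk; omega)).2.2 t ht).ge

theorem mY (h : Lo G k) {K : Finset V} (hK : Clq G k K) {t w : V} (ht : t ∈ K) (hw : w ∉ K)
    (a : G.Adj t w) (x : V) : x ∈ Yv G t ↔ x ∉ K ∧ x ≠ w :=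
  mem_Y.trans ⟨fun hx => ⟨fun e => hx.2 (hK.2 t ht x e hx.1.symm), fun e => hx.2 (e ▸ a)⟩,
    fun hx => ⟨fun e => hx.1 (e ▸ ht),
      fun e => ((h.outer (h.cdeg hK ht) hw a).2 x e).elim hx.1 hx.2⟩⟩

theorem typeI (h : Lo G k) (cr : ∀ v, ∃ T, Cr G k v T) {K T : Finset V} (hK : Clq G k K) {w : V}
    (hw : w ∉ K) (hT : Cr G k w T) (hTK : ∀ x ∈ T, x ∉ K) :
    IsMatchedPair k G := by
  have hk := h.tw.hk
  obtain ⟨s, hs, p, sp, pK, pw⟩ := h.tw.out hK hw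
  have ms := h.mY hK hs pK sp
  have wY := (ms w).2 ⟨hw, pw.symm⟩
  obtain ⟨z, zY, wz⟩ : ∃ z ∈ Yv G s, G.Adj w z := by
    rcases h.full (h.outer (h.cdeg hK hs) pK sp).1 with ⟨c, hc⟩ | hc
    · by_cases e : c = w
      · obtain ⟨z, hz, n⟩ := exists_mem_ne (s := Yv G s) (by
          have := h.tw.Yc s; have := h.low s; omega) w
        exact ⟨z, hz, (e ▸ (hc z).2 (mem_Y'.1 hz)).adj n.symm⟩
      · exact ⟨c, mem_Y'.2 ((hc c).1 Nr.rfl), (((hc w).2 (mem_Y'.1 wY)).adj e).symm⟩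
    · obtain ⟨z, hz⟩ : (nb G (Yv G s) w).Nonempty := card_pos.1 (by have := hc.2 w wY; omega)
      exact ⟨z, mem_nb.1 hz⟩
  rw [ms] at zY
  have cR := h.tw.compl_card K
  rw [hK.1] at cR
  have mR : ∀ x, x ∉ K → x ∈ univ \ K := fun x hx => mem_sdiff.2 ⟨mem_univ _, hx⟩
  have c1 := card_erase_add_one (mR w hw)
  have c2 := card_erase_add_one (mem_erase.2 ⟨wz.ne.symm, mR z zY.1⟩)
  obtain ⟨eT, qT⟩ := cr_eq (Z := ((univ \ K).erase w).erase z) hT (fun x hx =>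
    mem_erase.2 ⟨fun e => (hT.out x hx).2 (e ▸ wz), mem_erase.2 ⟨(hT.out x hx).1, mR x (hTK x hx)⟩⟩)
    (by omega)
  rw [← eT] at qT
  have mT : ∀ x, x ∈ T ↔ x ≠ z ∧ x ≠ w ∧ x ∉ K := fun x => by rw [eT]; simp
  have pT := (mT p).2 ⟨zY.2.symm, pw, pK⟩
  have zT : z ∉ T := fun e => ((mT z).1 e).1 rfl
  have mp := h.mY qT pT (fun e => hTK s e hs) sp.symm
  obtain ⟨T2, h2⟩ := cr s
  have w2 : w ∉ T2 := cr_out hk h2 (z := z) fun y hy e => by_contra fun n =>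
    (hT.out y ((mT y).2 ⟨n, e.ne.symm, ((ms y).1 (mem_Y.2 (h2.out y hy))).1⟩)).2 e
  have c3 := card_erase_add_one pT
  have c4 := card_insert_le z (T.erase p)
  have q2 := (cr_eq (Z := insert z (T.erase p)) h2 (fun x hx => by
    have := (ms x).1 (mem_Y.2 (h2.out x hx))
    by_cases e : x = z
    exacts [mem_insert.2 (Or.inl e), mem_insert_of_mem (mem_erase.2 ⟨this.2,
      (mT x).2 ⟨e, fun e1 => w2 (e1 ▸ hx), this.1⟩⟩)]) (by have := qT.1; omega)).2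
  have wT : w ∉ insert z (T.erase p) := fun e => (mem_insert.1 e).elim wz.ne
    fun e1 => ((mT w).1 (mem_of_mem_erase e1)).2.1 rfl
  obtain ⟨T3, h3⟩ := cr p
  have z3 : z ∉ T3 := cr_out hk h3 (z := w) fun y hy e =>
    ((h.outer (h.cdeg q2 (mem_insert_self _ _)) wT wz.symm).2 y e).resolve_left fun e1 =>
      (mem_insert.1 e1).elim e.ne.symm fun e2 =>
        ((mp y).1 (mem_Y.2 (h3.out y hy))).1 (mem_of_mem_erase e2)
  have c5 := card_erase_add_one hs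
  have c6 := card_insert_le w (K.erase s)
  have q3 := (cr_eq (Z := insert w (K.erase s)) h3 (fun x hx => by
    have := (mp x).1 (mem_Y.2 (h3.out x hx))
    by_cases e : x = w
    · exact mem_insert.2 (Or.inl e)
    · exact mem_insert_of_mem (mem_erase.2 ⟨this.2, by_contra fun e1 =>
        this.1 ((mT x).2 ⟨fun e2 => z3 (e2 ▸ hx), e, e1⟩)⟩)) (by have := hK.1; omega)).2
  have den : ∀ {Z : Finset V} {c d : V}, Clq G k Z → Clq G k (insert c (Z.erase d)) →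
      ∀ x ∈ insert c Z, k ≤ (nb G (insert c Z) x).card + 1 := fun {Z c d} q q' x hx => by
    rcases mem_insert.1 hx with e | e
    · exact (h.cdeg q' (e ▸ mem_insert_self _ _)).trans (Nat.add_le_add_right
        (nb_card_mono (insert_subset_insert _ (erase_subset _ _)) x) 1)
    · exact (h.cdeg q e).trans (Nat.add_le_add_right (nb_card_mono (subset_insert _ _) x) 1)
  refine h.dense cr (A := insert w K) (B := insert z T) (by rw [card_insert_of_notMem hw, hK.1])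
    (by rw [card_insert_of_notMem zT, qT.1]) (fun x => ?_) (den hK q3) (den qT q2)
  simp only [mem_insert, mT]
  constructor
  · tauto
  · rintro (rfl | e) (e1 | e1)
    exacts [wz.ne e1.symm, zY.1 e1, e.2.1 e1, e.2.2 e1]

theorem typeII (h : Lo G k) {K T : Finset V} (hK : Clq G k K) {t w s : V}
    (ht : t ∈ K) (a : G.Adj t w) (hT : Cr G k w T) (hs : s ∈ T) (sK : s ∈ K) :
    ∀ x ∈ K, x ≠ t → ∃ z ∈ Yv G w, z ∉ K ∧ G.Adj x z := by
  have tT : t ∉ T := fun e => (hT.out t e).2 a.symm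
  have sub : T ∩ K ⊆ K.erase t := fun x hx =>
    mem_erase.2 ⟨fun e1 => tT (e1 ▸ (mem_inter.1 hx).1), (mem_inter.1 hx).2⟩
  have c0 := card_erase_add_one ht
  have c1 := hK.1
  have key : ∀ x ∈ T ∩ K, ∃ z ∈ T, z ∉ K ∧ G.Adj x z := fun x hx => by
    by_contra hh
    push Not at hh
    have c4 := card_le_card (s := nb G T x) (t := (T ∩ K).erase x) fun y hy => by
      rw [mem_nb] at hy
      exact mem_erase.2 ⟨hy.2.ne.symm, mem_inter.2 ⟨hy.1, by_contra fun e1 => hh y hy.1 e1 hy.2⟩⟩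
    have := card_erase_add_one hx
    have := hT.deg x (mem_inter.1 hx).1
    have := card_le_card sub
    omega
  obtain ⟨z, -, zK, sz⟩ := key s (mem_inter.2 ⟨hs, sK⟩)
  have c4 := card_le_card (s := nb G T s) (t := insert z ((T ∩ K).erase s)) fun y hy => by
    rw [mem_nb] at hy
    rcases (h.outer (h.cdeg hK sK) zK sz).2 y hy.2 with e | e
    exacts [mem_insert_of_mem (mem_erase.2 ⟨hy.2.ne.symm, mem_inter.2 ⟨hy.1, e⟩⟩),
      mem_insert.2 (Or.inl e)]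
  have c5 := card_insert_le z ((T ∩ K).erase s)
  have c6 := card_erase_add_one (mem_inter.2 ⟨hs, sK⟩)
  have c7 := hT.deg s hs
  have e := eq_of_subset_of_card_le sub (by omega)
  intro x hx n
  obtain ⟨y, hy, h1⟩ := key x (e ▸ mem_erase.2 ⟨n, hx⟩)
  exact ⟨y, mem_Y.2 (hT.out y hy), h1⟩

theorem clq_matched (h : Lo G k) (cr : ∀ v, ∃ T, Cr G k v T) {K : Finset V} (hK : Clq G k K) :
    IsMatchedPair k G := by
  have hk := h.tw.hk
  by_contra hcon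
  have key : ∀ t ∈ K, ∀ w ∉ K, G.Adj t w → ∀ x ∈ K, x ≠ t → ∃ z ∈ Yv G w, z ∉ K ∧ G.Adj x z := by
    intro t ht w hw a
    obtain ⟨T, hT⟩ := cr w
    by_cases e : ∀ x ∈ T, x ∉ K
    · exact absurd (h.typeI cr hK hw hT e) hcon
    · push Not at e
      obtain ⟨s, hs, sK⟩ := e
      exact h.typeII hK ht a hT hs sK
  have cR := h.tw.compl_card K
  rw [hK.1] at cR
  obtain ⟨v, hv⟩ : (univ \ K).Nonempty := card_pos.1 (by omega)
  obtain ⟨t1, ht1, w1, a1, hw1, -⟩ := h.tw.out hK (mem_sdiff.1 hv).2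
  have all : ∀ x, ∃ z, x ∈ K → z ∉ K ∧ G.Adj x z := fun x => by
    by_cases e : x = t1
    · exact ⟨w1, fun _ => ⟨hw1, e ▸ a1⟩⟩
    by_cases hx : x ∈ K
    · obtain ⟨z, -, hz⟩ := key t1 ht1 w1 hw1 a1 x hx e
      exact ⟨z, fun _ => hz⟩
    · exact ⟨x, fun e => absurd e hx⟩
  choose ω hω using all
  have mt := fun t ht => h.mY hK ht (hω t ht).1 (hω t ht).2
  have far : ∀ t ∈ K, ∀ x ∈ K, x ≠ t → ¬ Nr G (ω t) (ω x) := fun t ht x hx n => by
    obtain ⟨z, h4, h5, h6⟩ := key t ht _ (hω t ht).1 (hω t ht).2 x hx n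
    have : z = ω x := by_contra fun e => (mem_Y.1 ((mt x hx z).2 ⟨h5, e⟩)).2 h6
    exact mem_Y'.1 (this ▸ h4)
  have inY : ∀ t ∈ K, ∀ x ∈ K, x ≠ t → ω x ∈ Yv G t := fun t ht x hx n =>
    (mt t ht _).2 ⟨(hω x hx).1, fun e => far t ht x hx n (e ▸ Nr.rfl)⟩
  have inj : Set.InjOn ω K := fun x hx y hy e => by_contra fun n => far y hy x hx n (e ▸ Nr.rfl)
  have ex : ∀ x y, ∃ w ∈ K, w ≠ x ∧ w ≠ y := fun x y => by
    obtain ⟨w, hw, hw'⟩ := exists_mem_notMem_of_card_lt_card (s := {x, y}) (t := K)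
      (by have := card_le_two (a := x) (b := y); have := hK.1; omega)
    simp only [mem_insert, mem_singleton, not_or] at hw'
    exact ⟨w, hw, hw'⟩
  set Z := (univ \ K) \ K.image ω with hZ
  have cZ : Z.card = 2 := by
    have := card_sdiff_add_card_eq_card (s := K.image ω) (t := univ \ K) fun x hx => by
      obtain ⟨y, hy, rfl⟩ := mem_image.1 hx
      exact mem_sdiff.2 ⟨mem_univ _, (hω y hy).1⟩
    rw [card_image_of_injOn inj, hK.1, ← hZ] at this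
    omega
  have mZ : ∀ z, z ∈ Z ↔ z ∉ K ∧ ∀ y ∈ K, ω y ≠ z := by simp [hZ]
  have ZY : ∀ t ∈ K, ∀ z ∈ Z, z ∈ Yv G t := fun t ht z hz =>
    (mt t ht z).2 ⟨((mZ z).1 hz).1, (((mZ z).1 hz).2 t ht).symm⟩
  obtain ⟨z1, z2, nz, eZ⟩ := card_eq_two.1 cZ
  have h1 : z1 ∈ Z := eZ ▸ mem_insert_self _ _
  have h2 : z2 ∈ Z := eZ ▸ mem_insert_of_mem (mem_singleton_self _)
  have alt : ∀ t ∈ K, (G.Adj z1 z2 ∧ ∃ c ∈ Z, ∀ x, Nr G c x ↔ ¬ Nr G t x) ∨
      (¬ G.Adj z1 z2 ∧ ∀ x ∈ K, x ≠ t → G.Adj z1 (ω x)) := fun t ht => by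
    rcases h.full (h.outer (h.cdeg hK ht) (hω t ht).1 (hω t ht).2).1 with ⟨c, hc⟩ | hc
    · have cY := (mt t ht c).1 (mem_Y'.2 ((hc c).1 Nr.rfl))
      have cZ : c ∈ Z := (mZ c).2 ⟨cY.1, fun y hy e => by
        obtain ⟨x, hx, x1, x2⟩ := ex y t
        exact far y hy x hx x1 (e ▸ (hc _).2 (mem_Y'.1 (inY t ht x hx x2)))⟩
      refine Or.inl ⟨?_, c, cZ, hc⟩
      rcases mem_insert.1 (eZ ▸ cZ : c ∈ ({z1, z2} : Finset V)) with e | e
      · exact (e ▸ (hc z2).2 (mem_Y'.1 (ZY t ht z2 h2))).adj nz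
      · exact ((mem_singleton.1 e ▸ (hc z1).2 (mem_Y'.1 (ZY t ht z1 h1))).adj nz.symm).symm
    · have zw : ∀ x ∈ K, x ≠ t → G.Adj z1 (ω x) := fun x hx n => by
        obtain ⟨y, hy, y1, y2⟩ := ex x t
        by_contra e
        exact ((mZ z1).1 h1).2 y hy (hc.uniq (inY t ht x hx n) (inY t ht y hy y2) (ZY t ht z1 h1)
          (far x hx y hy y1) fun e1 => e (e1.symm.adj (((mZ z1).1 h1).2 x hx).symm))
      refine Or.inr ⟨fun e => ?_, zw⟩
      obtain ⟨p, hp, n⟩ := hc.partner (ZY t ht z1 h1)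
      by_cases pZ : p ∈ Z
      · rcases mem_insert.1 (eZ ▸ pZ : p ∈ ({z1, z2} : Finset V)) with e1 | e1
        exacts [n (e1 ▸ Nr.rfl), n (mem_singleton.1 e1 ▸ Nr.of e)]
      · rw [mZ] at pZ
        push Not at pZ
        obtain ⟨y, hy, rfl⟩ := pZ ((mt t ht p).1 hp).1
        exact n (Nr.of (zw y hy fun e1 => ((mt t ht _).1 hp).2 (e1 ▸ rfl)))
  obtain ⟨t2, ht2, n21, -⟩ := ex t1 t1
  obtain ⟨t3, ht3, n31, n32⟩ := ex t1 t2
  by_cases e : G.Adj z1 z2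
  · have st := fun t ht => ((alt t ht).resolve_right fun e1 => e1.1 e).2
    obtain ⟨c1, m1, e1⟩ := st t1 ht1
    obtain ⟨c2, m2, e2⟩ := st t2 ht2
    obtain ⟨c3, m3, e3⟩ := st t3 ht3
    have ne : ∀ {s t c d}, s ∈ K → t ∈ K → s ≠ t → (∀ x, Nr G c x ↔ ¬ Nr G s x) →
        (∀ x, Nr G d x ↔ ¬ Nr G t x) → c ≠ d := fun {s t c d} hs ht n e1 e2 e =>
      (e2 _).1 (e ▸ (e1 _).2 (mem_Y'.1 (inY s hs t ht n.symm))) (Nr.of (hω t ht).2)
    have := card_add_three_le (empty_subset Z) m1 m2 m3 (ne ht1 ht2 n21.symm e1 e2)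
      (ne ht1 ht3 n31.symm e1 e3) (ne ht2 ht3 n32.symm e2 e3) (notMem_empty _) (notMem_empty _)
      (notMem_empty _)
    omega
  · have st := fun t ht => ((alt t ht).resolve_left fun e1 => e e1.1).2
    have zw : ∀ x ∈ K, G.Adj z1 (ω x) := fun x hx => by
      obtain ⟨t, ht, n, -⟩ := ex x x
      exact st t ht x hx n.symm
    refine h.noK (v := z1) hK ⟨fun x hx => mem_Y'.2 fun e1 => mem_Y'.1 (ZY x hx z1 h1) e1.symm,
      fun x hx y hy a => by_contra fun n => ?_⟩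
    have : y = ω x := by_contra fun e1 => (mem_Y.1 ((mt x hx y).2 ⟨n, e1⟩)).2 a
    exact (mem_Y.1 hy).2 (this ▸ zw x hx)

theorem matched (h : Lo G k) (cr : ∀ v, ∃ T, Cr G k v T) : IsMatchedPair k G := by
  by_cases hq : ∃ K, Clq G k K
  · obtain ⟨K, hK⟩ := hq
    exact h.clq_matched cr hK
  push Not at hq
  have hk := h.tw.hk
  obtain ⟨f, hf⟩ : ∃ f, k ≤ dg G f := by
    by_contra hh
    push Not at hh
    obtain ⟨v⟩ : Nonempty V := Fintype.card_pos_iff.1 (by have := h.tw.card; omega)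
    exact h.tw.nf v (free_low h.tw.conn (subset_univ _)
      (fun e => (mem_Y.1 (e ▸ mem_univ v : v ∈ Yv G v)).1 rfl) fun x _ => hh x)
  have den : ∀ {X : Finset V} {c : V}, Mb G k X c →
      ∀ x ∈ univ \ X, k ≤ (nb G (univ \ X) x).card + 1 := fun {X c} m => by
    obtain ⟨T, hT⟩ := cr c
    have hs : T ⊆ univ \ X := fun t ht => by
      obtain ⟨y, hy⟩ : (nb G T t).Nonempty := card_pos.1 (by have := hT.deg t ht; omega)
      exact m.iso t (mem_Y.2 (hT.out t ht)) y (mem_Y.2 (hT.out y (mem_nb.1 hy).1)) (mem_nb.1 hy).2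
    have := h.tw.compl_card X
    have := m.card
    have e : T = univ \ X := eq_of_subset_of_card_le hs (by
      by_contra hh
      exact hq T (clq_of_core hT.ne hT.deg (by omega)))
    exact e ▸ hT.deg
  have h1 := cn_card (G := G) (mem_univ f)
  have h3 := h.low f
  have m := h.bk (X := cn G univ f) (c := f) ⟨mem_cn.2 ⟨mem_univ _, Nr.rfl⟩,
    by unfold dg at h3 hf; omega, fun y hy => (mem_cn.1 hy).2⟩
  obtain ⟨d, md⟩ := h.compl m
  obtain ⟨d', md'⟩ := h.compl md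
  exact h.dense cr md.card md'.card (fun x => by simp only [mem_sdiff, mem_univ, true_and])
    (den m) (den md)

end Lo

end Pool.Agent.IsoTwo

/-! A vertex of degree `k + 1`: two cliques and two further vertices. -/

namespace Pool.Agent.IsoTwo

open Finset Pool.Agent.IsoKer Pool.Agent.IsoDefs
open scoped Classical

variable {V : Type*} [Fintype V] {G : SimpleGraph V} {k : ℕ}

theorem Tw.matched (h : Tw G k) {Q K : Finset V} {a b : V} (hQ : Clq G k Q) (hK : Clq G k K)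
    (cov : ∀ x, x ∈ K ↔ x ∉ Q ∧ x ≠ a ∧ x ≠ b) (aQ : a ∉ Q) (bQ : b ∉ Q) (ab : a ≠ b)
    (ha : ∀ x ∈ K, G.Adj a x) (hb : ∀ x ∈ Q, G.Adj b x) : IsMatchedPair k G := by
  have aK : a ∉ K := fun e => ((cov a).1 e).2.1 rfl
  have cl : ∀ {Z : Finset V} {c : V}, Clq G k Z → c ∉ Z → (∀ x ∈ Z, G.Adj c x) →
      Clq G (k + 1) (insert c Z) := fun {Z c} hZ hc h1 =>
    ⟨by rw [card_insert_of_notMem hc, hZ.1], fun x hx y hy n => by
      rcases mem_insert.1 hx with e | e <;> rcases mem_insert.1 hy with e' | e'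
      exacts [absurd (e.trans e'.symm) n, e ▸ h1 y e', e' ▸ (h1 x e).symm, hZ.2 x e y e' n]⟩
  have one : ∀ {Z : Finset V} {x p p' : V}, Clq G (k + 1) Z → x ∈ Z → p ∉ Z → p' ∉ Z →
      G.Adj x p → G.Adj x p' → p' = p := fun {Z x p p'} hZ hx hp hp' e e' => by
    by_contra n
    have := clq_deg (S := {p', p}) hZ hx (by simp [*])
    rw [card_pair n] at this
    have := h.deg_le x
    omega
  have qA := cl hK aK ha
  have qB := cl hQ bQ hb
  have e : ((insert a K : Finset V) : Set V)ᶜ = (insert b Q : Finset V) := by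
    ext x
    simp only [coe_insert, Set.mem_compl_iff, Set.mem_insert_iff, mem_coe, cov]
    constructor
    · tauto
    · rintro (rfl | e) (e1 | e1)
      exacts [ab e1.symm, e1.2.2 rfl, aQ (e1 ▸ e), e1.1 e]
  have m : ∀ x, x ∉ ((insert a K : Finset V) : Set V) ↔ x ∈ insert b Q := fun x => by
    rw [← mem_coe, ← e]; rfl
  refine ⟨(insert a K : Finset V), by rw [Set.ncard_coe_finset, qA.1],
    by rw [e, Set.ncard_coe_finset, qB.1], fun x hx p hp a1 => ⟨?_, ?_, fun p' hp' a2 =>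
      one qA hx hp hp' a1 a2, fun x' hx' a2 => one qB ((m p).1 hp) (fun e1 => (m x).2 e1 hx)
        (fun e1 => (m x').2 e1 hx') a1.symm a2.symm⟩⟩
  · exact fun y hy z hz n => qA.2 y hy.1 z hz.1 n
  · exact fun y hy z hz n => qB.2 y ((m y).1 hy.1) z ((m z).1 hz.1) n

/-- Two `k`-cliques and two further vertices seen from `u` and from `v`. -/
structure Sq (G : SimpleGraph V) (k : ℕ) (Q K : Finset V) (u v a b : V) : Prop where
  tw : Tw G k
  q : Clq G k Q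
  r : Clq G k K
  cov : ∀ x, x ∈ K ↔ x ∉ Q ∧ x ≠ a ∧ x ≠ b
  aQ : a ∉ Q
  bQ : b ∉ Q
  ab : a ≠ b
  hu : u ∈ Q
  hv : v ∈ K
  ua : G.Adj u a
  ub : G.Adj u b
  va : G.Adj v a
  vb : G.Adj v b

/-- The star witness with `a`, `b` adjacent. -/
def S1 (G : SimpleGraph V) (Q K : Finset V) (u a : V) : Prop :=
  (∀ x ∈ Q, G.Adj a x → x = u) ∧ ∃ f ∈ Q, ∃ y ∈ K, ∃ y' ∈ K, y ≠ y' ∧ G.Adj f y ∧ G.Adj f y' ∧
    ¬ G.Adj a f ∧ ¬ G.Adj a y ∧ ¬ G.Adj a y'

/-- The star witness with `a`, `b` not adjacent. -/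
def S0 (G : SimpleGraph V) (Q K : Finset V) (u a b : V) : Prop :=
  (∀ x ∈ Q, G.Adj a x → x = u) ∧ ∃ f ∈ Q, ∃ y ∈ K, G.Adj f y ∧ G.Adj f b ∧
    ¬ G.Adj a f ∧ ¬ G.Adj a y

/-- The star witness centred in `Q`. -/
def St (G : SimpleGraph V) (Q K : Finset V) (u a b : V) : Prop :=
  (G.Adj a b ∧ S1 G Q K u a) ∨ (¬ G.Adj a b ∧ S0 G Q K u a b)

namespace Sq

variable {Q K : Finset V} {u v a b : V}

theorem aK (h : Sq G k Q K u v a b) : a ∉ K := fun e => ((h.cov a).1 e).2.1 rfl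

theorem bK (h : Sq G k Q K u v a b) : b ∉ K := fun e => ((h.cov b).1 e).2.2 rfl

theorem d (h : Sq G k Q K u v a b) {x : V} (hx : x ∈ K) : x ∉ Q := ((h.cov x).1 hx).1

theorem d' (h : Sq G k Q K u v a b) {x : V} (hx : x ∈ Q) : x ∉ K := fun e => h.d e hx

theorem all (h : Sq G k Q K u v a b) (x : V) : x ∈ Q ∨ x ∈ K ∨ x = a ∨ x = b := by
  rw [h.cov]; tauto

theorem sQ (h : Sq G k Q K u v a b) : Sq G k K Q v u a b :=
  ⟨h.tw, h.r, h.q, fun x => ⟨fun e => ⟨h.d' e, fun e1 => h.aQ (e1 ▸ e), fun e1 => h.bQ (e1 ▸ e)⟩,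
    fun e => by have := h.all x; tauto⟩, h.aK, h.bK, h.ab, h.hv, h.hu, h.va, h.vb, h.ua, h.ub⟩

theorem sab (h : Sq G k Q K u v a b) : Sq G k Q K u v b a :=
  ⟨h.tw, h.q, h.r, fun x => by rw [h.cov]; tauto, h.bQ, h.aQ, h.ab.symm, h.hu, h.hv, h.ub, h.ua,
    h.vb, h.va⟩

theorem uK (h : Sq G k Q K u v a b) {x : V} (hx : x ∈ K) : ¬ G.Adj u x := fun e =>
  (h.tw.three h.q h.hu h.aQ h.bQ (h.d hx) h.ab h.ua h.ub e).elim
    (fun e1 => h.aK (e1 ▸ hx)) fun e1 => h.bK (e1 ▸ hx)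

theorem uY (h : Sq G k Q K u v a b) : u ∉ Yv G a := fun e => (mem_Y.1 e).2 h.ua.symm

/-- At most two outer neighbours. -/
theorem split (h : Sq G k Q K u v a b) {f : V} (hf : f ∈ Q) (T : Finset V) :
    (nb G T f).card = (nb G (T ∩ Q) f).card + (nb G (T \ Q) f).card ∧
      (nb G (T \ Q) f).card ≤ 2 := by
  constructor
  · rw [← card_union_of_disjoint (disjoint_left.2 fun x hx hx' =>
      (mem_sdiff.1 (mem_nb.1 hx').1).2 (mem_inter.1 (mem_nb.1 hx).1).2)]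
    congr 1
    ext x
    simp only [mem_nb, mem_union, mem_inter, mem_sdiff]
    tauto
  · have := clq_deg (S := nb G (T \ Q) f) h.q hf fun s hs =>
      ⟨(mem_sdiff.1 (mem_nb.1 hs).1).2, (mem_nb.1 hs).2⟩
    have := h.tw.deg_le f
    omega

/-- A clique vertex with outer neighbours `y`, `y'`. -/
theorem pq (h : Sq G k Q K u v a b) {f y y' : V} (hf : f ∈ Q) (hy : y ∉ Q) (hy' : y' ∉ Q)
    (n : y ≠ y') (e : G.Adj f y) (e' : G.Adj f y') {x z : V} (hx : x ∉ Q) (hz : z ∉ Q)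
    (x1 : x ≠ y) (x2 : x ≠ y') (z1 : z ≠ y) (z2 : z ≠ y') (xz : x ≠ z) : G.Adj x z :=
  let ⟨h1, h2⟩ := h.tw.two h.q hf hy hy' n e e'
  h1.2 x ((h2 x).2 ⟨hx, x1, x2⟩) z ((h2 z).2 ⟨hz, z1, z2⟩) xz

theorem st_of (h : Sq G k Q K u v a b) (h1 : ∀ x ∈ Q, G.Adj a x → x = u) {f y y' : V}
    (hf : f ∈ Q) (hy : y ∉ Q) (hy' : y' ∉ Q) (n : y ≠ y') (e : G.Adj f y) (e' : G.Adj f y')
    (fY : f ∈ Yv G a) (yY : y ∈ Yv G a) (yY' : y' ∈ Yv G a) : St G Q K u a b := by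
  rw [mem_Y] at fY yY yY'
  by_cases c : G.Adj a b
  · exact Or.inl ⟨c, h1, f, hf, y, (h.cov y).2 ⟨hy, yY.1, fun e1 => yY.2 (e1 ▸ c)⟩, y',
      (h.cov y').2 ⟨hy', yY'.1, fun e1 => yY'.2 (e1 ▸ c)⟩, n, e, e', fY.2, yY.2, yY'.2⟩
  refine Or.inr ⟨c, h1, f, hf, ?_⟩
  by_cases e1 : y = b
  · exact ⟨y', (h.cov y').2 ⟨hy', yY'.1, fun e2 => n (e1.trans e2.symm)⟩, e', e1 ▸ e, fY.2, yY'.2⟩
  by_cases e2 : y' = b
  · exact ⟨y, (h.cov y).2 ⟨hy, yY.1, e1⟩, e, e2 ▸ e', fY.2, yY.2⟩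
  exact absurd (h.pq hf hy hy' n e e' h.aQ h.bQ yY.1.symm yY'.1.symm (Ne.symm e1) (Ne.symm e2)
    h.ab) c

theorem starQ (h : Sq G k Q K u v a b) {f : V} (hf : f ∈ Q) (fY : f ∈ Yv G a)
    (hd : k ≤ (nb G (Yv G a) f).card) : St G Q K u a b := by
  obtain ⟨h1, h2⟩ := h.split hf (Yv G a)
  have h3 := nb_card_lt (G := G) (mem_inter.2 ⟨fY, hf⟩)
  have h4 := card_add_one_le (T := Yv G a ∩ Q) (A := Q) inter_subset_right h.hu
    fun e => h.uY (mem_inter.1 e).1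
  have h5 := h.q.1
  obtain ⟨y, hy, y', hy', n⟩ := one_lt_card.1 (show 1 < (nb G (Yv G a \ Q) f).card by omega)
  rw [mem_nb, mem_sdiff] at hy hy'
  refine h.st_of (fun x hx e => by_contra fun n => ?_) hf hy.1.2 hy'.1.2 n hy.2 hy'.2 fY hy.1.1
    hy'.1.1
  have := card_add_two_le (T := Yv G a ∩ Q) (A := Q) inter_subset_right h.hu hx (Ne.symm n)
    (fun e => h.uY (mem_inter.1 e).1) fun e1 => (mem_Y.1 (mem_inter.1 e1).1).2 e
  omega

theorem degb (h : Sq G k Q K u v a b) {T : Finset V} (hT : T ⊆ Yv G a) :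
    (nb G T b).card + 2 ≤ dg G b :=
  card_add_two_le (nb_mono (subset_univ T) b) (mem_nbu.2 h.ub.symm) (mem_nbu.2 h.vb.symm)
    (fun e => h.d h.hv (e ▸ h.hu)) (fun e => h.uY (hT (mem_nb.1 e).1))
    fun e => h.sQ.uY (hT (mem_nb.1 e).1)

theorem star (h : Sq G k Q K u v a b) {f : V} (fY : f ∈ Yv G a)
    (hd : k ≤ (nb G (Yv G a) f).card) : St G Q K u a b ∨ St G K Q v a b := by
  rcases h.all f with e | e | e | e
  · exact Or.inl (h.starQ e fY hd)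
  · exact Or.inr (h.sQ.starQ e fY hd)
  · exact absurd e (mem_Y.1 fY).1
  · have := h.degb (subset_refl _)
    have := h.tw.deg_le b
    subst e
    omega

theorem miss (h : Sq G k Q K u v a b) {T : Finset V} (hne : T.Nonempty) (hT : T ⊆ Yv G a)
    (hd : ∀ t ∈ T, k ≤ (nb G T t).card + 1) (hK : ∀ t ∈ T, t ∉ K) : IsMatchedPair k G := by
  have c1 := core_card hne hd
  have c2 := card_erase_add_one h.hu
  have c3 := card_insert_le b (Q.erase u)
  have c4 := h.q.1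
  have e : T = insert b (Q.erase u) := eq_of_subset_of_card_le (fun t ht => by
    rcases h.all t with e | e | e | e
    exacts [mem_insert_of_mem (mem_erase.2 ⟨fun e1 => h.uY (e1 ▸ hT ht), e⟩), absurd e (hK t ht),
      absurd e (mem_Y.1 (hT ht)).1, mem_insert.2 (Or.inl e)]) (by omega)
  have qT := clq_of_core hne hd (by rw [e]; omega)
  have hb : ∀ x ∈ Q, G.Adj b x := fun x hx => by
    by_cases e1 : x = u
    · exact e1 ▸ h.ub.symm
    · exact qT.2 b (e ▸ mem_insert_self _ _) x (e ▸ mem_insert_of_mem (mem_erase.2 ⟨e1, hx⟩))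
        fun e2 => h.bQ (e2 ▸ hx)
  have bT : b ∈ T := e ▸ mem_insert_self _ _
  have qb := h.tw.big (v := b) (by have := h.degb hT; have := hd b bT; omega)
  have c5 := card_erase_add_one h.hv
  have c6 := card_insert_le a (K.erase v)
  have c7 := h.r.1
  have e' : Yv G b = insert a (K.erase v) := eq_of_subset_of_card_le (fun t ht => by
    rcases h.all t with e | e | e | e
    exacts [absurd (hb t e) (mem_Y.1 ht).2,
      mem_insert_of_mem (mem_erase.2 ⟨fun e1 => h.sab.sQ.uY (e1 ▸ ht), e⟩),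
      mem_insert.2 (Or.inl e), absurd e (mem_Y.1 ht).1]) (by have := qb.1; omega)
  refine h.tw.matched h.q h.r h.cov h.aQ h.bQ h.ab (fun x hx => ?_) hb
  by_cases e1 : x = v
  · exact e1 ▸ h.va.symm
  · exact qb.2 a (e' ▸ mem_insert_self _ _) x (e' ▸ mem_insert_of_mem (mem_erase.2 ⟨e1, hx⟩))
      fun e2 => h.aK (e2 ▸ hx)

end Sq

/-- A closed core missed by `a` that meets both cliques. -/
structure Cc (G : SimpleGraph V) (k : ℕ) (Q K : Finset V) (u v a b : V) (T : Finset V) : Prop where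
  sq : Sq G k Q K u v a b
  cl : Cl G T (Yv G a)
  deg : ∀ t ∈ T, k ≤ (nb G T t).card + 1
  lt : ∀ t ∈ Yv G a, (nb G (Yv G a) t).card < k
  mQ : ∃ t ∈ T, t ∈ Q
  mK : ∃ t ∈ T, t ∈ K

namespace Cc

variable {Q K T : Finset V} {u v a b : V}

theorem sQ (h : Cc G k Q K u v a b T) : Cc G k K Q v u a b T :=
  ⟨h.sq.sQ, h.cl, h.deg, h.lt, h.mK, h.mQ⟩

theorem inT (h : Cc G k Q K u v a b T) {x : V} (hx : x ∈ Q) (xY : x ∈ Yv G a) : x ∈ T := by
  obtain ⟨t, ht, tQ⟩ := h.mQ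
  by_cases e : t = x
  exacts [e ▸ ht, h.cl.2 t ht x xY (h.sq.q.2 t tQ x hx e)]

theorem cnt (h : Cc G k Q K u v a b T) {f : V} (hf : f ∈ Q) (fY : f ∈ Yv G a) :
    (Yv G a ∩ Q).card + (nb G (Yv G a \ Q) f).card = k := by
  have fT := h.inT hf fY
  have h1 := (h.sq.split hf (Yv G a)).1
  have h2 := h.deg f fT
  have h3 := h.lt f fY
  rw [← h.cl.nb_eq fT] at h2
  have h4 : nb G (Yv G a ∩ Q) f = (Yv G a ∩ Q).erase f :=
    Subset.antisymm (nb_sub_erase _ _) fun x hx => mem_nb.2 ⟨mem_of_mem_erase hx,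
      h.sq.q.2 f hf x (mem_inter.1 (mem_of_mem_erase hx)).2 (mem_erase.1 hx).1.symm⟩
  have := card_erase_add_one (mem_inter.2 ⟨fY, hf⟩)
  rw [h4] at h1
  omega

theorem size (h : Cc G k Q K u v a b T) :
    (Yv G a ∩ Q).card + 1 = k ∨ (Yv G a ∩ Q).card + 2 = k := by
  obtain ⟨t, ht, tQ⟩ := h.mQ
  have := h.cnt tQ (h.cl.1 ht)
  have := (h.sq.split tQ (Yv G a)).2
  have := card_add_one_le (T := Yv G a ∩ Q) (A := Q) inter_subset_right h.sq.hu
    fun e => h.sq.uY (mem_inter.1 e).1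
  have := h.sq.q.1
  omega

theorem allY (h : Cc G k Q K u v a b T) (c : (Yv G a ∩ Q).card + 1 = k) {x : V} (hx : x ∈ Q)
    (n : x ≠ u) : x ∈ Yv G a := by
  by_contra e
  have := card_add_two_le (T := Yv G a ∩ Q) (A := Q) inter_subset_right h.sq.hu hx n.symm
    (fun e => h.sq.uY (mem_inter.1 e).1) fun e1 => e (mem_inter.1 e1).1
  have := h.sq.q.1
  omega

theorem lad1 (h : Cc G k Q K u v a b T) (c : (Yv G a ∩ Q).card + 1 = k)
    (c' : (Yv G a ∩ K).card + 1 = k) {f : V} (hf : f ∈ Q) (n : f ≠ u) :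
    ∃ y ∈ K, y ≠ v ∧ G.Adj f y ∧ ∀ z ∉ Q, G.Adj f z → z = y := by
  have hk := h.sq.tw.hk
  have fY := h.allY c hf n
  obtain ⟨y, hy⟩ := card_eq_one.1 (show (nb G (Yv G a \ Q) f).card = 1 by
    have := h.cnt hf fY; omega)
  have my : ∀ z, (z ∈ Yv G a ∧ z ∉ Q) ∧ G.Adj f z ↔ z = y := fun z => by
    rw [← mem_singleton, ← hy, mem_nb, mem_sdiff]
  obtain ⟨⟨yY, yQ⟩, fy⟩ := (my y).2 rfl
  have vf : ¬ G.Adj v f := h.sq.sQ.uK hf
  have yb : y ≠ b := fun e => by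
    subst e
    have bT := h.cl.2 f (h.inT hf fY) y yY fy
    have qb := h.sq.tw.big (v := y) (by
      have := h.sq.degb h.cl.1; have := h.deg y bT; omega)
    have aY : a ∈ Yv G y := mem_Y.2 ⟨h.sq.ab, fun e => (mem_Y.1 yY).2 e.symm⟩
    obtain ⟨x, hx, xa⟩ := exists_mem_ne (s := Yv G y) (by rw [qb.1]; omega) a
    have ax := qb.2 a aY x hx xa.symm
    rcases h.sq.all x with e | e | e | e
    · exact (mem_Y.1 (h.allY c e fun e1 => h.sq.sab.uY (e1 ▸ hx))).2 ax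
    · exact (mem_Y.1 (h.sQ.allY c' e fun e1 => h.sq.sab.sQ.uY (e1 ▸ hx))).2 ax
    · exact xa e
    · exact (mem_Y.1 hx).1 e
  have yK : y ∈ K := (h.sq.cov y).2 ⟨yQ, (mem_Y.1 yY).1, yb⟩
  have yv : y ≠ v := fun e => vf (e ▸ fy.symm)
  refine ⟨y, yK, yv, fy, fun z hz e => by_contra fun n' => ?_⟩
  have zY : z ∉ Yv G a := fun e1 => n' ((my z).1 ⟨⟨e1, hz⟩, e⟩)
  rcases h.sq.all z with e1 | e1 | e1 | e1
  · exact hz e1
  · exact zY (h.sQ.allY c' e1 fun e2 => vf (e2 ▸ e.symm))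
  · exact (mem_Y.1 fY).2 (e1 ▸ e.symm)
  · subst e1
    obtain ⟨x, hx, hx'⟩ := exists_mem_notMem_of_card_lt_card (s := {y, v}) (t := K)
      (by have := card_le_two (a := y) (b := v); have := h.sq.r.1; omega)
    simp only [mem_insert, mem_singleton, not_or] at hx'
    exact (mem_Y.1 (h.sQ.allY c' hx hx'.2)).2 (h.sq.pq hf yQ hz yb fy e h.sq.aQ (h.sq.d hx)
      (mem_Y.1 yY).1.symm h.sq.ab hx'.1 (fun e2 => h.sq.bK (e2 ▸ hx)) fun e2 => h.sq.aK (e2 ▸ hx))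

theorem ladder (h : Cc G k Q K u v a b T) (c : (Yv G a ∩ Q).card + 1 = k)
    (c' : (Yv G a ∩ K).card + 1 = k) : IsLadder k G := by
  have ex : ∀ f, ∃ y, f ∈ Q → f ≠ u → y ∈ K ∧ y ≠ v ∧ G.Adj f y ∧ ∀ z ∉ Q, G.Adj f z → z = y := by
    intro f
    by_cases e : f ∈ Q ∧ f ≠ u
    · obtain ⟨y, h1, h2⟩ := h.lad1 c c' e.1 e.2
      exact ⟨y, fun _ _ => ⟨h1, h2⟩⟩
    · exact ⟨f, fun e1 e2 => absurd ⟨e1, e2⟩ e⟩
  choose m hm using ex
  have uv : u ≠ v := fun e => h.sq.d h.sq.hv (e ▸ h.sq.hu)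
  refine ⟨Q, K, u, v, m, clq_iff.1 h.sq.q, clq_iff.1 h.sq.r, disjoint_left.2 fun x => h.sq.d',
    h.sq.hu, h.sq.hv, ⟨fun x hx => ⟨(hm x hx.1 hx.2).1, (hm x hx.1 hx.2).2.1⟩,
      fun x hx y hy e => ?_, fun y hy => ?_⟩, fun x hx y hy => ⟨fun e => ?_, fun e => ?_⟩,
    fun z zQ zK x hx => ⟨fun e => by_contra fun n => ?_, fun e => ?_⟩⟩
  · obtain ⟨z, -, -, -, hz⟩ := h.sQ.lad1 c' c (hm x hx.1 hx.2).1 (hm x hx.1 hx.2).2.1
    exact (hz x (h.sq.d' hx.1) (hm x hx.1 hx.2).2.2.1.symm).trans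
      (hz y (h.sq.d' hy.1) (e ▸ (hm y hy.1 hy.2).2.2.1.symm)).symm
  · obtain ⟨z, z1, z2, z3, -⟩ := h.sQ.lad1 c' c hy.1 hy.2
    exact ⟨z, ⟨z1, z2⟩, ((hm z z1 z2).2.2.2 y (h.sq.d hy.1) z3.symm).symm⟩
  · have n : x ≠ u := fun e1 => h.sq.uK hy (e1 ▸ e)
    exact ⟨n, (hm x hx n).2.2.2 y (h.sq.d hy) e⟩
  · exact e.2 ▸ (hm x hx e.1).2.2.1
  · push Not at n
    rcases hx with hx | hx
    · exact zK ((hm x hx n.1).2.2.2 z zQ e.symm ▸ (hm x hx n.1).1)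
    · obtain ⟨y, y1, -, -, y2⟩ := h.sQ.lad1 c' c hx n.2
      exact zQ (y2 z zK e.symm ▸ y1)
  · rcases h.sq.all z with e1 | e1 | e1 | e1
    · exact absurd e1 zQ
    · exact absurd e1 zK
    · rcases e with e | e
      exacts [e1 ▸ e ▸ h.sq.ua.symm, e1 ▸ e ▸ h.sq.va.symm]
    · rcases e with e | e
      exacts [e1 ▸ e ▸ h.sq.ub.symm, e1 ▸ e ▸ h.sq.vb.symm]

end Cc

end Pool.Agent.IsoTwo

/-! A vertex of degree `k + 1`: the remaining families. -/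

namespace Pool.Agent.IsoTwo

open Finset Pool.Agent.IsoKer Pool.Agent.IsoDefs
open scoped Classical

variable {V : Type*} [Fintype V] {G : SimpleGraph V} {k : ℕ}

theorem pent_of (C : ZMod 5 → V → Prop) (cov : ∀ x, ∃ j, C j x)
    (adj : ∀ j x y, C j x → C j y ∨ C (j + 1) y → x ≠ y → G.Adj x y)
    (non : ∀ j x y, C j x → C (j + 2) y → ¬ G.Adj x y)
    (uni : ∀ i j x, C i x → C j x → i = j)
    (size : ∀ j, ∃ K : Finset V, k ≤ K.card ∧ ∀ x ∈ K, C j x ∨ C (j + 1) x) :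
    IsPentagon k G := by
  choose f hf using cov
  have five : ∀ s t : ZMod 5, (s = t ∨ s = t + 1 ∨ t = s + 1) ∨ s = t + 2 ∨ t = s + 2 := by decide
  refine ⟨f, fun x y => ⟨fun a => ⟨a.ne, (five _ _).resolve_right ?_⟩, ?_⟩, fun j => ?_⟩
  · rintro (e | e)
    exacts [non _ y x (hf y) (e ▸ hf x) a.symm, non _ x y (hf x) (e ▸ hf y) a]
  · rintro ⟨n, e | e | e⟩
    exacts [adj _ x y (hf x) (Or.inl (e ▸ hf y)) n,
      (adj _ y x (hf y) (Or.inr (e ▸ hf x)) n.symm).symm, adj _ x y (hf x) (Or.inr (e ▸ hf y)) n]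
  · obtain ⟨K, h1, h2⟩ := size j
    refine h1.trans (Set.ncard_coe_finset K ▸ Set.ncard_le_ncard (fun x hx => ?_) (Set.toFinite _))
    exact (h2 x hx).imp (uni _ _ x (hf x)) (uni _ _ x (hf x))

namespace Cc

variable {Q K T : Finset V} {u v a b : V}

theorem pent (h : Cc G k Q K u v a b T) (hk : 4 ≤ k) (c : (Yv G a ∩ Q).card + 2 = k) :
    IsPentagon k G := by
  have two : ∀ f ∈ Q, f ∈ Yv G a → ∃ y y', y ≠ y' ∧ y ∉ Q ∧ y' ∉ Q ∧ y ∈ Yv G a ∧ y' ∈ Yv G a ∧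
      G.Adj f y ∧ G.Adj f y' ∧ Yv G a ∩ K = {y, y'} ∧ k = 4 := fun f hf fY => by
    obtain ⟨y, hy, y', hy', n⟩ := one_lt_card.1 (show 1 < (nb G (Yv G a \ Q) f).card by
      have := h.cnt hf fY; omega)
    rw [mem_nb, mem_sdiff] at hy hy'
    have s : Yv G a ∩ K ⊆ {y, y'} := fun x hx => by
      by_contra e
      simp only [mem_insert, mem_singleton, not_or] at e
      rw [mem_inter, mem_Y] at hx
      exact hx.1.2 (h.sq.pq hf hy.1.2 hy'.1.2 n hy.2 hy'.2 h.sq.aQ (h.sq.d hx.2)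
        (mem_Y.1 hy.1.1).1.symm (mem_Y.1 hy'.1.1).1.symm e.1 e.2 hx.1.1.symm)
    have c1 := card_le_card s
    have c2 := h.sQ.size
    have c3 := card_pair n
    exact ⟨y, y', n, hy.1.2, hy'.1.2, hy.1.1, hy'.1.1, hy.2, hy'.2,
      eq_of_subset_of_card_le s (by omega), by omega⟩
  obtain ⟨f, hf, fQ⟩ := h.mQ
  have fY := h.cl.1 hf
  obtain ⟨y, y', n, yQ, yQ', yY, yY', fy, fy', e, rfl⟩ := two f fQ fY
  have me : ∀ x, x ∈ Yv G a ∧ x ∈ K ↔ x = y ∨ x = y' := fun x => by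
    rw [← mem_inter, e, mem_insert, mem_singleton]
  have yK := ((me y).2 (Or.inl rfl)).2
  have yK' := ((me y').2 (Or.inr rfl)).2
  obtain ⟨qf, mf⟩ := h.sq.tw.two h.sq.q fQ yQ yQ' n fy fy'
  have nb1 : ∀ x ∈ K, b ≠ x := fun x hx e => h.sq.bK (e ▸ hx)
  have na1 : ∀ x ∈ K, a ≠ x := fun x hx e => h.sq.aK (e ▸ hx)
  have af := (mf a).2 ⟨h.sq.aQ, na1 y yK, na1 y' yK'⟩
  have bf := (mf b).2 ⟨h.sq.bQ, nb1 y yK, nb1 y' yK'⟩
  have ab : G.Adj a b := qf.2 a af b bf h.sq.ab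
  have c23 : ∀ x ∈ Q, x ∈ Yv G a → ∀ z ∈ K, z ∈ Yv G a → G.Adj x z := fun x hx xY z hz zY => by
    obtain ⟨p, p', -, -, -, -, -, e1, e2, e3, -⟩ := two x hx xY
    rcases mem_insert.1 (e3 ▸ mem_inter.2 ⟨zY, hz⟩ : z ∈ ({p, p'} : Finset V)) with e4 | e4
    exacts [e4 ▸ e1, mem_singleton.1 e4 ▸ e2]
  obtain ⟨g, g', ng, eg⟩ := card_eq_two.1 (show (Yv G a ∩ Q).card = 2 by omega)
  have mg : ∀ x, x ∈ Yv G a ∧ x ∈ Q ↔ x = g ∨ x = g' := fun x => by
    rw [← mem_inter, eg, mem_insert, mem_singleton]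
  have hg := (mg g).2 (Or.inl rfl)
  have hg' := (mg g').2 (Or.inr rfl)
  obtain ⟨qy, my⟩ := h.sq.tw.two h.sq.r yK (h.sq.d' hg.2) (h.sq.d' hg'.2) ng
    (c23 g hg.2 hg.1 y yK yY).symm (c23 g' hg'.2 hg'.1 y yK yY).symm
  have aN : ∀ x, x ∉ Yv G a → x ≠ a → G.Adj a x := fun x hx n =>
    by_contra fun e => hx (mem_Y.2 ⟨n, e⟩)
  have bQ : ∀ x ∈ Q, x ∉ Yv G a → G.Adj b x := fun x hx xY =>
    qy.2 b ((my b).2 ⟨h.sq.bK, fun e => h.sq.bQ (e ▸ hg.2), fun e => h.sq.bQ (e ▸ hg'.2)⟩) x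
      ((my x).2 ⟨h.sq.d' hx, fun e => xY (e ▸ hg.1), fun e => xY (e ▸ hg'.1)⟩)
      fun e => h.sq.bQ (e ▸ hx)
  have bK : ∀ x ∈ K, x ∉ Yv G a → G.Adj b x := fun x hx xY =>
    qf.2 b bf x ((mf x).2 ⟨h.sq.d hx, fun e => xY (e ▸ yY), fun e => xY (e ▸ yY')⟩) (nb1 x hx)
  have o2 : ∀ x ∈ Q, x ∈ Yv G a → ∀ z ∉ Q, G.Adj x z → z ∈ Yv G a ∧ z ∈ K := fun x hx xY z hz e =>
    (me z).2 (h.sq.tw.three h.sq.q hx yQ yQ' hz n (c23 x hx xY y yK yY) (c23 x hx xY y' yK' yY') e)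
  have o3 : ∀ x ∈ K, x ∈ Yv G a → ∀ z ∉ K, G.Adj x z → z ∈ Yv G a ∧ z ∈ Q := fun x hx xY z hz e =>
    (mg z).2 (h.sq.tw.three h.sq.r hx (h.sq.d' hg.2) (h.sq.d' hg'.2) hz ng
      (c23 g hg.2 hg.1 x hx xY).symm (c23 g' hg'.2 hg'.1 x hx xY).symm e)
  have o1 : ∀ x ∈ Q, x ∉ Yv G a → ∀ z ∈ K, ¬ G.Adj x z := fun x hx xY z hz e =>
    (h.sq.tw.three h.sq.q hx h.sq.aQ h.sq.bQ (h.sq.d hz) h.sq.ab
      (aN x xY fun e => h.sq.aQ (e ▸ hx)).symm (bQ x hx xY).symm e).elim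
      (fun e1 => na1 z hz e1.symm) fun e1 => nb1 z hz e1.symm
  have aQ := h.sq.aQ
  have bQ' := h.sq.bQ
  have aK := h.sq.aK
  have bK' := h.sq.bK
  have dQ := fun x => h.sq.d (x := x)
  refine pent_of (fun j x => ![x = a ∨ x = b, x ∈ Q ∧ x ∉ Yv G a, x ∈ Q ∧ x ∈ Yv G a,
    x ∈ K ∧ x ∈ Yv G a, x ∈ K ∧ x ∉ Yv G a] j) (fun x => ?_) (fun j x z => ?_) (fun j x z => ?_)
    (fun i j x => ?_) fun j => ?_
  · rcases h.sq.all x with e | e | e
    · by_cases e1 : x ∈ Yv G a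
      exacts [⟨2, e, e1⟩, ⟨1, e, e1⟩]
    · by_cases e1 : x ∈ Yv G a
      exacts [⟨3, e, e1⟩, ⟨4, e, e1⟩]
    · exact ⟨0, e⟩
  · fin_cases j
    · rintro (rfl | rfl) ((rfl | rfl) | e) n
      exacts [absurd rfl n, ab, aN z e.2 n.symm, ab.symm, absurd rfl n, bQ z e.1 e.2]
    · rintro e (e' | e') n
      exacts [h.sq.q.2 x e.1 z e'.1 n, h.sq.q.2 x e.1 z e'.1 n]
    · rintro e (e' | e') n
      exacts [h.sq.q.2 x e.1 z e'.1 n, c23 x e.1 e.2 z e'.1 e'.2]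
    · rintro e (e' | e') n
      exacts [h.sq.r.2 x e.1 z e'.1 n, h.sq.r.2 x e.1 z e'.1 n]
    · rintro e (e' | rfl | rfl) n
      exacts [h.sq.r.2 x e.1 z e'.1 n, (aN x e.2 n).symm, (bK x e.1 e.2).symm]
  · fin_cases j
    · rintro (rfl | rfl) e a1
      exacts [(mem_Y.1 e.2).2 a1, bK' (o2 z e.1 e.2 x bQ' a1.symm).2]
    · exact fun e e' => o1 x e.1 e.2 z e'.1
    · exact fun e e' a1 => e'.2 (o2 x e.1 e.2 z (dQ z e'.1) a1).1
    · rintro e (rfl | rfl) a1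
      exacts [(mem_Y.1 e.2).2 a1.symm, bQ' (o3 x e.1 e.2 z bK' a1).2]
    · exact fun e e' a1 => o1 z e'.1 e'.2 x e.1 a1.symm
  · have := dQ x
    have h1 : x = a ∨ x = b → x ∉ Q := by rintro (rfl | rfl) <;> assumption
    have h2 : x = a ∨ x = b → x ∉ K := by rintro (rfl | rfl) <;> assumption
    fin_cases i <;> fin_cases j <;> intro e e' <;>
      first | rfl | exact absurd e'.1 (h1 e) | exact absurd e'.1 (h2 e) | exact absurd e.1 (h1 e')
            | exact absurd e.1 (h2 e') | exact absurd e.2 e'.2 | exact absurd e'.2 e.2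
            | exact absurd e.1 (this e'.1) | exact absurd e'.1 (this e.1)
  · fin_cases j
    · refine ⟨_, qy.1.ge, fun x hx => ?_⟩
      rw [my] at hx
      rcases h.sq.all x with e | e | e
      exacts [Or.inr ⟨e, fun e1 => ((mg x).1 ⟨e1, e⟩).elim hx.2.1 hx.2.2⟩, absurd e hx.1, Or.inl e]
    · exact ⟨Q, h.sq.q.1.ge, fun x hx => (em (x ∈ Yv G a)).symm.imp (⟨hx, ·⟩) (⟨hx, ·⟩)⟩
    · refine ⟨Yv G a, ?_, fun x hx => ?_⟩
      · have := h.sq.tw.Yc a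
        have := h.sq.tw.deg_le a
        omega
      · rcases h.sq.all x with e | e | e | e
        exacts [Or.inl ⟨e, hx⟩, Or.inr ⟨e, hx⟩, absurd e (mem_Y.1 hx).1,
          absurd (e ▸ ab) (mem_Y.1 hx).2]
    · exact ⟨K, h.sq.r.1.ge, fun x hx => (em (x ∈ Yv G a)).imp (⟨hx, ·⟩) (⟨hx, ·⟩)⟩
    · refine ⟨_, qf.1.ge, fun x hx => ?_⟩
      rw [mf] at hx
      rcases h.sq.all x with e | e | e
      exacts [absurd e hx.1, Or.inl ⟨e, fun e1 => ((me x).1 ⟨e1, e⟩).elim hx.2.1 hx.2.2⟩, Or.inr e]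

end Cc

namespace Sq

variable {Q K : Finset V} {u v a b : V}

omit [Fintype V] in
theorem ex3 {Z : Finset V} (hZ : Clq G k Z) (hk : 4 ≤ k) (x y z : V) :
    ∃ w ∈ Z, w ≠ x ∧ w ≠ y ∧ w ≠ z := by
  obtain ⟨w, hw, hw'⟩ := exists_mem_notMem_of_card_lt_card (s := {x, y, z}) (t := Z)
    (by have := card_le_three (a := x) (b := y) (c := z); have := hZ.1; omega)
  simp only [mem_insert, mem_singleton, not_or] at hw'
  exact ⟨w, hw, hw'⟩

theorem s1s1 (h : Sq G k Q K u v a b) (hk : 4 ≤ k) (h1 : S1 G Q K u a) (h2 : S1 G K Q v b) :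
    False := by
  obtain ⟨-, f, hf, y, hy, y', hy', n, e, e', -⟩ := h1
  obtain ⟨x, hx, x1, x2, x3⟩ := ex3 h.r hk y y' v
  exact x3 (h2.1 x hx (h.pq hf (h.d hy) (h.d hy') n e e' h.bQ (h.d hx) (fun e1 => h.bK (e1 ▸ hy))
    (fun e1 => h.bK (e1 ▸ hy')) x1 x2 fun e1 => h.bK (e1 ▸ hx)))

theorem s0s0 (h : Sq G k Q K u v a b) (h1 : S0 G Q K u a b) (h2 : S0 G Q K u b a) : False := by
  obtain ⟨-, f, hf, y, -, -, e, n, -⟩ := h1
  exact n (h2.1 f hf e.symm ▸ h.ua.symm)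

theorem kite (h : Sq G k Q K u v a b) (h1 : S1 G Q K u a) (h2 : S1 G Q K u b)
    (H : ∀ f ∈ Q, ∀ w ∈ K, ∀ w' ∈ K, w ≠ w' → G.Adj f w → G.Adj f w' → ¬ G.Adj a w' →
      ¬ G.Adj b w' → ∀ x ∈ Q, G.Adj x w → x = f) : IsKite k G := by
  obtain ⟨au, f, hf, y, hy, y', hy', n, e, e', af, ay, ay'⟩ := h1
  obtain ⟨bu, g, hg, z, hz, z', hz', n', r, r', -, bz, bz'⟩ := h2
  have nb1 : ∀ x ∈ K, b ≠ x := fun x hx e => h.bK (e ▸ hx)
  have na1 : ∀ x ∈ K, a ≠ x := fun x hx e => h.aK (e ▸ hx)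
  have by' : ∀ x ∈ K, ¬ G.Adj a x → ¬ G.Adj b x := fun x hx ax => by
    by_cases e1 : x = z
    · exact e1 ▸ bz
    by_cases e2 : x = z'
    · exact e2 ▸ bz'
    exact absurd (h.pq hg (h.d hz) (h.d hz') n' r r' h.aQ (h.d hx) (na1 z hz) (na1 z' hz') e1 e2
      (na1 x hx)) ax
  obtain ⟨qf, mf⟩ := h.tw.two h.q hf (h.d hy) (h.d hy') n e e'
  have aS := (mf a).2 ⟨h.aQ, na1 y hy, na1 y' hy'⟩
  have bS := (mf b).2 ⟨h.bQ, nb1 y hy, nb1 y' hy'⟩
  have fu : u ≠ f := fun e1 => af (e1 ▸ h.ua.symm)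
  have nS : ∀ x ∉ Q, x ∉ Yv G f → x = y ∨ x = y' := fun x hx xS => by
    rw [mf] at xS; tauto
  refine ⟨Q, Yv G f, K, u, f, clq_iff.1 h.q, clq_iff.1 qf, clq_iff.1 h.r, h.hu, hf, fu,
    fun x => ⟨fun hx => ⟨fun e1 => ((mf x).1 e1).1 hx, h.d' hx⟩, fun hx => by_contra fun e1 =>
      (nS x e1 hx.1).elim (fun e2 => hx.2 (e2 ▸ hy)) fun e2 => hx.2 (e2 ▸ hy')⟩,
    fun x xK w wS xS wK => ?_, fun x hx w hw => ⟨fun a1 => ?_, ?_⟩⟩
  · have aw : ¬ G.Adj a w := by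
      rcases nS w (h.d wK) wS with e1 | e1
      exacts [e1 ▸ ay, e1 ▸ ay']
    rcases h.all x with e1 | e1 | e1 | e1
    exacts [absurd e1 ((mf x).1 xS).1, absurd e1 xK, e1 ▸ aw, e1 ▸ by' w wK aw]
  · rcases h.all w with e1 | e1 | e1 | e1
    · exact absurd e1 hw
    · by_cases wS : w ∈ Yv G f
      · exact (h.tw.three h.r e1 h.aK h.bK (h.d' hx) h.ab (qf.2 a aS w wS (na1 w e1)).symm
          (qf.2 b bS w wS (nb1 w e1)).symm a1.symm).elim (fun e2 => absurd (e2 ▸ hx) h.aQ)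
          fun e2 => absurd (e2 ▸ hx) h.bQ
      · refine Or.inr ⟨?_, wS⟩
        rcases nS w hw wS with e2 | e2
        exacts [H f hf y hy y' hy' n e e' ay' (by' y' hy' ay') x hx (e2 ▸ a1),
          H f hf y' hy' y hy n.symm e' e ay (by' y hy ay) x hx (e2 ▸ a1)]
    · exact Or.inl ⟨au x hx (e1 ▸ a1.symm), e1 ▸ h.aK⟩
    · exact Or.inl ⟨bu x hx (e1 ▸ a1.symm), e1 ▸ h.bK⟩
  · rintro (⟨rfl, e1⟩ | ⟨rfl, e1⟩)
    · rcases h.all w with e2 | e2 | e2 | e2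
      exacts [absurd e2 hw, absurd e2 e1, e2 ▸ h.ua, e2 ▸ h.ub]
    · rcases nS w hw e1 with e2 | e2
      exacts [e2 ▸ e, e2 ▸ e']

theorem kite4 (h : Sq G k Q K u v a b) (hk : 4 ≤ k) (h1 : S1 G Q K u a) (h2 : S1 G Q K u b) :
    IsKite k G := h.kite h1 h2 fun f hf w hw _ _ _ fw _ _ _ x hx xw => by
  by_contra n1
  obtain ⟨s, hs, s1, s2, s3⟩ := ex3 h.q hk x f u
  exact s3 (h1.1 s hs (h.sQ.pq hw (h.d' hx) (h.d' hf) n1 xw.symm fw.symm h.aK (h.d' hs)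
    (fun e1 => h.aQ (e1 ▸ hx)) (fun e1 => h.aQ (e1 ▸ hf)) s1 s2 fun e1 => h.aQ (e1 ▸ hs)))

theorem side (h : Sq G k Q K u v a b) {y : V} (hy : y ∈ K) (n : ¬ G.Adj a y)
    (ha : ∀ x ∈ K, x ≠ y → G.Adj a x) :
    ∀ s ∈ insert a K, ∀ t ∈ insert a K, G.Adj s t ↔ s ≠ t ∧ s(s, t) ≠ s(y, a) := by
  intro s hs t ht
  have ya : y ≠ a := fun e => h.aK (e ▸ hy)
  rw [Ne, Ne, Sym2.eq_iff]
  rcases mem_insert.1 hs with e | e <;> rcases mem_insert.1 ht with e' | e'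
  · simp [e, e']
  · subst e
    refine ⟨fun a1 => ⟨a1.ne, ?_⟩, fun hh => ha t e' fun e1 => hh.2 (Or.inr ⟨rfl, e1⟩)⟩
    rintro (e1 | e1)
    exacts [ya e1.1.symm, n (e1.2 ▸ a1)]
  · subst e'
    refine ⟨fun a1 => ⟨a1.ne, ?_⟩, fun hh => (ha s e fun e1 => hh.2 (Or.inl ⟨e1, rfl⟩)).symm⟩
    rintro (e1 | e1)
    exacts [n (e1.1 ▸ a1.symm), ya e1.2.symm]
  · refine ⟨fun a1 => ⟨a1.ne, ?_⟩, fun hh => h.r.2 s e t e' hh.1⟩
    rintro (e1 | e1)
    exacts [h.aK (e1.2 ▸ e'), h.aK (e1.1 ▸ e)]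

theorem cross (h : Sq G k Q K u v a b) (ab : ¬ G.Adj a b) (h1 : S0 G Q K u a b)
    (h2 : S0 G K Q v b a) : IsCross k G := by
  obtain ⟨au, f, hf, y, hy, fy, fb, af, ay⟩ := h1
  obtain ⟨bv, g, hg, x, hx, gx, ga, bg, bx⟩ := h2
  have nb1 : ∀ x ∈ K, x ≠ b := fun x hx e => h.bK (e ▸ hx)
  have na1 : ∀ x ∈ K, x ≠ a := fun x hx e => h.aK (e ▸ hx)
  have nb2 : ∀ x ∈ Q, x ≠ b := fun x hx e => h.bQ (e ▸ hx)
  have na2 : ∀ x ∈ Q, x ≠ a := fun x hx e => h.aQ (e ▸ hx)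
  have qk : ∀ s ∈ K, ∀ t ∈ Q, s ≠ t := fun s hs t ht e => h.d hs (e ▸ ht)
  have ha : ∀ s ∈ K, s ≠ y → G.Adj a s := fun s hs n => h.pq hf (h.d hy) h.bQ (nb1 y hy) fy fb h.aQ
    (h.d hs) (na1 y hy).symm h.ab n (nb1 s hs) (na1 s hs).symm
  have hb : ∀ s ∈ Q, s ≠ x → G.Adj b s := fun s hs n => h.sQ.pq hg (h.d' hx) h.aK (na2 x hx) gx ga
    h.bK (h.d' hs) (nb2 x hx).symm h.ab.symm n (na2 s hs) (nb2 s hs).symm
  have nA : ∀ s, s ∉ insert a K → s ∈ insert b Q := fun s hs => by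
    have := h.all s
    simp only [mem_insert] at hs ⊢
    tauto
  have yg : y ≠ g := fun e => ay (e ▸ ga.symm)
  have yv : y ≠ v := fun e => ay (e ▸ h.va.symm)
  have gv : g ≠ v := fun e => bg (e ▸ h.vb.symm)
  have xf : x ≠ f := fun e => bx (e ▸ fb.symm)
  have xu : x ≠ u := fun e => bx (e ▸ h.ub.symm)
  have fu : f ≠ u := fun e => af (e ▸ h.ua.symm)
  have key : ∀ s ∈ K, ∀ t ∈ Q, G.Adj s t → (s = y ∧ t = f) ∨ (s = g ∧ t = x) := by
    intro s hs t ht st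
    by_cases e1 : s = y
    · refine Or.inl ⟨e1, by_contra fun n => ab ?_⟩
      exact h.sQ.pq hs (h.d' ht) (h.d' hf) n st (e1 ▸ fy.symm) h.aK h.bK (na2 t ht).symm
        (na2 f hf).symm (nb2 t ht).symm (nb2 f hf).symm h.ab
    by_cases e2 : t = x
    · refine Or.inr ⟨by_contra fun n => ab ?_, e2⟩
      exact h.pq ht (h.d hs) (h.d hg) n st.symm (e2 ▸ gx.symm) h.aQ h.bQ (na1 s hs).symm
        (na1 g hg).symm (nb1 s hs).symm (nb1 g hg).symm h.ab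
    exact absurd (h.pq ht (h.d hs) h.bQ (nb1 s hs) st.symm (hb t ht e2).symm h.aQ (h.d hy)
      (na1 s hs).symm h.ab (Ne.symm e1) (nb1 y hy) (na1 y hy).symm) ay
  refine ⟨insert a K, y, a, g, v, x, b, f, u, by rw [card_insert_of_notMem h.aK, h.r.1], ?_, ?_, ?_,
    h.side hy ay ha, fun s hs t ht => h.sab.sQ.side hx bx hb s (nA s hs) t (nA t ht),
    fun s hs t ht => ⟨fun st => ?_, fun e => ?_⟩⟩
  · have := h.hu
    have := h.hv
    simp [h.ab, na1 y hy, (na1 g hg).symm, (na1 v h.hv).symm, qk y hy,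
      qk g hg, qk v h.hv, nb1 y hy, nb1 g hg, nb1 v h.hv, (na2 x hx).symm, (na2 f hf).symm,
      (na2 u h.hu).symm, nb2 x hx, (nb2 f hf).symm, (nb2 u h.hu).symm, *]
  · simp [hy, hg, h.hv]
  · simp [h.d' hx, h.d' hf, h.d' h.hu, h.bK, na2 x hx, na2 f hf, na2 u h.hu, h.ab.symm]
  · simp only [List.mem_cons, Prod.mk.injEq, List.not_mem_nil, or_false]
    rcases mem_insert.1 hs with e | e <;> rcases mem_insert.1 (nA t ht) with e' | e'
    · exact absurd (e ▸ e' ▸ st) ab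
    · exact Or.inr (Or.inl ⟨e, au t e' (e ▸ st)⟩)
    · exact Or.inr (Or.inr (Or.inr ⟨bv s e (e' ▸ st.symm), e'⟩))
    · exact (key s e t e' st).imp_right fun e1 => Or.inr (Or.inl e1)
  · simp only [List.mem_cons, Prod.mk.injEq, List.not_mem_nil, or_false] at e
    rcases e with ⟨rfl, rfl⟩ | ⟨rfl, rfl⟩ | ⟨rfl, rfl⟩ | ⟨rfl, rfl⟩
    exacts [fy.symm, h.ua.symm, gx, h.vb]

end Sq

end Pool.Agent.IsoTwo

/-! The case `k = 3`: tables on eight vertices. -/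

namespace Pool.Agent.IsoTwo

open Finset Pool.Agent.IsoKer Pool.Agent.IsoDefs
open scoped Classical

variable {V : Type*} [Fintype V] {G : SimpleGraph V} {k : ℕ}

/-- The adjacency table of the square of the eight-cycle minus `D`. -/
def sqR (D : List (Sym2 (ZMod 8))) (a b : ZMod 8) : Prop :=
  b - a ∈ ([1, 2, 6, 7] : List (ZMod 8)) ∧ s(a, b) ∉ D

instance (D : List (Sym2 (ZMod 8))) : DecidableRel (sqR D) := fun _ _ =>
  inferInstanceAs (Decidable (_ ∧ _))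

theorem tab (hd : ∀ v, dg G v ≤ 4) {x : ZMod 8 → V} (inj : Function.Injective x)
    (R : ZMod 8 → ZMod 8 → Prop) [DecidableRel R] (L N : List (ZMod 8 × ZMod 8))
    (pos : ∀ p ∈ L, G.Adj (x p.1) (x p.2)) (neg : ∀ p ∈ N, ¬ G.Adj (x p.1) (x p.2))
    (c1 : ∀ a b, R a b → (a, b) ∈ L ∨ (b, a) ∈ L)
    (c2 : ∀ a b, R a b ∨ a = b ∨ (a, b) ∈ N ∨ (b, a) ∈ N ∨ 4 ≤ (univ.filter (R a)).card ∨
      (¬ R b a ∧ 4 ≤ (univ.filter (R b)).card)) (a b : ZMod 8) : G.Adj (x a) (x b) ↔ R a b := by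
  have p : ∀ a b, R a b → G.Adj (x a) (x b) := fun a b e =>
    (c1 a b e).elim (pos (a, b)) fun e1 => (pos (b, a) e1).symm
  have q : ∀ a b, 4 ≤ (univ.filter (R a)).card → ¬ R a b → ¬ G.Adj (x a) (x b) := fun a b c n e => by
    have := card_add_one_le (T := (univ.filter (R a)).image x) (A := nb G univ (x a)) (a := x b)
      (fun y hy => by
        obtain ⟨z, hz, rfl⟩ := mem_image.1 hy
        exact mem_nbu.2 (p a z (mem_filter.1 hz).2)) (mem_nbu.2 e) fun e1 => by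
        obtain ⟨z, hz, e2⟩ := mem_image.1 e1
        exact n (inj e2 ▸ (mem_filter.1 hz).2)
    rw [card_image_of_injective _ inj] at this
    have := hd (x a)
    unfold dg at this
    omega
  refine ⟨fun e => by_contra fun n => ?_, p a b⟩
  rcases c2 a b with c | c | c | c | c | c
  exacts [n c, e.ne (c ▸ rfl), neg _ c e, neg _ c e.symm, q a b c n e, q b a c.2 c.1 e.symm]

theorem bij8 (hn : Fintype.card V = 2 * (3 + 1)) {x : ZMod 8 → V} (inj : Function.Injective x) :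
    Function.Bijective x :=
  (Fintype.bijective_iff_injective_and_card x).2 ⟨inj, by rw [hn]; rfl⟩

omit [Fintype V] in
theorem inj8 {x0 x1 x2 x3 x4 x5 x6 x7 : V} (h : [x0, x1, x2, x3, x4, x5, x6, x7].Nodup) :
    Function.Injective (![x0, x1, x2, x3, x4, x5, x6, x7] : ZMod 8 → V) :=
  (List.nodup_ofFn (f := (![x0, x1, x2, x3, x4, x5, x6, x7] : Fin 8 → V))).1 (by simpa using h)

section
variable {x0 x1 x2 x3 x4 x5 x6 x7 : V} (hn : Fintype.card V = 2 * (3 + 1)) (hd : ∀ v, dg G v ≤ 4)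
  (h : [x0, x1, x2, x3, x4, x5, x6, x7].Nodup)
  (e01 : G.Adj x0 x1) (e02 : G.Adj x0 x2) (e06 : G.Adj x0 x6) (e07 : G.Adj x0 x7)
  (e12 : G.Adj x1 x2) (e13 : G.Adj x1 x3) (e23 : G.Adj x2 x3) (e34 : G.Adj x3 x4)
  (e35 : G.Adj x3 x5) (e45 : G.Adj x4 x5) (e46 : G.Adj x4 x6) (e67 : G.Adj x6 x7)
include hn hd h e01 e02 e06 e07 e12 e13 e23 e34 e35 e45 e46 e67

theorem sq0 {i : ℕ} (e56 : G.Adj x5 x6) (e57 : G.Adj x5 x7) (e17 : G.Adj x1 x7)
    (e24 : G.Adj x2 x4) : IsSquare i G :=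
  ⟨Equiv.ofBijective _ (bij8 hn (inj8 h)), [], Or.inl rfl, tab hd (inj8 h) (sqR [])
    [(0, 1), (0, 2), (0, 6), (0, 7), (1, 2), (1, 3), (2, 3), (3, 4), (3, 5), (4, 5), (4, 6), (6, 7),
      (5, 6), (5, 7), (1, 7), (2, 4)] []
    (by simp only [List.forall_mem_cons]
        exact ⟨e01, e02, e06, e07, e12, e13, e23, e34, e35, e45, e46, e67, e56, e57, e17, e24,
          by simp⟩) (by simp) (by decide) (by decide)⟩

variable (n14 : ¬ G.Adj x1 x4) (n17 : ¬ G.Adj x1 x7) (n24 : ¬ G.Adj x2 x4) (n27 : ¬ G.Adj x2 x7)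
  (n47 : ¬ G.Adj x4 x7)
include n14 n17 n24 n27 n47

theorem sq1 {i : ℕ} (e56 : G.Adj x5 x6) (e57 : G.Adj x5 x7) : IsSquare i G :=
  ⟨Equiv.ofBijective _ (bij8 hn (inj8 h)), _, Or.inr (Or.inl rfl), tab hd (inj8 h)
    (sqR [s(1, 7), s(2, 4)])
    [(0, 1), (0, 2), (0, 6), (0, 7), (1, 2), (1, 3), (2, 3), (3, 4), (3, 5), (4, 5), (4, 6), (6, 7),
      (5, 6), (5, 7)] [(1, 4), (1, 7), (2, 4), (2, 7), (4, 7)]
    (by simp only [List.forall_mem_cons]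
        exact ⟨e01, e02, e06, e07, e12, e13, e23, e34, e35, e45, e46, e67, e56, e57, by simp⟩)
    (by simp only [List.forall_mem_cons]
        exact ⟨n14, n17, n24, n27, n47, by simp⟩) (by decide) (by decide)⟩

theorem sq2 {i : ℕ} (e56 : G.Adj x5 x6) (n57 : ¬ G.Adj x5 x7) (n15 : ¬ G.Adj x1 x5)
    (n25 : ¬ G.Adj x2 x5) : IsSquare i G :=
  ⟨Equiv.ofBijective _ (bij8 hn (inj8 h)), _, Or.inr (Or.inr (Or.inl rfl)), tab hd (inj8 h)
    (sqR [s(1, 7), s(2, 4), s(5, 7)])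
    [(0, 1), (0, 2), (0, 6), (0, 7), (1, 2), (1, 3), (2, 3), (3, 4), (3, 5), (4, 5), (4, 6), (6, 7),
      (5, 6)] [(1, 4), (1, 7), (2, 4), (2, 7), (4, 7), (5, 7), (1, 5), (2, 5)]
    (by simp only [List.forall_mem_cons]
        exact ⟨e01, e02, e06, e07, e12, e13, e23, e34, e35, e45, e46, e67, e56, by simp⟩)
    (by simp only [List.forall_mem_cons]
        exact ⟨n14, n17, n24, n27, n47, n57, n15, n25, by simp⟩) (by decide) (by decide)⟩

theorem sq3 (e57 : G.Adj x5 x7) (n56 : ¬ G.Adj x5 x6) (n15 : ¬ G.Adj x1 x5)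
    (n25 : ¬ G.Adj x2 x5) (n16 : ¬ G.Adj x1 x6) (n26 : ¬ G.Adj x2 x6) :
    ∃ e : ZMod 8 ≃ V, ∀ a b, G.Adj (e a) (e b) ↔ sqR [s(1, 7), s(2, 4), s(5, 6)] a b :=
  ⟨Equiv.ofBijective _ (bij8 hn (inj8 h)), tab hd (inj8 h)
    (sqR [s(1, 7), s(2, 4), s(5, 6)])
    [(0, 1), (0, 2), (0, 6), (0, 7), (1, 2), (1, 3), (2, 3), (3, 4), (3, 5), (4, 5), (4, 6), (6, 7),
      (5, 7)] [(1, 4), (1, 7), (2, 4), (2, 7), (4, 7), (5, 6), (1, 5), (2, 5), (1, 6), (2, 6)]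
    (by simp only [List.forall_mem_cons]
        exact ⟨e01, e02, e06, e07, e12, e13, e23, e34, e35, e45, e46, e67, e57, by simp⟩)
    (by simp only [List.forall_mem_cons]
        exact ⟨n14, n17, n24, n27, n47, n56, n15, n25, n16, n26, by simp⟩) (by decide) (by decide)⟩

end

/-- The classes of the pentagon on eight vertices. -/
def pc : ZMod 8 → ZMod 5 := ![1, 0, 0, 4, 3, 3, 2, 2]

theorem pent8 {x0 x1 x2 x3 x4 x5 x6 x7 : V} (hn : Fintype.card V = 2 * (3 + 1))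
    (hd : ∀ v, dg G v ≤ 4) (h : [x0, x1, x2, x3, x4, x5, x6, x7].Nodup)
    (e01 : G.Adj x0 x1) (e02 : G.Adj x0 x2) (e06 : G.Adj x0 x6) (e07 : G.Adj x0 x7)
    (e12 : G.Adj x1 x2) (e13 : G.Adj x1 x3) (e23 : G.Adj x2 x3) (e34 : G.Adj x3 x4)
    (e35 : G.Adj x3 x5) (e45 : G.Adj x4 x5) (e46 : G.Adj x4 x6) (e67 : G.Adj x6 x7)
    (e56 : G.Adj x5 x6) (e57 : G.Adj x5 x7) (e47 : G.Adj x4 x7) : IsPentagon 3 G := by
  have t := tab hd (inj8 h)
    (fun a b => a ≠ b ∧ (pc a = pc b ∨ pc a = pc b + 1 ∨ pc b = pc a + 1))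
    [(0, 1), (0, 2), (0, 6), (0, 7), (1, 2), (1, 3), (2, 3), (3, 4), (3, 5), (4, 5), (4, 6), (6, 7),
      (5, 6), (5, 7), (4, 7)] []
    (by simp only [List.forall_mem_cons]
        exact ⟨e01, e02, e06, e07, e12, e13, e23, e34, e35, e45, e46, e67, e56, e57, e47, by simp⟩)
    (by simp) (by decide) (by decide)
  set e := Equiv.ofBijective _ (bij8 hn (inj8 h))
  refine ⟨fun v => pc (e.symm v), fun x y => ?_, fun j => ?_⟩
  · obtain ⟨a, rfl⟩ := e.surjective x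
    obtain ⟨b, rfl⟩ := e.surjective y
    simp only [Equiv.symm_apply_apply, ne_eq, EmbeddingLike.apply_eq_iff_eq]
    exact t a b
  · have : ∀ j, 3 ≤ (univ.filter fun a => pc a = j ∨ pc a = j + 1).card := by decide
    refine (this j).trans ?_
    rw [← card_image_of_injective _ e.injective, ← Set.ncard_coe_finset]
    refine Set.ncard_le_ncard (fun x hx => ?_) (Set.toFinite _)
    obtain ⟨a, ha, rfl⟩ := mem_image.1 hx
    simpa using (mem_filter.1 ha).2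

end Pool.Agent.IsoTwo

/-! The case `k = 3`: the extra configurations. -/

namespace Pool.Agent.IsoTwo

open Finset Pool.Agent.IsoKer Pool.Agent.IsoDefs
open scoped Classical

variable {V : Type*} [Fintype V] {G : SimpleGraph V} {k i : ℕ}

omit [Fintype V] in
theorem nd_perm {x0 x1 x2 x3 x4 x5 x6 x7 : V} (h : [x0, x1, x2, x3, x4, x5, x6, x7].Nodup)
    (π : ZMod 8 → ZMod 8) (hπ : Function.Injective π) :
    let x : ZMod 8 → V := ![x0, x1, x2, x3, x4, x5, x6, x7]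
    [x (π 0), x (π 1), x (π 2), x (π 3), x (π 4), x (π 5), x (π 6), x (π 7)].Nodup := by
  intro x
  have := (List.nodup_ofFn (n := 8) (f := fun j => x (π j))).2 ((inj8 h).comp hπ)
  simp only [List.ofFn_succ, List.ofFn_zero] at this
  exact this

omit [Fintype V] in
theorem third {Z : Finset V} (hZ : Clq G 3 Z) {x y : V} (hx : x ∈ Z) (hy : y ∈ Z) (n : x ≠ y) :
    ∃ z ∈ Z, z ≠ x ∧ z ≠ y ∧ ∀ w ∈ Z, w = x ∨ w = y ∨ w = z := by
  obtain ⟨w, hw, hw'⟩ := exists_mem_notMem_of_card_lt_card (s := {x, y}) (t := Z)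
    (by have := card_le_two (a := x) (b := y); have := hZ.1; omega)
  simp only [mem_insert, mem_singleton, not_or] at hw'
  refine ⟨w, hw, hw'.1, hw'.2, fun z hz => by_contra fun e => ?_⟩
  push Not at e
  have := card_add_three_le (T := {z}) (singleton_subset_iff.2 hz) hx hy hw n (Ne.symm hw'.1)
    (Ne.symm hw'.2)
    (by simpa using e.1.symm) (by simpa using e.2.1.symm) (by simpa using e.2.2.symm)
  have := hZ.1
  simp at *
  omega

theorem Tw.four (h : Tw G 3) {b x1 x2 x3 x4 y z w : V} (N : [b, x1, x2, x3, x4, y, z, w].Nodup)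
    (e1 : G.Adj b x1) (e2 : G.Adj b x2) (e3 : G.Adj b x3) (e4 : G.Adj b x4) : G.Adj y z := by
  simp only [List.nodup_cons, List.mem_cons, not_or] at N
  have c4 : ({x1, x2, x3, x4} : Finset V).card = 4 := by
    rw [card_insert_of_notMem (by simp [N]), card_insert_of_notMem (by simp [N]),
      card_pair N.2.2.2.1.1]
  have s : ({x1, x2, x3, x4} : Finset V) ⊆ nb G univ b := by
    intro y hy
    simp only [mem_insert, mem_singleton] at hy
    rcases hy with rfl | rfl | rfl | rfl <;> exact mem_nbu.2 ‹_›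
  have e := eq_of_subset_of_card_le s (by rw [c4]; exact h.deg_le b)
  have nb : ∀ x, x1 ≠ x → x2 ≠ x → x3 ≠ x → x4 ≠ x → ¬ G.Adj b x := fun x n1 n2 n3 n4 a => by
    have : x ∈ ({x1, x2, x3, x4} : Finset V) := e ▸ mem_nbu.2 a
    simp only [mem_insert, mem_singleton] at this
    rcases this with rfl | rfl | rfl | rfl <;> contradiction
  exact (h.big (v := b) (by unfold dg; rw [← e, c4])).2 y
    (mem_Y.2 ⟨Ne.symm N.1.2.2.2.2.1, nb y N.2.1.2.2.2.1 N.2.2.1.2.2.1 N.2.2.2.1.2.1 N.2.2.2.2.1.1⟩) z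
    (mem_Y.2 ⟨Ne.symm N.1.2.2.2.2.2.1, nb z N.2.1.2.2.2.2.1 N.2.2.1.2.2.2.1 N.2.2.2.1.2.2.1
      N.2.2.2.2.1.2.1⟩) N.2.2.2.2.2.1.1

namespace Sq

variable {Q K : Finset V} {u v a b : V}

theorem nd (h : Sq G k Q K u v a b) {f f' g g' : V} (hf : f ∈ Q) (hf' : f' ∈ Q) (hg : g ∈ K)
    (hg' : g' ∈ K) (n1 : f ≠ u) (n2 : f' ≠ u) (n3 : f ≠ f') (n4 : g ≠ v) (n5 : g' ≠ v)
    (n6 : g ≠ g') : [u, a, b, v, g, g', f, f'].Nodup := by
  have nb1 : ∀ x ∈ K, b ≠ x := fun x hx e => h.bK (e ▸ hx)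
  have na1 : ∀ x ∈ K, a ≠ x := fun x hx e => h.aK (e ▸ hx)
  have nb2 : ∀ x ∈ Q, b ≠ x := fun x hx e => h.bQ (e ▸ hx)
  have na2 : ∀ x ∈ Q, a ≠ x := fun x hx e => h.aQ (e ▸ hx)
  have qk : ∀ s ∈ K, ∀ t ∈ Q, s ≠ t := fun s hs t ht e => h.d hs (e ▸ ht)
  have := h.hu
  have := h.hv
  simp [(na2 u h.hu).symm, (nb2 u h.hu).symm, (qk v h.hv u h.hu).symm, (qk g hg u h.hu).symm,
    (qk g' hg' u h.hu).symm, n1.symm, n2.symm, h.ab, n4.symm, n5.symm, *]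

theorem deg4 (h : Sq G 3 Q K u v a b) (x : V) : dg G x ≤ 4 := h.tw.deg_le x

/-- Both further vertices see only `u` and `v`, and there are at least three cross edges. -/
theorem three_ab (h : Sq G 3 Q K u v a b) (ab : G.Adj a b) {f f' g g' : V} (hf : f ∈ Q)
    (hf' : f' ∈ Q) (hg : g ∈ K) (hg' : g' ∈ K) (n3 : f ≠ f') (n6 : g ≠ g') (e1 : G.Adj f g)
    (e2 : G.Adj f g') (e3 : G.Adj f' g') (a1 : ¬ G.Adj a g) (a2 : ¬ G.Adj a f')
    (b1 : ¬ G.Adj b g) (b2 : ¬ G.Adj b f') : IsPentagon 3 G ∨ IsSquare i G := by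
  have n1 : f ≠ u := fun e => h.uK hg (e ▸ e1)
  have n2 : f' ≠ u := fun e => h.uK hg' (e ▸ e3)
  have n4 : g ≠ v := fun e => h.sQ.uK hf (e ▸ e1.symm)
  have n5 : g' ≠ v := fun e => h.sQ.uK hf (e ▸ e2.symm)
  have N := h.nd hf hf' hg hg' n1 n2 n3 n4 n5 n6
  have q1 := h.q.2 u h.hu f hf n1.symm
  have q2 := h.q.2 u h.hu f' hf' n2.symm
  have q3 := h.q.2 f hf f' hf' n3
  have r1 := h.r.2 v h.hv g hg n4.symm
  have r2 := h.r.2 v h.hv g' hg' n5.symm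
  have r3 := h.r.2 g hg g' hg' n6
  by_cases e : G.Adj g f'
  · exact Or.inl (pent8 h.tw.card h.deg4 N h.ua h.ub q1 q2 ab h.va.symm h.vb.symm r1 r2 r3 e1.symm
      q3 e2.symm e3.symm e)
  · exact Or.inr (sq1 h.tw.card h.deg4 N h.ua h.ub q1 q2 ab h.va.symm h.vb.symm r1 r2 r3 e1.symm
      q3 a1 a2 b1 b2 e e2.symm e3.symm)

theorem s1s1' (h : Sq G 3 Q K u v a b) (ab : G.Adj a b) (h1 : S1 G Q K u a) (h2 : S1 G K Q v b) :
    IsPentagon 3 G ∨ IsSquare i G := by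
  obtain ⟨au, f, hf, y, hy, y', hy', n, e, e', af, ay, ay'⟩ := h1
  obtain ⟨bv, g, hg, x, hx, x', hx', n', r, r', -, bx, bx'⟩ := h2
  have yv : ∀ z ∈ K, G.Adj f z → z ≠ v := fun z _ a1 e1 => h.sQ.uK hf (e1 ▸ a1.symm)
  have xu : ∀ z ∈ Q, G.Adj g z → z ≠ u := fun z _ a1 e1 => h.uK hg (e1 ▸ a1.symm)
  have key : ∀ f' ∈ Q, f ≠ f' → G.Adj g f' → ¬ G.Adj b f' → IsPentagon 3 G ∨ IsSquare i G := by
    intro f' hf' n1 a1 b1
    have gv : g ≠ v := fun e1 => h.sQ.uK hf' (e1 ▸ a1)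
    have a2 : ¬ G.Adj a f' := fun e1 => xu f' hf' a1 (au f' hf' e1)
    obtain ⟨z, hz, z1, z2, z3⟩ := third h.r hy hy' n
    have vz : v = z := ((z3 v h.hv).resolve_left (yv y hy e).symm).resolve_left (yv y' hy' e').symm
    rcases z3 g hg with e1 | e1 | e1
    · exact h.three_ab ab hf hf' hy' hy n1 n.symm e' e (e1 ▸ a1.symm) ay' a2
        (fun e2 => yv y' hy' e' (bv y' hy' e2)) b1
    · exact h.three_ab ab hf hf' hy hy' n1 n e e' (e1 ▸ a1.symm) ay a2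
        (fun e2 => yv y hy e (bv y hy e2)) b1
    · exact absurd (e1.trans vz.symm) gv
  by_cases e1 : f = x
  exacts [key x' hx' (e1 ▸ n') r' bx', key x hx e1 r bx]

end Sq

theorem Cc.three {Q K T : Finset V} {u v a b : V} (h : Cc G 3 Q K u v a b T)
    (c : (Yv G a ∩ Q).card + 2 = 3) : IsPentagon 3 G ∨ IsSquare i G := by
  obtain ⟨f, hf, fQ⟩ := h.mQ
  have fY := h.cl.1 hf
  have fu : f ≠ u := fun e => h.sq.uY (e ▸ fY)
  obtain ⟨f', hf', n2, n3, -⟩ := third h.sq.q h.sq.hu fQ fu.symm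
  have one : ∀ x ∈ Q, x ∈ Yv G a → x = f := fun x hx xY =>
    card_le_one.1 (show (Yv G a ∩ Q).card ≤ 1 by omega) x (mem_inter.2 ⟨xY, hx⟩) f
      (mem_inter.2 ⟨fY, fQ⟩)
  have af' : G.Adj a f' := by_contra fun e =>
    n3 (one f' hf' (mem_Y.2 ⟨fun e1 => h.sq.aQ (e1 ▸ hf'), e⟩))
  have q1 := h.sq.q.2 u h.sq.hu f fQ fu.symm
  have q2 := h.sq.q.2 u h.sq.hu f' hf' n2.symm
  have q3 := h.sq.q.2 f fQ f' hf' n3.symm
  have yv : ∀ z, G.Adj f z → z ≠ v := fun z a1 e1 => h.sq.sQ.uK fQ (e1 ▸ a1.symm)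
  have nb1 : ∀ x ∈ K, b ≠ x := fun x hx e => h.sq.bK (e ▸ hx)
  have na1 : ∀ x ∈ K, a ≠ x := fun x hx e => h.sq.aK (e ▸ hx)
  have C := h.sq.tw.card
  have D := h.sq.deg4
  have P2 : ∀ g ∈ K, G.Adj f g → G.Adj f b → b ∈ Yv G a → IsPentagon 3 G ∨ IsSquare i G := by
    intro g hg fg fb bY
    obtain ⟨g', hg', n5, n6, all⟩ := third h.sq.r h.sq.hv hg (yv g fg).symm
    have ag' : G.Adj a g' := h.sq.pq fQ (h.sq.d hg) h.sq.bQ (nb1 g hg).symm fg fb h.sq.aQ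
      (h.sq.d hg') (na1 g hg) h.sq.ab n6 (nb1 g' hg').symm (na1 g' hg')
    have oneK : ∀ x ∈ K, x ∈ Yv G a → x = g := fun x hx xY => by
      rcases all x hx with e | e | e
      exacts [absurd (e ▸ xY) h.sq.sQ.uY, e, absurd (e ▸ ag') (mem_Y.1 xY).2]
    obtain ⟨t, ht, tK⟩ := h.mK
    obtain rfl := oneK t tK (h.cl.1 ht)
    have c1 : (Yv G a ∩ K).card ≤ 1 := card_le_one.2 fun x hx y hy =>
      (oneK x (mem_inter.1 hx).2 (mem_inter.1 hx).1).trans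
        (oneK y (mem_inter.1 hy).2 (mem_inter.1 hy).1).symm
    have tb : G.Adj t b := by
      by_contra e
      have c2 := h.sQ.cnt tK (h.cl.1 ht)
      have := card_le_card (s := nb G (Yv G a \ K) t) (t := {f}) fun x hx => by
        rw [mem_nb, mem_sdiff] at hx
        rcases h.sq.all x with e1 | e1 | e1 | e1
        exacts [mem_singleton.2 (one x e1 hx.1.1), absurd e1 hx.1.2, absurd e1 (mem_Y.1 hx.1.1).1,
          absurd (e1 ▸ hx.2) e]
      rw [card_singleton] at this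
      omega
    have N := h.sq.nd fQ hf' tK hg' fu n2 n3.symm (yv t fg) n5 n6.symm
    have r1 := h.sq.r.2 v h.sq.hv t tK (yv t fg).symm
    have r2 := h.sq.r.2 v h.sq.hv g' hg' n5.symm
    have r3 := h.sq.r.2 t tK g' hg' n6.symm
    have fg' : G.Adj f' g' :=
      h.sq.tw.four (nd_perm N ![2, 0, 3, 6, 4, 7, 5, 1] (by decide)) h.sq.ub.symm h.sq.vb.symm
        fb.symm tb.symm
    exact Or.inr (sq0 C D (nd_perm N ![7, 0, 6, 2, 4, 3, 5, 1] (by decide)) q2.symm q3.symm fg'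
      af'.symm q1 h.sq.ub fb tb.symm h.sq.vb.symm r1.symm r3 ag'.symm r2 h.sq.va h.sq.ua fg)
  obtain ⟨y, hy, y', hy', n⟩ := one_lt_card.1 (show 1 < (nb G (Yv G a \ Q) f).card by
    have := h.cnt fQ fY; omega)
  rw [mem_nb, mem_sdiff] at hy hy'
  by_cases e1 : y = b
  · exact P2 y' ((h.sq.cov y').2 ⟨hy'.1.2, (mem_Y.1 hy'.1.1).1, fun e => n (e1.trans e.symm)⟩) hy'.2
      (e1 ▸ hy.2) (e1 ▸ hy.1.1)
  by_cases e2 : y' = b
  · exact P2 y ((h.sq.cov y).2 ⟨hy.1.2, (mem_Y.1 hy.1.1).1, e1⟩) hy.2 (e2 ▸ hy'.2) (e2 ▸ hy'.1.1)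
  have yK := (h.sq.cov y).2 ⟨hy.1.2, (mem_Y.1 hy.1.1).1, e1⟩
  have yK' := (h.sq.cov y').2 ⟨hy'.1.2, (mem_Y.1 hy'.1.1).1, e2⟩
  have ab : G.Adj a b := h.sq.pq fQ hy.1.2 hy'.1.2 n hy.2 hy'.2 h.sq.aQ h.sq.bQ (na1 y yK)
    (na1 y' yK') (nb1 y yK) (nb1 y' yK') h.sq.ab
  have r1 := h.sq.r.2 v h.sq.hv y yK (yv y hy.2).symm
  have r2 := h.sq.r.2 v h.sq.hv y' yK' (yv y' hy'.2).symm
  have r3 := h.sq.r.2 y yK y' yK' n
  have N := h.sq.nd fQ hf' yK yK' fu n2 n3.symm (yv y hy.2) (yv y' hy'.2) n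
  have full : ∀ g ∈ K, ∀ g' ∈ K, g ≠ g' → G.Adj f g → G.Adj f g' → G.Adj f' g' →
      IsPentagon 3 G ∨ IsSquare i G := fun g hg g' hg' n1 a1 a2 a3 =>
    Or.inr (sq0 C D (h.sq.nd fQ hf' hg hg' fu n2 n3.symm (yv g a1) (yv g' a2) n1) h.sq.ua h.sq.ub q1
      q2 ab h.sq.va.symm h.sq.vb.symm (h.sq.r.2 v h.sq.hv g hg (yv g a1).symm)
      (h.sq.r.2 v h.sq.hv g' hg' (yv g' a2).symm) (h.sq.r.2 g hg g' hg' n1) a1.symm q3 a2.symm
      a3.symm af' (h.sq.pq hf' h.sq.aQ (h.sq.d hg') (na1 g' hg') af'.symm a3 h.sq.bQ (h.sq.d hg)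
        h.sq.ab.symm (nb1 g' hg') (na1 g hg).symm n1 (nb1 g hg)))
  by_cases c1 : G.Adj f' y'
  · exact full y yK y' yK' n hy.2 hy'.2 c1
  by_cases c2 : G.Adj f' y
  · exact full y' yK' y yK n.symm hy'.2 hy.2 c2
  by_cases c3 : G.Adj f' b
  · exact Or.inl (pent8 C D (nd_perm N ![3, 4, 5, 6, 0, 7, 1, 2] (by decide)) r1 r2 h.sq.va h.sq.vb
      r3 hy.2.symm hy'.2.symm q1.symm q3 q2 h.sq.ua ab af'.symm c3 h.sq.ub)
  have bg : ∀ g ∈ K, ∀ g' ∈ K, g ≠ g' → G.Adj f g → G.Adj f g' → ¬ G.Adj f' g' → ¬ G.Adj g b :=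
    fun g hg g' hg' n1 a1 a2 a3 a4 => a3 (h.sq.tw.four (nd_perm (h.sq.nd fQ hf' hg hg' fu n2 n3.symm
      (yv g a1) (yv g' a2) n1) ![2, 0, 3, 1, 4, 7, 5, 6] (by decide)) h.sq.ub.symm h.sq.vb.symm
      ab.symm a4.symm)
  exact Or.inr (sq1 C D (nd_perm N ![3, 4, 5, 6, 7, 0, 1, 2] (by decide)) r1 r2 h.sq.va h.sq.vb
    r3 hy.2.symm hy'.2.symm q3 q1.symm q2.symm af'.symm ab (fun e => c2 e.symm)
    (bg y yK y' yK' n hy.2 hy'.2 c1) (fun e => c1 e.symm) (bg y' yK' y yK n.symm hy'.2 hy.2 c2) c3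
    h.sq.ua h.sq.ub)

/-- The families valid for every index. -/
def Com (i k : ℕ) (G : SimpleGraph V) : Prop :=
  IsMatchedPair k G ∨ IsPentagon k G ∨ (k = 3 ∧ IsSquare i G)

omit [Fintype V] in
theorem Com.of3 (h : IsPentagon 3 G ∨ IsSquare i G) : Com i 3 G :=
  Or.inr (h.imp_right fun e => ⟨rfl, e⟩)

namespace Sq

variable {Q K : Finset V} {u v a b : V}

theorem wit (h : Sq G k Q K u v a b) :
    (Com i k G ∨ IsLadder k G) ∨ St G Q K u a b ∨ St G K Q v a b := by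
  rcases obs (h.tw.nf a) with ⟨f, hf, hd⟩ | ⟨T, h1, h2, h3, h4⟩
  · exact Or.inr (h.star hf hd)
  left
  by_cases e1 : ∀ t ∈ T, t ∉ K
  · exact Or.inl (Or.inl (h.miss h1 h2.1 h3 e1))
  by_cases e2 : ∀ t ∈ T, t ∉ Q
  · exact Or.inl (Or.inl (h.sQ.miss h1 h2.1 h3 e2))
  push Not at e1 e2
  have P : ∀ {Q K u v}, Cc G k Q K u v a b T → (Yv G a ∩ Q).card + 2 = k → Com i k G := by
    intro Q K u v C c
    rcases (C.sq.tw.hk).eq_or_lt with rfl | hk
    exacts [Com.of3 (C.three c), Or.inr (Or.inl (C.pent hk c))]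
  have C : Cc G k Q K u v a b T := ⟨h, h2, h3, h4, e2, e1⟩
  rcases C.size with c | c
  · rcases C.sQ.size with c' | c'
    exacts [Or.inr (C.ladder c c'), Or.inl (P C.sQ c')]
  · exact Or.inl (P C c)

theorem s11 (h : Sq G k Q K u v a b) (ab : G.Adj a b) (h1 : S1 G Q K u a) (h2 : S1 G K Q v b) :
    Com i k G := by
  rcases h.tw.hk.eq_or_lt with rfl | hk
  exacts [Com.of3 (h.s1s1' ab h1 h2), (h.s1s1 hk h1 h2).elim]

theorem kite' (h : Sq G k Q K u v a b) (ab : G.Adj a b) (h1 : S1 G Q K u a) (h2 : S1 G Q K u b) :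
    Com i k G ∨ IsKite k G := by
  rcases h.tw.hk.eq_or_lt with rfl | hk
  swap
  · exact Or.inr (h.kite4 hk h1 h2)
  by_contra hcon
  refine hcon (Or.inr (h.kite h1 h2 fun f hf w hw w' hw' n e e' a1 b1 x hx xw => by_contra
    fun n1 => hcon (Or.inl (Com.of3 ?_))))
  have xu : x ≠ u := fun e1 => h.uK hw (e1 ▸ xw)
  exact h.three_ab ab hf hx hw' hw (Ne.symm n1) n.symm e' e xw a1 (fun e1 => xu (h1.1 x hx e1)) b1
    fun e1 => xu (h2.1 x hx e1)

theorem main (h : Sq G k Q K u v a b) :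
    (Com i k G ∨ IsLadder k G) ∨ IsKite k G ∨ IsCross k G := by
  rcases h.wit (i := i) with e | e
  · exact Or.inl e
  rcases h.sab.wit (i := i) with e' | e'
  · exact Or.inl e'
  rcases e with (⟨c, e⟩ | ⟨c, e⟩) | ⟨c, e⟩ | ⟨c, e⟩ <;>
    rcases e' with (⟨c', e'⟩ | ⟨c', e'⟩) | ⟨c', e'⟩ | ⟨c', e'⟩ <;>
    first | exact absurd c.symm c' | exact absurd c'.symm c | skip
  exacts [(h.kite' c e e').imp Or.inl Or.inl, Or.inl (Or.inl (h.s11 c e e')), (h.s0s0 e e').elim,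
    Or.inr (Or.inr (h.cross c e e')), Or.inl (Or.inl (h.sQ.s11 c e e')),
    (h.sQ.kite' c e e').imp Or.inl Or.inl, Or.inr (Or.inr (h.sQ.cross c e e')),
    (h.sQ.s0s0 e e').elim]

end Sq

theorem Tw.high (h : Tw G k) {v : V} (hv : k + 1 ≤ dg G v) :
    ((Com i k G ∨ IsLadder k G) ∨ IsKite k G ∨ IsCross k G) ∨ IsHubPair k G := by
  have q := h.big hv
  have vQ : v ∉ Yv G v := fun e => (mem_Y.1 e).1 rfl
  have cl : ∀ t ∈ Yv G v, ∀ z ∉ Yv G v, G.Adj t z → G.Adj v z := fun t ht z hz a =>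
    by_contra fun n => hz (mem_Y.2 ⟨fun e => (mem_Y.1 ht).2 (e ▸ a.symm), n⟩)
  by_cases e : ∀ t ∈ Yv G v, ∀ z ∉ Yv G v, ∀ z' ∉ Yv G v, G.Adj t z → G.Adj t z' → z = z'
  · exact Or.inr (Uq.hub ⟨h, q, vQ, fun t ht => (mem_Y.1 ht).2, cl, e⟩).1
  push Not at e
  obtain ⟨u, hu, a, ha, b, hb, ua, ub, n⟩ := e
  obtain ⟨r, m⟩ := h.two q hu ha hb n ua ub
  have va := cl u hu a ha ua
  have vb := cl u hu b hb ub
  exact Or.inl (Sq.main ⟨h, q, r, m, ha, hb, n, hu, (m v).2 ⟨vQ, va.ne, vb.ne⟩, ua, ub, va, vb⟩)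

end Pool.Agent.IsoTwo

/-! The listed families are extremal. -/

namespace Pool.Agent.IsoTwo

open Finset Pool.Agent.IsoKer Pool.Agent.IsoDefs
open scoped Classical

variable {V : Type*} [Fintype V] {G : SimpleGraph V} {k i : ℕ}

omit [Fintype V] in
theorem reg_hasF (hi : i = 1 ∨ i = 3) {T : Finset V} (hne : T.Nonempty)
    (h : ∀ t ∈ T, (nb G T t).card + 1 = k) : HasF i k G T := by
  have e : Fin T.card ≃ T := T.equivFin.symm
  let f : Fin T.card → V := fun a => e a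
  have inj : Function.Injective f := Subtype.val_injective.comp e.injective
  have hreg : IsReg k (G.comap f) := by
    refine ⟨⟨⟨0, card_pos.2 hne⟩⟩, k - 1, le_rfl, fun v => ?_⟩
    rw [← Set.ncard_image_of_injective _ inj]
    have : f '' (G.comap f).neighborSet v = (nb G T (f v) : Finset V) := by
      ext x
      simp only [Set.mem_image, SimpleGraph.mem_neighborSet, SimpleGraph.comap_adj, mem_coe, mem_nb]
      exact ⟨fun ⟨a, h1, h2⟩ => h2 ▸ ⟨(e a).2, h1⟩, fun hx =>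
        ⟨e.symm ⟨x, hx.1⟩, by simpa [f] using hx.2, by simp [f]⟩⟩
    rw [this, Set.ncard_coe_finset]
    have := h (f v) (e v).2
    omega
  refine hasF_iff.2 ⟨_, inferInstance, G.comap f, f, ?_, inj, fun a => (e a).2, fun _ _ => id⟩
  exact hi.elim (fun hh => Or.inl ⟨hh, hreg⟩) fun hh => Or.inr (Or.inr ⟨hh, Or.inr (Or.inl hreg)⟩)

omit [Fintype V] in
theorem hasF3 {U : Finset V} (h : ¬ Free G k U) : HasF 3 k G U := by
  rcases obs h with ⟨c, hc, hd⟩ | ⟨T, h1, h2, h3, h4⟩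
  · obtain ⟨S, hS, cS⟩ := exists_subset_card_eq hd
    have e : Fin k ≃ S := (Finset.equivFinOfCardEq cS).symm
    have ha : ∀ j, (e j : V) ∈ U ∧ G.Adj c (e j) := fun j => mem_nb.1 (hS (e j).2)
    refine hasF_iff.2 ⟨Fin 1 ⊕ Fin k, inferInstance, completeBipartiteGraph (Fin 1) (Fin k),
      Sum.elim (fun _ => c) fun j => (e j : V), Or.inr (Or.inr ⟨rfl, Or.inl ⟨.refl⟩⟩), ?_, ?_, ?_⟩
    · rintro (a | a) (b | b) hab
      exacts [by rw [Subsingleton.elim a b], absurd hab (ha b).2.ne, absurd hab.symm (ha a).2.ne,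
        by rw [e.injective (Subtype.val_injective hab)]]
    · rintro (a | a)
      exacts [hc, (ha a).1]
    · rintro (a | a) (b | b) hab
      exacts [by simp at hab, (ha b).2, (ha a).2.symm, by simp at hab]
  · refine hasF_mono (reg_hasF (Or.inr rfl) h1 fun t ht => ?_) (coe_subset.2 h2.1)
    have := h3 t ht
    have := h4 t (h2.1 ht)
    have := nb_card_mono (G := G) h2.1 t
    omega

theorem iota_two (hk : 3 ≤ k) (hc : Conn G univ) (hn : Fintype.card V = 2 * (k + 1))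
    (h : ∀ v, HasF i k G (Yv G v)) : iota i k G = 2 := by
  refine le_antisymm ?_ (le_iota (by omega) fun D hD => ?_)
  · obtain ⟨D, h1, h2⟩ := bound_of_noClq (G := G) (Or.inr hk) univ fun Q hQ cl => by
      have := hQ.1
      rw [hc Q cl (hQ.sp (by omega)).1, card_univ] at this
      omega
    refine (iota_le_free (by omega) h1).trans ?_
    rw [card_univ, hn] at h2
    by_contra hh
    have := Nat.mul_le_mul_left (k + 1) (show 3 ≤ D.card by omega)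
    omega
  · have : Nonempty V := Fintype.card_pos_iff.1 (by omega)
    obtain ⟨z, hz⟩ := card_le_one_iff_subset_singleton.1 (show D.card ≤ 1 by omega)
    exact hasF_mono (h z) (coe_subset.2 (rem_mono subset_rfl hz))

theorem nf_star {v f : V} {S : Finset V} (hf : f ≠ v ∧ ¬ G.Adj v f) (hc : k ≤ S.card)
    (hS : ∀ s ∈ S, G.Adj f s ∧ s ≠ v ∧ ¬ G.Adj v s) : ¬ Free G k (Yv G v) := fun h => by
  have := h.1 f (mem_Y.2 hf)
  have := card_le_card (s := S) (t := nb G (Yv G v) f) fun s hs =>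
    mem_nb.2 ⟨mem_Y.2 (hS s hs).2, (hS s hs).1⟩
  omega

theorem nf_clq (hk : 3 ≤ k) {v : V} {K : Finset V} (hK : Clq G k K)
    (h : ∀ s ∈ K, s ≠ v ∧ ¬ G.Adj v s) : ¬ Free G k (Yv G v) := fun hf =>
  hK.not_free (by omega) (hf.mono fun s hs => mem_Y.2 (h s hs))

theorem nf_core {v : V} {T : Finset V} (hne : T.Nonempty) (hd : ∀ t ∈ T, k ≤ (nb G T t).card + 1)
    (h : ∀ s ∈ T, s ≠ v ∧ ¬ G.Adj v s) : ¬ Free G k (Yv G v) := fun hf => by
  obtain ⟨t, ht, hlt⟩ := hf.2 T (fun s hs => mem_Y.2 (h s hs)) hne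
  have := hd t ht
  omega

theorem matched_clq (hc : Conn G univ) (h : IsMatchedPair k G) (z : V) :
    ∃ K, Clq G k K ∧ K ⊆ Yv G z := by
  obtain ⟨A, cA, cB, h⟩ := h
  obtain ⟨x0, hx0⟩ : A.Nonempty := Set.nonempty_of_ncard_ne_zero (by omega)
  obtain ⟨p0, hp0⟩ : Aᶜ.Nonempty := Set.nonempty_of_ncard_ne_zero (by omega)
  obtain ⟨x, hx, p, -, hp, a⟩ := hc.exists_edge (subset_univ A.toFinset)
    ⟨x0, Set.mem_toFinset.2 hx0⟩ (mem_univ p0) (fun e => hp0 (Set.mem_toFinset.1 e))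
  rw [Set.mem_toFinset] at hx hp
  obtain ⟨KA, qA, mA⟩ := clq_set cA hx (h x hx p hp a).1
  obtain ⟨KB, qB, mB⟩ := clq_set cB hp (h x hx p hp a).2.1
  by_cases hzA : z ∈ A
  · by_cases e : ∃ r ∉ A, G.Adj z r
    · obtain ⟨r, hr, a'⟩ := e
      obtain ⟨K, q, m⟩ := clq_set cB hr (h z hzA r hr a').2.1
      refine ⟨K, q, fun t ht => ?_⟩
      rw [m] at ht
      exact mem_Y.2 ⟨fun e => ht.2 (e ▸ hzA), fun e => ht.1 ((h z hzA r hr a').2.2.1 t ht.2 e)⟩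
    · refine ⟨_, qB, fun t ht => ?_⟩
      rw [mB] at ht
      exact mem_Y.2 ⟨fun e => ht.2 (e ▸ hzA), fun e' => e ⟨t, ht.2, e'⟩⟩
  · by_cases e : ∃ r ∈ A, G.Adj r z
    · obtain ⟨r, hr, a'⟩ := e
      obtain ⟨K, q, m⟩ := clq_set cA hr (h r hr z hzA a').1
      refine ⟨K, q, fun t ht => ?_⟩
      rw [m] at ht
      exact mem_Y.2 ⟨fun e => hzA (e ▸ ht.2), fun e => ht.1 ((h r hr z hzA a').2.2.2 t ht.2 e.symm)⟩
    · refine ⟨_, qA, fun t ht => ?_⟩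
      rw [mA] at ht
      exact mem_Y.2 ⟨fun e => hzA (e ▸ ht.2), fun e' => e ⟨t, ht.2, e'.symm⟩⟩

theorem pent_clq (h : IsPentagon k G) (z : V) : ∃ K, Clq G k K ∧ K ⊆ Yv G z := by
  obtain ⟨f, h1, h2⟩ := h
  obtain ⟨K, hK, cK⟩ := exists_subset_card_eq (s := {x | f x = f z + 2 ∨ f x = f z + 2 + 1}.toFinset)
    (n := k) (by rw [← Set.ncard_eq_toFinset_card']; exact h2 _)
  have m : ∀ x ∈ K, f x = f z + 2 ∨ f x = f z + 2 + 1 := fun x hx => by simpa using hK hx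
  have d1 : ∀ s t u : ZMod 5, s = u + 2 ∨ s = u + 2 + 1 → t = u + 2 ∨ t = u + 2 + 1 →
      s = t ∨ s = t + 1 ∨ t = s + 1 := by decide
  have d2 : ∀ s u : ZMod 5, s = u + 2 ∨ s = u + 2 + 1 → ¬ (u = s ∨ u = s + 1 ∨ s = u + 1) := by
    decide
  exact ⟨K, ⟨cK, fun a ha b hb n => (h1 a b).2 ⟨n, d1 _ _ _ (m a ha) (m b hb)⟩⟩, fun x hx =>
    mem_Y.2 ⟨fun e => d2 _ _ (m x hx) (Or.inl (e ▸ rfl)), fun e => d2 _ _ (m x hx) ((h1 z x).1 e).2⟩⟩

theorem square_hasF (hi : i = 1 ∨ i = 2 ∨ i = 3) (h : IsSquare i G) (z : V) :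
    HasF i 3 G (Yv G z) := by
  obtain ⟨e, D, hD, t⟩ := h
  obtain ⟨a, rfl⟩ := e.surjective z
  have out : ∀ S : Finset (ZMod 8), (∀ s ∈ S, s ≠ a ∧ ¬ sqR D a s) → S.image e ⊆ Yv G (e a) := by
    intro S hS x hx
    obtain ⟨s, hs, rfl⟩ := mem_image.1 hx
    exact mem_Y.2 ⟨e.injective.ne (hS s hs).1, fun e1 => (hS s hs).2 ((t _ _).1 e1)⟩
  have dg : ∀ S : Finset (ZMod 8), (∀ s ∈ S, (S.filter (sqR D s)).card + 1 = 3) →
      ∀ x ∈ S.image e, (nb G (S.image e) x).card + 1 = 3 := by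
    intro S hS x hx
    obtain ⟨s, hs, rfl⟩ := mem_image.1 hx
    rw [← hS s hs, ← card_image_of_injective (S.filter _) e.injective]
    congr 2
    ext y
    obtain ⟨b, rfl⟩ := e.surjective y
    simp [t, sqR]
  have key : ∀ b : Bool, (b = true → i ≠ 2) → ∀ S : ZMod 8 → Finset (ZMod 8),
      (∀ a, ((S a).card = 3 ∨ (b = true ∧ 0 < (S a).card)) ∧
        ∀ s ∈ S a, (s ≠ a ∧ ¬ sqR D a s) ∧ ((S a).filter (sqR D s)).card + 1 = 3) →
      HasF i 3 G (Yv G (e a)) := by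
    intro b hb S h
    obtain ⟨h1, h2⟩ := h a
    refine hasF_mono ?_ (coe_subset.2 (out (S a) fun s hs => (h2 s hs).1))
    have h3 := dg (S a) fun s hs => (h2 s hs).2
    rcases h1 with h1 | h1
    · exact (clq_of_core (k := 3) (image_nonempty.2 (card_pos.1 (by omega)))
        (fun x hx => (h3 x hx).ge) (card_image_le.trans h1.le)).hasF hi (by omega)
    · exact reg_hasF (by have := hb h1.1; omega) (image_nonempty.2 (card_pos.1 h1.2)) h3
  rcases hD with rfl | rfl | rfl | ⟨h2, rfl⟩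
  · exact key false (by simp) (fun a => {a + 3, a + 4, a + 5}) (by decide)
  · exact key false (by simp) ![{3, 4, 5}, {4, 5, 6}, {4, 5, 6}, {0, 6, 7}, {0, 1, 2}, {0, 1, 2},
      {1, 2, 3}, {1, 2, 3}] (by decide)
  · exact key false (by simp) ![{3, 4, 5}, {4, 5, 6}, {4, 5, 6}, {0, 6, 7}, {0, 1, 2}, {0, 1, 2},
      {1, 2, 3}, {1, 2, 3}] (by decide)
  · exact key true (fun _ => h2) ![{3, 4, 5}, {4, 5, 6, 7}, {4, 5, 6, 7}, {0, 6, 7}, {0, 1, 2},
      {0, 1, 2}, {1, 2, 3}, {1, 2, 3}] (by decide)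

theorem twisted_nf (h : IsTwisted k G) (v : V) : ¬ Free G k (Yv G v) := by
  obtain ⟨H, le, h⟩ := h
  obtain ⟨u, hu⟩ := (h v).2.1
  obtain ⟨c1, -, c2⟩ := h u
  have out : ∀ x ∈ closedNbhd H {u}, x ≠ v ∧ ¬ G.Adj v x := fun x hx => by
    rw [hu] at hx
    exact ⟨fun e => hx ⟨v, mem_singleton_self _, Or.inl e⟩,
      fun e => hx ⟨v, mem_singleton_self _, Or.inr (le e)⟩⟩
  set X := closedNbhd H {u}
  rw [Set.ncard_eq_toFinset_card'] at c1
  rcases c2 with ⟨c, hc, h1⟩ | ⟨σ, h1, h2⟩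
  · refine nf_star (S := X.toFinset.erase c) (out c hc) ?_ fun s hs => ?_
    · have := card_erase_add_one (Set.mem_toFinset.2 hc)
      omega
    · rw [mem_erase, Set.mem_toFinset] at hs
      exact ⟨h1 s hs.2 hs.1, out s hs.2⟩
  · refine nf_core (T := X.toFinset) (card_pos.1 (by omega)) (fun t ht => ?_)
      fun s hs => out s (Set.mem_toFinset.1 hs)
    have ht' := Set.mem_toFinset.1 ht
    have := card_le_card (s := (X.toFinset.erase t).erase (σ ⟨t, ht'⟩)) (t := nb G X.toFinset t)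
      fun y hy => by
        rw [mem_erase, mem_erase] at hy
        exact mem_nb.2 ⟨hy.2.2, h2 ⟨t, ht'⟩ ⟨y, Set.mem_toFinset.1 hy.2.2⟩
          (fun e => hy.2.1 (congrArg Subtype.val e).symm) fun e => hy.1 (congrArg Subtype.val e)⟩
    have := pred_card_le_card_erase (s := X.toFinset.erase t) (a := σ ⟨t, ht'⟩)
    have := card_erase_add_one ht
    omega

theorem layered_nf (hk : 3 ≤ k) (hn : Fintype.card V = 2 * (k + 1)) (h : IsLayered k G) (v : V) :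
    ¬ Free G k (Yv G v) := by
  obtain ⟨T, U, w, σ, s, dj, cT, hU, hT⟩ := h
  have uT : ∀ u ∈ U, u ∉ T := fun u hu e => Set.disjoint_left.1 dj e hu
  rw [Set.ncard_eq_toFinset_card'] at cT
  have fib : ∀ u ∈ U, (T.toFinset.filter fun t => w t = u).card = s := fun u hu => by
    rw [← (hU u hu).2.2.2.1, ← Set.ncard_coe_finset]
    congr 1
    ext x
    simp
  have inner : ∀ t ∈ T, k ≤ (nb G T.toFinset t).card + 1 := fun t ht => by
    have h1 := fib _ (hU _ (hT t ht).1).1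
    have h2 := card_le_card (s := (T.toFinset \ T.toFinset.filter fun x => w x = σ (w t)).erase t)
      (t := nb G T.toFinset t) fun x hx => by
        simp only [mem_erase, mem_sdiff, mem_filter, Set.mem_toFinset, not_and] at hx
        exact mem_nb.2 ⟨Set.mem_toFinset.2 hx.2.1, ((hT t ht).2 x).2
          (Or.inr ⟨hx.2.1, hx.1, hx.2.2 hx.2.1⟩)⟩
    have := pred_card_le_card_erase
      (s := T.toFinset \ T.toFinset.filter fun x => w x = σ (w t)) (a := t)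
    have := card_sdiff_add_card_eq_card (filter_subset (fun x => w x = σ (w t)) T.toFinset)
    omega
  have hne : T.toFinset.Nonempty := card_pos.1 (by omega)
  by_cases vT : v ∈ T
  · obtain ⟨h0, h1⟩ := hT v vT
    obtain ⟨s1, s2, s3, -, -⟩ := hU _ h0
    have nv : ∀ x ∉ T, x ≠ w v → x ≠ v ∧ ¬ G.Adj v x := fun x hx n =>
      ⟨fun e => hx (e ▸ vT), fun e => ((h1 x).1 e).elim n fun e1 => hx e1.1⟩
    refine nf_star (f := σ (w v)) (S := (T.toFinset.filter fun x => w x = σ (w v)) ∪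
      ((univ \ T.toFinset).erase (w v)).erase (σ (w v))) (nv _ (uT _ s1) s2) ?_ fun x hx => ?_
    · rw [card_union_of_disjoint (disjoint_left.2 fun x hx hx' =>
        (mem_sdiff.1 (mem_of_mem_erase (mem_of_mem_erase hx'))).2 (mem_filter.1 hx).1), fib _ s1]
      have := pred_card_le_card_erase (s := (univ \ T.toFinset).erase (w v)) (a := σ (w v))
      have := pred_card_le_card_erase (s := univ \ T.toFinset) (a := w v)
      have := card_sdiff_add_card_eq_card (subset_univ T.toFinset)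
      have := card_pos.2 (⟨σ (w v), mem_erase.2 ⟨s2, mem_sdiff.2 ⟨mem_univ _,
        fun e => uT _ s1 (Set.mem_toFinset.1 e)⟩⟩⟩ : ((univ \ T.toFinset).erase (w v)).Nonempty)
      have := card_erase_add_one (s := univ \ T.toFinset) (a := w v)
        (mem_sdiff.2 ⟨mem_univ _, fun e => uT _ h0 (Set.mem_toFinset.1 e)⟩)
      rw [card_univ] at *
      omega
    · simp only [mem_union, mem_filter, mem_erase, mem_sdiff, Set.mem_toFinset, mem_univ,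
        true_and] at hx
      rcases hx with hx | hx
      · refine ⟨(((hT x hx.1).2 _).2 (Or.inl hx.2.symm)).symm, fun e => s2 (e ▸ hx.2.symm),
          fun e => ((h1 x).1 e).elim (fun e1 => uT _ h0 (e1 ▸ hx.1)) fun e1 => e1.2.2 hx.2⟩
      · exact ⟨((hU _ s1).2.2.2.2 x hx.2.2).2 ⟨hx.1, s3.symm ▸ hx.2.1⟩, nv x hx.2.2 hx.2.1⟩
  by_cases vU : v ∈ U
  · obtain ⟨s1, s2, s3, -, s4⟩ := hU v vU
    obtain ⟨t0, ht0⟩ := hne
    have s0 : 0 < s := fib _ (hT t0 (Set.mem_toFinset.1 ht0)).1 ▸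
      card_pos.2 ⟨t0, mem_filter.2 ⟨ht0, rfl⟩⟩
    obtain ⟨t, ht⟩ : (T.toFinset.filter fun t => w t = σ v).Nonempty :=
      card_pos.1 (by rw [fib _ s1]; exact s0)
    rw [mem_filter, Set.mem_toFinset] at ht
    have nv : ∀ x ∈ T, w x ≠ v → x ≠ v ∧ ¬ G.Adj v x := fun x hx n =>
      ⟨fun e => vT (e ▸ hx), fun e => (((hT x hx).2 v).1 e.symm).elim n.symm fun e1 => vT e1.1⟩
    refine nf_star (f := t) (S := insert (σ v) (nb G T.toFinset t)) (nv t ht.1 (ht.2 ▸ s2)) ?_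
      fun x hx => ?_
    · rw [card_insert_of_notMem fun e => uT _ s1 (Set.mem_toFinset.1 (mem_nb.1 e).1)]
      exact inner t ht.1
    · rcases mem_insert.1 hx with e | e
      · exact ⟨((hT t ht.1).2 x).2 (Or.inl (e.trans ht.2.symm)), e ▸ s2,
          fun e1 => ((s4 x (e ▸ uT _ s1)).1 e1).2 e⟩
      · rw [mem_nb, Set.mem_toFinset] at e
        refine ⟨e.2, nv x e.1 fun e1 => ?_⟩
        rcases ((hT t ht.1).2 x).1 e.2 with e2 | e2
        · exact uT _ (hT t ht.1).1 (e2 ▸ e.1)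
        · exact e2.2.2 (by rw [e1, ht.2, s3])
  · refine nf_core hne (fun t ht => inner t (Set.mem_toFinset.1 ht)) fun t ht => ?_
    rw [Set.mem_toFinset] at ht
    exact ⟨fun e => vT (e ▸ ht), fun e => (((hT t ht).2 v).1 e.symm).elim
      (fun e1 => vU (e1 ▸ (hT t ht).1)) fun e1 => vT e1.1⟩

end Pool.Agent.IsoTwo

/-! The sporadic families are extremal. -/

namespace Pool.Agent.IsoTwo

open Finset Pool.Agent.IsoKer Pool.Agent.IsoDefs
open scoped Classical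

variable {V : Type*} [Fintype V] {G : SimpleGraph V} {k i : ℕ}

omit [Fintype V] in
theorem clq_minus {B : Finset V} {p p' : V} (cB : B.card = k + 1) (hp : p ∈ B)
    (h : ∀ y ∈ B, ∀ z ∈ B, G.Adj y z ↔ y ≠ z ∧ s(y, z) ≠ s(p, p')) : Clq G k (B.erase p) := by
  refine ⟨by have := card_erase_add_one hp; omega, fun y hy z hz n => ?_⟩
  rw [mem_erase] at hy hz
  refine (h y hy.2 z hz.2).2 ⟨n, fun e => ?_⟩
  rw [Sym2.eq_iff] at e
  exact e.elim (fun e => hy.1 e.1) fun e => hz.1 e.2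

theorem compl_card (hn : Fintype.card V = 2 * (k + 1)) (X : Finset V) :
    (univ \ X).card + X.card = 2 * (k + 1) := by
  rw [card_sdiff_add_card_eq_card (subset_univ X), card_univ, hn]

theorem mem_c {X : Finset V} {x : V} : x ∈ univ \ X ↔ x ∉ X := by simp

/-- The data of a hub pair. -/
structure Hub (G : SimpleGraph V) (k : ℕ) (A : Finset V) (x x' p p' : V) : Prop where
  c : A.card = k + 1
  hx : x ∈ A
  hx' : x' ∈ A
  n : x ≠ x'
  hp : p ∉ A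
  hp' : p' ∉ A
  n' : p ≠ p'
  dom : ∀ y ∈ A, (y ≠ x → G.Adj x y) ∧ (y ≠ x' → G.Adj x' y)
  out : ∀ y ∉ A, ∀ z ∉ A, G.Adj y z ↔ y ≠ z ∧ s(y, z) ≠ s(p, p')
  btw : ∀ y ∈ A, ∀ z ∉ A, G.Adj y z ↔ (y = x ∧ z = p) ∨ (y = x' ∧ z = p')

namespace Hub

variable {A : Finset V} {x x' p p' : V}

omit [Fintype V] in
theorem symm (h : Hub G k A x x' p p') : Hub G k A x' x p' p :=
  ⟨h.c, h.hx', h.hx, h.n.symm, h.hp', h.hp, h.n'.symm, fun y hy => (h.dom y hy).symm,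
    fun y hy z hz => by rw [h.out y hy z hz, Sym2.eq_swap (a := p)],
    fun y hy z hz => by rw [h.btw y hy z hz, or_comm]⟩

theorem clq (h : Hub G k A x x' p p') (hn : Fintype.card V = 2 * (k + 1)) :
    Clq G k ((univ \ A).erase p) :=
  clq_minus (p' := p') (by have := compl_card hn A; have := h.c; omega) (mem_c.2 h.hp)
    fun y hy z hz => h.out y (mem_c.1 hy) z (mem_c.1 hz)

theorem nfA (h : Hub G k A x x' p p') (hk : 3 ≤ k) (hn : Fintype.card V = 2 * (k + 1)) {v : V}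
    (hv : v ∈ A) (n : v ≠ x') : ¬ Free G k (Yv G v) :=
  nf_clq hk (h.clq hn) fun s hs => by
    rw [mem_erase, mem_c] at hs
    exact ⟨fun e => hs.2 (e ▸ hv), fun e => ((h.btw v hv s hs.2).1 e).elim (fun e => hs.1 e.2)
      fun e => n e.1⟩

theorem nfp (h : Hub G k A x x' p p') : ¬ Free G k (Yv G p) := by
  have np : ∀ y ∈ A, y ≠ x → y ≠ p ∧ ¬ G.Adj p y := fun y hy n => ⟨fun e => h.hp (e ▸ hy),
    fun e => ((h.btw y hy p h.hp).1 e.symm).elim (fun e => n e.1) fun e => h.n' e.2⟩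
  refine nf_star (f := x') (S := insert p' ((A.erase x).erase x')) (np x' h.hx' h.n.symm) ?_
    fun s hs => ?_
  · rw [card_insert_of_notMem fun e => h.hp' (mem_of_mem_erase (mem_of_mem_erase e))]
    have := card_erase_add_one h.hx
    have := card_erase_add_one (mem_erase.2 ⟨h.n.symm, h.hx'⟩)
    have := h.c
    omega
  · rcases mem_insert.1 hs with rfl | e
    · exact ⟨(h.btw x' h.hx' s h.hp').2 (Or.inr ⟨rfl, rfl⟩), h.n'.symm,
        fun e => ((h.out p h.hp s h.hp').1 e).2 rfl⟩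
    · rw [mem_erase, mem_erase] at e
      exact ⟨(h.dom s e.2.2).2 e.1, np s e.2.2 e.2.1⟩

theorem nf (h : Hub G k A x x' p p') (hk : 3 ≤ k) (hn : Fintype.card V = 2 * (k + 1)) (v : V) :
    ¬ Free G k (Yv G v) := by
  by_cases hv : v ∈ A
  · by_cases e : v = x'
    exacts [h.symm.nfA hk hn hv (e ▸ h.n.symm), h.nfA hk hn hv e]
  by_cases e : v = p
  · exact e ▸ h.nfp
  by_cases e' : v = p'
  · exact e' ▸ h.symm.nfp
  have nv : ∀ y ∈ A, y ≠ v ∧ ¬ G.Adj v y := fun y hy => ⟨fun e => hv (e ▸ hy),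
    fun a => ((h.btw y hy v hv).1 a.symm).elim (fun e1 => e e1.2) fun e1 => e' e1.2⟩
  refine nf_star (f := x) (S := A.erase x) (nv x h.hx) ?_ fun s hs =>
    ⟨(h.dom s (mem_of_mem_erase hs)).1 (mem_erase.1 hs).1, nv s (mem_of_mem_erase hs)⟩
  have := card_erase_add_one h.hx
  have := h.c
  omega

omit [Fintype V] in
theorem clqA (h : Hub G k A x x' p p') (hk : 3 ≤ k) (cr : ∀ v, ∃ T, Cr G k v T) :
    Clq G k (A.erase x) := by
  obtain ⟨T, hT⟩ := cr p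
  have sub : ∀ y ∈ T, y ∉ A → y = p' := fun y hy n => by_contra fun e =>
    (hT.out y hy).2 ((h.out p h.hp y n).2 ⟨(hT.out y hy).1.symm, fun e1 => by
      rw [Sym2.eq_iff] at e1
      exact e1.elim (fun e1 => e e1.2) fun e1 => h.n' e1.1⟩)
  have pT : p' ∉ T := cr_out hk hT (z := x') fun y hy a => by
    by_cases e : y ∈ A
    · exact ((h.btw y e p' h.hp').1 a.symm).elim (fun e1 => absurd e1.2.symm h.n') fun e1 => e1.1
    · exact absurd (sub y hy e) a.ne.symm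
  refine (cr_eq hT (fun y hy => mem_erase.2 ⟨fun e => (hT.out y hy).2 ?_,
    by_contra fun e => pT (sub y hy e ▸ hy)⟩) ?_).2
  · exact e ▸ ((h.btw x h.hx p h.hp).2 (Or.inl ⟨rfl, rfl⟩)).symm
  · have := card_erase_add_one h.hx
    have := h.c
    omega

theorem matched (h : Hub G k A x x' p p') (hk : 3 ≤ k) (hn : Fintype.card V = 2 * (k + 1))
    (cr : ∀ v, ∃ T, Cr G k v T) : IsMatchedPair k G := by
  have e : (A : Set V)ᶜ = (univ \ A : Finset V) := by simp [Set.compl_eq_univ_sdiff]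
  have key : ∀ {x x' p p'}, Hub G k A x x' p p' → G.IsClique ((A : Set V) \ {x}) ∧
      G.IsClique ((A : Set V)ᶜ \ {p}) ∧ (∀ q ∉ (A : Set V), G.Adj x q → q = p) ∧
      ∀ y ∈ (A : Set V), G.Adj y p → y = x := fun {x x' p p'} h => by
    refine ⟨?_, ?_, fun q hq a => ((h.btw x h.hx q hq).1 a).elim (fun e => e.2)
      fun e => absurd e.1 h.n, fun y hy a => ((h.btw y hy p h.hp).1 a).elim (fun e => e.1)
      fun e => absurd e.2 h.n'⟩
    · rw [← coe_erase]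
      exact (clq_iff.1 (h.clqA hk cr)).1
    · rw [e, ← coe_erase]
      exact (clq_iff.1 (h.clq hn)).1
  refine ⟨A, by rw [Set.ncard_coe_finset, h.c], ?_, fun y hy q hq a => ?_⟩
  · rw [e, Set.ncard_coe_finset]
    have := compl_card hn A
    have := h.c
    omega
  · rcases (h.btw y hy q hq).1 a with ⟨rfl, rfl⟩ | ⟨rfl, rfl⟩
    exacts [key h, key h.symm]

end Hub

omit [Fintype V] in
theorem hub_of (h : IsHubPair k G) : ∃ A x x' p p', Hub G k A x x' p p' :=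
  let ⟨A, x, x', p, p', h1, h2, h3, h4, h5, h6, h7, h8, h9, h10⟩ := h
  ⟨A, x, x', p, p', h1, h2, h3, h4, h5, h6, h7, h8, h9, h10⟩

/-- The data of a kite. -/
structure Kt (G : SimpleGraph V) (k : ℕ) (Q S T : Finset V) (a b : V) : Prop where
  q : Clq G k Q
  s : Clq G k S
  t : Clq G k T
  ha : a ∈ Q
  hb : b ∈ Q
  n : a ≠ b
  m : ∀ x, x ∈ Q ↔ x ∉ S ∧ x ∉ T
  st : ∀ x ∉ T, ∀ y ∉ S, x ∈ S → y ∈ T → ¬ G.Adj x y
  e : ∀ x ∈ Q, ∀ y ∉ Q, G.Adj x y ↔ (x = a ∧ y ∉ T) ∨ (x = b ∧ y ∉ S)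

namespace Kt

variable {Q S T : Finset V} {a b : V}

omit [Fintype V] in
theorem symm (h : Kt G k Q S T a b) : Kt G k Q T S b a :=
  ⟨h.q, h.t, h.s, h.hb, h.ha, h.n.symm, fun x => (h.m x).trans and_comm,
    fun x hx y hy hx' hy' a => h.st y hy x hx hy' hx' a.symm,
    fun x hx y hy => (h.e x hx y hy).trans or_comm⟩

omit [Fintype V] in
theorem sq (h : Kt G k Q S T a b) {x : V} (hx : x ∈ S) : x ∉ Q := fun e => ((h.m x).1 e).1 hx

theorem nfQ (h : Kt G k Q S T a b) (hk : 3 ≤ k) {v : V} (hv : v ∈ Q) (n : v ≠ a) :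
    ¬ Free G k (Yv G v) :=
  nf_clq hk h.s fun s hs => ⟨fun e => h.sq hs (e ▸ hv), fun e =>
    ((h.e v hv s (h.sq hs)).1 e).elim (fun e => n e.1) fun e => e.2 hs⟩

omit [Fintype V] in
theorem nv (h : Kt G k Q S T a b) {v x : V} (hv : v ∈ S) (hv' : v ∉ T) (hx : x ∉ S) (n : x ≠ a) :
    x ≠ v ∧ ¬ G.Adj v x := by
  refine ⟨fun e => hx (e ▸ hv), fun e => ?_⟩
  by_cases e1 : x ∈ T
  · exact h.st v hv' x hx hv e1 e
  · exact ((h.e x ((h.m x).2 ⟨hx, e1⟩) v (h.sq hv)).1 e.symm).elim (fun e => n e.1)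
      fun e => e.2 hv

theorem nfS (h : Kt G k Q S T a b) (hn : Fintype.card V = 2 * (k + 1)) {v : V} (hv : v ∈ S)
    (hv' : v ∉ T) : ¬ Free G k (Yv G v) := by
  have bS : b ∉ S := ((h.m b).1 h.hb).1
  refine nf_star (f := b) (S := ((univ \ S).erase a).erase b) (h.nv hv hv' bS h.n.symm) ?_
    fun s hs => ?_
  · have := compl_card hn S
    have := pred_card_le_card_erase (s := univ \ S) (a := a)
    have := pred_card_le_card_erase (s := (univ \ S).erase a) (a := b)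
    have := h.s.1
    omega
  · rw [mem_erase, mem_erase, mem_c] at hs
    refine ⟨?_, h.nv hv hv' hs.2.2 hs.2.1⟩
    by_cases e : s ∈ Q
    exacts [h.q.2 b h.hb s e hs.1.symm, (h.e b h.hb s e).2 (Or.inr ⟨rfl, hs.2.2⟩)]

theorem nf (h : Kt G k Q S T a b) (hk : 3 ≤ k) (hn : Fintype.card V = 2 * (k + 1)) (v : V) :
    ¬ Free G k (Yv G v) := by
  by_cases hv : v ∈ Q
  · by_cases e : v = a
    exacts [h.symm.nfQ hk hv (e ▸ h.n), h.nfQ hk hv e]
  by_cases e : v ∈ S <;> by_cases e' : v ∈ T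
  · exact nf_clq hk h.q fun s hs => ⟨fun e => hv (e ▸ hs), fun a =>
      ((h.e s hs v hv).1 a.symm).elim (fun e1 => e1.2 e') fun e1 => e1.2 e⟩
  exacts [h.nfS hn e e', h.symm.nfS hn e' e, absurd ((h.m v).2 ⟨e, e'⟩) hv]

theorem diff (h : Kt G k Q S T a b) (hn : Fintype.card V = 2 * (k + 1)) : (S \ T).card = 2 := by
  have h1 := compl_card hn T
  have : univ \ T = Q ∪ (S \ T) := by
    ext x
    rw [mem_c, mem_union, mem_sdiff, h.m]
    tauto
  rw [this, card_union_of_disjoint (disjoint_left.2 fun x hx hx' => h.sq (mem_sdiff.1 hx').1 hx),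
    h.q.1, h.t.1] at h1
  omega

theorem three (h : Kt G k Q S T a b) (hk : 3 ≤ k) (hn : Fintype.card V = 2 * (k + 1))
    (cr : ∀ v, ∃ T, Cr G k v T) : k = 3 := by
  obtain ⟨s, s', -, e⟩ := card_eq_two.1 (h.diff hn)
  have hs : s ∈ S \ T := e ▸ mem_insert_self _ _
  rw [mem_sdiff] at hs
  obtain ⟨Z, hZ⟩ := cr s
  by_contra n
  have zS : ∀ x ∈ Z, x ∉ S := fun x hx e => (hZ.out x hx).2 (h.s.2 s hs.1 x e (hZ.out x hx).1.symm)
  have aZ : a ∉ Z := fun e =>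
    (hZ.out a e).2 ((h.e a h.ha s (h.sq hs.1)).2 (Or.inl ⟨rfl, hs.2⟩)).symm
  have zT : ∀ x ∈ Z, x ∉ T := fun x hx e => by
    have h1 := card_le_card (s := nb G Z x) (t := insert b ((T \ S).erase x)) fun y hy => by
      rw [mem_nb] at hy
      by_cases e1 : y ∈ T
      · exact mem_insert_of_mem (mem_erase.2 ⟨hy.2.ne.symm, mem_sdiff.2 ⟨e1, zS y hy.1⟩⟩)
      · exact mem_insert.2 (Or.inl (((h.e y ((h.m y).2 ⟨zS y hy.1, e1⟩) x (h.symm.sq e)).1
          hy.2.symm).elim (fun e2 => absurd e e2.2) fun e2 => e2.1))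
    have := card_insert_le b ((T \ S).erase x)
    have := card_erase_add_one (mem_sdiff.2 ⟨e, zS x hx⟩)
    have := h.symm.diff hn
    have := hZ.deg x hx
    omega
  have := card_add_one_le (T := Z) (A := Q) (fun x hx => (h.m x).2 ⟨zS x hx, zT x hx⟩) h.ha aZ
  have := core_card hZ.ne hZ.deg
  have := h.q.1
  omega

theorem square (h : Kt G 3 Q S T a b) (hn : Fintype.card V = 2 * (3 + 1))
    (hd : ∀ v, dg G v ≤ 4) : IsSquare i G := by
  obtain ⟨s, s', n1, e1⟩ := card_eq_two.1 (h.diff hn)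
  obtain ⟨t, t', n2, e2⟩ := card_eq_two.1 (h.symm.diff hn)
  have hs : s ∈ S \ T := e1 ▸ mem_insert_self _ _
  have hs' : s' ∈ S \ T := e1 ▸ mem_insert_of_mem (mem_singleton_self _)
  have ht : t ∈ T \ S := e2 ▸ mem_insert_self _ _
  have ht' : t' ∈ T \ S := e2 ▸ mem_insert_of_mem (mem_singleton_self _)
  rw [mem_sdiff] at hs hs' ht ht'
  obtain ⟨z, hz, z1, z2, -⟩ := third h.s hs.1 hs'.1 n1
  have zT : z ∈ T := by_contra fun e => by
    have : z ∈ ({s, s'} : Finset V) := e1 ▸ mem_sdiff.2 ⟨hz, e⟩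
    simp [z1, z2] at this
  obtain ⟨c, hc, c1, c2, -⟩ := third h.q h.ha h.hb h.n
  have qs : ∀ x ∈ Q, ∀ y ∈ S, x ≠ y := fun x hx y hy e => h.sq hy (e ▸ hx)
  have qt : ∀ x ∈ Q, ∀ y ∈ T, x ≠ y := fun x hx y hy e => h.symm.sq hy (e ▸ hx)
  have st : ∀ x ∈ S, ∀ y ∉ S, x ≠ y := fun x hx y hy e => hy (e ▸ hx)
  have as : ∀ y ∈ S, y ∉ T → G.Adj a y := fun y hy hy' =>
    (h.e a h.ha y (h.sq hy)).2 (Or.inl ⟨rfl, hy'⟩)
  have bt : ∀ y ∈ T, y ∉ S → G.Adj y b := fun y hy hy' =>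
    ((h.e b h.hb y (h.symm.sq hy)).2 (Or.inr ⟨rfl, hy'⟩)).symm
  have nc : ∀ y ∉ Q, ¬ G.Adj y c := fun y hy e =>
    ((h.e c hc y hy).1 e.symm).elim (fun e => c1 e.1) fun e => c2 e.1
  have := h.ha
  have := h.hb
  refine sq2 (x0 := a) (x1 := s) (x2 := s') (x3 := z) (x4 := t) (x5 := t') (x6 := b) (x7 := c) hn hd
    ?_ (as s hs.1 hs.2) (as s' hs'.1 hs'.2) (h.q.2 a h.ha b h.hb h.n) (h.q.2 a h.ha c hc c1.symm)
    (h.s.2 s hs.1 s' hs'.1 n1) (h.s.2 s hs.1 z hz z1.symm) (h.s.2 s' hs'.1 z hz z2.symm)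
    (h.t.2 z zT t ht.1 (st z hz t ht.2)) (h.t.2 z zT t' ht'.1 (st z hz t' ht'.2))
    (h.t.2 t ht.1 t' ht'.1 n2) (bt t ht.1 ht.2) (h.q.2 b h.hb c hc c2.symm)
    (h.st s hs.2 t ht.2 hs.1 ht.1) (nc s (h.sq hs.1)) (h.st s' hs'.2 t ht.2 hs'.1 ht.1)
    (nc s' (h.sq hs'.1)) (nc t (h.symm.sq ht.1)) (bt t' ht'.1 ht'.2) (nc t' (h.symm.sq ht'.1))
    (h.st s hs.2 t' ht'.2 hs.1 ht'.1) (h.st s' hs'.2 t' ht'.2 hs'.1 ht'.1)
  simp [qs a h.ha s hs.1, qs a h.ha s' hs'.1, qs a h.ha z hz, qt a h.ha t ht.1, qt a h.ha t' ht'.1,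
    h.n, c1.symm, c2.symm, n1, n2, z1.symm, z2.symm, st s hs.1 t ht.2, st s hs.1 t' ht'.2,
    st s' hs'.1 t ht.2, st s' hs'.1 t' ht'.2, st z hz t ht.2, st z hz t' ht'.2,
    (qs b h.hb s hs.1).symm, (qs b h.hb s' hs'.1).symm, (qs b h.hb z hz).symm,
    (qt b h.hb t ht.1).symm, (qt b h.hb t' ht'.1).symm, (qs c hc s hs.1).symm,
    (qs c hc s' hs'.1).symm, (qs c hc z hz).symm, (qt c hc t ht.1).symm, (qt c hc t' ht'.1).symm]

end Kt

omit [Fintype V] in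
theorem kt_of (h : IsKite k G) : ∃ Q S T a b, Kt G k Q S T a b :=
  let ⟨Q, S, T, a, b, h1, h2, h3, h4, h5, h6, h7, h8, h9⟩ := h
  ⟨Q, S, T, a, b, clq_iff.2 h1, clq_iff.2 h2, clq_iff.2 h3, h4, h5, h6, h7, h8, h9⟩

end Pool.Agent.IsoTwo

/-! Ladders and crosses. -/

namespace Pool.Agent.IsoTwo

open Finset Pool.Agent.IsoKer Pool.Agent.IsoDefs
open scoped Classical

variable {V : Type*} [Fintype V] {G : SimpleGraph V} {k i : ℕ}

/-- The data of a ladder. -/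
structure Ld (G : SimpleGraph V) (k : ℕ) (Q R : Finset V) (a b : V) : Prop where
  q : Clq G k Q
  r : Clq G k R
  d : ∀ x ∈ Q, x ∉ R
  ha : a ∈ Q
  hb : b ∈ R
  mq : ∀ x ∈ Q, x ≠ a → ∃ y ∈ R, y ≠ b ∧ ∀ z ∈ R, G.Adj x z ↔ z = y
  mr : ∀ x ∈ R, x ≠ b → ∃ y ∈ Q, y ≠ a ∧ ∀ z ∈ Q, G.Adj x z ↔ z = y
  na : ∀ y ∈ R, ¬ G.Adj a y
  nb : ∀ y ∈ Q, ¬ G.Adj b y
  o : ∀ z ∉ Q, z ∉ R → ∀ x, x ∈ Q ∨ x ∈ R → (G.Adj z x ↔ x = a ∨ x = b)

omit [Fintype V] in
theorem ld_of (h : IsLadder k G) : ∃ Q R a b, Ld G k Q R a b := by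
  obtain ⟨Q, R, a, b, m, h1, h2, h3, h4, h5, h6, h7, h8⟩ := h
  have mm : ∀ x ∈ Q, x ≠ a → m x ∈ R ∧ m x ≠ b := fun x hx n => h6.mapsTo ⟨hx, n⟩
  refine ⟨Q, R, a, b, clq_iff.2 h1, clq_iff.2 h2, disjoint_left.1 h3, h4, h5,
    fun x hx n => ⟨m x, (mm x hx n).1, (mm x hx n).2, fun z hz => (h7 x hx z hz).trans
      (and_iff_right n)⟩, fun y hy n => ?_, fun y hy e => ((h7 a h4 y hy).1 e).1 rfl,
    fun x hx e => ?_, h8⟩
  · obtain ⟨x, hx, rfl⟩ := h6.surjOn (show y ∈ (R : Set V) \ {b} from ⟨hy, n⟩)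
    refine ⟨x, hx.1, hx.2, fun z hz => (G.adj_comm _ _).trans ((h7 z hz _ hy).trans
      ⟨fun e => (h6.injOn hx ⟨hz, e.1⟩ e.2).symm, fun e => by subst e; exact ⟨hx.2, rfl⟩⟩)⟩
  · have := (h7 x hx b h5).1 e.symm
    exact (mm x hx this.1).2 this.2.symm

namespace Ld

variable {Q R : Finset V} {a b : V}

omit [Fintype V] in
theorem symm (h : Ld G k Q R a b) : Ld G k R Q b a :=
  ⟨h.r, h.q, fun x hx e => h.d x e hx, h.hb, h.ha, h.mr, h.mq, h.nb, h.na,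
    fun z hz hz' x hx => (h.o z hz' hz x hx.symm).trans or_comm⟩

omit [Fintype V] in
theorem no (h : Ld G k Q R a b) {z x : V} (hz : z ∉ Q) (hz' : z ∉ R) (hx : x ∈ Q) (n : x ≠ a) :
    ¬ G.Adj z x := fun e =>
  ((h.o z hz hz' x (Or.inl hx)).1 e).elim n fun e => h.d x hx (e ▸ h.hb)

theorem nfQ (h : Ld G k Q R a b) (hk : 3 ≤ k) (hn : Fintype.card V = 2 * (k + 1)) {v : V}
    (hv : v ∈ Q) : ¬ Free G k (Yv G v) := by
  by_cases e : v = a
  · exact nf_clq hk h.r fun s hs => ⟨fun e1 => h.d v hv (e1 ▸ hs), e ▸ h.na s hs⟩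
  obtain ⟨y, hy, yb, h1⟩ := h.mq v hv e
  have nv : ∀ x ∉ Q, x ≠ y → x ≠ v ∧ ¬ G.Adj v x := fun x hx n => ⟨fun e => hx (e ▸ hv), fun a => by
    by_cases e1 : x ∈ R
    exacts [n ((h1 x e1).1 a), h.no hx e1 hv e a.symm]⟩
  refine nf_star (f := b) (S := ((univ \ Q).erase y).erase b)
    (nv b (h.symm.d b h.hb) yb.symm) ?_ fun s hs => ?_
  · have := compl_card hn Q
    have := pred_card_le_card_erase (s := univ \ Q) (a := y)
    have := pred_card_le_card_erase (s := (univ \ Q).erase y) (a := b)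
    have := h.q.1
    omega
  · rw [mem_erase, mem_erase, mem_c] at hs
    refine ⟨?_, nv s hs.2.2 hs.2.1⟩
    by_cases e : s ∈ R
    exacts [h.r.2 b h.hb s e hs.1.symm, ((h.o s hs.2.2 e b (Or.inr h.hb)).2 (Or.inr rfl)).symm]

omit [Fintype V] in
theorem deg (h : Ld G k Q R a b) {T : Finset V} (h1 : Q.erase a ⊆ T) (h2 : R.erase b ⊆ T) {t : V}
    (ht : t ∈ Q.erase a) : k ≤ (IsoKer.nb G T t).card + 1 := by
  obtain ⟨y, hy, yb, h3⟩ := h.mq t (mem_of_mem_erase ht) (mem_erase.1 ht).1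
  have := card_add_one_le (T := (Q.erase a).erase t) (A := IsoKer.nb G T t) (a := y)
    (fun x hx => mem_nb.2 ⟨h1 (mem_of_mem_erase hx), h.q.2 t (mem_of_mem_erase ht) x
      (mem_of_mem_erase (mem_of_mem_erase hx)) (mem_erase.1 hx).1.symm⟩)
    (mem_nb.2 ⟨h2 (mem_erase.2 ⟨yb, hy⟩), (h3 y hy).2 rfl⟩)
    fun e => h.d y (mem_of_mem_erase (mem_of_mem_erase e)) hy
  have := card_erase_add_one ht
  have := card_erase_add_one h.ha
  have := h.q.1
  omega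

theorem nf (h : Ld G k Q R a b) (hk : 3 ≤ k) (hn : Fintype.card V = 2 * (k + 1)) (v : V) :
    ¬ Free G k (Yv G v) := by
  by_cases hv : v ∈ Q
  · exact h.nfQ hk hn hv
  by_cases hv' : v ∈ R
  · exact h.symm.nfQ hk hn hv'
  refine nf_core (T := Q.erase a ∪ R.erase b) (Nonempty.mono subset_union_left (card_pos.1 ?_))
    (fun t ht => ?_) fun s hs => ?_
  · have := card_erase_add_one h.ha
    have := h.q.1
    omega
  · rcases mem_union.1 ht with e | e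
    exacts [h.deg subset_union_left subset_union_right e,
      h.symm.deg subset_union_right subset_union_left e]
  · rcases mem_union.1 hs with e | e <;> rw [mem_erase] at e
    exacts [⟨fun e1 => hv (e1 ▸ e.2), h.no hv hv' e.2 e.1⟩,
      ⟨fun e1 => hv' (e1 ▸ e.2), h.symm.no hv' hv e.2 e.1⟩]

theorem rest (h : Ld G k Q R a b) (hn : Fintype.card V = 2 * (k + 1)) :
    ∃ s t, s ≠ t ∧ ∀ x, (x ∉ Q ∧ x ∉ R) ↔ x = s ∨ x = t := by
  have h1 := compl_card hn (Q ∪ R)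
  rw [card_union_of_disjoint (disjoint_left.2 h.d), h.q.1, h.r.1] at h1
  obtain ⟨s, t, n, e⟩ := card_eq_two.1 (show (univ \ (Q ∪ R)).card = 2 by omega)
  exact ⟨s, t, n, fun x => by rw [← mem_singleton (a := t), ← mem_insert, ← e]; simp⟩

omit [Fintype V] in
theorem three (h : Ld G k Q R a b) (hk : 3 ≤ k) (cr : ∀ v, ∃ T, Cr G k v T) {s t : V}
    (st : ∀ x, (x ∉ Q ∧ x ∉ R) ↔ x = s ∨ x = t) : k = 3 ∧ G.Adj s t := by
  obtain ⟨v, hv, n⟩ := exists_mem_ne (s := Q) (by have := h.q.1; omega) a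
  obtain ⟨y, hy, yb, h1⟩ := h.mq v hv n
  obtain ⟨Z, hZ⟩ := cr v
  have zQ : ∀ x ∈ Z, x ∉ Q := fun x hx e => (hZ.out x hx).2 (h.q.2 v hv x e (hZ.out x hx).1.symm)
  have yZ : y ∉ Z := fun e => (hZ.out y e).2 ((h1 y hy).2 rfl)
  obtain ⟨x, hx, xR⟩ : ∃ x ∈ Z, x ∉ R := by
    by_contra hh
    push Not at hh
    have := card_add_one_le (T := Z) (A := R) hh hy yZ
    have := core_card hZ.ne hZ.deg
    have := h.r.1
    omega
  have xb : ∀ w ∈ Z, G.Adj x w → w ∈ R → w = b := fun w hw a e =>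
    ((h.o x (zQ x hx) xR w (Or.inr e)).1 a).resolve_left fun e1 => zQ w hw (e1 ▸ h.ha)
  obtain ⟨w, hw, a, wR⟩ : ∃ w ∈ Z, G.Adj x w ∧ w ∉ R := by
    by_contra hh
    push Not at hh
    exact cr_out hk hZ (z := b) (fun w hw a => xb w hw a (hh w hw a)) hx
  have e1 := (st x).1 ⟨zQ x hx, xR⟩
  have e2 := (st w).1 ⟨zQ w hw, wR⟩
  have := a.ne
  refine ⟨?_, by rcases e1 with rfl | rfl <;> rcases e2 with rfl | rfl <;> simp_all [a.symm]⟩
  have h2 := card_le_card (s := IsoKer.nb G Z x) (t := {b, w}) fun u hu => by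
    rw [mem_nb] at hu
    by_cases e : u ∈ R
    · simp [xb u hu.1 hu.2 e]
    · have := (st u).1 ⟨zQ u hu.1, e⟩
      have := hu.2.ne
      refine mem_insert_of_mem (mem_singleton.2 ?_)
      grind
  have := card_le_two (a := b) (b := w)
  have := hZ.deg x hx
  omega

theorem square (h : Ld G 3 Q R a b) (hn : Fintype.card V = 2 * (3 + 1)) (hd : ∀ v, dg G v ≤ 4)
    {s t : V} (st : ∀ x, (x ∉ Q ∧ x ∉ R) ↔ x = s ∨ x = t) (e : G.Adj s t) :
    ∃ e : ZMod 8 ≃ V, ∀ a b, G.Adj (e a) (e b) ↔ sqR [s(1, 7), s(2, 4), s(5, 6)] a b := by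
  obtain ⟨f, hf, n⟩ := exists_mem_ne (s := Q) (by have := h.q.1; omega) a
  obtain ⟨f', hf', n1, n2, -⟩ := third h.q h.ha hf n.symm
  obtain ⟨g, hg, gb, h1⟩ := h.mq f hf n
  obtain ⟨g', hg', gb', h2⟩ := h.mq f' hf' n1
  obtain ⟨x, -, -, h3⟩ := h.mr g hg gb
  have gg : g ≠ g' := fun e => n2 (((h3 f' hf').1 (e ▸ ((h2 g' hg').2 rfl).symm)).trans
    ((h3 f hf).1 ((h1 g hg).2 rfl).symm).symm)
  have hs := (st s).2 (Or.inl rfl)
  have ht := (st t).2 (Or.inr rfl)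
  have oa : ∀ z, z ∉ Q ∧ z ∉ R → G.Adj a z := fun z hz =>
    ((h.o z hz.1 hz.2 a (Or.inl h.ha)).2 (Or.inl rfl)).symm
  have ob : ∀ z, z ∉ Q ∧ z ∉ R → G.Adj z b := fun z hz =>
    (h.o z hz.1 hz.2 b (Or.inr h.hb)).2 (Or.inr rfl)
  have qr : ∀ x ∈ Q, ∀ y ∈ R, x ≠ y := fun x hx y hy e => h.d x hx (e ▸ hy)
  have ne : ∀ {X : Finset V}, ∀ x ∉ X, ∀ y ∈ X, x ≠ y := fun x hx y hy e => hx (e ▸ hy)
  refine sq3 (x0 := a) (x1 := s) (x2 := t) (x3 := b) (x4 := g) (x5 := g') (x6 := f) (x7 := f') hn hd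
    ?_ (oa s hs) (oa t ht) (h.q.2 a h.ha f hf n.symm) (h.q.2 a h.ha f' hf' n1.symm) e (ob s hs)
    (ob t ht) (h.r.2 b h.hb g hg gb.symm) (h.r.2 b h.hb g' hg' gb'.symm) (h.r.2 g hg g' hg' gg)
    ((h1 g hg).2 rfl).symm (h.q.2 f hf f' hf' n2.symm) (h.symm.no hs.2 hs.1 hg gb)
    (h.no hs.1 hs.2 hf' n1) (h.symm.no ht.2 ht.1 hg gb) (h.no ht.1 ht.2 hf' n1)
    (fun e => gg ((h2 g hg).1 e.symm)) ((h2 g' hg').2 rfl).symm
    (fun e => gg ((h1 g' hg').1 e.symm).symm) (h.symm.no hs.2 hs.1 hg' gb')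
    (h.symm.no ht.2 ht.1 hg' gb') (h.no hs.1 hs.2 hf n) (h.no ht.1 ht.2 hf n)
  simp [(ne s hs.1 a h.ha).symm, (ne t ht.1 a h.ha).symm, qr a h.ha b h.hb, qr a h.ha g hg,
    qr a h.ha g' hg', n.symm, n1.symm, n2.symm, e.ne, ne s hs.2 b h.hb, ne s hs.2 g hg,
    ne s hs.2 g' hg', ne s hs.1 f hf, ne s hs.1 f' hf', ne t ht.2 b h.hb, ne t ht.2 g hg,
    ne t ht.2 g' hg', ne t ht.1 f hf, ne t ht.1 f' hf', gb.symm, gb'.symm, gg,
    (qr f hf b h.hb).symm, (qr f' hf' b h.hb).symm, (qr f hf g hg).symm, (qr f' hf' g hg).symm,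
    (qr f hf g' hg').symm, (qr f' hf' g' hg').symm]

end Ld

theorem sq3_two {e : ZMod 8 ≃ V}
    (t : ∀ a b, G.Adj (e a) (e b) ↔ sqR [s(1, 7), s(2, 4), s(5, 6)] a b) :
    ¬ HasF 2 3 G (Yv G (e 1)) := by
  rw [hasF_iff]
  rintro ⟨W, -, H, f, hH, -, h2, h3⟩
  have hc : IsChr 3 H := by
    rcases hH with h | h | h
    exacts [absurd h.1 (by omega), h.2, absurd h.1 (by omega)]
  have d : ∀ x y : ZMod 8, (x ≠ 1 ∧ ¬ sqR [s(1, 7), s(2, 4), s(5, 6)] 1 x) →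
      (y ≠ 1 ∧ ¬ sqR [s(1, 7), s(2, 4), s(5, 6)] 1 y) → sqR [s(1, 7), s(2, 4), s(5, 6)] x y →
      (![0, 0, 0, 0, 0, 1, 1, 0] x : Fin 2) ≠ ![0, 0, 0, 0, 0, 1, 1, 0] y := by decide
  have o : ∀ w, e.symm (f w) ≠ 1 ∧ ¬ sqR [s(1, 7), s(2, 4), s(5, 6)] 1 (e.symm (f w)) := fun w => by
    have := mem_Y.1 (h2 w)
    exact ⟨fun e1 => this.1 (by rw [← e1]; simp), fun e1 => this.2 (by simpa using (t _ _).2 e1)⟩
  exact (not_chr_iff (k := 3) (by omega)).2 ⟨SimpleGraph.Coloring.mk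
    (fun w => ![0, 0, 0, 0, 0, 1, 1, 0] (e.symm (f w))) fun {a b} hab =>
      d _ _ (o a) (o b) ((t _ _).1 (by simpa using h3 a b hab))⟩ hc

/-- The data of a cross. -/
structure Cx (G : SimpleGraph V) (k : ℕ) (A B : Finset V) (x x' y y' p p' q q' : V) : Prop where
  cA : A.card = k + 1
  cB : B.card = k + 1
  cov : ∀ u, u ∈ B ↔ u ∉ A
  mA : x ∈ A ∧ x' ∈ A ∧ y ∈ A ∧ y' ∈ A
  mB : p ∈ B ∧ p' ∈ B ∧ q ∈ B ∧ q' ∈ B
  nA : x ≠ x' ∧ x ≠ y ∧ x ≠ y' ∧ x' ≠ y ∧ x' ≠ y' ∧ y ≠ y'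
  nB : p ≠ p' ∧ p ≠ q ∧ p ≠ q' ∧ p' ≠ q ∧ p' ≠ q' ∧ q ≠ q'
  iA : ∀ u ∈ A, ∀ v ∈ A, G.Adj u v ↔ u ≠ v ∧ s(u, v) ≠ s(x, x')
  iB : ∀ u ∈ B, ∀ v ∈ B, G.Adj u v ↔ u ≠ v ∧ s(u, v) ≠ s(p, p')
  e : ∀ u ∈ A, ∀ v ∈ B, G.Adj u v ↔
    (u = x ∧ v = q) ∨ (u = x' ∧ v = q') ∨ (u = y ∧ v = p) ∨ (u = y' ∧ v = p')

theorem cx_of (hn : Fintype.card V = 2 * (k + 1)) (h : IsCross k G) :
    ∃ A B x x' y y' p p' q q', Cx G k A B x x' y y' p p' q q' := by
  obtain ⟨A, x, x', y, y', p, p', q, q', h1, h2, h3, h4, h5, h6, h7⟩ := h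
  simp only [List.nodup_cons, List.mem_cons, List.not_mem_nil, not_or, or_false,
    forall_eq_or_imp, forall_eq] at h2 h3 h4
  refine ⟨A, univ \ A, x, x', y, y', p, p', q, q', h1, by have := compl_card hn A; omega,
    fun u => mem_c, h3, by simpa using h4, by tauto, by tauto, h5,
    fun u hu v hv => h6 u (mem_c.1 hu) v (mem_c.1 hv),
    fun u hu v hv => (h7 u hu v (mem_c.1 hv)).trans (by simp)⟩

namespace Cx

variable {A B : Finset V} {x x' y y' p p' q q' : V}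

omit [Fintype V] in
theorem s1 (h : Cx G k A B x x' y y' p p' q q') : Cx G k A B x' x y' y p' p q' q :=
  ⟨h.cA, h.cB, h.cov, by have := h.mA; tauto, by have := h.mB; tauto, by have := h.nA; tauto,
    by have := h.nB; tauto, fun u hu v hv => by rw [h.iA u hu v hv, Sym2.eq_swap (a := x)],
    fun u hu v hv => by rw [h.iB u hu v hv, Sym2.eq_swap (a := p)],
    fun u hu v hv => by rw [h.e u hu v hv]; grind⟩

omit [Fintype V] in
theorem s2 (h : Cx G k A B x x' y y' p p' q q') : Cx G k B A p p' q q' x x' y y' :=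
  ⟨h.cB, h.cA, fun u => by rw [h.cov, not_not], h.mB, h.mA, h.nB, h.nA, h.iB, h.iA,
    fun u hu v hv => by rw [G.adj_comm, h.e v hv u hu]; grind⟩

theorem nf1 (h : Cx G k A B x x' y y' p p' q q') (hk : 3 ≤ k) {v : V} (hv : v ∈ A) (n1 : v ≠ x)
    (n2 : v ≠ x') (n3 : v ≠ y') : ¬ Free G k (Yv G v) :=
  nf_clq hk (clq_minus h.cB h.mB.1 h.iB) fun s hs => by
    rw [mem_erase] at hs
    refine ⟨fun e => (h.cov s).1 hs.2 (e ▸ hv), fun e => ?_⟩
    have := (h.e v hv s hs.2).1 e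
    tauto

omit [Fintype V] in
theorem yx (h : Cx G k A B x x' y y' p p' q q') (u : V) :
    (u ≠ x ∧ ¬ G.Adj x u) ↔ u = x' ∨ (u ∈ B ∧ u ≠ q) := by
  have := h.nA
  by_cases hu : u ∈ A
  · rw [h.iA x h.mA.1 u hu, Ne, Ne, Ne, Sym2.eq_iff, h.cov]
    grind
  · have hB := (h.cov u).2 hu
    rw [h.e x h.mA.1 u hB]
    have := h.mA
    grind

theorem nf2 (h : Cx G k A B x x' y y' p p' q q') : ¬ Free G k (Yv G x) := by
  have nB := h.nB
  refine nf_star (f := q') (S := insert x' ((B.erase q).erase q'))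
    ((h.yx _).2 (Or.inr ⟨h.mB.2.2.2, nB.2.2.2.2.2.symm⟩)) ?_ fun s hs => ?_
  · rw [card_insert_of_notMem fun e => (h.cov _).1 (mem_of_mem_erase (mem_of_mem_erase e)) h.mA.2.1]
    have := pred_card_le_card_erase (s := B) (a := q)
    have := card_erase_add_one (mem_erase.2 ⟨nB.2.2.2.2.2.symm, h.mB.2.2.2⟩)
    have := h.cB
    omega
  · rcases mem_insert.1 hs with rfl | e
    · exact ⟨((h.e s h.mA.2.1 q' h.mB.2.2.2).2 (Or.inr (Or.inl ⟨rfl, rfl⟩))).symm,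
        (h.yx _).2 (Or.inl rfl)⟩
    · rw [mem_erase, mem_erase] at e
      refine ⟨(h.iB q' h.mB.2.2.2 s e.2.2).2 ⟨e.1.symm, fun e1 => ?_⟩,
        (h.yx _).2 (Or.inr ⟨e.2.2, e.2.1⟩)⟩
      rw [Sym2.eq_iff] at e1
      exact e1.elim (fun e => nB.2.2.1 e.1.symm) fun e => nB.2.2.2.2.1 e.1.symm

theorem nfA (h : Cx G k A B x x' y y' p p' q q') (hk : 3 ≤ k) {v : V} (hv : v ∈ A) :
    ¬ Free G k (Yv G v) := by
  by_cases n1 : v = x
  · exact n1 ▸ h.nf2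
  by_cases n2 : v = x'
  · exact n2 ▸ h.s1.nf2
  by_cases n3 : v = y'
  exacts [h.s1.nf1 hk hv n2 n1 (n3 ▸ h.nA.2.2.2.2.2.symm), h.nf1 hk hv n1 n2 n3]

theorem nf (h : Cx G k A B x x' y y' p p' q q') (hk : 3 ≤ k) (v : V) : ¬ Free G k (Yv G v) := by
  by_cases hv : v ∈ A
  exacts [h.nfA hk hv, h.s2.nfA hk ((h.cov v).2 hv)]

omit [Fintype V] in
theorem no (h : Cx G k A B x x' y y' p p' q q') (hk : 3 ≤ k) (cr : ∀ v, ∃ T, Cr G k v T) :
    False := by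
  obtain ⟨T, hT⟩ := cr x
  have m := fun u hu => (h.yx u).1 (hT.out u hu)
  have nA := h.nA
  have xT : x' ∉ T := cr_out hk hT (z := q') fun u hu a => by
    have := (h.e x' h.mA.2.1 u ((m u hu).resolve_left a.ne.symm).1).1 a
    tauto
  have c := (cr_eq hT (Z := B.erase q) (fun u hu => mem_erase.2
    ((m u hu).resolve_left fun e => xT (e ▸ hu)).symm) (by
      have := card_erase_add_one h.mB.2.2.1
      have := h.cB
      omega)).2
  exact ((h.iB p h.mB.1 p' h.mB.2.1).1 (c.2 p (mem_erase.2 ⟨h.nB.2.1, h.mB.1⟩) p'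
    (mem_erase.2 ⟨h.nB.2.2.2.1, h.mB.2.1⟩) h.nB.1)).2 rfl

end Cx

end Pool.Agent.IsoTwo

/-! The complete list for orders divisible by `k + 1`. -/

namespace Pool.Agent.IsoTwo

open Finset Pool.Agent.IsoKer Pool.Agent.IsoDefs
open scoped Classical

variable {V : Type*} [Fintype V] {G : SimpleGraph V} {k i : ℕ}

theorem pure_iff (hk : 3 ≤ k) : IsPure k G ↔ ∃ S Q, Fam G k S Q ∧ rest S Q = ∅ := by
  constructor
  · rintro ⟨f, h1, h2, h3⟩
    refine ⟨univ.filter fun y => f y = y, fun y => univ.filter fun x => f x = y ∧ x ≠ y,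
      ⟨fun y hy => ⟨Or.inl ⟨?_, fun a ha b hb n => ?_⟩, by simp, fun q hq z a => ?_⟩,
        fun y hy y' _ e => ?_, fun y _ y' _ n => disjoint_left.2 fun x hx hx' => ?_⟩,
      eq_empty_of_forall_notMem fun x hx => ?_⟩
    · rw [← (h2 y (mem_filter.1 hy).2).2, ← Set.ncard_coe_finset]
      congr 1
      ext x
      simp
    · exact (h2 y (mem_filter.1 hy).2).1 (mem_filter.1 ha).2 (mem_filter.1 hb).2 n
    · rw [mem_filter] at hq
      have : f z = y := (h3 q z a).elim (fun e => e ▸ hq.2.1) fun e =>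
        absurd (e.1.symm.trans hq.2.1) hq.2.2
      by_cases e : z = y
      exacts [Or.inr e, Or.inl (mem_filter.2 ⟨mem_univ _, this, e⟩)]
    · rw [mem_filter] at hy e
      exact e.2.2 (hy.2.symm.trans e.2.1)
    · exact n ((mem_filter.1 hx).2.1.symm.trans (mem_filter.1 hx').2.1)
    · rw [mem_rest] at hx
      exact hx.2 (f x) (mem_filter.2 ⟨mem_univ _, h1 x⟩) (mem_filter.2 ⟨mem_univ _, rfl,
        fun e => hx.1 (mem_filter.2 ⟨mem_univ _, e.symm⟩)⟩)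
  · rintro ⟨S, Q, h, e⟩
    have ex : ∀ x, ∃ y ∈ S, x = y ∨ x ∈ Q y := fun x => by
      by_contra hh
      push Not at hh
      exact notMem_empty x (e ▸ mem_rest.2 ⟨fun hx => (hh x hx).1 rfl, fun y hy => (hh y hy).2⟩)
    choose f f1 f2 using ex
    have u : ∀ x, ∀ y ∈ S, x = y ∨ x ∈ Q y → f x = y := fun x y hy hx => by
      by_contra n
      rcases f2 x with e1 | e1 <;> rcases hx with e2 | e2
      exacts [n (e1.symm.trans e2), h.out _ (f1 x) y hy (e1 ▸ e2), h.out y hy _ (f1 x) (e2 ▸ e1),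
        disjoint_left.1 (h.disj _ (f1 x) y hy n) e1 e2]
    refine ⟨f, fun x => u _ _ (f1 x) (Or.inl rfl), fun y hy => ?_, fun x z a => ?_⟩
    · have yS : y ∈ S := hy ▸ f1 y
      have : {x | f x = y ∧ x ≠ y} = (Q y : Set V) := by
        ext x
        exact ⟨fun hx => hx.1 ▸ (f2 x).resolve_left (hx.1.symm ▸ hx.2), fun hx =>
          ⟨u x y yS (Or.inr hx), fun e => h.out y yS y yS (e ▸ hx)⟩⟩
      have c : Clq G k (Q y) := (h.pend y yS).1.resolve_right fun e => by omega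
      rw [this, Set.ncard_coe_finset]
      exact ⟨(clq_iff.1 c).1, c.1⟩
    · rcases f2 x with e1 | e1
      · rcases f2 z with e2 | e2
        · exact Or.inr ⟨e1.symm, e2.symm⟩
        · exact Or.inl (u x _ (f1 z) ((h.pend _ (f1 z)).2.2 z e2 x a.symm).symm)
      · exact Or.inl (u z _ (f1 x) ((h.pend _ (f1 x)).2.2 x e1 z a).symm).symm

theorem pure_iff' (hk : 3 ≤ k) : IsPure k G ↔
    ∃ (S : Finset V) (Q : V → Finset V), IsUnitFamily k G S Q ∧ kernelSet S Q = ∅ := by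
  rw [pure_iff hk]
  refine exists_congr fun S => exists_congr fun Q => ?_
  rw [fam_iff, ← coe_rest, coe_eq_empty]

theorem two_all (hi : i = 1 ∨ i = 2 ∨ i = 3) (hk : 3 ≤ k) (hc : Conn G univ)
    (hn : Fintype.card V = 2 * (k + 1)) (np : ¬ IsPure k G) :
    iota i k G = 2 ↔ IsMatchedPair k G ∨ IsPentagon k G ∨ (k = 3 ∧ IsSquare i G) ∨
      (i = 3 ∧ (IsTwisted k G ∨ IsLayered k G ∨ IsHubPair k G ∨ IsLadder k G ∨ IsKite k G ∨
        IsCross k G)) := by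
  constructor
  · intro he
    have hF : ∀ v, HasF i k G (Yv G v) := fun v => hasF_of_lt (D := {v}) (by simp [he])
    have T : Tw G k := by
      refine ⟨hk, hn, fun v hf => hf.not_hasF (by omega) (hF v), fun Q _ hQ y _ hy => ?_, hc⟩
      by_contra hh
      push Not at hh
      refine np ((pure_iff hk).2 (pure_of_pend (by omega) hc (fun E hE => ?_)
        ⟨y, Q, Or.inl hQ, hy, fun q hq z a => ?_⟩))
      · have := Nat.mul_le_mul_left (k + 1) (he ▸ iota_le_free (i := i) (by omega) hE)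
        omega
      · by_cases e : z ∈ Q
        exacts [Or.inl e, Or.inr (hh q hq z (mem_univ _) a e)]
    by_cases h3 : i = 3
    · by_cases hv : ∃ v, k + 1 ≤ dg G v
      · obtain ⟨v, hv⟩ := hv
        have := T.high (i := i) hv
        unfold Com at this
        clear * - this h3; grind
      · push Not at hv
        have := Lo.main ⟨T, fun v => Nat.lt_succ_iff.1 (hv v)⟩
        clear * - this h3; grind
    have cr : ∀ v, ∃ T, Cr G k v T := fun v => by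
      obtain ⟨T, h1, h2, h3⟩ := core_of_hasF h3 (by omega) (hF v)
      exact ⟨T, h2, fun t ht => mem_Y.1 (h1 ht), h3⟩
    by_cases hv : ∃ v, k + 1 ≤ dg G v
    · obtain ⟨v, hv⟩ := hv
      rcases T.high (i := i) hv with ((h | h) | h | h) | h
      · unfold Com at h
        clear * - h; grind
      · obtain ⟨Q, R, a, b, h⟩ := ld_of h
        obtain ⟨s, t, -, st⟩ := h.rest hn
        obtain ⟨rfl, e⟩ := h.three hk cr st
        obtain ⟨e, t⟩ := h.square hn T.deg_le st e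
        have h2 : i ≠ 2 := fun h2 => sq3_two t (h2 ▸ hF _)
        exact Or.inr (Or.inr (Or.inl ⟨rfl, e, _, Or.inr (Or.inr (Or.inr ⟨h2, rfl⟩)), t⟩))
      · obtain ⟨Q, S, U, a, b, h⟩ := kt_of h
        obtain rfl := h.three hk hn cr
        exact Or.inr (Or.inr (Or.inl ⟨rfl, h.square hn T.deg_le⟩))
      · obtain ⟨A, B, x, x', y, y', p, p', q, q', h⟩ := cx_of hn h
        exact (h.no hk cr).elim
      · obtain ⟨A, x, x', p, p', h⟩ := hub_of h
        exact Or.inl (h.matched hk hn cr)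
    · push Not at hv
      exact Or.inl (Lo.matched ⟨T, fun v => Nat.lt_succ_iff.1 (hv v)⟩ cr)
  · intro h
    refine iota_two hk hc hn fun v => ?_
    have cl : (∃ K, Clq G k K ∧ K ⊆ Yv G v) → HasF i k G (Yv G v) := fun ⟨K, h1, h2⟩ =>
      hasF_mono (h1.hasF hi (by omega)) (coe_subset.2 h2)
    rcases h with h | h | ⟨rfl, h⟩ | ⟨rfl, h⟩
    · exact cl (matched_clq hc h v)
    · exact cl (pent_clq h v)
    · exact square_hasF hi h v
    refine hasF3 ?_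
    rcases h with h | h | h | h | h | h
    · exact twisted_nf h v
    · exact layered_nf hk hn h v
    · obtain ⟨A, x, x', p, p', h⟩ := hub_of h
      exact h.nf hk hn v
    · obtain ⟨Q, R, a, b, h⟩ := ld_of h
      exact h.nf hk hn v
    · obtain ⟨Q, S, U, a, b, h⟩ := kt_of h
      exact h.nf hk hn v
    · obtain ⟨A, B, x, x', y, y', p, p', q, q', h⟩ := cx_of hn h
      exact h.nf hk v

theorem complete_main (hi : i = 1 ∨ i = 2 ∨ i = 3) (hk : 3 ≤ k) (hG : G.Connected) {q : ℕ}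
    (hn : Fintype.card V = q * (k + 1)) :
    iota i k G = q ↔ IsPure k G ∨
      (q = 2 ∧ (IsMatchedPair k G ∨ IsPentagon k G ∨ (k = 3 ∧ IsSquare i G) ∨
        (i = 3 ∧ (IsTwisted k G ∨ IsLayered k G ∨ IsHubPair k G ∨ IsLadder k G ∨ IsKite k G ∨
          IsCross k G)))) ∨
      (q = 1 ∧ ((i ≠ 2 ∧ HasCocktail G) ∨ (i = 3 ∧ ∃ c, ∀ x, x ≠ c → G.Adj c x))) := by
  by_cases h2 : q = 2
  · subst h2
    by_cases np : IsPure k G
    · refine iff_of_true ?_ (Or.inl np)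
      obtain ⟨S, Q, h, e⟩ := (pure_iff hk).1 np
      have := pure_iota hi (by omega) (conn_of_connected hG) h e
      rw [hn, mul_comm 2] at this
      exact Nat.eq_of_mul_eq_mul_left (by omega) this
    · rw [two_all hi hk (conn_of_connected hG) hn np]
      simp [np]
  · rw [exact_main hi hk hG (fun e => absurd e h2) hn, pure_iff' hk]
    simp [h2]

end Pool.Agent.IsoTwo
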