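import Pool.Agent.Work.MP_1346a1_co.Global
import Pool.Agent.Work.MP_1346a1_co.Main

-- merged part: Pool.Agent.Work.MP_1346a1_co.ZeroBase
section
/-! Tools for the exact analysis of three tight blocks. -/

namespace Pool.Agent.IsoKer

open Finset
open scoped Classical

variable {V : Type*} {G : SimpleGraph V} {k : ℕ}

theorem obs {X : Finset V} (h : ¬ Free G k X) : (∃ r ∈ X, k ≤ (nb G X r).card) ∨
    ∃ T : Finset V, T.Nonempty ∧ Cl G T X ∧ (∀ t ∈ T, k ≤ (nb G T t).card + 1) ∧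
      ∀ t ∈ X, (nb G X t).card < k := by
  by_cases h1 : ∃ r ∈ X, k ≤ (nb G X r).card
  · exact Or.inl h1
  push Not at h1
  have : ∃ T ⊆ X, T.Nonempty ∧ ∀ t ∈ T, k ≤ (nb G T t).card + 1 := by
    by_contra hcon
    push Not at hcon
    exact h ⟨h1, hcon⟩
  obtain ⟨T, hT, hne, hT'⟩ := this
  refine Or.inr ⟨T, hne, cl_of_card hT fun t ht => ?_, hT', h1⟩
  have := hT' t ht
  have := h1 t (hT ht)
  omega

theorem core_card {T : Finset V} (hne : T.Nonempty) (h : ∀ t ∈ T, k ≤ (nb G T t).card + 1) :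
    k ≤ T.card := by
  obtain ⟨t, ht⟩ := hne
  have := h t ht
  have := nb_card_lt (G := G) ht
  omega

theorem card_add_one_le {T A : Finset V} {a : V} (h : T ⊆ A) (ha : a ∈ A) (ha' : a ∉ T) :
    T.card + 1 ≤ A.card := by
  have := card_le_card (insert_subset ha h)
  rwa [card_insert_of_notMem ha'] at this

theorem card_add_two_le {T A : Finset V} {a b : V} (h : T ⊆ A) (ha : a ∈ A) (hb : b ∈ A)
    (hab : a ≠ b) (ha' : a ∉ T) (hb' : b ∉ T) : T.card + 2 ≤ A.card := by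
  have := card_add_one_le (insert_subset hb h) ha (by simp [hab, ha'])
  rwa [card_insert_of_notMem hb'] at this

theorem card_add_three_le {T A : Finset V} {a b c : V} (h : T ⊆ A) (ha : a ∈ A) (hb : b ∈ A)
    (hc : c ∈ A) (hab : a ≠ b) (hac : a ≠ c) (hbc : b ≠ c) (ha' : a ∉ T) (hb' : b ∉ T)
    (hc' : c ∉ T) : T.card + 3 ≤ A.card := by
  have := card_add_two_le (insert_subset hc h) ha hb hab (by simp [hac, ha']) (by simp [hbc, hb'])
  rwa [card_insert_of_notMem hc'] at this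

theorem dom_of_card {Y : Finset V} {r : V} (hr : r ∈ Y) (hY : Y.card ≤ (nb G Y r).card + 1) :
    ∀ x ∈ Y, x = r ∨ G.Adj r x := by
  intro x hx
  by_contra hcon
  push Not at hcon
  have := card_add_two_le (nb_sub (G := G) Y r) hr hx hcon.1.symm (not_mem_nb_self _ _)
    fun h => hcon.2 (mem_nb.1 h).2
  omega

theorem clq_of_core {T : Finset V} (hne : T.Nonempty) (h : ∀ t ∈ T, k ≤ (nb G T t).card + 1)
    (hc : T.card ≤ k) : Clq G k T := by
  refine clq_of_not_free hc fun hf => ?_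
  obtain ⟨t, ht, hlt⟩ := hf.2 T subset_rfl hne
  have := h t ht
  omega

theorem small_cases {Y : Finset V} (hY : Y.card ≤ k + 1) (h : ¬ Free G k Y) :
    (∃ c, Bk G k c Y) ∨ (∃ K, Clq G k K ∧ Cl G K Y) ∨
      (Y.card = k + 1 ∧ ∀ x ∈ Y, (nb G Y x).card + 1 = k) := by
  rcases obs h with ⟨r, hr, h1⟩ | ⟨T, hne, hcl, h1, h2⟩
  · have := nb_card_lt (G := G) hr
    exact Or.inl ⟨r, hr, by omega, dom_of_card hr (by omega)⟩
  · by_cases hc : T.card ≤ k
    · exact Or.inr (Or.inl ⟨T, clq_of_core hne h1 hc, hcl⟩)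
    · have he : T = Y := eq_of_subset_of_card_le hcl.1 (by omega)
      subst he
      refine Or.inr (Or.inr ⟨by omega, fun x hx => ?_⟩)
      have := h1 x hx
      have := h2 x hx
      omega

theorem Tight.down {n : ℕ} {U Z : Finset V} {x : V} (h : Tight G k (n + 1) U)
    (hs : rem G U {x} ⊆ Z) : Tight G k n Z := by
  intro D hD hf
  refine h (insert x D) (by have := card_insert_le x D; omega) (hf.mono fun a ha => ?_)
  rw [mem_rem] at ha ⊢
  exact ⟨hs (mem_rem.2 ⟨ha.1, fun d hd => ha.2 d (by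
    rw [mem_singleton.1 hd]; exact mem_insert_self _ _)⟩),
    fun d hd => ha.2 d (mem_insert_of_mem hd)⟩

theorem Tight.nf1 {P Y : Finset V} {x : V} (h : Tight G k 2 P) (hs : rem G P {x} ⊆ Y) :
    ¬ Free G k Y := fun hf => h {x} (by simp) (hf.mono hs)

theorem Tight.nf2 {U Y : Finset V} {x y : V} (h : Tight G k 3 U) (hs : rem G U {x, y} ⊆ Y) :
    ¬ Free G k Y := fun hf =>
  h {x, y} (by have := card_le_two (a := x) (b := y); omega) (hf.mono hs)

theorem mem_rem2 {U : Finset V} {x y z : V} :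
    z ∈ rem G U {x, y} ↔ z ∈ U ∧ (z ≠ x ∧ ¬ G.Adj x z) ∧ (z ≠ y ∧ ¬ G.Adj y z) := by simp

theorem Tight.closedK (hk : 3 ≤ k) {Z : Finset V} (h : Tight G k 2 Z) (hZ : Z.card ≤ 2 * k + 1) :
    ∃ K, Clq G k K ∧ Cl G K Z := by
  by_contra hcon
  push Not at hcon
  obtain ⟨D, h1, h2⟩ := bound_of_noClq (G := G) (Or.inr hk) Z hcon
  refine h D ?_ h1
  by_contra hh
  have := Nat.mul_le_mul_left (k + 1) (show 2 ≤ D.card by omega)
  omega

/-- `U` has no pendant `k`-clique. -/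
def NoPend (G : SimpleGraph V) (k : ℕ) (U : Finset V) : Prop :=
  ∀ Q ⊆ U, Clq G k Q → ∀ y ∈ U, y ∉ Q → ∃ q ∈ Q, ∃ z ∈ U, G.Adj q z ∧ z ∉ Q ∧ z ≠ y

/-- A set of at most `k + 1` vertices with a closed `k`-clique becomes free after a hit. -/
theorem free_hit (hk : 3 ≤ k) {R K : Finset V} {y q : V} (hR : R.card ≤ k + 1) (hK : Clq G k K)
    (hcl : Cl G K R) (hq : q ∈ K) (hy : G.Adj y q) : Free G k (rem G R {y}) := by
  have h1 := card_sdiff_add_card_eq_card hcl.1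
  rw [hK.1] at h1
  refine ((free_small (X := R \ K) (by omega)).union
    (free_small (rem_small hK.1.le hq (Or.inr hy))) (hcl.na.mono subset_rfl (rem_sub _ _))).mono
    fun a ha => ?_
  rw [mem_rem1] at ha
  by_cases h2 : a ∈ K
  exacts [mem_union_right _ (mem_rem1.2 ⟨h2, ha.2⟩), mem_union_left _ (mem_sdiff.2 ⟨ha.1, h2⟩)]

/-- A small set with a vertex `s` hanging on `y`. -/
theorem hang (hk : 3 ≤ k) {K Y : Finset V} {y s : V} (hK : K.card < k)
    (hs : ∀ x ∈ K, ¬ G.Adj s x) (hY : Y ⊆ insert s (insert y K))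
    (h : ¬ Free G k Y) : ∀ x ∈ K, x = y ∨ G.Adj y x := by
  have c1 := card_insert_le s (insert y K)
  have c2 := card_insert_le y K
  have hsn : ∀ T ⊆ insert s (insert y K), (nb G T s).card ≤ 1 := fun T hT => by
    refine le_trans (card_le_card (t := {y}) fun x hx => ?_) (by simp)
    rw [mem_nb] at hx
    rcases mem_insert.1 (hT hx.1) with e | e
    · exact absurd e.symm hx.2.ne
    · exact mem_singleton.2 ((mem_insert.1 e).resolve_right fun e1 => hs x e1 hx.2)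
  rcases obs h with ⟨r, hr, h1⟩ | ⟨T, hne, hcl, h1, -⟩
  · have h2 := nb_card_mono (G := G) hY r
    have hd := dom_of_card (G := G) (hY hr) (by omega)
    have hrs : r ≠ s := fun e => by
      have := hsn Y hY
      rw [e] at h1
      omega
    have h3 : r = y := by
      by_contra hne
      have h4 := ((mem_insert.1 ((mem_insert.1 (hY hr)).resolve_left hrs)).resolve_left hne)
      exact hs r h4 ((hd s (mem_insert_self _ _)).resolve_left hrs.symm).symm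
    subst h3
    exact fun x hx => hd x (mem_insert_of_mem (mem_insert_of_mem hx))
  · have hsT : s ∉ T := fun hh => by
      have := hsn T (hcl.1.trans hY)
      have := h1 s hh
      omega
    have hT : T ⊆ insert y K := fun x hx =>
      (mem_insert.1 (hY (hcl.1 hx))).resolve_left fun e => hsT (e ▸ hx)
    have h3 := core_card hne h1
    have he : T = insert y K := eq_of_subset_of_card_le hT (by omega)
    have hq := clq_of_core hne h1 (by rw [he]; omega)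
    intro x hx
    by_cases e : x = y
    · exact Or.inl e
    · exact Or.inr (hq.2 y (he ▸ mem_insert_self _ _) x (he ▸ mem_insert_of_mem hx) (Ne.symm e))

end Pool.Agent.IsoKer
end

-- merged part: Pool.Agent.Work.MP_1346a1_co.ZeroB
section
/-! Three tight blocks with all degrees at most `k`: perfect codes. -/

namespace Pool.Agent.IsoKer

open Finset
open scoped Classical

variable {V : Type*} {G : SimpleGraph V} {k : ℕ}

/-- `x` lies in the closed neighbourhood of `a`. -/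
def Nr (G : SimpleGraph V) (a x : V) : Prop := x = a ∨ G.Adj a x

theorem Nr.rfl {a : V} : Nr G a a := Or.inl (Eq.refl a)

theorem Nr.symm {a x : V} (h : Nr G a x) : Nr G x a := h.imp Eq.symm fun e => e.symm

theorem Nr.adj {a x : V} (h : Nr G a x) (n : a ≠ x) : G.Adj a x := h.resolve_left n.symm

theorem Nr.of {a x : V} (h : G.Adj a x) : Nr G a x := Or.inr h

/-- The closed neighbourhood of `a` in `U`. -/
noncomputable def cn (G : SimpleGraph V) (U : Finset V) (a : V) : Finset V := U.filter (Nr G a)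

theorem mem_cn {U : Finset V} {a x : V} : x ∈ cn G U a ↔ x ∈ U ∧ Nr G a x := mem_filter

theorem cn_card {U : Finset V} {a : V} (ha : a ∈ U) :
    (cn G U a).card = (nb G U a).card + 1 := by
  rw [← card_insert_of_notMem (not_mem_nb_self (G := G) U a)]
  congr 1
  ext x
  simp only [mem_cn, mem_insert, mem_nb, Nr]
  constructor
  · tauto
  · rintro (rfl | h)
    exacts [⟨ha, Or.inl rfl⟩, ⟨h.1, Or.inr h.2⟩]

theorem mem_al {U : Finset V} {x y z : V} :
    z ∈ rem G U {x, y} ↔ z ∈ U ∧ ¬ Nr G x z ∧ ¬ Nr G y z := by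
  simp only [mem_rem2, Nr, not_or]

/-- The low-degree tight situation. -/
structure Low (G : SimpleGraph V) (k : ℕ) (U : Finset V) : Prop where
  hk : 3 ≤ k
  card : U.card = 3 * (k + 1)
  deg : ∀ x ∈ U, (cn G U x).card ≤ k + 1
  tight : Tight G k 3 U

/-- A perfect code of three full vertices. -/
structure Code (G : SimpleGraph V) (k : ℕ) (U : Finset V) (a b c : V) : Prop where
  ha : a ∈ U
  hb : b ∈ U
  hc : c ∈ U
  ca : (cn G U a).card = k + 1
  cb : (cn G U b).card = k + 1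
  cc : (cn G U c).card = k + 1
  cov : ∀ x ∈ U, Nr G a x ∨ Nr G b x ∨ Nr G c x
  ab : ∀ x ∈ U, Nr G a x → ¬ Nr G b x
  ac : ∀ x ∈ U, Nr G a x → ¬ Nr G c x
  bc : ∀ x ∈ U, Nr G b x → ¬ Nr G c x

theorem Code.s12 {U : Finset V} {a b c : V} (h : Code G k U a b c) : Code G k U b a c :=
  ⟨h.hb, h.ha, h.hc, h.cb, h.ca, h.cc, fun x hx => by have := h.cov x hx; tauto,
    fun x hx h1 h2 => h.ab x hx h2 h1, h.bc, h.ac⟩

theorem Code.s23 {U : Finset V} {a b c : V} (h : Code G k U a b c) : Code G k U a c b :=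
  ⟨h.ha, h.hc, h.hb, h.ca, h.cc, h.cb, fun x hx => by have := h.cov x hx; tauto,
    h.ac, h.ab, fun x hx h1 h2 => h.bc x hx h2 h1⟩

/-- A closed core of the living set. -/
structure Core (G : SimpleGraph V) (k : ℕ) (U : Finset V) (x y : V) (T : Finset V) : Prop where
  low : Low G k U
  ne : T.Nonempty
  sub : ∀ t ∈ T, t ∈ U ∧ ¬ Nr G x t ∧ ¬ Nr G y t
  cl : ∀ t ∈ T, ∀ z ∈ U, Nr G t z → ¬ Nr G x z → ¬ Nr G y z → z ∈ T
  deg : ∀ t ∈ T, k ≤ (nb G T t).card + 1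

theorem one_out {U T : Finset V} (h : Low G k U) (hT : T ⊆ U) {t p q : V} (ht : t ∈ T)
    (hd : k ≤ (nb G T t).card + 1) (hp : p ∈ U) (hq : q ∈ U) (h1 : Nr G t p) (h2 : Nr G t q)
    (h3 : p ∉ T) (h4 : q ∉ T) : p = q := by
  by_contra n
  have := card_add_two_le (nb_mono (G := G) hT t)
    (mem_nb.2 ⟨hp, h1.adj fun e => h3 (e ▸ ht)⟩) (mem_nb.2 ⟨hq, h2.adj fun e => h4 (e ▸ ht)⟩) n
    (fun hh => h3 (mem_nb.1 hh).1) fun hh => h4 (mem_nb.1 hh).1
  have := h.deg t (hT ht)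
  rw [cn_card (hT ht)] at this
  omega

theorem full_of {U T : Finset V} (h : Low G k U) (hT : T ⊆ U) {t p : V} (ht : t ∈ T)
    (hd : k ≤ (nb G T t).card + 1) (hp : p ∈ U) (h1 : Nr G t p) (h3 : p ∉ T) :
    (cn G U t).card = k + 1 := by
  have := card_add_one_le (nb_mono (G := G) hT t)
    (mem_nb.2 ⟨hp, h1.adj fun e => h3 (e ▸ ht)⟩) fun hh => h3 (mem_nb.1 hh).1
  have := h.deg t (hT ht)
  rw [cn_card (hT ht)] at this ⊢
  omega

namespace Core

variable {U T : Finset V} {x y : V}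

theorem subU (h : Core G k U x y T) : T ⊆ U := fun t ht => (h.sub t ht).1

theorem d1 (h : Core G k U x y T) {z : V} (e : Nr G x z) : z ∉ T := fun hz => (h.sub z hz).2.1 e

theorem d2 (h : Core G k U x y T) {z : V} (e : Nr G y z) : z ∉ T := fun hz => (h.sub z hz).2.2 e

theorem one (h : Core G k U x y T) {t p q : V} (ht : t ∈ T) (hp : p ∈ U) (hq : q ∈ U)
    (h1 : Nr G t p) (h2 : Nr G t q) (h3 : p ∉ T) (h4 : q ∉ T) : p = q :=
  one_out h.low h.subU ht (h.deg t ht) hp hq h1 h2 h3 h4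

/-- With one neighbour outside, all other neighbours are inside. -/
theorem rest (h : Core G k U x y T) {t p q : V} (ht : t ∈ T) (hp : p ∈ U) (hq : q ∈ U)
    (h1 : Nr G t p) (h3 : p ∉ T) (h2 : Nr G t q) (n : q ≠ p) : q ∈ T := by
  by_contra h4
  exact n (h.one ht hq hp h2 h1 h4 h3)

theorem small (h : Core G k U x y T) {a p q : V} (ha : a ∈ U) (hT : ∀ t ∈ T, Nr G a t)
    (hp : p ∈ U) (hq : q ∈ U) (h1 : Nr G a p) (h2 : Nr G a q) (n : p ≠ q) (h3 : p ∉ T)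
    (h4 : q ∉ T) : False := by
  have := card_add_two_le (A := cn G U a) (fun t ht => mem_cn.2 ⟨h.subU ht, hT t ht⟩)
    (mem_cn.2 ⟨hp, h1⟩) (mem_cn.2 ⟨hq, h2⟩) n h3 h4
  have := h.low.deg a ha
  have := core_card h.ne h.deg
  omega

theorem lone (h : Core G k U x y T) {t e : V} (ht : t ∈ T)
    (he : ∀ z ∈ T, G.Adj t z → z = e) : False := by
  have h1 := card_le_card (s := nb G T t) (t := {e}) fun z hz =>
    mem_singleton.2 (he z (mem_nb.1 hz).1 (mem_nb.1 hz).2)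
  have := h.deg t ht
  have := h.low.hk
  rw [card_singleton] at h1
  omega

theorem clq (h : Core G k U x y T) {a p : V} (ha : a ∈ U) (hT : ∀ t ∈ T, Nr G a t)
    (hp : p ∈ U) (h1 : Nr G a p) (h3 : p ∉ T) : T = (cn G U a).erase p ∧ Clq G k T := by
  have hs : T ⊆ (cn G U a).erase p := fun t ht =>
    mem_erase.2 ⟨fun e => h3 (e ▸ ht), mem_cn.2 ⟨h.subU ht, hT t ht⟩⟩
  have h4 := card_erase_of_mem (mem_cn.2 ⟨hp, h1⟩ : p ∈ cn G U a)
  have := h.low.deg a ha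
  have := core_card h.ne h.deg
  have := card_le_card hs
  exact ⟨eq_of_subset_of_card_le hs (by omega), clq_of_core h.ne h.deg (by omega)⟩

end Core

theorem Low.ob {U : Finset V} (h : Low G k U) (x y : V) :
    (∃ f ∈ U, (cn G U f).card = k + 1 ∧ ∀ z ∈ U, Nr G f z → ¬ Nr G x z ∧ ¬ Nr G y z) ∨
      ∃ T, Core G k U x y T := by
  rcases obs (h.tight.nf2 (x := x) (y := y) subset_rfl) with ⟨r, hr, h1⟩ | ⟨T, h1, h2, h3, -⟩
  · have hrU := rem_sub _ _ hr
    have h2 := h.deg r hrU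
    have h3 := cn_card (G := G) hrU
    have h4 : nb G (rem G U {x, y}) r = nb G U r :=
      eq_of_subset_of_card_le (nb_mono (rem_sub _ _) r) (by omega)
    refine Or.inl ⟨r, hrU, by rw [h4] at h1; omega, fun z hz e => ?_⟩
    rcases e with e | e
    · exact e ▸ (mem_al.1 hr).2
    · exact (mem_al.1 (mem_nb.1 (h4 ▸ mem_nb.2 ⟨hz, e⟩ : z ∈ nb G (rem G U {x, y}) r)).1).2
  · refine Or.inr ⟨T, h, h1, fun t ht => mem_al.1 (h2.1 ht), fun t ht z hz e e1 e2 => ?_, h3⟩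
    rcases e with e | e
    exacts [e ▸ ht, h2.2 t ht z (mem_al.2 ⟨hz, e1, e2⟩) e]

/-- The living set is a cocktail party graph. -/
structure Cock (G : SimpleGraph V) (k : ℕ) (U : Finset V) (f g : V) : Prop where
  non : ∀ p ∈ rem G U {f, g}, ∀ q ∈ rem G U {f, g}, ∀ q' ∈ rem G U {f, g},
    ¬ Nr G p q → ¬ Nr G p q' → q = q'
  deg : ∀ p ∈ rem G U {f, g}, k ≤ (nb G (rem G U {f, g}) p).card + 1

theorem Low.third {U : Finset V} (h : Low G k U) {f g p q x : V} (hf : f ∈ U) (hg : g ∈ U)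
    (cf : (cn G U f).card = k + 1) (cg : (cn G U g).card = k + 1)
    (far : ∀ z ∈ U, Nr G f z → ¬ Nr G g z) (hp : p ∈ rem G U {f, g}) (hq : q ∈ rem G U {f, g})
    (hx : x ∈ rem G U {f, g}) (n : ¬ Nr G p q) (a1 : G.Adj x p) (a2 : G.Adj x q) :
    (∃ e, Code G k U f g e) ∨ Cock G k U f g := by
  set Y := rem G U {f, g} with hY
  have hYc : Y.card = k + 1 := by
    have h1 : Y = U \ (cn G U f ∪ cn G U g) := by
      ext z
      simp only [hY, mem_al, mem_sdiff, mem_union, mem_cn]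
      tauto
    have h2 := card_sdiff_add_card_eq_card (s := cn G U f ∪ cn G U g) (t := U)
      (union_subset (filter_subset _ _) (filter_subset _ _))
    rw [card_union_of_disjoint (disjoint_left.2 fun z h3 h4 =>
      far z (mem_cn.1 h3).1 (mem_cn.1 h3).2 (mem_cn.1 h4).2), ← h1, cf, cg, h.card] at h2
    omega
  rcases small_cases (G := G) hYc.le (h.tight.nf2 subset_rfl) with ⟨e, he⟩ | ⟨K, hK, hcl⟩ | h1
  · have heU : e ∈ U := rem_sub _ _ he.mem
    have h1 : Y = cn G U e := eq_of_subset_of_card_le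
      (fun z hz => mem_cn.2 ⟨rem_sub _ _ hz, he.dom z hz⟩) (by rw [hYc]; exact h.deg e heU)
    have h2 : ∀ z ∈ U, Nr G e z → ¬ Nr G f z ∧ ¬ Nr G g z := fun z hz e1 =>
      (mem_al.1 (h1 ▸ mem_cn.2 ⟨hz, e1⟩ : z ∈ Y)).2
    refine Or.inl ⟨e, hf, hg, heU, cf, cg, h1 ▸ hYc, fun z hz => ?_, far,
      fun z hz e1 e2 => (h2 z hz e2).1 e1, fun z hz e1 e2 => (h2 z hz e2).2 e1⟩
    by_contra hcon
    push Not at hcon
    exact hcon.2.2 (he.dom z (mem_al.2 ⟨hz, hcon.1, hcon.2.1⟩))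
  · exfalso
    have hpq : p ≠ q := fun e => n (e ▸ Nr.rfl)
    by_cases hxK : x ∈ K
    · exact n (Nr.of (hK.2 p (hcl.2 x hxK p hp a1) q (hcl.2 x hxK q hq a2) hpq))
    · have := card_add_two_le hcl.1 hx hp a1.ne hxK fun hh => hxK (hcl.2 p hh x hx a1.symm)
      have := hK.1
      omega
  · refine Or.inr ⟨fun p hp q hq q' hq' n1 n2 => ?_, fun p hp => (h1.2 p hp).ge⟩
    by_contra n3
    have := card_add_three_le (nb_sub (G := G) Y p) hp hq hq' (fun e => n1 (e ▸ Nr.rfl))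
      (fun e => n2 (e ▸ Nr.rfl)) n3 (not_mem_nb_self _ _) (fun hh => n1 (Nr.of (mem_nb.1 hh).2))
      fun hh => n2 (Nr.of (mem_nb.1 hh).2)
    have := h1.2 p hp
    omega

theorem full_sub {U : Finset V} (h : Low G k U) {f a p : V} (ha : a ∈ U)
    (cf : (cn G U f).card = k + 1) (hs : ∀ z ∈ U, Nr G f z → Nr G a z) (hp : p ∈ U)
    (h1 : Nr G a p) : Nr G f p := by
  by_contra h2
  have := card_add_one_le (T := cn G U f) (A := cn G U a)
    (fun z hz => mem_cn.2 ⟨(mem_cn.1 hz).1, hs z (mem_cn.1 hz).1 (mem_cn.1 hz).2⟩)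
    (mem_cn.2 ⟨hp, h1⟩) fun hh => h2 (mem_cn.1 hh).2
  have := h.deg a ha
  omega

theorem cells {U : Finset V} (h : Low G k U) {a b c s t y : V} (C : Code G k U a b c)
    (D : Code G k U s t c) (hy : y ∈ U) (h1 : Nr G b y) (h2 : Nr G s y) :
    ∃ z ∈ U, Nr G a z ∧ Nr G t z := by
  by_contra hcon
  push Not at hcon
  refine C.ab y hy (full_sub h D.ha C.ca (fun z hz e => ?_) hy h2) h1
  exact (D.cov z hz).resolve_right (not_or.2 ⟨hcon z hz e, C.ac z hz e⟩)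

/-- A second code of the pair `a, b` that really differs. -/
def GoodC (G : SimpleGraph V) (k : ℕ) (U : Finset V) (a b c : V) : Prop :=
  ∃ s t, Code G k U s t c ∧ Nr G a s ∧ Nr G b t ∧ ∃ y ∈ U, Nr G b y ∧ Nr G s y

theorem GoodC.symm {U : Finset V} (h : Low G k U) {a b c : V} (C : Code G k U a b c)
    (g : GoodC G k U b a c) : GoodC G k U a b c := by
  obtain ⟨s, t, D, h1, h2, y, hy, h3, h4⟩ := g
  exact ⟨t, s, D.s12, h2, h1, cells h C.s12 D hy h3 h4⟩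

theorem ap0 {U : Finset V} (h : Low G k U) {a b c t x p : V} (C : Code G k U a b c) (ht : t ∈ U)
    (ct : (cn G U t).card = k + 1) (bt : Nr G b t) (far : ∀ z ∈ U, Nr G t z → ¬ Nr G c z)
    (hx : x ∈ U) (hp : p ∈ U) (ax : Nr G a x) (bp : Nr G b p) (xp : G.Adj x p)
    (tx : ¬ Nr G t x) (tp : ¬ Nr G t p) : GoodC G k U a b c ∨ Cock G k U t c := by
  have ap : ¬ Nr G a p := fun e => C.ab p hp e bp
  have ta : ¬ Nr G t a := fun e => C.ab t ht e.symm bt
  have ca := C.ac a C.ha Nr.rfl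
  have cp := C.bc p hp bp
  refine (h.third ht C.hc ct C.cc far (mem_al.2 ⟨C.ha, ta, ca⟩) (mem_al.2 ⟨hp, tp, cp⟩)
    (mem_al.2 ⟨hx, tx, C.ac x hx ax⟩) ap (ax.symm.adj fun e => ap (e ▸ Nr.of xp)) xp).imp_left ?_
  rintro ⟨e, D⟩
  exact ⟨e, t, D.s23.s12, (((D.cov a C.ha).resolve_left ta).resolve_left ca).symm, bt, p, hp, bp,
    ((D.cov p hp).resolve_left tp).resolve_left cp⟩

theorem ap1 {U : Finset V} (h : Low G k U) {a b c t x p : V} (C : Code G k U a b c) (ht : t ∈ U)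
    (ct : (cn G U t).card = k + 1) (bt : Nr G b t) (far : ∀ z ∈ U, Nr G t z → ¬ Nr G c z)
    (hx : x ∈ U) (hp : p ∈ U) (ax : Nr G a x) (bp : Nr G b p) (xp : G.Adj x p)
    (tx : ¬ Nr G t x) (tp : ¬ Nr G t p) : GoodC G k U a b c := by
  by_contra hcon
  have K := (ap0 h C ht ct bt far hx hp ax bp xp tx tp).resolve_left hcon
  have ca := C.ac a C.ha Nr.rfl
  have pY : p ∈ rem G U {t, c} := mem_al.2 ⟨hp, tp, C.bc p hp bp⟩
  have bY : b ∉ rem G U {t, c} := fun hh => (mem_al.1 hh).2.1 bt.symm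
  have one : ∀ z ∈ U, Nr G p z → z ∉ rem G U {t, c} → z = b := fun z hz e1 e2 =>
    one_out h (rem_sub _ _) pY (K.deg p pY) hz C.hb e1 bp.symm e2 bY
  obtain ⟨u, hu, au, tu⟩ : ∃ u ∈ U, Nr G a u ∧ Nr G t u := by
    by_contra hh
    push Not at hh
    refine tp (full_sub h C.hb ct (fun z hz e => ?_) hp bp)
    exact ((C.cov z hz).resolve_left fun e1 => hh z hz e1 e).resolve_right (far z hz e)
  have K2 := (ap0 h C hp (full_of h (rem_sub _ _) pY (K.deg p pY) C.hb bp.symm bY) bp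
    (fun z hz e => by
      by_cases hzY : z ∈ rem G U {t, c}
      exacts [(mem_al.1 hzY).2.2, one z hz e hzY ▸ C.bc b C.hb Nr.rfl]) hu ht au bt
    (tu.symm.adj fun e => C.ab u hu au (e ▸ bt))
    (fun e => C.ab u hu au (one u hu e (fun hh => (mem_al.1 hh).2.1 tu) ▸ Nr.rfl))
    fun e => tp e.symm).resolve_left hcon
  obtain ⟨e, he, e1⟩ : ∃ e ∈ cn G U b, e ∉ ({b, p, t} : Finset V) :=
    exists_mem_notMem_of_card_lt_card (by
      have := card_le_three (a := b) (b := p) (c := t)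
      have := C.cb
      have := h.hk
      omega)
  rw [mem_cn] at he
  simp only [mem_insert, mem_singleton, not_or] at e1
  have ae : ¬ Nr G a e := fun e2 => C.ab e he.1 e2 he.2
  have ce := C.bc e he.1 he.2
  have te : e ∉ rem G U {t, c} := fun hh => e1.2.1 (K.non a (mem_al.2 ⟨C.ha,
    fun e2 => C.ab t ht e2.symm bt, ca⟩) e hh p pY ae fun e2 => C.ab p hp e2 bp)
  refine e1.1 (one e he.1 ?_ te)
  by_contra pe
  exact e1.2.2 (K2.non a (mem_al.2 ⟨C.ha, fun e2 => C.ab p hp e2.symm bp, ca⟩) e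
    (mem_al.2 ⟨he.1, pe, ce⟩) t (mem_al.2 ⟨ht, fun e2 => tp e2.symm, C.bc t ht bt⟩) ae
    fun e2 => C.ab t ht e2 bt)

theorem ap {U : Finset V} (h : Low G k U) {a b c x p : V} (C : Code G k U a b c)
    (hx : x ∈ U) (hp : p ∈ U) (ax : Nr G a x) (bp : Nr G b p) (xp : G.Adj x p)
    (np : ∀ y ∈ cn G U b, Clq G k ((cn G U b).erase y) →
      ¬ NA G ((cn G U b).erase y) (cn G U a)) : GoodC G k U a b c := by
  have xa : x ≠ a := fun e => C.ab p hp (e ▸ Nr.of xp) bp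
  rcases h.ob x c with ⟨t, ht, ct, hf⟩ | ⟨T, K⟩
  · refine ap1 h C ht ct ?_ (fun z hz e => (hf z hz e).2) hx hp ax bp xp
      (fun e => (hf x hx e).1 Nr.rfl) fun e => (hf p hp e).1 (Nr.of xp)
    rcases C.cov t ht with e | e | e
    exacts [absurd ax.symm (hf a C.ha e.symm).1, e, absurd e (hf t ht Nr.rfl).2]
  have aT := K.d1 ax.symm
  have xT := K.d1 (z := x) Nr.rfl
  have pT := K.d1 (Nr.of xp)
  by_cases hs : ∃ s ∈ T, Nr G a s
  · obtain ⟨s, hs, as⟩ := hs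
    have one : ∀ z ∈ U, Nr G s z → z ∉ T → z = a := fun z hz e1 e2 =>
      K.one hs hz C.ha e1 as.symm e2 aT
    refine GoodC.symm h C (ap1 h C.s12 (K.subU hs)
      (full_of h K.subU hs (K.deg s hs) C.ha as.symm aT) as (fun z hz e => ?_) hp hx bp ax xp.symm
      (fun e => C.ab p hp (one p hp e pT ▸ Nr.rfl) bp) fun e => xa (one x hx e xT))
    by_cases hzT : z ∈ T
    exacts [(K.sub z hzT).2.2, one z hz e hzT ▸ C.ac a C.ha Nr.rfl]
  push Not at hs
  obtain ⟨e1, q⟩ := K.clq C.hb (fun t ht => ((C.cov t (K.subU ht)).resolve_left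
    (hs t ht)).resolve_right (K.sub t ht).2.2) hp bp pT
  have := np p (mem_cn.2 ⟨hp, bp⟩) (e1 ▸ q)
  simp only [NA, not_forall, not_not] at this
  obtain ⟨t, ht, u, hu, tu⟩ := this
  rw [← e1] at ht
  rw [mem_cn] at hu
  have uT : u ∉ T := fun hh => hs u hh hu.2
  have one : ∀ z ∈ U, Nr G t z → z ∉ T → z = u := fun z hz e1 e2 =>
    K.one ht hz hu.1 e1 (Nr.of tu) e2 uT
  refine ap1 h C (K.subU ht) (full_of h K.subU ht (K.deg t ht) hu.1 (Nr.of tu) uT)
    (((C.cov t (K.subU ht)).resolve_left (hs t ht)).resolve_right (K.sub t ht).2.2)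
    (fun z hz e => ?_) hx hp ax bp xp (fun e => (K.sub t ht).2.1 e.symm)
    fun e => C.ab p hp (one p hp e pT ▸ hu.2) bp
  by_cases hzT : z ∈ T
  exacts [(K.sub z hzT).2.2, one z hz e hzT ▸ C.ac u hu.1 hu.2]

end Pool.Agent.IsoKer
end

-- merged part: Pool.Agent.Work.MP_1346a1_co.ZeroC
section
/-! Two codes of a pair: off-diagonal vertices have no neighbour in the third block. -/

namespace Pool.Agent.IsoKer

open Finset
open scoped Classical

variable {V : Type*} {G : SimpleGraph V} {k : ℕ}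

/-- Two codes with a common vertex `c` and an off-diagonal vertex `z` adjacent to `w` near `c`. -/
structure Two (G : SimpleGraph V) (k : ℕ) (U : Finset V) (a b a' b' c z w : V) : Prop where
  low : Low G k U
  C : Code G k U a b c
  D : Code G k U a' b' c
  na : Nr G a a'
  nb : Nr G b b'
  hz : z ∈ U
  hw : w ∈ U
  az : Nr G a z
  bz : Nr G b' z
  cw : Nr G c w
  zw : G.Adj z w

namespace Two

variable {U : Finset V} {a b a' b' c z w : V}

theorem flip (h : Two G k U a b a' b' c z w) : Two G k U b' a' b a c z w :=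
  ⟨h.low, h.D.s12, h.C.s12, h.nb.symm, h.na.symm, h.hz, h.hw, h.bz, h.az, h.cw, h.zw⟩

theorem n1 (h : Two G k U a b a' b' c z w) : a ≠ a' := fun e => h.D.ab z h.hz (e ▸ h.az) h.bz

theorem n2 (h : Two G k U a b a' b' c z w) : b ≠ b' := fun e => h.C.ab z h.hz h.az (e ▸ h.bz)

theorem n3 (h : Two G k U a b a' b' c z w) : a ≠ b' :=
  fun e => h.C.ab a h.C.ha Nr.rfl (e ▸ h.nb)

theorem n4 (h : Two G k U a b a' b' c z w) : b ≠ a' :=
  fun e => h.C.ab b h.C.hb (e ▸ h.na) Nr.rfl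

theorem n5 (h : Two G k U a b a' b' c z w) : c ≠ w :=
  fun e => h.C.ac z h.hz h.az (e ▸ Nr.of h.zw.symm)

theorem ex (h : Two G k U a b a' b' c z w) : ∃ x ∈ U, Nr G b x ∧ Nr G a' x :=
  cells h.low h.C.s12 h.D.s12 h.hz h.az h.bz

theorem od1 (h : Two G k U a b a' b' c z w) {x : V} (hx : x ∈ U) (bx : Nr G b x)
    (ax : Nr G a' x) : ∃ f ∈ U, (cn G U f).card = k + 1 ∧ Nr G a f ∧ Nr G b' f ∧
      ∀ e ∈ U, Nr G f e → ¬ Nr G x e ∧ ¬ Nr G w e := by
  have C := h.C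
  have D := h.D
  rcases h.low.ob x w with ⟨f, hf, cf, H⟩ | ⟨T, K⟩
  · have cf' : ¬ Nr G c f := fun e => (H c C.hc e.symm).2 h.cw.symm
    exact ⟨f, hf, cf, (C.cov f hf).resolve_right
      (not_or.2 ⟨fun e => (H b C.hb e.symm).1 bx.symm, cf'⟩), ((D.cov f hf).resolve_left
      fun e => (H a' D.ha e.symm).1 ax.symm).resolve_right cf', H⟩
  exfalso
  have zT := K.d2 (Nr.of h.zw.symm)
  have h1 : ∀ t ∈ T, ¬ Nr G a t := fun t ht e => D.ab z h.hz (K.one (K.cl t ht a C.ha e.symm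
    (fun e1 => C.ab x hx e1.symm bx) fun e1 => C.ac w h.hw e1.symm h.cw) D.ha h.hz h.na h.az
    (K.d1 ax.symm) zT ▸ Nr.rfl) h.bz
  have h2 : ∀ t ∈ T, ¬ Nr G b' t := fun t ht e => C.ab z h.hz h.az (K.one (K.cl t ht b' D.hb e.symm
    (fun e1 => D.ab x hx ax e1.symm) fun e1 => D.bc w h.hw e1.symm h.cw) C.hb h.hz h.nb.symm h.bz
    (K.d1 bx.symm) zT ▸ Nr.rfl)
  refine K.small C.hc (fun t ht => ?_) C.hc h.hw Nr.rfl h.cw h.n5 (K.d2 h.cw.symm) (K.d2 Nr.rfl)
  by_contra ct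
  have hU := K.subU ht
  exact h.n4 (K.one ht C.hb D.ha (((C.cov t hU).resolve_left (h1 t ht)).resolve_right ct).symm
    ((D.cov t hU).resolve_right (not_or.2 ⟨h2 t ht, ct⟩)).symm (K.d1 bx.symm) (K.d1 ax.symm))

theorem odE (h : Two G k U a b a' b' c z w) :
    ∃ y ∈ U, Nr G b y ∧ Nr G b' y ∧ y ≠ b ∧ y ≠ b' := by
  by_contra hcon
  push Not at hcon
  have C := h.C
  have D := h.D
  obtain ⟨x, hx, bx, ax⟩ := h.ex
  have key : ∀ y ∈ U, Nr G b y → ¬ Nr G a' y → y ≠ b → y = b' := fun y hy e1 e2 =>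
    hcon y hy e1 (((D.cov y hy).resolve_left e2).resolve_right (C.bc y hy e1))
  rcases h.low.ob a' w with ⟨f, hf, -, H⟩ | ⟨T, K⟩
  · have bf := ((C.cov f hf).resolve_left fun e => (H a C.ha e.symm).1 h.na.symm).resolve_right
      fun e => (H c C.hc e.symm).2 h.cw.symm
    by_cases e : f = b
    · exact (H x hx (e ▸ bx)).1 ax
    · exact (H z h.hz (key f hf bf (H f hf Nr.rfl).1 e ▸ h.bz)).2 (Nr.of h.zw.symm)
  have bT : b ∉ T := fun hh => K.lone hh (e := b') fun y hy e =>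
    key y (K.subU hy) (Nr.of e) (K.sub y hy).2.1 e.ne.symm
  have bT' : b' ∉ T := fun hh => bT (K.cl b' hh b C.hb h.nb.symm
    (fun e => C.ab a' D.ha h.na e.symm) fun e => C.bc w h.hw e.symm h.cw)
  refine K.small C.hc (fun t ht => ((D.cov t (K.subU ht)).resolve_left
    (K.sub t ht).2.1).resolve_left fun e => bT' ?_) C.hc h.hw Nr.rfl h.cw h.n5 (K.d2 h.cw.symm)
    (K.d2 Nr.rfl)
  exact K.cl t ht b' D.hb e.symm (fun e1 => D.ab b' D.hb e1 Nr.rfl)
    fun e1 => D.bc w h.hw e1.symm h.cw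

theorem side (h : Two G k U a b a' b' c z w) {f g e : V} (E : Code G k U f g e) (bg : Nr G b g)
    (ag : Nr G a' g) (hg : ∀ y ∈ U, Nr G g y → ¬ Nr G z y ∧ ¬ Nr G c y) (af : Nr G a f)
    (bf : Nr G b' f) (ce : Nr G c e) (ez : Nr G e z) :
    (∀ y ∈ U, Nr G a' y → y ≠ a → Nr G g y) ∨ Clq G k ((cn G U c).erase e) := by
  have C := h.C
  have D := h.D
  rcases h.low.ob z b' with ⟨t, ht, -, H⟩ | ⟨T, K⟩
  · exact absurd (((C.cov t ht).resolve_left fun e1 => (H a C.ha e1.symm).1 h.az.symm).resolve_left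
      fun e1 => (H b C.hb e1.symm).2 h.nb.symm) (hg t ht (((E.cov t ht).resolve_left
      fun e1 => (H f E.ha e1.symm).2 bf).resolve_right fun e1 => (H e E.hc e1.symm).1 ez.symm)).2
  have aT := K.d1 h.az.symm
  have eT := K.d1 ez.symm
  have bT := K.d2 h.nb.symm
  have fT := K.d2 bf
  have key : ∀ t ∈ T, ¬ Nr G c t → Nr G g t := by
    intro t ht ct
    by_contra gt
    have hU := K.subU ht
    rcases C.cov t hU with e1 | e1 | e1 <;> rcases E.cov t hU with e2 | e2 | e2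
    · exact D.ab a C.ha h.na.symm (K.one ht C.ha E.ha e1.symm e2.symm aT fT ▸ bf)
    · exact gt e2
    · exact C.ac a C.ha Nr.rfl (K.one ht C.ha E.hc e1.symm e2.symm aT eT ▸ ce)
    · exact C.ab b C.hb (K.one ht C.hb E.ha e1.symm e2.symm bT fT ▸ af) Nr.rfl
    · exact gt e2
    · exact C.bc b C.hb Nr.rfl (K.one ht C.hb E.hc e1.symm e2.symm bT eT ▸ ce)
    all_goals exact ct e1
  by_cases hT : ∃ t ∈ T, Nr G g t
  · obtain ⟨t, ht, gt⟩ := hT
    have gT := K.cl t ht g E.hb gt.symm (hg g E.hb Nr.rfl).1 (D.ab g E.hb ag)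
    have aT' := K.rest gT C.hb D.ha bg.symm bT ag.symm h.n4.symm
    exact Or.inl fun y hy e1 e2 => key y (K.rest aT' C.ha hy h.na.symm aT e1 e2) (D.ac y hy e1)
  · push Not at hT
    obtain ⟨e1, q⟩ := K.clq C.hc (fun t ht => by
      by_contra ct
      exact hT t ht (key t ht ct)) E.hc ce eT
    exact Or.inr (e1 ▸ q)

theorem odK (h : Two G k U a b a' b' c z w) {f g e : V} (E : Code G k U f g e)
    (hg : ∀ y ∈ U, Nr G g y → ¬ Nr G c y) (af : Nr G a f) (bf : Nr G b' f) (ce : Nr G c e)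
    (ez : Nr G e z) (q : Clq G k ((cn G U c).erase e)) : False := by
  have C := h.C
  have hk := h.low.hk
  set Q := (cn G U c).erase e with hQ
  have memQ : ∀ y, y ∈ Q ↔ y ≠ e ∧ y ∈ U ∧ Nr G c y := fun y => by rw [hQ, mem_erase, mem_cn]
  have hQU : Q ⊆ U := fun y hy => ((memQ y).1 hy).2.1
  have fy : ∀ y ∈ U, Nr G c y → ¬ Nr G e y → Nr G f y := fun y hy e1 e2 =>
    (E.cov y hy).resolve_right (not_or.2 ⟨fun e3 => hg y hy e3 e1, e2⟩)
  have nce : c ≠ e := fun e1 => C.ac z h.hz h.az (e1 ▸ ez)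
  rcases h.low.ob e b with ⟨t, ht, ct, H⟩ | ⟨T, K⟩
  · have at' := (C.cov t ht).resolve_right (not_or.2 ⟨(H t ht Nr.rfl).2,
      fun e1 => (H c C.hc e1.symm).1 ce.symm⟩)
    by_cases e1 : f = t
    · exact (H b' h.D.hb (e1 ▸ bf.symm)).2 h.nb
    refine (H z h.hz (full_sub h.low C.ha ct (fun y hy e2 => ?_) h.hz h.az)).1 ez
    refine (C.cov y hy).resolve_right (not_or.2 ⟨(H y hy e2).2, fun e3 => e1 ?_⟩)
    have hyQ : y ∈ Q := (memQ y).2 ⟨fun e4 => (H y hy e2).1 (e4 ▸ Nr.rfl), hy, e3⟩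
    exact one_out h.low hQU hyQ ((q.sp (by omega)).2.2 y hyQ).ge E.ha ht
      (fy y hy e3 (H y hy e2).1).symm e2.symm (fun hh => C.ac f E.ha af ((memQ f).1 hh).2.2)
      fun hh => C.ac t ht at' ((memQ t).1 hh).2.2
  have cT := K.d1 ce.symm
  by_cases hT : ∃ t ∈ T, Nr G a t
  swap
  · push Not at hT
    exact K.small C.hc (fun t ht => ((C.cov t (K.subU ht)).resolve_left (hT t ht)).resolve_left
      (K.sub t ht).2.2) C.hc E.hc Nr.rfl ce nce cT (K.d1 Nr.rfl)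
  obtain ⟨t, ht, at'⟩ := hT
  have aT := K.cl t ht a C.ha at'.symm (E.ac a C.ha af.symm) (C.ab a C.ha Nr.rfl)
  have fT := K.rest aT h.hz E.ha h.az (K.d1 ez) af fun e1 => E.ac f E.ha Nr.rfl (e1 ▸ ez)
  obtain ⟨u, hu, cu, fu⟩ : ∃ u ∈ U, Nr G c u ∧ Nr G f u := by
    by_contra hh
    push Not at hh
    refine C.ac z h.hz h.az (full_sub h.low E.hc C.cc (fun y hy e1 => ?_) h.hz ez)
    by_contra e2
    exact hh y hy e1 (fy y hy e1 e2)
  have uT := K.rest fT h.D.hb hu bf.symm (K.d2 h.nb) fu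
    fun e1 => h.D.bc u hu (e1 ▸ Nr.rfl) cu
  have uQ : u ∈ Q := (memQ u).2 ⟨fun e1 => E.ac u hu fu (e1 ▸ Nr.rfl), hu, cu⟩
  have hs : Q.erase c ⊆ cn G U f := fun y hy => by
    rw [mem_erase, memQ] at hy
    refine mem_cn.2 ⟨hy.2.2.1, fy y hy.2.2.1 hy.2.2.2 fun e1 => hy.1 ?_⟩
    exact K.one uT hy.2.2.1 C.hc (Nr.of (q.2 u uQ y ((memQ y).2 hy.2)
      fun e2 => K.d1 e1 (e2 ▸ uT))) cu.symm (K.d1 e1) cT
  have nQ : ∀ y ∈ U, ¬ Nr G c y → y ∉ Q.erase c := fun y _ e1 hh =>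
    e1 ((memQ y).1 (mem_of_mem_erase hh)).2.2
  have := card_add_three_le hs (mem_cn.2 ⟨E.ha, Nr.rfl⟩) (mem_cn.2 ⟨C.ha, af.symm⟩)
    (mem_cn.2 ⟨h.D.hb, bf.symm⟩) (fun e1 => h.D.ab a C.ha h.na.symm (e1 ▸ bf))
    (fun e1 => C.ab f E.ha af (e1 ▸ h.nb)) h.n3 (nQ f E.ha (C.ac f E.ha af))
    (nQ a C.ha (C.ac a C.ha Nr.rfl)) (nQ b' h.D.hb (h.D.bc b' h.D.hb Nr.rfl))
  rw [card_erase_of_mem ((memQ c).2 ⟨nce, C.hc, Nr.rfl⟩), q.1, E.ca] at this
  omega

theorem odg (h : Two G k U a b a' b' c z w) {g : V} (hgU : g ∈ U)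
    (cg : (cn G U g).card = k + 1) (hg : ∀ y ∈ U, Nr G g y → ¬ Nr G z y ∧ ¬ Nr G c y) :
    False := by
  have C := h.C
  have D := h.D
  have cg' := (hg g hgU Nr.rfl).2
  have bg := ((C.cov g hgU).resolve_left fun e => (hg a C.ha e.symm).1 h.az.symm).resolve_right cg'
  have ag := (D.cov g hgU).resolve_right
    (not_or.2 ⟨fun e => (hg b' D.hb e.symm).1 h.bz.symm, cg'⟩)
  obtain ⟨f, hf, cf, af, bf, H⟩ := h.od1 hgU bg ag
  have fz : ¬ Nr G f z := fun e => (H z h.hz e).2 (Nr.of h.zw.symm)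
  have gz : ¬ Nr G g z := fun e => (hg z h.hz e).1 Nr.rfl
  have fc : ¬ Nr G f c := fun e => C.ac f hf af e.symm
  have gc : ¬ Nr G g c := fun e => cg' e.symm
  have zY : z ∈ rem G U {f, g} := mem_al.2 ⟨h.hz, fz, gz⟩
  rcases h.low.third hf hgU cf cg (fun y hy e => (H y hy e).1) zY (mem_al.2 ⟨C.hc, fc, gc⟩)
    (mem_al.2 ⟨h.hw, fun e => (H w h.hw e).2 Nr.rfl, fun e => (hg w h.hw e).2 h.cw⟩)
    (fun e => C.ac z h.hz h.az e.symm) h.zw.symm (h.cw.symm.adj h.n5.symm) with ⟨e, E⟩ | K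
  swap
  · exact h.n3 (one_out h.low (rem_sub _ _) zY (K.deg z zY) C.ha D.hb h.az.symm h.bz.symm
      (fun hh => (mem_al.1 hh).2.1 af.symm) fun hh => (mem_al.1 hh).2.1 bf.symm)
  have ce := (((E.cov c C.hc).resolve_left fc).resolve_left gc).symm
  have ez := ((E.cov z h.hz).resolve_left fz).resolve_left gz
  have fin := h.odK E (fun y hy e1 => (hg y hy e1).2) af bf ce ez
  have s1 := (h.side E bg ag hg af bf ce ez).resolve_right fin
  have s2 := (h.flip.side E ag bg hg bf af ce ez).resolve_right fin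
  obtain ⟨y, hy, y1, y2, y3, y4⟩ := h.odE
  have := card_add_two_le (T := (cn G U a').erase a) (A := cn G U g) (fun x hx => by
      rw [mem_erase, mem_cn] at hx
      exact mem_cn.2 ⟨hx.2.1, s1 x hx.2.1 hx.2.2 hx.1⟩)
    (mem_cn.2 ⟨C.hb, bg.symm⟩) (mem_cn.2 ⟨hy, s2 y hy y1 y4⟩) y3.symm
    (fun hh => D.ab b C.hb (mem_cn.1 (mem_of_mem_erase hh)).2 h.nb.symm)
    fun hh => D.ab y hy (mem_cn.1 (mem_of_mem_erase hh)).2 y2
  rw [card_erase_of_mem (mem_cn.2 ⟨C.ha, h.na.symm⟩), D.ca, cg] at this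
  omega

theorem odT0 (h : Two G k U a b a' b' c z w) {T : Finset V} (K : Core G k U z c T) :
    (∀ y ∈ U, Nr G b y → y ≠ b' → y ∈ T) ∧ ∀ y ∈ U, Nr G a' y → y ≠ a → y ∈ T := by
  have C := h.C
  have D := h.D
  have aT := K.d1 h.az.symm
  have bT := K.d1 h.bz.symm
  obtain ⟨x, hx, bx, ax⟩ := h.ex
  have c1 : ∀ t ∈ T, Nr G b t → b ∈ T := fun t ht e => K.cl t ht b C.hb e.symm
    (fun e1 => C.ab z h.hz h.az e1.symm) (C.bc b C.hb Nr.rfl)
  have c2 : ∀ t ∈ T, Nr G a' t → a' ∈ T := fun t ht e => K.cl t ht a' D.ha e.symm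
    (fun e1 => D.ab z h.hz e1.symm h.bz) (D.ac a' D.ha Nr.rfl)
  have r1 : b ∈ T → ∀ y ∈ U, Nr G b y → y ≠ b' → y ∈ T := fun hb y hy e =>
    K.rest hb D.hb hy h.nb bT e
  have r2 : a' ∈ T → ∀ y ∈ U, Nr G a' y → y ≠ a → y ∈ T := fun ha y hy e =>
    K.rest ha C.ha hy h.na.symm aT e
  have xT : x ∈ T := by
    obtain ⟨t, ht⟩ := K.ne
    have hU := K.subU ht
    by_cases e1 : Nr G b t
    · exact r1 (c1 t ht e1) x hx bx fun e => D.ab x hx ax (e ▸ Nr.rfl)
    by_cases e2 : Nr G a' t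
    · exact r2 (c2 t ht e2) x hx ax fun e => C.ab x hx (e ▸ Nr.rfl) bx
    exact absurd (K.one ht C.ha D.hb ((C.cov t hU).resolve_right
      (not_or.2 ⟨e1, (K.sub t ht).2.2⟩)).symm (((D.cov t hU).resolve_left e2).resolve_right
      (K.sub t ht).2.2).symm aT bT) h.n3
  exact ⟨r1 (c1 x xT bx), r2 (c2 x xT ax)⟩

theorem odT (h : Two G k U a b a' b' c z w) {T : Finset V} (K : Core G k U z c T) :
    (∃ f ∈ U, Nr G a f ∧ Nr G b' f ∧ ∃ u ∈ U, ∃ u' ∈ U, u ≠ u' ∧ Nr G c u ∧ Nr G c u' ∧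
      Nr G f u ∧ Nr G f u') ∧ ∃ y ∈ U, Nr G b y ∧ Nr G a' y ∧ ∃ e ∈ U, Nr G c e ∧ G.Adj y e := by
  have C := h.C
  have D := h.D
  obtain ⟨r1, r2⟩ := h.odT0 K
  have aT := K.d1 h.az.symm
  have bT := K.d1 h.bz.symm
  obtain ⟨x, hx, bx, ax⟩ := h.ex
  obtain ⟨f, hf, cf, af, bf, H⟩ := h.od1 hx bx ax
  set O := (cn G U b').filter (Nr G a) with hO
  have memO : ∀ y, y ∈ O ↔ (y ∈ U ∧ Nr G b' y) ∧ Nr G a y := fun y => by
    rw [hO, mem_filter, mem_cn]
  have hOc : O.card + 2 ≤ k := by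
    obtain ⟨y, hy, y1, y2, y3, y4⟩ := h.odE
    have nO : ∀ y ∈ U, Nr G b y → y ∉ O := fun y hy e hh => C.ab y hy ((memO y).1 hh).2 e
    have := card_add_three_le (T := O) (filter_subset _ _) (mem_cn.2 ⟨hy, y2⟩)
      (mem_cn.2 ⟨C.hb, h.nb.symm⟩) (mem_cn.2 ⟨D.hb, Nr.rfl⟩) y3 y4 h.n2 (nO y hy y1)
      (nO b C.hb Nr.rfl) (nO b' D.hb h.nb)
    have := D.cb
    omega
  have fz : ¬ Nr G f z := fun e => (H z h.hz e).2 (Nr.of h.zw.symm)
  have fT : ∀ y ∈ T, ¬ Nr G f y := fun y hy e => h.n3 (K.one (K.cl y hy f hf e.symm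
    (fun e1 => fz e1.symm) (C.ac f hf af)) C.ha D.hb af.symm bf.symm aT bT)
  have hs : cn G U f ⊆ insert a (insert b' (cn G U c ∩ cn G U f ∪ O ∩ cn G U f)) := by
    intro y hy
    have hy' := mem_cn.1 hy
    simp only [mem_insert, mem_union, mem_inter, hy, and_true, memO]
    by_cases e1 : Nr G c y
    · exact Or.inr (Or.inr (Or.inl (mem_cn.2 ⟨hy'.1, e1⟩)))
    by_cases e2 : Nr G b y
    · exact Or.inr (Or.inl (by_contra fun e3 => fT y (r1 y hy'.1 e2 e3) hy'.2))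
    by_cases e3 : Nr G a' y
    · exact Or.inl (by_contra fun e4 => fT y (r2 y hy'.1 e3 e4) hy'.2)
    exact Or.inr (Or.inr (Or.inr ⟨⟨hy'.1, ((D.cov y hy'.1).resolve_left e3).resolve_right e1⟩,
      (C.cov y hy'.1).resolve_right (not_or.2 ⟨e2, e1⟩)⟩))
  have h1 := card_le_card hs
  have h2 := card_insert_le a (insert b' (cn G U c ∩ cn G U f ∪ O ∩ cn G U f))
  have h3 := card_insert_le b' (cn G U c ∩ cn G U f ∪ O ∩ cn G U f)
  have h4 := card_union_le (cn G U c ∩ cn G U f) (O ∩ cn G U f)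
  have h5 := card_add_one_le (T := O ∩ cn G U f) inter_subset_left
    ((memO z).2 ⟨⟨h.hz, h.bz⟩, h.az⟩) fun hh => fz (mem_cn.1 (mem_inter.1 hh).2).2
  obtain ⟨u, hu, u', hu', n⟩ := one_lt_card.1 (show 1 < (cn G U c ∩ cn G U f).card by omega)
  simp only [mem_inter, mem_cn] at hu hu'
  refine ⟨⟨f, hf, af, bf, u, hu.1.1, u', hu'.1.1, n, hu.1.2, hu'.1.2, hu.2.2, hu'.2.2⟩, ?_⟩
  rcases h.low.ob f x with ⟨e, he, ce, J⟩ | ⟨T', K'⟩
  · have ce' := ((C.cov e he).resolve_left fun e1 => (J a C.ha e1.symm).1 af.symm).resolve_left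
      fun e1 => (J b C.hb e1.symm).2 bx.symm
    by_contra hcon
    push Not at hcon
    have hs2 : cn G U e ⊆ cn G U c \ cn G U f ∪ O \ cn G U f := by
      intro y hy
      rw [mem_cn] at hy
      have h6 := (J y hy.1 hy.2).1
      have h7 : y ∉ cn G U f := fun hh => h6 (mem_cn.1 hh).2
      by_cases e1 : Nr G c y
      · exact mem_union_left _ (mem_sdiff.2 ⟨mem_cn.2 ⟨hy.1, e1⟩, h7⟩)
      refine mem_union_right _ (mem_sdiff.2 ⟨(memO y).2 ?_, h7⟩)
      have ya := ((C.cov y hy.1).resolve_right fun e2 => by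
        have e3 := e2.resolve_right e1
        by_cases e4 : Nr G a' y
        · exact hcon y hy.1 e3 e4 e he ce' (hy.2.symm.adj fun e5 => e1 (e5 ▸ ce'))
        · exact D.bc e he (K.one (r1 y hy.1 e3 fun e5 => h6 (e5 ▸ bf.symm)) D.hb he
            (((D.cov y hy.1).resolve_left e4).resolve_right e1).symm hy.2.symm bT
            (K.d2 ce') ▸ Nr.rfl) ce')
      refine ⟨⟨hy.1, ((D.cov y hy.1).resolve_left fun e4 => ?_).resolve_right e1⟩, ya⟩
      exact C.ac e he (K.one (r2 y hy.1 e4 fun e5 => h6 (e5 ▸ af.symm)) C.ha he ya.symm hy.2.symm aT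
        (K.d2 ce') ▸ Nr.rfl) ce'
    have := card_le_card hs2
    have := card_union_le (cn G U c \ cn G U f) (O \ cn G U f)
    have := card_sdiff_add_card_inter (cn G U c) (cn G U f)
    have := card_sdiff_add_card_inter O (cn G U f)
    have := C.cc
    omega
  · exfalso
    obtain ⟨t, ht⟩ := K'.ne
    have hU := K'.subU ht
    have d1 := K'.d1 af.symm
    have d2 := K'.d1 bf.symm
    have d3 := K'.d2 bx.symm
    have d4 := K'.d2 ax.symm
    have ct : Nr G c t := by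
      by_contra ct
      rcases C.cov t hU with e1 | e1 | e1 <;> rcases D.cov t hU with e2 | e2 | e2
      exacts [h.n1 (K'.one ht C.ha D.ha e1.symm e2.symm d1 d4),
        h.n3 (K'.one ht C.ha D.hb e1.symm e2.symm d1 d2), ct e2,
        h.n4 (K'.one ht C.hb D.ha e1.symm e2.symm d3 d4),
        h.n2 (K'.one ht C.hb D.hb e1.symm e2.symm d3 d2), ct e2, ct e1, ct e1, ct e1]
    exact n (K'.one (K'.cl t ht c C.hc ct.symm (fun e1 => C.ac f hf af e1.symm)
      fun e1 => C.bc x hx bx e1.symm) hu.1.1 hu'.1.1 hu.1.2 hu'.1.2 (K'.d1 hu.2.2) (K'.d1 hu'.2.2))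

theorem od (h : Two G k U a b a' b' c z w) : False := by
  rcases h.low.ob z c with ⟨g, hg, cg, H⟩ | ⟨T, K⟩
  · exact h.odg hg cg H
  obtain ⟨⟨f, hf, af, bf, u, hu, u', hu', n, c1, c2, f1, f2⟩, y, hy, y1, y2, e, he, ce, ye⟩ :=
    h.odT K
  have h' : Two G k U b a b' a' c y e :=
    ⟨h.low, h.C.s12, h.D.s12, h.nb, h.na, hy, he, y1, y2, ce, ye⟩
  rcases h.low.ob y c with ⟨g, hg, cg, H⟩ | ⟨T', K'⟩
  · exact h'.odg hg cg H
  exact n (K'.one ((h'.odT0 K').1 f hf af fun e1 => h.D.ab f hf (e1 ▸ Nr.rfl) bf) hu hu' f1 f2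
    (K'.d2 c1) (K'.d2 c2))

end Two

end Pool.Agent.IsoKer
end

-- merged part: Pool.Agent.Work.MP_1346a1_co.ZeroPL
section
/-! The pair lemma: a tight pair containing a clique with single links. -/

namespace Pool.Agent.IsoKer

open Finset
open scoped Classical

variable {V : Type*} {G : SimpleGraph V} {k : ℕ}

/-- A vertex with `k` living neighbours and one dead neighbour leaves a clique. -/
theorem star_clq {P X : Finset V} {r e : V} (ht : Tight G k 2 P) (hP : P.card = 2 * k + 2)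
    (hr : r ∈ P) (he : e ∈ P) (hre : G.Adj r e) (heX : e ∉ X) (hX : nb G X r ⊆ P)
    (hd : k ≤ (nb G X r).card) :
    Clq G k (rem G P {r}) ∧ ∀ x ∈ P, x ≠ r → x ≠ e → x ∉ X → x ∈ rem G P {r} := by
  have hs : insert e (nb G X r) ⊆ nb G P r := insert_subset (mem_nb.2 ⟨he, hre⟩) fun x hx =>
    mem_nb.2 ⟨hX hx, (mem_nb.1 hx).2⟩
  have h1 := card_le_card hs
  have h2 : (insert e (nb G X r)).card = (nb G X r).card + 1 :=
    card_insert_of_notMem fun hh => heX (mem_nb.1 hh).1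
  have h3 := rem_card (G := G) hr
  have hq := clq_of_not_free (by omega) (ht.nf1 (x := r) subset_rfl)
  have h4 := hq.1
  have h5 : insert e (nb G X r) = nb G P r := eq_of_subset_of_card_le hs (by omega)
  refine ⟨hq, fun x hx h6 h7 h8 => mem_rem1.2 ⟨hx, h6, fun h9 => ?_⟩⟩
  have : x ∈ insert e (nb G X r) := h5 ▸ mem_nb.2 ⟨hx, h9⟩
  rcases mem_insert.1 this with h10 | h10
  exacts [h7 h10, h8 (mem_nb.1 h10).1]

theorem PL (hk : 3 ≤ k) {Q M : Finset V} {v : V} (hQ : Clq G k Q) (hd : Disjoint Q M)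
    (hM : M.card = k + 2) (ht : Tight G k 2 (Q ∪ M)) (hv : v ∈ M)
    (one : ∀ w ∈ Q, ∀ y ∈ M, ∀ y' ∈ M, G.Adj w y → G.Adj w y' → y = y')
    (lv : ∀ w ∈ Q, ∀ y ∈ M, G.Adj w y → G.Adj v y)
    {y1 y2 w1 w2 : V} (hy1 : y1 ∈ M) (hy2 : y2 ∈ M) (hw1 : w1 ∈ Q) (hw2 : w2 ∈ Q) (n : y1 ≠ y2)
    (a1 : G.Adj w1 y1) (a2 : G.Adj w2 y2) :
    ∃ y ∈ M, ∃ t ∈ M, ∃ w ∈ Q, y ≠ t ∧ G.Adj w t ∧ (∀ x ∈ Q, x ≠ w → G.Adj x y) ∧
      (∀ m ∈ M, m ≠ y → m ≠ t → G.Adj t m) ∧ ∀ m ∈ M, G.Adj y m → m = v := by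
  by_contra hcon
  have hne : ∀ x ∈ Q, ∀ m ∈ M, x ≠ m := fun x hx m hm e => disjoint_left.1 hd hx (e ▸ hm)
  have hQc := hQ.1
  have hP : (Q ∪ M).card = 2 * k + 2 := by rw [card_union_of_disjoint hd]; omega
  have h1 : ∀ w ∈ Q, ∀ Z ⊆ M, (nb G Z w).card ≤ 1 := fun w hw Z hZ => card_le_one.2
    fun a ha b hb => one w hw a (hZ (mem_nb.1 ha).1) b (hZ (mem_nb.1 hb).1) (mem_nb.1 ha).2
      (mem_nb.1 hb).2
  have split : ∀ T ⊆ Q ∪ M, ∀ x, (nb G T x).card ≤ (nb G (T ∩ Q) x).card + (nb G (T ∩ M) x).card :=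
    fun T hT x => le_trans (card_le_card fun a ha => by
      rw [mem_nb] at ha
      rcases mem_union.1 (hT ha.1) with h | h
      exacts [mem_union_left _ (mem_nb.2 ⟨mem_inter.2 ⟨ha.1, h⟩, ha.2⟩),
        mem_union_right _ (mem_nb.2 ⟨mem_inter.2 ⟨ha.1, h⟩, ha.2⟩)]) (card_union_le _ _)
  have key : ∀ y ∈ M, ∀ w ∈ Q, G.Adj w y → (∀ w' ∈ Q, G.Adj w' y → w' = w) ∧
      ∃ T ⊆ rem G (Q ∪ M) {y}, (∀ t ∈ T, k ≤ (nb G T t).card + 1) ∧
        ∀ w' ∈ Q, w' ≠ w → ∃ y' ∈ T, y' ∈ M ∧ G.Adj w' y' := by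
    intro y hy w hw hwy
    have hvy := lv w hw y hy hwy
    set X := rem G (Q ∪ M) {y} with hX
    have hXs : X ⊆ Q ∪ M := rem_sub _ _
    have dead : ∀ x, G.Adj y x → x ∉ X := fun x h hx => (mem_rem1.1 hx).2.2 h
    have hyX : y ∉ X := fun hx => (mem_rem1.1 hx).2.1 rfl
    rcases obs (X := X) (ht.nf1 (x := y) subset_rfl) with ⟨r, hr, h2⟩ | ⟨T, hTn, hcl, h2, -⟩
    · exfalso
      rcases mem_union.1 (hXs hr) with hrQ | hrM
      · have := split X hXs r
        have := h1 r hrQ (X ∩ M) inter_subset_right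
        have := card_add_two_le ((nb_sub (G := G) (X ∩ Q) r).trans inter_subset_right) hrQ hw
          (fun e => dead w hwy.symm (e ▸ hr)) (not_mem_nb_self _ _)
          fun hh => dead w hwy.symm (mem_inter.1 (mem_nb.1 hh).1).1
        omega
      by_cases hvr : G.Adj r v
      swap
      · have hs : nb G X r ⊆ M := fun a ha => by
          rw [mem_nb] at ha
          exact (mem_union.1 (hXs ha.1)).resolve_left fun haQ =>
            hvr (lv a haQ r hrM ha.2.symm).symm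
        have := card_add_three_le hs hv hy hrM hvy.ne (fun e => dead v hvy.symm (e ▸ hr))
          (fun e => hyX (e ▸ hr)) (fun hh => dead v hvy.symm (mem_nb.1 hh).1)
          (fun hh => hyX (mem_nb.1 hh).1) (not_mem_nb_self _ _)
        omega
      obtain ⟨hK, hin⟩ := star_clq ht hP (hXs hr) (mem_union_right _ hv) hvr (dead v hvy.symm)
        ((nb_sub _ _).trans hXs) h2
      set K := rem G (Q ∪ M) {r} with hKdef
      have hyr : y ≠ r := fun e => hyX (e ▸ hr)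
      have hyK : y ∈ K := hin y (mem_union_right _ hy) hyr hvy.ne.symm hyX
      have hwK : w ∈ K := hin w (mem_union_left _ hw) (hne w hw r hrM) (hne w hw v hv)
        (dead w hwy.symm)
      have hKM : ∀ m ∈ K, m ∈ M → m = y := fun m hm hmM =>
        one w hw m hmM y hy (hK.2 w hwK m hm (hne w hw m hmM)) hwy
      obtain ⟨w', hw', hw'K⟩ : ∃ w' ∈ Q, w' ∉ K := by
        by_contra hh
        push Not at hh
        have := card_add_one_le (A := K) hh hyK fun h => hne y h y hy rfl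
        have := hK.1
        omega
      have hout : ∀ x ∈ Q ∪ M, x ≠ r → x ∉ K → G.Adj r x := fun x hx h3 h4 => by
        by_contra h5
        exact h4 (mem_rem1.2 ⟨hx, h3, h5⟩)
      refine hcon ⟨y, hy, r, hrM, w', hw', hyr,
        (hout w' (mem_union_left _ hw') (hne w' hw' r hrM) hw'K).symm, fun x hx hxw => ?_,
        fun m hm h3 h4 => hout m (mem_union_right _ hm) h4 fun h5 => h3 (hKM m h5 hm),
        fun m hm hym => ?_⟩
      · refine hK.2 x ?_ y hyK (hne x hx y hy)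
        by_contra hxK
        have hs : K ⊆ insert y Q := fun a ha => by
          rcases mem_union.1 (rem_sub _ _ ha) with h | h
          exacts [mem_insert_of_mem h, mem_insert.2 (Or.inl (hKM a ha h))]
        have := card_add_two_le hs (mem_insert_of_mem hx) (mem_insert_of_mem hw') hxw hxK hw'K
        have := card_insert_le y Q
        have := hK.1
        omega
      · by_contra hmv
        exact hym.ne (hKM m (hin m (mem_union_right _ hm) (fun e => dead m hym (e ▸ hr)) hmv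
          (dead m hym)) hm).symm
    have hTs : T ⊆ Q ∪ M := hcl.1.trans hXs
    obtain ⟨w0, hw0, hw0Q⟩ : ∃ w0 ∈ T, w0 ∈ Q := by
      by_contra hh
      push Not at hh
      have hs : T ⊆ M := fun a ha => (mem_union.1 (hTs ha)).resolve_left (hh a ha)
      have h3 := core_card hTn h2
      have fin : ∀ y' ∈ M, ∀ w' ∈ Q, G.Adj w' y' → y' ≠ y → False := by
        intro y' hy' w' hw' h4 h5
        have h6 : y' ∈ T := by
          by_contra h7
          have := card_add_three_le hs hv hy hy' hvy.ne (lv w' hw' y' hy' h4).ne h5.symm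
            (fun h => dead v hvy.symm (hcl.1 h)) (fun h => hyX (hcl.1 h)) h7
          omega
        exact hh w' (hcl.2 y' h6 w' (mem_rem1.2 ⟨mem_union_left _ hw', hne w' hw' y hy,
          fun h => h5 (one w' hw' y' hy' y hy h4 h.symm)⟩) h4.symm) hw'
      by_cases e : y1 = y
      exacts [fin y2 hy2 w2 hw2 a2 fun e2 => n (e.trans e2.symm), fin y1 hy1 w1 hw1 a1 e]
    have hwT : ∀ x, G.Adj x y → x ∉ T := fun x h hx => dead x h.symm (hcl.1 hx)
    have uniq : ∀ w' ∈ Q, G.Adj w' y → w' = w := by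
      intro w' hw' h3
      by_contra h4
      have := split T hTs w0
      have := h1 w0 hw0Q (T ∩ M) inter_subset_right
      have := card_add_three_le ((nb_sub (G := G) (T ∩ Q) w0).trans inter_subset_right) hw0Q hw hw'
        (fun e => hwT w hwy (e ▸ hw0)) (fun e => hwT w' h3 (e ▸ hw0)) (Ne.symm h4)
        (not_mem_nb_self _ _) (fun hh => hwT w hwy (mem_inter.1 (mem_nb.1 hh).1).1)
        fun hh => hwT w' h3 (mem_inter.1 (mem_nb.1 hh).1).1
      have := h2 w0 hw0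
      omega
    refine ⟨uniq, T, hcl.1, h2, fun w' hw' hww => ?_⟩
    have hw'T : w' ∈ T := by
      by_cases e : w0 = w'
      · exact e ▸ hw0
      · exact hcl.2 w0 hw0 w' (mem_rem1.2 ⟨mem_union_left _ hw', hne w' hw' y hy,
          fun h => hww (uniq w' hw' h.symm)⟩) (hQ.2 w0 hw0Q w' hw' e)
    have := split T hTs w'
    have := card_add_two_le ((nb_sub (G := G) (T ∩ Q) w').trans inter_subset_right) hw' hw hww
      (not_mem_nb_self _ _) fun hh => hwT w hwy (mem_inter.1 (mem_nb.1 hh).1).1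
    have := h2 w' hw'T
    obtain ⟨y', hy'⟩ : (nb G (T ∩ M) w').Nonempty := card_pos.1 (by omega)
    rw [mem_nb, mem_inter] at hy'
    exact ⟨y', hy'.1.1, hy'.1.2, hy'.2⟩
  have hall : ∀ w ∈ Q, ∃ y ∈ M, G.Adj w y := by
    intro w hw
    by_cases e : w = w1
    · exact ⟨y1, hy1, e ▸ a1⟩
    · obtain ⟨-, T, -, -, h3⟩ := key y1 hy1 w1 hw1 a1
      obtain ⟨y, -, h4, h5⟩ := h3 w hw e
      exact ⟨y, h4, h5⟩
  choose! f hf1 hf2 using hall
  have hL : (Q.image f).card = k := by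
    rw [card_image_of_injOn, hQc]
    intro a ha b hb e
    exact (key _ (hf1 b hb) b hb (hf2 b hb)).1 a ha (e ▸ hf2 a ha)
  have hLs : insert v (Q.image f) ⊆ M := insert_subset hv (image_subset_iff.2 hf1)
  have hvL : v ∉ Q.image f := fun hh => by
    obtain ⟨w, hw, e⟩ := mem_image.1 hh
    exact (lv w hw _ (hf1 w hw) (hf2 w hw)).ne e.symm
  have fin : ∀ y ∈ M, ∀ w ∈ Q, G.Adj w y → ∀ y' ∈ M, ∀ w' ∈ Q, G.Adj w' y' → y ≠ y' →
      ∃ x ∈ M, x ∉ insert v (Q.image f) ∧ ¬ G.Adj y x ∧ G.Adj y' x := by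
    intro y hy w hw hwy y' hy' w' hw' hwy' hyy
    have memT : ∀ y ∈ M, ∀ w ∈ Q, G.Adj w y → y ≠ y' → ∀ T : Finset V,
        (∀ w' ∈ Q, w' ≠ w → ∃ y' ∈ T, y' ∈ M ∧ G.Adj w' y') → y' ∈ T := by
      intro y hy w hw hwy hyy T hT
      obtain ⟨z, h3, h4, h5⟩ := hT w' hw' fun e => hyy (one w hw y hy y' hy' hwy (e ▸ hwy'))
      exact one w' hw' z h4 y' hy' h5 hwy' ▸ h3
    obtain ⟨-, T, hT, h3, h4⟩ := key y hy w hw hwy
    have h5 := h3 y' (memT y hy w hw hwy hyy T h4)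
    obtain ⟨x, hx, hxw⟩ := exists_mem_ne (s := nb G T y') (by omega) w'
    rw [mem_nb] at hx
    have hxX := mem_rem1.1 (hT hx.1)
    have hxM : x ∈ M := (mem_union.1 hxX.1).resolve_left fun hxQ =>
      hxw ((key y' hy' w' hw' hwy').1 x hxQ hx.2.symm)
    refine ⟨x, hxM, fun hh => ?_, hxX.2.2, hx.2⟩
    rcases mem_insert.1 hh with e | e
    · exact hxX.2.2 (e ▸ (lv w hw y hy hwy).symm)
    · obtain ⟨z, hz, e1⟩ := mem_image.1 e
      have hzx : G.Adj z x := e1 ▸ hf2 z hz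
      obtain ⟨-, T', hT', -, h6⟩ := key x hxM z hz hzx
      exact (mem_rem1.1 (hT' (memT x hxM z hz hzx hx.2.ne.symm T' h6))).2.2 hx.2.symm
  obtain ⟨x, h2, h3, -, h4⟩ := fin y1 hy1 w1 hw1 a1 y2 hy2 w2 hw2 a2 n
  obtain ⟨x', h5, h6, h7, -⟩ := fin y2 hy2 w2 hw2 a2 y1 hy1 w1 hw1 a1 n.symm
  have := card_add_two_le hLs h2 h5 (fun e => h7 (e ▸ h4)) h3 h6
  rw [card_insert_of_notMem hvL] at this
  omega

end Pool.Agent.IsoKer
end

-- merged part: Pool.Agent.Work.MP_1346a1_co.ZeroA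
section
/-! Three tight blocks with a vertex of degree above `k`. -/

namespace Pool.Agent.IsoKer

open Finset
open scoped Classical

variable {V : Type*} {G : SimpleGraph V} {k : ℕ}

/-- A vertex of maximum degree above `k` and a closed clique outside its neighbourhood. -/
structure Big (G : SimpleGraph V) (k : ℕ) (U : Finset V) (v : V) (Q : Finset V) : Prop where
  hk : 3 ≤ k
  card : U.card = 3 * (k + 1)
  conn : Conn G U
  tight : Tight G k 3 U
  np : NoPend G k U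
  hv : v ∈ U
  max : ∀ x ∈ U, (nb G U x).card ≤ (nb G U v).card
  big : k + 1 ≤ (nb G U v).card
  clq : Clq G k Q
  cl : Cl G Q (rem G U {v})

namespace Big

variable {U Q : Finset V} {v : V}

theorem sub (h : Big G k U v Q) : Q ⊆ U := h.cl.1.trans (rem_sub _ _)

theorem nv (h : Big G k U v Q) {w : V} (hw : w ∈ Q) : w ≠ v ∧ ¬ G.Adj v w :=
  (mem_rem1.1 (h.cl.1 hw)).2

theorem out (h : Big G k U v Q) {w y : V} (hw : w ∈ Q) (hy : y ∈ U) (hyQ : y ∉ Q)
    (hwy : G.Adj w y) : G.Adj v y := by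
  by_contra hcon
  exact hyQ (h.cl.2 w hw y (mem_rem1.2 ⟨hy, fun e => (h.nv hw).2 (e ▸ hwy.symm), hcon⟩) hwy)

theorem two (h : Big G k U v Q) : ∃ y1 ∈ U, ∃ y2 ∈ U, ∃ w1 ∈ Q, ∃ w2 ∈ Q, y1 ≠ y2 ∧
    y1 ∉ Q ∧ y2 ∉ Q ∧ G.Adj w1 y1 ∧ G.Adj w2 y2 := by
  obtain ⟨w1, hw1, y1, hy1, a1, n1, -⟩ := h.np Q h.sub h.clq v h.hv fun hh => (h.nv hh).1 rfl
  obtain ⟨w2, hw2, y2, hy2, a2, n2, n3⟩ := h.np Q h.sub h.clq y1 hy1 n1
  exact ⟨y1, hy1, y2, hy2, w1, hw1, w2, hw2, n3.symm, n1, n2, a1, a2⟩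

theorem memR {x : V} : x ∈ rem G U {v} \ Q ↔ (x ∈ U ∧ x ≠ v ∧ ¬ G.Adj v x) ∧ x ∉ Q := by
  rw [mem_sdiff, mem_rem1]

theorem nf (h : Big G k U v Q) {w y : V} (hw : w ∈ Q) (hwy : G.Adj w y) :
    ¬ Free G k (rem G (rem G U {v} \ Q) {y}) := fun hf => by
  refine h.tight.nf2 (x := v) (y := y) (fun a ha => ?_) (hf.union
    (free_small (rem_small h.clq.1.le hw (Or.inr hwy.symm)))
    (h.cl.na.mono (rem_sub _ _) (rem_sub _ _)))
  rw [mem_rem2] at ha
  by_cases haQ : a ∈ Q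
  · exact mem_union_right _ (mem_rem1.2 ⟨haQ, ha.2.2⟩)
  · exact mem_union_left _ (mem_rem1.2 ⟨memR.2 ⟨⟨ha.1, ha.2.1⟩, haQ⟩, ha.2.2⟩)

theorem cardR (h : Big G k U v Q) : (rem G U {v} \ Q).card + (nb G U v).card = 2 * k + 2 := by
  have h1 := rem_card (G := G) h.hv
  have h2 := card_sdiff_add_card_eq_card h.cl.1
  have := h.card
  have := h.clq.1
  omega

theorem naR (h : Big G k U v Q) {r w : V} (hr : r ∈ rem G U {v} \ Q) (hw : w ∈ Q) :
    ¬ G.Adj r w := h.cl.na r hr w hw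

theorem outR (h : Big G k U v Q) {r x : V} (hr : r ∈ rem G U {v} \ Q) (hx : x ∈ U)
    (hxR : x ∉ rem G U {v} \ Q) (hrx : G.Adj r x) : G.Adj v x := by
  by_contra hcon
  exact hxR (memR.2 ⟨⟨hx, fun e => (memR.1 hr).1.2.2 (e ▸ hrx.symm), hcon⟩,
    fun hh => h.naR hr hh hrx⟩)

theorem notlink (h : Big G k U v Q) {K : Finset V} (hK : Clq G k K)
    (hcl : Cl G K (rem G U {v} \ Q)) {w y q : V} (hw : w ∈ Q) (hwy : G.Adj w y) (hq : q ∈ K) :
    ¬ G.Adj y q := fun hh =>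
  h.nf hw hwy (free_hit h.hk (by have := h.cardR; have := h.big; omega) hK hcl hq hh)

/-- After a hit at `s` the rest of `R` is the clique `R - s`. -/
theorem hitR (h : Big G k U v Q) {w y s : V} (hw : w ∈ Q) (hwy : G.Adj w y)
    (hs : s ∈ rem G U {v} \ Q) (hys : G.Adj y s) : Clq G k ((rem G U {v} \ Q).erase s) ∧
      ∀ r ∈ (rem G U {v} \ Q).erase s, ¬ G.Adj y r := by
  have h1 : rem G (rem G U {v} \ Q) {y} ⊆ (rem G U {v} \ Q).erase s := fun a ha =>
    mem_erase.2 ⟨fun e => (mem_rem1.1 ha).2.2 (e ▸ hys), rem_sub _ _ ha⟩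
  have h2 := card_erase_of_mem hs
  have := h.cardR
  have := h.big
  have hq := clq_of_not_free ((card_le_card h1).trans (by omega)) (h.nf hw hwy)
  have h3 := eq_of_subset_of_card_le h1 (by rw [hq.1]; omega)
  exact ⟨h3 ▸ hq, fun r hr => (mem_rem1.1 (h3 ▸ hr)).2.2⟩

theorem dom (h : Big G k U v Q) {w x : V} (hw : w ∈ Q) (hx : x ∈ rem G U {w}) : x ∉ Q :=
  fun hh => (mem_rem1.1 hx).2.2 (h.clq.2 w hw x hh (mem_rem1.1 hx).2.1.symm)

theorem one_aux (h : Big G k U v Q) {K : Finset V} {w y y' s : V} (hw : w ∈ Q) (hy : y ∈ U)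
    (hy' : y' ∈ U) (hyQ : y ∉ Q) (hy'Q : y' ∉ Q) (n : y ≠ y') (a : G.Adj w y) (a' : G.Adj w y')
    (hK : Clq G k K) (hvK : v ∈ K) (hKe : ∀ x ∈ U, G.Adj v x → x ≠ y → x ≠ y' → x ∈ K)
    (hKU : ∀ x ∈ K, x ∈ U ∧ x ≠ y ∧ x ≠ y') (hKR : ∀ x ∈ K, ∀ r ∈ rem G U {v} \ Q, ¬ G.Adj r x)
    (hd : (nb G U v).card = k + 1) (hs : s ∈ rem G U {v} \ Q) (hys : G.Adj y s) : False := by
  have hk := h.hk
  set R := rem G U {v} \ Q with hR
  have hRU : R ⊆ U := sdiff_subset.trans (rem_sub _ _)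
  obtain ⟨q1, n1⟩ := h.hitR hw a hs hys
  obtain ⟨s', hs', x, hx, a2, n2, n3⟩ := h.np _ ((erase_subset _ _).trans hRU) q1 s (hRU hs)
    (notMem_erase _ _)
  have hs'R := mem_of_mem_erase hs'
  have hxR : x ∉ R := fun hh => n2 (mem_erase.2 ⟨n3, hh⟩)
  have hxy : x = y' := by
    by_contra hne
    exact hKR x (hKe x hx (h.outR hs'R hx hxR a2) (fun e => n1 s' hs' (e ▸ a2.symm)) hne) s' hs'R a2
  subst hxy
  have hvy := h.out hw hy hyQ a
  have hvx := h.out hw hx hy'Q a'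
  have hcls : ∀ z ∈ U, z ≠ s' → ¬ G.Adj s' z → z = s ∨ z = y ∨ z ∈ Q ∨ z ∈ K := by
    intro z hz h1 h2
    by_cases hzR : z ∈ R
    · left
      by_contra h3
      exact h2 (q1.2 s' hs' z (mem_erase.2 ⟨h3, hzR⟩) h1.symm)
    rw [memR] at hzR
    by_cases h3 : z = y
    · exact Or.inr (Or.inl h3)
    by_cases h4 : z = v
    · exact Or.inr (Or.inr (Or.inr (h4 ▸ hvK)))
    by_cases h5 : G.Adj v z
    · exact Or.inr (Or.inr (Or.inr (hKe z hz h5 h3 fun e => h2 (e ▸ a2))))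
    · exact Or.inr (Or.inr (Or.inl (by tauto)))
  by_cases hna : NA G (Q.erase w) (K.erase v)
  · refine h.tight.nf2 (x := y) (y := s') (fun z hz => ?_)
      ((free_small (X := Q.erase w) (by rw [card_erase_of_mem hw, h.clq.1]; omega)).union
        (free_small (X := K.erase v) (by rw [card_erase_of_mem hvK, hK.1]; omega)) hna)
    rw [mem_rem2] at hz
    rcases hcls z hz.1 hz.2.2.1 hz.2.2.2 with h1 | h1 | h1 | h1
    · exact absurd (h1 ▸ hys) hz.2.1.2
    · exact absurd h1 hz.2.1.1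
    · exact mem_union_left _ (mem_erase.2 ⟨fun e => hz.2.1.2 (e ▸ a.symm), h1⟩)
    · exact mem_union_right _ (mem_erase.2 ⟨fun e => hz.2.1.2 (e ▸ hvy.symm), h1⟩)
  simp only [NA, not_forall, not_not] at hna
  obtain ⟨w2, hw2, z, hz, a3⟩ := hna
  rw [mem_erase] at hw2 hz
  have e1 := hang (K := K.erase z) (y := y) (s := s) hk
    (by rw [card_erase_of_mem hz.2, hK.1]; omega)
    (fun b hb => hKR b (mem_of_mem_erase hb) s hs) (Y := rem G U {w2, s'}) (fun b hb => by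
      have hb' := mem_rem2.1 hb
      rcases hcls b hb'.1 hb'.2.2.1 hb'.2.2.2 with h1 | h1 | h1 | h1
      · exact mem_insert.2 (Or.inl h1)
      · exact mem_insert_of_mem (mem_insert.2 (Or.inl h1))
      · exact absurd h1 (h.dom hw2.2 (mem_rem1.2 ⟨hb'.1, hb'.2.1⟩))
      · exact mem_insert_of_mem (mem_insert_of_mem
          (mem_erase.2 ⟨fun e => hb'.2.1.2 (e ▸ a3), h1⟩))) (h.tight.nf2 subset_rfl)
  have e2 := hang (K := Q.erase w2) (y := y) (s := s) hk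
    (by rw [card_erase_of_mem hw2.2, h.clq.1]; omega)
    (fun b hb => h.naR hs (mem_of_mem_erase hb)) (Y := rem G U {z, s'}) (fun b hb => by
      have hb' := mem_rem2.1 hb
      rcases hcls b hb'.1 hb'.2.2.1 hb'.2.2.2 with h1 | h1 | h1 | h1
      · exact mem_insert.2 (Or.inl h1)
      · exact mem_insert_of_mem (mem_insert.2 (Or.inl h1))
      · exact mem_insert_of_mem (mem_insert_of_mem
          (mem_erase.2 ⟨fun e => hb'.2.1.2 (e ▸ a3.symm), h1⟩))
      · exact absurd (hK.2 z hz.2 b h1 hb'.2.1.1.symm) hb'.2.1.2) (h.tight.nf2 subset_rfl)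
  have hsub : K.erase z ∪ Q.erase w2 ⊆ nb G U y := union_subset (fun b hb =>
    mem_nb.2 ⟨(hKU b (mem_of_mem_erase hb)).1,
      (e1 b hb).resolve_left (hKU b (mem_of_mem_erase hb)).2.1⟩) fun b hb =>
    mem_nb.2 ⟨h.sub (mem_of_mem_erase hb),
      (e2 b hb).resolve_left fun e => hyQ (e ▸ mem_of_mem_erase hb)⟩
  have hKQ : ∀ b ∈ K, b ∉ Q := fun b hb hbQ => by
    by_cases e : v = b
    exacts [(h.nv hbQ).1 e.symm, (h.nv hbQ).2 (hK.2 v hvK b hb e)]
  have h1 := card_add_one_le hsub (mem_nb.2 ⟨hRU hs, hys⟩) fun hh => by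
    rcases mem_union.1 hh with h2 | h2
    · have := mem_of_mem_erase h2
      by_cases e : v = s
      exacts [(memR.1 hs).1.2.1 e.symm, (memR.1 hs).1.2.2 (hK.2 v hvK s this e)]
    · exact (memR.1 hs).2 (mem_of_mem_erase h2)
  rw [card_union_of_disjoint (disjoint_left.2 fun b h2 h3 =>
    hKQ b (mem_of_mem_erase h2) (mem_of_mem_erase h3)), card_erase_of_mem hz.2,
    card_erase_of_mem hw2.2, hK.1, h.clq.1] at h1
  have := h.max y hy
  omega

theorem one (h : Big G k U v Q) {w y y' : V} (hw : w ∈ Q) (hy : y ∈ U) (hy' : y' ∈ U)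
    (hyQ : y ∉ Q) (hy'Q : y' ∉ Q) (a : G.Adj w y) (a' : G.Adj w y') : y = y' := by
  by_contra n
  have hk := h.hk
  set Z := ((U \ Q).erase y).erase y' with hZ
  have memZ : ∀ x, x ∈ Z ↔ x ≠ y' ∧ x ≠ y ∧ x ∈ U ∧ x ∉ Q := fun x => by simp [hZ]
  have hZc : Z.card ≤ 2 * k + 1 := by
    have h1 := card_add_two_le (T := Z) (A := U \ Q) (fun x hx => mem_sdiff.2 ((memZ x).1 hx).2.2)
      (mem_sdiff.2 ⟨hy, hyQ⟩) (mem_sdiff.2 ⟨hy', hy'Q⟩) n (by simp [hZ]) (by simp [hZ])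
    have := card_sdiff_add_card_eq_card h.sub
    have := h.card
    have := h.clq.1
    omega
  obtain ⟨K, hK, hcl⟩ := (h.tight.down (x := w) (Z := Z) fun x hx => (memZ x).2
    ⟨fun e => (mem_rem1.1 hx).2.2 (e ▸ a'), fun e => (mem_rem1.1 hx).2.2 (e ▸ a),
      rem_sub _ _ hx, h.dom hw hx⟩).closedK hk hZc
  have hvy := h.out hw hy hyQ a
  have hvy' := h.out hw hy' hy'Q a'
  have hvZ : v ∈ Z := (memZ v).2 ⟨hvy'.ne, hvy.ne, h.hv, fun hh => (h.nv hh).1 rfl⟩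
  have hRZ : rem G U {v} \ Q ⊆ Z := fun x hx => by
    rw [memR] at hx
    exact (memZ x).2 ⟨fun e => hx.1.2.2 (e ▸ hvy'), fun e => hx.1.2.2 (e ▸ hvy), hx.1.1, hx.2⟩
  by_cases hvK : v ∈ K
  · have hKe : ∀ x ∈ U, G.Adj v x → x ≠ y → x ≠ y' → x ∈ K := fun x hx h1 h2 h3 =>
      hcl.2 v hvK x ((memZ x).2 ⟨h3, h2, hx, fun hh => (h.nv hh).2 h1⟩) h1
    have hKU : ∀ x ∈ K, x ∈ U ∧ x ≠ y ∧ x ≠ y' := fun x hx => by
      have := (memZ x).1 (hcl.1 hx)
      tauto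
    have hKR : ∀ x ∈ K, ∀ r ∈ rem G U {v} \ Q, ¬ G.Adj r x := fun x hx r hr hrx => by
      have h1 := hcl.2 x hx r (hRZ hr) hrx.symm
      exact (memR.1 hr).1.2.2 (hK.2 v hvK r h1 (memR.1 hr).1.2.1.symm)
    have hd : (nb G U v).card = k + 1 := by
      have hs : nb G U v ⊆ insert y (insert y' (K.erase v)) := fun x hx => by
        rw [mem_nb] at hx
        simp only [mem_insert, mem_erase]
        have := hKe x hx.1 hx.2
        have := hx.2.ne.symm
        tauto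
      have := card_le_card hs
      have := card_insert_le y (insert y' (K.erase v))
      have := card_insert_le y' (K.erase v)
      have := card_erase_of_mem hvK
      have := hK.1
      have := h.big
      omega
    obtain ⟨s, hs, x, hx, hxR, hsx⟩ := h.conn.exists_edge (T := rem G U {v} \ Q)
      (sdiff_subset.trans (rem_sub _ _)) (card_pos.1 (by have := h.cardR; omega)) h.hv
      fun hh => (memR.1 hh).1.2.1 rfl
    by_cases e : x = y
    · exact h.one_aux hw hy hy' hyQ hy'Q n a a' hK hvK hKe hKU hKR hd hs (e ▸ hsx.symm)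
    by_cases e' : x = y'
    · exact h.one_aux hw hy' hy hy'Q hyQ (Ne.symm n) a' a hK hvK
        (fun x h1 h2 h3 h4 => hKe x h1 h2 h4 h3) (fun x hx => by have := hKU x hx; tauto) hKR hd hs
        (e' ▸ hsx.symm)
    exact hKR x (hKe x hx (h.outR hs hx hxR hsx) e e') s hs hsx
  · have hKR : K ⊆ rem G U {v} \ Q := fun x hx => by
      have := (memZ x).1 (hcl.1 hx)
      exact memR.2 ⟨⟨this.2.2.1, fun e => hvK (e ▸ hx),
        fun e => hvK (hcl.2 x hx v hvZ e.symm)⟩, this.2.2.2⟩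
    obtain ⟨q, hq, x, hx, a2, n2, -⟩ := h.np K (hKR.trans (sdiff_subset.trans (rem_sub _ _))) hK v
      h.hv hvK
    have hxZ : x ∉ Z := fun hh => n2 (hcl.2 q hq x hh a2)
    have hxQ : x ∉ Q := fun hh => h.naR (hKR hq) hh a2
    rw [memZ] at hxZ
    by_cases e : x = y
    · exact h.notlink hK (hcl.restrict hKR hRZ) hw a hq (e ▸ a2.symm)
    · exact h.notlink hK (hcl.restrict hKR hRZ) hw a' hq ((by tauto : x = y') ▸ a2.symm)

theorem pl (h : Big G k U v Q) {M : Finset V} (hMU : M ⊆ U) (hd : Disjoint Q M)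
    (hM : M.card = k + 2) (ht : Tight G k 2 (Q ∪ M)) (hv : v ∈ M)
    (hL : ∀ w ∈ Q, ∀ y ∈ U, y ∉ Q → G.Adj w y → y ∈ M) :
    ∃ y ∈ M, ∃ t ∈ M, ∃ w ∈ Q, y ≠ t ∧ G.Adj w t ∧ (∀ x ∈ Q, x ≠ w → G.Adj x y) ∧
      (∀ m ∈ M, m ≠ y → m ≠ t → G.Adj t m) ∧ ∀ m ∈ M, G.Adj y m → m = v := by
  obtain ⟨y1, hy1, y2, hy2, w1, hw1, w2, hw2, n, n1, n2, a1, a2⟩ := h.two
  exact PL h.hk h.clq hd hM ht hv (fun w hw y hy y' hy' => h.one hw (hMU hy) (hMU hy')
    (disjoint_right.1 hd hy) (disjoint_right.1 hd hy'))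
    (fun w hw y hy => h.out hw (hMU hy) (disjoint_right.1 hd hy)) (hL w1 hw1 y1 hy1 n1 a1)
    (hL w2 hw2 y2 hy2 n2 a2) hw1 hw2 n a1 a2

theorem pl2 {Q' : Finset V} (h : Big G k U v Q) (h' : Big G k U v Q') (hd : Disjoint Q Q')
    {y w : V} (hw : w ∈ Q) (hy : y ∈ U) (hyQ : y ∉ Q) (a : G.Adj w y) :
    ∃ u ∈ U, ∃ t ∈ U, ∃ w' ∈ Q', u ∉ Q' ∧ t ∉ Q' ∧ u ≠ t ∧ G.Adj w' t ∧
      (∀ x ∈ Q', x ≠ w' → G.Adj x u) ∧
      (∀ m ∈ U, m ∉ Q → m ∉ Q' → m ≠ y → m ≠ u → m ≠ t → G.Adj t m) ∧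
      ∀ m ∈ U, m ∉ Q → m ∉ Q' → m ≠ y → G.Adj u m → m = v := by
  have hcl : Cl G Q' (rem G U {v} \ Q) :=
    h'.cl.restrict (fun x hx => mem_sdiff.2 ⟨h'.cl.1 hx, disjoint_right.1 hd hx⟩) sdiff_subset
  have hvy := h.out hw hy hyQ a
  have hyQ' : y ∉ Q' := fun hh => (h'.nv hh).2 hvy
  set M := ((U \ Q) \ Q').erase y with hM
  have memM : ∀ x, x ∈ M ↔ x ≠ y ∧ (x ∈ U ∧ x ∉ Q) ∧ x ∉ Q' := fun x => by simp [hM]
  have hMc : M.card = k + 2 := by
    have h1 := card_sdiff_add_card_eq_card h.sub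
    have h2 := card_sdiff_add_card_eq_card (s := Q') (t := U \ Q)
      fun x hx => mem_sdiff.2 ⟨h'.sub hx, disjoint_right.1 hd hx⟩
    rw [hM, card_erase_of_mem (by simp [hy, hyQ, hyQ'])]
    have := h.card
    have := h.clq.1
    have := h'.clq.1
    omega
  obtain ⟨u, hu, t, ht, w', hw', h1, h2, h3, h4, h5⟩ := h'.pl (M := M)
    (fun x hx => ((memM x).1 hx).2.1.1) (disjoint_right.2 fun x hx => ((memM x).1 hx).2.2) hMc
    (h.tight.down (x := w) fun x hx => by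
      by_cases hxQ : x ∈ Q'
      · exact mem_union_left _ hxQ
      · exact mem_union_right _ ((memM x).2 ⟨fun e => (mem_rem1.1 hx).2.2 (e ▸ a),
          ⟨rem_sub _ _ hx, h.dom hw hx⟩, hxQ⟩))
    ((memM v).2 ⟨hvy.ne, ⟨h.hv, fun hh => (h.nv hh).1 rfl⟩, fun hh => (h'.nv hh).1 rfl⟩)
    fun q hq z hz hzQ hqz => (memM z).2 ⟨fun e => h.notlink h'.clq hcl hw a hq (e ▸ hqz.symm),
      ⟨hz, fun hh => h.naR (hcl.1 hq) hh hqz⟩, hzQ⟩
  rw [memM] at hu ht
  exact ⟨u, hu.2.1.1, t, ht.2.1.1, w', hw', hu.2.2, ht.2.2, h1, h2, h3,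
    fun m m1 m2 m3 m4 => h4 m ((memM m).2 ⟨m4, ⟨m1, m2⟩, m3⟩),
    fun m m1 m2 m3 m4 => h5 m ((memM m).2 ⟨m4, ⟨m1, m2⟩, m3⟩)⟩

theorem exists_other (h : Big G k U v Q) (a b : V) : ∃ x ∈ Q, x ≠ a ∧ x ≠ b := by
  by_contra hcon
  have hs : Q ⊆ {a, b} := fun x hx => by
    by_contra hh
    exact hcon ⟨x, hx, by simpa using hh⟩
  have := card_le_card hs
  have := card_le_two (a := a) (b := b)
  have := h.clq.1
  have := h.hk
  omega

theorem two_cliques {Q' : Finset V} (h : Big G k U v Q) (h' : Big G k U v Q')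
    (hd : Disjoint Q Q') : False := by
  have hcl : Cl G Q' (rem G U {v} \ Q) :=
    h'.cl.restrict (fun x hx => mem_sdiff.2 ⟨h'.cl.1 hx, disjoint_right.1 hd hx⟩) sdiff_subset
  obtain ⟨y1, hy1, y2, hy2, w1, hw1, w2, hw2, n, n1, n2, a1, a2⟩ := h.two
  obtain ⟨u, hu, t, ht, w', hw', b1, b2, b3, b4, b5, -, b7⟩ := h.pl2 h' hd hw1 hy1 n1 a1
  obtain ⟨u2, hu2, -, -, w2', -, c1, -, -, -, c5, -, c7⟩ := h.pl2 h' hd hw2 hy2 n2 a2
  obtain ⟨x, hx, x1, x2⟩ := h'.exists_other w' w2'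
  have e : u = u2 := h'.one hx hu hu2 b1 c1 (b5 x hx x1) (c5 x hx x2)
  subst e
  obtain ⟨y, -, t', ht', w3, hw3, -, d2, -, d4, d5, d6, -⟩ := h'.pl2 h hd.symm hw' ht b2 b4
  have hvt := h.out hw3 ht' d2 d4
  have hvu := h'.out hx hu b1 (b5 x hx x1)
  obtain ⟨x', hx', x3, -⟩ := h.exists_other w3 w3
  have hut : G.Adj t' u := d6 u hu b1 (fun hh => (h.nv hh).2 hvu) b3
    (fun e => h.notlink h'.clq hcl hx' (d5 x' hx' x3) hx (e ▸ (b5 x hx x1).symm))
    fun e => h.notlink h'.clq hcl hw3 d4 hx (e ▸ (b5 x hx x1).symm)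
  have ht'Q : t' ∉ Q' := fun hh => (h'.nv hh).2 hvt
  by_cases e : t' = y1
  · exact hvt.ne (c7 t' ht' d2 ht'Q (fun e2 => n (e.symm.trans e2)) hut.symm).symm
  · exact hvt.ne (b7 t' ht' d2 ht'Q e hut.symm).symm

theorem cocktail (h : Big G k U v Q) (hc : (rem G U {v} \ Q).card = k + 1)
    (hr : ∀ x ∈ rem G U {v} \ Q, (nb G (rem G U {v} \ Q) x).card + 1 = k) : False := by
  have hk := h.hk
  have hcR := h.cardR
  set R := rem G U {v} \ Q with hR
  have hRU : R ⊆ U := sdiff_subset.trans (rem_sub _ _)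
  have hL : ∀ w ∈ Q, ∀ y, G.Adj w y → ∀ s ∈ R, ¬ G.Adj y s := by
    intro w hw y a s hs hys
    obtain ⟨q, -⟩ := h.hitR hw a hs hys
    rw [← hR] at q
    have h1 := hr s hs
    obtain ⟨x, hx⟩ : (nb G R s).Nonempty := card_pos.1 (by omega)
    rw [mem_nb] at hx
    have hx' : x ∈ R.erase s := mem_erase.2 ⟨hx.2.ne.symm, hx.1⟩
    have h2 := (q.sp (by omega)).2.2 x hx'
    have := card_add_one_le (nb_mono (G := G) (erase_subset s R) x) (mem_nb.2 ⟨hs, hx.2.symm⟩)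
      fun hh => notMem_erase _ _ (mem_nb.1 hh).1
    have := hr x hx.1
    omega
  obtain ⟨r, hrR, u, hu, huR, hru⟩ := h.conn.exists_edge hRU (card_pos.1 (by omega)) h.hv
    fun hh => (memR.1 hh).1.2.1 rfl
  have hvu := h.outR hrR hu huR hru
  have h1 := rem_card (G := G) hrR
  have h2 := hr r hrR
  obtain ⟨s, hs⟩ := card_eq_one.1 (show (rem G R {r}).card = 1 by omega)
  have hsR : s ∈ R := rem_sub (G := G) R {r} (hs ▸ mem_singleton_self s)
  have hs' := memR.1 hsR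
  set M := insert s (insert v ((nb G U v).erase u)) with hM
  have memM : ∀ x, x ∈ M ↔ x = s ∨ x = v ∨ x ≠ u ∧ x ∈ U ∧ G.Adj v x := fun x => by simp [hM]
  obtain ⟨y, hy, t, -, w, hw, -, h3, h4, h5, -⟩ := h.pl (M := M) (fun x hx => by
      rcases (memM x).1 hx with e | e | e
      exacts [e ▸ hs'.1.1, e ▸ h.hv, e.2.1])
    (disjoint_left.2 fun x hx hx' => by
      rcases (memM x).1 hx' with e | e | e
      exacts [hs'.2 (e ▸ hx), (h.nv hx).1 e, (h.nv hx).2 e.2.2])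
    (by
      rw [hM, card_insert_of_notMem (by simp [hs'.1.2.1, hs'.1.2.2]),
        card_insert_of_notMem (by simp), card_erase_of_mem (mem_nb.2 ⟨hu, hvu⟩)]
      omega)
    (h.tight.down (x := r) fun x hx => by
      rw [mem_rem1] at hx
      by_cases hxQ : x ∈ Q
      · exact mem_union_left _ hxQ
      refine mem_union_right _ ((memM x).2 ?_)
      by_cases hxR : x ∈ R
      · exact Or.inl (mem_singleton.1 (hs ▸ mem_rem1.2 ⟨hxR, hx.2⟩))
      · have : x ≠ u := fun e => hx.2.2 (e ▸ hru)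
        rw [memR] at hxR
        tauto)
    ((memM v).2 (Or.inr (Or.inl rfl)))
    fun w hw y hy hyQ a => (memM y).2 (Or.inr (Or.inr
      ⟨fun e => hL w hw y a r hrR (e ▸ hru.symm), hy, h.out hw hy hyQ a⟩))
  obtain ⟨x, hx, x1, -⟩ := h.exists_other w w
  exact hL w hw t h3 s hsR (h5 s ((memM s).2 (Or.inl rfl))
    (fun e => h.naR hsR hx (e ▸ (h4 x hx x1).symm)) fun e => h.naR hsR hw (e ▸ h3.symm))

theorem dominated (h : Big G k U v Q) {c : V} (hc : Bk G k c (rem G U {v} \ Q)) : False := by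
  have hk := h.hk
  have hcR := h.cardR
  have hQc := h.clq.1
  set R := rem G U {v} \ Q with hR
  have hRU : R ⊆ U := sdiff_subset.trans (rem_sub _ _)
  have hRc := hc.card
  set M := insert v (nb G U v) with hM
  have memM : ∀ x, x ∈ M ↔ x = v ∨ x ∈ U ∧ G.Adj v x := fun x => by simp [hM]
  have hMU : M ⊆ U := insert_subset h.hv (nb_sub _ _)
  have hMc : M.card = k + 2 := by rw [hM, card_insert_of_notMem (not_mem_nb_self _ _)]; omega
  have hd : Disjoint Q M := disjoint_left.2 fun x hx hx' => by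
    rcases (memM x).1 hx' with e | e
    exacts [(h.nv hx).1 e, (h.nv hx).2 e.2]
  have hMR : ∀ x ∈ M, x ∉ R := fun x hx hh => by
    rw [memM] at hx
    rw [memR] at hh
    tauto
  have tri : ∀ x ∈ U, x ∈ Q ∨ x ∈ M ∨ x ∈ R := fun x hx => by
    rw [memM, memR]
    tauto
  have hsub : rem G U {c} ⊆ Q ∪ M := fun x hx => by
    rw [mem_rem1] at hx
    rcases tri x hx.1 with h1 | h1 | h1
    exacts [mem_union_left _ h1, mem_union_right _ h1, absurd (hc.dom x h1) (by tauto)]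
  have hL : ∀ w ∈ Q, ∀ y ∈ U, y ∉ Q → G.Adj w y → y ∈ M := fun w hw y hy hyQ a =>
    (memM y).2 (Or.inr ⟨hy, h.out hw hy hyQ a⟩)
  have hcM : ∀ z ∈ M, ¬ G.Adj c z := by
    intro z hz hcz
    obtain ⟨K, hK, hcl⟩ := (h.tight.down (x := c) (Z := (Q ∪ M).erase z) fun x hx =>
      mem_erase.2 ⟨fun e => (mem_rem1.1 hx).2.2 (e ▸ hcz), hsub hx⟩).closedK hk (by
        rw [card_erase_of_mem (mem_union_right _ hz), card_union_of_disjoint hd]; omega)
    have hzv : v ≠ z := fun e => (memR.1 hc.mem).1.2.2 (e ▸ hcz.symm)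
    have hvZ : v ∈ (Q ∪ M).erase z := mem_erase.2 ⟨hzv, mem_union_right _ (mem_insert_self _ _)⟩
    have hvK : v ∉ K := fun hvK => by
      have hs : M.erase z ⊆ K := fun x hx => by
        rw [mem_erase] at hx
        rcases (memM x).1 hx.2 with e | e
        exacts [e ▸ hvK, hcl.2 v hvK x (mem_erase.2 ⟨hx.1, mem_union_right _ hx.2⟩) e.2]
      have := card_le_card hs
      rw [card_erase_of_mem hz, hK.1] at this
      omega
    have hKQ : K ⊆ Q := fun x hx => by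
      refine (mem_union.1 (mem_of_mem_erase (hcl.1 hx))).resolve_right fun hh => ?_
      rcases (memM x).1 hh with e | e
      exacts [hvK (e ▸ hx), hvK (hcl.2 x hx v hvZ e.2.symm)]
    have he : K = Q := eq_of_subset_of_card_le hKQ (by rw [hK.1]; omega)
    subst he
    obtain ⟨q, hq, y, hy, a, n1, n2⟩ := h.np K h.sub hK z (hMU hz) (disjoint_right.1 hd hz)
    exact n1 (hcl.2 q hq y (mem_erase.2 ⟨n2, mem_union_right _ (hL q hq y hy n1 a)⟩) a)
  obtain ⟨y, hy, t, ht, w, hw, n, a, h1, h2, h3⟩ := h.pl hMU hd hMc (h.tight.down hsub)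
    (mem_insert_self _ _) hL
  obtain ⟨w', hw', n', -⟩ := h.exists_other w w
  have a' := h1 w' hw' n'
  have hyQ := disjoint_right.1 hd hy
  have htQ := disjoint_right.1 hd ht
  have hvy := h.out hw' (hMU hy) hyQ a'
  have hvt := h.out hw (hMU ht) htQ a
  have hmax : ∀ x ∈ U, (nb G U x).card ≤ k + 1 := fun x hx => by have := h.max x hx; omega
  have hwt : ∀ x ∈ U, x ∉ Q → G.Adj w x → x = t := fun x hx hxQ e =>
    h.one hw hx (hMU ht) hxQ htQ e a
  have htR : ∀ r ∈ R, ¬ G.Adj t r := fun r hr e => by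
    have hs : (M.erase y).erase t ⊆ nb G U t := fun m hm => by
      simp only [mem_erase] at hm
      exact mem_nb.2 ⟨hMU hm.2.2, h2 m hm.2.2 hm.2.1 hm.1⟩
    have := card_add_two_le hs (mem_nb.2 ⟨h.sub hw, a.symm⟩) (mem_nb.2 ⟨hRU hr, e⟩)
      (fun e => (memR.1 hr).2 (e ▸ hw))
      (fun hh => disjoint_left.1 hd hw (mem_of_mem_erase (mem_of_mem_erase hh)))
      fun hh => hMR r (mem_of_mem_erase (mem_of_mem_erase hh)) hr
    rw [card_erase_of_mem (mem_erase.2 ⟨n.symm, ht⟩), card_erase_of_mem hy] at this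
    have := hmax t (hMU ht)
    omega
  by_cases hex : ∃ u ∈ R, ∃ z ∈ M, z ≠ y ∧ G.Adj u z
  swap
  · push Not at hex
    have hR2 : ∀ r ∈ R, ∀ x ∈ U, x ∉ R → G.Adj r x → x = y := fun r hr x hx hxR e => by
      by_contra hne
      exact hex r hr x ((memM x).2 (Or.inr ⟨hx, h.outR hr hx hxR e⟩)) hne e
    obtain ⟨s, hs, x, hx, hxR, hsx⟩ := h.conn.exists_edge hRU ⟨c, hc.mem⟩ h.hv
      (hMR v (mem_insert_self _ _))
    obtain ⟨q, hq⟩ := h.hitR hw' a' hs (hR2 s hs x hx hxR hsx ▸ hsx.symm)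
    obtain ⟨r, hr, z, hz, e, n1, n2⟩ := h.np _ ((erase_subset _ _).trans hRU) q s (hRU hs)
      (notMem_erase _ _)
    exact hq r hr (hR2 r (mem_of_mem_erase hr) z hz (fun hh => n1 (mem_erase.2 ⟨n2, hh⟩)) e ▸ e.symm)
  obtain ⟨u, hu, z, hz, hzy, huz⟩ := hex
  have huc : G.Adj c u := (hc.dom u hu).resolve_left fun e => hcM z hz (e ▸ huz)
  have hzt : z ≠ t := fun e => htR u hu (e ▸ huz.symm)
  have hzv : z ≠ v := fun e => (memR.1 hu).1.2.2 (e ▸ huz.symm)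
  set X := rem G U {u, y} with hX
  have dead : ∀ x, (x = u ∨ G.Adj u x ∨ x = y ∨ G.Adj y x) → x ∉ X := fun x e hx => by
    rw [hX, mem_rem2] at hx
    tauto
  have dc := dead c (Or.inr (Or.inl huc.symm))
  have dz := dead z (Or.inr (Or.inl huz))
  have dv := dead v (Or.inr (Or.inr (Or.inr hvy.symm)))
  have du := dead u (Or.inl rfl)
  have dy := dead y (Or.inr (Or.inr (Or.inl rfl)))
  have hXQ : ∀ x ∈ X, x ∈ Q → x = w := fun x hx hxQ => by
    by_contra hne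
    exact dead x (Or.inr (Or.inr (Or.inr (h1 x hxQ hne).symm))) hx
  have hw1 : ∀ T ⊆ X, (nb G T w).card ≤ 1 := fun T hT => by
    refine le_trans (card_le_card (t := {t}) fun x hx => ?_) (by simp)
    rw [mem_nb] at hx
    exact mem_singleton.2 (hwt x (rem_sub _ _ (hT hx.1))
      (fun hh => hx.2.ne (hXQ x (hT hx.1) hh).symm) hx.2)
  rcases obs (X := X) (h.tight.nf2 subset_rfl) with ⟨r, hr, h4⟩ | ⟨T, hTn, hcl, h4, -⟩
  · have hrU : r ∈ U := rem_sub _ _ hr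
    have hrQ : r ∉ Q := fun hh => by
      have := hw1 X subset_rfl
      rw [hXQ r hr hh] at h4
      omega
    have hrt : r ≠ t := fun e => by
      subst e
      have := card_add_two_le (nb_mono (G := G) (rem_sub (G := G) U {u, y}) r)
        (mem_nb.2 ⟨h.hv, hvt.symm⟩) (mem_nb.2 ⟨hMU hz, h2 z hz hzy hzt⟩) hzv.symm
        (fun hh => dv (mem_nb.1 hh).1) fun hh => dz (mem_nb.1 hh).1
      have := hmax r hrU
      rw [← hX] at *
      omega
    set P := (U \ Q).erase y with hP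
    have memP : ∀ x, x ∈ P ↔ x ≠ y ∧ x ∈ U ∧ x ∉ Q := fun x => by simp [hP]
    have hPc : P.card = 2 * k + 2 := by
      rw [hP, card_erase_of_mem (mem_sdiff.2 ⟨hMU hy, hyQ⟩)]
      have := card_sdiff_add_card_eq_card h.sub
      have := h.card
      omega
    have hPt : Tight G k 2 P := h.tight.down (x := w') fun x hx => (memP x).2
      ⟨fun e => (mem_rem1.1 hx).2.2 (e ▸ a'), rem_sub _ _ hx, h.dom hw' hx⟩
    have hrP : r ∈ P := (memP r).2 ⟨fun e => dy (e ▸ hr), hrU, hrQ⟩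
    have hXP : nb G X r ⊆ P := fun x hx => by
      rw [mem_nb] at hx
      exact (memP x).2 ⟨fun e => dy (e ▸ hx.1), rem_sub _ _ hx.1,
        fun hh => hrt (hwt r hrU hrQ (hXQ x hx.1 hh ▸ hx.2.symm))⟩
    have hvP : v ∈ P := (memP v).2 ⟨hvy.ne, h.hv, fun hh => (h.nv hh).1 rfl⟩
    have hRP : ∀ x ∈ R, x ∈ P := fun x hx =>
      (memP x).2 ⟨fun e => hMR y hy (e ▸ hx), hRU hx, (memR.1 hx).2⟩
    rcases (tri r hrU).resolve_left hrQ with h5 | h5
    · have hvr : G.Adj r v := (((memM r).1 h5).resolve_left fun e => dv (e ▸ hr)).2.symm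
      obtain ⟨q, hin⟩ := star_clq hPt hPc hrP hvP hvr dv hXP h4
      exact hcM z hz (q.2 c (hin c (hRP c hc.mem) (fun e => dc (e ▸ hr))
        (memR.1 hc.mem).1.2.1 dc) z (hin z ((memP z).2 ⟨hzy, hMU hz, disjoint_right.1 hd hz⟩)
        (fun e => dz (e ▸ hr)) hzv dz) fun e => hMR z hz (e ▸ hc.mem))
    · have hcr : G.Adj r c := ((hc.dom r h5).resolve_left fun e => dc (e ▸ hr)).symm
      obtain ⟨q, hin⟩ := star_clq hPt hPc hrP (hRP c hc.mem) hcr dc hXP h4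
      exact (memR.1 hu).1.2.2 (q.2 v (hin v hvP (fun e => dv (e ▸ hr))
        (memR.1 hc.mem).1.2.1.symm dv) u (hin u (hRP u hu) (fun e => du (e ▸ hr)) huc.ne.symm du)
        (memR.1 hu).1.2.1.symm)
  · have hwT : w ∉ T := fun hh => by
      have := hw1 T hcl.1
      have := h4 w hh
      omega
    have hwy : ¬ G.Adj y w := fun e => n (hwt y (hMU hy) hyQ e.symm)
    have hwX : w ∈ X := mem_rem2.2 ⟨h.sub hw, ⟨fun e => (memR.1 hu).2 (e ▸ hw), h.naR hu hw⟩,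
      fun e => hyQ (e ▸ hw), hwy⟩
    have htX : t ∈ X := mem_rem2.2 ⟨hMU ht, ⟨fun e => hMR t ht (e ▸ hu),
      fun e => htR u hu e.symm⟩, n.symm, fun e => hvt.ne (h3 t ht e).symm⟩
    have htT : t ∉ T := fun hh => hwT (hcl.2 t hh w hwX a.symm)
    have hTR : T ⊆ R := fun x hx => by
      rcases tri x (rem_sub _ _ (hcl.1 hx)) with h5 | h5 | h5
      · exact absurd (hXQ x (hcl.1 hx) h5 ▸ hx) hwT
      · exact absurd (hcl.2 x hx t htX (h2 x h5 (fun e => dy (e ▸ hcl.1 hx))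
          fun e => htT (e ▸ hx)).symm) htT
      · exact h5
    have := card_add_two_le hTR hc.mem hu huc.ne (fun hh => dc (hcl.1 hh)) fun hh => du (hcl.1 hh)
    have := core_card hTn h4
    omega

end Big

/-- Without pendant cliques all degrees are at most `k`. -/
theorem partA (hk : 3 ≤ k) {U : Finset V} (hc : U.card = 3 * (k + 1)) (hU : Conn G U)
    (ht : Tight G k 3 U) (hp : NoPend G k U) : ∀ x ∈ U, (nb G U x).card ≤ k := by
  intro x hx
  by_contra hcon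
  obtain ⟨v, hv, hmax⟩ := exists_max_image U (fun x => (nb G U x).card) ⟨x, hx⟩
  have hb : k + 1 ≤ (nb G U v).card := by have := hmax x hx; omega
  have h1 := rem_card (G := G) hv
  obtain ⟨Q, hQ, hcl⟩ := (ht.down (x := v) subset_rfl).closedK hk (by omega)
  have h : Big G k U v Q := ⟨hk, hc, hU, ht, hp, hv, hmax, hb, hQ, hcl⟩
  obtain ⟨y, -, -, -, w, hw, -, -, -, -, -, a, -⟩ := h.two
  rcases small_cases (G := G) (Y := rem G U {v} \ Q) (by have := h.cardR; omega)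
    (fun hf => h.nf hw a (hf.mono (rem_sub _ _))) with ⟨c, h2⟩ | ⟨K, h2, h3⟩ | h2
  · exact h.dominated h2
  · exact h.two_cliques ⟨hk, hc, hU, ht, hp, hv, hmax, hb, h2, h3.trans hcl.sdiff⟩
      (disjoint_right.2 fun a ha => (mem_sdiff.1 (h3.1 ha)).2)
  · exact h.cocktail h2.1 h2.2

end Pool.Agent.IsoKer
end

-- merged part: Pool.Agent.Work.MP_1346a1_co.ZeroD
section
/-! The triple lemma: three tight connected blocks contain a pendant clique. -/

namespace Pool.Agent.IsoKer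

open Finset
open scoped Classical

variable {V : Type*} {G : SimpleGraph V} {k : ℕ}

theorem fin_good {U : Finset V} (h : Low G k U) {a b c : V} (C : Code G k U a b c)
    (g1 : GoodC G k U a b c) (g2 : GoodC G k U c b a) : False := by
  obtain ⟨a1, b1, D, aa, bb, y, hy, by1, ay⟩ := g1
  obtain ⟨c2, b2, E, cc, bb2, y', hy', by2, cy⟩ := g2
  obtain ⟨z, hz, az, bz⟩ := cells h C D hy by1 ay
  obtain ⟨z', hz', cz, bz'⟩ := cells h C.s23.s12.s23 E hy' by2 cy
  have far : ∀ e ∈ U, Nr G a1 e → ¬ Nr G c2 e := by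
    intro e he e1 e2
    have ce := D.ac e he e1
    exact Two.od (a := b) (b := a) (a' := b1) (b' := a1) (c := c) (z := e) (w := c2)
      ⟨h, C.s12, D.s12, bb, aa, he, E.ha, ((C.cov e he).resolve_left
        (E.ac e he e2)).resolve_right ce, e1, cc, e2.symm.adj fun e3 => ce (e3 ▸ cc)⟩
  have m1 : ¬ Nr G c2 b1 := fun e => D.bc c2 E.ha e.symm cc
  have b21 : Nr G b2 b1 := ((E.cov b1 D.hb).resolve_left m1).resolve_right
    fun e => C.ab b1 D.hb e bb
  have m2 : ¬ Nr G a1 b2 := fun e => E.bc a1 D.ha e.symm aa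
  have Yb : ¬ Nr G a1 b ∧ ¬ Nr G c2 b :=
    ⟨fun e => C.ab a1 D.ha aa e.symm, fun e => C.bc c2 E.ha e.symm cc⟩
  have Yz : ¬ Nr G a1 z ∧ ¬ Nr G c2 z := ⟨fun e => D.ab z hz e bz, fun e => E.ac z hz e az⟩
  have Yz' : ¬ Nr G a1 z' ∧ ¬ Nr G c2 z' := ⟨fun e => D.ac z' hz' e cz, fun e => E.ab z' hz' e bz'⟩
  have nbz : ¬ Nr G b z := C.ab z hz az
  have nbz' : ¬ Nr G b z' := fun e => C.bc z' hz' e cz
  rcases h.third D.ha E.ha D.ca E.ca far (mem_al.2 ⟨C.hb, Yb⟩) (mem_al.2 ⟨hz, Yz⟩)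
    (mem_al.2 ⟨D.hb, fun e => D.ab b1 D.hb e Nr.rfl, m1⟩) nbz
    (bb.symm.adj fun e => nbz (e ▸ bz)) (bz.adj fun e => nbz (e ▸ bb)) with ⟨m, F⟩ | K
  swap
  · exact C.ac z hz az (K.non b (mem_al.2 ⟨C.hb, Yb⟩) z (mem_al.2 ⟨hz, Yz⟩) z'
      (mem_al.2 ⟨hz', Yz'⟩) nbz nbz' ▸ cz)
  have fm : ∀ x ∈ U, ¬ Nr G a1 x ∧ ¬ Nr G c2 x → Nr G m x := fun x hx e =>
    ((F.cov x hx).resolve_left e.1).resolve_left e.2
  have mb := fm b C.hb Yb
  have mz := fm z hz Yz
  have mz' := fm z' hz' Yz'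
  have mb2 := fm b2 E.hb ⟨m2, fun e => E.ab b2 E.hb e Nr.rfl⟩
  rcases h.ob z y' with ⟨f, hf, -, H⟩ | ⟨T, K⟩
  · exact D.ac f hf ((F.cov f hf).resolve_right (not_or.2 ⟨fun e => (H c2 E.ha e.symm).2 cy.symm,
      fun e => (H m F.hc e.symm).1 mz.symm⟩)) (((C.cov f hf).resolve_left
      fun e => (H a C.ha e.symm).1 az.symm).resolve_left fun e => (H b C.hb e.symm).2 by2.symm)
  have aT := K.d1 az.symm
  have mT := K.d1 mz.symm
  have bT := K.d2 by2.symm
  have cT := K.d2 cy.symm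
  have bm : b ≠ m := fun e => nbz (e ▸ mz)
  have b2T : b2 ∉ T := fun hh => bm (K.one hh C.hb F.hc bb2.symm mb2.symm bT mT)
  obtain ⟨t, ht⟩ := K.ne
  have hU := K.subU ht
  by_cases e1 : Nr G a1 t
  · have h1 := K.cl t ht a1 D.ha e1.symm (fun e => Yz.1 e.symm) fun e => far y' hy' e.symm cy
    have h2 := K.rest h1 C.ha hy aa.symm aT ay fun e => C.ab y hy (e ▸ Nr.rfl) by1
    exact nbz' (K.one h2 C.hb E.hb by1.symm (((E.cov y hy).resolve_left
      (far y hy ay)).resolve_right fun e => C.ab y hy e by1).symm bT b2T ▸ bz')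
  by_cases e2 : Nr G c t
  · have h1 := K.cl t ht c C.hc e2.symm (fun e => C.ac z hz az e.symm)
      fun e => C.bc y' hy' by2 e.symm
    have h2 := K.rest h1 E.ha hz' cc cT cz fun e => Yz'.2 (e ▸ Nr.rfl)
    exact E.bc z hz (K.one h2 F.hc E.hb mz'.symm bz'.symm mT b2T ▸ mz) az
  rcases C.cov t hU with e3 | e3 | e3 <;> rcases F.cov t hU with e4 | e4 | e4
  · exact e1 e4
  · exact C.ac a C.ha Nr.rfl (K.one ht C.ha E.ha e3.symm e4.symm aT cT ▸ cc)
  · exact C.ab b C.hb (K.one ht C.ha F.hc e3.symm e4.symm aT mT ▸ mb) Nr.rfl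
  · exact e1 e4
  · exact C.bc b C.hb Nr.rfl (K.one ht C.hb E.ha e3.symm e4.symm bT cT ▸ cc)
  · exact bm (K.one ht C.hb F.hc e3.symm e4.symm bT mT)
  all_goals exact e2 e3

theorem pure_low {U : Finset V} (h : Low G k U) {a b c y y' u t u' t' : V}
    (C : Code G k U a b c) (P : PP G k (cn G U b) (cn G U c) y y') (hu : u ∈ cn G U a)
    (ht : t ∈ (cn G U b).erase y) (tu : G.Adj t u) (hu' : u' ∈ cn G U a)
    (ht' : t' ∈ (cn G U c).erase y') (tu' : G.Adj t' u') : False := by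
  have hk := h.hk
  obtain ⟨hy, by1⟩ := mem_cn.1 P.hy
  obtain ⟨hy', cy⟩ := mem_cn.1 P.hy'
  have memQ : ∀ {s e x : V}, x ∈ (cn G U s).erase e ↔ x ≠ e ∧ x ∈ U ∧ Nr G s x := by
    intro s e x
    rw [mem_erase, mem_cn]
  rw [mem_cn] at hu hu'
  have t1 := memQ.1 ht
  have t2 := memQ.1 ht'
  have nby : b ≠ y := fun e => C.bc y' hy' (e ▸ Nr.of P.adj) cy
  have ncy : c ≠ y' := fun e => C.bc y hy by1 (e ▸ Nr.of P.adj.symm)
  have cQ : c ∈ (cn G U c).erase y' := memQ.2 ⟨ncy, C.hc, Nr.rfl⟩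
  have q1 : ∀ x ∈ (cn G U b).erase y, Nr G t x := fun x hx => by
    by_cases e : t = x
    exacts [e ▸ Nr.rfl, Nr.of (P.q.2 t ht x hx e)]
  have q2 : ∀ r ∈ (cn G U c).erase y', ∀ x ∈ (cn G U c).erase y', Nr G r x := fun r hr x hx => by
    by_cases e : r = x
    exacts [e ▸ Nr.rfl, Nr.of (P.q'.2 r hr x hx e)]
  have ua : u ≠ a := fun e => C.ab t t1.2.1 (e ▸ Nr.of tu.symm) t1.2.2
  have ua' : u' ≠ a := fun e => C.ac t' t2.2.1 (e ▸ Nr.of tu'.symm) t2.2.2
  obtain ⟨T, K⟩ := (h.ob u y').resolve_left (by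
    rintro ⟨f, hf, -, H⟩
    have bf := ((C.cov f hf).resolve_left fun e => (H a C.ha e.symm).1 hu.2.symm).resolve_right
      fun e => (H c C.hc e.symm).2 cy.symm
    exact (H t t1.2.1 (q1 f (memQ.2 ⟨fun e => (H f hf Nr.rfl).2 (e ▸ Nr.of P.adj.symm), hf,
      bf⟩)).symm).1 (Nr.of tu.symm))
  have aT := K.d1 hu.2.symm
  have cT := K.d2 cy.symm
  have nB : ∀ x ∈ T, ¬ Nr G b x := fun x hx e => t1.1 (K.one (K.cl x hx b C.hb e.symm
    (fun e1 => C.ab u hu.1 hu.2 e1.symm) fun e1 => C.bc y' hy' e1.symm cy) t1.2.1 hy t1.2.2 by1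
    (K.d1 (Nr.of tu.symm)) (K.d2 (Nr.of P.adj.symm)))
  obtain ⟨r0, hr0, cr0⟩ : ∃ r ∈ T, Nr G c r := by
    by_contra hh
    push Not at hh
    exact K.small C.ha (fun x hx => (C.cov x (K.subU hx)).resolve_right
      (not_or.2 ⟨nB x hx, hh x hx⟩)) C.ha hu.1 Nr.rfl hu.2 ua.symm aT (K.d1 Nr.rfl)
  have QT : ∀ r ∈ (cn G U c).erase y', r ≠ c → r ∈ T := fun r hr n =>
    K.rest hr0 C.hc (memQ.1 hr).2.1 cr0.symm cT (q2 r0 (memQ.2
      ⟨fun e => K.d2 Nr.rfl (e ▸ hr0), K.subU hr0, cr0⟩) r hr) n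
  have UT : ∀ r ∈ (cn G U c).erase y', ∀ x ∈ U, Nr G a x → G.Adj r x → x ∈ T := by
    intro r hr x hx ax e
    have rc : r ≠ c := fun e1 => C.ac x hx ax (e1 ▸ Nr.of e)
    exact K.rest (QT r hr rc) C.hc hx (memQ.1 hr).2.2.symm cT (Nr.of e)
      fun e1 => C.ac x hx ax (e1 ▸ Nr.rfl)
  have u'T := UT t' ht' u' hu'.1 hu'.2 tu'
  have uu : u ≠ u' := fun e => K.d1 Nr.rfl (e ▸ u'T)
  have uniq : ∀ r ∈ (cn G U c).erase y', ∀ x ∈ U, Nr G a x → G.Adj r x → x = u' := by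
    intro r hr x hx ax e
    by_contra n
    have xT := UT r hr x hx ax e
    rcases h.ob t t' with ⟨f, hf, cf, H⟩ | ⟨T', K'⟩
    · have hs : cn G U f ⊆ insert y (insert y' (((cn G U a).erase u).erase u')) := by
        intro e he
        rw [mem_cn] at he
        have h1 := H e he.1 he.2
        rcases C.cov e he.1 with e1 | e1 | e1
        · exact mem_insert_of_mem (mem_insert_of_mem (mem_erase.2
            ⟨fun e2 => h1.2 (e2 ▸ Nr.of tu'), memQ.2 ⟨fun e2 => h1.1 (e2 ▸ Nr.of tu), he.1, e1⟩⟩))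
        · exact mem_insert.2 (Or.inl (by_contra fun e2 => h1.1 (q1 e (memQ.2 ⟨e2, he.1, e1⟩))))
        · exact mem_insert_of_mem (mem_insert.2 (Or.inl
            (by_contra fun e2 => h1.2 (q2 t' ht' e (memQ.2 ⟨e2, he.1, e1⟩)))))
      have he := eq_of_subset_of_card_le hs (by
        have := card_insert_le y (insert y' (((cn G U a).erase u).erase u'))
        have := card_insert_le y' (((cn G U a).erase u).erase u')
        rw [card_erase_of_mem (memQ.2 ⟨uu.symm, hu'⟩), card_erase_of_mem (mem_cn.2 hu), C.ca] at this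
        omega)
      have fy : Nr G f y' := (mem_cn.1 (he ▸ mem_insert_of_mem (mem_insert_self _ _))).2
      have fx : Nr G f x := (mem_cn.1 (he ▸ mem_insert_of_mem (mem_insert_of_mem (mem_erase.2
        ⟨n, memQ.2 ⟨fun e1 : x = u => K.d1 Nr.rfl (e1 ▸ xT), hx, ax⟩⟩)))).2
      exact C.ac y' hy' (K.one xT hf C.ha fx.symm ax.symm (K.d2 fy.symm) aT ▸ fy) cy
    · have nA : ∀ x ∈ T', ¬ Nr G a x := fun x hx e => uu (K'.one (K'.cl x hx a C.ha e.symm
        (fun e1 => C.ab t t1.2.1 e1.symm t1.2.2) fun e1 => C.ac t' t2.2.1 e1.symm t2.2.2) hu.1 hu'.1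
        hu.2 hu'.2 (K'.d1 (Nr.of tu)) (K'.d2 (Nr.of tu')))
      have hs : T' ⊆ {y, y'} := fun e he => by
        have h1 := K'.sub e he
        rcases (C.cov e h1.1).resolve_left (nA e he) with e1 | e1
        · exact mem_insert.2 (Or.inl (by_contra fun e2 => h1.2.1 (q1 e (memQ.2 ⟨e2, h1.1, e1⟩))))
        · exact mem_insert_of_mem (mem_singleton.2
            (by_contra fun e2 => h1.2.2 (q2 t' ht' e (memQ.2 ⟨e2, h1.1, e1⟩))))
      have := card_le_card hs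
      have := card_le_two (a := y) (b := y')
      have := core_card K'.ne K'.deg
      omega
  have all : ∀ r ∈ (cn G U c).erase y', r ≠ c → Nr G u' r := by
    intro r hr n
    by_contra hcon
    have rT := QT r hr n
    have hs : nb G T r ⊆ (cn G U c).erase y' := fun x hx => by
      rw [mem_nb] at hx
      have hU := K.subU hx.1
      refine memQ.2 ⟨fun e => K.d2 Nr.rfl (e ▸ hx.1), hU, ((C.cov x hU).resolve_left
        fun e => hcon (uniq r hr x hU e hx.2 ▸ Nr.of hx.2.symm)).resolve_left (nB x hx.1)⟩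
    have := card_add_two_le hs hr cQ n (not_mem_nb_self _ _) fun hh => cT (mem_nb.1 hh).1
    have := K.deg r rT
    have := P.q'.1
    omega
  have t'c : t' ≠ c := fun e => C.ac u' hu'.1 hu'.2 (e ▸ Nr.of tu')
  have key : ∀ x ∈ U, Nr G c x → ¬ Nr G u' x → x ≠ c → x = y' := fun x hx e1 e2 e3 =>
    by_contra fun e4 => e2 (all x (memQ.2 ⟨e4, hx, e1⟩) e3)
  rcases h.ob b u' with ⟨f, hf, -, H⟩ | ⟨T', K'⟩
  · have cf := ((C.cov f hf).resolve_left fun e => (H a C.ha e.symm).2 hu'.2.symm).resolve_left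
      (H f hf Nr.rfl).1
    by_cases e : f = c
    · exact (H t' t2.2.1 (e ▸ t2.2.2)).2 (Nr.of tu'.symm)
    · exact (H y hy (key f hf cf (H f hf Nr.rfl).2 e ▸ Nr.of P.adj.symm)).1 by1
  · have cT' : c ∉ T' := fun hh => K'.lone hh (e := y') fun x hx e =>
      key x (K'.subU hx) (Nr.of e) (K'.sub x hx).2.2 e.ne.symm
    refine K'.small C.ha (fun x hx => (C.cov x (K'.subU hx)).resolve_right
      (not_or.2 ⟨(K'.sub x hx).2.1, fun e => cT' ?_⟩)) C.ha hu'.1 Nr.rfl hu'.2 ua'.symm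
      (K'.d2 hu'.2.symm) (K'.d2 Nr.rfl)
    exact K'.cl x hx c C.hc e.symm (fun e1 => C.bc c C.hc e1 Nr.rfl)
      fun e1 => C.ac u' hu'.1 hu'.2 e1.symm

theorem Code.bk {U : Finset V} {a b c : V} (C : Code G k U a b c) : Bk G k a (cn G U a) :=
  ⟨mem_cn.2 ⟨C.ha, Nr.rfl⟩, C.ca, fun _ hy => (mem_cn.1 hy).2⟩

theorem good_or {U : Finset V} (h : Low G k U) (hp : NoPend G k U) {a b c : V}
    (C : Code G k U a b c) (e : ¬ NA G (cn G U a) (cn G U b)) : GoodC G k U a b c := by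
  have hk := h.hk
  have e' := e
  simp only [NA, not_forall, not_not] at e'
  obtain ⟨x, hx, p, hp', xp⟩ := e'
  rw [mem_cn] at hx hp'
  refine ap h C hx.1 hp'.1 hx.2 hp'.2 xp fun y hy q hna => ?_
  obtain ⟨y', P⟩ := pp_of (by omega) C.s12.bk C.bk (h.tight.down (x := c) fun z hz => by
    rw [mem_rem1] at hz
    rcases C.cov z hz.1 with e1 | e1 | e1
    exacts [mem_union_right _ (mem_cn.2 ⟨hz.1, e1⟩), mem_union_left _ (mem_cn.2 ⟨hz.1, e1⟩),
      absurd e1 (not_or.2 hz.2)]) (fun hh => e hh.symm) hy q hna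
  obtain ⟨t, ht, u, hu, tu, n1, n2⟩ := hp _ ((erase_subset _ _).trans (filter_subset _ _)) P.q y
    (mem_cn.1 hy).1 (notMem_erase _ _)
  obtain ⟨t', ht', u', hu', tu', n1', n2'⟩ := hp _ ((erase_subset _ _).trans (filter_subset _ _))
    P.q' y' (mem_cn.1 P.hy').1 (notMem_erase _ _)
  refine pure_low h C.s23.s12.s23 P (mem_cn.2 ⟨hu, ?_⟩) ht tu (mem_cn.2 ⟨hu', ?_⟩) ht' tu'
  · exact ((C.cov u hu).resolve_left fun e1 => P.na t ht u (mem_cn.2 ⟨hu, e1⟩) tu).resolve_left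
      fun e1 => n1 (mem_erase.2 ⟨n2, mem_cn.2 ⟨hu, e1⟩⟩)
  · exact ((C.cov u' hu').resolve_left fun e1 =>
      n1' (mem_erase.2 ⟨n2', mem_cn.2 ⟨hu', e1⟩⟩)).resolve_left
      fun e1 => P.na' t' ht' u' (mem_cn.2 ⟨hu', e1⟩) tu'

theorem Bk.cl_sub {a x : V} {A T U : Finset V} (h : Bk G k a A) (hA : A ⊆ U) (hT : Cl G T U)
    (hx : x ∈ A) (hxT : x ∈ T) : A ⊆ T := by
  have ha : a ∈ T := by
    rcases h.dom x hx with e | e
    exacts [e ▸ hxT, hT.2 x hxT a (hA h.mem) e.symm]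
  intro y hy
  rcases h.dom y hy with e | e
  exacts [e ▸ ha, hT.2 a ha y (hA hy) e]

/-- The triple lemma. -/
theorem triple_pend (hk : 3 ≤ k) {a b c : V} {A B C : Finset V} (ha : Bk G k a A)
    (hb : Bk G k b B) (hc : Bk G k c C) (dAB : Disjoint A B) (dAC : Disjoint A C)
    (dBC : Disjoint B C) (eAB : ¬ NA G A B) (eCB : ¬ NA G C B)
    (ht : Tight G k 3 (A ∪ B ∪ C)) : ¬ NoPend G k (A ∪ B ∪ C) := by
  intro hp
  set U := A ∪ B ∪ C with hU
  have sA : A ⊆ U := subset_union_left.trans subset_union_left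
  have sB : B ⊆ U := subset_union_right.trans subset_union_left
  have sC : C ⊆ U := subset_union_right
  have hcard : U.card = 3 * (k + 1) := by
    rw [hU, card_union_of_disjoint (disjoint_union_left.2 ⟨dAC, dBC⟩), card_union_of_disjoint dAB,
      ha.card, hb.card, hc.card]
    omega
  have hconn : Conn G U := by
    intro T hT ⟨x, hx⟩
    simp only [NA, not_forall, not_not] at eAB eCB
    obtain ⟨p, hp, p', hp', e1⟩ := eAB
    obtain ⟨r, hr, r', hr', e2⟩ := eCB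
    have hB : B ⊆ T := by
      rcases mem_union.1 (hT.1 hx) with h1 | h1
      · rcases mem_union.1 h1 with h2 | h2
        · exact hb.cl_sub sB hT hp' (hT.2 p (ha.cl_sub sA hT h2 hx hp) p' (sB hp') e1)
        · exact hb.cl_sub sB hT h2 hx
      · exact hb.cl_sub sB hT hr' (hT.2 r (hc.cl_sub sC hT h1 hx hr) r' (sB hr') e2)
    exact Subset.antisymm hT.1 (union_subset (union_subset
      (ha.cl_sub sA hT hp (hT.2 p' (hB hp') p (sA hp) e1.symm)) hB)
      (hc.cl_sub sC hT hr (hT.2 r' (hB hr') r (sC hr) e2.symm)))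
  have hdeg := partA hk hcard hconn ht hp
  have h : Low G k U := ⟨hk, hcard, fun x hx => by
    rw [cn_card hx]; have := hdeg x hx; omega, ht⟩
  have ecn : ∀ {s : V} {S : Finset V}, Bk G k s S → S ⊆ U → cn G U s = S := fun hs hS =>
    (eq_of_subset_of_card_le (fun x hx => mem_cn.2 ⟨hS hx, hs.dom x hx⟩)
      (by rw [hs.card]; exact h.deg _ (hS hs.mem))).symm
  have eA := ecn ha sA
  have eB := ecn hb sB
  have eC := ecn hc sC
  have K : Code G k U a b c := ⟨sA ha.mem, sB hb.mem, sC hc.mem, eA ▸ ha.card, eB ▸ hb.card,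
    eC ▸ hc.card, fun x hx => by
      rcases mem_union.1 hx with h1 | h1
      · rcases mem_union.1 h1 with h2 | h2
        exacts [Or.inl (ha.dom x h2), Or.inr (Or.inl (hb.dom x h2))]
      · exact Or.inr (Or.inr (hc.dom x h1)),
    fun x hx e1 e2 => disjoint_left.1 dAB (eA ▸ mem_cn.2 ⟨hx, e1⟩) (eB ▸ mem_cn.2 ⟨hx, e2⟩),
    fun x hx e1 e2 => disjoint_left.1 dAC (eA ▸ mem_cn.2 ⟨hx, e1⟩) (eC ▸ mem_cn.2 ⟨hx, e2⟩),
    fun x hx e1 e2 => disjoint_left.1 dBC (eB ▸ mem_cn.2 ⟨hx, e1⟩) (eC ▸ mem_cn.2 ⟨hx, e2⟩)⟩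
  exact fin_good h K (good_or h hp K (by rwa [eA, eB]))
    (good_or h hp K.s23.s12.s23 (by rwa [eC, eB]))

end Pool.Agent.IsoKer
end

-- merged part: Pool.Agent.Work.MP_1346a1_co.Zero
section
/-! Extremal graphs of order divisible by `k + 1` with at least three blocks are pure. -/

namespace Pool.Agent.IsoKer

open Finset Pool.Agent.IsoDefs
open scoped Classical

variable {V : Type*} {G : SimpleGraph V} {i k : ℕ}

/-- Block `A` is a clique plus one vertex and the clique sees neither `B` nor `C`. -/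
def Pu (G : SimpleGraph V) (k : ℕ) (A B C : Finset V) : Prop :=
  ∃ y ∈ A, Clq G k (A.erase y) ∧ NA G (A.erase y) B ∧ NA G (A.erase y) C

theorem Pu.symm {A B C : Finset V} (h : Pu G k A B C) : Pu G k A C B :=
  let ⟨y, h1, h2, h3, h4⟩ := h
  ⟨y, h1, h2, h4, h3⟩

theorem pu_of {A B C Q : Finset V} {y : V} (dB : Disjoint A B) (dC : Disjoint A C)
    (hQ : Clq G k Q) (hy : y ∉ Q) (e : A = insert y Q)
    (h : ∀ q ∈ Q, ∀ z, z ∈ B ∨ z ∈ C → G.Adj q z → z ∉ Q → z = y) : Pu G k A B C := by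
  have e2 : A.erase y = Q := by rw [e, erase_insert hy]
  have key : ∀ q ∈ Q, ∀ z, z ∈ B ∨ z ∈ C → z ∉ A → ¬ G.Adj q z := fun q hq z hz hzA a =>
    hzA (e ▸ mem_insert.2 (by
      by_cases hzQ : z ∈ Q
      exacts [Or.inr hzQ, Or.inl (h q hq z hz a hzQ)]))
  exact ⟨y, e ▸ mem_insert_self _ _, e2 ▸ hQ,
    e2 ▸ fun q hq z hz => key q hq z (Or.inl hz) (disjoint_right.1 dB hz),
    e2 ▸ fun q hq z hz => key q hq z (Or.inr hz) (disjoint_right.1 dC hz)⟩

theorem triple_pu (hk : 3 ≤ k) {a b c : V} {A B C : Finset V} (ha : Bk G k a A)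
    (hb : Bk G k b B) (hc : Bk G k c C) (dAB : Disjoint A B) (dAC : Disjoint A C)
    (dBC : Disjoint B C) (eAB : ¬ NA G A B) (eCB : ¬ NA G C B)
    (ht : Tight G k 3 (A ∪ B ∪ C)) : Pu G k A B C ∨ Pu G k B A C ∨ Pu G k C A B := by
  have := triple_pend hk ha hb hc dAB dAC dBC eAB eCB ht
  simp only [NoPend, not_forall, not_exists, not_and, not_not] at this
  obtain ⟨Q, hQU, hQ, y, -, hy, h⟩ := this
  have hci : (insert y Q).card = k + 1 := by rw [card_insert_of_notMem hy, hQ.1]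
  have c1 : ∀ {s : V} {S : Finset V}, Bk G k s S → S ⊆ A ∪ B ∪ C → s ∈ Q → S = insert y Q :=
    fun {s S} hs hS hsQ => eq_of_subset_of_card_le (fun x hx => by
      by_cases hxQ : x ∈ Q
      · exact mem_insert_of_mem hxQ
      · exact mem_insert.2 (Or.inl (h s hsQ x (hS hx) ((hs.dom x hx).resolve_left
          fun e => hxQ (e ▸ hsQ)) hxQ))) (by rw [hci, hs.card])
  have c2 : ∀ {s : V} {S : Finset V}, Bk G k s S → S ⊆ A ∪ B ∪ C → s ∉ Q → ∀ q ∈ Q, q ∈ S →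
      s = y := fun {s S} hs hS hsQ q hq hqS => h q hq s (hS hs.mem)
    ((hs.dom q hqS).resolve_left fun e => hsQ (e ▸ hq)).symm hsQ
  have c3 : ∀ {s : V} {S : Finset V}, Bk G k s S → s = y → Q ⊆ S → S = insert y Q :=
    fun {s S} hs e hS => (eq_of_subset_of_card_le (insert_subset (e ▸ hs.mem) hS)
      (by rw [hci, hs.card])).symm
  have sA : A ⊆ A ∪ B ∪ C := subset_union_left.trans subset_union_left
  have sB : B ⊆ A ∪ B ∪ C := subset_union_right.trans subset_union_left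
  have sC : C ⊆ A ∪ B ∪ C := subset_union_right
  have nab : a ≠ b := fun e => disjoint_left.1 dAB ha.mem (e ▸ hb.mem)
  have nac : a ≠ c := fun e => disjoint_left.1 dAC ha.mem (e ▸ hc.mem)
  have nbc : b ≠ c := fun e => disjoint_left.1 dBC hb.mem (e ▸ hc.mem)
  have key : A = insert y Q ∨ B = insert y Q ∨ C = insert y Q := by
    by_cases h1 : a ∈ Q
    · exact Or.inl (c1 ha sA h1)
    by_cases h2 : b ∈ Q
    · exact Or.inr (Or.inl (c1 hb sB h2))
    by_cases h3 : c ∈ Q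
    · exact Or.inr (Or.inr (c1 hc sC h3))
    have tri : ∀ q ∈ Q, (q ∈ A ∧ a = y) ∨ (q ∈ B ∧ b = y) ∨ (q ∈ C ∧ c = y) := fun q hq => by
      rcases mem_union.1 (hQU hq) with e | e
      · rcases mem_union.1 e with e | e
        exacts [Or.inl ⟨e, c2 ha sA h1 q hq e⟩, Or.inr (Or.inl ⟨e, c2 hb sB h2 q hq e⟩)]
      · exact Or.inr (Or.inr ⟨e, c2 hc sC h3 q hq e⟩)
    obtain ⟨q0, hq0⟩ := (hQ.sp (by omega)).1
    rcases tri q0 hq0 with e | e | e
    · refine Or.inl (c3 ha e.2 fun q hq => ?_)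
      rcases tri q hq with e1 | e1 | e1
      exacts [e1.1, absurd (e.2.trans e1.2.symm) nab, absurd (e.2.trans e1.2.symm) nac]
    · refine Or.inr (Or.inl (c3 hb e.2 fun q hq => ?_))
      rcases tri q hq with e1 | e1 | e1
      exacts [absurd (e1.2.trans e.2.symm) nab, e1.1, absurd (e.2.trans e1.2.symm) nbc]
    · refine Or.inr (Or.inr (c3 hc e.2 fun q hq => ?_))
      rcases tri q hq with e1 | e1 | e1
      exacts [absurd (e1.2.trans e.2.symm) nac, absurd (e1.2.trans e.2.symm) nbc, e1.1]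
  rcases key with e | e | e
  · exact Or.inl (pu_of dAB dAC hQ hy e fun q hq z hz => h q hq z (hz.elim (@sB z) (@sC z)))
  · exact Or.inr (Or.inl (pu_of dAB.symm dBC hQ hy e
      fun q hq z hz => h q hq z (hz.elim (@sA z) (@sC z))))
  · exact Or.inr (Or.inr (pu_of dAC.symm dBC.symm hQ hy e
      fun q hq z hz => h q hq z (hz.elim (@sA z) (@sB z))))

namespace Good

variable {Gd : Finset V} {B : V → Finset V}

theorem spread (h : Good G k Gd B) {x y z : V} (hx : x ∈ Gd) (hy : y ∈ Gd) (hz : z ∈ Gd)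
    (n1 : x ≠ y) (n2 : x ≠ z) (n3 : y ≠ z) (e : ¬ NA G (B x) (B y))
    (p : Pu G k (B x) (B y) (B z)) : Pu G k (B y) (B x) (B z) := by
  obtain ⟨s, h1, h2, h3, h4⟩ := p
  obtain ⟨t, P⟩ := pp_of (by have := h.hk; omega) (h.bk x hx) (h.bk y hy) (h.t2 hx hy n1) e h1 h2 h3
  exact ⟨t, P.hy', P.q', P.na', (pp_third h.hk (h.bk y hy) (h.bk x hx) (h.bk z hz) P.symm
    (h.t3 hz hy hx n3.symm n2.symm n1.symm) h4.symm).symm⟩

theorem pure3 (hk : 3 ≤ k) (h : Good G k Gd B) {x y z : V} (hx : x ∈ Gd) (hy : y ∈ Gd)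
    (hz : z ∈ Gd) (n1 : x ≠ y) (n2 : x ≠ z) (n3 : y ≠ z) (e : ¬ NA G (B x) (B y))
    (e' : ¬ NA G (B z) (B x) ∨ ¬ NA G (B z) (B y)) : Pu G k (B x) (B y) (B z) := by
  have e1 : ¬ NA G (B y) (B x) := fun hh => e hh.symm
  rcases e' with e' | e'
  · rcases triple_pu hk (h.bk y hy) (h.bk x hx) (h.bk z hz) (h.disj y hy x hx n1.symm)
      (h.disj y hy z hz n3) (h.disj x hx z hz n2) e1 e' (h.t3 hy hx hz n1.symm n3 n2) with p | p | p
    exacts [h.spread hy hx hz n1.symm n3 n2 e1 p, p,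
      (h.spread hz hx hy n2.symm n3.symm n1 e' p.symm).symm]
  · rcases triple_pu hk (h.bk x hx) (h.bk y hy) (h.bk z hz) (h.disj x hx y hy n1)
      (h.disj x hx z hz n2) (h.disj y hy z hz n3) e e' (h.t3 hx hy hz n1 n2 n3) with p | p | p
    exacts [p, h.spread hy hx hz n1.symm n3 n2 e1 p,
      h.spread hy hx hz n1.symm n3 n2 e1 (h.spread hz hy hx n3.symm n2.symm n1.symm e' p.symm).symm]

end Good

theorem exists_blocks [Fintype V] (hk : 3 ≤ k) (hG : Conn G univ) (hn : k + 1 < Fintype.card V)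
    (hg : ∀ E : Finset V, Free G k (rem G univ E) → Fintype.card V ≤ (k + 1) * E.card) :
    ∃ (D : Finset V) (B : V → Finset V), Good G k D B ∧ (∀ z, ∃ x ∈ D, z ∈ B x) ∧
      (k + 1) * D.card = Fintype.card V := by
  obtain ⟨D, B, h⟩ := hasSys_of_noSp (G := G) (Or.inr hk) univ fun C h1 h2 => by
    have := h1.2.1
    rw [hG C h2 h1.1, card_univ] at this
    omega
  have h1 := hg D h.iso
  have h2 := h.ineq
  have h3 := h.nonfull
  have h4 := h.bound
  rw [card_univ] at h2 h4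
  have hb : (D.biUnion B).card = ∑ x ∈ D, (B x).card :=
    card_biUnion fun x hx y hy hxy => h.disj x hx y hy hxy
  have hu : D.biUnion B = univ := eq_univ_of_card _ (by
    have := card_le_univ (D.biUnion B)
    omega)
  have hf : (D.filter fun x => (B x).card ≠ k + 1) = ∅ := card_eq_zero.1 (by omega)
  refine ⟨D, B, ⟨Or.inr hk, fun x hx => ⟨h.mem x hx, ?_, h.dom x hx⟩, h.disj,
    fun J hJ _ E hE hf => ?_⟩, fun z => mem_biUnion.1 (hu ▸ mem_univ z), by omega⟩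
  · by_contra hh
    exact notMem_empty x (hf ▸ mem_filter.2 ⟨hx, hh⟩)
  · have h5 := hg _ (h.exchange (fun x _ a ha => by simp [hu] at ha) hf)
    have h6 := card_union_le (D \ J) E
    have h7 := card_sdiff_add_card_eq_card hJ
    have := Nat.mul_le_mul_left (k + 1) (show (D \ J ∪ E).card + 1 ≤ D.card by omega)
    rw [mul_add] at this
    omega

theorem exists_pend [Fintype V] (hk : 3 ≤ k) (hG : Conn G univ)
    (hn : 3 * (k + 1) ≤ Fintype.card V)
    (hg : ∀ E : Finset V, Free G k (rem G univ E) → Fintype.card V ≤ (k + 1) * E.card) :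
    ∃ y P, PendA G k y P := by
  obtain ⟨D, B, h, hcov, hD⟩ := exists_blocks hk hG (by omega) hg
  have hD3 : 3 ≤ D.card := by
    by_contra hh
    have := Nat.mul_le_mul_left (k + 1) (show D.card ≤ 2 by omega)
    omega
  have step : ∀ X : Finset V, X.Nonempty → X.card < Fintype.card V →
      ∃ x ∈ D, ∃ p ∈ X, ∃ z ∈ B x, z ∉ X ∧ G.Adj p z := by
    intro X hX hc
    obtain ⟨w, -, hw⟩ := exists_mem_notMem_of_card_lt_card (t := (univ : Finset V)) hc
    obtain ⟨p, hp, z, -, hz, a⟩ := hG.exists_edge (subset_univ X) hX (mem_univ w) hw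
    obtain ⟨x, hx, hzx⟩ := hcov z
    exact ⟨x, hx, p, hp, z, hzx, hz, a⟩
  obtain ⟨x1, h1⟩ : D.Nonempty := card_pos.1 (by omega)
  have b1 := h.bk x1 h1
  obtain ⟨x2, h2, p, hp, z, hz, hzx, a⟩ := step (B x1) ⟨x1, b1.mem⟩ (by rw [b1.card]; omega)
  have n12 : x1 ≠ x2 := fun e => hzx (e ▸ hz)
  have e12 : ¬ NA G (B x1) (B x2) := fun hh => hh p hp z hz a
  obtain ⟨x3, h3, p', hp', z', hz', hzx', a'⟩ := step (B x1 ∪ B x2)
    ⟨x1, mem_union_left _ b1.mem⟩ (by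
      have := card_union_le (B x1) (B x2)
      rw [b1.card, (h.bk x2 h2).card] at this
      omega)
  obtain ⟨y, hy, q, m1, -⟩ := h.pure3 hk h1 h2 h3 n12 (fun e => hzx' (mem_union_left _ (e ▸ hz')))
    (fun e => hzx' (mem_union_right _ (e ▸ hz'))) e12 ((mem_union.1 hp').imp
      (fun e hh => hh z' hz' p' e a'.symm) fun e hh => hh z' hz' p' e a'.symm)
  have py : ∀ s, NA G ((B x1).erase s) (B x2) → p = s := fun s hs =>
    by_contra fun e => hs p (mem_erase.2 ⟨e, hp⟩) z hz a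
  refine ⟨y, (B x1).erase y, Or.inl q, notMem_erase _ _, fun r hr w hrw => ?_⟩
  obtain ⟨x, hx, hw⟩ := hcov w
  by_cases e1 : x1 = x
  · by_cases e : w = y
    exacts [Or.inr e, Or.inl (mem_erase.2 ⟨e, e1 ▸ hw⟩)]
  by_cases e2 : x2 = x
  · exact absurd hrw (m1 r hr w (e2 ▸ hw))
  obtain ⟨s, -, -, m2, m3⟩ := h.pure3 hk h1 h2 hx n12 e1 e2 e12
    (Or.inl fun hh => hh w hw r (mem_of_mem_erase hr) hrw.symm)
  exact absurd hrw (m3 r (by rwa [← py s m2, py y m1]) w hw)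

theorem pure_iota [Fintype V] (hi : i = 1 ∨ i = 2 ∨ i = 3) (hk : 1 ≤ k) (hG : Conn G univ)
    {S : Finset V} {Q : V → Finset V} (h : Fam G k S Q) (he : rest S Q = ∅) :
    (k + 1) * iota i k G = Fintype.card V := by
  obtain ⟨T, w⟩ := h.weights hk hG
  have h0 : iotaMarked i k (G.induce (kernelSet S Q)) (kernelMarks G S Q) = 0 := by
    refine Nat.eq_zero_of_le_zero (Nat.sInf_le ⟨∅, rfl, fun hh => not_hasF_empty hk
      (hasF_mono hh fun x _ => ?_)⟩)
    exact notMem_empty x.1 (he ▸ mem_rest.2 x.2)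
  rw [w.iota_eq hi hk, w.card_eq, h0, he]
  simp

theorem pure_of_pend [Fintype V] (hk : 1 ≤ k) (hG : Conn G univ)
    (hg : ∀ E : Finset V, Free G k (rem G univ E) → Fintype.card V ≤ (k + 1) * E.card)
    (hp : ∃ y P, PendA G k y P) : ∃ S Q, Fam G k S Q ∧ rest S Q = ∅ := by
  obtain ⟨S, Q, h, hmax⟩ := exists_fam G k
  refine ⟨S, Q, h, ?_⟩
  obtain ⟨T, w⟩ := h.weights hk hG
  have hm : ¬ (rest S Q \ rem G (rest S Q) S).Nonempty := fun hne => by
    have := w.marks (g := 0) hk hG hne hmax hg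
    have := card_pos.2 hne
    omega
  by_contra hne
  have hu := hG (rest S Q) ⟨subset_univ _, fun x hx z _ a => (h.nb_rest hx a).resolve_left
    fun hz => hm ⟨x, mem_sdiff.2 ⟨hx, fun hh => ((mem_rem.1 hh).2 z hz).2 a.symm⟩⟩⟩
    (nonempty_iff_ne_empty.2 hne)
  obtain ⟨y, P, hp⟩ := hp
  exact hmax y (hu ▸ mem_univ y) P (hu ▸ subset_univ P) hp

theorem zero_main [Fintype V] (hi : i = 1 ∨ i = 2 ∨ i = 3) (hk : 3 ≤ k) (hG : G.Connected)
    {q : ℕ} (hq : 3 ≤ q) (hn : Fintype.card V = q * (k + 1)) :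
    iota i k G = q ↔
      ∃ (S : Finset V) (Q : V → Finset V), IsUnitFamily k G S Q ∧ kernelSet S Q = ∅ := by
  have hc := conn_of_connected hG
  constructor
  · intro he
    have hg : ∀ E : Finset V, Free G k (rem G univ E) → Fintype.card V ≤ (k + 1) * E.card :=
      fun E hE => by
        have := Nat.mul_le_mul_left (k + 1) (he ▸ iota_le_free (i := i) (by omega) hE)
        rw [hn, mul_comm]
        exact this
    obtain ⟨S, Q, h, e⟩ := pure_of_pend (by omega) hc hg (exists_pend hk hc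
      (by rw [hn]; exact Nat.mul_le_mul_right _ hq) hg)
    exact ⟨S, Q, fam_iff.1 h, by rw [← coe_rest, e, coe_empty]⟩
  · rintro ⟨S, Q, h, e⟩
    have := pure_iota hi (by omega) hc (fam_iff.2 h) (by
      rw [← coe_rest] at e
      exact coe_eq_empty.1 e)
    rw [hn, mul_comm q] at this
    exact Nat.eq_of_mul_eq_mul_left (by omega) this

end Pool.Agent.IsoKer
end
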